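import Pool.Agent.Helper919_SDT.Stmts

set_option autoImplicit false

namespace Pool.Agent.Helper919.SD

open Ordinal Cardinal Set

/-- The induction. -/
theorem induction_main (hnx : St_nx) (hso : St_so) (htN : St_topN) (htP : St_topP) (hllS : St_llS) (htL : St_topL)
    (hllL : St_llL) (hss0 : St_ss0) (hssN : St_ssN) (hssP : St_ssP) (hssL : St_ssL) (o : Ord → Opt) (Prot : Set Ord)
    (hl : Legit o Prot) (y : Ord) : LLp o Prot y ∧ SS o y := by
  induction y using WellFoundedLT.induction with
  | ind y ih =>
    rcases Ordinal.zero_or_succ_or_isSuccLimit y with rfl | ⟨i, rfl⟩ | hy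
    · exact ⟨fun h => absurd h (lt_irrefl _), hss0 o Prot hl⟩
    · have hi : ∀ z ≤ i, LLp o Prot z ∧ SS o z := fun z hz => ih z (Order.lt_succ_of_le hz)
      have hN : ∀ z ≤ i, NX o z := fun z hz =>
        hnx o Prot hl z (fun w hw => (hi w (hw.le.trans hz)).2) (hi z hz).1
      have hSO : SO o i := hso o Prot hl i (hi i le_rfl).2 (hN i le_rfl)
      have hTN := htN o Prot hl i hN
      have hTP := htP o Prot hl i hN
      have hLL : LL o Prot (i + 1) := hllS o Prot hl i (hi i le_rfl).1 hSO hTN hTP
      refine ⟨fun _ => hLL, ?_⟩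
      by_cases hs : ∃ r B g, o i = Opt.spec r B g
      · exact hssP o Prot hl i hs (fun z hz => (hi z hz).2) (fun z hz => (hi z hz).1) hLL hTP
      · push Not at hs
        exact hssN o Prot hl i hs (fun z hz => (hi z hz).2) (fun z hz => (hi z hz).1) hLL hTN
    · have hTL := htL o Prot hl y
      have hLL : LL o Prot y := hllL o Prot hl y hy (fun z hz => (ih z hz).1) hTL
      refine ⟨fun _ => hLL, hssL o Prot hl y hy (fun z hz => (ih z hz).2) (fun z hz => ?_) hTL⟩
      rcases hz.lt_or_eq with hz | rfl
      · exact (ih z hz).1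
      · exact fun _ => hLL

end Pool.Agent.Helper919.SD
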