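import Pool.Agent.Helper919_SDT.Defs2

set_option autoImplicit false

namespace Pool.Agent.Helper919.SD

open Ordinal Cardinal Set

variable {o : Ord → Opt} {Prot : Set Ord}

/-! ### Restrictions -/

section res

variable (p : Cond) (x : Ord)

theorem res_J {j : Ord} : j ∈ (p.res x).J ↔ j ∈ p.J ∧ j ≤ x := Iff.rfl

theorem res_C {j : Ord} (h : j ≤ x) : (p.res x).C j = p.C j := by simp [Cond.res, h]
theorem res_u {j : Ord} (h : j ≤ x) : (p.res x).u j = p.u j := by funext α; simp [Cond.res, h]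
theorem res_T {j : Ord} (h : j ≤ x) : (p.res x).T j = p.T j := by funext α; simp [Cond.res, h]
theorem res_F {j : Ord} (h : j ≤ x) : (p.res x).F j = p.F j := by simp [Cond.res, h]
theorem res_Pr {j : Ord} (h : j ≤ x) : (p.res x).Pr j = p.Pr j := by simp [Cond.res, h]

theorem res_C' {j : Ord} (h : ¬ j ≤ x) : (p.res x).C j = ∅ := by simp [Cond.res, h]
theorem res_u' {j α : Ord} (h : ¬ j ≤ x) : (p.res x).u j α = ∅ := by simp [Cond.res, h]
theorem res_T' {j α : Ord} (h : ¬ j ≤ x) : (p.res x).T j α = ∅ := by simp [Cond.res, h]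
theorem res_F' {j : Ord} (h : ¬ j ≤ x) : (p.res x).F j = ∅ := by simp [Cond.res, h]
theorem res_Pr' {j : Ord} (h : ¬ j ≤ x) : (p.res x).Pr j = ∅ := by simp [Cond.res, h]

theorem res_co {j : Ord} (h : j ≤ x) : co (p.res x) j = co p j := by
  funext α; simp [co, res_u p x h]

theorem res_res {z x : Ord} (h : z ≤ x) : (p.res x).res z = p.res z := by
  ext1
  · ext j
    simp only [res_J]
    constructor
    · rintro ⟨⟨h1, _⟩, h3⟩; exact ⟨h1, h3⟩
    · rintro ⟨h1, h3⟩; exact ⟨⟨h1, h3.trans h⟩, h3⟩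
  · funext j
    by_cases hj : j ≤ z
    · rw [res_C _ _ hj, res_C _ _ hj, res_C _ _ (hj.trans h)]
    · rw [res_C' _ _ hj, res_C' _ _ hj]
  · funext j
    by_cases hj : j ≤ z
    · rw [res_u _ _ hj, res_u _ _ hj, res_u _ _ (hj.trans h)]
    · funext α; rw [res_u' _ _ hj, res_u' _ _ hj]
  · funext j
    by_cases hj : j ≤ z
    · rw [res_T _ _ hj, res_T _ _ hj, res_T _ _ (hj.trans h)]
    · funext α; rw [res_T' _ _ hj, res_T' _ _ hj]
  · funext j
    by_cases hj : j ≤ z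
    · rw [res_F _ _ hj, res_F _ _ hj, res_F _ _ (hj.trans h)]
    · rw [res_F' _ _ hj, res_F' _ _ hj]
  · funext j
    by_cases hj : j ≤ z
    · rw [res_Pr _ _ hj, res_Pr _ _ hj, res_Pr _ _ (hj.trans h)]
    · rw [res_Pr' _ _ hj, res_Pr' _ _ hj]

theorem nrm_res {p : Cond} (h : Nrm p) (x : Ord) : Nrm (p.res x) where
  J := h.J.mono fun _ hj => hj.1
  C j hj := by
    by_cases hx : j ≤ x
    · rw [res_C _ _ hx]; exact h.C j fun hj' => hj ⟨hj', hx⟩
    · exact res_C' _ _ hx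
  F j hj := by
    by_cases hx : j ≤ x
    · rw [res_F _ _ hx]; exact h.F j fun hj' => hj ⟨hj', hx⟩
    · exact res_F' _ _ hx
  Pr j hj := by
    by_cases hx : j ≤ x
    · rw [res_Pr _ _ hx]; exact h.Pr j fun hj' => hj ⟨hj', hx⟩
    · exact res_Pr' _ _ hx
  u j α hα := by
    by_cases hx : j ≤ x
    · rw [res_C _ _ hx] at hα; rw [res_u _ _ hx]; exact h.u j α hα
    · exact res_u' _ _ hx
  T j α hα := by
    by_cases hx : j ≤ x
    · rw [res_C _ _ hx] at hα; rw [res_T _ _ hx]; exact h.T j α hα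
    · exact res_T' _ _ hx

end res

/-- If `p` is normalised and has indices `≤ y` only then `p.res y = p`. -/
theorem res_self {p : Cond} {y : Ord} (h : Nrm p) (hy : ∀ j ∈ p.J, j ≤ y) : p.res y = p := by
  ext1
  · ext j; exact ⟨fun hj => hj.1, fun hj => ⟨hj, hy j hj⟩⟩
  · funext j
    by_cases hj : j ≤ y
    · rw [res_C _ _ hj]
    · rw [res_C' _ _ hj, h.C j fun h' => hj (hy j h')]
  · funext j
    by_cases hj : j ≤ y
    · rw [res_u _ _ hj]
    · funext α
      rw [res_u' _ _ hj, h.u j α]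
      rw [h.C j fun h' => hj (hy j h')]; exact notMem_empty α
  · funext j
    by_cases hj : j ≤ y
    · rw [res_T _ _ hj]
    · funext α
      rw [res_T' _ _ hj, h.T j α]
      rw [h.C j fun h' => hj (hy j h')]; exact notMem_empty α
  · funext j
    by_cases hj : j ≤ y
    · rw [res_F _ _ hj]
    · rw [res_F' _ _ hj, h.F j fun h' => hj (hy j h')]
  · funext j
    by_cases hj : j ≤ y
    · rw [res_Pr _ _ hj]
    · rw [res_Pr' _ _ hj, h.Pr j fun h' => hj (hy j h')]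

/-! ### The order -/

theorem CLe.refl (p : Cond) : CLe o p p where
  J := Subset.rfl
  C _ _ := Subset.rfl
  ee _ _ _ h1 h2 := absurd h1 h2
  u _ _ _ _ := rfl
  T _ _ _ _ := rfl
  F _ _ := Subset.rfl
  Pr _ _ := Subset.rfl
  kl _ _ _ _ _ h1 h2 := absurd h1 h2

theorem Nrm.mem_J {p : Cond} (h : Nrm p) {j α : Ord} (hα : α ∈ p.C j) : j ∈ p.J := by
  by_contra hj; rw [h.C j hj] at hα; exact hα

theorem CLe.trans {r q p : Cond} (hp : Nrm p) (h : CLe o r q) (h' : CLe o q p) : CLe o r p where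
  J := h'.J.trans h.J
  C j hj := (h'.C j hj).trans (h.C j (h'.J hj))
  ee j hj α h1 h2 β hβ := by
    by_cases h3 : α ∈ q.C j
    · exact h'.ee j hj α h3 h2 β hβ
    · exact h.ee j (h'.J hj) α h1 h3 β (h'.C j hj hβ)
  u j hj α hα := (h.u j (h'.J hj) α (h'.C j hj hα)).trans (h'.u j hj α hα)
  T j hj α hα := (h.T j (h'.J hj) α (h'.C j hj hα)).trans (h'.T j hj α hα)
  F j hj := (h'.F j hj).trans (h.F j (h'.J hj))
  Pr j hj := (h'.Pr j hj).trans (h.Pr j (h'.J hj))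
  kl i γ hi ho α h1 h2 β hβ t ht ξ hξ h0 := by
    by_cases h3 : α ∈ q.C (i + 1)
    · exact h'.kl i γ hi ho α h3 h2 β hβ t ht ξ hξ h0
    · have hγ := hp.mem_J hβ
      refine h.kl i γ (h'.J hi) ho α h1 h3 β (h'.C _ hγ hβ) t ?_ ξ hξ h0
      rw [h'.T _ hγ β hβ]; exact ht

theorem CLe.res {q p : Cond} (h : CLe o q p) (x : Ord) : CLe o (q.res x) (p.res x) where
  J _ hj := ⟨h.J hj.1, hj.2⟩
  C j hj := by rw [res_C _ _ hj.2, res_C _ _ hj.2]; exact h.C j hj.1
  ee j hj := by rw [res_C _ _ hj.2, res_C _ _ hj.2]; exact h.ee j hj.1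
  u j hj := by rw [res_C _ _ hj.2, res_u _ _ hj.2, res_u _ _ hj.2]; exact h.u j hj.1
  T j hj := by rw [res_C _ _ hj.2, res_T _ _ hj.2, res_T _ _ hj.2]; exact h.T j hj.1
  F j hj := by rw [res_F _ _ hj.2, res_F _ _ hj.2]; exact h.F j hj.1
  Pr j hj := by rw [res_Pr _ _ hj.2, res_Pr _ _ hj.2]; exact h.Pr j hj.1
  kl i γ hi ho α h1 h2 β hβ t ht ξ hξ h0 := by
    rw [res_C _ _ hi.2] at h1 h2
    by_cases hγ : γ + 1 ≤ x
    · rw [res_C _ _ hγ] at hβ; rw [res_T _ _ hγ] at ht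
      exact h.kl i γ hi.1 ho α h1 h2 β hβ t ht ξ hξ h0
    · rw [res_C' _ _ hγ] at hβ; exact absurd hβ (notMem_empty β)

theorem CLe.self_res (p : Cond) (x : Ord) : CLe o p (p.res x) where
  J _ hj := hj.1
  C j hj := by rw [res_C _ _ hj.2]
  ee j hj α h1 h2 := by rw [res_C _ _ hj.2] at h2; exact absurd h1 h2
  u j hj α _ := by rw [res_u _ _ hj.2]
  T j hj α _ := by rw [res_T _ _ hj.2]
  F j hj := by rw [res_F _ _ hj.2]
  Pr j hj := by rw [res_Pr _ _ hj.2]
  kl i γ hi ho α h1 h2 := by rw [res_C _ _ hi.2] at h2; exact absurd h1 h2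

/-! ### Membership in `A` and `PP` -/

theorem A.nrm {y : Ord} {p : Cond} (h : p ∈ A o y) : Nrm p := h.1
theorem A.le {y : Ord} {p : Cond} (h : p ∈ A o y) {j : Ord} (hj : j ∈ p.J) : j ≤ y := (h.2 j hj).1
theorem A.leg {y : Ord} {p : Cond} (h : p ∈ A o y) {j : Ord} (hj : j ∈ p.J) : Leg o j p := (h.2 j hj).2
theorem A.core {y : Ord} {p : Cond} (h : p ∈ A o y) {j : Ord} (hj : j ∈ p.J) : LegCore p j :=
  ((Leg_iff o j p).1 (A.leg h hj)).1
theorem A.core' {y : Ord} {p : Cond} (h : p ∈ A o y) {j α : Ord} (hj : α ∈ p.C j) : LegCore p j :=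
  A.core h ((A.nrm h).mem_J hj)
theorem A.opt {y : Ord} {p : Cond} (h : p ∈ A o y) {i : Ord} (hi : i + 1 ∈ p.J) : LegOpt o (PP o i) p i :=
  ((Leg_iff o _ p).1 (A.leg h hi)).2.2 i rfl

theorem A.mono {x y : Ord} (h : x ≤ y) : A o x ⊆ A o y :=
  fun _ hp => ⟨hp.1, fun z hz => ⟨(hp.2 z hz).1.trans h, (hp.2 z hz).2⟩⟩

/-- Legality at `j` depends on the data at the indices `≤ j` only. -/
theorem LegCore.congr {p q : Cond} {j : Ord} (h : LegCore p j) (hJ : ∀ z ≤ j, z ∈ p.J → z ∈ q.J)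
    (hC : ∀ z ≤ j, q.C z = p.C z) (hu : ∀ z ≤ j, q.u z = p.u z) (hT : ∀ z ≤ j, q.T z = p.T z)
    (hF : q.F j = p.F j) (hPr : q.Pr j = p.Pr j) : LegCore q j := by
  have hco : co q j = co p j := by funext α; simp [co, hu j le_rfl]
  have hCj := hC j le_rfl
  have huj := hu j le_rfl
  have hTj := hT j le_rfl
  constructor
  · rw [hCj]; exact h.Cc
  · rw [hCj]; exact h.Clim
  · rw [hCj]; exact h.Clt
  · rw [hCj, huj]; exact h.uc
  · rw [hCj, huj]; exact h.ult
  · rw [hCj, huj]; exact h.ucl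
  · rw [hCj, huj]; exact h.u0
  · rw [hCj, huj]; exact h.us
  · rw [hCj, hTj]; exact h.Tc
  · rw [hCj, hTj]; exact h.Tn
  · rw [hCj, hTj, hco]; exact h.Ts
  · rw [hCj, huj]
    intro α hα z hz
    have hzj := (h.ult α hα z hz).le
    rw [hC z hzj]
    exact ⟨hJ z hzj (h.L1J α hα z hz).1, (h.L1J α hα z hz).2⟩
  · rw [hCj, huj]
    intro α hα z hz
    rw [hu z (h.ult α hα z hz).le]; exact h.L1u α hα z hz
  · rw [hCj, huj, hTj]
    intro α hα z hz
    rw [hT z (h.ult α hα z hz).le]; exact h.L1T α hα z hz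
  · rw [hCj, huj]; exact h.L2u
  · rw [hCj, hTj, hco]; exact h.L2
  · rw [hCj, hTj, hco]; exact h.L3
  · rw [hF]; exact h.Fc
  · rw [hF]; exact h.Flt
  · rw [hPr]; exact h.Prc

/-- Legality at `j` depends on the data at the indices `≤ j` only. -/
theorem LegOpt.congr {P : Set Cnd} {p q : Cond} {i : Ord} (h : LegOpt o P p i)
    (hC : ∀ z ≤ i + 1, q.C z = p.C z) (hu : ∀ z ≤ i + 1, q.u z = p.u z) (hT : ∀ z ≤ i + 1, q.T z = p.T z)
    (hF : ∀ z ≤ i + 1, q.F z = p.F z) (hPr : q.Pr (i + 1) = p.Pr (i + 1)) (hres : q.res i = p.res i)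
    (hk : ∀ γ, o i = Opt.kill γ → γ ≤ i) : LegOpt o P q i := by
  unfold LegOpt at h ⊢
  have hC1 := hC _ le_rfl
  have hu1 := hu _ le_rfl
  have hT1 := hT _ le_rfl
  have hF1 := hF _ le_rfl
  have hTi := hT i (le_of_lt (lt_add_one i))
  have hco1 : co q (i + 1) = co p (i + 1) := by funext α; simp [co, hu1]
  have hcoi : co q i = co p i := by funext α; simp [co, hu i (le_of_lt (lt_add_one i))]
  cases ho : o i with
  | coh =>
    simp only [ho] at h ⊢
    exact ⟨by rw [hC1, hT1]; exact h.v01, by rw [hC1, hT1, hF1]; exact h.F1, by rw [hPr]; exact h.Pr0⟩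
  | kill γ =>
    simp only [ho] at h ⊢
    have hγ : γ + 1 ≤ i + 1 := by gcongr; exact hk γ ho
    exact ⟨by rw [hC1, hu1]; exact h.rg, by rw [hC1, hT1]; exact h.v01, by rw [hC1, hT1]; exact h.top,
      by rw [hC1, hT1]; exact h.cl, by rw [hC1, hT1]; exact h.sub, by rw [hC1, hF _ hγ]; exact h.K,
      by rw [hF1]; exact h.F0, by rw [hPr]; exact h.Pr0⟩
  | spec r B g =>
    simp only [ho] at h ⊢
    exact ⟨by rw [hC1, hT1]; exact h.z0, by rw [hC1, hT1, hres]; exact h.inc,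
      by rw [hC1, hT1, hres]; exact h.bd, by rw [hC1, hT1, hTi, hres, hco1, hcoi]; exact h.sep,
      by rw [hPr, hC1, hT1]; exact h.Pr, by rw [hPr, hC1, hT1, hres, hco1]; exact h.prom,
      by rw [hF1]; exact h.F0⟩

theorem Legit.kill {i γ : Ord} (h : Legit o Prot) (hi : o i = Opt.kill γ) : γ < i ∧ o γ = Opt.coh ∧ γ ∉ Prot := by
  have := h i
  unfold LegitAt at this
  simpa only [hi] using this

theorem Legit.spec {i : Ord} {r : Node → Node → Set Cnd} {B : Ord} {g : Ord → PName} (h : Legit o Prot)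
    (hi : o i = Opt.spec r B g) : Good o (PP o i) r ∧ (∀ κ < B, OKP o (PP o i) r (g κ)) ∧
      ∀ G, OKP o (PP o i) r G → ∃ κ < B, g κ = G := by
  have := h i
  unfold LegitAt at this
  simpa only [hi] using this

/-- Legality at `j` of a condition with the same data at the indices `≤ j`. -/
theorem Leg.congr (hl : Legit o Prot) {p q : Cond} {j : Ord} (h : Leg o j p) (hJ : ∀ z ≤ j, z ∈ q.J ↔ z ∈ p.J)
    (hC : ∀ z ≤ j, q.C z = p.C z) (hu : ∀ z ≤ j, q.u z = p.u z) (hT : ∀ z ≤ j, q.T z = p.T z)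
    (hF : ∀ z ≤ j, q.F z = p.F z) (hPr : ∀ z ≤ j, q.Pr z = p.Pr z) : Leg o j q := by
  rw [Leg_iff] at h ⊢
  refine ⟨h.1.congr (fun z hz => (hJ z hz).2) hC hu hT (hF j le_rfl) (hPr j le_rfl), ?_, ?_⟩
  · intro hj; rw [hF j le_rfl, hPr j le_rfl]; exact h.2.1 hj
  · rintro i rfl
    have hres : q.res i = p.res i := by
      have hi : ∀ z, z ≤ i → z ≤ i + 1 := fun z hz => hz.trans (le_of_lt (lt_add_one i))
      ext1
      · ext z; exact and_congr_left fun hz => hJ z (hi z hz)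
      · funext z
        by_cases hz : z ≤ i
        · rw [res_C _ _ hz, res_C _ _ hz, hC z (hi z hz)]
        · rw [res_C' _ _ hz, res_C' _ _ hz]
      · funext z
        by_cases hz : z ≤ i
        · rw [res_u _ _ hz, res_u _ _ hz, hu z (hi z hz)]
        · funext α; rw [res_u' _ _ hz, res_u' _ _ hz]
      · funext z
        by_cases hz : z ≤ i
        · rw [res_T _ _ hz, res_T _ _ hz, hT z (hi z hz)]
        · funext α; rw [res_T' _ _ hz, res_T' _ _ hz]
      · funext z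
        by_cases hz : z ≤ i
        · rw [res_F _ _ hz, res_F _ _ hz, hF z (hi z hz)]
        · rw [res_F' _ _ hz, res_F' _ _ hz]
      · funext z
        by_cases hz : z ≤ i
        · rw [res_Pr _ _ hz, res_Pr _ _ hz, hPr z (hi z hz)]
        · rw [res_Pr' _ _ hz, res_Pr' _ _ hz]
    exact (h.2.2 i rfl).congr hC hu hT hF (hPr _ le_rfl) hres fun γ hγ => (hl.kill hγ).1.le

theorem A.res (hl : Legit o Prot) {y : Ord} {p : Cond} (h : p ∈ A o y) (x : Ord) : p.res x ∈ A o x := by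
  refine ⟨nrm_res h.1 x, fun z hz => ⟨hz.2, ?_⟩⟩
  refine Leg.congr hl (A.leg h hz.1) ?_ ?_ ?_ ?_ ?_ ?_
  · intro w hw; exact ⟨fun h => h.1, fun h => ⟨h, hw.trans hz.2⟩⟩
  · intro w hw; exact res_C _ _ (hw.trans hz.2)
  · intro w hw; exact res_u _ _ (hw.trans hz.2)
  · intro w hw; exact res_T _ _ (hw.trans hz.2)
  · intro w hw; exact res_F _ _ (hw.trans hz.2)
  · intro w hw; exact res_Pr _ _ (hw.trans hz.2)

end Pool.Agent.Helper919.SD
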