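import Pool.Agent.Helper919_SDT.Basic

set_option autoImplicit false

namespace Pool.Agent.Helper919.SD

open Ordinal Cardinal Set

variable {o : Ord → Opt} {Prot : Set Ord}

/-! ### Threads -/

theorem Agr.refl (w : Set Ord) (α : Ord) (t : Thr) : Agr w α t t := fun _ _ _ _ _ => rfl
theorem Agr.symm {w : Set Ord} {α : Ord} {s t : Thr} (h : Agr w α s t) : Agr w α t s :=
  fun i hi ξ hξ n => (h i hi ξ hξ n).symm
theorem Agr.trans {w : Set Ord} {α : Ord} {s t u : Thr} (h : Agr w α s t) (h' : Agr w α t u) : Agr w α s u :=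
  fun i hi ξ hξ n => (h i hi ξ hξ n).trans (h' i hi ξ hξ n)
theorem Agr.mono {w w' : Set Ord} {α α' : Ord} {s t : Thr} (h : Agr w α s t) (hw : w' ⊆ w) (hα : α' ≤ α) :
    Agr w' α' s t := fun i hi ξ hξ n => h i (hw hi) ξ (hξ.trans hα) n

theorem below_of_lt {x i : Ord} (h : i < x) (t : Thr) : below x t i = t i := by
  funext ξ n; simp [below, h]
theorem below_of_le {x i : Ord} (h : x ≤ i) (t : Thr) (ξ : Ord) (n : ℕ) : below x t i ξ n = 0 := by
  simp [below, not_lt.2 h]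
theorem below_below {x y : Ord} (h : x ≤ y) (t : Thr) : below x (below y t) = below x t := by
  funext i ξ n
  by_cases hi : i < x
  · rw [below_of_lt hi, below_of_lt hi, below_of_lt (hi.trans_le h)]
  · rw [below_of_le (not_lt.1 hi), below_of_le (not_lt.1 hi)]

theorem below_eq_iff {x : Ord} {s t : Thr} : below x s = below x t ↔ ∀ i < x, s i = t i := by
  constructor
  · intro h i hi
    rw [← below_of_lt hi s, ← below_of_lt hi t, h]
  · intro h
    funext i ξ n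
    by_cases hi : i < x
    · rw [below_of_lt hi, below_of_lt hi, h i hi]
    · rw [below_of_le (not_lt.1 hi), below_of_le (not_lt.1 hi)]

theorem agr_below {x : Ord} {w : Set Ord} (hw : ∀ i ∈ w, i < x) (α : Ord) (t : Thr) : Agr w α (below x t) t :=
  fun i hi ξ _ n => by rw [below_of_lt (hw i hi)]

theorem Agr.below {w : Set Ord} {α : Ord} {s t : Thr} (h : Agr w α s t) (x : Ord) :
    Agr w α (SD.below x s) (SD.below x t) := by
  intro i hi ξ hξ n
  by_cases hx : i < x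
  · rw [below_of_lt hx, below_of_lt hx]; exact h i hi ξ hξ n
  · rw [below_of_le (not_lt.1 hx), below_of_le (not_lt.1 hx)]

theorem agr_cut (w : Set Ord) (α : Ord) (t : Thr) : Agr w α (cut w α t) t :=
  fun i hi ξ hξ n => by simp [cut, hi, hξ]

theorem cut_of_agr {w : Set Ord} {α : Ord} {s t : Thr} (h : Agr w α s t) : cut w α s = cut w α t := by
  funext i ξ n
  unfold cut
  split_ifs with h'
  · exact h i h'.1 ξ h'.2 n
  · rfl

theorem agr_of_cut {w : Set Ord} {α : Ord} {s t : Thr} (h : cut w α s = cut w α t) : Agr w α s t :=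
  (agr_cut w α s).symm.trans (h ▸ agr_cut w α t)

theorem cut_cut {w w' : Set Ord} {α α' : Ord} (hw : w ⊆ w') (hα : α ≤ α') (t : Thr) :
    cut w α (cut w' α' t) = cut w α t :=
  cut_of_agr ((agr_cut w' α' t).mono hw hα)

theorem eq_zero_of_cut {w : Set Ord} {α : Ord} {t : Thr} (h : cut w α t = t) {i ξ : Ord} {n : ℕ}
    (hi : ¬ (i ∈ w ∧ ξ ≤ α)) : t i ξ n = 0 := by
  rw [← h]; simp only [cut, hi, if_false]

theorem eq_of_cut {w : Set Ord} {α : Ord} {s t : Thr} (hs : cut w α s = s) (ht : cut w α t = t)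
    (h : Agr w α s t) : s = t := by
  rw [← hs, ← ht]; exact cut_of_agr h

/-! ### Coordinates -/

theorem co_lt {p : Cond} {j α i : Ord} (h : i ∈ co p j α) : i < j := h.1

/-- The coordinates below a recognised index. -/
theorem LegCore.co_eq {p : Cond} {j α z : Ord} (h : LegCore p j) (hα : α ∈ p.C j) (hz : z ∈ p.u j α) :
    co p z α = {i | i ∈ co p j α ∧ i < z} := by
  ext i
  simp only [co, h.L1u α hα z hz, Set.mem_ofPred_eq]
  have hzj := h.ult α hα z hz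
  constructor
  · rintro ⟨h1, h2 | h2⟩
    · exact ⟨⟨h1.trans hzj, Or.inl h2.1⟩, h1⟩
    · exact ⟨⟨h1.trans hzj, Or.inl (h2 ▸ hz)⟩, h1⟩
  · rintro ⟨⟨_, h2 | h2⟩, h3⟩
    · rcases lt_or_eq_of_le (Order.add_one_le_of_lt h3) with h4 | h4
      · exact ⟨h3, Or.inl ⟨h2, h4⟩⟩
      · exact ⟨h3, Or.inr h4⟩
    · exact absurd (h2 ▸ Order.add_one_le_of_lt h3) (not_le_of_gt hzj)

theorem LegCore.co_sub {p : Cond} {j α z : Ord} (h : LegCore p j) (hα : α ∈ p.C j) (hz : z ∈ p.u j α) :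
    co p z α ⊆ co p j α := by rw [h.co_eq hα hz]; exact fun i hi => hi.1

theorem LegCore.co_mono {p : Cond} {j α β : Ord} (h : LegCore p j) (hα : α ∈ p.C j) (hβ : β ∈ p.C j)
    (hab : α ≤ β) : co p j α ⊆ co p j β := by
  rcases eq_or_lt_of_le hab with rfl | hab
  · exact Subset.rfl
  · rintro i ⟨h1, h2 | h2⟩
    · exact ⟨h1, Or.inl (h.L2u α hα β hβ hab h2)⟩
    · exact ⟨h1, Or.inr h2⟩

/-! ### Extensions of conditions -/

theorem CLe.co_eq {q p : Cond} (h : CLe o q p) {j α : Ord} (hj : j ∈ p.J) (hα : α ∈ p.C j) : co q j α = co p j α := by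
  unfold co; rw [h.u j hj α hα]

/-! ### Projections -/

theorem PP.mk {i : Ord} {c : Cnd} (h1 : c.j = i) (h2 : c.p ∈ A o i) (h3 : i ∈ c.p.J) (h4 : c.α ∈ c.p.C i)
    (h5 : c.t ∈ c.p.T i c.α) : c ∈ PP o i := ⟨h1, h2, h3, h4, h5⟩

theorem PP.core {j : Ord} {c : Cnd} (h : c ∈ PP o j) : LegCore c.p c.j := by
  obtain ⟨rfl, h2, h3, h4, h5⟩ := h; exact A.core h2 h3

theorem PP.ts {j : Ord} {c : Cnd} (h : c ∈ PP o j) : cut (co c.p c.j c.α) c.α c.t = c.t := by
  have hc := (PP.core h)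
  obtain ⟨rfl, h2, h3, h4, h5⟩ := h
  exact hc.Ts _ h4 _ h5

/-- The projection of a condition to a recognised index. -/
noncomputable def Cnd.pr (c : Cnd) (z : Ord) : Cnd := ⟨c.p.res z, z, c.α, below z c.t⟩

/-- `z` is recognised by `c`. -/
def Rec (c : Cnd) (z : Ord) : Prop := z = c.j ∨ z ∈ c.p.u c.j c.α

theorem Rec.le {j : Ord} {c : Cnd} (h : c ∈ PP o j) {z : Ord} (hz : Rec c z) : z ≤ j := by
  have hc := (PP.core h)
  obtain ⟨rfl, h2, h3, h4, h5⟩ := h
  rcases hz with hz | hz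
  · exact hz.le
  · exact (hc.ult _ h4 _ hz).le

theorem PP.pr (hl : Legit o Prot) {j : Ord} {c : Cnd} (h : c ∈ PP o j) {z : Ord} (hz : Rec c z) :
    c.pr z ∈ PP o z := by
  have hc := (PP.core h)
  obtain ⟨rfl, h2, h3, h4, h5⟩ := h
  refine ⟨rfl, A.res hl h2 z, ?_⟩
  change z ∈ (c.p.res z).J ∧ c.α ∈ (c.p.res z).C z ∧ below z c.t ∈ (c.p.res z).T z c.α
  rw [res_C _ _ le_rfl, res_T _ _ le_rfl]
  rcases hz with hz | hz
  · subst hz
    refine ⟨⟨h3, le_rfl⟩, h4, ?_⟩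
    have : below c.j c.t = c.t := by
      funext i ξ n
      by_cases hi : i < c.j
      · rw [below_of_lt hi]
      · rw [below_of_le (not_lt.1 hi)]
        exact (eq_zero_of_cut (hc.Ts _ h4 _ h5) fun h' => hi (co_lt h'.1)).symm
    rw [this]; exact h5
  · obtain ⟨h6, h7⟩ := hc.L1J _ h4 _ hz
    refine ⟨⟨h6, le_rfl⟩, h7, ?_⟩
    rw [hc.L1T _ h4 _ hz]; exact mem_image_of_mem _ h5

theorem PP.co_pr {j : Ord} {c : Cnd} (h : c ∈ PP o j) {z : Ord} (hz : Rec c z) :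
    co (c.pr z).p z c.α = {i | i ∈ co c.p c.j c.α ∧ i < z} := by
  have hc := (PP.core h)
  obtain ⟨rfl, h2, h3, h4, h5⟩ := h
  change co (c.p.res z) z c.α = _
  rw [res_co _ _ le_rfl]
  rcases hz with hz | hz
  · subst hz; ext i; exact ⟨fun h => ⟨h, co_lt h⟩, fun h => h.1⟩
  · exact hc.co_eq h4 hz

theorem KLe.refl (c : Cnd) : KLe o c c := ⟨CLe.refl _, le_rfl, Or.inl rfl, Agr.refl _ _ _⟩

theorem KLe.rc {i j : Ord} {c' c : Cnd} (_ : c' ∈ PP o j) (h : c ∈ PP o i) (hle : KLe o c' c) : Rec c' i := by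
  obtain ⟨rfl, -⟩ := h
  exact hle.j

theorem PP.le_pr {j : Ord} {c : Cnd} (h : c ∈ PP o j) {z : Ord} (hz : Rec c z) : KLe o c (c.pr z) := by
  refine ⟨CLe.self_res _ _, le_rfl, hz, ?_⟩
  change Agr (co (c.pr z).p z c.α) c.α c.t (below z c.t)
  rw [PP.co_pr h hz]
  exact (agr_below (fun i hi => hi.2) _ _).symm

theorem LegCore.co_le {p : Cond} {j α β z : Ord} (h : LegCore p j) (hz : z = j ∨ z ∈ p.u j β) (hβ : β ∈ p.C j)
    (hzc : LegCore p z) (hα : α ∈ p.C z) (hab : α ≤ β) : co p z α ⊆ co p j β := by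
  rcases hz with rfl | hz
  · exact h.co_mono hα hβ hab
  · exact (hzc.co_mono hα (h.L1J β hβ z hz).2 hab).trans (h.co_sub hβ hz)

theorem KLe.co {i j : Ord} {c' c : Cnd} (h' : c' ∈ PP o j) (h : c ∈ PP o i) (hle : KLe o c' c) :
    co c.p c.j c.α ⊆ co c'.p c'.j c'.α := by
  have hc' := (PP.core h')
  obtain ⟨rfl, h2, h3, h4, h5⟩ := h
  obtain ⟨rfl, h2', h3', h4', h5'⟩ := h'
  rw [← hle.p.co_eq h3 h4]
  exact hc'.co_le hle.j h4' (A.core h2' (hle.p.J h3)) (hle.p.C _ h3 h4) hle.α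

theorem KLe.trans {i j k : Ord} {c'' c' c : Cnd} (h'' : c'' ∈ PP o k) (h' : c' ∈ PP o j) (h : c ∈ PP o i)
    (h1 : KLe o c'' c') (h2 : KLe o c' c) : KLe o c'' c := by
  have hco := h2.co h' h
  have hc'' := (PP.core h'')
  obtain ⟨rfl, a2, a3, a4, a5⟩ := h
  obtain ⟨rfl, b2, b3, b4, b5⟩ := h'
  obtain ⟨rfl, d2, d3, d4, d5⟩ := h''
  refine ⟨h1.p.trans a2.1 h2.p, h2.α.trans h1.α, ?_, (h1.t.mono hco h2.α).trans h2.t⟩
  have key : ∀ z, z ∈ c'.p.u c'.j c'.α → z ∈ c''.p.u c''.j c''.α := by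
    intro z hz
    have e1 : z ∈ c''.p.u c'.j c'.α := by rw [h1.p.u _ b3 _ b4]; exact hz
    have hcj := A.core d2 (h1.p.J b3)
    have e2 : c''.α ∈ c''.p.C c'.j := by
      rcases h1.j with h | h
      · rw [h]; exact d4
      · exact (hc''.L1J _ d4 _ h).2
    have e3 : z ∈ c''.p.u c'.j c''.α := by
      rcases eq_or_lt_of_le h1.α with h | h
      · rw [← h]; exact e1
      · exact hcj.L2u _ (h1.p.C _ b3 b4) _ e2 h e1
    rcases h1.j with h | h
    · rw [← h]; exact e3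
    · rw [hc''.L1u _ d4 _ h] at e3; exact e3.1
  rcases h2.j with h | h
  · rw [h]; exact h1.j
  · exact Or.inr (key _ h)

theorem KLe.rec_mono {i j : Ord} {c' c : Cnd} (h' : c' ∈ PP o j) (h : c ∈ PP o i) (hle : KLe o c' c) {z : Ord}
    (hz : Rec c z) (hl : Legit o Prot) : Rec c' z :=
  (KLe.trans h' h (PP.pr hl h hz) hle (PP.le_pr h hz)).j

theorem KLe.pr (hl : Legit o Prot) {i j : Ord} {c' c : Cnd} (h' : c' ∈ PP o j) (h : c ∈ PP o i) (hle : KLe o c' c)
    {z : Ord} (hz : Rec c z) : KLe o (c'.pr z) (c.pr z) := by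
  have hz' := KLe.rec_mono h' h hle hz hl
  refine ⟨hle.p.res z, hle.α, Or.inl rfl, ?_⟩
  change Agr (SD.co (c.pr z).p z c.α) c.α (below z c'.t) (below z c.t)
  have h3 := hle.t.below z
  rw [PP.co_pr h hz]
  exact h3.mono (fun i hi => hi.1) le_rfl

theorem pr_pr {z x : Ord} (h : z ≤ x) (c : Cnd) : (c.pr x).pr z = c.pr z := by
  ext1
  · exact res_res _ h
  · rfl
  · rfl
  · exact below_below h _

/-- The projection to an index below. -/
theorem KLe.pr_of_le (hl : Legit o Prot) {i j x : Ord} {c' c : Cnd} (h' : c' ∈ PP o j) (h : c ∈ PP o i)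
    (hle : KLe o c' c) (hx : Rec c' x) (hix : i ≤ x) : KLe o (c'.pr x) c := by
  have hc := h
  obtain ⟨hi, h2, h3, h4, h5⟩ := hc
  have hxj := hx.le h'
  have hself : c.pr i = c := by
    have h6 := (PP.core h)
    ext1
    · exact res_self h2.1 fun j hj => A.le h2 hj
    · exact hi.symm
    · rfl
    · funext k ξ n
      by_cases hk : k < i
      · change below i c.t k ξ n = c.t k ξ n
        rw [below_of_lt hk]
      · change below i c.t k ξ n = c.t k ξ n
        rw [below_of_le (not_lt.1 hk)]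
        refine (eq_zero_of_cut (PP.ts h) fun h' => hk ?_).symm
        rw [← hi]; exact co_lt h'.1
  have hi' : Rec c' i := KLe.rc h' h hle
  have h7 : Rec (c'.pr x) i := by
    rcases eq_or_lt_of_le hix with h8 | h8
    · exact Or.inl h8
    · right
      change i ∈ (c'.p.res x).u x c'.α
      rw [res_u _ _ le_rfl]
      have hc' := (PP.core h')
      obtain ⟨rfl, b2, b3, b4, b5⟩ := h'
      rcases hx with hx | hx
      · subst hx
        rcases hi' with h9 | h9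
        · exact absurd h9 h8.ne
        · exact h9
      · rw [hc'.L1u _ b4 _ hx]
        refine ⟨?_, h8⟩
        rcases hi' with h9 | h9
        · exact absurd (h9 ▸ hxj) (not_le_of_gt h8)
        · exact h9
  have h8 := PP.le_pr (PP.pr hl h' hx) h7
  rw [pr_pr hix] at h8
  have h9 := KLe.pr hl h' h hle (z := i) (Or.inl hi.symm)
  rw [hself] at h9
  exact KLe.trans (PP.pr hl h' hx) (PP.pr hl h' hi') h h8 h9

/-! ### Forcing -/

theorem mt.mono {P N : Set Cnd} {c c' : Cnd} {i : Ord} (hP : P ⊆ PP o i) (hc : c ∈ P) (hc' : c' ∈ P)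
    (h : mt o P N c) (hle : KLe o c' c) : mt o P N c' :=
  fun e he hle' => h e he (KLe.trans (hP he) (hP hc') (hP hc) hle' hle)

theorem nmt.mono {P N : Set Cnd} {c c' : Cnd} {i : Ord} (hP : P ⊆ PP o i) (hc : c ∈ P) (hc' : c' ∈ P)
    (h : nmt o P N c) (hle : KLe o c' c) : nmt o P N c' :=
  fun e he hle' => h e he (KLe.trans (hP he) (hP hc') (hP hc) hle' hle)

theorem mt_of_dense {P N : Set Cnd} {c : Cnd} {i : Ord} (hP : P ⊆ PP o i) (_ : c ∈ P)
    (h : ∀ c' ∈ P, KLe o c' c → ∃ c'' ∈ P, KLe o c'' c' ∧ mt o P N c'') : mt o P N c := by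
  intro c' hc' hle
  obtain ⟨c₂, h2, h3, h4⟩ := h c' hc' hle
  obtain ⟨c₃, h5, h6, d, hd, h7⟩ := h4 c₂ h2 (KLe.refl _)
  exact ⟨c₃, h5, KLe.trans (hP h5) (hP h2) (hP hc') h6 h3, d, hd, h7⟩

theorem not_mt_nmt {P N : Set Cnd} {c : Cnd} (hc : c ∈ P) (h : mt o P N c) (h' : nmt o P N c) : False :=
  h' c hc (KLe.refl _) h

theorem exists_mt_or {P N : Set Cnd} {c : Cnd} (hc : c ∈ P) :
    ∃ c' ∈ P, KLe o c' c ∧ (mt o P N c' ∨ nmt o P N c') := by
  by_cases h : nmt o P N c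
  · exact ⟨c, hc, KLe.refl _, Or.inr h⟩
  · unfold nmt at h
    push Not at h
    obtain ⟨c', h1, h2, h3⟩ := h
    exact ⟨c', h1, h2, Or.inl h3⟩

theorem Dec.mono {P : Set Cnd} {r : Node → Node → Set Cnd} {c c' : Cnd} {i α : Ord} {R : Node → Node → Prop}
    (hP : P ⊆ PP o i) (hc : c ∈ P) (hc' : c' ∈ P) (h : Dec o P r c α R) (hle : KLe o c' c) : Dec o P r c' α R :=
  fun x y hx hy => ⟨fun hR => ((h x y hx hy).1 hR).mono hP hc hc' hle,
    fun hR => ((h x y hx hy).2 hR).mono hP hc hc' hle⟩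

theorem Dec.le {P : Set Cnd} {r : Node → Node → Set Cnd} {c : Cnd} {α β : Ord} {R : Node → Node → Prop}
    (h : Dec o P r c α R) (hb : β ≤ α) : Dec o P r c β R :=
  fun x y hx hy => h x y (hx.trans hb) (hy.trans hb)

theorem Dec.agree {P : Set Cnd} {r : Node → Node → Set Cnd} {c : Cnd} {α : Ord} {R R' : Node → Node → Prop}
    (hc : c ∈ P) (h : Dec o P r c α R) (h' : Dec o P r c α R') {x y : Node} (hx : x.1 ≤ α) (hy : y.1 ≤ α) :
    R x y ↔ R' x y := by
  constructor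
  · intro hR; by_contra hR'
    exact not_mt_nmt hc ((h x y hx hy).1 hR) ((h' x y hx hy).2 hR')
  · intro hR; by_contra hR'
    exact not_mt_nmt hc ((h' x y hx hy).1 hR) ((h x y hx hy).2 hR')

theorem DecG.mono {P : Set Cnd} {G : PName} {c c' : Cnd} {i α : Ord} {Y : Set (Fin G.k → ℕ)}
    (hP : P ⊆ PP o i) (hc : c ∈ P) (hc' : c' ∈ P) (h : DecG o P G c α Y) (hle : KLe o c' c) : DecG o P G c' α Y :=
  fun n => ⟨fun hR => ((h n).1 hR).mono hP hc hc' hle, fun hR => ((h n).2 hR).mono hP hc hc' hle⟩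

theorem DecG.agree {P : Set Cnd} {G : PName} {c : Cnd} {α : Ord} {Y Y' : Set (Fin G.k → ℕ)}
    (hc : c ∈ P) (h : DecG o P G c α Y) (h' : DecG o P G c α Y') : Y = Y' := by
  ext n
  constructor
  · intro hR; by_contra hR'
    exact not_mt_nmt hc ((h n).1 hR) ((h' n).2 hR')
  · intro hR; by_contra hR'
    exact not_mt_nmt hc ((h' n).1 hR) ((h n).2 hR')

theorem Sat.mono {R : Node → Node → Prop} {h : Node → ℚ} {α : Ord} {y : Node} {v v' : ℚ} (hs : Sat R h α y v)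
    (hv : v ≤ v') : Sat R h α y v' := by
  obtain ⟨w, h1, h2⟩ := hs; exact ⟨w, h1.trans_le hv, h2⟩

end Pool.Agent.Helper919.SD
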