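import Pool.Agent.Helper919_SDT.Stmts

set_option autoImplicit false

/-!
# Shared helper lemmas
-/

namespace Pool.Agent.Helper919.SD

open Ordinal Cardinal Set

variable {o : Ord → Opt} {Prot : Set Ord}

/-- A thread of a level extends to a thread of each higher level. -/
theorem LegCore.lift {p : Cond} {j α β : Ord} (h : LegCore p j) (hα : α ∈ p.C j) (hβ : β ∈ p.C j) (hab : α ≤ β)
    {t : Thr} (ht : t ∈ p.T j α) : ∃ z ∈ p.T j β, Agr (co p j α) α z t := by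
  rcases eq_or_lt_of_le hab with rfl | hab
  · exact ⟨t, ht, Agr.refl _ _ _⟩
  · obtain ⟨z, hz⟩ := h.Tn β hβ
    obtain ⟨z', h1, h2, -⟩ := h.L3 α hα β hβ hab 0 (zero_le (a := j)) t ht z hz
      (fun i hi => absurd hi.2 (not_lt.2 (zero_le (a := i))))
    exact ⟨z', h1, h2⟩

/-- Restrictions of threads to lower levels. -/
theorem LegCore.cutMem {p : Cond} {j α β : Ord} (h : LegCore p j) (hα : α ∈ p.C j) (hβ : β ∈ p.C j) (hab : α ≤ β)
    {t : Thr} (ht : t ∈ p.T j β) : cut (co p j α) α t ∈ p.T j α := by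
  rcases eq_or_lt_of_le hab with rfl | hab
  · rw [h.Ts _ hβ _ ht]; exact ht
  · exact h.L2 α hα β hβ hab t ht

/-- Two threads of the same level which agree on their coordinates are equal. -/
theorem LegCore.eqOf {p : Cond} {j α : Ord} (h : LegCore p j) (hα : α ∈ p.C j) {s t : Thr} (hs : s ∈ p.T j α)
    (ht : t ∈ p.T j α) (hst : Agr (co p j α) α s t) : s = t := eq_of_cut (h.Ts _ hα _ hs) (h.Ts _ hα _ ht) hst

theorem A.res_self {y : Ord} {p : Cond} (h : p ∈ A o y) : p.res y = p := SD.res_self h.1 fun _ hj => A.le h hj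

theorem A.res_self' {x y : Ord} {p : Cond} (h : p ∈ A o y) (hx : y ≤ x) : p.res x = p :=
  SD.res_self h.1 fun _ hj => (A.le h hj).trans hx

theorem CLe.trans' {y : Ord} {r q p : Cond} (hp : p ∈ A o y) (h : CLe o r q) (h' : CLe o q p) : CLe o r p :=
  CLe.trans (A.nrm hp) h h'

/-- The pair of a condition and one of its threads. -/
theorem A.pair (hl : Legit o Prot) {y : Ord} {p : Cond} (h : p ∈ A o y) {z α : Ord} {t : Thr}
    (hα : α ∈ p.C z) (ht : t ∈ p.T z α) : (⟨p.res z, z, α, t⟩ : Cnd) ∈ PP o z := by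
  refine ⟨rfl, A.res hl h z, ⟨(A.nrm h).mem_J hα, le_rfl⟩, ?_, ?_⟩
  · change α ∈ (p.res z).C z; rw [res_C _ _ le_rfl]; exact hα
  · change t ∈ (p.res z).T z α; rw [res_T _ _ le_rfl]; exact ht

theorem A.pair' {y : Ord} {p : Cond} (h : p ∈ A o y) {α : Ord} {t : Thr}
    (hα : α ∈ p.C y) (ht : t ∈ p.T y α) : (⟨p, y, α, t⟩ : Cnd) ∈ PP o y :=
  ⟨rfl, h, (A.nrm h).mem_J hα, hα, ht⟩

/-- The order between pairs of the same index from a stronger condition. -/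
theorem kle_of {p q : Cond} {z α β : Ord} {s t : Thr} (h : CLe o q p) (hab : α ≤ β)
    (hst : Agr (co p z α) α s t) : KLe o ⟨q, z, β, s⟩ ⟨p, z, α, t⟩ := ⟨h, hab, Or.inl rfl, hst⟩

theorem PP.res_self {i : Ord} {c : Cnd} (h : c ∈ PP o i) : c.p.res i = c.p := A.res_self h.2.1

theorem PP.pr_self {i : Ord} {c : Cnd} (h : c ∈ PP o i) : c.pr i = c := by
  have h6 := PP.ts h
  obtain ⟨rfl, h2, h3, h4, h5⟩ := h
  ext1
  · exact A.res_self h2
  · rfl
  · rfl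
  · funext k ξ n
    by_cases hk : k < c.j
    · change below c.j c.t k ξ n = c.t k ξ n; rw [below_of_lt hk]
    · change below c.j c.t k ξ n = c.t k ξ n
      rw [below_of_le (not_lt.1 hk)]
      exact (eq_zero_of_cut h6 fun h' => hk (co_lt h'.1)).symm

/-- A pair together with a stronger condition. -/
theorem PP.str {i : Ord} {c : Cnd} (h : c ∈ PP o i) {q : Cond} (hq : q ∈ A o i) (hle : CLe o q c.p) :
    (⟨q, i, c.α, c.t⟩ : Cnd) ∈ PP o i ∧ KLe o ⟨q, i, c.α, c.t⟩ c := by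
  obtain ⟨rfl, h2, h3, h4, h5⟩ := h
  refine ⟨⟨rfl, hq, hle.J h3, hle.C _ h3 h4, ?_⟩, ⟨hle, le_rfl, Or.inl rfl, Agr.refl _ _ _⟩⟩
  change c.t ∈ q.T c.j c.α
  rw [hle.T _ h3 _ h4]; exact h5

/-- A pair of a stronger condition extended to a higher level of that condition. -/
theorem PP.up {i : Ord} {c : Cnd} (h : c ∈ PP o i) {q : Cond} (hq : q ∈ A o i) (hle : CLe o q c.p) {β : Ord}
    (hβ : β ∈ q.C i) (hab : c.α ≤ β) : ∃ z ∈ q.T i β, (⟨q, i, β, z⟩ : Cnd) ∈ PP o i ∧ KLe o ⟨q, i, β, z⟩ c := by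
  obtain ⟨h1, h2⟩ := PP.str h hq hle
  have h3 : LegCore q i := A.core' hq hβ
  have h4 : c.α ∈ q.C i := h1.2.2.2.1
  obtain ⟨z, hz, hag⟩ := h3.lift h4 hβ hab h1.2.2.2.2
  refine ⟨z, hz, A.pair' hq hβ hz, ?_⟩
  obtain ⟨rfl, -, h5, h6, -⟩ := h
  refine ⟨hle, hab, Or.inl rfl, ?_⟩
  rw [← hle.co_eq h5 h6]; exact hag

/-! ### Sequences -/

theorem Sq.anti {N : Set U} {y : Ord} {p : ℕ → Cond} (h : Sq o N y p) {m n : ℕ} (hmn : m ≤ n) :
    CLe o (p n) (p m) := by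
  induction n, hmn using Nat.le_induction with
  | base => exact CLe.refl _
  | succ n _ ih => exact CLe.trans (A.nrm (h.A m)) (h.dec n) ih

theorem Sq.tail {N : Set U} {y : Ord} {p : ℕ → Cond} (h : Sq o N y p) (k : ℕ) : Sq o N y (fun n => p (n + k)) :=
  ⟨fun n => h.mem _, fun n => h.A _, fun n => by
    have := h.dec (n + k); rw [show n + 1 + k = n + k + 1 by omega]; exact this⟩

theorem Sq.res (hl : Legit o Prot) {N : Set U} {δ y x : Ord} {p : ℕ → Cond} (hN : Basic o N δ) (h : Sq o N y p)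
    (hx : U.ord x ∈ N) : Sq o N x (fun n => (p n).res x) :=
  ⟨fun n => hN.res _ _ (h.mem n) hx, fun n => A.res hl (h.A n) x, fun n => (h.dec n).res x⟩

theorem Gen.mono (hl : Legit o Prot) {N : Set U} {y z : Ord} {p : ℕ → Cond} (h : Sq o N y p) (hg : Gen o N p z) (k : ℕ) :
    ∀ D, U.st D ∈ N → DO o (PP o z) D → ∃ n ≥ k, ∃ β ∈ (p n).C z, ∀ t ∈ (p n).T z β,
      (⟨(p n).res z, z, β, t⟩ : Cnd) ∈ D := by
  intro D hD hdo
  obtain ⟨n, β, hβ, ht⟩ := hg D hD hdo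
  have hz := (A.nrm (h.A n)).mem_J hβ
  have hle := h.anti (le_max_left n k)
  refine ⟨max n k, le_max_right _ _, β, hle.C _ hz hβ, fun t ht' => ?_⟩
  have ht2 : t ∈ (p n).T z β := by rw [← hle.T _ hz _ hβ]; exact ht'
  refine hdo.op _ (ht t ht2) _ (A.pair hl (h.A _) (hle.C _ hz hβ) ht') ⟨hle.res z, le_rfl, Or.inl rfl, Agr.refl _ _ _⟩

theorem Gen.tail (hl : Legit o Prot) {N : Set U} {y z : Ord} {p : ℕ → Cond} (h : Sq o N y p) (hg : Gen o N p z) (k : ℕ) :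
    Gen o N (fun n => p (n + k)) z := by
  intro D hD hdo
  obtain ⟨n, hn, h1⟩ := hg.mono hl h k D hD hdo
  refine ⟨n - k, ?_⟩
  have : n - k + k = n := by omega
  simpa only [this] using h1

theorem Gen.res {N : Set U} {z x : Ord} {p : ℕ → Cond} (hg : Gen o N p z) (hx : z ≤ x) :
    Gen o N (fun n => (p n).res x) z := by
  intro D hD hdo
  obtain ⟨n, β, hβ, ht⟩ := hg D hD hdo
  refine ⟨n, β, ?_, ?_⟩
  · rw [res_C _ _ hx]; exact hβ
  · intro t ht'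
    rw [res_T _ _ hx] at ht'
    rw [res_res _ hx]; exact ht t ht'

/-- Genericity at `z` makes `z` an index. -/
theorem Gen.mem_J {N : Set U} {δ y z : Ord} {p : ℕ → Cond} (hN : Basic o N δ) (h : Sq o N y p) (hg : Gen o N p z)
    (hz : U.ord z ∈ N) : ∃ n, z ∈ (p n).J ∧ ((p n).C z).Nonempty := by
  obtain ⟨n, β, hβ, -⟩ := hg _ (hN.all z hz) ⟨Subset.rfl, fun c _ c' hc' _ => hc', fun c hc => ⟨c, hc, KLe.refl _⟩⟩
  exact ⟨n, (A.nrm (h.A n)).mem_J hβ, β, hβ⟩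

theorem zero_mem {N : Set U} {δ : Ord} (hN : Basic o N δ) : U.ord 0 ∈ N :=
  (hN.ord 0 (Ordinal.omega_pos 1)).2 hN.lim.bot_lt

/-- Levels and marks of the conditions of a model are below `δ`. -/
theorem Basic.C_lt {N : Set U} {δ y : Ord} (hN : Basic o N δ) {p : Cond} (hp : U.cond p ∈ N) (hA : p ∈ A o y)
    {j α : Ord} (hα : α ∈ p.C j) : α < δ :=
  (hN.ord α ((A.core' hA hα).Clt α hα)).1 (hN.C p y hp hA j ((A.nrm hA).mem_J hα) α hα)

/-- A node of the level `δ` of a good condition extends a node in a given dense open set of the model. -/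
theorem GoodQ.gen (hl : Legit o Prot) {N : Set U} {δ y z : Ord} {gs : Option Ord} {q : Cond} {p : ℕ → Cond}
    (hN : Basic o N δ) (hq : GoodQ o N δ gs z q) (h : Sq o N y p) (hg : Gen o N p z)
    (hle : ∀ n, CLe o q ((p n).res z)) {D : Set Cnd} (hD : U.st D ∈ N) (hdo : DO o (PP o z) D) {t : Thr}
    (ht : t ∈ q.T z δ) (k : ℕ) : ∃ n ≥ k, ∃ β ∈ (p n).C z, ∃ s ∈ (p n).T z β,
      (⟨(p n).res z, z, β, s⟩ : Cnd) ∈ D ∧ U.cnd ⟨(p n).res z, z, β, s⟩ ∈ N ∧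
      KLe o ⟨q, z, δ, t⟩ ⟨(p n).res z, z, β, s⟩ ∧ s = cut (co (p n) z β) β t := by
  obtain ⟨n, hn, β, hβ, hs⟩ := hg.mono hl h k D hD hdo
  have hJ := (A.nrm (h.A n)).mem_J hβ
  have hβ' : β ∈ ((p n).res z).C z := by rw [res_C _ _ le_rfl]; exact hβ
  have hJ' : z ∈ ((p n).res z).J := ⟨hJ, le_rfl⟩
  have hco : co q z β = co (p n) z β := by
    rw [(hle n).co_eq hJ' hβ', res_co _ _ le_rfl]
  have hqβ := (hle n).C z hJ' hβ'
  have hlt : β < δ := hN.C_lt (h.mem n) (h.A n) hβ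
  have hcm := (A.core' hq.A hqβ).cutMem hqβ hq.C hlt.le ht
  rw [hco, (hle n).T z hJ' β hβ', res_T _ _ le_rfl] at hcm
  refine ⟨n, hn, β, hβ, _, hcm, hs _ hcm, ?_, ?_, rfl⟩
  · exact hN.cnd _ _ _ _ _ (h.mem n) (h.A n) hJ hβ hcm
  · refine ⟨hle n, hlt.le, Or.inl rfl, ?_⟩
    change Agr (co ((p n).res z) z β) β t (cut (co (p n) z β) β t)
    rw [res_co _ _ le_rfl]; exact (agr_cut _ _ _).symm

/-- Good lower bounds from `LL` and good conditions at the index `0`. -/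
theorem exists_good (h0 : St_good0) (hl : Legit o Prot) {y : Ord} (hLL : LLp o Prot y) {N : Set U} {δ : Ord}
    {gs : Option Ord} (hN : Basic o N δ) (hgs : ∀ γ, gs = some γ → γ ∈ Prot) (hy : U.ord y ∈ N) {p : ℕ → Cond}
    (h : Sq o N y p) (hJ : y ∈ (p 0).J) (hg : ∀ z < y, U.ord z ∈ N → Gen o N p z) :
    ∃ q, GoodQ o N δ gs y q ∧ (∀ n, CLe o q (p n)) ∧ (∀ α ∈ q.C y, α ≤ δ) ∧
      (∀ i, i + 1 = y → EXs o N δ p q i ∧ XS o δ p q i) := by
  obtain ⟨q0, h1, h2, h3⟩ := h0 o Prot hl N δ gs hN y p h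
  rcases eq_or_lt_of_le (zero_le (a := y)) with rfl | hy0
  · refine ⟨q0, h1, fun n => ?_, h3, fun i hi => absurd hi (by simp)⟩
    have := h2 n
    rwa [A.res_self (h.A n)] at this
  · obtain ⟨q, a, b, -, d⟩ := hLL hy0 N δ gs hN hgs 0 (zero_mem hN) hy hy0 p h hJ hg q0 h1 h2
    exact ⟨q, a, b, d⟩

end Pool.Agent.Helper919.SD
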