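import Mathlib

set_option autoImplicit false

/-!
# The flat iteration: definitions

Coordinates, indices, positions and levels are ordinals. A condition `p : Cond` describes, for every index `j` of the
countable set `p.J`, an initial part of a tree of threads: the levels `p.C j`, the indices `p.u j α` recognised at the
level `α`, and the countable set `p.T j α` of threads of the level `α`.
-/

namespace Pool.Agent.Helper919.SD

open Ordinal Cardinal Set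

abbrev Ord := Ordinal.{0}

/-- Nodes of the Aronszajn trees; the node `(ξ, n)` has level `ξ`. -/
abbrev Node := Ord × ℕ

/-- Threads: coordinate, position, natural number. -/
abbrev Thr := Ord → Ord → ℕ → ℚ

/-- Agreement on the coordinates of `w` and the positions `≤ α`. -/
def Agr (w : Set Ord) (α : Ord) (s t : Thr) : Prop := ∀ i ∈ w, ∀ ξ ≤ α, ∀ n, s i ξ n = t i ξ n

open Classical in
/-- The part of the thread on the coordinates below `x`. -/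
noncomputable def below (x : Ord) (t : Thr) : Thr := fun i ξ n => if i < x then t i ξ n else 0

open Classical in
/-- The part of the thread on the coordinates of `w` and the positions `≤ α`. -/
noncomputable def cut (w : Set Ord) (α : Ord) (t : Thr) : Thr :=
  fun i ξ n => if i ∈ w ∧ ξ ≤ α then t i ξ n else 0

@[ext] structure Cond where
  J : Set Ord
  C : Ord → Set Ord
  u : Ord → Ord → Set Ord
  T : Ord → Ord → Set Thr
  F : Ord → Set Ord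
  Pr : Ord → Set (Ord × Thr × Ord)

@[ext] structure Cnd where
  p : Cond
  j : Ord
  α : Ord
  t : Thr

structure PName where
  k : ℕ
  v : Fin k → ℚ
  G : Ord → (Fin k → ℕ) → Set Cnd

inductive Opt
  | coh
  | kill (γ : Ord)
  | spec (r : Node → Node → Set Cnd) (B : Ord) (g : Ord → PName)

/-- The coordinates of the threads of the level `α` of the tree with the index `j`. -/
def co (p : Cond) (j α : Ord) : Set Ord := {i | i < j ∧ (i + 1 ∈ p.u j α ∨ i + 1 = j)}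

/-- Everything outside the index set and the level sets is empty. -/
structure Nrm (p : Cond) : Prop where
  J : p.J.Countable
  C : ∀ j, j ∉ p.J → p.C j = ∅
  F : ∀ j, j ∉ p.J → p.F j = ∅
  Pr : ∀ j, j ∉ p.J → p.Pr j = ∅
  u : ∀ j α, α ∉ p.C j → p.u j α = ∅
  T : ∀ j α, α ∉ p.C j → p.T j α = ∅

open Classical in
/-- Restriction to the indices `≤ x`. -/
noncomputable def Cond.res (p : Cond) (x : Ord) : Cond where
  J := {j | j ∈ p.J ∧ j ≤ x}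
  C j := if j ≤ x then p.C j else ∅
  u j α := if j ≤ x then p.u j α else ∅
  T j α := if j ≤ x then p.T j α else ∅
  F j := if j ≤ x then p.F j else ∅
  Pr j := if j ≤ x then p.Pr j else ∅

open Classical in
/-- Union: the data of `r` on the indices of `r`, the data of `p` on the other indices. -/
noncomputable def Cond.uni (r p : Cond) : Cond where
  J := r.J ∪ p.J
  C j := if j ∈ r.J then r.C j else p.C j
  u j α := if j ∈ r.J then r.u j α else p.u j α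
  T j α := if j ∈ r.J then r.T j α else p.T j α
  F j := if j ∈ r.J then r.F j else p.F j
  Pr j := if j ∈ r.J then r.Pr j else p.Pr j

/-- The order of the conditions: `q` extends `p`. -/
structure CLe (o : Ord → Opt) (q p : Cond) : Prop where
  J : p.J ⊆ q.J
  C : ∀ j ∈ p.J, p.C j ⊆ q.C j
  ee : ∀ j ∈ p.J, ∀ α ∈ q.C j, α ∉ p.C j → ∀ β ∈ p.C j, β < α
  u : ∀ j ∈ p.J, ∀ α ∈ p.C j, q.u j α = p.u j α
  T : ∀ j ∈ p.J, ∀ α ∈ p.C j, q.T j α = p.T j α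
  F : ∀ j ∈ p.J, p.F j ⊆ q.F j
  Pr : ∀ j ∈ p.J, p.Pr j ⊆ q.Pr j
  kl : ∀ i γ, i + 1 ∈ p.J → o i = Opt.kill γ → ∀ α ∈ q.C (i + 1), α ∉ p.C (i + 1) →
    ∀ β ∈ p.C (γ + 1), ∀ t ∈ p.T (γ + 1) β, ∀ ξ ≤ β, t γ ξ 0 = 0 → ξ < α

/-- The order of the pairs of a condition and a thread. -/
structure KLe (o : Ord → Opt) (c' c : Cnd) : Prop where
  p : CLe o c'.p c.p
  α : c.α ≤ c'.α
  j : c.j = c'.j ∨ c.j ∈ c'.p.u c'.j c'.α
  t : Agr (co c.p c.j c.α) c.α c'.t c.t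

/-- `c` forces that the generic filter of `P` meets `N`. -/
def mt (o : Ord → Opt) (P N : Set Cnd) (c : Cnd) : Prop :=
  ∀ c' ∈ P, KLe o c' c → ∃ c'' ∈ P, KLe o c'' c' ∧ ∃ d ∈ N, KLe o c'' d

/-- `c` forces that the generic filter of `P` does not meet `N`. -/
def nmt (o : Ord → Opt) (P N : Set Cnd) (c : Cnd) : Prop :=
  ∀ c' ∈ P, KLe o c' c → ¬ mt o P N c'

/-- `c` decides the restriction of `r` to the nodes of the levels `≤ α` as `R`. -/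
def Dec (o : Ord → Opt) (P : Set Cnd) (r : Node → Node → Set Cnd) (c : Cnd) (α : Ord)
    (R : Node → Node → Prop) : Prop :=
  ∀ x y : Node, x.1 ≤ α → y.1 ≤ α → (R x y → mt o P (r x y) c) ∧ (¬ R x y → nmt o P (r x y) c)

/-- `c` decides the tuples of the level `α` of the name `G` as `Y`. -/
def DecG (o : Ord → Opt) (P : Set Cnd) (G : PName) (c : Cnd) (α : Ord) (Y : Set (Fin G.k → ℕ)) : Prop :=
  ∀ n, (n ∈ Y → mt o P (G.G α n) c) ∧ (n ∉ Y → nmt o P (G.G α n) c)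

/-- `h` is bounded below `v` on the predecessors of `y` of the levels `< α`. -/
def Sat (R : Node → Node → Prop) (h : Node → ℚ) (α : Ord) (y : Node) (v : ℚ) : Prop :=
  ∃ v' < v, ∀ x : Node, x.1 < α → R x y → h x ≤ v'

/-- The value of the specialising function of the coordinate `i`. -/
def hv (i : Ord) (t : Thr) : Node → ℚ := fun x => t i (x.1 + 1) x.2

/-- `ζ` is the supremum, not attained, of the non-empty set `C`. -/
def SupNA (C : Set Ord) (ζ : Ord) : Prop := (∀ α ∈ C, α < ζ) ∧ (∀ η < ζ, ∃ α ∈ C, η < α) ∧ C.Nonempty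

/-- The structural part of the legality of the index `j`. -/
structure LegCore (p : Cond) (j : Ord) : Prop where
  Cc : (p.C j).Countable
  Clim : ∀ α ∈ p.C j, Order.IsSuccLimit α
  Clt : ∀ α ∈ p.C j, α < ω_ 1
  uc : ∀ α ∈ p.C j, (p.u j α).Countable
  ult : ∀ α ∈ p.C j, ∀ z ∈ p.u j α, z < j
  ucl : ∀ α ∈ p.C j, ∀ z < j, 0 < z → (∀ w < z, ∃ v ∈ p.u j α, w < v ∧ v < z) → z ∈ p.u j α
  u0 : ∀ α ∈ p.C j, 0 < j → (0 : Ord) ∈ p.u j α
  us : ∀ α ∈ p.C j, ∀ i, i + 1 ∈ p.u j α ∨ i + 1 = j → i ∈ p.u j α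
  Tc : ∀ α ∈ p.C j, (p.T j α).Countable
  Tn : ∀ α ∈ p.C j, (p.T j α).Nonempty
  Ts : ∀ α ∈ p.C j, ∀ t ∈ p.T j α, cut (co p j α) α t = t
  L1J : ∀ α ∈ p.C j, ∀ z ∈ p.u j α, z ∈ p.J ∧ α ∈ p.C z
  L1u : ∀ α ∈ p.C j, ∀ z ∈ p.u j α, p.u z α = {y | y ∈ p.u j α ∧ y < z}
  L1T : ∀ α ∈ p.C j, ∀ z ∈ p.u j α, p.T z α = below z '' p.T j α
  L2u : ∀ α ∈ p.C j, ∀ β ∈ p.C j, α < β → p.u j α ⊆ p.u j β
  L2 : ∀ α ∈ p.C j, ∀ β ∈ p.C j, α < β → ∀ t ∈ p.T j β, cut (co p j α) α t ∈ p.T j α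
  L3 : ∀ α ∈ p.C j, ∀ β ∈ p.C j, α < β → ∀ x ≤ j, ∀ t ∈ p.T j α, ∀ z ∈ p.T j β,
    Agr {i | i ∈ co p j α ∧ i < x} α z t → ∃ z' ∈ p.T j β, Agr (co p j α) α z' t ∧ below x z' = below x z
  Fc : (p.F j).Countable
  Flt : ∀ ξ ∈ p.F j, ξ < ω_ 1
  Prc : (p.Pr j).Countable

/-- Legality at a Cohen coordinate `i` (of the index `i + 1`). -/
structure LegCoh (p : Cond) (i : Ord) : Prop where
  v01 : ∀ α ∈ p.C (i + 1), ∀ t ∈ p.T (i + 1) α, ∀ ξ n, t i ξ n = 0 ∨ t i ξ n = 1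
  F1 : ∀ α ∈ p.C (i + 1), ∀ t ∈ p.T (i + 1) α, ∀ ξ ∈ p.F (i + 1), ξ ≤ α → t i ξ 0 = 1
  Pr0 : p.Pr (i + 1) = ∅

/-- Legality at a coordinate `i` where a club disjoint from `S_γ` is added. -/
structure LegKill (p : Cond) (i γ : Ord) : Prop where
  rg : ∀ α ∈ p.C (i + 1), γ + 1 ∈ p.u (i + 1) α
  v01 : ∀ α ∈ p.C (i + 1), ∀ t ∈ p.T (i + 1) α, ∀ ξ n, (t i ξ n = 0 ∨ t i ξ n = 1) ∧ (n ≠ 0 → t i ξ n = 0)
  top : ∀ α ∈ p.C (i + 1), ∀ t ∈ p.T (i + 1) α, t i α 0 = 1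
  cl : ∀ α ∈ p.C (i + 1), ∀ t ∈ p.T (i + 1) α, ∀ ξ ≤ α, 0 < ξ →
    (∀ η < ξ, ∃ ζ, η < ζ ∧ ζ < ξ ∧ t i ζ 0 = 1) → t i ξ 0 = 1
  sub : ∀ α ∈ p.C (i + 1), ∀ t ∈ p.T (i + 1) α, ∀ ξ ≤ α, t i ξ 0 = 1 → t γ ξ 0 = 1
  K : ∀ ζ, SupNA (p.C (i + 1)) ζ → ζ ∈ p.F (γ + 1)
  F0 : p.F (i + 1) = ∅
  Pr0 : p.Pr (i + 1) = ∅

/-- Legality at a coordinate `i` where the tree named by `r` is specialised. -/
structure LegSpec (o : Ord → Opt) (P : Set Cnd) (p : Cond) (i : Ord) (r : Node → Node → Set Cnd)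
    (B : Ord) (g : Ord → PName) : Prop where
  z0 : ∀ α ∈ p.C (i + 1), ∀ t ∈ p.T (i + 1) α, ∀ ξ n, (¬ ∃ η, ξ = η + 1) → t i ξ n = 0
  inc : ∀ α ∈ p.C (i + 1), ∀ t ∈ p.T (i + 1) α, ∀ c ∈ P, KLe o c ⟨p.res i, i, α, below i t⟩ →
    ∀ R, Dec o P r c α R → ∀ x y : Node, x.1 < α → y.1 < α → R x y → x ≠ y → hv i t x < hv i t y
  bd : ∀ α ∈ p.C (i + 1), ∀ t ∈ p.T (i + 1) α, ∀ c ∈ P, KLe o c ⟨p.res i, i, α, below i t⟩ →
    ∀ R, Dec o P r c α R → ∀ n, ∃ v, Sat R (hv i t) α (α, n) v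
  sep : ∀ α₀ ∈ p.C (i + 1), ∀ α ∈ p.C (i + 1), α₀ < α → ∀ z₀ ∈ p.T (i + 1) α₀, ∀ a ∈ p.T i α,
    Agr (co p i α₀) α₀ a z₀ → ∀ c ∈ P, KLe o c ⟨p.res i, i, α, a⟩ → ∀ R, Dec o P r c α R →
    ∀ (k : ℕ) (n : Fin k → ℕ) (v : Fin k → ℚ), (∀ l, Sat R (hv i z₀) α₀ (α, n l) (v l)) →
    ∃ z ∈ p.T (i + 1) α, below i z = a ∧ Agr (co p (i + 1) α₀) α₀ z z₀ ∧
      ∀ l, Sat R (hv i z) α (α, n l) (v l)
  Pr : ∀ e ∈ p.Pr (i + 1), e.1 ∈ p.C (i + 1) ∧ e.2.1 ∈ p.T (i + 1) e.1 ∧ e.2.2 < B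
  prom : ∀ e ∈ p.Pr (i + 1), ∀ α ∈ p.C (i + 1), e.1 ≤ α → ∀ z ∈ p.T (i + 1) α,
    Agr (co p (i + 1) e.1) e.1 z e.2.1 → ∀ c ∈ P, KLe o c ⟨p.res i, i, α, below i z⟩ →
    ∀ R, Dec o P r c α R → ∀ Y, DecG o P (g e.2.2) c α Y → ∀ fi : Finset ℕ,
    ∃ n ∈ Y, (∀ l, n l ∉ fi) ∧ ∀ l, Sat R (hv i z) α (α, n l) ((g e.2.2).v l)
  F0 : p.F (i + 1) = ∅

/-- Legality of the coordinate `i` (a property of the index `i + 1`). -/
def LegOpt (o : Ord → Opt) (P : Set Cnd) (p : Cond) (i : Ord) : Prop :=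
  match o i with
  | Opt.coh => LegCoh p i
  | Opt.kill γ => LegKill p i γ
  | Opt.spec r B g => LegSpec o P p i r B g

/-- Legality of the index `j`, by recursion on `j`. -/
def Leg (o : Ord → Opt) : Ord → Cond → Prop :=
  WellFounded.fix (r := (· < · : Ord → Ord → Prop)) (C := fun _ => Cond → Prop) wellFounded_lt fun j ih p =>
    LegCore p j ∧ ((¬ ∃ i, i + 1 = j) → p.F j = ∅ ∧ p.Pr j = ∅) ∧ ∀ (i : Ord) (hi : i + 1 = j), LegOpt o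
      {c | c.j = i ∧ Nrm c.p ∧ (∀ z, z ∈ c.p.J → ∃ h : z ≤ i,
          ih z (lt_of_le_of_lt h (hi ▸ (lt_add_one i))) c.p) ∧
        i ∈ c.p.J ∧ c.α ∈ c.p.C i ∧ c.t ∈ c.p.T i c.α} p i

/-- The legal conditions with indices `≤ y`. -/
def A (o : Ord → Opt) (y : Ord) : Set Cond := {p | Nrm p ∧ ∀ z ∈ p.J, z ≤ y ∧ Leg o z p}

/-- The forcing notion of the index `i`. -/
def PP (o : Ord → Opt) (i : Ord) : Set Cnd :=
  {c | c.j = i ∧ c.p ∈ A o i ∧ i ∈ c.p.J ∧ c.α ∈ c.p.C i ∧ c.t ∈ c.p.T i c.α}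

theorem Leg_iff (o : Ord → Opt) (j : Ord) (p : Cond) :
    Leg o j p ↔ LegCore p j ∧ ((¬ ∃ i, i + 1 = j) → p.F j = ∅ ∧ p.Pr j = ∅) ∧
      ∀ i, i + 1 = j → LegOpt o (PP o i) p i := by
  unfold Leg
  rw [WellFounded.fix_eq]
  refine and_congr Iff.rfl (and_congr Iff.rfl ?_)
  refine forall_congr' fun i => forall_congr' fun hi => ?_
  have : {c : Cnd | c.j = i ∧ Nrm c.p ∧ (∀ z, z ∈ c.p.J → ∃ _h : z ≤ i, Leg o z c.p) ∧
        i ∈ c.p.J ∧ c.α ∈ c.p.C i ∧ c.t ∈ c.p.T i c.α} = PP o i := by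
    ext c
    simp only [Set.mem_ofPred_eq, PP, A]
    constructor
    · rintro ⟨h1, h2, h3, h4⟩
      exact ⟨h1, ⟨h2, fun z hz => ⟨(h3 z hz).1, (h3 z hz).2⟩⟩, h4⟩
    · rintro ⟨h1, ⟨h2, h3⟩, h4⟩
      exact ⟨h1, h2, fun z hz => ⟨(h3 z hz).1, (h3 z hz).2⟩, h4⟩
  unfold Leg at this
  rw [this]

end Pool.Agent.Helper919.SD
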