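import Pool.Agent.Helper919_SDT.Defs

set_option autoImplicit false

namespace Pool.Agent.Helper919.SD

open Ordinal Cardinal Set

/-- `r` is (a name over `P` for) a tree order (reflexive on its field) whose levels are given by the first coordinates of
the nodes and which has no uncountable branch. -/
structure Good (o : Ord → Opt) (P : Set Cnd) (r : Node → Node → Set Cnd) : Prop where
  sub : ∀ x y, r x y ⊆ P
  lt : ∀ x y, (r x y).Nonempty → x.1 < ω_ 1 ∧ y.1 < ω_ 1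
  lvl : ∀ c ∈ P, ∀ x y, mt o P (r x y) c → x.1 ≤ y.1 ∧ (x.1 = y.1 → x = y)
  refl : ∀ c ∈ P, ∀ x y, mt o P (r x y) c → mt o P (r x x) c ∧ mt o P (r y y) c
  trans : ∀ c ∈ P, ∀ x y z, mt o P (r x y) c → mt o P (r y z) c → mt o P (r x z) c
  ex : ∀ c ∈ P, ∀ y, mt o P (r y y) c → ∀ ξ ≤ y.1, ∃ c' ∈ P, KLe o c' c ∧ ∃ n, mt o P (r (ξ, n) y) c'
  uniq : ∀ c ∈ P, ∀ x x' y, mt o P (r x y) c → mt o P (r x' y) c → x.1 = x'.1 → x = x'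
  nobr : ∀ c ∈ P, ∀ b : Node → Set Cnd,
    (∀ c' ∈ P, KLe o c' c → ∀ x y, mt o P (b x) c' → mt o P (b y) c' →
      ∃ c'' ∈ P, KLe o c'' c' ∧ (mt o P (r x y) c'' ∨ mt o P (r y x) c'')) →
    ¬ (∀ c' ∈ P, KLe o c' c → ∀ ξ < ω_ 1, ∃ c'' ∈ P, KLe o c'' c' ∧ ∃ x : Node, ξ ≤ x.1 ∧ mt o P (b x) c'')

/-- `G` is (a name over `P` for) a promise for the tree named by `r`. -/
structure OKP (o : Ord → Opt) (P : Set Cnd) (r : Node → Node → Set Cnd) (G : PName) : Prop where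
  sub : ∀ η n, G.G η n ⊆ P
  lt : ∀ η n, (G.G η n).Nonempty → η < ω_ 1
  fld : ∀ c ∈ P, ∀ η n, mt o P (G.G η n) c → ∀ l, mt o P (r (η, n l) (η, n l)) c
  pp1 : ∀ c ∈ P, ∀ η η' n m, mt o P (G.G η n) c → η' ≤ η → (∀ l, mt o P (r (η', m l) (η, n l)) c) →
    mt o P (G.G η' m) c
  pp2 : ∀ c ∈ P, ∀ η η' m, mt o P (G.G η' m) c → η' < η → η < ω_ 1 →
    ∃ c' ∈ P, KLe o c' c ∧ ∃ n, mt o P (G.G η n) c' ∧ ∀ l, mt o P (r (η', m l) (η, n l)) c'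

/-- Legitimacy of the option of the coordinate `i`; `Prot` is the set of the protected coordinates. -/
def LegitAt (o : Ord → Opt) (Prot : Set Ord) (i : Ord) : Prop :=
  match o i with
  | Opt.coh => True
  | Opt.kill γ => γ < i ∧ o γ = Opt.coh ∧ γ ∉ Prot
  | Opt.spec r B g => Good o (PP o i) r ∧ (∀ κ < B, OKP o (PP o i) r (g κ)) ∧
      ∀ G, OKP o (PP o i) r G → ∃ κ < B, g κ = G

/-- The sequence of options is legitimate (of length `Ord`). -/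
def Legit (o : Ord → Opt) (Prot : Set Ord) : Prop := ∀ i, LegitAt o Prot i

/-- The sequence of options is legitimate below `l`. -/
def LegitTo (o : Ord → Opt) (Prot : Set Ord) (l : Ord) : Prop := ∀ i < l, LegitAt o Prot i

/-- Dense open subsets. -/
structure DO (o : Ord → Opt) (P D : Set Cnd) : Prop where
  sub : D ⊆ P
  op : ∀ c ∈ D, ∀ c' ∈ P, KLe o c' c → c' ∈ D
  dn : ∀ c ∈ P, ∃ c' ∈ D, KLe o c' c

/-- Elements of models. -/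
inductive U
  | ord (i : Ord)
  | cond (p : Cond)
  | cnd (c : Cnd)
  | st (D : Set Cnd)
  | fn (s : Ord → ℕ → ℚ)

/-- The model `N` with `N ∩ ω₁ = δ`. -/
structure Basic (o : Ord → Opt) (N : Set U) (δ : Ord) : Prop where
  cnt : N.Countable
  lim : Order.IsSuccLimit δ
  lt : δ < ω_ 1
  ord : ∀ ξ < ω_ 1, U.ord ξ ∈ N ↔ ξ < δ
  succ : ∀ i, U.ord i ∈ N ↔ U.ord (i + 1) ∈ N
  kill : ∀ i γ, U.ord i ∈ N → o i = Opt.kill γ → U.ord γ ∈ N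
  J : ∀ p y, U.cond p ∈ N → p ∈ A o y → ∀ j ∈ p.J, U.ord j ∈ N
  C : ∀ p y, U.cond p ∈ N → p ∈ A o y → ∀ j ∈ p.J, ∀ α ∈ p.C j, U.ord α ∈ N
  u : ∀ p y, U.cond p ∈ N → p ∈ A o y → ∀ j ∈ p.J, ∀ α ∈ p.C j, ∀ z ∈ p.u j α, U.ord z ∈ N
  F : ∀ p y, U.cond p ∈ N → p ∈ A o y → ∀ j ∈ p.J, ∀ α ∈ p.F j, U.ord α ∈ N
  Pr : ∀ p y, U.cond p ∈ N → p ∈ A o y → ∀ j ∈ p.J, ∀ e ∈ p.Pr j, U.ord e.2.2 ∈ N
  cnd : ∀ p y j α t, U.cond p ∈ N → p ∈ A o y → j ∈ p.J → α ∈ p.C j → t ∈ p.T j α → U.cnd ⟨p.res j, j, α, t⟩ ∈ N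
  cp : ∀ c, U.cnd c ∈ N → U.cond c.p ∈ N ∧ U.ord c.j ∈ N ∧ U.ord c.α ∈ N
  res : ∀ p x, U.cond p ∈ N → U.ord x ∈ N → U.cond (p.res x) ∈ N
  uni : ∀ r p, U.cond r ∈ N → U.cond p ∈ N → U.cond (r.uni p) ∈ N
  all : ∀ z, U.ord z ∈ N → U.st (PP o z) ∈ N
  lev : ∀ z s ξ, U.ord z ∈ N → U.ord s ∈ N → U.ord ξ ∈ N → s < z → U.st {c | c ∈ PP o z ∧ ξ < c.α ∧ s ∈ c.p.u z c.α} ∈ N
  dec : ∀ i r B g, U.ord i ∈ N → o i = Opt.spec r B g → ∀ x y : Node, U.ord x.1 ∈ N → U.ord y.1 ∈ N →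
    U.st {c | c ∈ PP o i ∧ (mt o (PP o i) (r x y) c ∨ nmt o (PP o i) (r x y) c)} ∈ N

/-- The closure of (the set of the ordinals of) the model. -/
def Cl (N : Set U) (z : Ord) : Prop :=
  U.ord z ∈ N ∨ (0 < z ∧ ∀ w < z, ∃ v, U.ord v ∈ N ∧ w < v ∧ v < z)

/-- The sequence `p` is generic over `N` at the index `z`. -/
def Gen (o : Ord → Opt) (N : Set U) (p : ℕ → Cond) (z : Ord) : Prop :=
  ∀ D, U.st D ∈ N → DO o (PP o z) D →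
    ∃ n, ∃ β ∈ (p n).C z, ∀ t ∈ (p n).T z β, (⟨(p n).res z, z, β, t⟩ : Cnd) ∈ D

/-- A decreasing sequence of conditions of the model with indices `≤ y`. -/
structure Sq (o : Ord → Opt) (N : Set U) (y : Ord) (p : ℕ → Cond) : Prop where
  mem : ∀ n, U.cond (p n) ∈ N
  A : ∀ n, p n ∈ A o y
  dec : ∀ n, CLe o (p (n + 1)) (p n)

open Classical in
/-- `q` is good at `y` over the model `N` with `N ∩ ω₁ = δ`. -/
structure GoodQ (o : Ord → Opt) (N : Set U) (δ : Ord) (gs : Option Ord) (y : Ord) (q : Cond) : Prop where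
  A : q ∈ A o y
  J : y ∈ q.J
  C : δ ∈ q.C y
  u : q.u y δ = {z | z < y ∧ Cl N z}
  mks : ∀ t ∈ q.T y δ, ∀ γ < y, U.ord γ ∈ N → o γ = Opt.coh → t γ δ 0 = if gs = some γ then 0 else 1

/-- The first extra property in `LL`: prescribed initial segments at Cohen and kill coordinates. The data at the index
`i + 1` are empty, or have a last level `am` and are constant. -/
def EXs (o : Ord → Opt) (N : Set U) (δ : Ord) (p : ℕ → Cond) (q : Cond) (i : Ord) : Prop :=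
  (∀ r B g, o i ≠ Opt.spec r B g) → ∀ a ∈ q.T i δ, ∀ θ < δ, ∀ s : Ord → ℕ → ℚ, U.fn s ∈ N →
    (∀ ξ n, s ξ n = 0 ∨ s ξ n = 1) →
    (o i = Opt.coh → ∀ n, ∀ ξ ∈ (p n).F (i + 1), s ξ 0 = 1) →
    (∀ γ, o i = Opt.kill γ → (∀ ξ n, n ≠ 0 → s ξ n = 0) ∧ (∀ ξ ≤ θ, s ξ 0 = 1 → a γ ξ 0 = 1) ∧
      ∀ ξ ≤ θ, 0 < ξ → (∀ η < ξ, ∃ ζ, η < ζ ∧ ζ < ξ ∧ s ζ 0 = 1) → s ξ 0 = 1) →
    ((∀ n, (p n).C (i + 1) = ∅) ∨ ∃ am ∈ (p 0).C (i + 1), (∀ α ∈ (p 0).C (i + 1), α ≤ am) ∧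
      (∀ n, (p n).C (i + 1) = (p 0).C (i + 1)) ∧ am ≤ θ ∧ ∃ z₀ ∈ (p 0).T (i + 1) am,
        Agr (co (p 0) i am) am a z₀ ∧ ∀ ξ ≤ am, ∀ n, s ξ n = z₀ i ξ n) →
    ∃ z ∈ q.T (i + 1) δ, below i z = a ∧ ∀ ξ ≤ θ, ∀ n, z i ξ n = s ξ n

/-- The second extra property in `LL`: extensions with small growth at specialising coordinates. -/
def XS (o : Ord → Opt) (δ : Ord) (p : ℕ → Cond) (q : Cond) (i : Ord) : Prop :=
  ∀ am ∈ (p 0).C (i + 1), (∀ α ∈ (p 0).C (i + 1), α ≤ am) → (∀ n, (p n).C (i + 1) = (p 0).C (i + 1)) →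
    ∀ r B g, o i = Opt.spec r B g → ∀ z₁ ∈ (p 0).T (i + 1) am, ∀ a ∈ q.T i δ, Agr (co (p 0) i am) am a z₁ →
    ∀ e : ℚ, 0 < e → ∃ z ∈ q.T (i + 1) δ, below i z = a ∧ Agr (co (p 0) (i + 1) am) am z z₁ ∧
      ∀ c ∈ PP o i, KLe o c ⟨q.res i, i, δ, a⟩ → ∀ R, Dec o (PP o i) r c δ R →
        ∀ n v, Sat R (hv i z₁) am (δ, n) v → Sat R (hv i z) δ (δ, n) (v + e)

/-- The extension lemma at the index `y`. -/
def LL (o : Ord → Opt) (Prot : Set Ord) (y : Ord) : Prop :=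
  ∀ (N : Set U) (δ : Ord) (gs : Option Ord), Basic o N δ → (∀ γ, gs = some γ → γ ∈ Prot) →
    ∀ x, U.ord x ∈ N → U.ord y ∈ N → x < y → ∀ p : ℕ → Cond, Sq o N y p → y ∈ (p 0).J →
    (∀ z < y, U.ord z ∈ N → Gen o N p z) → ∀ qx, GoodQ o N δ gs x qx → (∀ n, CLe o qx ((p n).res x)) →
    ∃ q, GoodQ o N δ gs y q ∧ (∀ n, CLe o q (p n)) ∧ CLe o (q.res x) qx ∧ (∀ α ∈ q.C y, α ≤ δ) ∧
      (∀ i, i + 1 = y → EXs o N δ p q i ∧ XS o δ p q i)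

/-- Levels deep in a dense open set. -/
def SS (o : Ord → Opt) (y : Ord) : Prop :=
  ∀ p ∈ A o y, ∀ D, DO o (PP o y) D → ∃ q ∈ A o y, CLe o q p ∧ ∃ β ∈ q.C y, ∀ t ∈ q.T y β,
    (⟨q, y, β, t⟩ : Cnd) ∈ D

end Pool.Agent.Helper919.SD
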