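import Mathlib
import Pool.Agent.Helper292.SP.Lang

set_option autoImplicit false

/-!
# Trees on `ω₁`, stationary sets and forcing notions in a forcing extension

The sentences of the forcing language over a preordered set `P` of conditions are those of `Pool.Agent.Helper292.SP.Lang`: a
sentence is the set of the conditions which force it; a name for a relation on ground model sets is a map to sets of
conditions, and `meets` turns the values of such a map into sentences.
-/

namespace Pool.Agent.Helper919.SD

open Cardinal Set Ordinal
open Pool.Agent.Helper292.SP (fnot fand fall for' fimp fiff fex fground meets IsFun)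

universe u

/-- The set `ω₁`. -/
abbrev W : Type := (Ordinal.omega.{0} 1).ToType

section Language

variable {P : Type u} [Preorder P]

/-- The continuum hypothesis: some family of subsets of `ℕ` indexed by `ω₁` contains every subset of `ℕ`. -/
def CH : Set P := fex fun E : W → ℕ → Set P => fall fun x : ℕ → Set P =>
  fex fun a : W => fall fun n : ℕ => fiff (meets (x n)) (meets (E a n))

/-- `T` is the strict order of a tree on `ω₁`: a strict partial order such that the set of the predecessors of every
element is linearly ordered, and which has no infinite descending sequences. -/
def TreeOrd (T : W → W → Set P) : Set P :=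
  fand (fall fun x : W => fnot (meets (T x x)))
    (fand (fall fun x : W => fall fun y : W => fall fun z : W =>
        fimp (fand (meets (T x y)) (meets (T y z))) (meets (T x z)))
      (fand (fall fun x : W => fall fun y : W => fall fun z : W => fimp (fand (meets (T x z)) (meets (T y z)))
          (for' (fground (x = y)) (for' (meets (T x y)) (meets (T y x)))))
        (fnot (fex fun s : ℕ → W → Set P => fand (IsFun s) (fall fun n : ℕ => fall fun x : W => fall fun y : W =>
          fimp (fand (meets (s n x)) (meets (s (n + 1) y))) (meets (T y x)))))))

/-- There is an uncountable chain (equivalently, an uncountable branch): an unbounded subset `b` of `ω₁` whose elements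
are pairwise comparable in `T`. -/
def UBranch (T : W → W → Set P) : Set P :=
  fex fun b : W → Set P => fand
    (fall fun x : W => fall fun y : W => fimp (fand (meets (b x)) (meets (b y)))
      (for' (fground (x = y)) (for' (meets (T x y)) (meets (T y x)))))
    (fall fun x : W => fex fun y : W => fand (fground (x < y)) (meets (b y)))

/-- The function `h` is the height function of the tree order `T` on `ω₁`: the heights of the predecessors of `y` are exactly
the ordinals below the height of `y`, strictly increasing along `T`; and every countable ordinal is the height of some
element, that is, the tree has the height `ω₁`. -/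
def IsHeight (T : W → W → Set P) (h : W → W → Set P) : Set P :=
  fand (IsFun h)
    (fand (fall fun x : W => fall fun y : W => fall fun a : W => fall fun b : W =>
        fimp (fand (meets (T x y)) (fand (meets (h x a)) (meets (h y b)))) (fground (a < b)))
      (fand (fall fun y : W => fall fun b : W => fall fun a : W =>
          fimp (fand (meets (h y b)) (fground (a < b))) (fex fun x : W => fand (meets (T x y)) (meets (h x a))))
        (fall fun a : W => fex fun x : W => meets (h x a))))

/-- `T` is (the strict order of) an Aronszajn tree on `ω₁`: a tree of height `ω₁` with countable levels (the function `e` to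
`ℕ` is one-to-one on every level) and without an uncountable branch. -/
def Aron (T : W → W → Set P) : Set P :=
  fand (TreeOrd T) (fand (fnot (UBranch T))
    (fex fun h : W → W → Set P => fex fun e : W → ℕ → Set P => fand (IsHeight T h) (fand (IsFun e)
      (fall fun x : W => fall fun y : W => fall fun a : W => fall fun n : ℕ =>
        fimp (fand (fand (meets (h x a)) (meets (h y a))) (fand (meets (e x n)) (meets (e y n))))
          (fground (x = y))))))

/-- The tree is special: it is the union of the countably many antichains given by the values of a function to `ℕ`. -/
def SpecialT (T : W → W → Set P) : Set P :=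
  fex fun f : W → ℕ → Set P => fand (IsFun f) (fall fun x : W => fall fun y : W => fall fun n : ℕ =>
    fnot (fand (meets (T x y)) (fand (meets (f x n)) (meets (f y n)))))

/-- Every Aronszajn tree is special. -/
def SATH : Set P := fall fun T : W → W → Set P => fimp (Aron T) (SpecialT T)

/-- `K` is a closed unbounded subset of `ω₁`. -/
def Club (K : W → Set P) : Set P :=
  fand (fall fun x : W => fex fun y : W => fand (fground (x < y)) (meets (K y)))
    (fall fun x : W => fimp (fand (fground (∃ y, y < x)) (fall fun y : W => fimp (fground (y < x))
      (fex fun z : W => fand (fground (y < z ∧ z < x)) (meets (K z))))) (meets (K x)))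

/-- `S` is a stationary subset of `ω₁`. -/
def Stat (S : W → Set P) : Set P :=
  fall fun K : W → Set P => fimp (Club K) (fex fun x : W => fand (meets (K x)) (meets (S x)))

end Language

/-! ### Forcing notions in the extension -/

/-- A (full) name for a forcing notion of the extension by `P`: it is forced that `le` is a preorder on the set `dom` of
elements of the ground model set `car`. -/
structure FName (P : Type 1) [Preorder P] where
  car : Type 1
  dom : car → Set P
  le : car → car → Set P
  refl : ∀ p x, p ∈ meets (dom x) → p ∈ meets (le x x)
  trans : ∀ p x y z, p ∈ meets (dom x) → p ∈ meets (dom y) → p ∈ meets (dom z) → p ∈ meets (le x y) →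
    p ∈ meets (le y z) → p ∈ meets (le x z)

section TwoStep

theorem meets_mono {P : Type u} [Preorder P] {N : Set P} {p q : P} (h : p ∈ meets N) (hq : q ≤ p) : q ∈ meets N :=
  fun r hr => h r (hr.trans hq)

variable {P : Type 1} [Preorder P]

/-- The two-step iteration: the pairs `(p, x)` such that `p` forces that `x` is an element of the forcing notion named by
`Q`. -/
def TS (Q : FName P) : Type 1 := {z : P × Q.car // z.1 ∈ meets (Q.dom z.2)}

/-- The order of the two-step iteration: `(p', x') ≤ (p, x)` iff `p' ≤ p` and `p'` forces that `x'` is below `x`. -/
instance (Q : FName P) : Preorder (TS Q) where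
  le z' z := z'.1.1 ≤ z.1.1 ∧ z'.1.1 ∈ meets (Q.le z'.1.2 z.1.2)
  le_refl z := ⟨le_rfl, Q.refl _ _ z.2⟩
  le_trans z₁ z₂ z₃ h h' := ⟨h.1.trans h'.1, Q.trans _ _ _ _ z₁.2 (meets_mono z₂.2 h.1)
    (meets_mono z₃.2 (h.1.trans h'.1)) h.2 (meets_mono h'.2 h.1)⟩

theorem TS.le_def {Q : FName P} {z' z : TS Q} :
    z' ≤ z ↔ z'.1.1 ≤ z.1.1 ∧ z'.1.1 ∈ meets (Q.le z'.1.2 z.1.2) := Iff.rfl

/-- The names of the extension by `P` as names of the extension by the two-step iteration. -/
def lft (Q : FName P) (N : Set P) : Set (TS Q) := {z | ∃ n ∈ N, z.1.1 ≤ n}

/-- The sentence of the forcing language of `P` saying that all conditions of the forcing notion named by `Q` force the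
sentence `Φ`. -/
def forcesAll (Q : FName P) (Φ : Set (TS Q)) : Set P := {p | ∀ z : TS Q, z.1.1 ≤ p → z ∈ Φ}

/-- The forcing notion named by `Q` adds no new reals: it forces that every subset of `ℕ` is equal to a subset of `ℕ` of the
extension by `P`. -/
def NoNewRealsQ (Q : FName P) : Set P :=
  forcesAll Q (fall fun x : ℕ → Set (TS Q) => fex fun a : ℕ → Set P => fall fun n : ℕ =>
    fiff (meets (x n)) (meets (lft Q (a n))))

/-- The tree `T` on `ω₁` is stationarity-detecting: it has no uncountable branch, and for every stationary set `S` and every
forcing notion `Q` which adds no new reals and forces `S` to be nonstationary, `Q` forces that `T` has an uncountable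
branch. -/
def SDTree (T : W → W → Set P) : Set P :=
  fand (TreeOrd T) (fand (fnot (UBranch T)) (fall fun S : W → Set P => fall fun Q : FName P =>
    fimp (fand (Stat S) (fand (NoNewRealsQ Q) (forcesAll Q (fnot (Stat fun x => lft Q (S x))))))
      (forcesAll Q (UBranch fun x y => lft Q (T x y)))))

/-- There is no stationarity-detecting tree on `ω₁`. -/
def NoSDTree : Set P := fall fun T : W → W → Set P => fnot (SDTree T)

end TwoStep

/-- `P` adds no new sequences of length `ω` of elements of ground model sets. -/
def NoNewSeq (P : Type 1) [Preorder P] : Prop :=
  ∀ (X : Type 1) (F : ℕ → X → Set P) (p : P), p ∈ IsFun F →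
    p ∈ fex fun f : ℕ → X => fall fun n : ℕ => meets (F n (f n))

end Pool.Agent.Helper919.SD
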