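import Pool.Agent.Helper919_SDT.Common
import Pool.Agent.Helper919_SDT.Lang

set_option autoImplicit false

/-!
# The full forcing notion; definitions of part 2
-/

namespace Pool.Agent.Helper919.SD

open Ordinal Cardinal Set
open Pool.Agent.Helper292.SP (fnot fand fall for' fimp fiff fex fground meets IsFun)

/-- The set of all pairs of a condition and a thread. -/
def Full (o : Ord → Opt) : Set Cnd := {c | ∃ i, c ∈ PP o i}

theorem Full.mk {o : Ord → Opt} {i : Ord} {c : Cnd} (h : c ∈ PP o i) : c ∈ Full o := ⟨i, h⟩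

theorem Full.mem {o : Ord → Opt} {c : Cnd} (h : c ∈ Full o) : c ∈ PP o c.j := by
  obtain ⟨i, hi⟩ := h
  have := hi.1
  subst this; exact hi

/-- The forcing notion. -/
def Frc (o : Ord → Opt) : Type 1 := {c : Cnd // c ∈ Full o}

instance (o : Ord → Opt) : Preorder (Frc o) where
  le c' c := KLe o c'.1 c.1
  le_refl c := KLe.refl _
  le_trans a b c h h' := KLe.trans (Full.mem a.2) (Full.mem b.2) (Full.mem c.2) h h'

theorem Frc.le_def {o : Ord → Opt} {a b : Frc o} : a ≤ b ↔ KLe o a.1 b.1 := Iff.rfl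

/-- The ordinal of an element of `ω₁`. -/
noncomputable def wo (x : W) : Ord := Ordinal.typein (α := W) (· < ·) x

theorem wo_lt (x : W) : wo x < ω_ 1 := by
  have := Ordinal.typein_lt_type (α := W) (· < ·) x
  rw [Ordinal.type_toType] at this; exact this

theorem wo_lt_wo {x y : W} : wo x < wo y ↔ x < y := by
  unfold wo; exact Ordinal.typein_lt_typein (α := W) (· < ·)

theorem wo_inj {x y : W} (h : wo x = wo y) : x = y := Ordinal.typein_injective (α := W) (· < ·) h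

theorem wo_surj {ξ : Ord} (h : ξ < ω_ 1) : ∃ x : W, wo x = ξ := by
  have : ξ < Ordinal.type (α := W) (· < ·) := by rwa [Ordinal.type_toType]
  exact Ordinal.typein_surj (α := W) (· < ·) this

/-- The facts established in part 1. -/
structure Nice (o : Ord → Opt) (Prot : Set Ord) : Prop where
  legit : Legit o Prot
  ll : ∀ y, LLp o Prot y
  ss : ∀ y, SS o y
  nx : ∀ y, NX o y
  am : ∀ y, AM o y
  so : ∀ y, SO o y
  nn : ∀ y, NN o (PP o y)

/-- The names of sets of conditions as names over `Frc o`. -/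
def LfP (o : Ord → Opt) (N : Set Cnd) : Set (Frc o) := {c | ∃ n ∈ N, KLe o c.1 n}

/-- The name of the stationary set of the coordinate `γ`. -/
def Sn (o : Ord → Opt) (γ : Ord) (x : W) : Set (Frc o) := {c | Rec c.1 (γ + 1) ∧ wo x ≤ c.1.α ∧ c.1.t γ (wo x) 0 = 0}

/-- Closed bounded subsets of `ω₁`. -/
def CB : Type 1 := {d : Set Ord // (∃ η < ω_ 1, ∀ ξ ∈ d, ξ ≤ η) ∧
  ∀ ξ, 0 < ξ → (∀ η < ξ, ∃ ζ ∈ d, η < ζ ∧ ζ < ξ) → ξ ∈ d}

/-- `d'` is an end-extension of `d`. -/
def EndX (d' d : CB) : Prop := d.1 ⊆ d'.1 ∧ ∀ ξ ∈ d'.1, ∀ η ∈ d.1, ξ ≤ η → ξ ∈ d.1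

theorem EndX.refl (d : CB) : EndX d d := ⟨Subset.rfl, fun _ h _ _ _ => h⟩
theorem EndX.trans {d'' d' d : CB} (h : EndX d'' d') (h' : EndX d' d) : EndX d'' d :=
  ⟨h'.1.trans h.1, fun ξ hξ η hη hle => h'.2 ξ (h.2 ξ hξ η (h'.1 hη) hle) η hη hle⟩

/-- `c` determines that `d` is disjoint from the stationary set of the coordinate `γ`. -/
def InE (γ : Ord) (c : Cnd) (d : CB) : Prop := Rec c (γ + 1) ∧ ∀ ξ ∈ d.1, ξ ≤ c.α ∧ c.t γ ξ 0 = 1

/-- The name of the forcing notion which adds a club disjoint from the stationary set of the coordinate `γ` with closed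
bounded approximations. -/
def TEn (o : Ord → Opt) (γ : Ord) : FName (Frc o) where
  car := CB
  dom d := {c | InE γ c.1 d}
  le d' d := {_c | EndX d' d}
  refl p x _ := fun q _ => ⟨q, le_rfl, q, EndX.refl _, le_rfl⟩
  trans p x y z _ _ _ h h' := fun q hq => by
    obtain ⟨_, _, _, h1, _⟩ := h q hq
    obtain ⟨_, _, _, h2, _⟩ := h' q hq
    exact ⟨q, le_rfl, q, EndX.trans h1 h2, le_rfl⟩

/-- The part of this forcing notion over the index `β`. -/
def TEb (o : Ord → Opt) (γ β : Ord) : Type 1 := {z : Cnd × CB // z.1 ∈ PP o β ∧ InE γ z.1 z.2}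

instance (o : Ord → Opt) (γ β : Ord) : Preorder (TEb o γ β) where
  le z' z := KLe o z'.1.1 z.1.1 ∧ EndX z'.1.2 z.1.2
  le_refl z := ⟨KLe.refl _, EndX.refl _⟩
  le_trans a b c h h' := ⟨KLe.trans a.2.1 b.2.1 c.2.1 h.1 h'.1, EndX.trans h.2 h'.2⟩

/-- The names of sets of conditions as names over `TEb o γ β`. -/
def LfB (o : Ord → Opt) (γ β : Ord) (N : Set Cnd) : Set (TEb o γ β) := {z | ∃ n ∈ N, KLe o z.1.1 n}

/-- The condition `p` of the forcing notion `P` forces a given name to be an unbounded chain of the tree `T`. -/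
def Chn {P : Type 1} [Preorder P] (T : W → W → Set P) (p : P) : Prop :=
  ∃ b : W → Set P, (∀ q ≤ p, ∀ x y, q ∈ meets (b x) → q ∈ meets (b y) →
    ∃ q' ≤ q, x = y ∨ q' ∈ meets (T x y) ∨ q' ∈ meets (T y x)) ∧
    ∀ q ≤ p, ∀ x : W, ∃ q' ≤ q, ∃ y, x < y ∧ q' ∈ meets (b y)

/-- The set of the positions marked by `c` at the coordinate `β`. -/
def Dc (β : Ord) (c : Cnd) : Set Ord := {ξ | ξ ≤ c.α ∧ c.t β ξ 0 = 1}

/-- The name `r` of a relation on the nodes as a name over `PP o i`. -/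
def upN (o : Ord → Opt) (i : Ord) (r : Node → Node → Set Cnd) (a b : Node) : Set Cnd :=
  {c | c ∈ PP o i ∧ mt o (PP o i) (r a b) c}

/-- First bookkeeping property: names of trees which stay good are specialised. -/
def B1 (o : Ord → Opt) : Prop := ∀ x (r : Node → Node → Set Cnd), (∀ a b, r a b ⊆ PP o x) →
  (∀ a b : Node, (r a b).Nonempty → a.1 < ω_ 1 ∧ b.1 < ω_ 1) →
  ∃ i ≥ x, (∃ B g, o i = Opt.spec (upN o i r) B g) ∨ ¬ Good o (PP o i) (upN o i r)

/-- Second bookkeeping property. -/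
def B2 (o : Ord → Opt) (Prot : Set Ord) : Prop := ∀ x, ∀ c₀ ∈ PP o x, ∀ T : W → W → Set Cnd, (∀ a b, T a b ⊆ PP o x) →
  ∃ γ ≥ x, o γ = Opt.coh ∧
    ((∃ β > γ, o β = Opt.kill γ ∧ ∃ z : TEb o γ β, KLe o z.1.1 c₀ ∧ Chn (fun a b => LfB o γ β (T a b)) z) ∨
      (γ ∈ Prot ∧ ∀ β > γ, ∀ z : TEb o γ β, KLe o z.1.1 c₀ → ¬ Chn (fun a b => LfB o γ β (T a b)) z))

end Pool.Agent.Helper919.SD
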