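import Pool.Agent.Helper919_SDT.Defs3

set_option autoImplicit false

/-!
# Statements of the second half (section 8 of the paper)
-/

namespace Pool.Agent.Helper919.SD

open Ordinal Cardinal Set
open Pool.Agent.Helper292.SP (fnot fand fall for' fimp fiff fex fground meets IsFun)

/-! ### Size -/

def Sz_small : Prop := ∀ (o : Ord → Opt) (y : Ord), Small.{0} (PP o y)

/-- The set of the names of relations on the nodes. -/
def Sz_smallR : Prop := ∀ (o : Ord → Opt) (y : Ord), Small.{0} {r : Node → Node → Set Cnd //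
  (∀ a b, r a b ⊆ PP o y) ∧ ∀ a b : Node, (r a b).Nonempty → a.1 < ω_ 1 ∧ b.1 < ω_ 1}

/-- The set of the promises. -/
def Sz_smallG : Prop := ∀ (o : Ord → Opt) (y : Ord) (r : Node → Node → Set Cnd),
  Small.{0} {G : PName // OKP o (PP o y) r G}

/-- The set of the names of trees. -/
def Sz_smallT : Prop := ∀ (o : Ord → Opt) (y : Ord), Small.{0} {T : W → W → Set Cnd // ∀ a b, T a b ⊆ PP o y}

/-! ### Locality -/

def Sz_loc : Prop := ∀ (o o' : Ord → Opt) (y : Ord), (∀ i < y, o i = o' i) →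
  A o y = A o' y ∧ PP o y = PP o' y ∧ (∀ c ∈ PP o y, ∀ d, KLe o c d ↔ KLe o' c d) ∧
  (∀ r, Good o (PP o y) r ↔ Good o' (PP o' y) r) ∧ (∀ r G, OKP o (PP o y) r G ↔ OKP o' (PP o' y) r G)

/-- Locality for the forcing notions `TEb`. -/
def Sz_locT : Prop := ∀ (o o' : Ord → Opt) (γ y : Ord), (∀ i < y, o i = o' i) → ∀ T : W → W → Set Cnd, ∀ c₀ : Cnd,
  (∃ z : TEb o γ y, KLe o z.1.1 c₀ ∧ Chn (fun a b => LfB o γ y (T a b)) z) →
  ∃ z : TEb o' γ y, KLe o' z.1.1 c₀ ∧ Chn (fun a b => LfB o' γ y (T a b)) z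

/-! ### Lifting, absoluteness, closure points -/

/-- Conditions of a smaller index extend to conditions of a larger index. -/
def Sz_lf : Prop := ∀ (o : Ord → Opt) (Prot : Set Ord), Nice o Prot → ∀ x y, x ≤ y → ∀ c ∈ PP o x,
  ∃ c' ∈ PP o y, KLe o c' c

/-- Every condition has extensions which recognise a given index and have large levels. -/
def Sz_rec : Prop := ∀ (o : Ord → Opt) (Prot : Set Ord), Nice o Prot → ∀ c ∈ Full o, ∀ x, ∀ ξ < ω_ 1,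
  ∃ c' ∈ Full o, KLe o c' c ∧ Rec c' x ∧ ξ < c'.α

/-- Amalgamation in the full forcing notion. -/
def Sz_amF : Prop := ∀ (o : Ord → Opt) (Prot : Set Ord), Nice o Prot → ∀ c ∈ Full o, ∀ x, Rec c x → ∀ d ∈ PP o x,
  KLe o d (c.pr x) → ∃ c' ∈ Full o, c'.j = c.j ∧ KLe o c' c ∧ Rec c' x ∧ KLe o (c'.pr x) d ∧ KLe o c' d

/-- Absoluteness of `mt`. -/
def Sz_abs : Prop := ∀ (o : Ord → Opt) (Prot : Set Ord), Nice o Prot →
  (∀ x y, x ≤ y → ∀ N ⊆ PP o x, ∀ c ∈ PP o y, (mt o (PP o y) N c ↔ mt o (Full o) N c)) ∧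
  (∀ x, ∀ N ⊆ PP o x, ∀ c ∈ Full o, Rec c x → (mt o (Full o) N c ↔ mt o (PP o x) N (c.pr x)))

/-- Closure points (8.1). -/
def Sz_clo : Prop := ∀ (o : Ord → Opt) (Prot : Set Ord), Nice o Prot → ∀ (X : Type) (D : X → Set Cnd),
  (∀ x, DO o (Full o) (D x)) → ∀ y₀, ∃ y > y₀, (∀ S : Set Ord, S.Countable → (∀ z ∈ S, z < y) → ∃ w < y, ∀ z ∈ S, z < w) ∧
    ∀ x, DO o (PP o y) (D x ∩ PP o y)

/-- No new sequences of length `ω` (8.2). -/
def Sz_nnF : Prop := ∀ (o : Ord → Opt) (Prot : Set Ord), Nice o Prot → NN o (Full o)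

/-- Reduction of names (8.3). -/
def Sz_red : Prop := ∀ (o : Ord → Opt) (Prot : Set Ord), Nice o Prot → ∀ (X : Type) (N : X → Set Cnd), ∀ y₀, ∃ y > y₀,
  ∀ x, ∀ c ∈ Full o, mt o (Full o) (N x) c ↔ mt o (Full o) {c' | c' ∈ PP o y ∧ mt o (Full o) (N x) c'} c

/-! ### The continuum hypothesis -/

def Sz_ch : Prop := ∀ (o : Ord → Opt) (Prot : Set Ord), Nice o Prot → o 0 = Opt.coh → ∀ c : Frc o, c ∈ CH

def Sz_seq : Prop := ∀ (o : Ord → Opt) (Prot : Set Ord), Nice o Prot → NoNewSeq (Frc o)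

/-! ### Special Aronszajn trees -/

/-- Good names over the full forcing notion reduce to names over an initial part. -/
def Sz_goodred : Prop := ∀ (o : Ord → Opt) (Prot : Set Ord), Nice o Prot → ∀ r, Good o (Full o) r → ∀ y₀, ∃ y ≥ y₀,
  ∃ r' : Node → Node → Set Cnd, (∀ a b, r' a b ⊆ PP o y) ∧
    (∀ a b : Node, (r' a b).Nonempty → a.1 < ω_ 1 ∧ b.1 < ω_ 1) ∧ (∀ z ≥ y, Good o (PP o z) (upN o z r')) ∧
    ∀ z ≥ y, ∀ a b, ∀ c ∈ Full o, mt o (Full o) (r a b) c ↔ mt o (Full o) (upN o z r' a b) c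

/-- The values of the specialising function of the coordinate `i`. -/
def Val (o : Ord → Opt) (i : Ord) (x : Node) (q : ℚ) : Set Cnd := {c | c ∈ PP o (i + 1) ∧ x.1 < c.α ∧ hv i c.t x = q}

def Sz_val : Prop := ∀ (o : Ord → Opt) (Prot : Set Ord), Nice o Prot → ∀ i r B g, o i = Opt.spec r B g →
  (∀ c ∈ Full o, ∀ x : Node, x.1 < ω_ 1 → ∃ c' ∈ Full o, KLe o c' c ∧ ∃ q, mt o (Full o) (Val o i x q) c') ∧
  (∀ c ∈ Full o, ∀ x q q', mt o (Full o) (Val o i x q) c → mt o (Full o) (Val o i x q') c → q = q') ∧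
  (∀ c ∈ Full o, ∀ x y q q', mt o (Full o) (r x y) c → x ≠ y → mt o (Full o) (Val o i x q) c →
    mt o (Full o) (Val o i y q') c → q < q')

/-- The relation on the nodes obtained from names `T`, `h`, `e` of a tree on `ω₁`, its height function and a function which is
one-to-one on the levels; it is empty below the conditions incompatible with `c₀`. -/
def nodeName (o : Ord → Opt) (c₀ : Frc o) (T h : W → W → Set (Frc o)) (e : W → ℕ → Set (Frc o)) (x y : Node) : Set Cnd :=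
  {c | ∃ c' : Frc o, c'.1 = c ∧ c' ≤ c₀ ∧ ∃ s t a b : W, wo a = x.1 ∧ wo b = y.1 ∧ c' ∈ meets (h s a) ∧ c' ∈ meets (h t b) ∧
    c' ∈ meets (e s x.2) ∧ c' ∈ meets (e t y.2) ∧ (s = t ∨ c' ∈ meets (T s t))}

def Sz_node : Prop := ∀ (o : Ord → Opt) (Prot : Set Ord), Nice o Prot → NN o (Full o) → ∀ (c₀ : Frc o)
  (T h : W → W → Set (Frc o)) (e : W → ℕ → Set (Frc o)), c₀ ∈ TreeOrd T → c₀ ∈ fnot (UBranch T) → c₀ ∈ IsHeight T h →
  c₀ ∈ IsFun e → (c₀ ∈ fall fun x : W => fall fun y : W => fall fun a : W => fall fun n : ℕ =>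
        fimp (fand (fand (meets (h x a)) (meets (h y a))) (fand (meets (e x n)) (meets (e y n))))
          (fground (x = y))) → Good o (Full o) (nodeName o c₀ T h e)

def Sz_sath : Prop := ∀ (o : Ord → Opt) (Prot : Set Ord), Nice o Prot → B1 o → ∀ c : Frc o, c ∈ SATH

/-! ### Stationary sets and shooting clubs -/

/-- Protected sets are stationary (8.6). -/
def Sz_stat : Prop := ∀ (o : Ord → Opt) (Prot : Set Ord), Nice o Prot → ∀ γ ∈ Prot, o γ = Opt.coh →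
  ∀ c : Frc o, c ∈ Stat (Sn o γ)

/-- Countable families of dense open subsets of the two-step iteration (8.7). -/
def Sz_teN : Prop := ∀ (o : Ord → Opt) (Prot : Set Ord), Nice o Prot → ∀ γ, o γ = Opt.coh →
  ∀ D : ℕ → Set (TS (TEn o γ)), (∀ n, ∀ z ∈ D n, ∀ z' ≤ z, z' ∈ D n) → (∀ n z, ∃ z' ∈ D n, z' ≤ z) →
  ∀ z : TS (TEn o γ), ∃ z' ≤ z, ∀ n, z' ∈ D n

/-- The forcing notion `TEn o γ` adds no new reals. -/
def Sz_teR : Prop := ∀ (o : Ord → Opt) (Prot : Set Ord), Nice o Prot → ∀ γ, o γ = Opt.coh →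
  ∀ c : Frc o, c ∈ NoNewRealsQ (TEn o γ)

/-- The forcing notion `TEn o γ` destroys the stationarity of `Sn o γ`. -/
def Sz_teS : Prop := ∀ (o : Ord → Opt) (Prot : Set Ord), Nice o Prot → ∀ γ, o γ = Opt.coh →
  ∀ z : TS (TEn o γ), z ∈ fnot (Stat fun x => lft (TEn o γ) (Sn o γ x))

/-- The generic club of a kill coordinate (8.8). -/
def Sz_K8 : Prop := ∀ (o : Ord → Opt) (Prot : Set Ord), Nice o Prot → ∀ β γ, o β = Opt.kill γ →
  (∀ c ∈ PP o (β + 1), ∃ z : TEb o γ β, z.1.1 = c.pr β ∧ z.1.2.1 = Dc β c) ∧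
  (∀ c ∈ PP o (β + 1), ∀ O : Set (TEb o γ β), (∀ z ∈ O, ∀ z' ≤ z, z' ∈ O) → (∀ z, ∃ z' ∈ O, z' ≤ z) →
    ∃ c' ∈ PP o (β + 1), KLe o c' c ∧ ∃ z ∈ O, z.1.1 = c'.pr β ∧ z.1.2.1 = Dc β c') ∧
  (∀ z : TEb o γ β, ∃ c ∈ PP o (β + 1), ∃ z' ≤ z, z'.1.1 = c.pr β ∧ z'.1.2.1 = Dc β c)

/-- Kill coordinates add the branches of `TEb` (8.8). -/
def Sz_kill : Prop := ∀ (o : Ord → Opt) (Prot : Set Ord), Nice o Prot → ∀ x β γ, x ≤ β → o β = Opt.kill γ →
  ∀ T : W → W → Set Cnd, (∀ a b, T a b ⊆ PP o x) → ∀ z : TEb o γ β, Chn (fun a b => LfB o γ β (T a b)) z →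
  ∃ c : Frc o, KLe o c.1 z.1.1 ∧ Chn (fun a b => LfP o (T a b)) c

/-- Branches in the extension by the two-step iteration appear at some stage (8.10). -/
def Sz_no : Prop := ∀ (o : Ord → Opt) (Prot : Set Ord), Nice o Prot → ∀ x γ, x ≤ γ → o γ = Opt.coh →
  ∀ T : W → W → Set Cnd, (∀ a b, T a b ⊆ PP o x) → ∀ c₀ ∈ PP o x, ∀ z : TS (TEn o γ), KLe o z.1.1.1 c₀ →
  Chn (fun a b => lft (TEn o γ) (LfP o (T a b))) z →
  ∃ β > γ, ∃ z' : TEb o γ β, KLe o z'.1.1 c₀ ∧ Chn (fun a b => LfB o γ β (T a b)) z'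

/-! ### Bookkeeping -/

/-- A fair transfinite construction. `le` is the extension relation of states, `ok s` that the state is admissible;
`tk s` is the small set of the tasks of `s`, `hd s t` says that the task `t` has been handled. -/
def Sz_fair : Prop := ∀ (S : Type 1) (τ : Type 1) (ok : S → Prop) (le : S → S → Prop) (len : S → Ord)
  (tk : S → Set τ) (hd : S → τ → Prop), (∀ s, ok s → le s s) →
  (∀ s s' s'', ok s → ok s' → ok s'' → le s s' → le s' s'' → le s s'') →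
  (∀ s s', ok s → ok s' → le s s' → len s ≤ len s') →
  (∀ s, ok s → Small.{0} (tk s)) →
  (∀ s s' t, ok s → ok s' → le s s' → hd s t → hd s' t) →
  (∀ s, ok s → ∃ s', ok s' ∧ le s s' ∧ len s < len s') →
  (∀ s t, ok s → t ∈ tk s → ∃ s', ok s' ∧ le s s' ∧ hd s' t) →
  (∀ s s' t, ok s → ok s' → le s s' → t ∈ tk s → t ∈ tk s') →
  (∀ (ν : Ord) (f : Ord → S), (∀ μ < ν, ok (f μ)) → (∀ μ μ', μ ≤ μ' → μ' < ν → le (f μ) (f μ')) → 0 < ν →
    ∃ s, ok s ∧ ∀ μ < ν, le (f μ) s) →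
  ∀ s₀, ok s₀ → ∃ f : Ord → S, f 0 = s₀ ∧ (∀ μ, ok (f μ)) ∧ (∀ μ μ', μ ≤ μ' → le (f μ) (f μ')) ∧
    (∀ μ, μ ≤ len (f μ)) ∧ ∀ μ, ∀ t ∈ tk (f μ), ∃ μ', hd (f μ') t

def Sz_book : Prop := ∃ (o : Ord → Opt) (Prot : Set Ord), Legit o Prot ∧ o 0 = Opt.coh ∧ B1 o ∧ B2 o Prot

/-! ### The final step -/

def Sz_nosd : Prop := ∀ (o : Ord → Opt) (Prot : Set Ord), Nice o Prot → B2 o Prot →
  ∀ c : Frc o, c ∈ NoSDTree (P := Frc o)

end Pool.Agent.Helper919.SD
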