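import Pool.Agent.Helper919_SDT.Part1
import Pool.Agent.Helper919_SDT.Stmts2

set_option autoImplicit false

namespace Pool.Agent.Helper919.SD

open Ordinal Cardinal Set
open Pool.Agent.Helper292.SP (fnot fand fall for' fimp fiff fex fground meets IsFun)

/-- The assembly of the main theorem. -/
theorem final_of (hbook : Sz_book) (hch : Sz_ch) (hseq : Sz_seq) (hsath : Sz_sath) (hnosd : Sz_nosd) :
    ∃ (P : Type 1) (_ : Preorder P), Nonempty P ∧ NoNewSeq P ∧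
      ∀ p : P, p ∈ CH ∧ p ∈ SATH ∧ p ∈ NoSDTree := by
  obtain ⟨o, Prot, hl, h0, hB1, hB2⟩ := hbook
  have hn := nice_of_legit o Prot hl
  refine ⟨Frc o, inferInstance, ?_, hseq o Prot hn, fun p => ⟨hch o Prot hn h0 p, hsath o Prot hn hB1 p,
    hnosd o Prot hn hB2 p⟩⟩
  have he : (⟨∅, fun _ => ∅, fun _ _ => ∅, fun _ _ => ∅, fun _ => ∅, fun _ => ∅⟩ : Cond) ∈ A o 0 :=
    ⟨⟨countable_empty, fun _ _ => rfl, fun _ _ => rfl, fun _ _ => rfl, fun _ _ _ => rfl, fun _ _ _ => rfl⟩,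
      fun z hz => absurd hz (notMem_empty z)⟩
  obtain ⟨q, hq, -, hJ, α, hα⟩ := (hn.nx 0).1 _ he
  obtain ⟨t, ht⟩ := (A.core' hq hα).Tn α hα
  exact ⟨⟨⟨q, 0, α, t⟩, Full.mk (A.pair' hq hα ht)⟩⟩

end Pool.Agent.Helper919.SD
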