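import Pool.Agent.Helper919_SDT.Stmts2

set_option autoImplicit false
set_option linter.unusedSectionVars false

/-!
# Elementary facts on the forcing language
-/

namespace Pool.Agent.Helper919.SD

open Ordinal Cardinal Set
open Pool.Agent.Helper292.SP (fnot fand fall for' fimp fiff fex fground meets IsFun)

universe u v

section

variable {P : Type u} [Preorder P]

theorem mem_fnot {φ : Set P} {p : P} : p ∈ fnot φ ↔ ∀ q ≤ p, q ∉ φ := Iff.rfl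

theorem mem_fand {φ ψ : Set P} {p : P} : p ∈ fand φ ψ ↔ p ∈ φ ∧ p ∈ ψ := Iff.rfl

theorem mem_fall {ι : Sort v} {φ : ι → Set P} {p : P} : p ∈ fall φ ↔ ∀ i, p ∈ φ i := Iff.rfl

theorem mem_fground {h : Prop} {p : P} : p ∈ fground (P := P) h ↔ h := Iff.rfl

theorem mem_fex {ι : Sort v} {φ : ι → Set P} {p : P} : p ∈ fex φ ↔ ∀ q ≤ p, ∃ r ≤ q, ∃ i, r ∈ φ i := by
  constructor
  · intro h q hq
    by_contra hc
    push Not at hc
    exact h q hq fun i r hr => hc r hr i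
  · intro h q hq hq'
    obtain ⟨r, hr, i, hi⟩ := h q hq
    exact hq' i r hr hi

theorem mem_fimp {φ ψ : Set P} {p : P} : p ∈ fimp φ ψ ↔ ∀ q ≤ p, q ∈ φ → ∃ r ≤ q, r ∈ ψ := by
  constructor
  · intro h q hq hφ
    by_contra hc
    push Not at hc
    exact h q hq ⟨hφ, hc⟩
  · rintro h q hq ⟨hφ, hψ⟩
    obtain ⟨r, hr, hr'⟩ := h q hq hφ
    exact hψ r hr hr'

theorem mem_for {φ ψ : Set P} {p : P} : p ∈ for' φ ψ ↔ ∀ q ≤ p, ∃ r ≤ q, r ∈ φ ∨ r ∈ ψ := by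
  constructor
  · intro h q hq
    by_contra hc
    push Not at hc
    exact h q hq ⟨fun r hr => (hc r hr).1, fun r hr => (hc r hr).2⟩
  · rintro h q hq ⟨h1, h2⟩
    obtain ⟨r, hr, h3 | h3⟩ := h q hq
    · exact h1 r hr h3
    · exact h2 r hr h3

theorem mem_meets {N : Set P} {p : P} : p ∈ meets N ↔ ∀ q ≤ p, ∃ r ≤ q, ∃ s ∈ N, r ≤ s := Iff.rfl

theorem meets_dense {N : Set P} {p : P} (h : ∀ q ≤ p, ∃ r ≤ q, r ∈ meets N) : p ∈ meets N := by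
  intro q hq
  obtain ⟨r, hr, h1⟩ := h q hq
  obtain ⟨s, hs, t, ht, hst⟩ := h1 r le_rfl
  exact ⟨s, hs.trans hr, t, ht, hst⟩

theorem Chn.mono {P : Type 1} [Preorder P] {T : W → W → Set P} {p q : P} (h : Chn T p) (hq : q ≤ p) : Chn T q := by
  obtain ⟨b, h1, h2⟩ := h
  exact ⟨b, fun r hr => h1 r (hr.trans hq), fun r hr => h2 r (hr.trans hq)⟩

theorem Chn.congr {P : Type 1} [Preorder P] {T T' : W → W → Set P}
    (h : ∀ a b p, p ∈ meets (T a b) → p ∈ meets (T' a b)) {p : P} (hp : Chn T p) : Chn T' p := by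
  obtain ⟨b, h1, h2⟩ := hp
  refine ⟨b, fun q hq x y hx hy => ?_, h2⟩
  obtain ⟨r, hr, h3 | h3 | h3⟩ := h1 q hq x y hx hy
  · exact ⟨r, hr, Or.inl h3⟩
  · exact ⟨r, hr, Or.inr (Or.inl (h _ _ _ h3))⟩
  · exact ⟨r, hr, Or.inr (Or.inr (h _ _ _ h3))⟩

theorem mem_or3 {A : Prop} {φ ψ : Set P} (hφ : ∀ p ∈ φ, ∀ q ≤ p, q ∈ φ) (hψ : ∀ p ∈ ψ, ∀ q ≤ p, q ∈ ψ) {p : P} :
    p ∈ for' (fground A) (for' φ ψ) ↔ ∀ q ≤ p, ∃ r ≤ q, A ∨ r ∈ φ ∨ r ∈ ψ := by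
  rw [mem_for]
  constructor
  · intro h q hq
    obtain ⟨r, hr, h1 | h1⟩ := h q hq
    · exact ⟨r, hr, Or.inl h1⟩
    · obtain ⟨s, hs, h2⟩ := mem_for.1 h1 r le_rfl
      exact ⟨s, hs.trans hr, Or.inr h2⟩
  · intro h q hq
    obtain ⟨r, hr, h1 | h1 | h1⟩ := h q hq
    · exact ⟨r, hr, Or.inl h1⟩
    · exact ⟨r, hr, Or.inr (mem_for.2 fun s hs => ⟨s, le_rfl, Or.inl (hφ _ h1 _ hs)⟩)⟩
    · exact ⟨r, hr, Or.inr (mem_for.2 fun s hs => ⟨s, le_rfl, Or.inr (hψ _ h1 _ hs)⟩)⟩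

/-- The sentence `UBranch T` in terms of `Chn`. -/
theorem mem_UBranch {P : Type 1} [Preorder P] {T : W → W → Set P} {p : P} :
    p ∈ UBranch T ↔ ∀ q ≤ p, ∃ r ≤ q, Chn T r := by
  unfold UBranch
  rw [mem_fex]
  refine forall_congr' fun q => forall_congr' fun hq => ?_
  refine exists_congr fun r => and_congr_right fun hr => ?_
  unfold Chn
  refine exists_congr fun b => ?_
  rw [mem_fand]
  refine and_congr ?_ ?_
  · constructor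
    · intro h s hs x y hx hy
      obtain ⟨s', hs', h1⟩ := mem_fimp.1 (h x y) s hs ⟨hx, hy⟩
      obtain ⟨t, ht, h2⟩ := (mem_or3 (fun _ h _ hq => meets_mono h hq) (fun _ h _ hq => meets_mono h hq)).1 h1 s' le_rfl
      exact ⟨t, ht.trans hs', h2⟩
    · intro h x y
      refine mem_fimp.2 fun s hs hA => ?_
      refine ⟨s, le_rfl, ?_⟩
      refine (mem_or3 (fun _ h _ hq => meets_mono h hq) (fun _ h _ hq => meets_mono h hq)).2 fun t ht => ?_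
      exact h t (ht.trans hs) x y (meets_mono hA.1 ht) (meets_mono hA.2 ht)
  · constructor
    · intro h s hs x
      obtain ⟨t, ht, y, h1, h2⟩ := mem_fex.1 (h x) s hs
      exact ⟨t, ht, y, h1, h2⟩
    · intro h x
      refine mem_fex.2 fun s hs => ?_
      obtain ⟨t, ht, y, h1, h2⟩ := h s hs x
      exact ⟨t, ht, y, h1, h2⟩

theorem mem_meets_lft {P : Type 1} [Preorder P] {Q : FName P} {N : Set P} {z : TS Q} :
    z ∈ meets (lft Q N) ↔ z.1.1 ∈ meets N := by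
  constructor
  · intro h p hp
    obtain ⟨z', hz', s, ⟨n, hn, hsn⟩, hs⟩ := h ⟨(p, z.1.2), meets_mono z.2 hp⟩ ⟨hp, Q.refl _ _ (meets_mono z.2 hp)⟩
    exact ⟨z'.1.1, hz'.1, n, hn, hs.1.trans hsn⟩
  · intro h z' hz'
    obtain ⟨r, hr, n, hn, hrn⟩ := h z'.1.1 hz'.1
    refine ⟨⟨(r, z'.1.2), meets_mono z'.2 hr⟩, ⟨hr, Q.refl _ _ (meets_mono z'.2 hr)⟩,
      ⟨(r, z'.1.2), meets_mono z'.2 hr⟩, ⟨n, hn, hrn⟩, le_rfl⟩

end

/-- `meets` over `Frc o` in terms of `mt`. -/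
theorem meets_iff_mt {o : Ord → Opt} {N : Set (Frc o)} {c : Frc o} :
    c ∈ meets N ↔ mt o (Full o) (Subtype.val '' N) c.1 := by
  constructor
  · intro h c' hc' hle
    obtain ⟨r, hr, s, hs, hrs⟩ := h ⟨c', hc'⟩ hle
    exact ⟨r.1, r.2, hr, s.1, ⟨s, hs, rfl⟩, hrs⟩
  · intro h q hq
    obtain ⟨r, hr, hrq, d, ⟨s, hs, rfl⟩, hrd⟩ := h q.1 q.2 hq
    exact ⟨⟨r, hr⟩, hrq, s, hs, hrd⟩

theorem meets_LfP {o : Ord → Opt} {N : Set Cnd} (hN : N ⊆ Full o) {c : Frc o} :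
    c ∈ meets (LfP o N) ↔ mt o (Full o) N c.1 := by
  constructor
  · intro h c' hc' hle
    obtain ⟨r, hr, s, ⟨n, hn, hsn⟩, hrs⟩ := h ⟨c', hc'⟩ hle
    exact ⟨r.1, r.2, hr, n, hn, KLe.trans (Full.mem r.2) (Full.mem s.2) (Full.mem (hN hn)) hrs hsn⟩
  · intro h q hq
    obtain ⟨r, hr, hrq, d, hd, hrd⟩ := h q.1 q.2 hq
    exact ⟨⟨r, hr⟩, hrq, ⟨r, hr⟩, ⟨d, hd, hrd⟩, le_rfl⟩

end Pool.Agent.Helper919.SD
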