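import Pool.Agent.Helper919_SDT.Common

set_option autoImplicit false

/-!
# The name of the bad tuples is a promise
-/

namespace Pool.Agent.Helper919.SD.Tbd

open Ordinal Cardinal Set

variable {o : Ord → Opt} {Prot : Set Ord}

theorem countable_le (δ : Ord) (h : δ < ω_ 1) : {ξ | ξ ≤ δ}.Countable := by
  have h2 : δ.card ≤ ℵ₀ := by
    rw [← Cardinal.ord_aleph, Cardinal.lt_ord, ← Cardinal.succ_aleph0] at h
    exact Order.lt_succ_iff.1 h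
  have h3 : (Set.Iio δ).Countable := by
    rw [← Cardinal.le_aleph0_iff_set_countable, Cardinal.mk_Iio_ordinal, ← Cardinal.lift_aleph0.{1,0},
      Cardinal.lift_le]
    exact h2
  have : {ξ | ξ ≤ δ} = insert δ (Set.Iio δ) := by
    ext x; simp [le_iff_lt_or_eq, or_comm]
  rw [this]; exact h3.insert _

theorem nn_countable {i : Ord} (hN : NN o (PP o i)) {ι : Type 1} [Countable ι] (D : ι → Set Cnd)
    (hD : ∀ m, DO o (PP o i) (D m)) {c : Cnd} (hc : c ∈ PP o i) :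
    ∃ c' ∈ PP o i, KLe o c' c ∧ ∀ m, c' ∈ D m := by
  rcases isEmpty_or_nonempty ι with h | h
  · exact ⟨c, hc, KLe.refl _, fun m => (h.false m).elim⟩
  · obtain ⟨f, hf⟩ := exists_surjective_nat ι
    obtain ⟨c', h1, h2, h3⟩ := hN (fun n => D (f n)) (fun n => hD _) c hc
    refine ⟨c', h1, h2, fun m => ?_⟩
    obtain ⟨n, rfl⟩ := hf m
    exact h3 n

theorem do_mt (i : Ord) (M : Set Cnd) : DO o (PP o i) {c | c ∈ PP o i ∧ (mt o (PP o i) M c ∨ nmt o (PP o i) M c)} where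
  sub _ hc := hc.1
  op c hc c' hc' hle := by
    refine ⟨hc', hc.2.imp (fun h => ?_) (fun h => ?_)⟩
    · exact mt.mono Subset.rfl hc.1 hc' h hle
    · exact nmt.mono Subset.rfl hc.1 hc' h hle
  dn c hc := by
    obtain ⟨c', h1, h2, h3⟩ := exists_mt_or (o := o) (N := M) hc
    exact ⟨c', ⟨h1, h3⟩, h2⟩

theorem exists_dec {i : Ord} (hN : NN o (PP o i)) (r : Node → Node → Set Cnd) {δ : Ord} (hδ : δ < ω_ 1)
    {c : Cnd} (hc : c ∈ PP o i) : ∃ c' ∈ PP o i, KLe o c' c ∧ ∃ R, Dec o (PP o i) r c' δ R := by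
  have hcn : ({x : Node × Node | x.1.1 ≤ δ ∧ x.2.1 ≤ δ}).Countable := by
    have h1 : ({x : Node | x.1 ≤ δ}).Countable := by
      have := (countable_le δ hδ).prod (Set.countable_univ (α := ℕ))
      exact this.mono fun x hx => Set.mem_prod.2 ⟨hx, Set.mem_univ _⟩
    exact (h1.prod h1).mono fun x hx => Set.mem_prod.2 ⟨hx.1, hx.2⟩
  have : Countable {x : Node × Node | x.1.1 ≤ δ ∧ x.2.1 ≤ δ} := hcn.to_subtype
  obtain ⟨c', h1, h2, h3⟩ := nn_countable hN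
    (fun x : {x : Node × Node | x.1.1 ≤ δ ∧ x.2.1 ≤ δ} =>
      {c | c ∈ PP o i ∧ (mt o (PP o i) (r x.1.1 x.1.2) c ∨ nmt o (PP o i) (r x.1.1 x.1.2) c)})
    (fun x => do_mt i _) hc
  refine ⟨c', h1, h2, fun x y => mt o (PP o i) (r x y) c', fun x y hx hy => ⟨id, fun h => ?_⟩⟩
  rcases (h3 ⟨(x, y), hx, hy⟩).2 with h4 | h4
  · exact absurd h4 h
  · exact h4

theorem dec_of_mt {i : Ord} {r : Node → Node → Set Cnd} {c c' : Cnd} {α : Ord} {R : Node → Node → Prop}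
    (hc : c ∈ PP o i) (hc' : c' ∈ PP o i) (h : Dec o (PP o i) r c α R) (hle : KLe o c' c) {x y : Node}
    (hx : x.1 ≤ α) (hy : y.1 ≤ α) (hm : mt o (PP o i) (r x y) c') : R x y := by
  by_contra hR
  exact not_mt_nmt hc' hm (((h x y hx hy).2 hR).mono Subset.rfl hc hc' hle)

theorem tree_pred {i : Ord} {r : Node → Node → Set Cnd} (hr : Good o (PP o i) r) {c : Cnd} (hc : c ∈ PP o i)
    {x x' y : Node} (h : mt o (PP o i) (r x y) c) (h' : mt o (PP o i) (r x' y) c) (hx : x.1 ≤ x'.1) :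
    mt o (PP o i) (r x x') c := by
  refine mt_of_dense Subset.rfl hc fun c' hc' hle => ?_
  have h1 := h.mono Subset.rfl hc hc' hle
  have h1' := h'.mono Subset.rfl hc hc' hle
  obtain ⟨c₂, h2, h3, n, h4⟩ := hr.ex c' hc' x' (hr.refl c' hc' x' y h1').1 x.1 hx
  have h5 := hr.trans c₂ h2 _ _ _ h4 (h1'.mono Subset.rfl hc' h2 h3)
  have h6 : x = (x.1, n) := hr.uniq c₂ h2 x (x.1, n) y (h1.mono Subset.rfl hc' h2 h3) h5 rfl
  exact ⟨c₂, h2, h3, by rw [h6]; exact h4⟩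

theorem rec_i {i : Ord} {c : Cnd} (h : c ∈ PP o (i + 1)) : Rec c i := by
  have hc := PP.core h
  obtain ⟨h1, h2, h3, h4, h5⟩ := h
  right
  rw [h1] at hc ⊢
  exact hc.us _ h4 i (Or.inr rfl)

/-- Extending tuples downwards. -/
theorem ex_tuple {i : Ord} {r : Node → Node → Set Cnd} (hr : Good o (PP o i) r) {η ξ : Ord} (hξ : ξ ≤ η) {k : ℕ}
    (y : Fin k → ℕ) {c : Cnd} (hc : c ∈ PP o i) (hy : ∀ l, mt o (PP o i) (r (η, y l) (η, y l)) c) :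
    ∃ c' ∈ PP o i, KLe o c' c ∧ ∃ y' : Fin k → ℕ, ∀ l, mt o (PP o i) (r (ξ, y' l) (η, y l)) c' := by
  have H : ∀ s : Finset (Fin k), ∃ c' ∈ PP o i, KLe o c' c ∧ ∀ l ∈ s, ∃ n, mt o (PP o i) (r (ξ, n) (η, y l)) c' := by
    intro s
    induction s using Finset.induction_on with
    | empty => exact ⟨c, hc, KLe.refl _, fun l hl => absurd hl (Finset.notMem_empty l)⟩
    | insert l s _ ih =>
      obtain ⟨c', h1, h2, h3⟩ := ih
      obtain ⟨c'', h4, h5, n, h6⟩ := hr.ex c' h1 (η, y l) ((hy l).mono Subset.rfl hc h1 h2) ξ hξ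
      refine ⟨c'', h4, KLe.trans h4 h1 hc h5 h2, fun l' hl' => ?_⟩
      rcases Finset.mem_insert.1 hl' with rfl | hl'
      · exact ⟨n, h6⟩
      · obtain ⟨n', h7⟩ := h3 l' hl'
        exact ⟨n', h7.mono Subset.rfl h1 h4 h5⟩
  obtain ⟨c', h1, h2, h3⟩ := H Finset.univ
  choose y' hy' using fun l => h3 l (Finset.mem_univ l)
  exact ⟨c', h1, h2, y', hy'⟩

theorem bd_open {i : Ord} {r : Node → Node → Set Cnd} {D : Set Cnd} {c₀ : Cnd} {k : ℕ} {v : Fin k → ℚ} {η : Ord}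
    {y : Fin k → ℕ} {c c' : Cnd} (hb : c ∈ Bd o i r D c₀ k v η y) (hc' : c' ∈ PP o i) (hle : KLe o c' c) :
    c' ∈ Bd o i r D c₀ k v η y :=
  ⟨hc', fun l => (hb.2.1 l).mono Subset.rfl hb.1 hc' hle,
    fun c₁ h1 h2 => hb.2.2 c₁ h1 (KLe.trans h1 hc' hb.1 h2 hle)⟩

/-- Tuples below bad tuples are bad. -/
theorem bd_down (hl : Legit o Prot) {i : Ord} (hN : NN o (PP o i)) {r : Node → Node → Set Cnd}
    (hr : Good o (PP o i) r) {D : Set Cnd} (hD : D ⊆ PP o (i + 1)) {c₀ : Cnd} {k : ℕ} {v : Fin k → ℚ} {η η' : Ord}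
    (hη : η < ω_ 1) (hle : η' ≤ η) {y y' : Fin k → ℕ} {c : Cnd} (hb : c ∈ Bd o i r D c₀ k v η y)
    (hyy : ∀ l, mt o (PP o i) (r (η', y' l) (η, y l)) c) : c ∈ Bd o i r D c₀ k v η' y' := by
  have hc := hb.1
  refine ⟨hc, fun l => (hr.refl c hc _ _ (hyy l)).1, ?_⟩
  intro c₁ hc₁ hle₁ hW
  obtain ⟨-, c', hc', h1, h2, h3, R, hR, hS⟩ := hW
  obtain ⟨c₂, hc₂, hle₂, R', hR'⟩ := exists_dec hN r hη hc₁
  have hc2c := KLe.trans hc₂ hc₁ hc hle₂ hle₁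
  refine hb.2.2 c₂ hc₂ hc2c ⟨hc₂, c', hc', h1, h2.trans hle,
    KLe.trans hc₂ hc₁ (PP.pr hl (hD hc') (rec_i (hD hc'))) hle₂ h3, R', hR', ?_⟩
  intro l
  obtain ⟨w, hw, hx⟩ := hS l
  refine ⟨w, hw, fun x hx1 hx2 => hx x hx1 ?_⟩
  have hx3 : x.1 ≤ η' := hx1.le.trans h2
  have hm1 : mt o (PP o i) (r x (η, y l)) c₂ := (hR' x (η, y l) (hx3.trans hle) le_rfl).1 hx2
  have hm2 : mt o (PP o i) (r (η', y' l) (η, y l)) c₂ := (hyy l).mono Subset.rfl hc hc₂ hc2c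
  exact dec_of_mt hc₁ hc₂ hR hle₂ hx3 le_rfl (tree_pred hr hc₂ hm1 hm2 hx3)

section G

variable {i : Ord} {r : Node → Node → Set Cnd} {D : Set Cnd} {c₀ : Cnd} {k : ℕ} {v : Fin k → ℚ} {η : Ord}
  {y : Fin k → ℕ} {c c' : Cnd}

theorem g_open (h : c ∈ (bdName o i r D c₀ k v).G η y) (hc' : c' ∈ PP o i) (hle : KLe o c' c) :
    c' ∈ (bdName o i r D c₀ k v).G η y := by
  obtain ⟨h1, h2, h3⟩ := h
  exact ⟨hc', h2, fun η' h4 h5 c₁ h6 h7 => h3 η' h4 h5 c₁ h6 (KLe.trans h6 hc' h1 h7 hle)⟩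

theorem g_of_mt (hc : c ∈ PP o i) (h : mt o (PP o i) ((bdName o i r D c₀ k v).G η y) c) :
    c ∈ (bdName o i r D c₀ k v).G η y := by
  refine ⟨hc, ?_, ?_⟩
  · obtain ⟨c'', h1, h2, d, hd, h3⟩ := h c hc (KLe.refl _)
    exact hd.2.1
  · intro η' h4 h5 c₁ h6 h7
    obtain ⟨c'', h1, h2, d, hd, h3⟩ := h c₁ h6 h7
    obtain ⟨c₂, h8, h9, h10⟩ := hd.2.2 η' h4 h5 c'' h1 h3
    exact ⟨c₂, h8, KLe.trans h8 h1 h6 h9 h2, h10⟩

theorem mt_of_g (h : c ∈ (bdName o i r D c₀ k v).G η y) : mt o (PP o i) ((bdName o i r D c₀ k v).G η y) c :=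
  fun c' hc' hle => ⟨c', hc', KLe.refl _, c, h, hle⟩

end G

/-- Deciding finitely many names. -/
theorem exists_mt_or_fin {i : Ord} {k : ℕ} (M : Fin k → Set Cnd) {c : Cnd} (hc : c ∈ PP o i) :
    ∃ c' ∈ PP o i, KLe o c' c ∧ ∀ l, mt o (PP o i) (M l) c' ∨ nmt o (PP o i) (M l) c' := by
  have H : ∀ s : Finset (Fin k), ∃ c' ∈ PP o i, KLe o c' c ∧
      ∀ l ∈ s, mt o (PP o i) (M l) c' ∨ nmt o (PP o i) (M l) c' := by
    intro s
    induction s using Finset.induction_on with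
    | empty => exact ⟨c, hc, KLe.refl _, fun l hl => absurd hl (Finset.notMem_empty l)⟩
    | insert l s _ ih =>
      obtain ⟨c', h1, h2, h3⟩ := ih
      obtain ⟨c'', h4, h5, h6⟩ := exists_mt_or (o := o) (P := PP o i) (N := M l) h1
      refine ⟨c'', h4, KLe.trans h4 h1 hc h5 h2, fun l' hl' => ?_⟩
      rcases Finset.mem_insert.1 hl' with rfl | hl'
      · exact h6
      · exact (h3 l' hl').imp (fun h => h.mono Subset.rfl h1 h4 h5) (fun h => h.mono Subset.rfl h1 h4 h5)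
  obtain ⟨c', h1, h2, h3⟩ := H Finset.univ
  exact ⟨c', h1, h2, fun l => h3 l (Finset.mem_univ l)⟩

theorem job_bd : St_bd := by
  intro o Prot hl i hN r hr D hD c₀ hc₀ k v
  have hD' := hD.sub
  constructor
  · intro η n c hc; exact hc.1
  · rintro η n ⟨c, hc⟩; exact hc.2.1
  · -- field
    intro c hc η n hm l
    have hg := g_of_mt hc hm
    refine mt_of_dense Subset.rfl hc fun c' hc' hle => ?_
    obtain ⟨c₂, h1, h2, y', h3, -⟩ := hg.2.2 η le_rfl hg.2.1 c' hc' hle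
    exact ⟨c₂, h1, h2, (hr.refl c₂ h1 _ _ (h3 l)).1⟩
  · -- PP1
    intro c hc η η' n m hm hη hmn
    have hg := g_of_mt hc hm
    refine mt_of_g ⟨hc, hη.trans_lt hg.2.1, ?_⟩
    intro η₂ h1 h2 c₁ hc₁ hle
    rcases le_or_gt η η₂ with h3 | h3
    · obtain ⟨c₂, h4, h5, y', h6, h7⟩ := hg.2.2 η₂ h3 h2 c₁ hc₁ hle
      refine ⟨c₂, h4, h5, y', fun l => ?_, h7⟩
      exact hr.trans c₂ h4 _ _ _ ((hmn l).mono Subset.rfl hc h4 (KLe.trans h4 hc₁ hc h5 hle)) (h6 l)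
    · obtain ⟨c₂, h4, h5, y', h6, h7⟩ := hg.2.2 η le_rfl hg.2.1 c₁ hc₁ hle
      have hy : y' = n := by
        funext l
        have h8 := (hr.lvl c₂ h4 _ _ (h6 l)).2 rfl
        exact (congrArg Prod.snd h8).symm
      subst hy
      obtain ⟨c₃, h8, h9, y₂, h10⟩ := ex_tuple hr h3.le y' h4 h7.2.1
      have h11 := KLe.trans h8 h4 hc₁ h9 h5
      refine ⟨c₃, h8, h11, y₂, fun l => ?_, ?_⟩
      · exact tree_pred hr h8 ((hmn l).mono Subset.rfl hc h8 (KLe.trans h8 hc₁ hc h11 hle)) (h10 l) h1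
      · exact bd_down hl hN hr hD' hg.2.1 h3.le (bd_open h7 h8 h9) h10
  · -- PP2
    intro c hc η η' m hm hη hη1
    have hg := g_of_mt hc hm
    by_contra H
    push Not at H
    let E : (Fin k → ℕ) → Set Cnd := fun n => {e | e ∈ PP o i ∧ ((∃ l, nmt o (PP o i) (r (η', m l) (η, n l)) e) ∨
      (∃ η₂, η ≤ η₂ ∧ η₂ < ω_ 1 ∧ ∀ c₂ ∈ PP o i, KLe o c₂ e → ∀ y', (∀ l, mt o (PP o i) (r (η, n l) (η₂, y' l)) c₂) →
        c₂ ∉ Bd o i r D c₀ k v η₂ y') ∨ (∀ e' ∈ PP o i, KLe o e' e → ¬ KLe o e' c))}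
    have hE : ∀ n : ULift.{1} (Fin k → ℕ), DO o (PP o i) (E n.down) := by
      rintro ⟨n⟩
      refine ⟨fun e he => he.1, ?_, ?_⟩
      · rintro e ⟨he, h⟩ e' he' hle
        refine ⟨he', ?_⟩
        rcases h with ⟨l, h⟩ | ⟨η₂, h1, h2, h3⟩ | h
        · exact Or.inl ⟨l, h.mono Subset.rfl he he' hle⟩
        · exact Or.inr (Or.inl ⟨η₂, h1, h2, fun c₂ h4 h5 => h3 c₂ h4 (KLe.trans h4 he' he h5 hle)⟩)
        · exact Or.inr (Or.inr fun e₂ h4 h5 => h e₂ h4 (KLe.trans h4 he' he h5 hle))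
      · intro e he
        by_cases h : ∀ e' ∈ PP o i, KLe o e' e → ¬ KLe o e' c
        · exact ⟨e, ⟨he, Or.inr (Or.inr h)⟩, KLe.refl _⟩
        · push Not at h
          obtain ⟨e₁, h1, h2, h3⟩ := h
          obtain ⟨e₂, h4, h5, h6⟩ := exists_mt_or_fin (fun l => r (η', m l) (η, n l)) h1
          have h7 := KLe.trans h4 h1 he h5 h2
          have h8 := KLe.trans h4 h1 hc h5 h3
          by_cases h9 : ∃ l, nmt o (PP o i) (r (η', m l) (η, n l)) e₂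
          · exact ⟨e₂, ⟨h4, Or.inl h9⟩, h7⟩
          · push Not at h9
            have h10 : ∀ l, mt o (PP o i) (r (η', m l) (η, n l)) e₂ := fun l => (h6 l).resolve_right (h9 l)
            have h11 : e₂ ∉ (bdName o i r D c₀ k v).G η n := by
              intro h12
              obtain ⟨l, hl'⟩ := H e₂ h4 h8 n (mt_of_g h12)
              exact hl' (h10 l)
            have h12 : ¬ ∀ η₂, η ≤ η₂ → η₂ < ω_ 1 → ∀ c₁ ∈ PP o i, KLe o c₁ e₂ → ∃ c₂ ∈ PP o i, KLe o c₂ c₁ ∧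
                ∃ y', (∀ l, mt o (PP o i) (r (η, n l) (η₂, y' l)) c₂) ∧ c₂ ∈ Bd o i r D c₀ k v η₂ y' :=
              fun h13 => h11 ⟨h4, hη1, h13⟩
            push Not at h12
            obtain ⟨η₂, h13, h14, c₁, h15, h16, h17⟩ := h12
            refine ⟨c₁, ⟨h15, Or.inr (Or.inl ⟨η₂, h13, h14, ?_⟩)⟩, KLe.trans h15 h4 he h16 h7⟩
            intro c₂ h18 h19 y' h20
            exact h17 c₂ h18 h19 y' h20
    obtain ⟨cs, h1, h2, h3⟩ := nn_countable hN (fun n : ULift.{1} (Fin k → ℕ) => E n.down) hE hc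
    -- the levels
    have hf : ∀ n : Fin k → ℕ, ∃ η₂, η ≤ η₂ ∧ η₂ < ω_ 1 ∧ ((∃ l, nmt o (PP o i) (r (η', m l) (η, n l)) cs) ∨
        ∀ c₂ ∈ PP o i, KLe o c₂ cs → ∀ y', (∀ l, mt o (PP o i) (r (η, n l) (η₂, y' l)) c₂) →
          c₂ ∉ Bd o i r D c₀ k v η₂ y') := by
      intro n
      rcases (h3 ⟨n⟩).2 with h | ⟨η₂, h4, h5, h6⟩ | h
      · exact ⟨η, le_rfl, hη1, Or.inl h⟩
      · exact ⟨η₂, h4, h5, Or.inr h6⟩
      · exact absurd h2 (h cs h1 (KLe.refl _))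
    choose f hf1 hf2 hf3 using hf
    have hsup : iSup f < ω_ 1 := Ordinal.iSup_lt_omega_one hf2
    have hfle : ∀ n, f n ≤ iSup f := fun n => Ordinal.le_iSup f n
    have hηs : η ≤ iSup f := (hf1 (fun _ => 0)).trans (hfle _)
    obtain ⟨c₂, h4, h5, ys, h6, h7⟩ := hg.2.2 (iSup f) (hη.le.trans hηs) hsup cs h1 h2
    obtain ⟨c₃, h8, h9, n, h10⟩ := ex_tuple hr hηs ys h4 h7.2.1
    have h11 : ∀ l, mt o (PP o i) (r (η', m l) (η, n l)) c₃ := fun l =>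
      tree_pred hr h8 ((h6 l).mono Subset.rfl h4 h8 h9) (h10 l) hη.le
    have h12 := KLe.trans h8 h4 h1 h9 h5
    rcases hf3 n with ⟨l, h13⟩ | h13
    · exact not_mt_nmt h8 (h11 l) (h13.mono Subset.rfl h1 h8 h12)
    · obtain ⟨c₄, h14, h15, y', h16⟩ := ex_tuple hr (hfle n) ys h8 (fun l => (h7.2.1 l).mono Subset.rfl h4 h8 h9)
      refine h13 c₄ h14 (KLe.trans h14 h8 h1 h15 h12) y' (fun l => ?_) ?_
      · exact tree_pred hr h14 ((h10 l).mono Subset.rfl h8 h14 h15) (h16 l) (hf1 n)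
      · exact bd_down hl hN hr hD' hsup (hfle n) (bd_open h7 h14 (KLe.trans h14 h8 h4 h15 h9)) h16

end Pool.Agent.Helper919.SD.Tbd
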