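import Pool.Agent.Helper919_SDT.Stmts

set_option autoImplicit false

/-!
# Dispersal
-/

namespace Pool.Agent.Helper919.SD.Tdisp

open Ordinal Cardinal Set

variable {o : Ord → Opt} {i : Ord} {r : Node → Node → Set Cnd} {G : PName}

/-- `c` forces that the tuple `n` of the level `β` is in `G` and is above the tuple `m` of the level `α`. -/
structure Xt (o : Ord → Opt) (i : Ord) (r : Node → Node → Set Cnd) (G : PName) (c : Cnd) (α : Ord)
    (m : Fin G.k → ℕ) (β : Ord) (n : Fin G.k → ℕ) : Prop where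
  le : α ≤ β
  lt : β < ω_ 1
  G : mt o (PP o i) (G.G β n) c
  r : ∀ l, mt o (PP o i) (r (α, m l) (β, n l)) c

theorem Xt.mono {c c' : Cnd} {α β : Ord} {m n : Fin G.k → ℕ} (h : Xt o i r G c α m β n) (hc : c ∈ PP o i)
    (hc' : c' ∈ PP o i) (hle : KLe o c' c) : Xt o i r G c' α m β n :=
  ⟨h.le, h.lt, h.G.mono Subset.rfl hc hc' hle, fun l => (h.r l).mono Subset.rfl hc hc' hle⟩

theorem Xt.refl (hG : OKP o (PP o i) r G) {c : Cnd} (hc : c ∈ PP o i) {α : Ord} {m : Fin G.k → ℕ} (hα : α < ω_ 1)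
    (h : mt o (PP o i) (G.G α m) c) : Xt o i r G c α m α m :=
  ⟨le_rfl, hα, h, hG.fld c hc α m h⟩

theorem Xt.trans (hr : Good o (PP o i) r) {c : Cnd} (hc : c ∈ PP o i) {α β γ : Ord} {m n p : Fin G.k → ℕ}
    (h : Xt o i r G c α m β n) (h' : Xt o i r G c β n γ p) : Xt o i r G c α m γ p :=
  ⟨h.le.trans h'.le, h'.lt, h'.G, fun l => hr.trans c hc _ _ _ (h.r l) (h'.r l)⟩

theorem exists_xt (hG : OKP o (PP o i) r G) {c : Cnd} (hc : c ∈ PP o i) {α β : Ord} {m : Fin G.k → ℕ}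
    (h : mt o (PP o i) (G.G α m) c) (hab : α ≤ β) (hβ : β < ω_ 1) :
    ∃ c' ∈ PP o i, KLe o c' c ∧ ∃ n, Xt o i r G c' α m β n := by
  rcases hab.eq_or_lt with rfl | hab
  · exact ⟨c, hc, KLe.refl _, m, Xt.refl hG hc hβ h⟩
  · obtain ⟨c', h1, h2, n, h3, h4⟩ := hG.pp2 c hc β α m h hab hβ
    exact ⟨c', h1, h2, n, hab.le, hβ, h3, h4⟩

/-- Different nodes have different extensions. -/
theorem ne_of_ne (hr : Good o (PP o i) r) {c : Cnd} (hc : c ∈ PP o i) {α β : Ord} {m n m' n' : Fin G.k → ℕ}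
    (h : Xt o i r G c α m β n) (h' : Xt o i r G c α m' β n') {l l' : Fin G.k} (hne : m l ≠ m' l') :
    n l ≠ n' l' := by
  intro he
  have h1 := h.r l
  have h2 := h'.r l'
  rw [he] at h1
  have := hr.uniq c hc _ _ _ h1 h2 rfl
  exact hne (Prod.ext_iff.1 this).2

theorem mt_of_mem {P N : Set Cnd} {c : Cnd} (h : c ∈ N) : mt o P N c :=
  fun c' hc' hle => ⟨c', hc', KLe.refl _, c, h, hle⟩

/-- (C1) -/
theorem split_one (hr : Good o (PP o i) r) (hG : OKP o (PP o i) r G) {c : Cnd} (hc : c ∈ PP o i) {α : Ord}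
    {m : Fin G.k → ℕ} (hα : α < ω_ 1) (h : mt o (PP o i) (G.G α m) c) (l : Fin G.k) :
    ∃ c' ∈ PP o i, KLe o c' c ∧ ∃ β n n', Xt o i r G c' α m β n ∧ Xt o i r G c' α m β n' ∧ n l ≠ n' l := by
  by_contra hcon
  push Not at hcon
  refine hr.nobr c hc (fun y => {e | e ∈ PP o i ∧ ∃ n, Xt o i r G e α m y.1 n ∧ n l = y.2}) ?_ ?_
  · intro c' hc' hle x y hx hy
    obtain ⟨c₁, hc₁, h1, d, ⟨hd, n, hn, hnx⟩, h1d⟩ := hx c' hc' (KLe.refl _)
    obtain ⟨c₂, hc₂, h2, d', ⟨hd', n', hn', hny⟩, h2d⟩ := hy c₁ hc₁ h1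
    have e1 := (hn.mono hd hc₁ h1d).mono hc₁ hc₂ h2
    have e2 := hn'.mono hd' hc₂ h2d
    have h2' := KLe.trans hc₂ hc₁ hc' h2 h1
    rcases le_total x.1 y.1 with hxy | hxy
    · obtain ⟨c₃, hc₃, h3, p, hp⟩ := exists_xt hG hc₂ e1.G hxy e2.lt
      have h3' := KLe.trans hc₃ hc₂ hc' h3 h2'
      have e3 := Xt.trans hr hc₃ (e1.mono hc₂ hc₃ h3) hp
      have e4 := hcon c₃ hc₃ (KLe.trans hc₃ hc' hc h3' hle) y.1 p n' e3 (e2.mono hc₂ hc₃ h3)
      refine ⟨c₃, hc₃, h3', Or.inl ?_⟩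
      have e5 := hp.r l
      rw [hnx, e4, hny] at e5
      exact e5
    · obtain ⟨c₃, hc₃, h3, p, hp⟩ := exists_xt hG hc₂ e2.G hxy e1.lt
      have h3' := KLe.trans hc₃ hc₂ hc' h3 h2'
      have e3 := Xt.trans hr hc₃ (e2.mono hc₂ hc₃ h3) hp
      have e4 := hcon c₃ hc₃ (KLe.trans hc₃ hc' hc h3' hle) x.1 p n e3 (e1.mono hc₂ hc₃ h3)
      refine ⟨c₃, hc₃, h3', Or.inr ?_⟩
      have e5 := hp.r l
      rw [hny, e4, hnx] at e5
      exact e5
  · intro c' hc' hle ξ hξ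
    obtain ⟨c₁, hc₁, h1, n, hn⟩ := exists_xt hG hc' (h.mono Subset.rfl hc hc' hle) (le_max_right ξ α)
      (max_lt hξ hα)
    refine ⟨c₁, hc₁, h1, (max ξ α, n l), le_max_left _ _, mt_of_mem ⟨hc₁, n, hn, rfl⟩⟩

/-- (C) -/
theorem split_all (hr : Good o (PP o i) r) (hG : OKP o (PP o i) r G) {c : Cnd} (hc : c ∈ PP o i) {α : Ord}
    {m : Fin G.k → ℕ} (hα : α < ω_ 1) (h : mt o (PP o i) (G.G α m) c) :
    ∃ c' ∈ PP o i, KLe o c' c ∧ ∃ β n n', Xt o i r G c' α m β n ∧ Xt o i r G c' α m β n' ∧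
      ∀ l l', n l ≠ n' l' := by
  have key : ∀ S : Finset (Fin G.k × Fin G.k), ∃ c' ∈ PP o i, KLe o c' c ∧ ∃ β n n', Xt o i r G c' α m β n ∧
      Xt o i r G c' α m β n' ∧ ∀ e ∈ S, n e.1 ≠ n' e.2 := by
    intro S
    induction S using Finset.induction_on with
    | empty => exact ⟨c, hc, KLe.refl _, α, m, m, Xt.refl hG hc hα h, Xt.refl hG hc hα h, by simp⟩
    | insert e S he ih =>
      obtain ⟨c₁, hc₁, h1, β, n, n', e1, e2, e3⟩ := ih
      obtain ⟨c₂, hc₂, h2, γ, p, p', f1, f2, f3⟩ := split_one hr hG hc₁ e1.lt e1.G e.1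
      obtain ⟨c₃, hc₃, h3, q, hq⟩ := exists_xt hG hc₂ (e2.mono hc₁ hc₂ h2).G f1.le f1.lt
      have h32 := KLe.trans hc₃ hc₂ hc₁ h3 h2
      have h31 := KLe.trans hc₃ hc₁ hc h32 h1
      have g1 := f1.mono hc₂ hc₃ h3
      have g2 := f2.mono hc₂ hc₃ h3
      have i1 := e1.mono hc₁ hc₃ h32
      have i2 := e2.mono hc₁ hc₃ h32
      have : ∃ p₀, Xt o i r G c₃ β n γ p₀ ∧ p₀ e.1 ≠ q e.2 := by
        by_cases hp : p e.1 = q e.2
        · exact ⟨p', g2, fun h' => f3 (hp.trans h'.symm)⟩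
        · exact ⟨p, g1, hp⟩
      obtain ⟨p₀, hp₀, hp₀'⟩ := this
      refine ⟨c₃, hc₃, h31, γ, p₀, q, Xt.trans hr hc₃ i1 hp₀, Xt.trans hr hc₃ i2 hq, ?_⟩
      intro e' he'
      rcases Finset.mem_insert.1 he' with rfl | he'
      · exact hp₀'
      · exact ne_of_ne hr hc₃ hp₀ hq (e3 e' he')
  obtain ⟨c', h1, h2, β, n, n', h3, h4, h5⟩ := key Finset.univ
  exact ⟨c', h1, h2, β, n, n', h3, h4, fun l l' => h5 (l, l') (Finset.mem_univ _)⟩

/-- Many pairwise disjoint extensions. -/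
theorem split_many (hr : Good o (PP o i) r) (hG : OKP o (PP o i) r G) (j : ℕ) : ∀ {c : Cnd}, c ∈ PP o i →
    ∀ {α : Ord} {m : Fin G.k → ℕ}, α < ω_ 1 → mt o (PP o i) (G.G α m) c →
    ∃ c' ∈ PP o i, KLe o c' c ∧ ∃ β, α ≤ β ∧ β < ω_ 1 ∧ ∃ f : Fin j → Fin G.k → ℕ,
      (∀ a, Xt o i r G c' α m β (f a)) ∧ ∀ a a', a ≠ a' → ∀ l l', f a l ≠ f a' l' := by
  induction j with
  | zero =>
    intro c hc α m hα h
    exact ⟨c, hc, KLe.refl _, α, le_rfl, hα, fun a => m, fun a => a.elim0, fun a => a.elim0⟩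
  | succ j ih =>
    intro c hc α m hα h
    obtain ⟨c₁, hc₁, h1, β, n, n', e1, e2, e3⟩ := split_all hr hG hc hα h
    obtain ⟨c₂, hc₂, h2, γ, hγ, hγ', f, hf, hf'⟩ := ih hc₁ e1.lt e1.G
    obtain ⟨c₃, hc₃, h3, q, hq⟩ := exists_xt hG hc₂ (e2.mono hc₁ hc₂ h2).G hγ hγ'
    have h32 := KLe.trans hc₃ hc₂ hc₁ h3 h2
    have h31 := KLe.trans hc₃ hc₁ hc h32 h1
    have i1 := e1.mono hc₁ hc₃ h32
    have i2 := e2.mono hc₁ hc₃ h32
    have hf3 := fun a => (hf a).mono hc₂ hc₃ h3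
    refine ⟨c₃, hc₃, h31, γ, e1.le.trans hγ, hγ', Fin.cons q f, ?_, ?_⟩
    · intro a
      refine Fin.cases ?_ (fun a => ?_) a
      · exact Xt.trans hr hc₃ i2 hq
      · exact Xt.trans hr hc₃ i1 (hf3 a)
    · intro a a'
      refine Fin.cases ?_ (fun a => ?_) a
      · refine Fin.cases ?_ (fun a' => ?_) a'
        · intro h; exact absurd rfl h
        · intro _ l l'
          simp only [Fin.cons_zero, Fin.cons_succ]
          exact (ne_of_ne hr hc₃ (hf3 a') hq (e3 l' l)).symm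
      · refine Fin.cases ?_ (fun a' => ?_) a'
        · intro _ l l'
          simp only [Fin.cons_zero, Fin.cons_succ]
          exact ne_of_ne hr hc₃ (hf3 a) hq (e3 l l')
        · intro h l l'
          simp only [Fin.cons_succ]
          exact hf' a a' (fun h' => h (by rw [h'])) l l'

/-- Simultaneous extensions. -/
theorem extend_many (hG : OKP o (PP o i) r G) {ι : Type} (S : Finset ι) {c : Cnd}
    (hc : c ∈ PP o i) {α β : Ord} (f : ι → Fin G.k → ℕ) (h : ∀ a, mt o (PP o i) (G.G α (f a)) c) (hab : α ≤ β)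
    (hβ : β < ω_ 1) : ∃ c' ∈ PP o i, KLe o c' c ∧ ∀ a ∈ S, ∃ n, Xt o i r G c' α (f a) β n := by
  classical
  induction S using Finset.induction_on with
  | empty => exact ⟨c, hc, KLe.refl _, by simp⟩
  | insert e S he ih =>
    obtain ⟨c₁, hc₁, h1, h2⟩ := ih
    obtain ⟨c₂, hc₂, h3, n, hn⟩ := exists_xt hG hc₁ ((h e).mono Subset.rfl hc hc₁ h1) hab hβ
    refine ⟨c₂, hc₂, KLe.trans hc₂ hc₁ hc h3 h1, ?_⟩
    intro a ha
    rcases Finset.mem_insert.1 ha with rfl | ha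
    · exact ⟨n, hn⟩
    · obtain ⟨n', hn'⟩ := h2 a ha
      exact ⟨n', hn'.mono hc₁ hc₂ h3⟩

theorem job_disp : St_disp := by
  intro o i hNN r hr G hG c hc α m hα h
  obtain ⟨c', hc', hle, hD⟩ := hNN (fun j => {e | e ∈ PP o i ∧ ((∃ β, α ≤ β ∧ β < ω_ 1 ∧ ∃ f : Fin j → Fin G.k → ℕ,
      (∀ a, Xt o i r G e α m β (f a)) ∧ ∀ a a', a ≠ a' → ∀ l l', f a l ≠ f a' l') ∨
      ∀ e' ∈ PP o i, KLe o e' e → ¬ mt o (PP o i) (G.G α m) e')}) (by
    intro j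
    refine ⟨fun e he => he.1, ?_, ?_⟩
    · rintro e ⟨he, h1⟩ e' he' hle
      refine ⟨he', ?_⟩
      rcases h1 with ⟨β, h1, h2, f, h3, h4⟩ | h1
      · exact Or.inl ⟨β, h1, h2, f, fun a => (h3 a).mono he he' hle, h4⟩
      · exact Or.inr fun e₂ he₂ hle₂ => h1 e₂ he₂ (KLe.trans he₂ he' he hle₂ hle)
    · intro e he
      by_cases h1 : ∀ e' ∈ PP o i, KLe o e' e → ¬ mt o (PP o i) (G.G α m) e'
      · exact ⟨e, ⟨he, Or.inr h1⟩, KLe.refl _⟩
      · push Not at h1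
        obtain ⟨e', he', hle', h2⟩ := h1
        obtain ⟨e₂, he₂, hle₂, h3⟩ := split_many hr hG j he' hα h2
        exact ⟨e₂, ⟨he₂, Or.inl h3⟩, KLe.trans he₂ he' he hle₂ hle'⟩) c hc
  have hD' : ∀ j : ℕ, ∃ β, α ≤ β ∧ β < ω_ 1 ∧ ∃ f : Fin j → Fin G.k → ℕ,
      (∀ a, Xt o i r G c' α m β (f a)) ∧ ∀ a a', a ≠ a' → ∀ l l', f a l ≠ f a' l' := by
    intro j
    rcases (hD j).2 with h1 | h1
    · exact h1
    · exact absurd (h.mono Subset.rfl hc hc' hle) (h1 c' hc' (KLe.refl _))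
  choose β hβ1 hβ2 f hf1 hf2 using hD'
  refine ⟨c', hc', hle, ⨆ j, β j, ?_, ?_⟩
  · exact Ordinal.iSup_lt_omega_one hβ2
  · intro β' hβ' hβ'' fi c'' hc'' hle''
    set j := fi.card + 1 with hj
    have hjb : β j ≤ β' := (Ordinal.le_iSup β j).trans hβ'
    obtain ⟨c₃, hc₃, h3, h4⟩ := extend_many hG Finset.univ hc'' (f j)
      (fun a => ((hf1 j a).mono hc' hc'' hle'').G) hjb hβ''
    choose p hp using fun a => h4 a (Finset.mem_univ a)
    have hlt : ∃ a, ∀ l, p a l ∉ fi := by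
      by_contra hcon
      push Not at hcon
      choose l hl using hcon
      have hinj : Function.Injective (fun a => (⟨p a (l a), hl a⟩ : fi)) := by
        intro a a' haa
        by_contra hne
        exact ne_of_ne hr hc₃ (hp a) (hp a') (hf2 j a a' hne (l a) (l a')) (Subtype.ext_iff.1 haa)
      have := Fintype.card_le_of_injective _ hinj
      simp [hj] at this
    obtain ⟨a, ha⟩ := hlt
    have hx := Xt.trans hr hc₃ (((hf1 j a).mono hc' hc'' hle'').mono hc'' hc₃ h3) (hp a)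
    exact ⟨c₃, hc₃, h3, p a, hx.G, ha, hx.r⟩

end Pool.Agent.Helper919.SD.Tdisp
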