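import Pool.Agent.Helper919_SDT.Stmts

set_option autoImplicit false

/-!
# The index `0`
-/

namespace Pool.Agent.Helper919.SD.Tgood0

open Ordinal Cardinal Set
open Pool.Agent.Helper919.SD

variable {o : Ord → Opt} {Prot : Set Ord}

/-- The zero thread. -/
def zt : Thr := fun _ _ _ => 0

theorem cut_zt (w : Set Ord) (α : Ord) : cut w α zt = zt := by
  funext i ξ n
  simp [cut, zt]

theorem eq_zt {w : Set Ord} (hw : w = ∅) {α : Ord} {t : Thr} (h : cut w α t = t) : t = zt := by
  funext i ξ n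
  rw [eq_zero_of_cut h]
  · rfl
  · rintro ⟨h1, _⟩
    rw [hw] at h1
    exact h1

theorem co_zero (p : Cond) (α : Ord) : co p 0 α = ∅ := by
  ext i
  simp only [co, Set.mem_ofPred_eq, Set.mem_empty_iff_false, iff_false]
  rintro ⟨h, _⟩
  exact absurd h not_lt_zero

theorem T_zero {p : Cond} (h : LegCore p 0) {α : Ord} (hα : α ∈ p.C 0) {t : Thr} (ht : t ∈ p.T 0 α) :
    t = zt := eq_zt (co_zero p α) (h.Ts α hα t ht)

/-- Adding the index `0`. -/
def ins (p : Cond) : Cond := ⟨insert 0 p.J, p.C, p.u, p.T, p.F, p.Pr⟩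

theorem ins_mem (hb : St_birth) (hl : Legit o Prot) {p : Cond} (hp : p ∈ A o 0) : ins p ∈ A o 0 := by
  by_cases h : (0 : Ord) ∈ p.J
  · have : ins p = p := by
      ext1
      · exact Set.insert_eq_of_mem h
      all_goals rfl
    rw [this]; exact hp
  · obtain ⟨p', h1, _, h2, h3, h4, h5, h6, h7⟩ := hb o Prot hl 0 p hp 0 le_rfl h
    have : ins p = p' := by
      ext1
      · exact h2.symm
      · exact h3.symm
      · exact h4.symm
      · exact h5.symm
      · exact h6.symm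
      · exact h7.symm
    rw [this]; exact h1

theorem ins_le {p q : Cond} (hp : p ∈ A o 0) (h : CLe o q p) : CLe o (ins q) (ins p) := by
  have hn := A.nrm hp
  have key : ∀ j ∈ (ins p).J, j ∉ p.J → p.C j = ∅ ∧ p.F j = ∅ ∧ p.Pr j = ∅ :=
    fun j _ hj => ⟨hn.C j hj, hn.F j hj, hn.Pr j hj⟩
  refine ⟨Set.insert_subset_insert h.J, ?_, ?_, ?_, ?_, ?_, ?_, ?_⟩
  · intro j hj
    by_cases hp' : j ∈ p.J
    · exact h.C j hp'
    · change p.C j ⊆ _
      rw [(key j hj hp').1]; exact Set.empty_subset _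
  · intro j hj α h1 h2 β hβ
    by_cases hp' : j ∈ p.J
    · exact h.ee j hp' α h1 h2 β hβ
    · change β ∈ p.C j at hβ
      rw [(key j hj hp').1] at hβ; exact absurd hβ (notMem_empty β)
  · intro j hj α hα
    by_cases hp' : j ∈ p.J
    · exact h.u j hp' α hα
    · change α ∈ p.C j at hα
      rw [(key j hj hp').1] at hα; exact absurd hα (notMem_empty α)
  · intro j hj α hα
    by_cases hp' : j ∈ p.J
    · exact h.T j hp' α hα
    · change α ∈ p.C j at hα
      rw [(key j hj hp').1] at hα; exact absurd hα (notMem_empty α)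
  · intro j hj
    by_cases hp' : j ∈ p.J
    · exact h.F j hp'
    · change p.F j ⊆ _
      rw [(key j hj hp').2.1]; exact Set.empty_subset _
  · intro j hj
    by_cases hp' : j ∈ p.J
    · exact h.Pr j hp'
    · change p.Pr j ⊆ _
      rw [(key j hj hp').2.2]; exact Set.empty_subset _
  · intro i γ _ _ α _ _ β hβ
    have h1 : γ + 1 ∈ p.J := hn.mem_J hβ
    have h2 : γ + 1 ≤ 0 := A.le hp h1
    exact absurd h2 (not_le_of_gt (lt_of_le_of_lt (zero_le) (lt_add_one γ)))

theorem le_ins {p : Cond} : CLe o (ins p) p where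
  J := Set.subset_insert _ _
  C _ _ := Subset.rfl
  ee _ _ _ h1 h2 := absurd h1 h2
  u _ _ _ _ := rfl
  T _ _ _ _ := rfl
  F _ _ := Subset.rfl
  Pr _ _ := Subset.rfl
  kl _ _ _ _ _ h1 h2 := absurd h1 h2

/-- The empty condition. -/
def emp : Cond := ⟨∅, fun _ => ∅, fun _ _ => ∅, fun _ _ => ∅, fun _ => ∅, fun _ => ∅⟩

theorem emp_mem (y : Ord) : emp ∈ A o y :=
  ⟨⟨countable_empty, fun _ _ => rfl, fun _ _ => rfl, fun _ _ => rfl, fun _ _ _ => rfl, fun _ _ _ => rfl⟩,
    fun z hz => absurd hz (notMem_empty z)⟩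

theorem job_good0 (ht : St_top) (hb : St_birth) : St_good0 := by
  intro o Prot hl N δ gs hN y p hp
  have hres : ∀ n, (p n).res 0 ∈ A o 0 := fun n => A.res hl (hp.A n) 0
  let p' : ℕ → Cond := fun n => ins ((p n).res 0)
  have hp'A : ∀ n, p' n ∈ A o 0 := fun n => ins_mem hb hl (hres n)
  have hp'd : ∀ n, CLe o (p' (n + 1)) (p' n) := fun n => ins_le (hres n) ((hp.dec n).res 0)
  have h0 : ∀ n, (0 : Ord) ∈ (p' n).J := fun n => Set.mem_insert _ _
  have hcore : ∀ n, LegCore (p' n) 0 := fun n => A.core (hp'A n) (h0 n)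
  have hC : ∀ n α, α ∈ (p' n).C 0 → α ∈ (p n).C 0 := by
    intro n α hα
    change α ∈ ((p n).res 0).C 0 at hα
    rwa [res_C _ _ le_rfl] at hα
  have hnone : ∀ i : Ord, i + 1 ≠ 0 := fun i => (lt_of_le_of_lt zero_le (lt_add_one i)).ne'
  have htop : TopC emp 0 p' δ ∅ {zt} := by
    constructor
    · exact hN.lim
    · exact hN.lt
    · intro n α hα
      have h1 := hC n α hα
      have h2 := hN.C (p n) y (hp.mem n) (hp.A n) 0 ((A.nrm (hp.A n)).mem_J h1) α h1
      exact (hN.ord α ((hcore n).Clt α hα)).1 h2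
    · exact countable_empty
    · exact fun z hz => absurd hz (notMem_empty z)
    · exact fun z hz => absurd hz not_lt_zero
    · exact fun h => absurd h (lt_irrefl _)
    · rintro i (h | h)
      · exact absurd h (notMem_empty _)
      · exact absurd h (hnone i)
    · exact countable_singleton _
    · exact singleton_nonempty _
    · intro t ht
      rw [mem_singleton_iff.1 ht]; exact cut_zt _ _
    · exact fun z hz => absurd hz (notMem_empty z)
    · exact fun z hz => absurd hz (notMem_empty z)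
    · exact fun z hz => absurd hz (notMem_empty z)
    · intro n α hα z hz
      exact absurd ((hcore n).ult α hα z hz) not_lt_zero
    · intro n α hα t ht
      rw [mem_singleton_iff.1 ht, cut_zt]
      obtain ⟨s, hs⟩ := (hcore n).Tn α hα
      rw [← T_zero (hcore n) hα hs]; exact hs
    · intro n α hα x _ t ht z hz _
      refine ⟨z, hz, ?_, rfl⟩
      rw [co_zero]
      exact fun i hi => absurd hi (notMem_empty i)
  obtain ⟨_, h2⟩ := ht o Prot hl 0 p' emp δ ∅ {zt} hp'A hp'd (h0 0) (emp_mem 0)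
    (fun j hj => absurd hj (notMem_empty j)) (fun _ x hx => absurd hx not_lt_zero) htop
  obtain ⟨h3, h4, h5, h6, h7⟩ := h2 (fun i hi => absurd hi (hnone i))
  have h8 := h7 (fun i γ hi => absurd hi (hnone i))
  refine ⟨mkTop emp 0 p' δ ∅ {zt}, ⟨h3, Set.mem_insert _ _, ?_, ?_, ?_⟩, fun n => ?_, ?_⟩
  · rw [h5]; exact Set.mem_insert _ _
  · have : (mkTop emp 0 p' δ ∅ {zt}).u 0 δ = ∅ := by simp [mkTop]
    rw [this]
    ext z
    simp only [Set.mem_empty_iff_false, Set.mem_ofPred_eq, false_iff]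
    rintro ⟨h, _⟩
    exact absurd h not_lt_zero
  · exact fun t _ γ hγ => absurd hγ not_lt_zero
  · exact (h8 n).trans (A.nrm (hres n)) le_ins
  · rw [h5]
    rintro α (rfl | hα)
    · exact le_rfl
    · obtain ⟨n, hn⟩ := Set.mem_iUnion.1 hα
      exact (htop.ab n α hn).le

theorem job_ss0 (ht : St_top) (hb : St_birth) (hm : St_mdl) : St_ss0 := by
  intro o Prot hl p hp D hD
  obtain ⟨N, δ, hS, hN, _⟩ := hm o Prot hl (fun _ _ => U.cond p) {U.cond p} (countable_singleton _)
  have hsq : Sq o N 0 (fun _ => p) := ⟨fun _ => hS rfl, fun _ => hp, fun _ => CLe.refl _⟩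
  obtain ⟨q, hq, hle, _⟩ := job_good0 ht hb o Prot hl N δ none hN.basic 0 (fun _ => p) hsq
  have hle' : CLe o q p := by
    have h1 := hle 0
    rwa [res_self (A.nrm hp) (fun j hj => A.le hp hj)] at h1
  have hcore := A.core hq.A hq.J
  obtain ⟨t, htq⟩ := hcore.Tn δ hq.C
  have hc : (⟨q, 0, δ, t⟩ : Cnd) ∈ PP o 0 := ⟨rfl, hq.A, hq.J, hq.C, htq⟩
  obtain ⟨c', hc', hcle⟩ := hD.dn _ hc
  have hc'P := hD.sub hc'
  obtain ⟨h1, h2, h3, h4, h5⟩ := hc'P
  refine ⟨c'.p, h2, hcle.p.trans (A.nrm hp) hle', c'.α, h4, fun s hs => ?_⟩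
  have hcore' := A.core h2 h3
  have e1 : s = zt := T_zero hcore' h4 hs
  have e2 : c'.t = zt := T_zero hcore' h4 h5
  have : (⟨c'.p, 0, c'.α, s⟩ : Cnd) = c' := by
    ext1
    · rfl
    · exact h1.symm
    · rfl
    · exact e1.trans e2.symm
  rw [this]; exact hc'

end Pool.Agent.Helper919.SD.Tgood0
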