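import Pool.Agent.Helper919_SDT.Stmts

set_option autoImplicit false

/-!
# Generic sequences
-/

namespace Pool.Agent.Helper919.SD.Tgs

open Ordinal Cardinal Set

variable {o : Ord → Opt} {Prot : Set Ord}

/-- The level of `q` inside `D`. -/
def Met (q : Cond) (z : Ord) (D : Set Cnd) : Prop :=
  ∃ β ∈ q.C z, ∀ t ∈ q.T z β, (⟨q.res z, z, β, t⟩ : Cnd) ∈ D

/-- Construction of a sequence from one step. -/
theorem build {N : Set U} (hN : N.Countable) {y : Ord} (Inv : Cond → Prop)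
    (hinv : ∀ p, Inv p → U.cond p ∈ N ∧ p ∈ A o y) (P : Ord → Prop)
    (step : ∀ p, Inv p → ∀ z, P z → U.ord z ∈ N → ∀ D, U.st D ∈ N → DO o (PP o z) D →
      ∃ q, Inv q ∧ CLe o q p ∧ Met q z D) {p : Cond} (hp : Inv p) :
    ∃ ps : ℕ → Cond, Sq o N y ps ∧ ps 0 = p ∧ (∀ z, P z → U.ord z ∈ N → Gen o N ps z) ∧ ∀ n, Inv (ps n) := by
  have h1 : {α : Ord | U.ord α ∈ N}.Countable :=
    hN.preimage_of_injOn (f := U.ord) (fun x _ y _ h => U.ord.inj h)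
  have h2 : {D : Set Cnd | U.st D ∈ N}.Countable :=
    hN.preimage_of_injOn (f := U.st) (fun x _ y _ h => U.st.inj h)
  obtain ⟨f, hf⟩ := ((h1.prod h2).insert ((0, ∅) : Ord × Set Cnd)).exists_eq_range ⟨_, Set.mem_insert _ _⟩
  have hstep : ∀ (n : ℕ) (x : {x : Cond // Inv x}), ∃ x' : {x : Cond // Inv x}, CLe o x'.1 x.1 ∧
      (P (f n).1 → U.ord (f n).1 ∈ N → U.st (f n).2 ∈ N → DO o (PP o (f n).1) (f n).2 → Met x'.1 (f n).1 (f n).2) := by
    rintro n ⟨p, hI⟩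
    by_cases h : P (f n).1 ∧ U.ord (f n).1 ∈ N ∧ U.st (f n).2 ∈ N ∧ DO o (PP o (f n).1) (f n).2
    · obtain ⟨q, hq, hqp, hm⟩ := step p hI _ h.1 h.2.1 _ h.2.2.1 h.2.2.2
      exact ⟨⟨q, hq⟩, hqp, fun _ _ _ _ => hm⟩
    · exact ⟨⟨p, hI⟩, CLe.refl _, fun a b c d => absurd ⟨a, b, c, d⟩ h⟩
  choose F hF using hstep
  obtain ⟨seq, hseq0, hseqS⟩ : ∃ seq : ℕ → {x : Cond // Inv x}, seq 0 = ⟨p, hp⟩ ∧
      ∀ n, seq (n + 1) = F n (seq n) :=
    ⟨fun n => Nat.rec (⟨p, hp⟩ : {x : Cond // Inv x}) (fun n x => F n x) n, rfl, fun n => rfl⟩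
  refine ⟨fun n => (seq n).1, ⟨fun n => (hinv _ (seq n).2).1, fun n => (hinv _ (seq n).2).2, fun n => ?_⟩, ?_, ?_,
    fun n => (seq n).2⟩
  · show CLe o (seq (n + 1)).1 (seq n).1
    rw [hseqS]; exact (hF n (seq n)).1
  · show (seq 0).1 = p
    rw [hseq0]
  · intro z hz hzN D hD hDO
    have h5 : (z, D) ∈ Set.range f := by
      rw [← hf]
      exact Set.mem_insert_of_mem _ ⟨hzN, hD⟩
    obtain ⟨n, hn⟩ := h5
    have h6 := (hF n (seq n)).2
    rw [hn, ← hseqS] at h6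
    exact ⟨n + 1, h6 hz hzN hD hDO⟩

/-- One step. -/
theorem one (hu : St_uni) (hl : Legit o Prot) {N : Set U} {δ : Ord} (hM : Mdl o N δ) {y z : Ord} (hzy : z ≤ y)
    (hS : SS o z) {p : Cond} (hpN : U.cond p ∈ N) (hpA : p ∈ A o y) (hz : U.ord z ∈ N) {D : Set Cnd}
    (hD : U.st D ∈ N) (hDO : DO o (PP o z) D) :
    ∃ q ∈ A o z, U.cond q ∈ N ∧ (q.uni p) ∈ A o y ∧ U.cond (q.uni p) ∈ N ∧ CLe o (q.uni p) p ∧ (q.uni p).res z = q ∧
      Met (q.uni p) z D := by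
  have h1 := hS (p.res z) (A.res hl hpA z) D hDO
  obtain ⟨q, hqA, hqN, hqp, β, hβ, hb⟩ := hM.wS z (p.res z) D hz (hM.basic.res _ _ hpN hz) hD h1
  obtain ⟨h2, h3, _, h5⟩ := hu o Prot hl z y hzy p hpA q hqA hqp
  refine ⟨q, hqA, hqN, h2, hM.basic.uni _ _ hqN hpN, h3, h5, β, ?_, fun t ht => ?_⟩
  · have : (q.uni p).C z = q.C z := by rw [← res_C (q.uni p) z le_rfl, h5]
    rw [this]; exact hβ
  · have : (q.uni p).T z = q.T z := by rw [← res_T (q.uni p) z le_rfl, h5]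
    rw [this] at ht
    rw [h5]
    exact hb t ht

theorem sq_le {N : Set U} {y : Ord} {g : ℕ → Cond} (hg : Sq o N y g) {m n : ℕ} (h : m ≤ n) :
    CLe o (g n) (g m) := by
  induction n, h using Nat.le_induction with
  | base => exact CLe.refl _
  | succ n _ ih => exact CLe.trans (A.nrm (hg.A m)) (hg.dec n) ih

/-- The set used over a generic sequence is dense open. -/
theorem over_DO (hu : St_uni) (hl : Legit o Prot) {x y z : Ord} (hxy : x < y) (hzy : z ≤ y) (hS : SS o z)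
    {p : Cond} (hpA : p ∈ A o y) {D : Set Cnd} (hDO : DO o (PP o z) D) :
    DO o (PP o x) (OverSet o x y z p D) where
  sub := fun _ hc => hc.1
  op := by
    rintro c ⟨hc, h⟩ c' hc' hle
    refine ⟨hc', ?_⟩
    rcases h with h | ⟨q, hqA, hqp, hcq, hm⟩
    · left
      rintro ⟨r, hr, hr1, hr2⟩
      exact h ⟨r, hr, CLe.trans (A.nrm hc.2.1) hr1 hle.p, hr2⟩
    · right
      exact ⟨q, hqA, hqp, CLe.trans (nrm_res (A.nrm hqA) x) hle.p hcq, hm⟩
  dn := by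
    intro c hc
    by_cases h : ∃ r ∈ A o x, CLe o r c.p ∧ CLe o r (p.res x)
    swap
    · exact ⟨c, ⟨hc, Or.inl h⟩, KLe.refl _⟩
    obtain ⟨r, hr, hr1, hr2⟩ := h
    obtain ⟨a1, a2, _, a4⟩ := hu o Prot hl x y hxy.le p hpA r hr hr2
    obtain ⟨q1, hq1A, hq1, β, hβ, hb⟩ := hS ((r.uni p).res z) (A.res hl a1 z) D hDO
    obtain ⟨b1, b2, _, b4⟩ := hu o Prot hl z y hzy (r.uni p) a1 q1 hq1A hq1
    have hqc : CLe o ((q1.uni (r.uni p)).res x) c.p := by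
      have h1 := b2.res (o := o) x
      rw [a4] at h1
      exact CLe.trans (A.nrm hc.2.1) h1 hr1
    obtain ⟨hj, hcA, hcJ, hcC, hcT⟩ := hc
    have hqA := A.res hl b1 x
    have hCx := hqc.C x hcJ hcC
    have hTx := hqc.T x hcJ c.α hcC
    have hP : (⟨(q1.uni (r.uni p)).res x, x, c.α, c.t⟩ : Cnd) ∈ PP o x :=
      ⟨rfl, hqA, hqc.J hcJ, hCx, by show c.t ∈ _; rw [hTx]; exact hcT⟩
    refine ⟨⟨(q1.uni (r.uni p)).res x, x, c.α, c.t⟩, ⟨hP, Or.inr ⟨q1.uni (r.uni p), b1,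
      CLe.trans (A.nrm hpA) b2 a2, CLe.refl _, β, ?_, fun t ht => ?_⟩⟩, ⟨hqc, le_rfl, Or.inl hj, ?_⟩⟩
    · have : (q1.uni (r.uni p)).C z = q1.C z := by rw [← res_C (q1.uni (r.uni p)) z le_rfl, b4]
      rw [this]; exact hβ
    · have : (q1.uni (r.uni p)).T z = q1.T z := by rw [← res_T (q1.uni (r.uni p)) z le_rfl, b4]
      rw [this] at ht
      rw [b4]
      exact hb t ht
    · exact Agr.refl _ _ _

end Pool.Agent.Helper919.SD.Tgs

namespace Pool.Agent.Helper919.SD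

open Ordinal Cardinal Set Tgs

/-- Generic sequences with constant data at the last index. -/
theorem job_gs (hu : St_uni) : St_gs := by
  intro o Prot hl y hSS N δ hM hy p hpN hpA
  obtain ⟨ps, h1, h2, h3, h4⟩ := build (o := o) hM.basic.cnt (y := y)
    (fun q => (U.cond q ∈ N ∧ q ∈ A o y) ∧ q.C y = p.C y ∧ q.u y = p.u y ∧ q.T y = p.T y ∧ q.F y = p.F y ∧
      q.Pr y = p.Pr y) (fun q h => h.1) (fun z => z < y)
    (by
      rintro q ⟨⟨hqN, hqA⟩, h1, h2, h3, h4, h5⟩ z hz hzN D hD hDO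
      obtain ⟨q1, hq1A, hq1N, a1, a2, a3, a4, a5⟩ := one hu hl hM hz.le (hSS z hz) hqN hqA hzN hD hDO
      have hy1 : y ∉ q1.J := fun h => absurd (A.le hq1A h) (not_le_of_gt hz)
      refine ⟨q1.uni q, ⟨⟨a2, a1⟩, ?_, ?_, ?_, ?_, ?_⟩, a3, a5⟩
      · simp only [Cond.uni, hy1, if_false]; exact h1
      · funext α; simp only [Cond.uni, hy1, if_false]; rw [h2]
      · funext α; simp only [Cond.uni, hy1, if_false]; rw [h3]
      · simp only [Cond.uni, hy1, if_false]; exact h4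
      · simp only [Cond.uni, hy1, if_false]; exact h5)
    ⟨⟨hpN, hpA⟩, rfl, rfl, rfl, rfl, rfl⟩
  exact ⟨ps, h1, h2, h3, fun n => (h4 n).2⟩

/-- Generic sequences. -/
theorem job_gs' (hu : St_uni) : St_gs' := by
  intro o Prot hl y hSS N δ hM hy p hpN hpA
  obtain ⟨ps, h1, h2, h3, h4⟩ := build (o := o) hM.basic.cnt (y := y)
    (fun q => U.cond q ∈ N ∧ q ∈ A o y) (fun q h => h) (fun z => z ≤ y)
    (by
      rintro q ⟨hqN, hqA⟩ z hz hzN D hD hDO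
      obtain ⟨q1, hq1A, hq1N, a1, a2, a3, a4, a5⟩ := one hu hl hM hz (hSS z hz) hqN hqA hzN hD hDO
      exact ⟨q1.uni q, ⟨a2, a1⟩, a3, a5⟩)
    ⟨hpN, hpA⟩
  exact ⟨ps, h1, h2, h3⟩

/-- Generic sequences over a given generic sequence. -/
theorem job_go (hu : St_uni) : St_go := by
  intro o Prot hl x y hxy hSS N δ hM hx hy g hg hgen p hpN hpA hp
  obtain ⟨ps, h1, h2, h3, h4⟩ := build (o := o) hM.basic.cnt (y := y)
    (fun q => (U.cond q ∈ N ∧ q ∈ A o y) ∧ ∃ m, CLe o (g m) (q.res x)) (fun q h => h.1) (fun z => z ≤ y)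
    (by
      rintro q ⟨⟨hqN, hqA⟩, m, hm⟩ z hz hzN D hD hDO
      have hE := over_DO hu hl hxy hz (hSS z hz) hqA hDO
      obtain ⟨n', β', hβ', hb⟩ := hgen x le_rfl hx _ (hM.ovr x y z q D hx hy hzN hqN hD) hE
      have hres : (g n').res x = g n' := res_self (A.nrm (hg.A n')) (fun j hj => A.le (hg.A n') hj)
      have hcore := A.core' (hg.A n') hβ'
      obtain ⟨t, ht⟩ := hcore.Tn β' hβ'
      obtain ⟨_, h5⟩ := hb t ht
      rcases h5 with h5 | h5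
      · exfalso
        refine h5 ⟨g (max m n'), hg.A _, ?_, CLe.trans (nrm_res (A.nrm hqA) x) (sq_le hg (le_max_left _ _)) hm⟩
        show CLe o (g (max m n')) ((g n').res x)
        rw [hres]
        exact sq_le hg (le_max_right _ _)
      · obtain ⟨q', hq'A, hq'N, hq'q, hq'r, hm'⟩ := hM.wO x y z q D ((g n').res x) hx hy hzN hqN hD
          (hM.basic.res _ _ (hg.mem n') hx) h5
        rw [hres] at hq'r
        exact ⟨q', ⟨⟨hq'N, hq'A⟩, n', hq'r⟩, hq'q, hm'⟩)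
    ⟨⟨hpN, hpA⟩, hp⟩
  exact ⟨ps, h1, h2, h3, fun n => (h4 n).2⟩

end Pool.Agent.Helper919.SD
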