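import Pool.Agent.Helper919_SDT.Stmts

set_option autoImplicit false

/-!
# The extension lemma at limits
-/

namespace Pool.Agent.Helper919.SD.TllL

open Ordinal Cardinal Set

variable {o : Ord → Opt} {Prot : Set Ord}

theorem Sq.le {N : Set U} {y : Ord} {p : ℕ → Cond} (hp : Sq o N y p) {n m : ℕ} (h : n ≤ m) : CLe o (p m) (p n) := by
  induction h with
  | refl => exact CLe.refl _
  | step h ih => exact CLe.trans (hp.A n).1 (hp.dec _) ih

/-- The restriction of a node of the index `z` to `≤ z`. -/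
theorem node_mem (hl : Legit o Prot) {y z β : Ord} {p : Cond} (hp : p ∈ A o y) (hβ : β ∈ p.C z) {t : Thr}
    (ht : t ∈ p.T z β) : (⟨p.res z, z, β, t⟩ : Cnd) ∈ PP o z := by
  refine ⟨rfl, A.res hl hp z, ⟨hp.1.mem_J hβ, le_rfl⟩, ?_, ?_⟩
  · change β ∈ (p.res z).C z; rw [res_C _ _ le_rfl]; exact hβ
  · change t ∈ (p.res z).T z β; rw [res_T _ _ le_rfl]; exact ht

/-- Generic sequences: tails and restrictions. -/
theorem gen_tail (hl : Legit o Prot) {N : Set U} {y z x : Ord} {p : ℕ → Cond} (hp : Sq o N y p) (hz : z ≤ x)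
    (h : Gen o N p z) (n₀ : ℕ) : Gen o N (fun n => (p (n₀ + n)).res x) z := by
  intro D hD hDO
  obtain ⟨n, β, hβ, h1⟩ := h D hD hDO
  have hle : CLe o (p (n₀ + n)) (p n) := Sq.le hp (Nat.le_add_left _ _)
  have hzJ := (hp.A n).1.mem_J hβ
  refine ⟨n, β, ?_, ?_⟩
  · rw [res_C _ _ hz]; exact hle.C z hzJ hβ
  · intro t ht
    rw [res_T _ _ hz, hle.T z hzJ β hβ] at ht
    rw [res_res _ hz]
    refine hDO.op _ (h1 t ht) _ (node_mem hl (hp.A _) (hle.C z hzJ hβ) (by rw [hle.T z hzJ β hβ]; exact ht)) ?_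
    exact ⟨hle.res z, le_rfl, Or.inl rfl, Agr.refl _ _ _⟩

theorem gen_J {N : Set U} {δ z : Ord} (hN : Basic o N δ) {y : Ord} {p : ℕ → Cond} (hp : Sq o N y p)
    (hz : U.ord z ∈ N) (h : Gen o N p z) : ∃ n, z ∈ (p n).J := by
  obtain ⟨n, β, hβ, _⟩ := h _ (hN.all z hz) ⟨Subset.rfl, fun _ _ c' hc' _ => hc', fun c hc => ⟨c, hc, KLe.refl _⟩⟩
  exact ⟨n, (hp.A n).1.mem_J hβ⟩

/-- Cofinal sequences. -/
theorem exists_ys {N : Set U} {δ : Ord} (hN : Basic o N δ) {x y : Ord} (hy : Order.IsSuccLimit y) (hx : U.ord x ∈ N)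
    (hxy : x < y) : ∃ ys : ℕ → Ord, ys 0 = x ∧ StrictMono ys ∧ (∀ k, U.ord (ys k) ∈ N ∧ ys k < y) ∧
      ∀ z < y, U.ord z ∈ N → ∃ k, z ≤ ys k := by
  have hc : {z | z < y ∧ U.ord z ∈ N}.Countable := by
    have h1 : {z | z < y ∧ U.ord z ∈ N} ⊆ U.ord ⁻¹' N := fun z hz => hz.2
    refine Set.Countable.mono h1 (hN.cnt.preimage ?_)
    intro a b hab
    exact U.ord.inj hab
  obtain ⟨e, he⟩ := hc.exists_eq_range ⟨x, hxy, hx⟩
  have he' : ∀ k, e k < y ∧ U.ord (e k) ∈ N := fun k => by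
    have : e k ∈ {z | z < y ∧ U.ord z ∈ N} := he ▸ mem_range_self k
    exact this
  let ys : ℕ → Ord := fun n => Nat.rec x (fun k z => max z (e k) + 1) n
  have hsucc : ∀ k, ys (k + 1) = max (ys k) (e k) + 1 := fun k => rfl
  have hmem : ∀ k, U.ord (ys k) ∈ N ∧ ys k < y := by
    intro k
    induction k with
    | zero => exact ⟨hx, hxy⟩
    | succ k ih =>
      rw [hsucc]
      rcases le_total (ys k) (e k) with h | h
      · rw [max_eq_right h]
        exact ⟨(hN.succ _).1 (he' k).2, hy.add_one_lt (he' k).1⟩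
      · rw [max_eq_left h]
        exact ⟨(hN.succ _).1 ih.1, hy.add_one_lt ih.2⟩
  refine ⟨ys, rfl, strictMono_nat_of_lt_succ fun k => ?_, hmem, ?_⟩
  · rw [hsucc]; exact lt_of_le_of_lt (le_max_left _ _) (lt_add_one _)
  · intro z hz hzN
    have h1 : z ∈ range e := he ▸ (⟨hz, hzN⟩ : z ∈ {z | z < y ∧ U.ord z ∈ N})
    obtain ⟨k, rfl⟩ := h1
    refine ⟨k + 1, ?_⟩
    rw [hsucc]; exact (le_max_right _ _).trans (lt_add_one _).le

theorem job_llL : St_llL := by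
  intro o Prot hl y hy hLL hTop N δ gs hN hgs x hx hyN hxy p hp hJ hG qx hqx hle
  obtain ⟨ys, hy0, hmono, hys, hcof⟩ := exists_ys hN hy hx hxy
  let P : ℕ → Cond → Prop := fun k q => GoodQ o N δ gs (ys k) q ∧ ∀ n, CLe o q ((p n).res (ys k))
  have step : ∀ k q, P k q → ∃ q', P (k + 1) q' ∧ CLe o (q'.res (ys k)) q := by
    rintro k q ⟨h1, h2⟩
    have hk : ys k < ys (k + 1) := hmono (Nat.lt_succ_self k)
    obtain ⟨n₀, hn₀⟩ := gen_J hN hp (hys (k + 1)).1 (hG _ (hys (k + 1)).2 (hys (k + 1)).1)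
    have hSq : Sq o N (ys (k + 1)) (fun n => (p (n₀ + n)).res (ys (k + 1))) :=
      ⟨fun n => hN.res _ _ (hp.mem _) (hys (k + 1)).1, fun n => A.res hl (hp.A _) _,
        fun n => CLe.res (hp.dec (n₀ + n)) _⟩
    obtain ⟨q', h3, h4, h5, _⟩ := hLL (ys (k + 1)) (hys (k + 1)).2 (lt_of_le_of_lt zero_le hk) N δ gs hN hgs
      (ys k) (hys k).1 (hys (k + 1)).1 hk _ hSq ⟨hn₀, le_rfl⟩
      (fun z hz hzN => gen_tail hl hp hz.le (hG z (hz.trans (hys (k + 1)).2) hzN) n₀) q h1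
      (fun n => by rw [res_res _ hk.le]; exact h2 _)
    refine ⟨q', ⟨h3, fun n => ?_⟩, h5⟩
    refine CLe.trans (nrm_res (hp.A n).1 _) (h4 n) (CLe.res (Sq.le hp (Nat.le_add_left _ _)) _)
  choose! F hF1 hF2 using step
  let qs : ℕ → Cond := fun n => Nat.rec qx (fun k q => F k q) n
  have hqs : ∀ k, qs (k + 1) = F k (qs k) := fun k => rfl
  have hP : ∀ k, P k (qs k) := by
    intro k
    induction k with
    | zero =>
      change GoodQ o N δ gs (ys 0) qx ∧ ∀ n, CLe o qx ((p n).res (ys 0))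
      rw [hy0]; exact ⟨hqx, hle⟩
    | succ k ih => rw [hqs]; exact hF1 k _ ih
  obtain ⟨q, h1, h2, h3, h4, _⟩ := hTop hy N δ gs hN hgs hyN ys hmono hys hcof qs (fun k => (hP k).1)
    (fun k => by
      rw [hqs]
      exact CLe.trans (hP k).1.A.1 (CLe.self_res _ _) (hF2 k _ (hP k)))
    p hp hJ (fun n => ⟨0, fun k _ => (hP k).2 n⟩) Set.univ
    (fun k n α hα t ht a ha hag => ⟨k, le_rfl, n, α, hα, le_rfl, t, ht, mem_univ _, Agr.refl _ _ _, a, ha, by
      have hg := (hP k).1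
      funext j ξ m
      by_cases hj : j < ys k
      · rw [below_of_lt hj]
      · rw [below_of_le (not_lt.1 hj)]
        exact (eq_zero_of_cut ((A.core hg.A hg.J).Ts δ hg.C a ha) fun hk => hj (co_lt hk.1)).symm, hag⟩)
  refine ⟨q, h1, h2, ?_, h4, ?_⟩
  · have := h3 0
    rw [hy0] at this; exact this
  · intro i hi
    have hiy : i < y := by rw [← hi]; exact lt_add_one i
    exact absurd hi (hy.add_one_lt hiy).ne

end Pool.Agent.Helper919.SD.TllL
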