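import Pool.Agent.Helper919_SDT.Stmts

set_option autoImplicit false

/-!
# The extension lemma at successors
-/

namespace Pool.Agent.Helper919.SD.TllS

open Ordinal Cardinal Set Pool.Agent.Helper919.SD

variable {o : Ord → Opt} {Prot : Set Ord}

theorem sq_le {N : Set U} {y : Ord} {p : ℕ → Cond} (h : Sq o N y p) {n m : ℕ} (hnm : n ≤ m) : CLe o (p m) (p n) := by
  induction m, hnm using Nat.le_induction with
  | base => exact CLe.refl _
  | succ m hm ih => exact CLe.trans (h.A n).1 (h.dec m) ih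

/-- `PP o z` is dense open in itself. -/
theorem do_all (z : Ord) : DO o (PP o z) (PP o z) := ⟨Subset.rfl, fun _ _ _ h _ => h, fun c hc => ⟨c, hc, KLe.refl _⟩⟩

/-- Nodes of the members of a sequence. -/
theorem node_mem (hl : Legit o Prot) {N : Set U} {y z β : Ord} {p : ℕ → Cond} (h : Sq o N y p) {n : ℕ} {t : Thr}
    (hβ : β ∈ (p n).C z) (ht : t ∈ (p n).T z β) : (⟨(p n).res z, z, β, t⟩ : Cnd) ∈ PP o z := by
  refine ⟨rfl, A.res hl (h.A n) z, ⟨(h.A n).1.mem_J hβ, le_rfl⟩, ?_, ?_⟩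
  · change β ∈ ((p n).res z).C z
    rw [res_C _ _ le_rfl]; exact hβ
  · change t ∈ ((p n).res z).T z β
    rw [res_T _ _ le_rfl]; exact ht

/-- Generic sequences: tails. -/
theorem gen_tail (hl : Legit o Prot) {N : Set U} {y z : Ord} {p : ℕ → Cond} (h : Sq o N y p) (hg : Gen o N p z)
    (n₀ : ℕ) {D : Set Cnd} (hD : U.st D ∈ N) (hDO : DO o (PP o z) D) :
    ∃ k, ∃ β ∈ (p (n₀ + k)).C z, ∀ t ∈ (p (n₀ + k)).T z β, (⟨(p (n₀ + k)).res z, z, β, t⟩ : Cnd) ∈ D := by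
  obtain ⟨n, β, hβ, hall⟩ := hg D hD hDO
  have hle := sq_le h (Nat.le_add_left n n₀)
  have hJ := (h.A n).1.mem_J hβ
  have hβ' := hle.C z hJ hβ
  refine ⟨n, β, hβ', fun t ht => ?_⟩
  have hT := hle.T z hJ β hβ
  have ht' : t ∈ (p n).T z β := by rw [← hT]; exact ht
  refine hDO.op _ (hall t ht') _ (node_mem hl h hβ' ht) ⟨hle.res z, le_rfl, Or.inl rfl, Agr.refl _ _ _⟩

theorem job_llS : St_llS := by
  intro o Prot hl i hLLi hSO hTN hTP N δ gs hB hgs x hx hy hxy p hSq hJ hgen qx hqx hqxp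
  have hi : U.ord i ∈ N := (hB.succ i).2 hy
  have hxi : x ≤ i := by
    rw [← Order.succ_eq_add_one] at hxy; exact Order.le_of_lt_succ hxy
  have hilt : i < i + 1 := lt_add_one i
  have hadd : ∀ {i j : Ord}, i + 1 = j + 1 → i = j := by
    intro i j h
    rw [← Order.succ_eq_add_one, ← Order.succ_eq_add_one] at h
    exact Order.succ_injective h
  -- the good condition at `i`
  have key : ∃ qi, GoodQ o N δ gs i qi ∧ (∀ n, CLe o qi ((p n).res i)) ∧ CLe o (qi.res x) qx := by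
    rcases hxi.eq_or_lt with rfl | hxi'
    · refine ⟨qx, hqx, hqxp, ?_⟩
      rw [res_self hqx.A.1 fun j hj => A.le hqx.A hj]
      exact CLe.refl _
    · obtain ⟨n₀, β₀, hβ₀, -⟩ := hgen i hilt hi (PP o i) (hB.all i hi) (do_all i)
      have hi0 : 0 < i := lt_of_le_of_lt bot_le hxi'
      have hg2 : ∀ z < i, U.ord z ∈ N → Gen o N (fun k => (p (n₀ + k)).res i) z := by
        intro z hz hzN D hD hDO
        obtain ⟨k, β, hβ, hall⟩ := gen_tail hl hSq (hgen z (hz.trans hilt) hzN) n₀ hD hDO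
        refine ⟨k, β, ?_, ?_⟩
        · change β ∈ ((p (n₀ + k)).res i).C z
          rw [res_C _ _ hz.le]; exact hβ
        · intro t ht
          change t ∈ ((p (n₀ + k)).res i).T z β at ht
          rw [res_T _ _ hz.le] at ht
          change (⟨((p (n₀ + k)).res i).res z, z, β, t⟩ : Cnd) ∈ D
          rw [res_res _ hz.le]; exact hall t ht
      have hx2 : ∀ k, CLe o qx (((p (n₀ + k)).res i).res x) := by
        intro k
        rw [res_res _ hxi'.le]; exact hqxp _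
      obtain ⟨qi, h1, h2, h3, -⟩ := hLLi hi0 N δ gs hB hgs x hx hi hxi' (fun k => (p (n₀ + k)).res i)
        ⟨fun k => hB.res _ _ (hSq.mem _) hi, fun k => A.res hl (hSq.A _) i, fun k => (hSq.dec (n₀ + k)).res i⟩
        ⟨(hSq.A _).1.mem_J hβ₀, le_rfl⟩ hg2 qx hqx hx2
      refine ⟨qi, h1, fun n => ?_, h3⟩
      exact CLe.trans (nrm_res (hSq.A n).1 i) (h2 n) ((sq_le hSq (Nat.le_add_left n n₀)).res i)
  obtain ⟨qi, hqi, hqip, hqix⟩ := key
  have hgen' : ∀ z ≤ i, U.ord z ∈ N → Gen o N p z := fun z hz => hgen z (hz.trans_lt hilt)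
  by_cases hs : ∃ r B g, o i = Opt.spec r B g
  · obtain ⟨r, B, g, ho⟩ := hs
    -- a level above `δ` deciding everything
    let ι : Type 1 := ((Set.Iic δ × ℕ) × (Set.Iic δ × ℕ)) ⊕
      Σ κ : {κ : Ord // U.ord κ ∈ N ∧ κ < B}, (Fin (g κ).k → ℕ)
    have hIc : (Set.Iic δ).Countable := by
      have h1 : (U.ord '' Set.Iio δ).Countable := hB.cnt.mono (by
        rintro _ ⟨ξ, hξ, rfl⟩
        exact (hB.ord ξ (lt_trans hξ hB.lt)).2 hξ)
      have h2 : (Set.Iio δ).Countable := by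
        refine Set.countable_of_injective_of_countable_image (f := U.ord) ?_ h1
        intro a _ b _ h; injection h
      have h3 : Set.Iic δ ⊆ insert δ (Set.Iio δ) := fun ξ hξ => by
        rcases (show ξ ≤ δ from hξ).eq_or_lt with h | h
        · exact Or.inl h
        · exact Or.inr h
      exact (h2.insert δ).mono h3
    have hc1 : Countable (Set.Iic δ) := hIc.to_subtype
    have hc2 : Countable {κ : Ord // U.ord κ ∈ N ∧ κ < B} := by
      refine Set.Countable.to_subtype (s := {κ : Ord | U.ord κ ∈ N ∧ κ < B}) ?_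
      refine (hB.cnt.preimage (f := U.ord) fun a b h => by injection h).mono fun κ hκ => hκ.1
    have hcι : Countable ι := inferInstance
    have hne : Nonempty ι := ⟨Sum.inl ((⟨δ, Set.mem_Iic.2 le_rfl⟩, 0), (⟨δ, Set.mem_Iic.2 le_rfl⟩, 0))⟩
    obtain ⟨f, hf⟩ := exists_surjective_nat ι
    let nm : ι → Set Cnd := fun e => match e with
      | Sum.inl e => r (e.1.1, e.1.2) (e.2.1, e.2.2)
      | Sum.inr e => (g e.1).G δ e.2
    have hdo : ∀ m, DO o (PP o i) {c | c ∈ PP o i ∧ (mt o (PP o i) (nm (f m)) c ∨ nmt o (PP o i) (nm (f m)) c)} := by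
      intro m
      refine ⟨fun c hc => hc.1, fun c hc c' hc' hle => ⟨hc', ?_⟩, fun c hc => ?_⟩
      · rcases hc.2 with h | h
        · exact Or.inl (h.mono Subset.rfl hc.1 hc' hle)
        · exact Or.inr (h.mono Subset.rfl hc.1 hc' hle)
      · obtain ⟨c', h1, h2, h3⟩ := exists_mt_or (o := o) (N := nm (f m)) hc
        exact ⟨c', ⟨h1, h3⟩, h2⟩
    obtain ⟨qi', h1, h2, β, h3, h4, h5⟩ := hSO qi hqi.A
      (fun m => {c | c ∈ PP o i ∧ (mt o (PP o i) (nm (f m)) c ∨ nmt o (PP o i) (nm (f m)) c)}) hdo δ hB.lt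
    have hgood' : GoodQ o N δ gs i qi' := by
      refine ⟨h1, h2.J hqi.J, h2.C i hqi.J hqi.C, ?_, ?_⟩
      · rw [h2.u i hqi.J δ hqi.C]; exact hqi.u
      · rw [h2.T i hqi.J δ hqi.C]; exact hqi.mks
    have hnd : ∀ e : ι, ∀ b ∈ qi'.T i β, mt o (PP o i) (nm e) ⟨qi', i, β, b⟩ ∨ nmt o (PP o i) (nm e) ⟨qi', i, β, b⟩ := by
      intro e b hb
      obtain ⟨m, rfl⟩ := hf e
      exact (h5 b hb m).2
    have hdec : ∀ b ∈ qi'.T i β, (∃ R, Dec o (PP o i) r ⟨qi', i, β, b⟩ δ R) ∧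
        ∀ κ < B, U.ord κ ∈ N → ∃ Y, DecG o (PP o i) (g κ) ⟨qi', i, β, b⟩ δ Y := by
      intro b hb
      refine ⟨⟨fun x y => mt o (PP o i) (r x y) ⟨qi', i, β, b⟩, fun x y hx hy => ⟨id, fun h => ?_⟩⟩, ?_⟩
      · exact (hnd (Sum.inl ((⟨x.1, hx⟩, x.2), (⟨y.1, hy⟩, y.2))) b hb).resolve_left h
      · intro κ hκ hκN
        refine ⟨{n | mt o (PP o i) ((g κ).G δ n) ⟨qi', i, β, b⟩}, fun n => ⟨id, fun h => ?_⟩⟩
        exact (hnd (Sum.inr ⟨⟨κ, hκN, hκ⟩, n⟩) b hb).resolve_left h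
    obtain ⟨q, hq1, hq2, hq3, hq5, hq4, -⟩ := hTP r B g ho N δ gs hB hgs hi p hSq hJ hgen' qi' hgood'
      (fun n => CLe.trans (nrm_res (hSq.A n).1 i) h2 (hqip n)) β h3 h4 hdec Set.univ
      (fun n α hα s hs a ha hag K hK => ⟨n, α, hα, le_rfl, s, hs, Agr.refl _ _ _, hag, Set.mem_univ _,
        fun e he => (hK e he).2.2⟩)
    refine ⟨q, hq1, hq2, ?_, hq5, ?_⟩
    · have h6 : q.res x = qi'.res x := by rw [← hq3, res_res _ hxi]
      rw [h6]
      exact CLe.trans hqx.A.1 (h2.res x) hqix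
    · intro i' hi'
      have := hadd hi'
      subst this
      exact ⟨fun h => absurd ho (h r B g), hq4 rfl⟩
  · push Not at hs
    obtain ⟨q, hq1, hq2, hq3, hq5, hq4, -⟩ := hTN hs N δ gs hB hgs hi p hSq hJ hgen' qi hqi hqip Set.univ
      (fun n α hα s hs a ha hag => ⟨n, α, hα, le_rfl, s, hs, Agr.refl _ _ _, hag, Set.mem_univ _⟩)
    refine ⟨q, hq1, hq2, ?_, hq5, ?_⟩
    · have h6 : q.res x = qi.res x := by rw [← hq3, res_res _ hxi]
      rw [h6]; exact hqix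
    · intro i' hi'
      have := hadd hi'
      subst this
      exact ⟨hq4 rfl, fun am _ _ _ r B g ho => absurd ho (hs r B g)⟩

end Pool.Agent.Helper919.SD.TllS
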