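import Pool.Agent.Helper919_SDT.Stmts

set_option autoImplicit false

/-!
# Existence of models
-/

namespace Pool.Agent.Helper919.SD.Tmdl

open Ordinal Cardinal Set Pool.Agent.Helper919.SD

/-! ### Closing off a countable set -/

theorem lists_countable (M : Set U) (hM : M.Countable) : {l : List U | ∀ a ∈ l, a ∈ M}.Countable := by
  have := hM.to_subtype
  refine (Set.countable_range (fun l' : List M => List.map Subtype.val l')).mono ?_
  intro l hl
  lift l to List M using hl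
  exact ⟨l, rfl⟩

open Classical in
/-- One closing step. -/
noncomputable def stp (L : List (List U → Set U)) (M : Set U) : Set U :=
  M ∪ ⋃ l ∈ {l : List U | ∀ a ∈ l, a ∈ M}, ⋃ Ψ ∈ {Ψ | Ψ ∈ L}, (if (Ψ l).Countable then Ψ l else ∅)

theorem stp_countable (L : List (List U → Set U)) (M : Set U) (hM : M.Countable) : (stp L M).Countable := by
  unfold stp
  refine hM.union ((lists_countable M hM).biUnion fun l _ => ?_)
  refine (L.finite_toSet.countable).biUnion fun Ψ _ => ?_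
  split_ifs with h
  · exact h
  · exact Set.countable_empty

theorem closure1 (L : List (List U → Set U)) (S : Set U) (hS : S.Countable) :
    ∃ N : Set U, N.Countable ∧ S ⊆ N ∧ ∀ Ψ ∈ L, ∀ l : List U, (∀ a ∈ l, a ∈ N) → (Ψ l).Countable → Ψ l ⊆ N := by
  let Nk : ℕ → Set U := fun k => (stp L)^[k] S
  have hsucc : ∀ k, Nk (k + 1) = stp L (Nk k) := fun k => Function.iterate_succ_apply' _ _ _
  have hc : ∀ k, (Nk k).Countable := by
    intro k
    induction k with
    | zero => exact hS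
    | succ k ih => rw [hsucc]; exact stp_countable L _ ih
  have hmono : Monotone Nk := by
    refine monotone_nat_of_le_succ fun k => ?_
    rw [hsucc]; exact Set.subset_union_left
  refine ⟨⋃ k, Nk k, Set.countable_iUnion hc, Set.subset_iUnion Nk 0, ?_⟩
  intro Ψ hΨ l hl hcnt
  have : ∃ k, ∀ a ∈ l, a ∈ Nk k := by
    induction l with
    | nil => exact ⟨0, fun a ha => absurd ha (List.not_mem_nil)⟩
    | cons b l ih =>
      obtain ⟨k₁, hk₁⟩ := Set.mem_iUnion.1 (hl b List.mem_cons_self)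
      have : ∃ k, ∀ a ∈ l, a ∈ Nk k := by
        clear ih hcnt
        have hl' : ∀ a ∈ l, a ∈ ⋃ k, Nk k := fun a ha => hl a (List.mem_cons_of_mem _ ha)
        clear hl
        induction l with
        | nil => exact ⟨0, fun a ha => absurd ha (List.not_mem_nil)⟩
        | cons b' l ih =>
          obtain ⟨k₂, hk₂⟩ := Set.mem_iUnion.1 (hl' b' List.mem_cons_self)
          obtain ⟨k₃, hk₃⟩ := ih fun a ha => hl' a (List.mem_cons_of_mem _ ha)
          refine ⟨max k₂ k₃, fun a ha => ?_⟩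
          rcases List.mem_cons.1 ha with rfl | ha
          · exact hmono (le_max_left _ _) hk₂
          · exact hmono (le_max_right _ _) (hk₃ a ha)
      obtain ⟨k₂, hk₂⟩ := this
      refine ⟨max k₁ k₂, fun a ha => ?_⟩
      rcases List.mem_cons.1 ha with rfl | ha
      · exact hmono (le_max_left _ _) hk₁
      · exact hmono (le_max_right _ _) (hk₂ a ha)
  obtain ⟨k, hk⟩ := this
  refine Set.Subset.trans ?_ (Set.subset_iUnion Nk (k + 1))
  rw [hsucc]
  intro a ha
  right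
  refine Set.mem_biUnion (x := l) hk (Set.mem_biUnion (x := Ψ) hΨ ?_)
  rw [if_pos hcnt]; exact ha

/-! ### Countable ordinals -/

theorem card_omega_one : (ω_ 1 : Ord).card = ℵ_ 1 := by
  rw [Ordinal.card_omega]

theorem Iio_countable {ξ : Ord} (h : ξ < ω_ 1) : (Set.Iio ξ).Countable := by
  rw [← Cardinal.le_aleph0_iff_set_countable, Cardinal.mk_Iio_ordinal, Cardinal.lift_le_aleph0]
  rw [← Cardinal.ord_aleph, Cardinal.lt_ord, ← Cardinal.succ_aleph0, Order.lt_succ_iff] at h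
  exact h

theorem exists_notMem {N : Set U} (hN : N.Countable) : ∃ ξ < (ω_ 1 : Ord), U.ord ξ ∉ N := by
  by_contra hcon
  push Not at hcon
  have h1 : (Set.Iio (ω_ 1 : Ord)).Countable := by
    have h2 : (U.ord ⁻¹' N).Countable := hN.preimage fun a b h => by injection h
    exact h2.mono fun ξ hξ => hcon ξ hξ
  rw [← Cardinal.le_aleph0_iff_set_countable, Cardinal.mk_Iio_ordinal, Cardinal.lift_le_aleph0, card_omega_one,
    ← Cardinal.succ_aleph0] at h1
  exact absurd (Order.lt_succ ℵ₀) (not_lt_of_ge h1)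

/-! ### The operations -/

variable (o : Ord → Opt)

instance instNonemptyCond : Nonempty Cond := ⟨⟨∅, fun _ => ∅, fun _ _ => ∅, fun _ _ => ∅, fun _ => ∅, fun _ => ∅⟩⟩
instance instNonemptyCnd : Nonempty Cnd := ⟨⟨Classical.arbitrary Cond, 0, 0, fun _ _ _ => 0⟩⟩

def opZero : List U → Set U := fun _ => {U.ord 0}

def opSucc : List U → Set U
  | [U.ord i] => {U.ord (i + 1)}
  | _ => ∅

def opPred : List U → Set U
  | [U.ord j] => {a | ∃ i, i + 1 = j ∧ a = U.ord i}
  | _ => ∅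

def opKill : List U → Set U
  | [U.ord i] => {a | ∃ γ, o i = Opt.kill γ ∧ a = U.ord γ}
  | _ => ∅

def opEnum : List U → Set U
  | [U.ord ξ] => U.ord '' Set.Iio ξ
  | _ => ∅

def opJ : List U → Set U
  | [U.cond p] => U.ord '' p.J
  | _ => ∅

def opC : List U → Set U
  | [U.cond p] => ⋃ j ∈ p.J, U.ord '' p.C j
  | _ => ∅

def opU : List U → Set U
  | [U.cond p] => ⋃ j ∈ p.J, ⋃ α ∈ p.C j, U.ord '' p.u j α
  | _ => ∅

def opF : List U → Set U
  | [U.cond p] => ⋃ j ∈ p.J, U.ord '' p.F j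
  | _ => ∅

def opPr : List U → Set U
  | [U.cond p] => ⋃ j ∈ p.J, (fun e : Ord × Thr × Ord => U.ord e.2.2) '' p.Pr j
  | _ => ∅

def opCnd : List U → Set U
  | [U.cond p] => ⋃ j ∈ p.J, ⋃ α ∈ p.C j, (fun t => U.cnd ⟨p.res j, j, α, t⟩) '' p.T j α
  | _ => ∅

def opCp : List U → Set U
  | [U.cnd c] => {U.cond c.p, U.ord c.j, U.ord c.α}
  | _ => ∅

def opRes : List U → Set U
  | [U.cond p, U.ord x] => {U.cond (p.res x)}
  | _ => ∅

def opUni : List U → Set U
  | [U.cond r, U.cond p] => {U.cond (r.uni p)}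
  | _ => ∅

def opAll : List U → Set U
  | [U.ord z] => {U.st (PP o z)}
  | _ => ∅

def opLev : List U → Set U
  | [U.ord z, U.ord s, U.ord ξ] => {U.st {c | c ∈ PP o z ∧ ξ < c.α ∧ s ∈ c.p.u z c.α}}
  | _ => ∅

def opDec : List U → Set U
  | [U.ord i, U.ord x, U.ord y] => {a | ∃ r B g, o i = Opt.spec r B g ∧ ∃ m n : ℕ,
      a = U.st {c | c ∈ PP o i ∧ (mt o (PP o i) (r (x, m) (y, n)) c ∨ nmt o (PP o i) (r (x, m) (y, n)) c)}}
  | _ => ∅

def opWS : List U → Set U
  | [U.ord z, U.cond p, U.st D] => {U.cond (Classical.epsilon fun q => q ∈ A o z ∧ CLe o q p ∧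
      ∃ β ∈ q.C z, ∀ t ∈ q.T z β, (⟨q, z, β, t⟩ : Cnd) ∈ D)}
  | _ => ∅

def opTask : List U → Set U
  | [U.ord x, U.cnd c₀, U.st D] => {U.st (TaskSet o x c₀ D)}
  | _ => ∅

def opWT : List U → Set U
  | [U.ord x, U.cnd c₀, U.st D, U.cnd c] => {U.cnd (Classical.epsilon fun c' => c' ∈ D ∧ KLe o c' c₀ ∧ Rec c' x ∧
      KLe o c (c'.pr x))}
  | _ => ∅

def opOvr : List U → Set U
  | [U.ord x, U.ord y, U.ord z, U.cond p, U.st D] => {U.st (OverSet o x y z p D)}
  | _ => ∅

def opWO : List U → Set U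
  | [U.ord x, U.ord y, U.ord z, U.cond p, U.st D, U.cond r] => {U.cond (Classical.epsilon fun q => q ∈ A o y ∧
      CLe o q p ∧ CLe o r (q.res x) ∧ ∃ β ∈ q.C z, ∀ t ∈ q.T z β, (⟨q.res z, z, β, t⟩ : Cnd) ∈ D)}
  | _ => ∅

/-- All operations. -/
def ops : List (List U → Set U) :=
  [opZero, opSucc, opPred, opKill o, opEnum, opJ, opC, opU, opF, opPr, opCnd, opCp, opRes, opUni, opAll o, opLev o,
    opDec o, opWS o, opTask o, opWT o, opOvr o, opWO o]

/-- Closure of `N` under the operation `Ψ`. -/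
def Cls (N : Set U) (Ψ : List U → Set U) : Prop := ∀ l : List U, (∀ a ∈ l, a ∈ N) → (Ψ l).Countable → Ψ l ⊆ N

variable {o} {Prot : Set Ord}

theorem Cls.s1 {N : Set U} {Ψ : List U → Set U} (h : Cls N Ψ) {a b : U} (ha : a ∈ N) (hb : Ψ [a] = {b}) : b ∈ N := by
  refine h [a] ?_ (hb ▸ Set.countable_singleton _) (hb ▸ Set.mem_singleton _)
  intro c hc
  rw [List.mem_singleton] at hc; rw [hc]; exact ha

theorem main (hl : Legit o Prot) (L : List (List U → Set U)) (S : Set U) (hS : S.Countable) :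
    ∃ (N : Set U) (δ : Ord), S ⊆ N ∧ Mdl o N δ ∧ ∀ Ψ ∈ L, Cls N Ψ := by
  obtain ⟨N, hNc, hSN, hN⟩ := closure1 (ops o ++ L) S hS
  have hop : ∀ Ψ ∈ ops o, Cls N Ψ := fun Ψ hΨ => hN Ψ (List.mem_append_left _ hΨ)
  have h0 : U.ord 0 ∈ N := by
    have := hop opZero (by simp [ops]) [] (by simp) (Set.countable_singleton _)
    exact this rfl
  have hsucc : ∀ i, U.ord i ∈ N → U.ord (i + 1) ∈ N := fun i hi =>
    (hop opSucc (by simp [ops])).s1 hi rfl
  have hpred : ∀ i, U.ord (i + 1) ∈ N → U.ord i ∈ N := by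
    intro i hi
    have h1 : opPred [U.ord (i + 1)] = {U.ord i} := by
      ext a
      simp only [opPred, Set.mem_ofPred_eq, Set.mem_singleton_iff]
      constructor
      · rintro ⟨j, hj, rfl⟩
        rw [← Order.succ_eq_add_one, ← Order.succ_eq_add_one] at hj
        rw [Order.succ_injective hj]
      · rintro rfl; exact ⟨i, rfl, rfl⟩
    exact (hop opPred (by simp [ops])).s1 hi h1
  have henum : ∀ ξ < (ω_ 1 : Ord), U.ord ξ ∈ N → ∀ η < ξ, U.ord η ∈ N := by
    intro ξ hξ hξN η hη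
    refine hop opEnum (by simp [ops]) [U.ord ξ] (by simpa using hξN) ((Iio_countable hξ).image _) ?_
    exact ⟨η, hη, rfl⟩
  -- the ordinal of the model
  have hne : {ξ : Ord | U.ord ξ ∉ N}.Nonempty := by
    obtain ⟨ξ, -, h⟩ := exists_notMem hNc; exact ⟨ξ, h⟩
  set δ : Ord := sInf {ξ : Ord | U.ord ξ ∉ N} with hδ
  have hδN : U.ord δ ∉ N := csInf_mem hne
  have hδlt : δ < ω_ 1 := by
    obtain ⟨ξ, h1, h2⟩ := exists_notMem hNc
    exact (csInf_le' (s := {ξ : Ord | U.ord ξ ∉ N}) h2).trans_lt h1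
  have hδ1 : ∀ ξ < δ, U.ord ξ ∈ N := by
    intro ξ hξ; by_contra h
    exact absurd (csInf_le' (s := {ξ : Ord | U.ord ξ ∉ N}) h) (not_le_of_gt hξ)
  have hord : ∀ ξ < (ω_ 1 : Ord), U.ord ξ ∈ N ↔ ξ < δ := by
    intro ξ hξ
    refine ⟨fun h => ?_, hδ1 ξ⟩
    by_contra hn
    rcases (not_lt.1 hn).lt_or_eq with h1 | h1
    · exact hδN (henum ξ hξ h δ h1)
    · exact hδN (h1 ▸ h)
  have hlim : Order.IsSuccLimit δ := by
    rcases Ordinal.zero_or_succ_or_isSuccLimit δ with h | ⟨i, h⟩ | h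
    · exact absurd h0 (h ▸ hδN)
    · exfalso
      have h1 : U.ord i ∈ N := hδ1 i (by rw [← h]; exact Order.lt_succ i)
      exact hδN (by rw [← h]; exact hsucc i h1)
    · exact h
  have hcs : ∀ {Ψ : List U → Set U} {l : List U} {b : U}, Ψ ∈ ops o → (∀ a ∈ l, a ∈ N) → Ψ l = {b} → b ∈ N := by
    intro Ψ l b h1 h2 h3
    exact hop Ψ h1 l h2 (h3 ▸ Set.countable_singleton _) (h3 ▸ Set.mem_singleton _)
  refine ⟨N, δ, hSN, ⟨⟨hNc, hlim, hδlt, hord, fun i => ⟨hsucc i, hpred i⟩, ?_, ?_, ?_, ?_, ?_, ?_, ?_, ?_, ?_, ?_, ?_, ?_,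
    ?_⟩, ?_, ?_, ?_, ?_, ?_⟩, fun Ψ hΨ => hN Ψ (List.mem_append_right _ hΨ)⟩
  · -- kill
    intro i γ hi ho
    have h1 : opKill o [U.ord i] = {U.ord γ} := by
      ext a
      simp only [opKill, Set.mem_ofPred_eq, Set.mem_singleton_iff, ho]
      constructor
      · rintro ⟨γ', h, rfl⟩; injection h with h; rw [h]
      · rintro rfl; exact ⟨γ, rfl, rfl⟩
    exact hcs (Ψ := opKill o) (l := [U.ord i]) (by simp [ops]) (by simpa using hi) h1
  · -- J
    intro p y hp hA j hj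
    exact hop opJ (by simp [ops]) [U.cond p] (by simpa using hp) ((hA.1.J).image _) ⟨j, hj, rfl⟩
  · -- C
    intro p y hp hA j hj α hα
    refine hop opC (by simp [ops]) [U.cond p] (by simpa using hp) ?_ ?_
    · exact hA.1.J.biUnion fun j hj => (A.core hA hj).Cc.image _
    · exact Set.mem_biUnion hj ⟨α, hα, rfl⟩
  · -- u
    intro p y hp hA j hj α hα z hz
    refine hop opU (by simp [ops]) [U.cond p] (by simpa using hp) ?_ ?_
    · exact hA.1.J.biUnion fun j hj => (A.core hA hj).Cc.biUnion fun α hα => ((A.core hA hj).uc α hα).image _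
    · exact Set.mem_biUnion hj (Set.mem_biUnion hα ⟨z, hz, rfl⟩)
  · -- F
    intro p y hp hA j hj α hα
    refine hop opF (by simp [ops]) [U.cond p] (by simpa using hp) ?_ ?_
    · exact hA.1.J.biUnion fun j hj => (A.core hA hj).Fc.image _
    · exact Set.mem_biUnion hj ⟨α, hα, rfl⟩
  · -- Pr
    intro p y hp hA j hj e he
    refine hop opPr (by simp [ops]) [U.cond p] (by simpa using hp) ?_ ?_
    · exact hA.1.J.biUnion fun j hj => (A.core hA hj).Prc.image _
    · exact Set.mem_biUnion hj ⟨e, he, rfl⟩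
  · -- cnd
    intro p y j α t hp hA hj hα ht
    refine hop opCnd (by simp [ops]) [U.cond p] (by simpa using hp) ?_ ?_
    · exact hA.1.J.biUnion fun j hj => (A.core hA hj).Cc.biUnion fun α hα => ((A.core hA hj).Tc α hα).image _
    · exact Set.mem_biUnion hj (Set.mem_biUnion hα ⟨t, ht, rfl⟩)
  · -- cp
    intro c hc
    have h1 := hop opCp (by simp [ops]) [U.cnd c] (by simpa using hc)
      ((Set.countable_singleton _).insert _ |>.insert _)
    exact ⟨h1 (by simp [opCp]), h1 (by simp [opCp]), h1 (by simp [opCp])⟩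
  · -- res
    intro p x hp hx
    exact hcs (Ψ := opRes) (l := [U.cond p, U.ord x]) (by simp [ops]) (by simp [hp, hx]) rfl
  · -- uni
    intro r p hr hp
    exact hcs (Ψ := opUni) (l := [U.cond r, U.cond p]) (by simp [ops]) (by simp [hp, hr]) rfl
  · -- all
    intro z hz
    exact hcs (Ψ := opAll o) (l := [U.ord z]) (by simp [ops]) (by simp [hz]) rfl
  · -- lev
    intro z s ξ hz hs hξ _
    exact hcs (Ψ := opLev o) (l := [U.ord z, U.ord s, U.ord ξ]) (by simp [ops]) (by simp [hz, hs, hξ]) rfl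
  · -- dec
    intro i r B g hi ho x y hx hy
    refine hop (opDec o) (by simp [ops]) [U.ord i, U.ord x.1, U.ord y.1] (by simp [hi, hx, hy]) ?_
      ⟨r, B, g, ho, x.2, y.2, rfl⟩
    refine (Set.countable_range (fun e : ℕ × ℕ => U.st {c | c ∈ PP o i ∧ (mt o (PP o i) (r (x.1, e.1) (y.1, e.2)) c ∨
      nmt o (PP o i) (r (x.1, e.1) (y.1, e.2)) c)})).mono ?_
    rintro a ⟨r', B', g', ho', m, n, rfl⟩
    rw [ho] at ho'
    injection ho' with h1 h2 h3
    subst h1
    exact ⟨(m, n), rfl⟩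
  · -- wS
    intro z p D hz hp hD hex
    refine ⟨_, (Classical.epsilon_spec_aux instNonemptyCond _ hex).1, ?_, (Classical.epsilon_spec_aux instNonemptyCond _ hex).2⟩
    exact hcs (Ψ := opWS o) (l := [U.ord z, U.cond p, U.st D]) (by simp [ops]) (by simp [hz, hp, hD]) rfl
  · -- task
    intro x c₀ D hx hc hD
    exact hcs (Ψ := opTask o) (l := [U.ord x, U.cnd c₀, U.st D]) (by simp [ops]) (by simp [hx, hc, hD]) rfl
  · -- wT
    intro x c₀ D c hx hc₀ hD hc hex
    refine ⟨_, (Classical.epsilon_spec_aux instNonemptyCnd _ hex).1, ?_, (Classical.epsilon_spec_aux instNonemptyCnd _ hex).2⟩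
    exact hcs (Ψ := opWT o) (l := [U.ord x, U.cnd c₀, U.st D, U.cnd c]) (by simp [ops]) (by simp [hx, hc, hc₀, hD]) rfl
  · -- ovr
    intro x y z p D hx hy hz hp hD
    exact hcs (Ψ := opOvr o) (l := [U.ord x, U.ord y, U.ord z, U.cond p, U.st D]) (by simp [ops])
      (by simp [hx, hy, hz, hp, hD]) rfl
  · -- wO
    intro x y z p D r hx hy hz hp hD hr hex
    refine ⟨_, (Classical.epsilon_spec_aux instNonemptyCond _ hex).1, ?_, (Classical.epsilon_spec_aux instNonemptyCond _ hex).2⟩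
    exact hcs (Ψ := opWO o) (l := [U.ord x, U.ord y, U.ord z, U.cond p, U.st D, U.cond r]) (by simp [ops])
      (by simp [hx, hy, hz, hp, hD, hr]) rfl

theorem job_mdl : St_mdl := by
  intro o Prot hl Fs S hS
  obtain ⟨N, δ, h1, h2, h3⟩ := main hl [fun l => Set.range fun n => Fs n l] S hS
  refine ⟨N, δ, h1, h2, fun n l hl' => ?_⟩
  exact h3 _ (List.mem_singleton_self _) l hl' (Set.countable_range _) ⟨n, rfl⟩

/-! ### Models for the promise lemma -/

section mdlP

variable (o) (i : Ord) (r : Node → Node → Set Cnd) (D : Set Cnd)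

/-- The countable type of the parameters. -/
abbrev Par := Σ k : ℕ, (Fin k → ℚ) × (Fin k → ℕ)

def opS1 : List U → Set U
  | [U.cnd c₀, U.ord η] => Set.range fun e : Par => U.st (Set1 o i r D c₀ e.1 e.2.1 η e.2.2)
  | _ => ∅

def opS2 : List U → Set U
  | [U.cnd c₀] => Set.range fun e : Par => U.st (Set2 o i r D c₀ e.1 e.2.1 e.2.2)
  | _ => ∅

def opW1 : List U → Set U
  | [U.cnd c₀, U.ord η, U.cnd c] => Set.range fun e : Par => U.cnd (Classical.epsilon fun c' => c' ∈ D ∧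
      KLe o c' c₀ ∧ c'.α ≤ η ∧ KLe o c (c'.pr i) ∧ ∃ R, Dec o (PP o i) r c η R ∧
      ∀ l, Sat R (hv i c'.t) c'.α (η, e.2.2 l) (e.2.1 l))
  | _ => ∅

def opW2 : List U → Set U
  | [U.cnd c₀, U.cnd c] => Set.range fun e : Par => U.ord (Classical.epsilon fun η' =>
      Wit2 o i r D c₀ e.1 e.2.1 e.2.2 η' c)
  | _ => ∅

end mdlP

theorem job_mdlP : St_mdlP := by
  intro o Prot hl i r D S hS
  obtain ⟨N, δ, h1, h2, h3⟩ := main hl [opS1 o i r D, opS2 o i r D, opW1 o i r D, opW2 o i r D] S hS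
  refine ⟨N, δ, h1, h2, ?_, ?_, ?_, ?_⟩
  · intro c₀ k v η y hc hη
    exact h3 (opS1 o i r D) (by simp) [U.cnd c₀, U.ord η] (by simp [hc, hη]) (Set.countable_range _)
      ⟨⟨k, v, y⟩, rfl⟩
  · intro c₀ k v y hc
    exact h3 (opS2 o i r D) (by simp) [U.cnd c₀] (by simp [hc]) (Set.countable_range _)
      ⟨⟨k, v, y⟩, rfl⟩
  · intro c₀ k v η y c hc₀ hη hc hW
    have hex := hW.2
    refine ⟨_, (Classical.epsilon_spec_aux instNonemptyCnd _ hex).1, ?_,
      (Classical.epsilon_spec_aux instNonemptyCnd _ hex).2⟩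
    exact h3 (opW1 o i r D) (by simp) [U.cnd c₀, U.ord η, U.cnd c] (by simp [hc₀, hη, hc]) (Set.countable_range _)
      ⟨⟨k, v, y⟩, rfl⟩
  · intro c₀ k v y c hc₀ hc hex
    refine ⟨_, ?_, Classical.epsilon_spec_aux inferInstance _ hex⟩
    exact h3 (opW2 o i r D) (by simp) [U.cnd c₀, U.cnd c] (by simp [hc₀, hc]) (Set.countable_range _)
      ⟨⟨k, v, y⟩, rfl⟩

end Pool.Agent.Helper919.SD.Tmdl
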