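import Pool.Agent.Helper919_SDT.Stmts

set_option autoImplicit false

/-!
# Higher levels and amalgamation
-/

namespace Pool.Agent.Helper919.SD.Tnx

open Ordinal Cardinal Set

variable {o : Ord → Opt} {Prot : Set Ord}

/-- Good conditions below a given one. -/
theorem exGood (hmdl : St_mdl) (hgs : St_gs) (hg0 : St_good0) (hl : Legit o Prot) {y : Ord}
    (hS : ∀ z < y, SS o z) (hLL : LLp o Prot y) {p : Cond} (hp : p ∈ A o y) (hy : y ∈ p.J) (S : Set U)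
    (hSc : S.Countable) : ∃ (N : Set U) (δ : Ord), S ⊆ N ∧ Mdl o N δ ∧ U.ord y ∈ N ∧ U.cond p ∈ N ∧
      ∃ q, GoodQ o N δ none y q ∧ CLe o q p := by
  obtain ⟨N, δ, hSN, hN, _⟩ := hmdl o Prot hl (fun _ _ => U.ord 0) (insert (U.ord y) (insert (U.cond p) S))
    ((hSc.insert _).insert _)
  have hyN : U.ord y ∈ N := hSN (Or.inl rfl)
  have hpN : U.cond p ∈ N := hSN (Or.inr (Or.inl rfl))
  refine ⟨N, δ, fun a ha => hSN (Or.inr (Or.inr ha)), hN, hyN, hpN, ?_⟩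
  rcases eq_or_lt_of_le (zero_le (a := y)) with h0 | h0
  · subst h0
    have hSq : Sq o N 0 (fun _ => p) := ⟨fun _ => hpN, fun _ => hp, fun _ => CLe.refl _⟩
    obtain ⟨q, h1, h2, _⟩ := hg0 o Prot hl N δ none hN.basic 0 _ hSq
    refine ⟨q, h1, ?_⟩
    have h3 := h2 0
    rw [res_self hp.1 (fun j hj => A.le hp hj)] at h3
    exact h3
  · obtain ⟨ps, h1, h2, h3, _⟩ := hgs o Prot hl y hS N δ hN hyN p hpN hp
    obtain ⟨q0, h4, h5, _⟩ := hg0 o Prot hl N δ none hN.basic y ps h1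
    have h0N : U.ord 0 ∈ N := (hN.basic.ord 0 (lt_of_le_of_lt zero_le hN.basic.lt)).2 hN.basic.lim.bot_lt
    obtain ⟨q, h6, h7, _⟩ := hLL h0 N δ none hN.basic (fun γ h => by simp at h) 0 h0N hyN h0 ps h1
      (by rw [h2]; exact hy) h3 q0 h4 h5
    exact ⟨q, h6, by have := h7 0; rw [h2] at this; exact this⟩

theorem exThr {y : Ord} {q : Cond} (hq : q ∈ A o y) {j α δ : Ord} (hα : α ∈ q.C j)
    (hδ : δ ∈ q.C j) (hlt : α < δ) {t : Thr} (ht : t ∈ q.T j α) : ∃ s ∈ q.T j δ, Agr (co q j α) α s t := by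
  have hc := A.core' hq hα
  obtain ⟨z, hz⟩ := hc.Tn δ hδ
  obtain ⟨z', h1, h2, _⟩ := hc.L3 α hα δ hδ hlt 0 zero_le t ht z hz
    (fun k hk => absurd hk.2 (not_lt_of_ge zero_le))
  exact ⟨z', h1, h2⟩

theorem job_nx (hmdl : St_mdl) (hgs : St_gs) (hg0 : St_good0) (_huni : St_uni) (hbirth : St_birth) : St_nx := by
  intro o Prot hl y hS hLL
  have key : ∀ c ∈ PP o y, ∀ ξ < ω_ 1, ∀ s, ∃ c' ∈ PP o y, KLe o c' c ∧ ξ < c'.α ∧ (s < y → s ∈ c'.p.u y c'.α) := by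
    intro c hc ξ hξ s
    obtain ⟨p, j, α, t⟩ := c
    obtain ⟨h1, h2, h3, h4, h5⟩ := hc
    simp only at h1 h2 h3 h4 h5
    subst h1
    obtain ⟨N, δ, hSN, hN, hyN, hpN, q, hq, hle⟩ := exGood hmdl hgs hg0 hl hS hLL h2 h3 {U.ord ξ, U.ord s}
      ((countable_singleton _).insert _)
    have hαN : U.ord α ∈ N := hN.basic.C p j hpN h2 j h3 α h4
    have hαδ : α < δ := (hN.basic.ord α ((A.core h2 h3).Clt α h4)).1 hαN
    have hξδ : ξ < δ := (hN.basic.ord ξ hξ).1 (hSN (Or.inl rfl))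
    have hαq : α ∈ q.C j := hle.C j h3 h4
    obtain ⟨s', h6, h7⟩ := exThr hq.A hαq hq.C hαδ (t := t) (by rw [hle.T j h3 α h4]; exact h5)
    refine ⟨⟨q, j, δ, s'⟩, ⟨rfl, hq.A, hq.J, hq.C, h6⟩, ⟨hle, hαδ.le, Or.inl rfl, ?_⟩, hξδ, fun hs => ?_⟩
    · rw [hle.co_eq h3 h4] at h7; exact h7
    · change s ∈ q.u j δ
      rw [hq.u]
      exact ⟨hs, Or.inl (hSN (Or.inr rfl))⟩
  refine ⟨?_, ?_, ?_⟩
  · intro p hp
    obtain ⟨p', h1, h2, h3⟩ : ∃ p' ∈ A o y, CLe o p' p ∧ y ∈ p'.J := by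
      by_cases hy : y ∈ p.J
      · exact ⟨p, hp, CLe.refl _, hy⟩
      · obtain ⟨p', h1, h2, h3, _⟩ := hbirth o Prot hl y p hp y le_rfl hy
        exact ⟨p', h1, h2, by rw [h3]; exact Or.inl rfl⟩
    obtain ⟨N, δ, _, _, _, _, q, hq, hle⟩ := exGood hmdl hgs hg0 hl hS hLL h1 h3 ∅ countable_empty
    exact ⟨q, hq.A, CLe.trans hp.1 hle h2, hq.J, ⟨δ, hq.C⟩⟩
  · intro c hc ξ hξ
    obtain ⟨c', h1, h2, h3, _⟩ := key c hc ξ hξ 0
    exact ⟨c', h1, h2, h3⟩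
  · intro c hc ξ hξ s hs
    obtain ⟨c', h1, h2, h3, h4⟩ := key c hc ξ hξ s
    exact ⟨c', h1, h2, h3, h4 hs⟩

theorem job_am (hmdl : St_mdl) (hgs : St_gs) (hg0 : St_good0) (huni : St_uni) (_hbirth : St_birth) : St_am := by
  intro o Prot hl y hS hLL c hc x hxy d hd hext
  obtain ⟨p, j, α, t⟩ := c
  obtain ⟨pd, jd, αd, td⟩ := d
  obtain ⟨h1, h2, h3, h4, h5⟩ := hc
  obtain ⟨d1, d2, d3, d4, d5⟩ := hd
  obtain ⟨e1, e2, e3, e4⟩ := hext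
  simp only at h1 h2 h3 h4 h5 d1 d2 d3 d4 d5 e1 e2 e3 e4
  subst h1
  subst d1
  obtain ⟨u1, u2, u3, u4⟩ := huni o Prot hl jd j hxy.le p h2 pd d2 e1
  have hj : j ∈ (pd.uni p).J := Or.inr h3
  obtain ⟨N, δ, hSN, hN, hyN, hpN, q, hq, hle⟩ := exGood hmdl hgs hg0 hl hS hLL u1 hj {U.ord jd}
    (countable_singleton _)
  have hqp : CLe o q p := CLe.trans h2.1 hle u2
  have hqd : CLe o q pd := CLe.trans d2.1 hle u3
  have hαr : α ∈ (pd.uni p).C j := u2.C j h3 h4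
  have hαdr : αd ∈ (pd.uni p).C jd := u3.C jd d3 d4
  have hαδ : α < δ := (hN.basic.ord α ((A.core h2 h3).Clt α h4)).1 (hN.basic.C _ j hpN u1 j hj α hαr)
  have hαdδ : αd < δ := (hN.basic.ord αd ((A.core d2 d3).Clt αd d4)).1
    (hN.basic.C _ j hpN u1 jd (u3.J d3) αd hαdr)
  have hx : jd ∈ q.u j δ := by rw [hq.u]; exact ⟨hxy, Or.inl (hSN rfl)⟩
  have hc := A.core hq.A hq.J
  have hxδ := hc.L1J δ hq.C jd hx
  have hαq : α ∈ q.C j := hqp.C j h3 h4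
  have hαdq : αd ∈ q.C jd := hqd.C jd d3 d4
  obtain ⟨s, hs1, hs2⟩ := exThr hq.A hαdq hxδ.2 hαdδ (t := td) (by rw [hqd.T jd d3 αd d4]; exact d5)
  have hs1' := hs1
  rw [hc.L1T δ hq.C jd hx] at hs1'
  obtain ⟨z₁, hz₁, hz₁'⟩ := hs1'
  obtain ⟨z', hz', ha, hb⟩ := hc.L3 α hαq δ hq.C hαδ jd hxy.le t (by rw [hqp.T j h3 α h4]; exact h5) z₁ hz₁ (by
    rintro k ⟨hk, hkx⟩ ξ hξ n
    rw [hqp.co_eq h3 h4] at hk
    have f1 := e3 ⟨hk, hkx⟩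
    have f2 := e4 k ⟨hk, hkx⟩ ξ hξ n
    rw [← f2]
    have f3 := hs2 k (by rw [hqd.co_eq d3 d4]; exact f1) ξ (hξ.trans e2) n
    rw [← f3, ← hz₁', below_of_lt hkx])
  refine ⟨⟨q, j, δ, z'⟩, ⟨rfl, hq.A, hq.J, hq.C, hz'⟩, ⟨hqp, hαδ.le, Or.inl rfl, ?_⟩, Or.inr hx, ?_⟩
  · rw [hqp.co_eq h3 h4] at ha; exact ha
  · refine ⟨?_, hαdδ.le, Or.inl rfl, ?_⟩
    · have := CLe.res hle jd
      rw [u4] at this; exact this
    · change Agr (co pd jd αd) αd (below jd z') td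
      rw [hb, hz₁', ← hqd.co_eq d3 d4]; exact hs2

end Pool.Agent.Helper919.SD.Tnx
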