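import Pool.Agent.Helper919_SDT.Stmts

set_option autoImplicit false

/-!
# The promise lemma (from PL0)
-/

namespace Pool.Agent.Helper919.SD.Tpl

open Ordinal Cardinal Set Pool.Agent.Helper919.SD

variable {o : Ord → Opt} {Prot : Set Ord}

/-- A generic sequence hits the dense open sets of the model above every node of the level `δ`. -/
theorem gen_hit {N : Set U} {δ : Ord} {gs : Option Ord} {i : Ord} {qi : Cond} {gg : ℕ → Cond} {a : Thr}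
    {D' : Set Cnd} (hB : Basic o N δ) (hSq : Sq o N i gg) (hGen : Gen o N gg i)
    (hq : GoodQ o N δ gs i qi) (hle : ∀ n, CLe o qi (gg n)) (ha : a ∈ qi.T i δ) (hD' : U.st D' ∈ N)
    (hDO : DO o (PP o i) D') :
    ∃ n, ∃ e ∈ D', U.cnd e ∈ N ∧ e.p = gg n ∧ KLe o ⟨qi, i, δ, a⟩ e := by
  obtain ⟨n, β, hβ, hall⟩ := hGen D' hD' hDO
  have hJ : i ∈ (gg n).J := (A.nrm (hSq.A n)).mem_J hβ
  have hcore := A.core (hSq.A n) hJ
  have hβN : U.ord β ∈ N := hB.C _ _ (hSq.mem n) (hSq.A n) i hJ β hβ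
  have hβδ : β < δ := (hB.ord β (hcore.Clt β hβ)).1 hβN
  have hself : (gg n).res i = gg n := res_self (hSq.A n).1 fun j hj => A.le (hSq.A n) hj
  have hqc := A.core hq.A hq.J
  have hβq : β ∈ qi.C i := (hle n).C i hJ hβ
  have ht : cut (co qi i β) β a ∈ (gg n).T i β := by
    rw [← (hle n).T i hJ β hβ]
    exact hqc.L2 β hβq δ hq.C hβδ a ha
  refine ⟨n, ⟨(gg n).res i, i, β, cut (co qi i β) β a⟩, hall _ ht,
    hB.cnd _ i i β _ (hSq.mem n) (hSq.A n) hJ hβ ht, hself, ?_⟩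
  refine ⟨?_, hβδ.le, Or.inl rfl, ?_⟩
  · change CLe o qi ((gg n).res i)
    rw [hself]; exact hle n
  · change Agr (co ((gg n).res i) i β) β a (cut (co qi i β) β a)
    rw [hself, ← (hle n).co_eq hJ hβ]
    exact (agr_cut _ _ _).symm

/-- Deciding finitely many names. -/
theorem decide_fin {i : Ord} {k : ℕ} (M : Fin k → Set Cnd) {c : Cnd} (hc : c ∈ PP o i) :
    ∃ c' ∈ PP o i, KLe o c' c ∧ ∀ l, mt o (PP o i) (M l) c' ∨ nmt o (PP o i) (M l) c' := by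
  induction k generalizing c with
  | zero => exact ⟨c, hc, KLe.refl _, fun l => l.elim0⟩
  | succ k ih =>
    obtain ⟨c₁, h1, h2, h3⟩ := ih (fun l => M l.castSucc) hc
    obtain ⟨c₂, h4, h5, h6⟩ := exists_mt_or (o := o) (N := M (Fin.last k)) h1
    refine ⟨c₂, h4, KLe.trans h4 h1 hc h5 h2, fun l => ?_⟩
    refine Fin.lastCases ?_ (fun l => ?_) l
    · exact h6
    · rcases h3 l with h | h
      · exact Or.inl (h.mono Subset.rfl h1 h4 h5)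
      · exact Or.inr (h.mono Subset.rfl h1 h4 h5)

theorem WW_open {i : Ord} {r : Node → Node → Set Cnd} {D : Set Cnd} {c₀ : Cnd} {k : ℕ} {v : Fin k → ℚ} {η : Ord}
    {y : Fin k → ℕ} (hl : Legit o Prot) (hD : D ⊆ PP o (i + 1)) {c c' : Cnd}
    (hc : c ∈ WW o i r D c₀ k v η y) (hc' : c' ∈ PP o i) (h : KLe o c' c) : c' ∈ WW o i r D c₀ k v η y := by
  obtain ⟨h1, d, hd, h2, h3, h4, R, h5, h6⟩ := hc
  have hdP := hD hd
  have hrec : Rec d i := by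
    right
    obtain ⟨a1, a2, a3, a4, a5⟩ := hdP
    rw [a1]
    exact (A.core a2 a3).us _ a4 i (Or.inr rfl)
  exact ⟨hc', d, hd, h2, h3, KLe.trans hc' h1 (PP.pr hl hdP hrec) h h4, R, h5.mono Subset.rfl h1 hc' h, h6⟩

theorem Bd_open {i : Ord} {r : Node → Node → Set Cnd} {D : Set Cnd} {c₀ : Cnd} {k : ℕ} {v : Fin k → ℚ} {η : Ord}
    {y : Fin k → ℕ} {c c' : Cnd}
    (hc : c ∈ Bd o i r D c₀ k v η y) (hc' : c' ∈ PP o i) (h : KLe o c' c) : c' ∈ Bd o i r D c₀ k v η y := by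
  obtain ⟨h1, h2, h3⟩ := hc
  exact ⟨hc', fun l => (h2 l).mono Subset.rfl h1 hc' h, fun c₁ h4 h5 => h3 c₁ h4 (KLe.trans h4 hc' h1 h5 h)⟩

theorem set1_do {i : Ord} {r : Node → Node → Set Cnd} {D : Set Cnd} {c₀ : Cnd} {k : ℕ} {v : Fin k → ℚ} {η : Ord}
    {y : Fin k → ℕ} (hl : Legit o Prot) (hD : D ⊆ PP o (i + 1)) :
    DO o (PP o i) (Set1 o i r D c₀ k v η y) where
  sub := by
    rintro c ((h | h) | h)
    · exact h.1
    · exact h.1
    · exact h.1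
  op := by
    rintro c ((h | h) | ⟨h, l, h'⟩) c' hc' hle
    · exact Or.inl (Or.inl (WW_open hl hD h hc' hle))
    · exact Or.inl (Or.inr (Bd_open h hc' hle))
    · exact Or.inr ⟨hc', l, h'.mono Subset.rfl h hc' hle⟩
  dn := by
    intro c hc
    obtain ⟨c₁, h1, h2, h3⟩ := decide_fin (o := o) (fun l => r (η, y l) (η, y l)) hc
    by_cases h4 : ∃ l, nmt o (PP o i) (r (η, y l) (η, y l)) c₁
    · exact ⟨c₁, Or.inr ⟨h1, h4⟩, h2⟩
    · push Not at h4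
      by_cases h5 : ∃ c₂ ∈ PP o i, KLe o c₂ c₁ ∧ c₂ ∈ WW o i r D c₀ k v η y
      · obtain ⟨c₂, h6, h7, h8⟩ := h5
        exact ⟨c₂, Or.inl (Or.inl h8), KLe.trans h6 h1 hc h7 h2⟩
      · push Not at h5
        exact ⟨c₁, Or.inl (Or.inr ⟨h1, fun l => (h3 l).resolve_right (h4 l), h5⟩), h2⟩

theorem G_open {i : Ord} {r : Node → Node → Set Cnd} {D : Set Cnd} {c₀ : Cnd} {k : ℕ} {v : Fin k → ℚ} {η : Ord}
    {y : Fin k → ℕ} {c c' : Cnd}
    (hc : c ∈ (bdName o i r D c₀ k v).G η y) (hc' : c' ∈ PP o i) (h : KLe o c' c) :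
    c' ∈ (bdName o i r D c₀ k v).G η y := by
  obtain ⟨h1, h2, h3⟩ := hc
  exact ⟨hc', h2, fun η' h4 h5 c₁ h6 h7 => h3 η' h4 h5 c₁ h6 (KLe.trans h6 hc' h1 h7 h)⟩

theorem set2_do {i : Ord} {r : Node → Node → Set Cnd} {D : Set Cnd} {c₀ : Cnd} {k : ℕ} {v : Fin k → ℚ}
    {y : Fin k → ℕ} (hα : c₀.α < ω_ 1) :
    DO o (PP o i) (Set2 o i r D c₀ k v y) where
  sub := by
    rintro c (h | h)
    · exact h.1
    · exact h.1
  op := by
    rintro c (h | ⟨h, η', h1, h2, h3⟩) c' hc' hle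
    · exact Or.inl (G_open h hc' hle)
    · exact Or.inr ⟨hc', η', h1, h2, fun c₁ h4 h5 => h3 c₁ h4 (KLe.trans h4 hc' h h5 hle)⟩
  dn := by
    intro c hc
    by_cases h : c ∈ (bdName o i r D c₀ k v).G c₀.α y
    · exact ⟨c, Or.inl h, KLe.refl _⟩
    · have h' : ¬ ∀ η', c₀.α ≤ η' → η' < ω_ 1 → ∀ c₁ ∈ PP o i, KLe o c₁ c → ∃ c₂ ∈ PP o i, KLe o c₂ c₁ ∧
          ∃ y' : Fin k → ℕ, (∀ l, mt o (PP o i) (r (c₀.α, y l) (η', y' l)) c₂) ∧ c₂ ∈ Bd o i r D c₀ k v η' y' :=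
        fun h'' => h ⟨hc, hα, h''⟩
      push Not at h'
      obtain ⟨η', h1, h2, c₁, h3, h4, h5⟩ := h'
      exact ⟨c₁, Or.inr ⟨h3, η', h1, h2, fun c₂ h6 h7 y' h8 => h5 c₂ h6 h7 y' h8⟩, h4⟩

/-- The promise lemma. -/
theorem job_pl (hpl0 : St_pl0) : St_pl := by
  intro o Prot hl i r B g hoi hSS hLLp hLL D hD N δ hM hMP hiN gg hSq hGen gs qi hq hle c₀ hc₀ hc₀N hm a ha hac R hR
    k v X hX hSat
  obtain ⟨m, hm⟩ := hm
  have hB := hM.basic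
  set qc : Cnd := ⟨qi, i, δ, a⟩ with hqc
  have hqcP : qc ∈ PP o i := ⟨rfl, hq.A, hq.J, hq.C, ha⟩
  have hc₀' := hc₀
  obtain ⟨a1, a2, a3, a4, a5⟩ := hc₀'
  have hc₀α1 : c₀.α < ω_ 1 := (A.core a2 a3).Clt _ a4
  have hc₀δ : c₀.α < δ := (hB.ord _ hc₀α1).1 (hB.cp c₀ hc₀N).2.2
  have hcnP : ∀ c : Cnd, c ∈ PP o (i + 1) → Rec c i := by
    intro c hc
    right
    obtain ⟨a1, a2, a3, a4, a5⟩ := hc
    rw [a1]
    exact (A.core a2 a3).us _ a4 i (Or.inr rfl)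
  have hgood := (hl.spec hoi).1
  have hnrm : Nrm (c₀.p.res i) := nrm_res a2.1 i
  have hqc0 : KLe o qc (c₀.pr i) := by
    refine ⟨CLe.trans hnrm (hle m) hm, hc₀δ.le, Or.inl rfl, ?_⟩
    change Agr (co (c₀.p.res i) i c₀.α) c₀.α a (below i c₀.t)
    rw [res_co _ _ le_rfl]
    exact hac.trans (agr_below (fun j hj => co_lt hj) _ _).symm
  have hit : ∀ D', U.st D' ∈ N → DO o (PP o i) D' → ∃ n, ∃ e ∈ D', U.cnd e ∈ N ∧ e.p = gg n ∧ KLe o qc e :=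
    fun D' h1 h2 => gen_hit hB hSq hGen hq hle ha h1 h2
  -- first step
  have step1 : ∀ η < δ, (∃ c' ∈ D, U.cnd c' ∈ N ∧ KLe o c' c₀ ∧ KLe o qc (c'.pr i) ∧
      (∃ m, CLe o (gg m) (c'.p.res i)) ∧ ∀ l, Sat R (hv i c'.t) c'.α (c'.α, X l c'.α) (v l)) ∨
      qc ∈ Bd o i r D c₀ k v η (fun l => X l η) := by
    intro η hη
    have hηN : U.ord η ∈ N := (hB.ord η (hη.trans hB.lt)).2 hη
    obtain ⟨n, e, he, heN, hen, hqe⟩ := hit _ (hMP.s1 c₀ k v η (fun l => X l η) hc₀N hηN) (set1_do hl hD.sub)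
    rcases he with (he | he) | ⟨heP, l, he⟩
    · left
      have heP := he.1
      obtain ⟨c', hc'D, hc'N, h1, h2, h3, R', h4, h5⟩ := hMP.w1 c₀ k v η _ e hc₀N hηN heN he
      have hc'P := hD.sub hc'D
      refine ⟨c', hc'D, hc'N, h1, KLe.trans hqcP heP (PP.pr hl hc'P (hcnP _ hc'P)) hqe h3, ⟨n, ?_⟩, fun l => ?_⟩
      · rw [← hen]; exact h3.p
      · obtain ⟨w, hw, h6⟩ := h5 l
        refine ⟨w, hw, fun x hx hRx => h6 x hx ?_⟩
        by_contra hn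
        have hxη : x.1 < δ := (hx.trans_le h2).trans hη
        have b1 := (hR x (c'.α, X l c'.α) hxη (h2.trans_lt hη)).1 hRx
        have b2 := (hR (c'.α, X l c'.α) (η, X l η) (h2.trans_lt hη) hη).1 (hX l _ _ h2 hη)
        have b3 := hgood.trans qc hqcP _ _ _ b1 b2
        have b4 := ((h4 x (η, X l η) (hx.trans_le h2).le le_rfl).2 hn).mono Subset.rfl heP hqcP hqe
        exact not_mt_nmt hqcP b3 b4
    · right
      exact Bd_open he hqcP hqe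
    · exfalso
      exact not_mt_nmt hqcP ((hR (η, X l η) (η, X l η) hη hη).1 (hX l η η le_rfl hη))
        (he.mono Subset.rfl heP hqcP hqe)
  by_cases hex : ∃ c' ∈ D, U.cnd c' ∈ N ∧ KLe o c' c₀ ∧ KLe o qc (c'.pr i) ∧
      (∃ m, CLe o (gg m) (c'.p.res i)) ∧ ∀ l, Sat R (hv i c'.t) c'.α (c'.α, X l c'.α) (v l)
  · exact hex
  · exfalso
    have hbad : ∀ η < δ, qc ∈ Bd o i r D c₀ k v η (fun l => X l η) := fun η hη => (step1 η hη).resolve_left hex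
    obtain ⟨n, e, he, heN, hen, hqe⟩ := hit _ (hMP.s2 c₀ k v (fun l => X l c₀.α) hc₀N) (set2_do hc₀α1)
    rcases he with he | ⟨heP, he⟩
    · have hDec : Dec o (PP o i) r qc c₀.α R := fun x y hx hy => hR x y (hx.trans_lt hc₀δ) (hy.trans_lt hc₀δ)
      have hmt : mt o (PP o i) ((bdName o i r D c₀ k v).G c₀.α (fun l => X l c₀.α)) qc :=
        fun c' hc' hle' => ⟨c', hc', KLe.refl _, e, he, KLe.trans hc' hqcP he.1 hle' hqe⟩
      exact hpl0 o Prot hl i r B g hoi hSS hLLp hLL D hD c₀ hc₀ k v _ qc hqcP hqc0 hmt R hDec hSat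
    · obtain ⟨η', hη'N, h1, h2, h3⟩ := hMP.w2 c₀ k v (fun l => X l c₀.α) e hc₀N heN he
      have hη'δ : η' < δ := (hB.ord η' h2).1 hη'N
      refine h3 qc hqcP hqe (fun l => X l η') (fun l => ?_) (hbad η' hη'δ)
      exact (hR (c₀.α, X l c₀.α) (η', X l η') hc₀δ hη'δ).1 (hX l _ _ h1 hη'δ)

end Pool.Agent.Helper919.SD.Tpl
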