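import Pool.Agent.Helper919_SDT.Stmts

set_option autoImplicit false

/-!
# PL0
-/

namespace Pool.Agent.Helper919.SD.Tpl0

open Ordinal Cardinal Set

variable {o : Ord → Opt} {Prot : Set Ord}

/-! ### Countability, decisions -/

theorem countable_le (δ : Ord) (h : δ < ω_ 1) : {ξ | ξ ≤ δ}.Countable := by
  have h2 : δ.card ≤ ℵ₀ := by
    rw [← Cardinal.ord_aleph, Cardinal.lt_ord, ← Cardinal.succ_aleph0] at h
    exact Order.lt_succ_iff.1 h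
  have h3 : (Set.Iio δ).Countable := by
    rw [← Cardinal.le_aleph0_iff_set_countable, Cardinal.mk_Iio_ordinal, ← Cardinal.lift_aleph0.{1,0},
      Cardinal.lift_le]
    exact h2
  have : {ξ | ξ ≤ δ} = insert δ (Set.Iio δ) := by
    ext x; simp [le_iff_lt_or_eq, or_comm]
  rw [this]; exact h3.insert _

theorem nn_countable {i : Ord} (hN : NN o (PP o i)) {ι : Type 1} [Countable ι] (D : ι → Set Cnd)
    (hD : ∀ m, DO o (PP o i) (D m)) {c : Cnd} (hc : c ∈ PP o i) :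
    ∃ c' ∈ PP o i, KLe o c' c ∧ ∀ m, c' ∈ D m := by
  rcases isEmpty_or_nonempty ι with h | h
  · exact ⟨c, hc, KLe.refl _, fun m => (h.false m).elim⟩
  · obtain ⟨f, hf⟩ := exists_surjective_nat ι
    obtain ⟨c', h1, h2, h3⟩ := hN (fun n => D (f n)) (fun n => hD _) c hc
    refine ⟨c', h1, h2, fun m => ?_⟩
    obtain ⟨n, rfl⟩ := hf m
    exact h3 n

theorem do_mt (i : Ord) (M : Set Cnd) : DO o (PP o i) {c | c ∈ PP o i ∧ (mt o (PP o i) M c ∨ nmt o (PP o i) M c)} where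
  sub _ hc := hc.1
  op c hc c' hc' hle := by
    refine ⟨hc', hc.2.imp (fun h => ?_) (fun h => ?_)⟩
    · exact mt.mono Subset.rfl hc.1 hc' h hle
    · exact nmt.mono Subset.rfl hc.1 hc' h hle
  dn c hc := by
    obtain ⟨c', h1, h2, h3⟩ := exists_mt_or (o := o) (N := M) hc
    exact ⟨c', ⟨h1, h3⟩, h2⟩

theorem exists_dec {i : Ord} (hN : NN o (PP o i)) (r : Node → Node → Set Cnd) {δ : Ord} (hδ : δ < ω_ 1)
    {c : Cnd} (hc : c ∈ PP o i) : ∃ c' ∈ PP o i, KLe o c' c ∧ ∃ R, Dec o (PP o i) r c' δ R := by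
  have hcn : ({x : Node × Node | x.1.1 ≤ δ ∧ x.2.1 ≤ δ}).Countable := by
    have h1 : ({x : Node | x.1 ≤ δ}).Countable := by
      have := (countable_le δ hδ).prod (Set.countable_univ (α := ℕ))
      exact this.mono fun x hx => Set.mem_prod.2 ⟨hx, Set.mem_univ _⟩
    exact (h1.prod h1).mono fun x hx => Set.mem_prod.2 ⟨hx.1, hx.2⟩
  have : Countable {x : Node × Node | x.1.1 ≤ δ ∧ x.2.1 ≤ δ} := hcn.to_subtype
  obtain ⟨c', h1, h2, h3⟩ := nn_countable hN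
    (fun x : {x : Node × Node | x.1.1 ≤ δ ∧ x.2.1 ≤ δ} =>
      {c | c ∈ PP o i ∧ (mt o (PP o i) (r x.1.1 x.1.2) c ∨ nmt o (PP o i) (r x.1.1 x.1.2) c)})
    (fun x => do_mt i _) hc
  refine ⟨c', h1, h2, fun x y => mt o (PP o i) (r x y) c', fun x y hx hy => ⟨id, fun h => ?_⟩⟩
  rcases (h3 ⟨(x, y), hx, hy⟩).2 with h4 | h4
  · exact absurd h4 h
  · exact h4

theorem exists_decG {i : Ord} (hN : NN o (PP o i)) (G : PName) (δ : Ord)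
    {c : Cnd} (hc : c ∈ PP o i) : ∃ c' ∈ PP o i, KLe o c' c ∧ ∃ Y, DecG o (PP o i) G c' δ Y := by
  obtain ⟨c', h1, h2, h3⟩ := nn_countable hN
    (fun n : ULift.{1} (Fin G.k → ℕ) => {c | c ∈ PP o i ∧ (mt o (PP o i) (G.G δ n.down) c ∨
      nmt o (PP o i) (G.G δ n.down) c)}) (fun x => do_mt i _) hc
  refine ⟨c', h1, h2, {n | mt o (PP o i) (G.G δ n) c'}, fun n => ⟨id, fun h => ?_⟩⟩
  rcases (h3 ⟨n⟩).2 with h4 | h4
  · exact absurd h4 h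
  · exact h4

theorem dec_of_mt {i : Ord} {r : Node → Node → Set Cnd} {c c' : Cnd} {α : Ord} {R : Node → Node → Prop}
    (hc : c ∈ PP o i) (hc' : c' ∈ PP o i) (h : Dec o (PP o i) r c α R) (hle : KLe o c' c) {x y : Node}
    (hx : x.1 ≤ α) (hy : y.1 ≤ α) (hm : mt o (PP o i) (r x y) c') : R x y := by
  by_contra hR
  exact not_mt_nmt hc' hm (((h x y hx hy).2 hR).mono Subset.rfl hc hc' hle)

theorem decG_of_mt {i : Ord} {G : PName} {c c' : Cnd} {α : Ord} {Y : Set (Fin G.k → ℕ)}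
    (hc : c ∈ PP o i) (hc' : c' ∈ PP o i) (h : DecG o (PP o i) G c α Y) (hle : KLe o c' c) {n : Fin G.k → ℕ}
    (hm : mt o (PP o i) (G.G α n) c') : n ∈ Y := by
  by_contra hR
  exact not_mt_nmt hc' hm (((h n).2 hR).mono Subset.rfl hc hc' hle)

theorem tree_pred {i : Ord} {r : Node → Node → Set Cnd} (hr : Good o (PP o i) r) {c : Cnd} (hc : c ∈ PP o i)
    {x x' y : Node} (h : mt o (PP o i) (r x y) c) (h' : mt o (PP o i) (r x' y) c) (hx : x.1 ≤ x'.1) :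
    mt o (PP o i) (r x x') c := by
  refine mt_of_dense Subset.rfl hc fun c' hc' hle => ?_
  have h1 := h.mono Subset.rfl hc hc' hle
  have h1' := h'.mono Subset.rfl hc hc' hle
  obtain ⟨c₂, h2, h3, n, h4⟩ := hr.ex c' hc' x' (hr.refl c' hc' x' y h1').1 x.1 hx
  have h5 := hr.trans c₂ h2 _ _ _ h4 (h1'.mono Subset.rfl hc' h2 h3)
  have h6 : x = (x.1, n) := hr.uniq c₂ h2 x (x.1, n) y (h1.mono Subset.rfl hc' h2 h3) h5 rfl
  exact ⟨c₂, h2, h3, by rw [h6]; exact h4⟩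

/-! ### Adding a promise -/

open Classical in
/-- Addition of a promise at the index `y`. -/
noncomputable def addPr (q : Cond) (y : Ord) (e : Ord × Thr × Ord) : Cond :=
  { q with Pr := fun j => if j = y then insert e (q.Pr j) else q.Pr j }

section addPr

variable (q : Cond) (y : Ord) (e : Ord × Thr × Ord)

theorem addPr_Pr : (addPr q y e).Pr y = insert e (q.Pr y) := by simp [addPr]
theorem addPr_Pr' {j : Ord} (h : j ≠ y) : (addPr q y e).Pr j = q.Pr j := by simp [addPr, h]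

theorem addPr_res {x : Ord} (h : x < y) : (addPr q y e).res x = q.res x := by
  ext1
  · rfl
  · rfl
  · rfl
  · rfl
  · rfl
  · funext j
    by_cases hj : j ≤ x
    · rw [res_Pr _ _ hj, res_Pr _ _ hj, addPr_Pr' _ _ _ (hj.trans_lt h).ne]
    · rw [res_Pr' _ _ hj, res_Pr' _ _ hj]

theorem addPr_le : CLe o (addPr q y e) q where
  J := Subset.rfl
  C _ _ := Subset.rfl
  ee _ _ _ h1 h2 := absurd h1 h2
  u _ _ _ _ := rfl
  T _ _ _ _ := rfl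
  F _ _ := Subset.rfl
  Pr j _ := by
    by_cases h : j = y
    · subst h; rw [addPr_Pr]; exact Set.subset_insert _ _
    · rw [addPr_Pr' _ _ _ h]
  kl _ _ _ _ _ h1 h2 := absurd h1 h2

theorem addPr_A (hl : Legit o Prot) {p : Cond} {i : Ord} {r : Node → Node → Set Cnd} {B : Ord} {g : Ord → PName}
    (ho : o i = Opt.spec r B g) (hp : p ∈ A o (i + 1)) {δ κ : Ord} {z₀ : Thr} (hJ : i + 1 ∈ p.J)
    (hδ : δ ∈ p.C (i + 1)) (hz : z₀ ∈ p.T (i + 1) δ) (hκ : κ < B)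
    (hpr : ∀ α ∈ p.C (i + 1), δ ≤ α → ∀ z ∈ p.T (i + 1) α,
      Agr (co p (i + 1) δ) δ z z₀ → ∀ c ∈ PP o i, KLe o c ⟨p.res i, i, α, below i z⟩ →
      ∀ R, Dec o (PP o i) r c α R → ∀ Y, DecG o (PP o i) (g κ) c α Y → ∀ fi : Finset ℕ,
      ∃ n ∈ Y, (∀ l, n l ∉ fi) ∧ ∀ l, Sat R (hv i z) α (α, n l) ((g κ).v l)) :
    addPr p (i + 1) (δ, z₀, κ) ∈ A o (i + 1) := by
  refine ⟨⟨hp.1.J, hp.1.C, hp.1.F, ?_, hp.1.u, hp.1.T⟩, ?_⟩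
  · intro j hj
    have : j ≠ i + 1 := fun h => hj (h ▸ hJ)
    rw [addPr_Pr' _ _ _ this]; exact hp.1.Pr _ hj
  · intro z hz'
    refine ⟨A.le hp hz', ?_⟩
    rcases eq_or_lt_of_le (A.le hp hz') with h | h
    · subst h
      rw [Leg_iff]
      have hc := A.core hp hz'
      have hii : i < i + 1 := lt_add_one i
      have hres : (addPr p (i + 1) (δ, z₀, κ)).res i = p.res i := addPr_res _ _ _ hii
      refine ⟨?_, fun h => absurd ⟨i, rfl⟩ h, ?_⟩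
      · exact ⟨hc.Cc, hc.Clim, hc.Clt, hc.uc, hc.ult, hc.ucl, hc.u0, hc.us, hc.Tc, hc.Tn, hc.Ts, hc.L1J, hc.L1u,
          hc.L1T, hc.L2u, hc.L2, hc.L3, hc.Fc, hc.Flt, by rw [addPr_Pr]; exact hc.Prc.insert _⟩
      · intro i' hi'
        have hii' : i' = i := by simpa using hi'
        subst hii'
        have h2 := A.opt hp hz'
        unfold LegOpt at h2 ⊢
        simp only [ho] at h2 ⊢
        refine ⟨h2.z0, ?_, ?_, ?_, ?_, ?_, h2.F0⟩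
        · rw [hres]; exact h2.inc
        · rw [hres]; exact h2.bd
        · rw [hres]; exact h2.sep
        · intro e he
          rw [addPr_Pr] at he
          rcases he with rfl | he
          · exact ⟨hδ, hz, hκ⟩
          · exact h2.Pr e he
        · intro e he
          rw [addPr_Pr] at he
          rw [hres]
          rcases he with rfl | he
          · exact hpr
          · exact h2.prom e he
    · refine Leg.congr hl (A.leg hp hz') ?_ ?_ ?_ ?_ ?_ ?_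
      · intro w hw; exact Iff.rfl
      · intro w hw; rfl
      · intro w hw; rfl
      · intro w hw; rfl
      · intro w hw; rfl
      · intro w hw; exact addPr_Pr' _ _ _ (hw.trans_lt h).ne

end addPr

/-! ### One extension step -/

/-- Result of one application of `LL`, truncated. -/
structure Step (o : Ord → Opt) (i : Ord) (p : Cond) (β₁ δ : Ord) (q : Cond) : Prop where
  b : β₁ < δ
  lt : δ < ω_ 1
  Clt : ∀ j ∈ p.J, ∀ α ∈ p.C j, α < δ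
  A : q ∈ A o (i + 1)
  le : CLe o q p
  J : i + 1 ∈ q.J
  C : δ ∈ q.C (i + 1)
  mx : ∀ α ∈ q.C (i + 1), α ≤ δ
  Ji : i ∈ q.J
  Ci : δ ∈ q.C i
  xs : ∀ am ∈ p.C (i + 1), (∀ α ∈ p.C (i + 1), α ≤ am) → ∀ r B g, o i = Opt.spec r B g →
    ∀ z₁ ∈ p.T (i + 1) am, ∀ a ∈ q.T i δ, Agr (co p i am) am a z₁ →
    ∀ e : ℚ, 0 < e → ∃ z ∈ q.T (i + 1) δ, below i z = a ∧ Agr (co p (i + 1) am) am z z₁ ∧
      ∀ c ∈ PP o i, KLe o c ⟨q.res i, i, δ, a⟩ → ∀ R, Dec o (PP o i) r c δ R →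
        ∀ n v, Sat R (hv i z₁) am (δ, n) v → Sat R (hv i z) δ (δ, n) (v + e)

theorem exists_step (hmdl : St_mdl) (hgs : St_gs) (hg0 : St_good0) (hl : Legit o Prot) {i : Ord}
    {r : Node → Node → Set Cnd} {B : Ord} {g : Ord → PName} (ho : o i = Opt.spec r B g)
    (hss : ∀ z ≤ i, SS o z) (hLL : LL o Prot (i + 1)) {p : Cond} (hp : p ∈ A o (i + 1)) (hJ : i + 1 ∈ p.J)
    {β₁ : Ord} (hβ : β₁ < ω_ 1) : ∃ δ q, Step o i p β₁ δ q := by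
  obtain ⟨N, δ, hS, hN, -⟩ := hmdl o Prot hl (fun _ _ => U.ord 0) {U.cond p, U.ord (i + 1), U.ord β₁}
    (by simp)
  have hpN : U.cond p ∈ N := hS (by simp)
  have hiN : U.ord (i + 1) ∈ N := hS (by simp)
  have hbN : U.ord β₁ ∈ N := hS (by simp)
  have hbd : β₁ < δ := (hN.basic.ord β₁ hβ).1 hbN
  have hlt : ∀ j ∈ p.J, ∀ α ∈ p.C j, α < δ := fun j hj α hα =>
    (hN.basic.ord α ((A.core hp hj).Clt α hα)).1 (hN.basic.C p (i + 1) hpN hp j hj α hα)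
  have h0N : U.ord 0 ∈ N := (hN.basic.ord 0 (lt_of_le_of_lt zero_le hβ)).2 (lt_of_le_of_lt zero_le hbd)
  obtain ⟨ps, hsq, hp0, hgen, hcon⟩ := hgs o Prot hl (i + 1) (fun z hz => hss z (Order.lt_succ_iff.1 hz)) N δ hN hiN
    p hpN hp
  obtain ⟨q₀, hq₀, hq₀', -⟩ := hg0 o Prot hl N δ none hN.basic (i + 1) ps hsq
  obtain ⟨q, hq, hle, -, hmx, hx⟩ := hLL N δ none hN.basic (by simp) 0 h0N hiN (lt_of_le_of_lt zero_le (lt_add_one i)) ps hsq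
    (hp0 ▸ hJ) hgen q₀ hq₀ hq₀'
  have hXS := (hx i rfl).2
  have hqp : CLe o q p := hp0 ▸ hle 0
  have hcore := A.core hq.A hq.J
  have hiu : i ∈ q.u (i + 1) δ := hcore.us δ hq.C i (Or.inr rfl)
  obtain ⟨hiJ, hiC⟩ := hcore.L1J δ hq.C i hiu
  have hii : i ≠ i + 1 := (lt_add_one i).ne
  have hopt : LegSpec o (PP o i) p i r B g := by
    have h2 := A.opt hp hJ
    unfold LegOpt at h2
    simpa only [ho] using h2
  refine ⟨δ, q, hbd, hN.basic.lt, hlt, hq.A, hqp, hq.J, hq.C, hmx, hiJ, hiC, ?_⟩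
  intro am ham hmax r' B' g' ho' z₁ hz₁ a ha hagr e he
  have := hXS am (hp0 ▸ ham) (hp0 ▸ hmax) (fun n => by rw [(hcon n).1, hp0]) r' B' g' ho' z₁ (hp0 ▸ hz₁) a ha
    (hp0 ▸ hagr) e he
  rw [hp0] at this
  exact this

/-- Nodes of the level `δ` above a given condition. -/
theorem exists_above {q : Cond} {y i δ : Ord} (hl : Legit o Prot) (hq : q ∈ A o y) (hiJ : i ∈ q.J) (hiC : δ ∈ q.C i)
    {c : Cnd} (hc : c ∈ PP o i) (hle : CLe o (q.res i) c.p) (hα : c.α < δ) :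
    ∃ a ∈ q.T i δ, (⟨q.res i, i, δ, a⟩ : Cnd) ∈ PP o i ∧ KLe o ⟨q.res i, i, δ, a⟩ c := by
  have hqi : q.res i ∈ A o i := A.res hl hq i
  have hcore := A.core hq hiJ
  obtain ⟨rfl, c2, c3, c4, c5⟩ := hc
  have h1 : c.α ∈ q.C c.j := by have := hle.C _ c3 c4; rwa [res_C _ _ le_rfl] at this
  have h2 : c.t ∈ q.T c.j c.α := by
    have := hle.T _ c3 _ c4; rw [res_T _ _ le_rfl] at this; rw [this]; exact c5
  have h3 : co q c.j c.α = co c.p c.j c.α := by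
    have := hle.co_eq c3 c4; rwa [res_co _ _ le_rfl] at this
  obtain ⟨z, hz⟩ := hcore.Tn δ hiC
  obtain ⟨a, ha, hag, -⟩ := hcore.L3 _ h1 _ hiC hα 0 zero_le _ h2 z hz
    (fun k hk => absurd hk.2 (not_lt.2 zero_le))
  refine ⟨a, ha, ⟨rfl, hqi, ⟨hiJ, le_rfl⟩, ?_, ?_⟩, hle, hα.le, Or.inl rfl, ?_⟩
  · change δ ∈ (q.res c.j).C c.j; rw [res_C _ _ le_rfl]; exact hiC
  · change a ∈ (q.res c.j).T c.j δ; rw [res_T _ _ le_rfl]; exact ha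
  · rw [← h3]; exact hag

theorem exists_eps {k : ℕ} (v w : Fin k → ℚ) (h : ∀ l, w l < v l) : ∃ e : ℚ, 0 < e ∧ ∀ l, w l < v l - e := by
  rcases isEmpty_or_nonempty (Fin k) with hk | hk
  · exact ⟨1, one_pos, fun l => hk.elim l⟩
  · obtain ⟨l₀, hl₀⟩ := Finite.exists_min (fun l => v l - w l)
    refine ⟨(v l₀ - w l₀) / 2, by linarith [h l₀], fun l => ?_⟩
    have := hl₀ l
    have := h l₀
    linarith

/-! ### The main proof -/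

theorem job_pl0 (hmdl : St_mdl) (hgs : St_gs) (hg0 : St_good0) (hnx : St_nx) (hso : St_so) (hnn : St_nn)
    (huni : St_uni) (hdisp : St_disp) (hbd : St_bd) : St_pl0 := by
  intro o Prot hl i r B g ho hss hLLp hLL D hD c₀ hc₀ k v y₀ c hc hcc₀ hG R hR hSat
  have hii : i < i + 1 := lt_add_one i
  have hNN : NN o (PP o i) := hnn o Prot hl i (hso o Prot hl i (hss i le_rfl)
    (hnx o Prot hl i (fun z hz => hss z hz.le) (hLLp i le_rfl)))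
  obtain ⟨hr, -, hg⟩ := hl.spec ho
  have hOK : OKP o (PP o i) r (bdName o i r D c₀ k v) := hbd o Prot hl i hNN r hr D hD c₀ hc₀ k v
  obtain ⟨κ, hκ, hgκ⟩ := hg _ hOK
  -- the data of `c₀`
  have hc₀' := hc₀
  obtain ⟨c₀j, c₀A, c₀J, c₀C, c₀T⟩ := hc₀'
  have hcore₀ := A.core c₀A c₀J
  have hrec₀ : Rec c₀ i := Or.inr (by rw [c₀j]; exact hcore₀.us _ c₀C i (Or.inr rfl))
  have hpr₀ : c₀.pr i ∈ PP o i := PP.pr hl hc₀ hrec₀
  have hα₀ : c₀.α < ω_ 1 := hcore₀.Clt _ c₀C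
  obtain ⟨cj, cA, cJ, cC, cT⟩ := id hc
  -- (A)
  obtain ⟨p1A, p1p, p1c, p1res⟩ := huni o Prot hl i (i + 1) hii.le c₀.p c₀A c.p cA hcc₀.p
  obtain ⟨δ₁, q₁, S₁⟩ := exists_step hmdl hgs hg0 hl ho hss hLL p1A (p1p.J c₀J) (β₁ := 0)
    (lt_of_le_of_lt zero_le hα₀)
  have hq₁c : CLe o (q₁.res i) c.p := by
    have := S₁.le.res i; rwa [p1res] at this
  have hcα : c.α < δ₁ := by
    exact S₁.Clt i (p1c.J cJ) c.α (p1c.C i cJ cC)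
  obtain ⟨s₁, hs₁, he₁, he₁c⟩ := exists_above hl S₁.A S₁.Ji S₁.Ci hc hq₁c hcα
  have hα₁ : c₀.α < δ₁ := lt_of_le_of_lt hcc₀.α hcα
  obtain ⟨c', hc', hc'e, y₁, hy₁G, hy₁r⟩ := hOK.pp2 _ he₁ δ₁ c₀.α y₀ (hG.mono Subset.rfl hc he₁ he₁c) hα₁ S₁.lt
  obtain ⟨c₂, hc₂, hc₂', R₂, hR₂⟩ := exists_dec hNN r S₁.lt hc'
  have hc₂e := KLe.trans hc₂ hc' he₁ hc₂' hc'e
  have hc₂c := KLe.trans hc₂ he₁ hc hc₂e he₁c
  have he₁0 := KLe.trans he₁ hc hpr₀ he₁c hcc₀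
  have hy₁G₂ := hy₁G.mono Subset.rfl hc' hc₂ hc₂'
  have hy₁r₂ : ∀ l, mt o (PP o i) (r (c₀.α, y₀ l) (δ₁, y₁ l)) c₂ := fun l =>
    (hy₁r l).mono Subset.rfl hc' hc₂ hc₂'
  have hspec₁ : LegSpec o (PP o i) q₁ i r B g := by
    have h2 := A.opt S₁.A S₁.J
    unfold LegOpt at h2
    simpa only [ho] using h2
  have hq₁p : CLe o q₁ c₀.p := S₁.le.trans c₀A.1 p1p
  have hC₀₁ : c₀.α ∈ q₁.C (i + 1) := hq₁p.C _ c₀J c₀C
  have hT₀₁ : c₀.t ∈ q₁.T (i + 1) c₀.α := by rw [hq₁p.T _ c₀J _ c₀C]; exact c₀T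
  have hagr₁ : Agr (co q₁ i c₀.α) c₀.α s₁ c₀.t := by
    have h1 := he₁0.t
    change Agr (co (c₀.p.res i) i c₀.α) c₀.α s₁ (below i c₀.t) at h1
    have h2 : co q₁ i c₀.α = co (c₀.p.res i) i c₀.α := by
      have := (hq₁p.res i).co_eq hpr₀.2.2.1 hpr₀.2.2.2.1
      change co (q₁.res i) i c₀.α = co (c₀.p.res i) i c₀.α at this
      rwa [res_co q₁ i le_rfl] at this
    rw [← h2] at h1
    exact h1.trans (agr_below (fun k hk => co_lt hk) _ _)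
  obtain ⟨z₁, hz₁, hz₁s, hz₁t, hz₁S⟩ := hspec₁.sep c₀.α hC₀₁ δ₁ S₁.C hα₁ c₀.t hT₀₁ s₁ hs₁ hagr₁ c₂ hc₂ hc₂e R₂ hR₂
    k y₁ v (by
      intro l
      obtain ⟨v', hv', hv''⟩ := hSat l
      refine ⟨v', hv', fun x hx hRx => hv'' x hx ?_⟩
      have h1 : mt o (PP o i) (r x (δ₁, y₁ l)) c₂ := (hR₂ x (δ₁, y₁ l) (hx.trans hα₁).le le_rfl).1 hRx
      have h2 := tree_pred hr hc₂ h1 (hy₁r₂ l) hx.le
      exact dec_of_mt hc hc₂ hR hc₂c hx.le le_rfl h2)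
  -- (B)
  obtain ⟨c₃, hc₃, hc₃₂, β₁, hβ₁, hdis⟩ := hdisp o i hNN r hr _ hOK c₂ hc₂ δ₁ y₁ S₁.lt hy₁G₂
  -- (C)
  have hc₃e := KLe.trans hc₃ hc₂ he₁ hc₃₂ hc₂e
  obtain ⟨p3A, p3q, p3c, p3res⟩ := huni o Prot hl i (i + 1) hii.le q₁ S₁.A c₃.p hc₃.2.1 hc₃e.p
  obtain ⟨δ₂, q₂, S₂⟩ := exists_step hmdl hgs hg0 hl ho hss hLL p3A (p3q.J S₁.J) hβ₁
  have hi3 : i + 1 ∉ c₃.p.J := fun h => absurd (A.le hc₃.2.1 h) (not_le.2 hii)
  have hC3 : (c₃.p.uni q₁).C (i + 1) = q₁.C (i + 1) := by simp [Cond.uni, hi3]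
  have hT3 : (c₃.p.uni q₁).T (i + 1) = q₁.T (i + 1) := by funext α; simp [Cond.uni, hi3]
  have hq₂c : CLe o (q₂.res i) c₃.p := by
    have := S₂.le.res i; rwa [p3res] at this
  have hc₃α : c₃.α < δ₂ := by
    have h1 : i ∈ c₃.p.J := by have := hc₃.2.2.1; exact this
    exact S₂.Clt i (p3c.J h1) c₃.α (p3c.C i h1 hc₃.2.2.2.1)
  obtain ⟨a₂, ha₂, he₂, he₂c⟩ := exists_above hl S₂.A S₂.Ji S₂.Ci hc₃ hq₂c hc₃α
  have hδ₁₂ : δ₁ < δ₂ := S₂.Clt (i + 1) (p3q.J S₁.J) δ₁ (by rw [hC3]; exact S₁.C)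
  have he₂e₁ := KLe.trans he₂ hc₃ he₁ he₂c hc₃e
  have he₂c₂ := KLe.trans he₂ hc₃ hc₂ he₂c hc₃₂
  choose v' hv' hv'' using hz₁S
  obtain ⟨e, he, hev⟩ := exists_eps v v' hv'
  have hco₁ : co (c₃.p.uni q₁) i δ₁ = co (q₁.res i) i δ₁ := by
    have h1 := (p3q.res i).co_eq he₁.2.2.1 he₁.2.2.2.1
    change co ((c₃.p.uni q₁).res i) i δ₁ = co (q₁.res i) i δ₁ at h1
    rwa [res_co (c₃.p.uni q₁) i le_rfl] at h1
  have hagr₂ : Agr (co (c₃.p.uni q₁) i δ₁) δ₁ a₂ z₁ := by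
    have h1 := he₂e₁.t
    change Agr (co (q₁.res i) i δ₁) δ₁ a₂ s₁ at h1
    rw [hco₁]
    refine h1.trans ?_
    rw [← hz₁s]
    exact agr_below (fun k hk => co_lt hk) _ _
  obtain ⟨z₂, hz₂, hz₂a, hz₂z₁, hz₂S⟩ := S₂.xs δ₁ (by rw [hC3]; exact S₁.C) (by rw [hC3]; exact S₁.mx) r B g ho
    z₁ (by rw [hT3]; exact hz₁) a₂ ha₂ hagr₂ e he
  -- (D)
  have hcore₂ := A.core S₂.A S₂.J
  have hfor : ∀ cc ∈ PP o i, KLe o cc ⟨q₂.res i, i, δ₂, a₂⟩ → ∀ R', Dec o (PP o i) r cc δ₂ R' →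
      ∀ cd ∈ PP o i, KLe o cd cc → ∀ n : Fin k → ℕ, (∀ l, mt o (PP o i) (r (δ₁, y₁ l) (δ₂, n l)) cd) →
      ∀ l, Sat R' (hv i z₂) δ₂ (δ₂, n l) (v l) := by
    intro cc hcc hccle R' hR' cd hcd hcdle n hn l
    have h1 := hz₂S cc hcc hccle R' hR' (n l) (v l - e) ⟨v' l, hev l, fun x hx hRx => hv'' l x hx ?_⟩
    · rwa [sub_add_cancel] at h1
    · have h2 : mt o (PP o i) (r x (δ₂, n l)) cd :=
        ((hR' x (δ₂, n l) (hx.trans hδ₁₂).le le_rfl).1 hRx).mono Subset.rfl hcc hcd hcdle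
      have h3 := tree_pred hr hcd h2 (hn l) hx.le
      exact dec_of_mt hc₂ hcd hR₂ (KLe.trans hcd hcc hc₂ hcdle (KLe.trans hcc he₂ hc₂ hccle he₂c₂)) hx.le le_rfl h3
  have hprom : ∀ cc ∈ PP o i, KLe o cc ⟨q₂.res i, i, δ₂, a₂⟩ → ∀ R', Dec o (PP o i) r cc δ₂ R' →
      ∀ Gn : PName, Gn = bdName o i r D c₀ k v → ∀ Y, DecG o (PP o i) Gn cc δ₂ Y → ∀ fi : Finset ℕ,
      ∃ n ∈ Y, (∀ l, n l ∉ fi) ∧ ∀ l, Sat R' (hv i z₂) δ₂ (δ₂, n l) (Gn.v l) := by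
    rintro cc hcc hccle R' hR' _ rfl Y hY fi
    obtain ⟨cd, hcd, hcdle, n, hn1, hn2, hn3⟩ := hdis δ₂ S₂.b.le S₂.lt fi cc hcc
      (KLe.trans hcc he₂ hc₃ hccle he₂c)
    exact ⟨n, decG_of_mt hcc hcd hY hcdle hn1, hn2, hfor cc hcc hccle R' hR' cd hcd hcdle n hn3⟩
  have hq₄ : addPr q₂ (i + 1) (δ₂, z₂, κ) ∈ A o (i + 1) := by
    refine addPr_A hl ho S₂.A S₂.J S₂.C hz₂ hκ ?_
    intro α hα hδα z hz hzz cc hcc hccle R' hR' Y hY fi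
    obtain rfl : α = δ₂ := le_antisymm (S₂.mx α hα) hδα
    have hzz₂ : z = z₂ := eq_of_cut (hcore₂.Ts _ S₂.C _ hz) (hcore₂.Ts _ S₂.C _ hz₂) hzz
    subst hzz₂
    rw [hz₂a] at hccle
    exact hprom cc hcc hccle R' hR' (g κ) hgκ Y hY fi
  -- (E)
  have hz₂J : i + 1 ∈ (c₃.p.uni q₁).J := p3q.J S₁.J
  have hle₄₂ : CLe o (addPr q₂ (i + 1) (δ₂, z₂, κ)) q₂ := addPr_le _ _ _
  have hle₂₁ : CLe o q₂ q₁ := S₂.le.trans S₁.A.1 p3q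
  have hc₄ : (⟨addPr q₂ (i + 1) (δ₂, z₂, κ), i + 1, δ₂, z₂⟩ : Cnd) ∈ PP o (i + 1) :=
    ⟨rfl, hq₄, S₂.J, S₂.C, hz₂⟩
  have hco₀₁ : co q₁ (i + 1) c₀.α ⊆ co q₁ (i + 1) δ₁ := (A.core S₁.A S₁.J).co_mono hC₀₁ S₁.C hα₁.le
  have hco₃₁ : co (c₃.p.uni q₁) (i + 1) δ₁ = co q₁ (i + 1) δ₁ := p3q.co_eq S₁.J S₁.C
  have hco₁₀ : co q₁ (i + 1) c₀.α = co c₀.p (i + 1) c₀.α := hq₁p.co_eq c₀J c₀C
  have hc₄₀ : KLe o (⟨addPr q₂ (i + 1) (δ₂, z₂, κ), i + 1, δ₂, z₂⟩ : Cnd) c₀ := by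
    refine ⟨(hle₄₂.trans S₁.A.1 hle₂₁).trans c₀A.1 hq₁p, (hα₁.trans hδ₁₂).le, Or.inl c₀j, ?_⟩
    change Agr (co c₀.p c₀.j c₀.α) c₀.α z₂ c₀.t
    rw [c₀j, ← hco₁₀]
    refine (hz₂z₁.mono ?_ hα₁.le).trans hz₁t
    rw [hco₃₁]; exact hco₀₁
  obtain ⟨c₅, hc₅D, hc₅₄⟩ := hD.dn _ hc₄
  have hc₅ := hD.sub hc₅D
  have hc₅₀ := KLe.trans hc₅ hc₄ hc₀ hc₅₄ hc₄₀
  have hc₅' := hc₅
  obtain ⟨c₅j, c₅A, c₅J, c₅C, c₅T⟩ := hc₅'
  have hcore₅ := A.core c₅A c₅J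
  have hrec₅ : Rec c₅ i := Or.inr (by rw [c₅j]; exact hcore₅.us _ c₅C i (Or.inr rfl))
  have hpr₅ : c₅.pr i ∈ PP o i := PP.pr hl hc₅ hrec₅
  have hα₅ : c₅.α < ω_ 1 := hcore₅.Clt _ c₅C
  obtain ⟨e₀, he₀, he₀l, R₅, hR₅⟩ := exists_dec hNN r hα₅ hpr₅
  obtain ⟨e', he', he'l, Y₅, hY₅⟩ := exists_decG hNN (g κ) c₅.α he₀
  have he'5 := KLe.trans he' he₀ hpr₅ he'l he₀l
  have hR₅' := hR₅.mono Subset.rfl he₀ he' he'l
  have hspec₅ : LegSpec o (PP o i) c₅.p i r B g := by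
    have h2 := A.opt c₅A c₅J
    unfold LegOpt at h2
    simpa only [ho] using h2
  have hprm : ((δ₂, z₂, κ) : Ord × Thr × Ord) ∈ c₅.p.Pr (i + 1) := by
    refine hc₅₄.p.Pr (i + 1) S₂.J ?_
    rw [addPr_Pr]; exact Set.mem_insert _ _
  have hco₅ : co c₅.p (i + 1) δ₂ = co (addPr q₂ (i + 1) (δ₂, z₂, κ)) (i + 1) δ₂ := hc₅₄.p.co_eq S₂.J S₂.C
  obtain ⟨n, hnY, -, hnS⟩ := hspec₅.prom _ hprm c₅.α c₅C hc₅₄.α c₅.t c₅T (by
    change Agr (co c₅.p (i + 1) δ₂) δ₂ c₅.t z₂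
    rw [hco₅]; exact hc₅₄.t) e' he' he'5 R₅ hR₅' Y₅ hY₅ ∅
  have hnG : mt o (PP o i) ((g κ).G c₅.α n) e' := (hY₅ n).1 hnY
  have key : ∀ Gn : PName, Gn = bdName o i r D c₀ k v → ∀ n : Fin Gn.k → ℕ, mt o (PP o i) (Gn.G c₅.α n) e' →
      (∀ l, Sat R₅ (hv i c₅.t) c₅.α (c₅.α, n l) (Gn.v l)) → False := by
    rintro _ rfl n hnG hnS
    obtain ⟨e₂, he₂, he₂l, d, hd, he₂d⟩ := hnG e' he' (KLe.refl _)
    obtain ⟨hdP, -, hd3⟩ := hd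
    obtain ⟨e₃, he₃, he₃l, y', hy'1, hy'2⟩ := hd3 c₅.α le_rfl hα₅ e₂ he₂ he₂d
    have hyn : y' = n := by
      funext l
      have := (hr.lvl e₃ he₃ _ _ (hy'1 l)).2 rfl
      exact (Prod.ext_iff.1 this).2.symm
    subst hyn
    have he₃' := KLe.trans he₃ he₂ he' he₃l he₂l
    refine hy'2.2.2 e₃ he₃ (KLe.refl _) ⟨he₃, c₅, hc₅D, hc₅₀, le_rfl, KLe.trans he₃ he' hpr₅ he₃' he'5, R₅,
      hR₅'.mono Subset.rfl he' he₃ he₃', hnS⟩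
  exact key _ hgκ n hnG hnS

end Pool.Agent.Helper919.SD.Tpl0
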