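import Pool.Agent.Helper919_SDT.Stmts

set_option autoImplicit false

/-!
# Countably many dense open sets at once
-/

namespace Pool.Agent.Helper919.SD.Tso

open Ordinal Cardinal Set

variable {o : Ord → Opt} {Prot : Set Ord}

theorem lev_DO {y : Ord} (h : NX o y) {ξ : Ord} (hξ : ξ < ω_ 1) : DO o (PP o y) {c | c ∈ PP o y ∧ ξ < c.α} where
  sub := fun _ hc => hc.1
  op := fun _ hc _ hc' hle => ⟨hc', hc.2.trans_le hle.α⟩
  dn := by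
    intro c hc
    obtain ⟨c', h1, h2, h3⟩ := h.2.1 c hc ξ hξ
    exact ⟨c', ⟨h1, h3⟩, h2⟩

theorem dec_le {y : Ord} {p : ℕ → Cond} (hA : ∀ n, p n ∈ A o y) (hd : ∀ n, CLe o (p (n + 1)) (p n)) {m n : ℕ}
    (h : m ≤ n) : CLe o (p n) (p m) := by
  induction n, h using Nat.le_induction with
  | base => exact CLe.refl _
  | succ n _ ih => exact CLe.trans (A.nrm (hA m)) (hd n) ih

/-- A node above lies in the dense open set. -/
theorem node_up {y : Ord} {q p : Cond} (hq : q ∈ A o y) (hp : p ∈ A o y) (hle : CLe o q p) {β γ : Ord}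
    (hβ : β ∈ p.C y) (hγ : γ ∈ q.C y) (hlt : β < γ) {D : Set Cnd} (hD : DO o (PP o y) D)
    (h : ∀ t ∈ p.T y β, (⟨p, y, β, t⟩ : Cnd) ∈ D) {t : Thr} (ht : t ∈ q.T y γ) : (⟨q, y, γ, t⟩ : Cnd) ∈ D := by
  have hJ : y ∈ p.J := (A.nrm hp).mem_J hβ
  have hcore := A.core hq (hle.J hJ)
  have h1 := hcore.L2 β (hle.C _ hJ hβ) γ hγ hlt t ht
  rw [hle.T _ hJ _ hβ] at h1
  refine hD.op _ (h _ h1) _ ⟨rfl, hq, hle.J hJ, hγ, ht⟩ ⟨hle, hlt.le, Or.inl rfl, ?_⟩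
  show Agr (co p y β) β t (cut (co q y β) β t)
  rw [hle.co_eq hJ hβ]
  exact (agr_cut _ _ _).symm

end Pool.Agent.Helper919.SD.Tso

namespace Pool.Agent.Helper919.SD

open Ordinal Cardinal Set Tso

/-- S_omega. -/
theorem job_so (hs : St_sig) : St_so := by
  intro o Prot hl y hSS hNX p hp D hD ξ hξ
  have hstep : ∀ (n : ℕ) (x : {x : Cond // x ∈ A o y}), ∃ x' : {x : Cond // x ∈ A o y}, CLe o x'.1 x.1 ∧
      ∃ β ∈ x'.1.C y, ∀ t ∈ x'.1.T y β, (⟨x'.1, y, β, t⟩ : Cnd) ∈ D n := by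
    rintro n ⟨x, hx⟩
    obtain ⟨q, hq, hqx, h⟩ := hSS x hx (D n) (hD n)
    exact ⟨⟨q, hq⟩, hqx, h⟩
  choose F hF1 β hβ hF2 using hstep
  obtain ⟨seq, hseq0, hseqS⟩ : ∃ seq : ℕ → {x : Cond // x ∈ A o y}, seq 0 = ⟨p, hp⟩ ∧
      ∀ n, seq (n + 1) = F n (seq n) :=
    ⟨fun n => Nat.rec (⟨p, hp⟩ : {x : Cond // x ∈ A o y}) (fun n x => F n x) n, rfl, fun n => rfl⟩
  let ps : ℕ → Cond := fun n => (seq n).1
  have hA : ∀ n, ps n ∈ A o y := fun n => (seq n).2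
  have hd : ∀ n, CLe o (ps (n + 1)) (ps n) := fun n => by
    show CLe o (seq (n + 1)).1 (seq n).1
    rw [hseqS]; exact hF1 n (seq n)
  let b : ℕ → Ord := fun n => β n (seq n)
  have hb : ∀ n, b n ∈ (ps (n + 1)).C y := fun n => by
    show b n ∈ (seq (n + 1)).1.C y
    rw [hseqS]; exact hβ n (seq n)
  have hbD : ∀ n, ∀ t ∈ (ps (n + 1)).T y (b n), (⟨ps (n + 1), y, b n, t⟩ : Cnd) ∈ D n := fun n => by
    show ∀ t ∈ (seq (n + 1)).1.T y (b n), (⟨(seq (n + 1)).1, y, b n, t⟩ : Cnd) ∈ D n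
    rw [hseqS]; exact hF2 n (seq n)
  have hb1 : ∀ n, b n < ω_ 1 := fun n => (A.core' (hA (n + 1)) (hb n)).Clt _ (hb n)
  obtain ⟨q', hq'A, hq'le, _, _, _⟩ := hs o Prot hl y ps hA hd
  have hsup : max ξ (⨆ n, b n) < ω_ 1 := max_lt hξ (Ordinal.iSup_lt_omega_one hb1)
  obtain ⟨q, hqA, hqq', γ, hγ, hγD⟩ := hSS q' hq'A _ (lev_DO hNX hsup)
  have hqT : (q.T y γ).Nonempty := (A.core' hqA hγ).Tn γ hγ
  obtain ⟨t0, ht0⟩ := hqT
  have hγ1 : max ξ (⨆ n, b n) < γ := (hγD t0 ht0).2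
  refine ⟨q, hqA, ?_, γ, hγ, (le_max_left _ _).trans_lt hγ1, fun t ht m => ?_⟩
  · have h1 : CLe o q (ps 0) := CLe.trans (A.nrm (hA 0)) hqq' (hq'le 0)
    have h2 : ps 0 = p := by show (seq 0).1 = p; rw [hseq0]
    rwa [h2] at h1
  · have hle : CLe o q (ps (m + 1)) := CLe.trans (A.nrm (hA _)) hqq' (hq'le _)
    refine node_up hqA (hA (m + 1)) hle (hb m) hγ ?_ (hD m) (hbD m) ht
    exact (Ordinal.le_iSup b m).trans_lt ((le_max_right _ _).trans_lt hγ1)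

/-- Countable families of dense open sets. -/
theorem job_nn : St_nn := by
  intro o Prot hl y hSO D hD c hc
  obtain ⟨hj, hcA, hcJ, hcC, hcT⟩ := hc
  have hcore0 := A.core hcA hcJ
  obtain ⟨q, hqA, hqp, β, hβ, hαβ, hall⟩ := hSO c.p hcA D hD c.α (hcore0.Clt _ hcC)
  have hcore := A.core' hqA hβ
  obtain ⟨z, hz⟩ := hcore.Tn β hβ
  have hcT' : c.t ∈ q.T y c.α := by rw [hqp.T _ hcJ _ hcC]; exact hcT
  obtain ⟨z', hz', h1, _⟩ := hcore.L3 c.α (hqp.C _ hcJ hcC) β hβ hαβ 0 (zero_le (a := y)) c.t hcT' z hz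
    (fun i hi => absurd hi.2 (not_lt.2 (zero_le (a := i))))
  refine ⟨⟨q, y, β, z'⟩, ⟨rfl, hqA, hqp.J hcJ, hβ, hz'⟩, ⟨hqp, hαβ.le, Or.inl hj, ?_⟩, fun m => hall z' hz' m⟩
  rw [hj, ← hqp.co_eq hcJ hcC]
  exact h1

end Pool.Agent.Helper919.SD
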