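import Pool.Agent.Helper919_SDT.Stmts

set_option autoImplicit false

namespace Pool.Agent.Helper919.SD.TssL

open Ordinal Cardinal Set

variable {o : Ord → Opt} {Prot : Set Ord}

/-! ### Bookkeeping -/

theorem book {S Tk : Type*} (Inv : ℕ → S → Prop) (R : ℕ → S → S → Prop) (tasks : ℕ → S → Set Tk)
    (done : ℕ → S → S → Tk → Prop) (hc : ∀ k s, Inv k s → (tasks k s).Countable)
    (hm : ∀ k s s', Inv k s → Inv (k + 1) s' → R k s s' → tasks k s ⊆ tasks (k + 1) s')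
    (hstep : ∀ k s, Inv k s → ∀ τ ∈ tasks k s, ∃ s', Inv (k + 1) s' ∧ R k s s' ∧ done k s s' τ)
    (hne : ∀ k s, Inv k s → (tasks k s).Nonempty)
    (s₀ : S) (h₀ : Inv 0 s₀) :
    ∃ f : ℕ → S, f 0 = s₀ ∧ (∀ k, Inv k (f k)) ∧ (∀ k, R k (f k) (f (k + 1))) ∧
      ∀ m, ∀ τ ∈ tasks m (f m), ∃ k ≥ m, done k (f k) (f (k + 1)) τ := by
  classical
  have henum : ∀ k s, Inv k s → ∃ e : ℕ → Tk, tasks k s = range e := fun k s h =>
    (hc k s h).exists_eq_range (hne k s h)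
  have : Nonempty Tk := ⟨(hne 0 s₀ h₀).some⟩
  choose! en hen using henum
  let X : ℕ → Type _ := fun k => {x : S × (ℕ → ℕ → Tk) // Inv k x.1 ∧ ∀ m l, x.2 m l ∈ tasks k x.1}
  have hex : ∀ k (x : X k), ∃ x' : X (k + 1), R k x.1.1 x'.1.1 ∧
      done k x.1.1 x'.1.1 (x.1.2 (Nat.unpair k).1 (Nat.unpair k).2) ∧ (∀ m ≤ k, x'.1.2 m = x.1.2 m) ∧
      ∀ m > k, x'.1.2 m = en (k + 1) x'.1.1 := by
    rintro k ⟨⟨s, E⟩, hI, hE⟩
    obtain ⟨s', h1, h2, h3⟩ := hstep k s hI _ (hE (Nat.unpair k).1 (Nat.unpair k).2)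
    refine ⟨⟨(s', fun m l => if m ≤ k then E m l else en (k + 1) s' l), h1, ?_⟩, h2, h3, ?_, ?_⟩
    · intro m l
      dsimp only
      split_ifs with hmk
      · exact hm k s s' hI h1 h2 (hE m l)
      · rw [hen (k + 1) s' h1]; exact mem_range_self _
    · intro m hmk
      funext l
      simp [hmk]
    · intro m hmk
      funext l
      simp [not_le.2 hmk]
  choose nx hnx1 hnx2 hnx3 hnx4 using hex
  let f : ∀ k, X k := fun k => Nat.rec (motive := fun k => X k)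
    ⟨(s₀, fun _ => en 0 s₀), h₀, fun m l => by rw [hen 0 s₀ h₀]; exact mem_range_self _⟩ nx k
  have hf : ∀ k, f (k + 1) = nx k (f k) := fun k => rfl
  have hE1 : ∀ m, (f m).1.2 m = en m (f m).1.1 := by
    intro m
    cases m with
    | zero => rfl
    | succ m => rw [hf]; exact hnx4 m (f m) (m + 1) (Nat.lt_succ_self m)
  have hE2 : ∀ m k, m ≤ k → (f k).1.2 m = en m (f m).1.1 := by
    intro m k hmk
    induction k, hmk using Nat.le_induction with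
    | base => exact hE1 m
    | succ k hmk ih => rw [hf, hnx3 k (f k) m hmk, ih]
  refine ⟨fun k => (f k).1.1, rfl, fun k => (f k).2.1, fun k => ?_, fun m τ hτ => ?_⟩
  · change R k (f k).1.1 (f (k + 1)).1.1
    rw [hf]; exact hnx1 k (f k)
  · rw [hen m _ (f m).2.1] at hτ
    obtain ⟨l, rfl⟩ := hτ
    refine ⟨Nat.pair m l, Nat.left_le_pair m l, ?_⟩
    have h := hnx2 (Nat.pair m l) (f (Nat.pair m l))
    rw [Nat.unpair_pair] at h
    dsimp only at h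
    rw [hE2 m _ (Nat.left_le_pair m l)] at h
    exact h

/-! ### Good conditions -/

theorem below_self {q : Cond} {x δ : Ord} (h : LegCore q x) (hδ : δ ∈ q.C x) {t : Thr} (ht : t ∈ q.T x δ) :
    below x t = t := by
  funext i ξ n
  by_cases hi : i < x
  · rw [below_of_lt hi]
  · rw [below_of_le (not_lt.1 hi)]
    exact (eq_zero_of_cut (h.Ts _ hδ _ ht) fun h' => hi (co_lt h'.1)).symm

theorem good_at {N : Set U} {δ : Ord} {gs : Option Ord} {x : Ord} {q : Cond} (h : GoodQ o N δ gs x q) {z : Ord}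
    (hz : z ≤ x) (hzN : U.ord z ∈ N) :
    z ∈ q.J ∧ δ ∈ q.C z ∧ q.T z δ = below z '' q.T x δ ∧ (z = x ∨ z ∈ q.u x δ) := by
  have hcore := A.core h.A h.J
  rcases hz.lt_or_eq with hz | rfl
  · have hu : z ∈ q.u x δ := by rw [h.u]; exact ⟨hz, Or.inl hzN⟩
    exact ⟨(hcore.L1J _ h.C _ hu).1, (hcore.L1J _ h.C _ hu).2, hcore.L1T _ h.C _ hu, Or.inr hu⟩
  · refine ⟨h.J, h.C, ?_, Or.inl rfl⟩
    ext t
    constructor
    · intro ht; exact ⟨t, ht, below_self hcore h.C ht⟩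
    · rintro ⟨t', ht', rfl⟩; rw [below_self hcore h.C ht']; exact ht'

theorem lt_delta {N : Set U} {δ : Ord} (hN : Basic o N δ) {y : Ord} {p : Cond} (hp : p ∈ A o y)
    (hpN : U.cond p ∈ N) {j α : Ord} (hα : α ∈ p.C j) : α < δ := by
  have hj := (A.nrm hp).mem_J hα
  exact (hN.ord α ((A.core hp hj).Clt α hα)).1 (hN.C p y hpN hp j hj α hα)

/-- The last recognised index. -/
theorem last_rec {y : Ord} {p : Cond} (hp : LegCore p y) {α : Ord} (hα : α ∈ p.C y) {x : Ord} (hx : x < y) :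
    ∃ s ∈ p.u y α, s ≤ x ∧ ∀ z ∈ p.u y α, z ≤ x → z ≤ s := by
  have hy0 : 0 < y := lt_of_le_of_lt zero_le hx
  have h0 := hp.u0 α hα hy0
  set S : Set Ord := {z | z ∈ p.u y α ∧ z ≤ x} with hS
  have hb : BddAbove S := ⟨x, fun z hz => hz.2⟩
  have hne : S.Nonempty := ⟨0, h0, zero_le⟩
  have hle : sSup S ≤ x := csSup_le hne fun z hz => hz.2
  refine ⟨sSup S, ?_, hle, fun z hz hzx => le_csSup hb ⟨hz, hzx⟩⟩
  by_contra hcon
  have hpos : 0 < sSup S := by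
    rcases (zero_le : (0 : Ord) ≤ sSup S).lt_or_eq with h | h
    · exact h
    · rw [← h] at hcon; exact absurd h0 hcon
  refine hcon (hp.ucl α hα _ (hle.trans_lt hx) hpos fun w hw => ?_)
  obtain ⟨v, hv, hwv⟩ := exists_lt_of_lt_csSup hne hw
  refine ⟨v, hv.1, hwv, lt_of_le_of_ne (le_csSup hb hv) ?_⟩
  rintro rfl
  exact hcon hv.1

/-- STEP. -/
theorem step {N : Set U} {δ : Ord} {gs : Option Ord} (hN : Basic o N δ) {y : Ord} (hy : Order.IsSuccLimit y)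
    {p : Cond} (hp : p ∈ A o y) (hpN : U.cond p ∈ N) {α : Ord} (hα : α ∈ p.C y) {t : Thr} (ht : t ∈ p.T y α)
    {x x' : Ord} (hx' : x' < y) (hxx : x ≤ x') (hxN : U.ord x ∈ N) {q : Cond} (hq : GoodQ o N δ gs x' q)
    (hqp : CLe o q (p.res x')) {a : Thr} (ha : a ∈ q.T x δ) (hag : Agr {i | i ∈ co p y α ∧ i < x} α a t) :
    ∃ a' ∈ q.T x' δ, below x a' = a ∧ Agr {i | i ∈ co p y α ∧ i < x'} α a' t := by
  have hyJ : y ∈ p.J := (A.nrm hp).mem_J hα
  have hcore := A.core hp hyJ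
  obtain ⟨s, hs, hsx', hmax⟩ := last_rec hcore hα hx'
  have hco : ∀ i ∈ co p y α, i < x' → i < s := by
    rintro i ⟨hiy, hi | hi⟩ hix
    · exact lt_of_lt_of_le (lt_add_one i) (hmax _ hi (Order.add_one_le_of_lt hix))
    · exact absurd hi ((hy.succ_lt (hix.trans hx')).ne)
  have hgx := good_at hq hxx hxN
  rw [hgx.2.2.1] at ha
  obtain ⟨a₁, ha₁, rfl⟩ := ha
  rcases le_or_gt s x with hsx | hxs
  · refine ⟨a₁, ha₁, rfl, fun i hi ξ hξ n => ?_⟩
    have hix : i < x := (hco i hi.1 hi.2).trans_le hsx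
    rw [← hag i ⟨hi.1, hix⟩ ξ hξ n, below_of_lt hix]
  · have hsN : U.ord s ∈ N := hN.u p y hpN hp y hyJ α hα s hs
    obtain ⟨hsJ, hδs, hTs, -⟩ := good_at hq hsx' hsN
    have hαδ : α < δ := lt_delta hN hp hpN hα
    have hsp := hcore.L1J α hα s hs
    have hsp' : s ∈ (p.res x').J := ⟨hsp.1, hsx'⟩
    have hαs' : α ∈ (p.res x').C s := by rw [res_C _ _ hsx']; exact hsp.2
    have hαs : α ∈ q.C s := hqp.C s hsp' hαs'
    have htS : below s t ∈ q.T s α := by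
      rw [hqp.T s hsp' α hαs', res_T _ _ hsx', hcore.L1T α hα s hs]
      exact mem_image_of_mem _ ht
    have hcoq : co q s α = {i | i ∈ co p y α ∧ i < s} := by
      rw [hqp.co_eq hsp' hαs', res_co _ _ hsx', hcore.co_eq hα hs]
    have hb : below s a₁ ∈ q.T s δ := by rw [hTs]; exact mem_image_of_mem _ ha₁
    have hAgr : Agr {i | i ∈ co q s α ∧ i < x} α (below s a₁) (below s t) := by
      intro i hi ξ hξ n
      have hi1 := hi.1
      rw [hcoq] at hi1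
      rw [below_of_lt hi1.2, below_of_lt hi1.2, ← hag i ⟨hi1.1, hi.2⟩ ξ hξ n, below_of_lt hi.2]
    obtain ⟨b', hb', h1, h2⟩ := (A.core hq.A hsJ).L3 α hαs δ hδs hαδ x hxs.le (below s t) htS _ hb hAgr
    rw [hTs] at hb'
    obtain ⟨a', ha', rfl⟩ := hb'
    refine ⟨a', ha', ?_, fun i hi ξ hξ n => ?_⟩
    · rw [below_below hxs.le, below_below hxs.le] at h2; exact h2
    · have his := hco i hi.1 hi.2
      have h3 := h1 i (by rw [hcoq]; exact ⟨hi.1, his⟩) ξ hξ n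
      rw [below_of_lt his, below_of_lt his] at h3
      exact h3

/-! ### The task set is dense -/

theorem taskset_do (hl : Legit o Prot) {y : Ord} (ham : AM o y) {x : Ord} (hx : x < y) {c₀ : Cnd}
    (hc₀ : c₀ ∈ PP o y) {D : Set Cnd} (hD : DO o (PP o y) D) : DO o (PP o x) (TaskSet o x c₀ D) where
  sub c hc := hc.1
  op := by
    rintro c ⟨hc, h⟩ c' hc' hle
    refine ⟨hc', ?_⟩
    rcases h with ⟨e, he, h1, h2, h3⟩ | h
    · exact Or.inl ⟨e, he, h1, h2, KLe.trans hc' hc (PP.pr hl (hD.sub he) h2) hle h3⟩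
    · right
      rintro ⟨c'', h1, h2, h3⟩
      exact h ⟨c'', h1, KLe.trans h1 hc' hc h2 hle, h3⟩
  dn := by
    intro c hc
    by_cases h : ∃ c'' ∈ PP o x, KLe o c'' c ∧ Ext o c'' c₀ x
    · obtain ⟨c'', h1, h2, h3⟩ := h
      obtain ⟨c₁, h4, h5, h6, h7⟩ := ham c₀ hc₀ x hx c'' h1 h3
      obtain ⟨c₂, h8, h9⟩ := hD.dn c₁ h4
      have h8' := hD.sub h8
      have h10 : Rec c₂ x := KLe.rec_mono h8' h4 h9 h6 hl
      have h11 := PP.pr hl h8' h10
      have h12 := PP.pr hl h4 h6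
      refine ⟨c₂.pr x, ⟨h11, Or.inl ⟨c₂, h8, KLe.trans h8' h4 hc₀ h9 h5, h10, KLe.refl _⟩⟩, ?_⟩
      exact KLe.trans h11 h1 hc (KLe.trans h11 h12 h1 (KLe.pr hl h8' h4 h9 h6) h7) h2
    · exact ⟨c, ⟨hc, Or.inr h⟩, KLe.refl _⟩

/-! ### A cofinal sequence -/

theorem exists_ys {N : Set U} {δ : Ord} (hN : Basic o N δ) {y : Ord} (hy : Order.IsSuccLimit y) :
    ∃ ys : ℕ → Ord, ys 0 = 0 ∧ StrictMono ys ∧ (∀ k, U.ord (ys k) ∈ N ∧ ys k < y) ∧
      ∀ z < y, U.ord z ∈ N → ∃ k, z ≤ ys k := by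
  classical
  have hy0 : 0 < y := by
    have := hy.bot_lt
    rwa [Ordinal.bot_eq_zero] at this
  have hδ0 : 0 < δ := by
    have := hN.lim.bot_lt
    rwa [Ordinal.bot_eq_zero] at this
  have h0N : U.ord 0 ∈ N := (hN.ord 0 (hδ0.trans hN.lt)).2 hδ0
  set S : Set Ord := {z | z < y ∧ U.ord z ∈ N} with hS
  have hSc : S.Countable := by
    have : S ⊆ (fun z => U.ord z) ⁻¹' N := fun z hz => hz.2
    refine (hN.cnt.preimage ?_).mono this
    intro a b hab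
    exact U.ord.inj hab
  obtain ⟨e, he⟩ := hSc.exists_eq_range ⟨0, hy0, h0N⟩
  have heS : ∀ k, e k ∈ S := fun k => by rw [he]; exact mem_range_self k
  let ys : ℕ → Ord := fun k => Nat.rec (0 : Ord) (fun k a => max a (e k) + 1) k
  have hys0 : ys 0 = 0 := rfl
  have hys1 : ∀ k, ys (k + 1) = max (ys k) (e k) + 1 := fun k => rfl
  have hysS : ∀ k, ys k ∈ S := by
    intro k
    induction k with
    | zero => exact ⟨hy0, h0N⟩
    | succ k ih =>
      rw [hys1]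
      have hm : max (ys k) (e k) ∈ S := by
        rcases max_choice (ys k) (e k) with h | h
        · rw [h]; exact ih
        · rw [h]; exact heS k
      exact ⟨hy.succ_lt hm.1, (hN.succ _).1 hm.2⟩
  refine ⟨ys, hys0, strictMono_nat_of_lt_succ fun k => ?_, fun k => ⟨(hysS k).2, (hysS k).1⟩, fun z hz hzN => ?_⟩
  · rw [hys1]
    exact lt_of_le_of_lt (le_max_left _ (e k)) (lt_add_one _)
  · have : z ∈ S := ⟨hz, hzN⟩
    rw [he] at this
    obtain ⟨k, rfl⟩ := this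
    exact ⟨k + 1, by rw [hys1]; exact (le_max_right _ _).trans (lt_add_one _).le⟩

/-! ### The states of the construction -/

structure State where
  p : Cond
  g : ℕ → Cond
  q : Cond

structure Inv (o : Ord → Opt) (N : Set U) (δ : Ord) (y : Ord) (ys : ℕ → Ord) (p0 : Cond) (k : ℕ) (s : State) :
    Prop where
  pN : U.cond s.p ∈ N
  pA : s.p ∈ A o y
  p0 : CLe o s.p p0
  sq : Sq o N (ys k) s.g
  gen : ∀ z ≤ ys k, U.ord z ∈ N → Gen o N s.g z
  ov : ∃ m, CLe o (s.g m) (s.p.res (ys k))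
  good : GoodQ o N δ none (ys k) s.q
  le : ∀ n, CLe o s.q (s.g n)

def tasks (δ : Ord) (y : Ord) (ys : ℕ → Ord) (m : ℕ) (s : State) : Set (Ord × Thr × ℕ × Thr) :=
  {τ | τ.2.2.1 ≤ m ∧ τ.1 ∈ s.p.C y ∧ τ.2.1 ∈ s.p.T y τ.1 ∧ τ.2.2.2 ∈ s.q.T (ys τ.2.2.1) δ ∧
    Agr {i | i ∈ co s.p y τ.1 ∧ i < ys τ.2.2.1} τ.1 τ.2.2.2 τ.2.1}

def RR (o : Ord → Opt) (ys : ℕ → Ord) (k : ℕ) (s s' : State) : Prop :=
  CLe o s'.p s.p ∧ CLe o (s'.q.res (ys k)) s.q

def Done (δ : Ord) (y : Ord) (ys : ℕ → Ord) (D : Set Cnd) (k : ℕ) (s s' : State) (τ : Ord × Thr × ℕ × Thr) : Prop :=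
  ∃ α' ∈ s'.p.C y, τ.1 ≤ α' ∧ ∃ t' ∈ s'.p.T y α', (⟨s'.p, y, α', t'⟩ : Cnd) ∈ D ∧
    Agr (co s.p y τ.1) τ.1 t' τ.2.1 ∧ ∃ a' ∈ s.q.T (ys k) δ, below (ys τ.2.2.1) a' = τ.2.2.2 ∧
      Agr {i | i ∈ co s'.p y α' ∧ i < ys k} α' a' t'

theorem Inv.qp {N : Set U} {δ y : Ord} {ys : ℕ → Ord} {p0 : Cond} {k : ℕ} {s : State}
    (h : Inv o N δ y ys p0 k s) : CLe o s.q (s.p.res (ys k)) := by
  obtain ⟨m, hm⟩ := h.ov
  exact (h.le m).trans (nrm_res (A.nrm h.pA) _) hm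

theorem main_step (hl : Legit o Prot) (hgo : St_go) {N : Set U} {δ : Ord} (hM : Mdl o N δ) {y : Ord}
    (hy : Order.IsSuccLimit y) {D : Set Cnd} (hD : DO o (PP o y) D) (hDN : U.st D ∈ N) (ham : AM o y)
    (hLL : ∀ z < y, LLp o Prot z) (hSS : ∀ z < y, SS o z) {ys : ℕ → Ord} (hys : StrictMono ys)
    (hysN : ∀ k, U.ord (ys k) ∈ N ∧ ys k < y) {p0 : Cond} (hp0 : p0 ∈ A o y) {k : ℕ} {s : State}
    (hs : Inv o N δ y ys p0 k s) {τ : Ord × Thr × ℕ × Thr} (hτ : τ ∈ tasks δ y ys k s) :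
    ∃ s', Inv o N δ y ys p0 (k + 1) s' ∧ RR o ys k s s' ∧ Done δ y ys D k s s' τ := by
  have hN := hM.basic
  obtain ⟨α, t, j, a⟩ := τ
  obtain ⟨hjk, hα, ht, ha, hag⟩ := hτ
  dsimp only at hjk hα ht ha hag
  set x := ys k with hx
  have hxy : x < y := (hysN k).2
  have hxN : U.ord x ∈ N := (hysN k).1
  have hqp := hs.qp
  have hyJ : y ∈ s.p.J := (A.nrm hs.pA).mem_J hα
  obtain ⟨a', ha', hba, hag'⟩ := step hN hy hs.pA hs.pN hα ht hxy (hys.monotone hjk) (hysN j).1 hs.good hqp ha hag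
  -- the node of `p`
  have hpres : s.p.res y = s.p := res_self (A.nrm hs.pA) fun j hj => A.le hs.pA hj
  set c₀ : Cnd := ⟨s.p, y, α, t⟩ with hc₀
  have hc₀P : c₀ ∈ PP o y := PP.mk rfl hs.pA hyJ hα ht
  have hc₀N : U.cnd c₀ ∈ N := by
    have := hN.cnd s.p y y α t hs.pN hs.pA hyJ hα ht
    rwa [hpres] at this
  obtain ⟨n, β, hβ, hall⟩ := hs.gen x le_rfl hxN _ (hM.task x c₀ D hxN hc₀N hDN) (taskset_do hl ham hxy hc₀P hD)
  -- the node below `a'`
  have hgA := hs.sq.A n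
  have hgN := hs.sq.mem n
  have hxJ : x ∈ (s.g n).J := (A.nrm hgA).mem_J hβ
  have hgres : (s.g n).res x = s.g n := res_self (A.nrm hgA) fun j hj => A.le hgA hj
  have hβδ : β < δ := lt_delta hN hgA hgN hβ
  have hle := hs.le n
  have hβq : β ∈ s.q.C x := hle.C x hxJ hβ
  have hcq : co s.q x β = co (s.g n) x β := hle.co_eq hxJ hβ
  have hcorq := A.core hs.good.A hs.good.J
  have htb : cut (co (s.g n) x β) β a' ∈ (s.g n).T x β := by
    rw [← hcq, ← hle.T x hxJ β hβ]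
    exact hcorq.L2 β hβq δ hs.good.C hβδ a' ha'
  have hcT := hall _ htb
  rw [hgres] at hcT
  set c : Cnd := ⟨s.g n, x, β, cut (co (s.g n) x β) β a'⟩ with hc
  have hcP : c ∈ PP o x := hcT.1
  have hcN : U.cnd c ∈ N := by
    have := hN.cnd (s.g n) x x β _ hgN hgA hxJ hβ htb
    rwa [hgres] at this
  set ca : Cnd := ⟨s.q, x, δ, a'⟩ with hca
  have hcaP : ca ∈ PP o x := PP.mk rfl hs.good.A hs.good.J hs.good.C ha'
  have hcac : KLe o ca c := ⟨hle, hβδ.le, Or.inl rfl, (agr_cut _ _ _).symm⟩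
  have hαδ : α < δ := lt_delta hN hs.pA hs.pN hα
  have hsub : {i | i ∈ co c₀.p c₀.j c₀.α ∧ i < x} ⊆ co ca.p x ca.α := by
    rintro i ⟨⟨hiy, hi⟩, hix⟩
    change i < y at hiy
    change i + 1 ∈ s.p.u y α ∨ i + 1 = y at hi
    refine ⟨hix, ?_⟩
    change i + 1 ∈ s.q.u x δ ∨ i + 1 = x
    rcases hi with hi | hi
    · rcases lt_or_eq_of_le (Order.add_one_le_of_lt hix) with h | h
      · left; rw [hs.good.u]; exact ⟨h, Or.inl (hN.u s.p y hs.pN hs.pA y hyJ α hα _ hi)⟩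
      · right; exact h
    · exact absurd hi (hy.succ_lt hiy).ne
  have hExt : Ext o ca c₀ x := ⟨hqp, hαδ.le, hsub, hag'⟩
  have hfirst : ∃ c' ∈ D, KLe o c' c₀ ∧ Rec c' x ∧ KLe o c (c'.pr x) := by
    rcases hcT.2 with h | h
    · exact h
    · exact absurd ⟨ca, hcaP, hcac, hExt⟩ h
  obtain ⟨c', hc'D, hc'N, hc'0, hc'x, hcc'⟩ := hM.wT x c₀ D c hxN hc₀N hDN hcN hfirst
  have hc'P := hD.sub hc'D
  have hcac' : KLe o ca (c'.pr x) := KLe.trans hcaP hcP (PP.pr hl hc'P hc'x) hcac hcc'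
  have hc'P' := hc'P
  have hcopr := PP.co_pr hc'P hc'x
  obtain ⟨hc'j, hc'A, hc'J, hc'C, hc'T⟩ := hc'P'
  have hc'eta : (⟨c'.p, y, c'.α, c'.t⟩ : Cnd) = c' := by
    ext1
    · rfl
    · exact hc'j.symm
    · rfl
    · rfl
  have hp'N : U.cond c'.p ∈ N := (hN.cp c' hc'N).1
  -- GENOVER
  have hxx1 : x < ys (k + 1) := hys (Nat.lt_succ_self k)
  have hx1y : ys (k + 1) < y := (hysN (k + 1)).2
  have hx1N := (hysN (k + 1)).1
  have hover : ∃ m, CLe o (s.g m) ((c'.p.res (ys (k + 1))).res x) := by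
    refine ⟨n, ?_⟩
    rw [res_res _ hxx1.le]
    exact hcc'.p
  obtain ⟨ps, hps, hps0, hpsG, hpso⟩ := hgo o Prot hl x (ys (k + 1)) hxx1
    (fun z hz => hSS z (hz.trans_lt hx1y)) N δ hM hxN hx1N s.g hs.sq hs.gen (c'.p.res (ys (k + 1)))
    (hN.res _ _ hp'N hx1N) (A.res hl hc'A _) hover
  obtain ⟨n₁, β₁, hβ₁, -⟩ := hpsG (ys (k + 1)) le_rfl hx1N (PP o (ys (k + 1))) (hN.all _ hx1N)
    ⟨Subset.rfl, fun _ _ c' hc' _ => hc', fun c hc => ⟨c, hc, KLe.refl _⟩⟩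
  have hdec : ∀ m n, m ≤ n → CLe o (ps n) (ps m) := by
    intro m n hmn
    induction n, hmn using Nat.le_induction with
    | base => exact CLe.refl _
    | succ n hmn ih => exact (hps.dec n).trans (A.nrm (hps.A m)) ih
  have hJ1 : ys (k + 1) ∈ (ps n₁).J := (A.nrm (hps.A n₁)).mem_J hβ₁
  let g' : ℕ → Cond := fun n => ps (n₁ + n)
  have hg'sq : Sq o N (ys (k + 1)) g' := ⟨fun n => hps.mem _, fun n => hps.A _, fun n => hps.dec _⟩
  have hg'gen : ∀ z ≤ ys (k + 1), U.ord z ∈ N → Gen o N g' z := by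
    intro z hz hzN D' hD'N hD'
    obtain ⟨m, γ, hγ, hm⟩ := hpsG z hz hzN D' hD'N hD'
    have hzJ : z ∈ (ps m).J := (A.nrm (hps.A m)).mem_J hγ
    have hle' : CLe o (ps (n₁ + m)) (ps m) := hdec m _ (Nat.le_add_left m n₁)
    refine ⟨m, γ, hle'.C z hzJ hγ, fun t' ht' => ?_⟩
    change t' ∈ (ps (n₁ + m)).T z γ at ht'
    have ht'' := ht'
    rw [hle'.T z hzJ γ hγ] at ht'
    have h1 := hm t' ht'
    have hzJ' : z ∈ (ps (n₁ + m)).J := hle'.J hzJ
    refine hD'.op _ h1 _ (PP.mk rfl (A.res hl (hps.A _) z) ⟨hzJ', le_rfl⟩ ?_ ?_) ?_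
    · change γ ∈ ((ps (n₁ + m)).res z).C z
      rw [res_C _ _ le_rfl]; exact hle'.C z hzJ hγ
    · change t' ∈ ((ps (n₁ + m)).res z).T z γ
      rw [res_T _ _ le_rfl]; exact ht''
    · exact ⟨hle'.res z, le_rfl, Or.inl rfl, Agr.refl _ _ _⟩
  have hqk : ∀ n, CLe o s.q ((g' n).res x) := by
    intro n
    obtain ⟨m, hm⟩ := hpso (n₁ + n)
    exact (hs.le m).trans (nrm_res (A.nrm (hps.A _)) _) hm
  obtain ⟨q', hq'1, hq'2, hq'3, -⟩ := hLL (ys (k + 1)) hx1y (lt_of_le_of_lt zero_le hxx1) N δ none hN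
    (fun γ h => by simp at h) x hxN hx1N hxx1 g' hg'sq (by simpa [g'] using hJ1)
    (fun z hz hzN => hg'gen z hz.le hzN) s.q hs.good hqk
  refine ⟨⟨c'.p, g', q'⟩, ?_, ⟨hc'0.p, hq'3⟩, ?_⟩
  · refine ⟨hp'N, hc'A, hc'0.p.trans (A.nrm hp0) hs.p0, hg'sq, hg'gen, ⟨0, ?_⟩, hq'1, hq'2⟩
    change CLe o (ps (n₁ + 0)) (c'.p.res (ys (k + 1)))
    rw [← hps0]
    exact hdec 0 _ (Nat.zero_le _)
  · refine ⟨c'.α, hc'C, hc'0.α, c'.t, hc'T, ?_, hc'0.t, a', ha', hba, ?_⟩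
    · rw [hc'eta]; exact hc'D
    · change Agr {i | i ∈ co c'.p y c'.α ∧ i < x} c'.α a' c'.t
      have h := hcac'.t
      change Agr (co (c'.pr x).p x c'.α) c'.α a' (below x c'.t) at h
      rw [hcopr, hc'j] at h
      intro i hi ξ hξ n
      rw [h i hi ξ hξ n, below_of_lt hi.2]

/-- `SS` at limits. -/
theorem job_ssL (hmdl : St_mdl) (hgs : St_gs') (hgo : St_go) (hg0 : St_good0) (hnx : St_nx) (hamS : St_am) :
    St_ssL := by
  intro o Prot hl y hy hSS hLLp hTop p hp D hD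
  have hy0 : 0 < y := by
    have := hy.bot_lt
    rwa [Ordinal.bot_eq_zero] at this
  have hNX := hnx o Prot hl y hSS (hLLp y le_rfl)
  have ham := hamS o Prot hl y hSS (hLLp y le_rfl)
  obtain ⟨p₀, hp₀A, hp₀p, hyJ₀, hC₀⟩ := hNX.1 p hp
  obtain ⟨N, δ, hSN, hM, -⟩ := hmdl o Prot hl (fun _ _ => U.ord 0) {U.ord y, U.cond p₀, U.st D}
    ((Set.countable_singleton _).insert _ |>.insert _)
  have hyN : U.ord y ∈ N := hSN (by simp)
  have hp₀N : U.cond p₀ ∈ N := hSN (by simp)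
  have hDN : U.st D ∈ N := hSN (by simp)
  have hN := hM.basic
  obtain ⟨ys, hys0, hys, hysN, hyscof⟩ := exists_ys hN hy
  have h0N : U.ord 0 ∈ N := by rw [← hys0]; exact (hysN 0).1
  -- the initial state
  obtain ⟨g, hg, hgg0, hgG⟩ := hgs o Prot hl 0 (fun z hz => hSS z (hz.trans_lt hy0)) N δ hM h0N (p₀.res 0)
    (hN.res _ _ hp₀N h0N) (A.res hl hp₀A 0)
  obtain ⟨q₀, hq₀, hq₀g, _⟩ := hg0 o Prot hl N δ none hN 0 g hg
  have hgres : ∀ n, (g n).res 0 = g n := fun n => res_self (A.nrm (hg.A n)) fun j hj => A.le (hg.A n) hj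
  have hinv0 : Inv o N δ y ys p₀ 0 ⟨p₀, g, q₀⟩ := by
    refine ⟨hp₀N, hp₀A, CLe.refl _, by rw [hys0]; exact hg, by rw [hys0]; exact hgG, ⟨0, ?_⟩, by rw [hys0]; exact hq₀,
      fun n => ?_⟩
    · change CLe o (g 0) (p₀.res (ys 0))
      rw [hgg0, hys0]; exact CLe.refl _
    · have := hq₀g n
      rw [hgres n] at this
      exact this
  obtain ⟨f, hf0, hfI, hfR, hfD⟩ := book (Inv o N δ y ys p₀) (RR o ys) (tasks δ y ys) (Done δ y ys D)
    (by
      intro k s hs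
      have h1 : (s.p.C y).Countable := (A.core hs.pA (hs.p0.J hyJ₀)).Cc
      have h2 : tasks δ y ys k s ⊆ ⋃ α ∈ s.p.C y, ⋃ j ∈ {j | j ≤ k},
          (({α} : Set Ord) ×ˢ (s.p.T y α ×ˢ (({j} : Set ℕ) ×ˢ (s.q.T (ys j) δ)))) := by
        rintro ⟨α, t, j, a⟩ ⟨hj, hα, ht, ha, -⟩
        simp only [mem_iUnion]
        exact ⟨α, hα, j, hj, rfl, ht, rfl, ha⟩
      refine (h1.biUnion fun α hα => (Set.to_countable _).biUnion fun j hj => ?_).mono h2
      refine (Set.countable_singleton _).prod (((A.core hs.pA (hs.p0.J hyJ₀)).Tc α hα).prod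
        ((Set.countable_singleton _).prod ?_))
      obtain ⟨h3, h4, -⟩ := good_at hs.good (hys.monotone hj) (hysN j).1
      exact (A.core hs.good.A h3).Tc δ h4)
    (by
      rintro k s s' hs hs' ⟨hR1, hR2⟩ ⟨α, t, j, a⟩ ⟨hj, hα, ht, ha, hag⟩
      dsimp only at hj hα ht ha hag
      have hyJ := hs.p0.J hyJ₀
      refine ⟨hj.trans (Nat.le_succ k), hR1.C y hyJ hα, ?_, ?_, ?_⟩
      · change t ∈ s'.p.T y α
        rw [hR1.T y hyJ α hα]; exact ht
      · change a ∈ s'.q.T (ys j) δ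
        obtain ⟨h3, h4, -⟩ := good_at hs.good (hys.monotone hj) (hysN j).1
        have h5 := hR2.T (ys j) h3 δ h4
        rw [res_T _ _ (hys.monotone hj)] at h5
        rw [h5]; exact ha
      · change Agr {i | i ∈ co s'.p y α ∧ i < ys j} α a t
        rw [hR1.co_eq hyJ hα]; exact hag)
    (fun k s hs τ hτ => main_step hl hgo hM hy hD hDN ham (fun z hz => hLLp z hz.le) hSS hys hysN hp₀A hs hτ)
    (by
      intro k s hs
      obtain ⟨α, hα⟩ := hC₀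
      have hα' : α ∈ s.p.C y := hs.p0.C y hyJ₀ hα
      obtain ⟨t, ht⟩ := (A.core hs.pA (hs.p0.J hyJ₀)).Tn α hα'
      obtain ⟨h3, h4, -⟩ := good_at hs.good (hys.monotone (Nat.zero_le k)) (hysN 0).1
      obtain ⟨a, ha⟩ := (A.core hs.good.A h3).Tn δ h4
      refine ⟨(α, t, 0, a), Nat.zero_le k, hα', ht, ha, ?_⟩
      rintro i ⟨-, hi⟩
      change i < ys 0 at hi
      rw [hys0] at hi
      exact absurd hi (not_lt.2 zero_le))
    ⟨p₀, g, q₀⟩ hinv0
  -- the sequences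
  have hpdec : ∀ m n, m ≤ n → CLe o (f n).p (f m).p := by
    intro m n hmn
    induction n, hmn using Nat.le_induction with
    | base => exact CLe.refl _
    | succ n hmn ih => exact (hfR n).1.trans (A.nrm (hfI m).pA) ih
  have hqdec1 : ∀ k, CLe o (f (k + 1)).q (f k).q := fun k =>
    (CLe.self_res _ _).trans (A.nrm (hfI k).good.A) (hfR k).2
  have hqdec : ∀ m n, m ≤ n → CLe o (f n).q (f m).q := by
    intro m n hmn
    induction n, hmn using Nat.le_induction with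
    | base => exact CLe.refl _
    | succ n hmn ih => exact (hqdec1 n).trans (A.nrm (hfI m).good.A) ih
  have hyJ : ∀ n, y ∈ (f n).p.J := fun n => (hfI n).p0.J hyJ₀
  obtain ⟨q, hq1, hq2, hq3, _, hq4⟩ := hTop hy N δ none hN (fun γ h => by simp at h) hyN ys hys hysN hyscof
    (fun k => (f k).q) (fun k => (hfI k).good) hqdec1 (fun n => (f n).p)
    ⟨fun n => (hfI n).pN, fun n => (hfI n).pA, fun n => (hfR n).1⟩ (hyJ 0)
    (by
      intro n
      refine ⟨n, fun k hk => (hfI k).qp.trans (nrm_res (A.nrm (hfI n).pA) _) ((hpdec n k hk).res _)⟩)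
    {e | ∃ n, (⟨(f n).p, y, e.1, e.2⟩ : Cnd) ∈ D}
    (by
      intro k n α hα t ht a ha hag
      set m := max k n with hm
      have hkm : k ≤ m := le_max_left _ _
      have hnm : n ≤ m := le_max_right _ _
      obtain ⟨h3, h4, -⟩ := good_at (hfI k).good le_rfl (hysN k).1
      have hco : co (f m).p y α = co (f n).p y α := (hpdec n m hnm).co_eq (hyJ n) hα
      have hτ : (α, t, k, a) ∈ tasks δ y ys m (f m) := by
        refine ⟨hkm, (hpdec n m hnm).C y (hyJ n) hα, ?_, ?_, ?_⟩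
        · change t ∈ (f m).p.T y α
          rw [(hpdec n m hnm).T y (hyJ n) α hα]; exact ht
        · change a ∈ (f m).q.T (ys k) δ
          rw [(hqdec k m hkm).T _ h3 δ h4]; exact ha
        · change Agr {i | i ∈ co (f m).p y α ∧ i < ys k} α a t
          rw [hco]; exact hag
      obtain ⟨K, hK, α', hα', hαα', t', ht', hD', hag', a', ha', hba, hag2⟩ := hfD m _ hτ
      refine ⟨K, hkm.trans hK, K + 1, α', hα', hαα', t', ht', ⟨K + 1, hD'⟩, ?_, a', ha', hba, ?_⟩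
      · change Agr (co (f K).p y α) α t' t at hag'
        rw [(hpdec n K (hnm.trans hK)).co_eq (hyJ n) hα] at hag'
        exact hag'
      · exact hag2)
  refine ⟨q, hq1.A, ?_, δ, hq1.C, fun z hz => ?_⟩
  · have h1 : CLe o q (f 0).p := hq2 0
    rw [hf0] at h1
    exact h1.trans (A.nrm hp) hp₀p
  · obtain ⟨n, α', hα', t', ht', ⟨n', hn'⟩, hag⟩ := hq4 ⟨0, by rw [hf0]; exact hC₀⟩ z hz
    dsimp only at hn' hα' ht' hag
    have hP' := hD.sub hn'
    obtain ⟨-, -, hJ', hC', hT'⟩ := hP'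
    change α' ∈ (f n').p.C y at hC'
    have hle : CLe o q (f n').p := hq2 n'
    have hco : co (f n').p y α' = co (f n).p y α' := by
      rw [← hle.co_eq (hyJ n') hC', ← (show CLe o q (f n).p from hq2 n).co_eq (hyJ n) hα']
    refine hD.op _ hn' _ (PP.mk rfl hq1.A hq1.J hq1.C hz) ⟨hle, ?_, Or.inl rfl, ?_⟩
    · exact (lt_delta hN (hfI n').pA (hfI n').pN hC').le
    · change Agr (co (f n').p y α') α' z t'
      rw [hco]; exact hag

end Pool.Agent.Helper919.SD.TssL
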