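import Pool.Agent.Helper919_SDT.TssL

set_option autoImplicit false

namespace Pool.Agent.Helper919.SD.TssN

open Ordinal Cardinal Set
open TssL (book below_self good_at lt_delta taskset_do)

variable {o : Ord → Opt} {Prot : Set Ord}

theorem sq_le {N : Set U} {y : Ord} {p : ℕ → Cond} (hp : Sq o N y p) {m n : ℕ} (hmn : m ≤ n) :
    CLe o (p n) (p m) := by
  induction n, hmn using Nat.le_induction with
  | base => exact CLe.refl _
  | succ n hmn ih => exact (hp.dec n).trans (A.nrm (hp.A m)) ih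

/-- A witness of genericity is inherited by stronger conditions. -/
theorem wit_mono (hl : Legit o Prot) {z y y' : Ord} {g p' : Cond} (hg : g ∈ A o y) (hp' : p' ∈ A o y')
    (hle : CLe o p' g) {D' : Set Cnd} (hD' : DO o (PP o z) D') {β : Ord} (hβ : β ∈ g.C z)
    (h : ∀ t ∈ g.T z β, (⟨g.res z, z, β, t⟩ : Cnd) ∈ D') :
    β ∈ p'.C z ∧ ∀ t ∈ p'.T z β, (⟨p'.res z, z, β, t⟩ : Cnd) ∈ D' := by
  have hzJ : z ∈ g.J := (A.nrm hg).mem_J hβ
  have hβ' := hle.C z hzJ hβ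
  refine ⟨hβ', fun t ht => ?_⟩
  have ht' := ht
  rw [hle.T z hzJ β hβ] at ht'
  refine hD'.op _ (h t ht') _ (PP.mk rfl (A.res hl hp' z) ⟨hle.J hzJ, le_rfl⟩ ?_ ?_)
    ⟨hle.res z, le_rfl, Or.inl rfl, Agr.refl _ _ _⟩
  · change β ∈ (p'.res z).C z
    rw [res_C _ _ le_rfl]; exact hβ'
  · change t ∈ (p'.res z).T z β
    rw [res_T _ _ le_rfl]; exact ht

theorem do_all (z : Ord) : DO o (PP o z) (PP o z) :=
  ⟨Subset.rfl, fun _ _ _ hc' _ => hc', fun c hc => ⟨c, hc, KLe.refl _⟩⟩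

/-- A generic sequence has a good lower bound. -/
theorem exists_good (hl : Legit o Prot) (hg0 : St_good0) {N : Set U} {δ : Ord} (hM : Mdl o N δ) {i : Ord}
    (hiN : U.ord i ∈ N) (hLL : LLp o Prot i) {g : ℕ → Cond} (hg : Sq o N i g)
    (hgen : ∀ z ≤ i, U.ord z ∈ N → Gen o N g z) :
    ∃ q, GoodQ o N δ none i q ∧ ∀ n, CLe o q (g n) := by
  have hN := hM.basic
  obtain ⟨q₀, hq₀, hq₀g, _⟩ := hg0 o Prot hl N δ none hN i g hg
  rcases (zero_le : (0 : Ord) ≤ i).eq_or_lt with h0 | h0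
  · subst h0
    refine ⟨q₀, hq₀, fun n => ?_⟩
    have := hq₀g n
    rwa [res_self (A.nrm (hg.A n)) fun j hj => A.le (hg.A n) hj] at this
  · have hδ0 : 0 < δ := by
      have := hN.lim.bot_lt
      rwa [Ordinal.bot_eq_zero] at this
    have h0N : U.ord 0 ∈ N := (hN.ord 0 (hδ0.trans hN.lt)).2 hδ0
    obtain ⟨n₁, β₁, hβ₁, -⟩ := hgen i le_rfl hiN (PP o i) (hN.all i hiN) (do_all i)
    have hJ1 : i ∈ (g n₁).J := (A.nrm (hg.A n₁)).mem_J hβ₁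
    obtain ⟨q, hq1, hq2, -⟩ := hLL h0 N δ none hN (fun γ h => by simp at h) 0 h0N hiN h0 (fun n => g (n₁ + n))
      ⟨fun n => hg.mem _, fun n => hg.A _, fun n => hg.dec _⟩ (by simpa using hJ1)
      (by
        intro z hz hzN D' hD'N hD'
        obtain ⟨m, γ, hγ, hm⟩ := hgen z hz.le hzN D' hD'N hD'
        obtain ⟨h1, h2⟩ := wit_mono hl (hg.A m) (hg.A (n₁ + m)) (sq_le hg (Nat.le_add_left m n₁)) hD' hγ hm
        exact ⟨m, γ, h1, h2⟩)
      q₀ hq₀ (fun n => hq₀g _)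
    refine ⟨q, hq1, fun n => ?_⟩
    exact (hq2 n).trans (A.nrm (hg.A n)) (sq_le hg (Nat.le_add_left n n₁))

/-! ### The construction -/

structure Inv (o : Ord → Opt) (N : Set U) (i : Ord) (g : ℕ → Cond) (p0 : Cond) (p : Cond) : Prop where
  pN : U.cond p ∈ N
  pA : p ∈ A o (i + 1)
  p0 : CLe o p p0
  ov : ∃ m, CLe o (g m) (p.res i)

def tasks (δ : Ord) (i : Ord) (qi : Cond) (p : Cond) : Set (Ord × Thr × Thr) :=
  {τ | τ.1 ∈ p.C (i + 1) ∧ τ.2.1 ∈ p.T (i + 1) τ.1 ∧ τ.2.2 ∈ qi.T i δ ∧ Agr (co p i τ.1) τ.1 τ.2.2 τ.2.1}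

def RR (o : Ord → Opt) (i : Ord) (g : ℕ → Cond) (k : ℕ) (p p' : Cond) : Prop :=
  CLe o p' p ∧ ∃ m ≥ k, p'.res i = g m

def Done (i : Ord) (D : Set Cnd) (p p' : Cond) (τ : Ord × Thr × Thr) : Prop :=
  ∃ α' ∈ p'.C (i + 1), τ.1 ≤ α' ∧ ∃ s' ∈ p'.T (i + 1) α', Agr (co p (i + 1) τ.1) τ.1 s' τ.2.1 ∧
    Agr (co p' i α') α' τ.2.2 s' ∧ (⟨p', i + 1, α', s'⟩ : Cnd) ∈ D

/-- Below a node of the good condition there is, in the model, an extension of `c₀` in the dense open set. -/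
theorem find (hl : Legit o Prot) {N : Set U} {δ : Ord} (hM : Mdl o N δ) {i : Ord} {gs : Option Ord}
    (hiN : U.ord i ∈ N) {D : Set Cnd} (hD : DO o (PP o (i + 1)) D) (hDN : U.st D ∈ N) (ham : AM o (i + 1))
    {g : ℕ → Cond} (hg : Sq o N i g) (hgen : Gen o N g i) {qi : Cond} (hqi : GoodQ o N δ gs i qi)
    (hqig : ∀ n, CLe o qi (g n)) {p : Cond} (hpN : U.cond p ∈ N) (hpA : p ∈ A o (i + 1))
    (hpg : ∃ m, CLe o (g m) (p.res i)) {α : Ord} (hα : α ∈ p.C (i + 1)) {s : Thr} (hs : s ∈ p.T (i + 1) α)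
    {a : Thr} (ha : a ∈ qi.T i δ) (hag : Agr (co p i α) α a s) :
    ∃ c' ∈ D, U.cnd c' ∈ N ∧ KLe o c' ⟨p, i + 1, α, s⟩ ∧ i ∈ c'.p.u (i + 1) c'.α ∧
      (∃ m, CLe o (g m) (c'.p.res i)) ∧ Agr (co c'.p i c'.α) c'.α a c'.t := by
  have hN := hM.basic
  have hyJ : i + 1 ∈ p.J := (A.nrm hpA).mem_J hα
  have hcore := A.core hpA hyJ
  have hiu : i ∈ p.u (i + 1) α := hcore.us α hα i (Or.inr rfl)
  have hcoi := hcore.co_eq hα hiu
  obtain ⟨m₀, hm₀⟩ := hpg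
  have hqp : CLe o qi (p.res i) := (hqig m₀).trans (nrm_res (A.nrm hpA) _) hm₀
  have hpres : p.res (i + 1) = p := res_self (A.nrm hpA) fun j hj => A.le hpA hj
  set c₀ : Cnd := ⟨p, i + 1, α, s⟩ with hc₀
  have hc₀P : c₀ ∈ PP o (i + 1) := PP.mk rfl hpA hyJ hα hs
  have hc₀N : U.cnd c₀ ∈ N := by
    have := hN.cnd p (i + 1) (i + 1) α s hpN hpA hyJ hα hs
    rwa [hpres] at this
  obtain ⟨n, β, hβ, hall⟩ := hgen _ (hM.task i c₀ D hiN hc₀N hDN) (taskset_do hl ham (lt_add_one i) hc₀P hD)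
  have hgA := hg.A n
  have hgN := hg.mem n
  have hxJ : i ∈ (g n).J := (A.nrm hgA).mem_J hβ
  have hgres : (g n).res i = g n := res_self (A.nrm hgA) fun j hj => A.le hgA hj
  have hβδ : β < δ := lt_delta hN hgA hgN hβ
  have hle := hqig n
  have hβq : β ∈ qi.C i := hle.C i hxJ hβ
  have hcq : co qi i β = co (g n) i β := hle.co_eq hxJ hβ
  have hcorq := A.core hqi.A hqi.J
  have htb : cut (co (g n) i β) β a ∈ (g n).T i β := by
    rw [← hcq, ← hle.T i hxJ β hβ]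
    exact hcorq.L2 β hβq δ hqi.C hβδ a ha
  have hcT := hall _ htb
  rw [hgres] at hcT
  set c : Cnd := ⟨g n, i, β, cut (co (g n) i β) β a⟩ with hc
  have hcP : c ∈ PP o i := hcT.1
  have hcN : U.cnd c ∈ N := by
    have := hN.cnd (g n) i i β _ hgN hgA hxJ hβ htb
    rwa [hgres] at this
  set ca : Cnd := ⟨qi, i, δ, a⟩ with hca
  have hcaP : ca ∈ PP o i := PP.mk rfl hqi.A hqi.J hqi.C ha
  have hcac : KLe o ca c := ⟨hle, hβδ.le, Or.inl rfl, (agr_cut _ _ _).symm⟩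
  have hαδ : α < δ := lt_delta hN hpA hpN hα
  have hsub : {k | k ∈ co c₀.p c₀.j c₀.α ∧ k < i} ⊆ co ca.p i ca.α := by
    rintro k ⟨⟨hiy, hi⟩, hix⟩
    change k + 1 ∈ p.u (i + 1) α ∨ k + 1 = i + 1 at hi
    refine ⟨hix, ?_⟩
    change k + 1 ∈ qi.u i δ ∨ k + 1 = i
    rcases hi with hi | hi
    · rcases lt_or_eq_of_le (Order.add_one_le_of_lt hix) with h | h
      · left; rw [hqi.u]; exact ⟨h, Or.inl (hN.u p (i + 1) hpN hpA (i + 1) hyJ α hα _ hi)⟩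
      · right; exact h
    · exact absurd (Order.add_one_le_of_lt hix) (by rw [hi]; exact not_le.2 (lt_add_one i))
  have hExt : Ext o ca c₀ i := ⟨hqp, hαδ.le, hsub, by
    change Agr {k | k ∈ co p (i + 1) α ∧ k < i} α a s
    rw [← hcoi]; exact hag⟩
  have hfirst : ∃ c' ∈ D, KLe o c' c₀ ∧ Rec c' i ∧ KLe o c (c'.pr i) := by
    rcases hcT.2 with h | h
    · exact h
    · exact absurd ⟨ca, hcaP, hcac, hExt⟩ h
  obtain ⟨c', hc'D, hc'N, hc'0, hc'x, hcc'⟩ := hM.wT i c₀ D c hiN hc₀N hDN hcN hfirst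
  have hc'P := hD.sub hc'D
  have hcac' : KLe o ca (c'.pr i) := KLe.trans hcaP hcP (PP.pr hl hc'P hc'x) hcac hcc'
  have hc'P' := hc'P
  obtain ⟨hc'j, hc'A, hc'J, hc'C, hc'T⟩ := hc'P'
  have hu' : i ∈ c'.p.u (i + 1) c'.α := by
    rcases hc'x with h | h
    · exact absurd (h.trans hc'j) (lt_add_one i).ne
    · rw [hc'j] at h; exact h
  refine ⟨c', hc'D, hc'N, hc'0, hu', ⟨n, hcc'.p⟩, ?_⟩
  have h := hcac'.t
  change Agr (co (c'.p.res i) i c'.α) c'.α a (below i c'.t) at h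
  rw [res_co _ _ le_rfl] at h
  intro k hk ξ hξ n
  rw [h k hk ξ hξ n, below_of_lt (co_lt hk)]

theorem main_step (hl : Legit o Prot) (huni : St_uni) {N : Set U} {δ : Ord} (hM : Mdl o N δ) {i : Ord}
    (hiN : U.ord i ∈ N) {D : Set Cnd} (hD : DO o (PP o (i + 1)) D) (hDN : U.st D ∈ N) (ham : AM o (i + 1))
    {g : ℕ → Cond} (hg : Sq o N i g) (hgen : Gen o N g i) {qi : Cond} (hqi : GoodQ o N δ none i qi)
    (hqig : ∀ n, CLe o qi (g n)) {p0 : Cond} (hp0 : p0 ∈ A o (i + 1)) {k : ℕ} {p : Cond}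
    (hp : Inv o N i g p0 p) {τ : Ord × Thr × Thr} (hτ : τ ∈ tasks δ i qi p) :
    ∃ p', Inv o N i g p0 p' ∧ RR o i g k p p' ∧ Done i D p p' τ := by
  have hN := hM.basic
  obtain ⟨α, s, a⟩ := τ
  obtain ⟨hα, hs, ha, hag⟩ := hτ
  dsimp only at hα hs ha hag
  obtain ⟨c', hc'D, hc'N, hc'0, hu', ⟨n, hn⟩, hag'⟩ :=
    find hl hM hiN hD hDN ham hg hgen hqi hqig hp.pN hp.pA hp.ov hα hs ha hag
  obtain ⟨hc'j, hc'A, hc'J, hc'C, hc'T⟩ := hD.sub hc'D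
  have hc'eta : (⟨c'.p, i + 1, c'.α, c'.t⟩ : Cnd) = c' := by
    ext1
    · rfl
    · exact hc'j.symm
    · rfl
    · rfl
  have hp'N : U.cond c'.p ∈ N := (hN.cp c' hc'N).1
  set m := max n k with hm
  have hgm : CLe o (g m) (c'.p.res i) :=
    (sq_le hg (le_max_left n k)).trans (nrm_res (A.nrm hc'A) _) hn
  obtain ⟨hu1, hu2, hu3, hu4⟩ := huni o Prot hl i (i + 1) (lt_add_one i).le c'.p hc'A (g m) (hg.A m) hgm
  have hJ' : i + 1 ∈ c'.p.J := hc'J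
  have hC2 : c'.α ∈ ((g m).uni c'.p).C (i + 1) := hu2.C _ hJ' hc'C
  have hT2 : c'.t ∈ ((g m).uni c'.p).T (i + 1) c'.α := by rw [hu2.T _ hJ' _ hc'C]; exact hc'T
  have hi' := (A.core hc'A hJ').L1J _ hc'C i hu'
  refine ⟨(g m).uni c'.p, ?_, ?_, ?_⟩
  · refine ⟨hN.uni _ _ (hg.mem m) hp'N, hu1, (hu2.trans (A.nrm hp.pA) hc'0.p).trans (A.nrm hp0) hp.p0, m, ?_⟩
    rw [hu4]; exact CLe.refl _
  · exact ⟨hu2.trans (A.nrm hp.pA) hc'0.p, m, le_max_right n k, hu4⟩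
  · refine ⟨c'.α, hC2, hc'0.α, c'.t, hT2, hc'0.t, ?_, ?_⟩
    · rw [hu2.co_eq hi'.1 hi'.2]; exact hag'
    · refine hD.op _ hc'D _ (PP.mk rfl hu1 (hu2.J hJ') hC2 hT2) ?_
      rw [← hc'eta]
      exact ⟨hu2, le_rfl, Or.inl rfl, Agr.refl _ _ _⟩

/-- `SS` at successors, Cohen and kill coordinates. -/
theorem job_ssN (hmdl : St_mdl) (hgs : St_gs') (hg0 : St_good0) (hnx : St_nx) (hamS : St_am) (huni : St_uni) :
    St_ssN := by
  intro o Prot hl i hns hSS hLLp hLL hTop p hp D hD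
  have hSS' : ∀ z < i + 1, SS o z := fun z hz => hSS z (Order.le_of_lt_succ hz)
  have hNX := hnx o Prot hl (i + 1) hSS' (fun _ => hLL)
  have ham := hamS o Prot hl (i + 1) hSS' (fun _ => hLL)
  obtain ⟨p₀, hp₀A, hp₀p, hyJ₀, hC₀⟩ := hNX.1 p hp
  obtain ⟨N, δ, hSN, hM, -⟩ := hmdl o Prot hl (fun _ _ => U.ord 0) {U.ord i, U.cond p₀, U.st D}
    ((Set.countable_singleton _).insert _ |>.insert _)
  have hiN : U.ord i ∈ N := hSN (by simp)
  have hp₀N : U.cond p₀ ∈ N := hSN (by simp)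
  have hDN : U.st D ∈ N := hSN (by simp)
  have hN := hM.basic
  obtain ⟨g, hg, hgg0, hgG⟩ := hgs o Prot hl i hSS N δ hM hiN (p₀.res i)
    (hN.res _ _ hp₀N hiN) (A.res hl hp₀A i)
  obtain ⟨qi, hqi, hqig⟩ := exists_good hl hg0 hM hiN (hLLp i le_rfl) hg hgG
  have hinv0 : Inv o N i g p₀ p₀ := ⟨hp₀N, hp₀A, CLe.refl _, 0, by rw [hgg0]; exact CLe.refl _⟩
  have hcoreq := A.core hqi.A hqi.J
  obtain ⟨f, hf0, hfI, hfR, hfD⟩ := book (fun _ => Inv o N i g p₀) (RR o i g) (fun _ => tasks δ i qi)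
    (fun _ => Done i D)
    (by
      intro k p hp
      have hcore := A.core hp.pA (hp.p0.J hyJ₀)
      have h2 : tasks δ i qi p ⊆ ⋃ α ∈ p.C (i + 1), (({α} : Set Ord) ×ˢ (p.T (i + 1) α ×ˢ (qi.T i δ))) := by
        rintro ⟨α, t, a⟩ ⟨hα, ht, ha, -⟩
        simp only [mem_iUnion]
        exact ⟨α, hα, rfl, ht, ha⟩
      refine (hcore.Cc.biUnion fun α hα => ?_).mono h2
      exact (Set.countable_singleton _).prod ((hcore.Tc α hα).prod (hcoreq.Tc δ hqi.C)))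
    (by
      rintro k p p' hp hp' ⟨hR1, -⟩ ⟨α, t, a⟩ ⟨hα, ht, ha, hag⟩
      dsimp only at hα ht ha hag
      have hyJ := hp.p0.J hyJ₀
      have hcore := A.core hp.pA hyJ
      have hi := hcore.L1J α hα i (hcore.us α hα i (Or.inr rfl))
      refine ⟨hR1.C _ hyJ hα, ?_, ha, ?_⟩
      · change t ∈ p'.T (i + 1) α
        rw [hR1.T _ hyJ α hα]; exact ht
      · change Agr (co p' i α) α a t
        rw [hR1.co_eq hi.1 hi.2]; exact hag)
    (fun k p hp τ hτ => main_step hl huni hM hiN hD hDN ham hg (hgG i le_rfl hiN) hqi hqig hp₀A hp hτ)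
    (by
      intro k p hp
      obtain ⟨α, hα⟩ := hC₀
      have hyJ := hp.p0.J hyJ₀
      have hcore := A.core hp.pA hyJ
      have hα' : α ∈ p.C (i + 1) := hp.p0.C _ hyJ₀ hα
      obtain ⟨t, ht⟩ := hcore.Tn α hα'
      obtain ⟨a₀, ha₀⟩ := hcoreq.Tn δ hqi.C
      have hiu := hcore.us α hα' i (Or.inr rfl)
      have hi := hcore.L1J α hα' i hiu
      obtain ⟨m, hm⟩ := hp.ov
      have hqp : CLe o qi (p.res i) := (hqig m).trans (nrm_res (A.nrm hp.pA) _) hm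
      have hi' : i ∈ (p.res i).J := ⟨hi.1, le_rfl⟩
      have hαi : α ∈ (p.res i).C i := by rw [res_C _ _ le_rfl]; exact hi.2
      have htq : below i t ∈ qi.T i α := by
        rw [hqp.T i hi' α hαi, res_T _ _ le_rfl, hcore.L1T α hα' i hiu]; exact mem_image_of_mem _ ht
      obtain ⟨a, ha, h1, -⟩ := hcoreq.L3 α (hqp.C i hi' hαi) δ hqi.C (lt_delta hN hp.pA hp.pN hα') 0 zero_le
        _ htq a₀ ha₀ (fun k hk => absurd hk.2 (not_lt.2 zero_le))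
      refine ⟨(α, t, a), hα', ht, ha, fun k hk ξ hξ n => ?_⟩
      change k ∈ co p i α at hk
      have h2 := h1 k (by rw [hqp.co_eq hi' hαi, res_co _ _ le_rfl]; exact hk) ξ hξ n
      change a k ξ n = t k ξ n
      rw [h2, below_of_lt (co_lt hk)])
    p₀ hinv0
  have hfsq : Sq o N (i + 1) f := ⟨fun n => (hfI n).pN, fun n => (hfI n).pA, fun n => (hfR n).1⟩
  have hyJ : ∀ n, i + 1 ∈ (f n).J := fun n => (hfI n).p0.J hyJ₀
  obtain ⟨q, hq1, hq2, -, -, -, hq3⟩ := hTop hns N δ none hN (fun γ h => by simp at h) hiN f hfsq (hyJ 0)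
    (by
      intro z hz hzN D' hD'N hD'
      obtain ⟨n₀, β, hβ, hn₀⟩ := hgG z hz hzN D' hD'N hD'
      obtain ⟨-, m, hm, hm'⟩ := hfR n₀
      have hle : CLe o (f (n₀ + 1)) (g n₀) := by
        have h1 : CLe o (f (n₀ + 1)) (g m) := by rw [← hm']; exact CLe.self_res _ _
        exact h1.trans (A.nrm (hg.A _)) (sq_le hg hm)
      obtain ⟨h1, h2⟩ := wit_mono hl (hg.A n₀) (hfI (n₀ + 1)).pA hle hD' hβ hn₀
      exact ⟨n₀ + 1, β, h1, h2⟩)
    qi hqi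
    (fun n => by
      obtain ⟨m, hm⟩ := (hfI n).ov
      exact (hqig m).trans (nrm_res (A.nrm (hfI n).pA) _) hm)
    {e | ∃ n, (⟨f n, i + 1, e.1, e.2⟩ : Cnd) ∈ D}
    (by
      intro n α hα s hs a ha hag
      obtain ⟨K, hK, α', hα', hαα', s', hs', hag1, hag2, hD'⟩ := hfD n (α, s, a) ⟨hα, hs, ha, hag⟩
      refine ⟨K + 1, α', hα', hαα', s', hs', ?_, hag2, K + 1, hD'⟩
      change Agr (co (f K) (i + 1) α) α s' s at hag1
      rw [(sq_le hfsq hK).co_eq (hyJ n) hα] at hag1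
      exact hag1)
  refine ⟨q, hq1.A, ?_, δ, hq1.C, fun z hz => ?_⟩
  · have h1 : CLe o q (f 0) := hq2 0
    rw [hf0] at h1
    exact h1.trans (A.nrm hp) hp₀p
  · obtain ⟨n, α', hα', s', hs', ⟨n', hn'⟩, hag⟩ := hq3 ⟨0, by rw [hf0]; exact hC₀⟩ z hz
    dsimp only at hn'
    obtain ⟨-, -, hJ', hC', hT'⟩ := hD.sub hn'
    change α' ∈ (f n').C (i + 1) at hC'
    have hco : co (f n') (i + 1) α' = co (f n) (i + 1) α' := by
      rw [← (hq2 n').co_eq (hyJ n') hC', ← (hq2 n).co_eq (hyJ n) hα']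
    refine hD.op _ hn' _ (PP.mk rfl hq1.A hq1.J hq1.C hz) ⟨hq2 n', ?_, Or.inl rfl, ?_⟩
    · exact (lt_delta hN (hfI n').pA (hfI n').pN hC').le
    · change Agr (co (f n') (i + 1) α') α' z s'
      rw [hco]; exact hag

end Pool.Agent.Helper919.SD.TssN
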