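import Pool.Agent.Helper919_SDT.Stmts

set_option autoImplicit false

/-!
# `SS` at the successors of specialising coordinates
-/

namespace Pool.Agent.Helper919.SD.TssP

open Ordinal Cardinal Set

variable {o : Ord → Opt} {Prot : Set Ord}

/-- The conditions deciding whether the name is met. -/
def Dd (o : Ord → Opt) (i : Ord) (Nm : Set Cnd) : Set Cnd :=
  {c | c ∈ PP o i ∧ (mt o (PP o i) Nm c ∨ nmt o (PP o i) Nm c)}

theorem Dd_DO (i : Ord) (Nm : Set Cnd) : DO o (PP o i) (Dd o i Nm) where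
  sub := fun _ hc => hc.1
  op := by
    rintro c ⟨hc, h⟩ c' hc' hle
    refine ⟨hc', ?_⟩
    rcases h with h | h
    · exact Or.inl (h.mono Subset.rfl hc hc' hle)
    · exact Or.inr (h.mono Subset.rfl hc hc' hle)
  dn := by
    intro c hc
    obtain ⟨c', h1, h2, h3⟩ := exists_mt_or (o := o) (N := Nm) hc
    exact ⟨c', ⟨h1, h3⟩, h2⟩

theorem goodQ_mono {N : Set U} {δ i : Ord} {gs : Option Ord} {q q' : Cond} (h : GoodQ o N δ gs i q)
    (hA : q' ∈ A o i) (hle : CLe o q' q) : GoodQ o N δ gs i q' :=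
  ⟨hA, hle.J h.J, hle.C _ h.J h.C, (hle.u _ h.J _ h.C).trans h.u,
    fun t ht => h.mks t (by rwa [hle.T _ h.J _ h.C] at ht)⟩

theorem cle_res {q p : Cond} (hp : Nrm p) (h : CLe o q p) (x : Ord) : CLe o q (p.res x) :=
  CLe.trans (nrm_res hp x) h (CLe.self_res p x)

/-- Nodes of the level `δ` of a good condition are generic. -/
theorem gen_node {N : Set U} {δ i : Ord} {gs : Option Ord} {qi : Cond} {g : ℕ → Cond} (hB : Basic o N δ)
    (hg : Sq o N i g) (hgen : Gen o N g i) (hq : GoodQ o N δ gs i qi) (hqg : ∀ n, CLe o qi (g n))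
    {a : Thr} (ha : a ∈ qi.T i δ) {D' : Set Cnd} (hD : U.st D' ∈ N) (hDO : DO o (PP o i) D') :
    (⟨qi, i, δ, a⟩ : Cnd) ∈ D' := by
  obtain ⟨n, β', hβ', h⟩ := hgen D' hD hDO
  have hJ : i ∈ (g n).J := (A.nrm (hg.A n)).mem_J hβ'
  have hcore := A.core (hg.A n) hJ
  have hβN : U.ord β' ∈ N := hB.C _ _ (hg.mem n) (hg.A n) i hJ β' hβ'
  have hβδ : β' < δ := (hB.ord β' (hcore.Clt β' hβ')).1 hβN
  have hβq : β' ∈ qi.C i := (hqg n).C i hJ hβ'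
  have hcq : LegCore qi i := A.core hq.A hq.J
  have hcut := hcq.L2 β' hβq δ hq.C hβδ a ha
  rw [(hqg n).T i hJ β' hβ'] at hcut
  refine hDO.op _ (h _ hcut) _ ⟨rfl, hq.A, hq.J, hq.C, ha⟩ ⟨cle_res (A.nrm (hg.A n)) (hqg n) i, hβδ.le, Or.inl rfl, ?_⟩
  change Agr (co ((g n).res i) i β') β' a (cut (co qi i β') β' a)
  rw [res_co _ _ le_rfl, (hqg n).co_eq hJ hβ']
  exact (agr_cut _ _ _).symm

/-! ### Decided trees -/

theorem of_mt {P : Set Cnd} {r : Node → Node → Set Cnd} {c : Cnd} {δ : Ord} {R : Node → Node → Prop}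
    (hc : c ∈ P) (h : Dec o P r c δ R) {x y : Node} (hx : x.1 ≤ δ) (hy : y.1 ≤ δ) (hm : mt o P (r x y) c) :
    R x y := by
  by_contra hn
  exact not_mt_nmt hc hm ((h x y hx hy).2 hn)

section tree

variable {i δ : Ord} {r : Node → Node → Set Cnd} {c : Cnd} {R : Node → Node → Prop}
  (hG : Good o (PP o i) r) (hc : c ∈ PP o i) (hD : Dec o (PP o i) r c δ R)

include hG hc hD

theorem t_refl {x y : Node} (hx : x.1 ≤ δ) (hy : y.1 ≤ δ) (h : R x y) : R x x ∧ R y y := by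
  have := hG.refl c hc x y ((hD x y hx hy).1 h)
  exact ⟨of_mt hc hD hx hx this.1, of_mt hc hD hy hy this.2⟩

theorem t_lvl {x y : Node} (hx : x.1 ≤ δ) (hy : y.1 ≤ δ) (h : R x y) : x.1 ≤ y.1 ∧ (x.1 = y.1 → x = y) :=
  hG.lvl c hc x y ((hD x y hx hy).1 h)

theorem t_trans {x y z : Node} (hx : x.1 ≤ δ) (hy : y.1 ≤ δ) (hz : z.1 ≤ δ) (h : R x y) (h' : R y z) : R x z :=
  of_mt hc hD hx hz (hG.trans c hc x y z ((hD x y hx hy).1 h) ((hD y z hy hz).1 h'))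

theorem t_uniq {x x' y : Node} (hx : x.1 ≤ δ) (hx' : x'.1 ≤ δ) (hy : y.1 ≤ δ) (h : R x y) (h' : R x' y)
    (e : x.1 = x'.1) : x = x' :=
  hG.uniq c hc x x' y ((hD x y hx hy).1 h) ((hD x' y hx' hy).1 h') e

theorem t_ex {y : Node} (hy : y.1 ≤ δ) (h : R y y) {ξ : Ord} (hξ : ξ ≤ y.1) : ∃ n, R (ξ, n) y := by
  obtain ⟨c', hc', hle, n, hn⟩ := hG.ex c hc y ((hD y y hy hy).1 h) ξ hξ
  refine ⟨n, ?_⟩
  by_contra hcon
  exact (hD (ξ, n) y (hξ.trans hy) hy).2 hcon c' hc' hle hn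

/-- The branch below a node of the level `δ`. -/
theorem t_branch {n : ℕ} (h : R (δ, n) (δ, n)) : ∃ X : Ord → ℕ, (∀ ξ ≤ δ, R (ξ, X ξ) (δ, n)) ∧
    (∀ η η', η ≤ η' → η' ≤ δ → R (η, X η) (η', X η')) ∧
    (∀ x : Node, x.1 ≤ δ → R x (δ, n) → ∀ η, x.1 ≤ η → η ≤ δ → R x (η, X η)) := by
  have h1 : ∀ ξ : Ord, ∃ m : ℕ, ξ ≤ δ → R (ξ, m) (δ, n) := by
    intro ξ
    by_cases hξ : ξ ≤ δ
    · obtain ⟨m, hm⟩ := t_ex hG hc hD (y := (δ, n)) le_rfl h hξ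
      exact ⟨m, fun _ => hm⟩
    · exact ⟨0, fun h' => absurd h' hξ⟩
  choose X hX using h1
  have h2 : ∀ x : Node, x.1 ≤ δ → R x (δ, n) → ∀ η, x.1 ≤ η → η ≤ δ → R x (η, X η) := by
    intro x hx hxR η hxη hη
    have h3 := (t_refl hG hc hD (x := (η, X η)) (y := (δ, n)) hη le_rfl (hX η hη)).1
    obtain ⟨m, hm⟩ := t_ex hG hc hD (y := (η, X η)) hη h3 hxη
    have h4 := t_trans hG hc hD (x := (x.1, m)) (y := (η, X η)) (z := (δ, n)) hx hη le_rfl hm (hX η hη)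
    have h5 := t_uniq hG hc hD (x := (x.1, m)) (x' := x) (y := (δ, n)) hx hx le_rfl h4 hxR rfl
    rw [← h5]
    exact hm
  exact ⟨X, hX, fun η η' hη hη' => h2 (η, X η) (hη.trans hη') (hX η (hη.trans hη')) η' hη hη', h2⟩

end tree

theorem sat_congr {R R' : Node → Node → Prop} {h : Node → ℚ} {α : Ord} {y y' : Node} {v : ℚ}
    (e : ∀ x : Node, x.1 < α → R' x y' → R x y) (hs : Sat R h α y v) : Sat R' h α y' v := by
  obtain ⟨v', h1, h2⟩ := hs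
  exact ⟨v', h1, fun x hx hR => h2 x hx (e x hx hR)⟩

/-! ### One step -/

/-- A valid task. -/
def Valid (o : Ord → Opt) (i : Ord) (r : Node → Node → Set Cnd) (δ β : Ord) (qi : Cond)
    (τ : Ord × Thr × Thr × List (Thr × ℕ × ℚ)) (p : Cond) : Prop :=
  τ.1 ∈ p.C (i + 1) ∧ τ.2.1 ∈ p.T (i + 1) τ.1 ∧ τ.2.2.1 ∈ qi.T i δ ∧ Agr (co p i τ.1) τ.1 τ.2.2.1 τ.2.1 ∧
    ∀ e ∈ τ.2.2.2, e.1 ∈ qi.T i β ∧ Agr (co qi i δ) δ e.1 τ.2.2.1 ∧
      ∀ R, Dec o (PP o i) r ⟨qi, i, β, e.1⟩ δ R → Sat R (hv i τ.2.1) τ.1 (δ, e.2.1) e.2.2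

/-- The task is done. -/
def Done (o : Ord → Opt) (i : Ord) (r : Node → Node → Set Cnd) (D : Set Cnd) (δ β : Ord) (qi : Cond)
    (τ : Ord × Thr × Thr × List (Thr × ℕ × ℚ)) (p p' : Cond) : Prop :=
  ∃ α' ∈ p'.C (i + 1), τ.1 ≤ α' ∧ ∃ s' ∈ p'.T (i + 1) α', Agr (co p (i + 1) τ.1) τ.1 s' τ.2.1 ∧
    Agr (co p' i α') α' τ.2.2.1 s' ∧ (⟨p', i + 1, α', s'⟩ : Cnd) ∈ D ∧
    ∀ e ∈ τ.2.2.2, ∀ R, Dec o (PP o i) r ⟨qi, i, β, e.1⟩ δ R → Sat R (hv i s') α' (δ, e.2.1) e.2.2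

/-- The invariant. -/
structure Inv (o : Ord → Opt) (N : Set U) (i : Ord) (g : ℕ → Cond) (p : Cond) (m : ℕ) : Prop where
  mem : U.cond p ∈ N
  A : p ∈ A o (i + 1)
  J : i + 1 ∈ p.J
  le : CLe o (g m) (p.res i)

theorem sq_le {N : Set U} {y : Ord} {g : ℕ → Cond} (hg : Sq o N y g) {m n : ℕ} (h : m ≤ n) :
    CLe o (g n) (g m) := by
  induction n, h using Nat.le_induction with
  | base => exact CLe.refl _
  | succ n _ ih => exact CLe.trans (A.nrm (hg.A m)) (hg.dec n) ih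

theorem i_le (i : Ord) : i ≤ i + 1 := (lt_add_one i).le

/-- Uniting with a late member of the generic sequence. -/
theorem unite (hu : St_uni) (hl : Legit o Prot) {N : Set U} {δ i : Ord} (hB : Basic o N δ) {g : ℕ → Cond}
    (hg : Sq o N i g) {p : Cond} (hpN : U.cond p ∈ N) (hpA : p ∈ A o (i + 1)) (hpJ : i + 1 ∈ p.J)
    {m : ℕ} (hm : CLe o (g m) (p.res i)) : Inv o N i g ((g m).uni p) m ∧ CLe o ((g m).uni p) p ∧
      ((g m).uni p).res i = g m := by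
  obtain ⟨h1, h2, _, h4⟩ := hu o Prot hl i (i + 1) (i_le i) p hpA (g m) (hg.A m) hm
  refine ⟨⟨hB.uni _ _ (hg.mem m) hpN, h1, h2.J hpJ, ?_⟩, h2, h4⟩
  rw [h4]
  exact CLe.refl _

theorem step (hu : St_uni) (hpl : St_pl) (hl : Legit o Prot) {i B : Ord} {r : Node → Node → Set Cnd}
    {gB : Ord → PName} (hoi : o i = Opt.spec r B gB) (hSS : ∀ z ≤ i, SS o z) (hLL : ∀ z ≤ i, LLp o Prot z)
    (hLL1 : LL o Prot (i + 1)) {D : Set Cnd} (hD : DO o (PP o (i + 1)) D) {N : Set U} {δ : Ord}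
    (hM : Mdl o N δ) (hMP : MdlP o i r D N) (hiN : U.ord i ∈ N) {g : ℕ → Cond} (hg : Sq o N i g)
    (hgen : Gen o N g i) {qi : Cond} (hq : GoodQ o N δ none i qi) (hqg : ∀ n, CLe o qi (g n)) {β : Ord}
    (hβ : β ∈ qi.C i) (hδβ : δ < β) (hdec : ∀ b ∈ qi.T i β, ∃ R, Dec o (PP o i) r ⟨qi, i, β, b⟩ δ R)
    (τ : Ord × Thr × Thr × List (Thr × ℕ × ℚ)) (p : Cond) (m : ℕ) (hI : Inv o N i g p m) :
    ∃ p' m', Inv o N i g p' m' ∧ m < m' ∧ CLe o p' p ∧ p'.res i = g m' ∧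
      (Valid o i r δ β qi τ p → Done o i r D δ β qi τ p p') := by
  classical
  have hG := (hl.spec hoi).1
  by_cases hv : Valid o i r δ β qi τ p
  swap
  · have h1 : CLe o (g (m + 1)) (p.res i) :=
      CLe.trans (nrm_res (A.nrm hI.A) i) (hg.dec m) hI.le
    obtain ⟨h2, h3, h4⟩ := unite hu hl hM.basic hg hI.mem hI.A hI.J h1
    exact ⟨_, m + 1, h2, Nat.lt_succ_self m, h3, h4, fun h => absurd h hv⟩
  obtain ⟨α, s, a, K⟩ := τ
  obtain ⟨hα, hs, ha, has, hK⟩ := hv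
  dsimp only at hα hs ha has hK
  have hcore := A.core hI.A hI.J
  have hc0 : (⟨p, i + 1, α, s⟩ : Cnd) ∈ PP o (i + 1) := ⟨rfl, hI.A, hI.J, hα, hs⟩
  have hc0N : U.cnd ⟨p, i + 1, α, s⟩ ∈ N := by
    have := hM.basic.cnd p (i + 1) (i + 1) α s hI.mem hI.A hI.J hα hs
    rwa [res_self (A.nrm hI.A) (fun j hj => A.le hI.A hj)] at this
  have haP : (⟨qi, i, δ, a⟩ : Cnd) ∈ PP o i := ⟨rfl, hq.A, hq.J, hq.C, ha⟩
  have hαδ : α < δ :=
    (hM.basic.ord α (hcore.Clt α hα)).1 (hM.basic.C _ _ hI.mem hI.A _ hI.J α hα)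
  -- the tree decided by `a`
  obtain ⟨R, hRdef⟩ : ∃ R : Node → Node → Prop, R = fun x y => mt o (PP o i) (r x y) ⟨qi, i, δ, a⟩ := ⟨_, rfl⟩
  have hlt1 : δ < ω_ 1 := hM.basic.lt
  have hR : ∀ x y : Node, x.1 < δ → y.1 < δ → (R x y → mt o (PP o i) (r x y) ⟨qi, i, δ, a⟩) ∧
      (¬ R x y → nmt o (PP o i) (r x y) ⟨qi, i, δ, a⟩) := by
    intro x y hx hy
    have hx' : U.ord x.1 ∈ N := (hM.basic.ord _ (hx.trans hlt1)).2 hx
    have hy' : U.ord y.1 ∈ N := (hM.basic.ord _ (hy.trans hlt1)).2 hy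
    have h1 := gen_node hM.basic hg hgen hq hqg ha (hM.basic.dec i r B gB hiN hoi x y hx' hy')
      (Dd_DO i (r x y))
    subst hRdef
    exact ⟨fun h => h, fun h => h1.2.resolve_left h⟩
  -- the nodes of the level `β`
  have hbP : ∀ b ∈ qi.T i β, (⟨qi, i, β, b⟩ : Cnd) ∈ PP o i := fun b hb => ⟨rfl, hq.A, hq.J, hβ, hb⟩
  have hbr : ∀ b ∈ qi.T i β, Agr (co qi i δ) δ b a → ∀ R', Dec o (PP o i) r ⟨qi, i, β, b⟩ δ R' →
      ∀ x y : Node, x.1 < δ → y.1 < δ → (R x y ↔ R' x y) := by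
    intro b hb hba R' hR' x y hx hy
    have hle : KLe o (⟨qi, i, β, b⟩ : Cnd) ⟨qi, i, δ, a⟩ := ⟨CLe.refl _, hδβ.le, Or.inl rfl, hba⟩
    constructor
    · intro h
      exact of_mt (hbP b hb) hR' hx.le hy.le (((hR x y hx hy).1 h).mono Subset.rfl haP (hbP b hb) hle)
    · intro h
      by_contra hn
      exact not_mt_nmt (hbP b hb) ((hR' x y hx.le hy.le).1 h)
        (((hR x y hx hy).2 hn).mono Subset.rfl haP (hbP b hb) hle)
  -- the demands at nodes of the tree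
  let K1 := K.filter (fun e => decide (mt o (PP o i) (r (δ, e.2.1) (δ, e.2.1)) ⟨qi, i, β, e.1⟩))
  have hK1 : ∀ l : Fin K1.length, K1.get l ∈ K ∧
      mt o (PP o i) (r (δ, (K1.get l).2.1) (δ, (K1.get l).2.1)) ⟨qi, i, β, (K1.get l).1⟩ := by
    intro l
    have h1 : K1.get l ∈ K1 := List.get_mem _ _
    have h2 := List.mem_filter.1 h1
    exact ⟨h2.1, by simpa using h2.2⟩
  have hex : ∀ l : Fin K1.length, ∃ (X : Ord → ℕ) (R' : Node → Node → Prop),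
      Dec o (PP o i) r ⟨qi, i, β, (K1.get l).1⟩ δ R' ∧
      (∀ ξ ≤ δ, R' (ξ, X ξ) (δ, (K1.get l).2.1)) ∧
      (∀ η η', η ≤ η' → η' ≤ δ → R' (η, X η) (η', X η')) ∧
      (∀ x : Node, x.1 ≤ δ → R' x (δ, (K1.get l).2.1) → ∀ η, x.1 ≤ η → η ≤ δ → R' x (η, X η)) := by
    intro l
    obtain ⟨hb, hba, hS⟩ := hK _ (hK1 l).1
    obtain ⟨R', hR'⟩ := hdec _ hb
    obtain ⟨X, hX⟩ := t_branch hG (hbP _ hb) hR' (of_mt (hbP _ hb) hR' le_rfl le_rfl (hK1 l).2)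
    exact ⟨X, R', hR', hX⟩
  choose X R' hR'D hX1 hX2 hX3 using hex
  obtain ⟨c', hc'D, hc'N, hc'c, hac', ⟨m1, hm1⟩, hsat⟩ := hpl o Prot hl i r B gB hoi hSS hLL hLL1 D hD N δ hM hMP
    hiN g hg hgen none qi hq hqg ⟨p, i + 1, α, s⟩ hc0 hc0N ⟨m, hI.le⟩ a ha has R hR K1.length
    (fun l => (K1.get l).2.2) X
    (by
      intro l η η' hη hη'
      obtain ⟨hb, hba, _⟩ := hK _ (hK1 l).1
      exact (hbr _ hb hba (R' l) (hR'D l) (η, X l η) (η', X l η') (hη.trans_lt hη') hη').2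
        (hX2 l η η' hη hη'.le))
    (by
      intro l
      obtain ⟨hb, hba, hS⟩ := hK _ (hK1 l).1
      refine sat_congr ?_ (hS (R' l) (hR'D l))
      intro x hx hRx
      have h1 := (hbr _ hb hba (R' l) (hR'D l) x (α, X l α) (hx.trans hαδ) hαδ).1 hRx
      exact t_trans hG (hbP _ hb) (hR'D l) (hx.trans hαδ).le hαδ.le le_rfl h1 (hX1 l α hαδ.le))
  have hc'P : c' ∈ PP o (i + 1) := hD.sub hc'D
  obtain ⟨c'p, c'j, α', s'⟩ := c'
  obtain ⟨hj, hA', hJ', hα', hs'⟩ := hc'P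
  dsimp only at hj hA' hJ' hα' hs' hm1 hsat
  subst hj
  have hcp' := hM.basic.cp _ hc'N
  dsimp only at hcp'
  have hcore' := A.core hA' hJ'
  have hα'δ : α' < δ := (hM.basic.ord α' (hcore'.Clt α' hα')).1 hcp'.2.2
  -- the new condition
  have hm2 : CLe o (g (max m1 (m + 1))) (c'p.res i) :=
    CLe.trans (nrm_res (A.nrm hA') i) (sq_le hg (le_max_left _ _)) hm1
  obtain ⟨h2, h3, h4⟩ := unite hu hl hM.basic hg hcp'.1 hA' hJ' hm2
  have hiu' : i ∈ c'p.u (i + 1) α' := hcore'.us α' hα' i (Or.inr rfl)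
  obtain ⟨hiJ', hαi'⟩ := hcore'.L1J α' hα' i hiu'
  have hle' : KLe o (⟨(g (max m1 (m + 1))).uni c'p, i + 1, α', s'⟩ : Cnd) ⟨c'p, i + 1, α', s'⟩ :=
    ⟨h3, le_rfl, Or.inl rfl, Agr.refl _ _ _⟩
  have hs'' : s' ∈ ((g (max m1 (m + 1))).uni c'p).T (i + 1) α' := by
    rw [h3.T _ hJ' _ hα']; exact hs'
  have hα'' : α' ∈ ((g (max m1 (m + 1))).uni c'p).C (i + 1) := h3.C _ hJ' hα'
  refine ⟨_, max m1 (m + 1), h2, lt_of_lt_of_le (Nat.lt_succ_self m) (le_max_right _ _),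
    CLe.trans (A.nrm hI.A) h3 hc'c.p, h4, fun _ => ⟨α', hα'', hc'c.α, s', hs'', hc'c.t, ?_, ?_, ?_⟩⟩
  · rw [h3.co_eq hiJ' hαi']
    have h5 : Agr (co (c'p.res i) i α') α' a (below i s') := hac'.t
    rw [res_co _ _ le_rfl] at h5
    exact h5.trans (agr_below (fun k hk => co_lt hk) _ _)
  · exact hD.op _ hc'D _ ⟨rfl, h2.A, h2.J, hα'', hs''⟩ hle'
  · intro e he R₂ hR₂
    obtain ⟨hb, hba, _⟩ := hK e he
    by_cases hfld : mt o (PP o i) (r (δ, e.2.1) (δ, e.2.1)) ⟨qi, i, β, e.1⟩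
    · have he1 : e ∈ K1 := List.mem_filter.2 ⟨he, by simpa using hfld⟩
      obtain ⟨l, hl'⟩ := List.mem_iff_get.1 he1
      have hs1 := hsat l
      rw [hl'] at hs1
      refine sat_congr ?_ hs1
      intro x hx hRx
      have hxδ : x.1 < δ := hx.trans hα'δ
      have hR'l := hR'D l
      rw [hl'] at hR'l
      have h6 : R' l x (δ, e.2.1) := (Dec.agree (hbP _ hb) hR₂ hR'l hxδ.le le_rfl).1 hRx
      have h7 := hX3 l x hxδ.le (by rw [hl']; exact h6) α' hx.le hα'δ.le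
      exact (hbr _ hb hba (R' l) hR'l x (α', X l α') hxδ hα'δ).2 h7
    · refine ⟨e.2.2 - 1, by linarith, fun x hx hRx => ?_⟩
      exact absurd ((hR₂ _ _ le_rfl le_rfl).1
        (t_refl hG (hbP _ hb) hR₂ (x := x) (y := (δ, e.2.1)) (hx.trans hα'δ).le le_rfl hRx).2) hfld


/-! ### The countable set of the tasks -/

theorem tasks (N : Set U) (hN : N.Countable) (Ta Tb : Set Thr) (hTa : Ta.Countable) (hTb : Tb.Countable) :
    ∃ f : ℕ → Ord × Thr × Thr × List (Thr × ℕ × ℚ), ∀ α s a K, U.ord α ∈ N → (∃ c, U.cnd c ∈ N ∧ c.t = s) →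
      a ∈ Ta → (∀ e ∈ K, e.1 ∈ Tb) → ∀ n, ∃ n' ≥ n, f n' = (α, s, a, K) := by
  have h1 : {α : Ord | U.ord α ∈ N}.Countable :=
    hN.preimage_of_injOn (f := U.ord) (fun x _ y _ h => U.ord.inj h)
  have h2 : {s : Thr | ∃ c, U.cnd c ∈ N ∧ c.t = s}.Countable := by
    have h3 : {c : Cnd | U.cnd c ∈ N}.Countable :=
      hN.preimage_of_injOn (f := U.cnd) (fun x _ y _ h => U.cnd.inj h)
    exact h3.image Cnd.t
  have h3 : {e : Thr × ℕ × ℚ | e.1 ∈ Tb}.Countable := by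
    have : {e : Thr × ℕ × ℚ | e.1 ∈ Tb} = Tb ×ˢ (Set.univ : Set (ℕ × ℚ)) := by
      ext e; simp
    rw [this]
    exact hTb.prod (Set.to_countable _)
  have h4 : {K : List (Thr × ℕ × ℚ) | ∀ e ∈ K, e.1 ∈ Tb}.Countable := by
    have h5 := h3.to_subtype
    have h6 := Set.range_list_map_coe {e : Thr × ℕ × ℚ | e.1 ∈ Tb}
    have h7 : {K : List (Thr × ℕ × ℚ) | ∀ e ∈ K, e.1 ∈ Tb} =
        Set.range (List.map ((↑) : {e : Thr × ℕ × ℚ | e.1 ∈ Tb} → Thr × ℕ × ℚ)) := by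
      rw [h6]; rfl
    rw [h7]
    exact Set.countable_range _
  obtain ⟨f, hf⟩ := ((h1.prod (h2.prod (hTa.prod h4))).insert
    ((0, fun _ _ _ => 0, fun _ _ _ => 0, []) : Ord × Thr × Thr × List (Thr × ℕ × ℚ))).exists_eq_range
      ⟨_, Set.mem_insert _ _⟩
  refine ⟨fun n => f n.unpair.1, fun α s a K hα hs ha hK n => ?_⟩
  have h5 : (α, s, a, K) ∈ Set.range f := by
    rw [← hf]
    exact Set.mem_insert_of_mem _ ⟨hα, hs, ha, hK⟩
  obtain ⟨k, hk⟩ := h5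
  refine ⟨Nat.pair k n, Nat.right_le_pair k n, ?_⟩
  show f (Nat.unpair (Nat.pair k n)).1 = (α, s, a, K)
  rw [Nat.unpair_pair]
  exact hk

theorem Iic_cnt {δ : Ordinal.{0}} (hδ : δ < ω_ 1) : (Set.Iic δ).Countable := by
  have h0 : δ + 1 < ω_ 1 := (Cardinal.isSuccLimit_omega 1).add_one_lt hδ
  have h1 : (Set.Iic δ) = Set.Iio (δ + 1) := by
    ext x
    simp only [Set.mem_Iic, Set.mem_Iio]
    exact (Order.lt_add_one_iff (x := x) (y := δ)).symm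
  rw [h1, ← Cardinal.le_aleph0_iff_set_countable, Cardinal.mk_Iio_ordinal]
  have h2 : (δ + 1).card < ℵ₁ := by
    rw [← Cardinal.lt_ord, Cardinal.ord_aleph]; exact h0
  have h3 : (δ + 1).card ≤ ℵ₀ := Cardinal.lt_aleph_one_iff.1 h2
  exact Cardinal.lift_le_aleph0.2 h3

/-- Decisions at a higher level. -/
theorem decide_level {i B : Ord} {r : Node → Node → Set Cnd}
    {gB : Ord → PName} (hSO : SO o i) {N : Set U} (hN : N.Countable) {δ : Ord} (hδ : δ < ω_ 1) {p : Cond}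
    (hp : p ∈ A o i) : ∃ q ∈ A o i, CLe o q p ∧ ∃ β ∈ q.C i, δ < β ∧ ∀ b ∈ q.T i β,
      (∃ R, Dec o (PP o i) r ⟨q, i, β, b⟩ δ R) ∧
      ∀ κ < B, U.ord κ ∈ N → ∃ Y, DecG o (PP o i) (gB κ) ⟨q, i, β, b⟩ δ Y := by
  have hNode : {x : Node | x.1 ≤ δ}.Countable := by
    have h1 : (Set.Iic δ).Countable := Iic_cnt hδ
    have : {x : Node | x.1 ≤ δ} = Set.Iic δ ×ˢ (Set.univ : Set ℕ) := by
      ext e; simp
    rw [this]
    exact h1.prod (Set.to_countable _)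
  have hκ : {κ : Ord | U.ord κ ∈ N}.Countable :=
    hN.preimage_of_injOn (f := U.ord) (fun x _ y _ h => U.ord.inj h)
  let S1 : Set (Set Cnd) := (fun z : Node × Node => Dd o i (r z.1 z.2)) '' ({x : Node | x.1 ≤ δ} ×ˢ {x : Node | x.1 ≤ δ})
  let S2 : Set (Set Cnd) := ⋃ κ ∈ {κ : Ord | U.ord κ ∈ N}, Set.range (fun n => Dd o i ((gB κ).G δ n))
  have hS1 : S1.Countable := (hNode.prod hNode).image _
  have hS2 : S2.Countable := hκ.biUnion fun κ _ => Set.countable_range _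
  obtain ⟨f, hf⟩ := (hS1.union hS2 |>.insert (Dd o i ∅)).exists_eq_range ⟨_, Set.mem_insert _ _⟩
  have hfD : ∀ m, DO o (PP o i) (f m) := by
    intro m
    have h1 : f m ∈ insert (Dd o i ∅) (S1 ∪ S2) := by rw [hf]; exact Set.mem_range_self m
    rcases h1 with h1 | h1 | h1
    · rw [h1]; exact Dd_DO _ _
    · obtain ⟨z, _, hz⟩ := h1
      rw [← hz]; exact Dd_DO _ _
    · obtain ⟨κ, _, n, hz⟩ := Set.mem_iUnion₂.1 h1
      rw [← hz]; exact Dd_DO _ _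
  obtain ⟨q, hqA, hqp, β, hβ, hδβ, hb⟩ := hSO p hp f hfD δ hδ
  have hall : ∀ E ∈ insert (Dd o i ∅) (S1 ∪ S2), ∀ b ∈ q.T i β, (⟨q, i, β, b⟩ : Cnd) ∈ E := by
    intro E hE b hbq
    rw [hf] at hE
    obtain ⟨m, rfl⟩ := hE
    exact hb b hbq m
  refine ⟨q, hqA, hqp, β, hβ, hδβ, fun b hbq => ⟨?_, ?_⟩⟩
  · refine ⟨fun x y => mt o (PP o i) (r x y) ⟨q, i, β, b⟩, fun x y hx hy => ⟨fun h => h, fun h => ?_⟩⟩
    have h1 := hall (Dd o i (r x y)) (Or.inr (Or.inl ⟨(x, y), ⟨hx, hy⟩, rfl⟩)) b hbq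
    exact h1.2.resolve_left h
  · intro κ _ hκN
    refine ⟨{n | mt o (PP o i) ((gB κ).G δ n) ⟨q, i, β, b⟩}, fun n => ⟨fun h => h, fun h => ?_⟩⟩
    have h1 := hall (Dd o i ((gB κ).G δ n)) (Or.inr (Or.inr (Set.mem_iUnion₂.2 ⟨κ, hκN, n, rfl⟩))) b hbq
    exact h1.2.resolve_left h

end Pool.Agent.Helper919.SD.TssP

namespace Pool.Agent.Helper919.SD

open Ordinal Cardinal Set TssP

/-- `SS` at the successors of specialising coordinates. -/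
theorem job_ssP (hmdl : St_mdlP) (hgs : St_gs') (hg0 : St_good0) (hu : St_uni) (hnx : St_nx) (hso : St_so)
    (hpl : St_pl) : St_ssP := by
  intro o Prot hl i hi hSS hLL hLL1 hTop p hp D hD
  obtain ⟨r, B, gB, hoi⟩ := hi
  have hNX1 : NX o (i + 1) := hnx o Prot hl (i + 1) (fun z hz => hSS z (Order.lt_add_one_iff.1 hz)) (fun _ => hLL1)
  have hNXi : NX o i := hnx o Prot hl i (fun z hz => hSS z hz.le) (hLL i le_rfl)
  have hSOi : SO o i := hso o Prot hl i (hSS i le_rfl) hNXi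
  obtain ⟨p1, hp1A, hp1p, hp1J, hp1C⟩ := hNX1.1 p hp
  obtain ⟨N, δ, hSN, hM, hMP⟩ := hmdl o Prot hl i r D {U.cond p1, U.st D, U.ord i} (by simp)
  have hp1N : U.cond p1 ∈ N := hSN (by simp)
  have hiN : U.ord i ∈ N := hSN (by simp)
  have hB := hM.basic
  obtain ⟨α0, hα0⟩ := hp1C
  have hp1core := A.core hp1A hp1J
  have hi1 : i ∈ p1.J := (hp1core.L1J α0 hα0 i (hp1core.us α0 hα0 i (Or.inr rfl))).1
  -- the generic sequence
  obtain ⟨g, hg, hg0', hgen⟩ := hgs o Prot hl i hSS N δ hM hiN (p1.res i) (hB.res _ _ hp1N hiN) (A.res hl hp1A i)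
  -- a good condition at `i`
  have hgood : ∃ q, GoodQ o N δ none i q ∧ ∀ n, CLe o q (g n) := by
    obtain ⟨q0, hq0, hq0g, _⟩ := hg0 o Prot hl N δ none hB i g hg
    rcases eq_or_ne i 0 with h0 | h0
    · subst h0
      refine ⟨q0, hq0, fun n => ?_⟩
      have := hq0g n
      rwa [res_self (A.nrm (hg.A n)) (fun j hj => A.le (hg.A n) hj)] at this
    · have h0 : 0 < i := pos_iff_ne_zero.2 h0
      have h0N : U.ord 0 ∈ N := (hB.ord 0 (lt_trans hB.lim.bot_lt hB.lt)).2 hB.lim.bot_lt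
      obtain ⟨q, hq, hqg, _, _⟩ := hLL i le_rfl h0 N δ none hB (fun γ h => by simp at h) 0 h0N hiN h0 g hg
        (by rw [hg0']; exact ⟨hi1, le_rfl⟩) (fun z hz hzN => hgen z hz.le hzN) q0 hq0 hq0g
      exact ⟨q, hq, hqg⟩
  obtain ⟨q0, hq0, hq0g⟩ := hgood
  obtain ⟨qi, hqiA, hqi0, β, hβ, hδβ, hdec⟩ := decide_level (B := B) (r := r) (gB := gB) hSOi hB.cnt hB.lt hq0.A
  have hq : GoodQ o N δ none i qi := goodQ_mono hq0 hqiA hqi0
  have hqg : ∀ n, CLe o qi (g n) := fun n => CLe.trans (A.nrm (hg.A n)) hqi0 (hq0g n)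
  have hqicore := A.core hq.A hq.J
  -- the tasks
  obtain ⟨f, hf⟩ := tasks N hB.cnt (qi.T i δ) (qi.T i β) (hqicore.Tc δ hq.C) (hqicore.Tc β hβ)
  have hstep : ∀ (n : ℕ) (x : {x : Cond × ℕ // Inv o N i g x.1 x.2}), ∃ x' : {x : Cond × ℕ // Inv o N i g x.1 x.2},
      x.1.2 < x'.1.2 ∧ CLe o x'.1.1 x.1.1 ∧ x'.1.1.res i = g x'.1.2 ∧
      (Valid o i r δ β qi (f n) x.1.1 → Done o i r D δ β qi (f n) x.1.1 x'.1.1) := by
    rintro n ⟨⟨p, m⟩, hI⟩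
    obtain ⟨p', m', h1, h2, h3, h4, h5⟩ := step hu hpl hl hoi hSS hLL hLL1 hD hM hMP hiN hg (hgen i le_rfl hiN)
      hq hqg hβ hδβ (fun b hb => (hdec b hb).1) (f n) p m hI
    exact ⟨⟨(p', m'), h1⟩, h2, h3, h4, h5⟩
  choose F hF using hstep
  have hI0 : Inv o N i g p1 0 := ⟨hp1N, hp1A, hp1J, by rw [hg0']; exact CLe.refl _⟩
  obtain ⟨seq, hseq0, hseqS⟩ : ∃ seq : ℕ → {x : Cond × ℕ // Inv o N i g x.1 x.2}, seq 0 = ⟨(p1, 0), hI0⟩ ∧
      ∀ n, seq (n + 1) = F n (seq n) :=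
    ⟨fun n => Nat.rec (⟨(p1, 0), hI0⟩ : {x : Cond × ℕ // Inv o N i g x.1 x.2}) (fun n x => F n x) n, rfl, fun n => rfl⟩
  let ps : ℕ → Cond := fun n => (seq n).1.1
  have hps0 : ps 0 = p1 := by show (seq 0).1.1 = p1; rw [hseq0]
  have hdecr : ∀ n, CLe o (ps (n + 1)) (ps n) := fun n => by
    show CLe o (seq (n + 1)).1.1 (seq n).1.1
    rw [hseqS]; exact (hF n (seq n)).2.1
  have hSq : Sq o N (i + 1) ps := ⟨fun n => (seq n).2.mem, fun n => (seq n).2.A, hdecr⟩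
  have hmono : ∀ m n, m ≤ n → CLe o (ps n) (ps m) := fun m n h => sq_le hSq h
  have hidx : ∀ n, n ≤ (seq n).1.2 := by
    intro n
    induction n with
    | zero => exact Nat.zero_le _
    | succ n ih =>
      rw [hseqS]
      exact Nat.succ_le_of_lt (lt_of_le_of_lt ih (hF n (seq n)).1)
  have hres : ∀ n, (ps (n + 1)).res i = g (seq (n + 1)).1.2 := fun n => by
    show (seq (n + 1)).1.1.res i = g (seq (n + 1)).1.2
    rw [hseqS]; exact (hF n (seq n)).2.2.1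
  have hGenp : ∀ z ≤ i, U.ord z ∈ N → Gen o N ps z := by
    intro z hz hzN D' hD' hDO
    obtain ⟨n, β', hβ', h⟩ := hgen z hz hzN D' hD' hDO
    have hJz : z ∈ (g n).J := (A.nrm (hg.A n)).mem_J hβ'
    have hle : CLe o (g (seq (n + 1)).1.2) (g n) := sq_le hg ((Nat.le_succ n).trans (hidx (n + 1)))
    have hr := hres n
    have hC : (ps (n + 1)).C z = (g (seq (n + 1)).1.2).C z := by rw [← hr, res_C _ _ hz]
    have hT : (ps (n + 1)).T z = (g (seq (n + 1)).1.2).T z := by rw [← hr, res_T _ _ hz]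
    have hrr : (ps (n + 1)).res z = (g (seq (n + 1)).1.2).res z := by rw [← hr, res_res _ hz]
    refine ⟨n + 1, β', by rw [hC]; exact hle.C z hJz hβ', fun t ht => ?_⟩
    rw [hT, hle.T z hJz β' hβ'] at ht
    rw [hrr]
    have hlez := hle.res (o := o) z
    refine hDO.op _ (h t ht) _ ⟨rfl, A.res hl (hg.A _) z, ⟨hle.J hJz, le_rfl⟩, ?_, ?_⟩
      ⟨hlez, le_rfl, Or.inl rfl, Agr.refl _ _ _⟩
    · show β' ∈ ((g (seq (n + 1)).1.2).res z).C z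
      rw [res_C _ _ le_rfl]; exact hle.C z hJz hβ'
    · show t ∈ ((g (seq (n + 1)).1.2).res z).T z β'
      rw [res_T _ _ le_rfl, hle.T z hJz β' hβ']; exact ht
  have hqps : ∀ n, CLe o qi ((ps n).res i) := by
    intro n
    cases n with
    | zero => rw [hps0, ← hg0']; exact hqg 0
    | succ n => rw [hres n]; exact hqg _
  have hpsJ : ∀ n, i + 1 ∈ (ps n).J := fun n => (seq n).2.J
  -- the coordinates at `i`
  have hcoi : ∀ n n', n ≤ n' → ∀ α ∈ (ps n).C (i + 1), co (ps n') i α = co (ps n) i α := by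
    intro n n' hn α hα
    have hcore := A.core (hSq.A n) (hpsJ n)
    obtain ⟨h1, h2⟩ := hcore.L1J α hα i (hcore.us α hα i (Or.inr rfl))
    exact (hmono n n' hn).co_eq h1 h2
  obtain ⟨q, hqG, hqps', hqres, _, _, hqEl⟩ := hTop r B gB hoi N δ none hB (fun γ h => by simp at h) hiN ps hSq
    (hpsJ 0) hGenp qi hq hqps β hβ hδβ hdec {e | ∃ n, (⟨ps n, i + 1, e.1, e.2⟩ : Cnd) ∈ D} (by
      intro n α hα s hs a ha has K hK
      have hαN : U.ord α ∈ N := hB.C _ _ (hSq.mem n) (hSq.A n) _ (hpsJ n) α hα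
      have hsN := hB.cnd _ _ (i + 1) α s (hSq.mem n) (hSq.A n) (hpsJ n) hα hs
      obtain ⟨n', hn', hfn⟩ := hf α s a K hαN ⟨_, hsN, rfl⟩ ha (fun e he => (hK e he).1) n
      have hle := hmono n n' hn'
      have hv : Valid o i r δ β qi (f n') (seq n').1.1 := by
        rw [hfn]
        refine ⟨hle.C _ (hpsJ n) hα, ?_, ha, ?_, hK⟩
        · show s ∈ (ps n').T (i + 1) α
          rw [hle.T _ (hpsJ n) _ hα]; exact hs
        · show Agr (co (ps n') i α) α a s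
          rw [hcoi n n' hn' α hα]; exact has
      obtain ⟨α', hα', hαα', s', hs', h1, h2, h3, h4⟩ := (hF n' (seq n')).2.2.2 hv
      rw [← hseqS] at hα' hs' h2 h3
      rw [hfn] at hαα' h1 h2 h4
      refine ⟨n' + 1, α', hα', hαα', s', hs', ?_, h2, ⟨n' + 1, h3⟩, h4⟩
      have h1' : Agr (co (ps n') (i + 1) α) α s' s := h1
      rwa [hle.co_eq (hpsJ n) hα] at h1')
  refine ⟨q, hqG.A, CLe.trans (A.nrm hp) (by rw [← hps0]; exact hqps' 0) hp1p, δ, hqG.C, fun z hz => ?_⟩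
  obtain ⟨n, α', hα', s', hs', ⟨n', hn'⟩, hag⟩ := hqEl ⟨0, α0, by rw [hps0]; exact hα0⟩ z hz
  have hP' := hD.sub hn'
  obtain ⟨_, hA', hJ', hC', hT'⟩ := hP'
  dsimp only at hA' hJ' hC' hT'
  have hcore' := A.core hA' hJ'
  have hα'δ : α' < δ := (hB.ord α' (hcore'.Clt α' hC')).1 (hB.C _ _ (hSq.mem n') (hSq.A n') _ hJ' α' hC')
  refine hD.op _ hn' _ ⟨rfl, hqG.A, hqG.J, hqG.C, hz⟩ ⟨hqps' n', hα'δ.le, Or.inl rfl, ?_⟩
  show Agr (co (ps n') (i + 1) α') α' z s'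
  rw [← (hqps' n').co_eq hJ' hC', (hqps' n).co_eq (hpsJ n) hα']
  exact hag

end Pool.Agent.Helper919.SD
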