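import Pool.Agent.Helper919_SDT.Stmts

set_option autoImplicit false

/-!
# The fusion lemma for specialising coordinates
-/

namespace Pool.Agent.Helper919.SD.Ttc

open Ordinal Cardinal Set
open Pool.Agent.Helper919.SD

/-- `h` is bounded below `v` on the nodes of the branch `P` of the levels `< α`. -/
def SatP (P : Node → Prop) (h : Node → ℚ) (α : Ord) (v : ℚ) : Prop :=
  ∃ v' < v, ∀ z : Node, z.1 < α → P z → h z ≤ v'

theorem tree_below {R : Node → Node → Prop} {δ : Ord} (hR : TreeR R δ) {x y z : Node} (hy : y.1 ≤ δ)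
    (h : R x y) (hz : z.1 ≤ x.1) : R z y ↔ R z x := by
  have hx : x.1 ≤ δ := (hR.lvl x y hy h).1.trans hy
  constructor
  · intro hzy
    obtain ⟨k, hk⟩ := hR.ex x hx (hR.refl x y hy h).1 z.1 hz
    have h1 := hR.trans _ _ _ hy hk h
    have h2 : ((z.1, k) : Node) = z := hR.uniq _ _ _ hy h1 hzy rfl
    rwa [h2] at hk
  · intro hzx
    exact hR.trans _ _ _ hy hzx h

/-- `P` is a branch through the levels `al n`. -/
def Brn (R : Node → Node → Prop) (al : ℕ → Ord) (P : Node → Prop) : Prop :=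
  ∀ n, ∃ m, P (al n, m) ∧ ∀ z : Node, z.1 ≤ al n → (P z ↔ R z (al n, m))

theorem Brn.uniq {R : Node → Node → Prop} {δ : Ord} (hR : TreeR R δ) {al : ℕ → Ord}
    (hal : ∀ n, al n ≤ δ) {P : Node → Prop}
    (hP : Brn R al P) {n m m' : ℕ} (h : P (al n, m)) (h' : P (al n, m')) : m = m' := by
  obtain ⟨k, _, hk2⟩ := hP n
  have e1 := (hk2 (al n, m) le_rfl).1 h
  have e2 := (hk2 (al n, m') le_rfl).1 h'
  have e3 : ((al n, m) : Node) = (al n, m') := hR.uniq _ _ _ (hal n) e1 e2 rfl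
  exact (Prod.mk.inj e3).2

/-- Dependent choice. -/
theorem dc_seq {S : Type 1} (Inv : ℕ → S → Prop) (Tr : ℕ → S → S → Prop) (s₀ : S) (h0 : Inv 0 s₀)
    (step : ∀ n s, Inv n s → ∃ s', Tr n s s' ∧ Inv (n + 1) s') :
    ∃ s : ℕ → S, s 0 = s₀ ∧ (∀ n, Inv n (s n)) ∧ ∀ n, Tr n (s n) (s (n + 1)) := by
  classical
  have step' : ∀ n s, ∃ s', Inv n s → (Tr n s s' ∧ Inv (n + 1) s') := by
    intro n s
    by_cases h : Inv n s
    · obtain ⟨s', h'⟩ := step n s h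
      exact ⟨s', fun _ => h'⟩
    · exact ⟨s, fun h' => absurd h' h⟩
  choose g hg using step'
  let f : ℕ → S := fun n => Nat.rec s₀ (fun n s => g n s) n
  have hf : ∀ n, Inv n (f n) := by
    intro n
    induction n with
    | zero => exact h0
    | succ n ih => exact (hg n (f n) ih).2
  exact ⟨f, rfl, hf, fun n => (hg n (f n) (hf n)).1⟩

section
variable {Bt : Type 1} (D : FD Bt) (b₀ : Bt)

theorem brn_top (al : ℕ → Ord) (hal : ∀ n, al n ∈ D.C) {b : Bt} {k : ℕ}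
    (hf : D.R b (D.δ, k) (D.δ, k)) : Brn (D.R b₀) al (fun z => D.R b z (D.δ, k)) := by
  intro n
  have hlt := D.Clt _ (hal n)
  obtain ⟨m, hm⟩ := (D.tree b).ex (D.δ, k) le_rfl hf (al n) hlt.le
  refine ⟨m, hm, fun z hz => ?_⟩
  have h1 := tree_below (D.tree b) (x := (al n, m)) (y := (D.δ, k)) (z := z) le_rfl hm hz
  have h2 := D.agree b b₀ z (al n, m) (lt_of_le_of_lt hz hlt) hlt
  exact h1.trans h2

theorem brn_low (al : ℕ → Ord) {Z : Ord} (hZ : Z < D.δ) (hle : ∀ n, al n ≤ Z)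
    {k : ℕ} (hf : D.R b₀ (Z, k) (Z, k)) : Brn (D.R b₀) al (fun z => D.R b₀ z (Z, k)) := by
  intro n
  obtain ⟨m, hm⟩ := (D.tree b₀).ex (Z, k) hZ.le hf (al n) (hle n)
  refine ⟨m, hm, fun z hz => ?_⟩
  exact tree_below (D.tree b₀) (x := (al n, m)) (y := (Z, k)) (z := z) hZ.le hm hz

theorem sep_list {α β : Ord} (hα : α ∈ D.C) (hβ : β ∈ D.C) (hαβ : α ≤ β) (h : Node → ℚ) (hT : D.T α h)
    (K : List ((Node → Prop) × ℚ))
    (hK : ∀ e ∈ K, (∃ m, ∀ z : Node, z.1 ≤ β → (e.1 z ↔ D.R b₀ z (β, m))) ∧ SatP e.1 h α e.2) :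
    ∃ h', D.T β h' ∧ (∀ z : Node, z.1 < α → h' z = h z) ∧ ∀ e ∈ K, SatP e.1 h' β e.2 := by
  rcases hαβ.eq_or_lt with rfl | hlt
  · exact ⟨h, hT, fun _ _ => rfl, fun e he => (hK e he).2⟩
  · choose m hm using (fun l : Fin K.length => (hK (K.get l) (List.get_mem K l)).1)
    obtain ⟨h', hT', heq, hS⟩ := D.sep α hα β hβ hlt h hT b₀ K.length m (fun l => (K.get l).2) (by
      intro l
      obtain ⟨v', hv', H⟩ := (hK (K.get l) (List.get_mem K l)).2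
      exact ⟨v', hv', fun x hx hR => H x hx ((hm l x (hx.le.trans hαβ)).2 hR)⟩)
    refine ⟨h', hT', heq, fun e he => ?_⟩
    obtain ⟨l, hl⟩ := List.get_of_mem he
    obtain ⟨v', hv', H⟩ := hS l
    rw [hl] at hv'
    refine ⟨v', hv', fun z hz hP => H z hz ((hm l z hz.le).1 ?_)⟩
    rw [hl]
    exact hP

/-- What the handling of a task means. -/
def Handled {ι : Type 1} (P : ι → Node → Prop) (a : Ord) (h : Node → ℚ) (K' : List ((Node → Prop) × ℚ))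
    (L' : List (Bt × ℕ × ℚ × ℚ)) : Option (ι ⊕ (D.Q × Bt × Finset ℕ)) → Prop
  | none => True
  | some (Sum.inl x) => ∃ v, (P x, v) ∈ K'
  | some (Sum.inr w) => D.lv w.1 ≤ a → (∀ z : Node, z.1 < D.lv w.1 → h z = D.st w.1 z) →
      ∃ t ∈ D.Y w.1 w.2.1, (∀ l, t l ∉ w.2.2) ∧ ∀ l, ∃ v', (w.2.1, t l, v', D.v w.1 l) ∈ L'

theorem task_step {ι : Type 1} (P : ι → Node → Prop) (al : ℕ → Ord) (hal : ∀ n, al n ∈ D.C)
    (hP : ∀ x, Brn (D.R b₀) al (P x)) (n : ℕ) (h : Node → ℚ) (hT : D.T (al n) h)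
    (K : List ((Node → Prop) × ℚ)) (hK : ∀ e ∈ K, Brn (D.R b₀) al e.1)
    (t : Option (ι ⊕ (D.Q × Bt × Finset ℕ))) :
    ∃ (K' : List ((Node → Prop) × ℚ)) (L' : List (Bt × ℕ × ℚ × ℚ)),
      (∀ e ∈ K', Brn (D.R b₀) al e.1 ∧ SatP e.1 h (al n) e.2) ∧
      (∀ d ∈ L', ((fun z => D.R d.1 z (D.δ, d.2.1)), d.2.2.1) ∈ K' ∧ d.2.2.1 < d.2.2.2 ∧
        ∀ e ∈ K, ∀ m, ¬ (D.R d.1 (al n, m) (D.δ, d.2.1) ∧ e.1 (al n, m))) ∧
      Handled D P (al n) h K' L' t := by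
  classical
  rcases t with _ | x | ⟨π, b, fi⟩
  · exact ⟨[], [], by simp, by simp, trivial⟩
  · obtain ⟨m, hm1, hm2⟩ := hP x n
    obtain ⟨w, v', hv', hw⟩ := D.bd (al n) (hal n) h hT b₀ m
    refine ⟨[(P x, w)], [], ?_, by simp, ⟨w, by simp⟩⟩
    intro e he
    rw [List.mem_singleton] at he
    subst he
    exact ⟨hP x, v', hv', fun z hz hPz => hw z hz ((hm2 z hz.le).1 hPz)⟩
  · by_cases hc : D.lv π ≤ al n ∧ ∀ z : Node, z.1 < D.lv π → h z = D.st π z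
    swap
    · refine ⟨[], [], by simp, by simp, fun h1 h2 => absurd ⟨h1, h2⟩ hc⟩
    obtain ⟨hc1, hc2⟩ := hc
    -- restrictions to the level `al n`
    let rs : (Node → Prop) → ℕ := fun Q => if hq : ∃ m, Q (al n, m) then hq.choose else 0
    have hrs : ∀ Q, Brn (D.R b₀) al Q → ∀ m, Q (al n, m) → m = rs Q := by
      intro Q hQ m hm
      have hq : ∃ m, Q (al n, m) := ⟨m, hm⟩
      have : Q (al n, rs Q) := by
        change Q (al n, if hq : ∃ m, Q (al n, m) then hq.choose else 0)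
        rw [dif_pos hq]
        exact hq.choose_spec
      exact hQ.uniq (D.tree b₀) (fun k => (D.Clt _ (hal k)).le) hm this
    let fi' : Finset ℕ := (K.map (fun e => rs e.1)).toFinset ∪
      fi.image (fun f => rs (fun z => D.R b z (D.δ, f)))
    obtain ⟨t, htY, m, hm, hmf, hSat⟩ := D.prom π (al n) (hal n) hc1 h hT hc2 b fi'
    have hfld := D.fld π b t htY
    have hbr : ∀ l, Brn (D.R b₀) al (fun z => D.R b z (D.δ, t l)) := fun l => brn_top D b₀ al hal (hfld l)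
    have hvs : ∀ l, ∃ v', v' < D.v π l ∧ SatP (fun z => D.R b z (D.δ, t l)) h (al n) v' := by
      intro l
      obtain ⟨v'', hv'', H⟩ := hSat l
      refine ⟨(v'' + D.v π l) / 2, by linarith, v'', by linarith, fun z hz hR => H z hz ?_⟩
      exact (tree_below (D.tree b) (x := (al n, m l)) (y := (D.δ, t l)) (z := z) le_rfl (hm l)
        hz.le).1 hR
    choose v' hv'1 hv'2 using hvs
    refine ⟨List.ofFn (fun l => ((fun z => D.R b z (D.δ, t l)), v' l)),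
      List.ofFn (fun l => (b, t l, v' l, D.v π l)), ?_, ?_, ?_⟩
    · intro e he
      rw [List.mem_ofFn] at he
      obtain ⟨l, rfl⟩ := he
      exact ⟨hbr l, hv'2 l⟩
    · intro d hd
      rw [List.mem_ofFn] at hd
      obtain ⟨l, rfl⟩ := hd
      refine ⟨?_, hv'1 l, ?_⟩
      · rw [List.mem_ofFn]
        exact ⟨l, rfl⟩
      · rintro e he k ⟨h1, h2⟩
        have e1 := hrs e.1 (hK e he) k h2
        have e2 : m l = k := (hbr l).uniq (D.tree b₀) (fun k => (D.Clt _ (hal k)).le) (hm l) h1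
        apply hmf l
        rw [e2, e1]
        apply Finset.mem_union_left
        rw [List.mem_toFinset, List.mem_map]
        exact ⟨e, he, rfl⟩
    · intro _ _
      refine ⟨t, htY, ?_, ?_⟩
      · intro l hl
        apply hmf l
        apply Finset.mem_union_right
        rw [Finset.mem_image]
        refine ⟨t l, hl, ?_⟩
        exact (hrs _ (hbr l) (m l) (hm l)).symm
      · intro l
        refine ⟨v' l, ?_⟩
        rw [List.mem_ofFn]
        exact ⟨l, rfl⟩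

/-- The fusion. -/
theorem fusion {ι : Type 1} [Countable ι] (P : ι → Node → Prop) (al : ℕ → Ord) (hal : ∀ n, al n ∈ D.C)
    (hmono : ∀ n, al n ≤ al (n + 1)) (hcof : ∀ β ∈ D.C, ∃ n, β ≤ al n)
    (hP : ∀ x, Brn (D.R b₀) al (P x)) (h₀ : Node → ℚ) (hT : D.T (al 0) h₀)
    (K₀ : List (Bt × ℕ × ℚ)) (hK₀ : ∀ e ∈ K₀, D.R e.1 (D.δ, e.2.1) (D.δ, e.2.1) ∧
      Sat (D.R e.1) h₀ (al 0) (D.δ, e.2.1) e.2.2) :
    ∃ (h : Node → ℚ) (L : ℕ → List (Bt × ℕ × ℚ × ℚ)), (∀ n, D.T (al n) h) ∧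
      (∀ z : Node, z.1 < al 0 → h z = h₀ z) ∧
      (∀ x, ∃ B, ∀ z : Node, (∃ n, z.1 < al n) → P x z → h z ≤ B) ∧
      (∀ n, ∀ d ∈ L n, d.2.2.1 < d.2.2.2 ∧
        ∀ z : Node, (∃ n, z.1 < al n) → D.R d.1 z (D.δ, d.2.1) → h z ≤ d.2.2.1) ∧
      (∀ e ∈ K₀, ∃ v', (e.1, e.2.1, v', e.2.2) ∈ L 0) ∧
      (∀ π, (∀ z : Node, z.1 < D.lv π → h z = D.st π z) → ∀ b (fi : Finset ℕ),
        ∃ t ∈ D.Y π b, (∀ l, t l ∉ fi) ∧ ∀ l, ∃ n v', (b, t l, v', D.v π l) ∈ L n) ∧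
      (∀ n n', n < n' → ∀ d ∈ L n, ∀ d' ∈ L n', ∃ k, ∀ m,
        ¬ (D.R d.1 (al k, m) (D.δ, d.2.1) ∧ D.R d'.1 (al k, m) (D.δ, d'.2.1))) := by
  classical
  have := D.ctB
  have := D.ctQ
  have halδ : ∀ n, al n < D.δ := fun n => D.Clt _ (hal n)
  -- the tasks
  obtain ⟨g, hg⟩ := exists_surjective_nat (Option (ι ⊕ (D.Q × Bt × Finset ℕ)))
  let f : ℕ → Option (ι ⊕ (D.Q × Bt × Finset ℕ)) := fun n => g n.unpair.1
  have hf : ∀ t, ∀ N, ∃ n ≥ N, f n = t := by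
    intro t N
    obtain ⟨a, ha⟩ := hg t
    refine ⟨Nat.pair a N, Nat.right_le_pair a N, ?_⟩
    change g (Nat.pair a N).unpair.1 = t
    rw [Nat.unpair_pair]
    exact ha
  -- the initial state
  have hv0 : ∀ e ∈ K₀, ∃ v', v' < e.2.2 ∧ SatP (fun z => D.R e.1 z (D.δ, e.2.1)) h₀ (al 0) v' := by
    intro e he
    obtain ⟨v'', hv'', H⟩ := (hK₀ e he).2
    exact ⟨(v'' + e.2.2) / 2, by linarith, v'', by linarith, fun z hz hR => H z hz hR⟩
  let vf : Bt × ℕ × ℚ → ℚ := fun e => if he : e ∈ K₀ then (hv0 e he).choose else 0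
  have hvf : ∀ e ∈ K₀, vf e < e.2.2 ∧ SatP (fun z => D.R e.1 z (D.δ, e.2.1)) h₀ (al 0) (vf e) := by
    intro e he
    have : vf e = (hv0 e he).choose := dif_pos he
    rw [this]
    exact (hv0 e he).choose_spec
  let s₀ : (Node → ℚ) × List ((Node → Prop) × ℚ) × List (Bt × ℕ × ℚ × ℚ) :=
    (h₀, K₀.map (fun e => ((fun z => D.R e.1 z (D.δ, e.2.1)), vf e)),
      K₀.map (fun e => (e.1, e.2.1, vf e, e.2.2)))
  let Inv : ℕ → (Node → ℚ) × List ((Node → Prop) × ℚ) × List (Bt × ℕ × ℚ × ℚ) → Prop := fun n s =>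
    D.T (al n) s.1 ∧ (∀ e ∈ s.2.1, Brn (D.R b₀) al e.1 ∧ SatP e.1 s.1 (al n) e.2) ∧
    (∀ d ∈ s.2.2, ((fun z => D.R d.1 z (D.δ, d.2.1)), d.2.2.1) ∈ s.2.1 ∧ d.2.2.1 < d.2.2.2)
  let Tr : ℕ → (Node → ℚ) × List ((Node → Prop) × ℚ) × List (Bt × ℕ × ℚ × ℚ) →
      (Node → ℚ) × List ((Node → Prop) × ℚ) × List (Bt × ℕ × ℚ × ℚ) → Prop := fun n s s' =>
    (∀ z : Node, z.1 < al n → s'.1 z = s.1 z) ∧ (∀ e ∈ s.2.1, e ∈ s'.2.1) ∧
    (∀ d ∈ s'.2.2, ∀ e ∈ s.2.1, ∀ m, ¬ (D.R d.1 (al n, m) (D.δ, d.2.1) ∧ e.1 (al n, m))) ∧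
    Handled D P (al n) s.1 s'.2.1 s'.2.2 (f n)
  have hI0 : Inv 0 s₀ := by
    refine ⟨hT, ?_, ?_⟩
    · intro e he
      obtain ⟨e', he', rfl⟩ := List.mem_map.1 he
      exact ⟨brn_top D b₀ al hal (hK₀ e' he').1, (hvf e' he').2⟩
    · intro d hd
      obtain ⟨e', he', rfl⟩ := List.mem_map.1 hd
      refine ⟨List.mem_map.2 ⟨e', he', rfl⟩, (hvf e' he').1⟩
  have hstep : ∀ n s, Inv n s → ∃ s', Tr n s s' ∧ Inv (n + 1) s' := by
    rintro n ⟨h, K, L⟩ ⟨hT, hK, hL⟩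
    obtain ⟨K', L', h1, h2, h3⟩ := task_step D b₀ P al hal hP n h hT K (fun e he => (hK e he).1) (f n)
    have hKK : ∀ e ∈ K ++ K', Brn (D.R b₀) al e.1 ∧ SatP e.1 h (al n) e.2 := by
      intro e he
      rcases List.mem_append.1 he with he | he
      · exact hK e he
      · exact h1 e he
    obtain ⟨h', hT', heq, hS⟩ := sep_list D b₀ (hal n) (hal (n + 1)) (hmono n) h hT (K ++ K') (by
      intro e he
      obtain ⟨h4, h5⟩ := hKK e he
      obtain ⟨m, _, hm⟩ := h4 (n + 1)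
      exact ⟨⟨m, hm⟩, h5⟩)
    refine ⟨(h', K ++ K', L'), ⟨heq, fun e he => List.mem_append_left _ he, fun d hd => (h2 d hd).2.2, ?_⟩,
      hT', fun e he => ⟨(hKK e he).1, hS e he⟩, fun d hd => ⟨List.mem_append_right _ (h2 d hd).1, (h2 d hd).2.1⟩⟩
    change Handled D P (al n) h (K ++ K') L' (f n)
    revert h3
    rcases f n with _ | x | w
    · exact fun h => h
    · rintro ⟨v, hv⟩
      exact ⟨v, List.mem_append_right _ hv⟩
    · exact fun h => h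
  obtain ⟨s, hs0, hsI, hsT⟩ := dc_seq Inv Tr s₀ hI0 hstep
  have hmono' : ∀ n n', n ≤ n' → al n ≤ al n' := fun n n' h => monotone_nat_of_le_succ hmono h
  have hKmono : ∀ n n', n ≤ n' → ∀ e ∈ (s n).2.1, e ∈ (s n').2.1 := by
    intro n n' hnn
    induction n', hnn using Nat.le_induction with
    | base => exact fun e he => he
    | succ k _ ih => exact fun e he => (hsT k).2.1 e (ih e he)
  have hheq : ∀ n n', n ≤ n' → ∀ z : Node, z.1 < al n → (s n').1 z = (s n).1 z := by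
    intro n n' hnn
    induction n', hnn using Nat.le_induction with
    | base => exact fun z _ => rfl
    | succ k hk ih =>
      intro z hz
      rw [(hsT k).1 z (lt_of_lt_of_le hz (hmono' _ _ hk)), ih z hz]
  let h : Node → ℚ := fun z => if hz : ∃ n, z.1 < al n then (s (Nat.find hz)).1 z else 0
  have hh : ∀ n, ∀ z : Node, z.1 < al n → h z = (s n).1 z := by
    intro n z hz
    have hz' : ∃ n, z.1 < al n := ⟨n, hz⟩
    have h1 : h z = (s (Nat.find hz')).1 z := dif_pos hz'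
    rw [h1, ← hheq _ n (Nat.find_min' hz' hz) z (Nat.find_spec hz')]
  have hTn : ∀ n, D.T (al n) h := fun n =>
    D.ext (al n) (s n).1 h (fun z hz => (hh n z hz).symm) (hsI n).1
  have hKn : ∀ n, ∀ e ∈ (s n).2.1, ∀ z : Node, (∃ n, z.1 < al n) → e.1 z → h z ≤ e.2 := by
    rintro n e he z ⟨n', hz⟩ hez
    have h1 := hKmono n (max n n') (le_max_left _ _) e he
    obtain ⟨_, v', hv', H⟩ := (hsI (max n n')).2.1 e h1
    have hz' : z.1 < al (max n n') := lt_of_lt_of_le hz (hmono' _ _ (le_max_right _ _))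
    rw [hh _ z hz']
    exact (H z hz' hez).trans hv'.le
  refine ⟨h, fun n => (s n).2.2, hTn, ?_, ?_, ?_, ?_, ?_, ?_⟩
  · intro z hz
    rw [hh 0 z hz, hs0]
  · intro x
    obtain ⟨n, _, hn⟩ := hf (some (Sum.inl x)) 0
    have h1 := (hsT n).2.2.2
    rw [hn] at h1
    obtain ⟨v, hv⟩ := h1
    exact ⟨v, fun z hz hx => hKn (n + 1) _ hv z hz hx⟩
  · intro n d hd
    have h1 := (hsI n).2.2 d hd
    exact ⟨h1.2, fun z hz hR => hKn n _ h1.1 z hz hR⟩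
  · intro e he
    refine ⟨vf e, ?_⟩
    change _ ∈ (s 0).2.2
    rw [hs0]
    exact List.mem_map.2 ⟨e, he, rfl⟩
  · intro π hπ b fi
    obtain ⟨N, hN⟩ := hcof _ (D.lvC π)
    obtain ⟨n, hn, hfn⟩ := hf (some (Sum.inr (π, b, fi))) N
    have hle : D.lv π ≤ al n := hN.trans (hmono' _ _ hn)
    have h1 := (hsT n).2.2.2
    rw [hfn] at h1
    obtain ⟨t, ht, htf, hl⟩ := h1 hle (fun z hz => by
      rw [← hh n z (lt_of_lt_of_le hz hle)]
      exact hπ z hz)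
    refine ⟨t, ht, htf, fun l => ?_⟩
    obtain ⟨v', hv'⟩ := hl l
    exact ⟨n + 1, v', hv'⟩
  · intro n n' hnn d hd d' hd'
    obtain ⟨k, rfl⟩ : ∃ k, n' = k + 1 := ⟨n' - 1, by omega⟩
    refine ⟨k, fun m hm => ?_⟩
    have h1 := ((hsI n).2.2 d hd).1
    have h2 := hKmono n k (by omega) _ h1
    exact (hsT k).2.2.1 d' hd' _ h2 m ⟨hm.2, hm.1⟩

end

theorem exists_phi (δ : Ord) (hδ : δ < ω_ 1) : ∃ φ : Ord → ℚ, (∀ ξ < δ, 0 < φ ξ ∧ φ ξ < 1) ∧
    ∀ ξ η, ξ < η → η < δ → φ ξ < φ η := by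
  classical
  have hc : Countable (Set.Iio δ) := by
    rw [← Cardinal.mk_le_aleph0_iff, Cardinal.mk_Iio_ordinal]
    have h1 : δ.card ≤ ℵ₀ := Cardinal.lt_aleph_one_iff.1 (Cardinal.lt_omega_iff_card_lt.1 hδ)
    exact Cardinal.lift_le_aleph0.2 h1
  have : Nontrivial (Set.Ioo (0 : ℚ) 1) :=
    ⟨⟨⟨1 / 2, by norm_num, by norm_num⟩, ⟨1 / 3, by norm_num, by norm_num⟩, by
      intro h
      have := congrArg Subtype.val h
      norm_num at this⟩⟩
  obtain ⟨f⟩ := Order.embedding_from_countable_to_dense (Set.Iio δ) (Set.Ioo (0 : ℚ) 1)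
  refine ⟨fun ξ => if h : ξ < δ then (f ⟨ξ, h⟩ : ℚ) else 0, ?_, ?_⟩
  · intro ξ hξ
    simp only [hξ, dif_pos]
    exact (f ⟨ξ, hξ⟩).2
  · intro ξ η h1 h2
    simp only [h2, h1.trans h2, dif_pos]
    exact f.lt_iff_lt.2 h1

/-- Refining the bounds by finitely many demands. -/
theorem refine_bd (h : Node → ℚ) (S : Set Node) (Λ : List (ℚ × ℚ))
    (hΛ : ∀ d ∈ Λ, d.1 < d.2 ∧ ∀ z ∈ S, h z ≤ d.1) (B B₂ : ℚ) (hB : B < B₂) (hS : ∀ z ∈ S, h z ≤ B) :
    ∃ B' B₂', B' < B₂' ∧ B₂' ≤ B₂ ∧ (∀ z ∈ S, h z ≤ B') ∧ ∀ d ∈ Λ, B₂' < d.2 := by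
  induction Λ with
  | nil => exact ⟨B, B₂, hB, le_rfl, hS, by simp⟩
  | cons d Λ ih =>
    obtain ⟨B', B₂', h1, h2, h3, h4⟩ := ih (fun e he => hΛ e (List.mem_cons_of_mem _ he))
    obtain ⟨h5, h6⟩ := hΛ d List.mem_cons_self
    refine ⟨min B' d.1, min B₂' ((d.1 + d.2) / 2), ?_, ?_, ?_, ?_⟩
    · rw [lt_min_iff]
      exact ⟨(min_le_left _ _).trans_lt h1, (min_le_right _ _).trans_lt (by linarith)⟩
    · exact (min_le_left _ _).trans h2
    · intro z hz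
      exact le_min (h3 z hz) (h6 z hz)
    · intro e he
      rcases List.mem_cons.1 he with rfl | he
      · exact (min_le_right _ _).trans_lt (by linarith)
      · exact (min_le_left _ _).trans_lt (h4 e he)

/-- An almost optimal upper bound. -/
theorem near_sup (h : Node → ℚ) (S : Set Node) (hne : S.Nonempty) (U : ℚ) (hU : ∀ z ∈ S, h z ≤ U)
    (e : ℚ) (he : 0 < e) : ∃ B B₂, B < B₂ ∧ (∀ z ∈ S, h z ≤ B) ∧ ∀ w, (∀ z ∈ S, h z ≤ w) → B₂ < w + e := by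
  classical
  obtain ⟨z₀, hz₀⟩ := hne
  have hex : ∃ k : ℕ, ¬ ∀ z ∈ S, h z ≤ U - k * (e / 2) := by
    obtain ⟨k, hk⟩ := exists_nat_gt ((U - h z₀) / (e / 2))
    refine ⟨k, fun H => ?_⟩
    have h1 := H z₀ hz₀
    rw [div_lt_iff₀ (by linarith)] at hk
    linarith
  have h1 := Nat.find_spec hex
  have h2 : Nat.find hex ≠ 0 := by
    intro h0
    rw [h0] at h1
    apply h1
    simpa using hU
  obtain ⟨k, hk⟩ := Nat.exists_eq_succ_of_ne_zero h2
  have h3 := Nat.find_min hex (m := k) (by omega)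
  rw [not_not] at h3
  rw [hk] at h1
  push Not at h1
  obtain ⟨z, hz, hz'⟩ := h1
  refine ⟨U - k * (e / 2), U - k * (e / 2) + e / 4, by linarith, h3, fun w hw => ?_⟩
  have h4 := hw z hz
  push_cast at hz'
  linarith

section
variable {Bt : Type 1} (D : FD Bt) (b₀ : Bt)

/-- Filling the levels between `Z` and `δ`. -/
theorem fill {Z : Ord} (h : Node → ℚ) (B B₂ : ℕ → ℚ)
    (hB : ∀ n, D.R b₀ (Z, n) (Z, n) → B n < B₂ n ∧ ∀ z : Node, z.1 < Z → D.R b₀ z (Z, n) → h z ≤ B n) :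
    ∃ h' : Node → ℚ, (∀ z : Node, z.1 < Z → h' z = h z) ∧
      (∀ n, ∀ z : Node, Z ≤ z.1 → z.1 < D.δ → D.R b₀ (Z, n) z → B n < h' z ∧ h' z < B₂ n) ∧
      (∀ x y : Node, y.1 < D.δ → Z ≤ y.1 → D.R b₀ x y → x ≠ y → h' x < h' y) := by
  classical
  obtain ⟨φ, hφ1, hφ2⟩ := exists_phi D.δ D.lt
  have hT := D.tree b₀
  let k : Node → ℕ := fun z => if hz : ∃ n, D.R b₀ (Z, n) z then hz.choose else 0
  have hk : ∀ n, ∀ z : Node, z.1 < D.δ → D.R b₀ (Z, n) z → k z = n := by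
    intro n z hz hR
    have hex : ∃ n, D.R b₀ (Z, n) z := ⟨n, hR⟩
    have h1 : k z = hex.choose := dif_pos hex
    have h2 : ((Z, k z) : Node) = (Z, n) := by
      rw [h1]
      exact hT.uniq _ _ _ hz.le hex.choose_spec hR rfl
    exact (Prod.mk.inj h2).2
  let h' : Node → ℚ := fun z => if z.1 < Z then h z else B (k z) + (B₂ (k z) - B (k z)) * φ z.1
  have hlow : ∀ z : Node, z.1 < Z → h' z = h z := fun z hz => if_pos hz
  have hhigh : ∀ z : Node, Z ≤ z.1 → h' z = B (k z) + (B₂ (k z) - B (k z)) * φ z.1 :=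
    fun z hz => if_neg (not_lt.2 hz)
  have hmid : ∀ n, ∀ z : Node, Z ≤ z.1 → z.1 < D.δ → D.R b₀ (Z, n) z → B n < h' z ∧ h' z < B₂ n := by
    intro n z hz hzδ hR
    rw [hhigh z hz, hk n z hzδ hR]
    obtain ⟨h1, h2⟩ := hφ1 z.1 hzδ
    have h3 := (hB n (hT.refl _ _ hzδ.le hR).1).1
    constructor
    · have : 0 < (B₂ n - B n) * φ z.1 := mul_pos (by linarith) h1
      linarith
    · have : (B₂ n - B n) * φ z.1 < (B₂ n - B n) * 1 := mul_lt_mul_of_pos_left h2 (by linarith)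
      linarith
  refine ⟨h', hlow, hmid, ?_⟩
  intro x y hy hyZ hR hne
  obtain ⟨h1, h2⟩ := hT.lvl x y hy.le hR
  have hlt : x.1 < y.1 := lt_of_le_of_ne h1 (fun e => hne (h2 e))
  obtain ⟨n, hn⟩ := hT.ex y hy.le (hT.refl x y hy.le hR).2 Z hyZ
  have h3 := hmid n y hyZ hy hn
  rcases lt_or_ge x.1 Z with hx | hx
  · rw [hlow x hx]
    have h4 : D.R b₀ x (Z, n) := (tree_below hT (x := (Z, n)) (y := y) (z := x) hy.le hn hx.le).1 hR
    have h5 := (hB n (hT.refl _ _ hy.le hn).1).2 x hx h4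
    linarith
  · have h4 : D.R b₀ (Z, n) x := (tree_below hT (x := x) (y := y) (z := (Z, n)) hy.le hR hx).1 hn
    have hxδ : x.1 < D.δ := hlt.trans hy
    rw [hhigh x hx, hhigh y hyZ, hk n x hxδ h4, hk n y hy hn]
    have h5 := hφ2 x.1 y.1 hlt hy
    have h6 := (hB n (hT.refl _ _ hy.le hn).1).1
    have h7 : (B₂ n - B n) * φ x.1 < (B₂ n - B n) * φ y.1 := mul_lt_mul_of_pos_left h5 (by linarith)
    linarith

theorem exists_al {α : Ord} (hα : α ∈ D.C) : ∃ al : ℕ → Ord, al 0 = α ∧ (∀ n, al n ∈ D.C) ∧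
    (∀ n, al n ≤ al (n + 1)) ∧ ∀ β ∈ D.C, ∃ n, β ≤ al n := by
  have hc : D.C.Countable := by
    have h1 : D.C ⊆ Set.Iio D.δ := fun β hβ => D.Clt β hβ
    refine Set.Countable.mono h1 ?_
    have hc : Countable (Set.Iio D.δ) := by
      rw [← Cardinal.mk_le_aleph0_iff, Cardinal.mk_Iio_ordinal]
      have h1 : D.δ.card ≤ ℵ₀ := Cardinal.lt_aleph_one_iff.1 (Cardinal.lt_omega_iff_card_lt.1 D.lt)
      exact Cardinal.lift_le_aleph0.2 h1
    exact hc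
  obtain ⟨c, hc⟩ := hc.exists_eq_range ⟨α, hα⟩
  let al : ℕ → Ord := fun n => Nat.rec α (fun n a => max a (c n)) n
  have hs : ∀ n, al (n + 1) = max (al n) (c n) := fun n => rfl
  have hcC : ∀ n, c n ∈ D.C := fun n => by rw [hc]; exact ⟨n, rfl⟩
  refine ⟨al, rfl, ?_, ?_, ?_⟩
  · intro n
    induction n with
    | zero => exact hα
    | succ n ih =>
      rw [hs]
      rcases max_choice (al n) (c n) with h | h
      · rw [h]; exact ih
      · rw [h]; exact hcC n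
  · intro n
    rw [hs]
    exact le_max_left _ _
  · intro β hβ
    rw [hc] at hβ
    obtain ⟨n, rfl⟩ := hβ
    exact ⟨n + 1, by rw [hs]; exact le_max_right _ _⟩

include b₀ in
/-- The common form. -/
theorem main {α : Ord} (hα : α ∈ D.C) (h₀ : Node → ℚ) (hT₀ : D.T α h₀)
    (K₀ : List (Bt × ℕ × ℚ)) (hK₀ : ∀ e ∈ K₀, D.R e.1 (D.δ, e.2.1) (D.δ, e.2.1) ∧
      Sat (D.R e.1) h₀ α (D.δ, e.2.1) e.2.2) (e : ℚ) (he : 0 < e) :
    ∃ h, D.Out h ∧ (∀ x : Node, x.1 < α → h x = h₀ x) ∧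
      (∀ e ∈ K₀, Sat (D.R e.1) h D.δ (D.δ, e.2.1) e.2.2) ∧
      ((∀ β ∈ D.C, β ≤ α) → ∀ b n w, Sat (D.R b) h₀ α (D.δ, n) w → Sat (D.R b) h D.δ (D.δ, n) (w + e)) := by
  classical
  obtain ⟨al, hal0, hal, hmono, hcof⟩ := exists_al D hα
  have hmono' : ∀ n n', n ≤ n' → al n ≤ al n' := fun n n' h => monotone_nat_of_le_succ hmono h
  have halδ : ∀ n, al n < D.δ := fun n => D.Clt _ (hal n)
  subst hal0
  have hctB := D.ctB
  have hfree : ∀ (b : Bt) (n : ℕ) (h : Node → ℚ) (β : Ord) (w : ℚ), ¬ D.R b (D.δ, n) (D.δ, n) →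
      Sat (D.R b) h β (D.δ, n) w := by
    intro b n h β w hn
    exact ⟨w - 1, by linarith, fun x _ hR => absurd ((D.tree b).refl _ _ le_rfl hR).2 hn⟩
  -- values of the limit function on the levels of `C`
  have hTC : ∀ h : Node → ℚ, (∀ n, D.T (al n) h) → ∀ β ∈ D.C, D.T β h := by
    intro h hTn β hβ
    obtain ⟨n, hn⟩ := hcof β hβ
    rcases hn.eq_or_lt with rfl | hlt
    · exact hTn n
    · exact D.down β hβ (al n) (hal n) hlt h (hTn n)
  by_cases hcase : ∀ ξ < D.δ, ∃ n, ξ < al n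
  · -- the levels are cofinal
    let ι : Type 1 := {x : Bt × ℕ // D.R x.1 (D.δ, x.2) (D.δ, x.2)}
    obtain ⟨h, L, h1, h2, h3, h4, h5, h6, _⟩ := fusion D b₀ (ι := ι)
      (fun x z => D.R x.1.1 z (D.δ, x.1.2)) al hal hmono hcof (fun x => brn_top D b₀ al hal x.2) h₀ hT₀ K₀ hK₀
    have hSat : ∀ n, ∀ d ∈ L n, Sat (D.R d.1) h D.δ (D.δ, d.2.1) d.2.2.2 := by
      intro n d hd
      obtain ⟨h7, h8⟩ := h4 n d hd
      exact ⟨d.2.2.1, h7, fun z hz hR => h8 z (hcase z.1 hz) hR⟩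
    refine ⟨h, ⟨hTC h h1, ?_, ?_, ?_⟩, h2, ?_, ?_⟩
    · intro b x y hx hy hR hne
      obtain ⟨n, hn⟩ := hcase y.1 hy
      have hxy := ((D.tree b).lvl x y hy.le hR).1
      exact D.inc (al n) (hal n) h (h1 n) b x y (hxy.trans_lt hn) hn hR hne
    · intro b n
      by_cases hf : D.R b (D.δ, n) (D.δ, n)
      · obtain ⟨B, hB⟩ := h3 ⟨(b, n), hf⟩
        exact ⟨B + 1, B, by linarith, fun z hz hR => hB z (hcase z.1 hz) hR⟩
      · exact ⟨0, hfree b n h D.δ 0 hf⟩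
    · intro π hπ b fi
      obtain ⟨t, ht, htf, hl⟩ := h6 π hπ b fi
      refine ⟨t, ht, htf, fun l => ?_⟩
      obtain ⟨n, v', hv'⟩ := hl l
      exact hSat n _ hv'
    · intro e he
      obtain ⟨v', hv'⟩ := h5 e he
      exact hSat 0 _ hv'
    · intro hmax
      obtain ⟨n, hn⟩ := hcase (al 0) (halδ 0)
      exact absurd (hmax _ (hal n)) (not_le.2 hn)
  · -- the levels are bounded
    push Not at hcase
    obtain ⟨ξ, hξδ, hξ⟩ := hcase
    let S : Set Ord := {ζ | ∀ n, al n ≤ ζ}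
    have hSne : S.Nonempty := ⟨ξ, hξ⟩
    let Z : Ord := sInf S
    have hZS : ∀ n, al n ≤ Z := csInf_mem hSne
    have hZmin : ∀ ζ, ζ < Z → ∃ n, ζ < al n := by
      intro ζ hζ
      by_contra hcon
      push Not at hcon
      exact absurd (csInf_le' (s := S) hcon) (not_le.2 hζ)
    have hZδ : Z < D.δ := lt_of_le_of_lt (csInf_le' (s := S) hξ) hξδ
    have hZiff : ∀ z : Node, (∃ n, z.1 < al n) ↔ z.1 < Z :=
      fun z => ⟨fun ⟨n, hn⟩ => lt_of_lt_of_le hn (hZS n), fun hz => hZmin z.1 hz⟩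
    have hT := D.tree b₀
    let ι : Type 1 := ULift.{1} {n : ℕ // D.R b₀ (Z, n) (Z, n)}
    obtain ⟨h, L, h1, h2, h3, h4, h5, h6, h7⟩ := fusion D b₀ (ι := ι)
      (fun x z => D.R b₀ z (Z, x.down.1)) al hal hmono hcof
      (fun x => brn_low D b₀ al hZδ hZS x.down.2) h₀ hT₀ K₀ hK₀
    -- branches through nodes of the level `Z`
    have hbr : ∀ (b : Bt) (m n : ℕ), D.R b (Z, n) (D.δ, m) → ∀ z : Node, z.1 ≤ Z →
        (D.R b z (D.δ, m) ↔ D.R b₀ z (Z, n)) := by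
      intro b m n hR z hz
      have e1 := tree_below (D.tree b) (x := (Z, n)) (y := (D.δ, m)) (z := z) le_rfl hR hz
      exact e1.trans (D.agree b b₀ z (Z, n) (lt_of_le_of_lt hz hZδ) hZδ)
    have hbounds : ∀ n, D.R b₀ (Z, n) (Z, n) → ∃ B B₂ : ℚ, B < B₂ ∧
        (∀ z : Node, z.1 < Z → D.R b₀ z (Z, n) → h z ≤ B) ∧
        (∀ w, (∀ z : Node, z.1 < Z → D.R b₀ z (Z, n) → h z ≤ w) → B₂ < w + e) ∧
        (∀ k, ∀ d ∈ L k, D.R d.1 (Z, n) (D.δ, d.2.1) → B₂ < d.2.2.2) := by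
      intro n hn
      let S : Set Node := {z | z.1 < Z ∧ D.R b₀ z (Z, n)}
      have hSne : S.Nonempty := by
        have hpos : 0 < al 0 := (D.Clim _ (hal 0)).bot_lt
        have hposZ : 0 < Z := lt_of_lt_of_le hpos (hZS 0)
        obtain ⟨k, hk⟩ := hT.ex (Z, n) hZδ.le hn 0 zero_le
        exact ⟨(0, k), hposZ, hk⟩
      obtain ⟨U, hU⟩ := h3 ⟨⟨n, hn⟩⟩
      have hU' : ∀ z ∈ S, h z ≤ U := fun z hz => hU z ((hZiff z).2 hz.1) hz.2
      obtain ⟨B, B₂, hB1, hB2, hB3⟩ := near_sup h S hSne U hU' e he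
      -- the demands above the node
      have hΛ : ∃ Λ : List (ℚ × ℚ), (∀ d ∈ Λ, d.1 < d.2 ∧ ∀ z ∈ S, h z ≤ d.1) ∧
          ∀ k, ∀ d ∈ L k, D.R d.1 (Z, n) (D.δ, d.2.1) → (d.2.2.1, d.2.2.2) ∈ Λ := by
        by_cases hd : ∃ k, ∃ d ∈ L k, D.R d.1 (Z, n) (D.δ, d.2.1)
        · obtain ⟨k, d, hd, hdR⟩ := hd
          refine ⟨((L k).filter (fun d => decide (D.R d.1 (Z, n) (D.δ, d.2.1)))).map
            (fun d => (d.2.2.1, d.2.2.2)), ?_, ?_⟩
          · intro c hc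
            obtain ⟨d', hd', rfl⟩ := List.mem_map.1 hc
            rw [List.mem_filter, decide_eq_true_iff] at hd'
            obtain ⟨e1, e2⟩ := h4 k d' hd'.1
            exact ⟨e1, fun z hz => e2 z ((hZiff z).2 hz.1) ((hbr _ _ _ hd'.2 z hz.1.le).2 hz.2)⟩
          · intro k' d' hd' hdR'
            have hkk : k' = k := by
              by_contra hne
              rcases Nat.lt_or_gt_of_ne hne with hlt | hlt
              · obtain ⟨j, hj⟩ := h7 k' k hlt d' hd' d hd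
                obtain ⟨m, hm⟩ := hT.ex (Z, n) hZδ.le hn (al j) (hZS j)
                exact hj m ⟨(hbr _ _ _ hdR' (al j, m) (hZS j)).2 hm, (hbr _ _ _ hdR (al j, m) (hZS j)).2 hm⟩
              · obtain ⟨j, hj⟩ := h7 k k' hlt d hd d' hd'
                obtain ⟨m, hm⟩ := hT.ex (Z, n) hZδ.le hn (al j) (hZS j)
                exact hj m ⟨(hbr _ _ _ hdR (al j, m) (hZS j)).2 hm, (hbr _ _ _ hdR' (al j, m) (hZS j)).2 hm⟩
            subst hkk
            refine List.mem_map.2 ⟨d', ?_, rfl⟩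
            rw [List.mem_filter, decide_eq_true_iff]
            exact ⟨hd', hdR'⟩
        · push Not at hd
          exact ⟨[], by simp, fun k d hd' hR => absurd hR (hd k d hd')⟩
      obtain ⟨Λ, hΛ1, hΛ2⟩ := hΛ
      obtain ⟨B', B₂', e1, e2, e3, e4⟩ := refine_bd h S Λ hΛ1 B B₂ hB1 hB2
      refine ⟨B', B₂', e1, fun z hz hR => e3 z ⟨hz, hR⟩, fun w hw => ?_, fun k d hd hR => ?_⟩
      · have := hB3 w (fun z hz => hw z hz.1 hz.2)
        linarith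
      · exact e4 _ (hΛ2 k d hd hR)
    choose! B B₂ hB1 hB2 hB3 hB4 using hbounds
    obtain ⟨h', hl, hm, hi⟩ := fill D b₀ h B B₂ (fun n hn => ⟨hB1 n hn, hB2 n hn⟩)
    -- bounds at the level `δ`
    have htop : ∀ (b : Bt) (m n : ℕ), D.R b (Z, n) (D.δ, m) → ∀ z : Node, z.1 < D.δ →
        D.R b z (D.δ, m) → h' z ≤ B₂ n := by
      intro b m n hR z hz hzR
      have hn : D.R b₀ (Z, n) (Z, n) := (hbr b m n hR (Z, n) le_rfl).1 hR
      rcases lt_or_ge z.1 Z with hzZ | hzZ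
      · rw [hl z hzZ]
        have e1 := hB2 n hn z hzZ ((hbr b m n hR z hzZ.le).1 hzR)
        have e2 := hB1 n hn
        linarith
      · have e1 : D.R b (Z, n) z :=
          (tree_below (D.tree b) (x := z) (y := (D.δ, m)) (z := (Z, n)) le_rfl hzR hzZ).1 hR
        have e2 : D.R b₀ (Z, n) z := (D.agree b b₀ (Z, n) z hZδ hz).1 e1
        exact (hm n z hzZ hz e2).2.le
    have hpr : ∀ (b : Bt) (m : ℕ), D.R b (D.δ, m) (D.δ, m) → ∃ n, D.R b (Z, n) (D.δ, m) :=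
      fun b m hf => (D.tree b).ex (D.δ, m) le_rfl hf Z hZδ.le
    have hSat : ∀ n, ∀ d ∈ L n, Sat (D.R d.1) h' D.δ (D.δ, d.2.1) d.2.2.2 := by
      intro n d hd
      by_cases hf : D.R d.1 (D.δ, d.2.1) (D.δ, d.2.1)
      · obtain ⟨k, hk⟩ := hpr _ _ hf
        have hn : D.R b₀ (Z, k) (Z, k) := (hbr _ _ _ hk (Z, k) le_rfl).1 hk
        exact ⟨B₂ k, hB4 k hn n d hd hk, fun z hz hR => htop _ _ _ hk z hz hR⟩
      · exact hfree _ _ _ _ _ hf
    have hext : ∀ n, D.T (al n) h' := by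
      intro n
      exact D.ext (al n) h h' (fun z hz => (hl z (lt_of_lt_of_le hz (hZS n))).symm) (h1 n)
    refine ⟨h', ⟨hTC h' hext, ?_, ?_, ?_⟩, ?_, ?_, ?_⟩
    · intro b x y hx hy hR hne
      rcases lt_or_ge y.1 Z with hyZ | hyZ
      · obtain ⟨n, hn⟩ := hZmin y.1 hyZ
        have hxy := ((D.tree b).lvl x y hy.le hR).1
        exact D.inc (al n) (hal n) h' (hext n) b x y (hxy.trans_lt hn) hn hR hne
      · exact hi x y hy hyZ ((D.agree b b₀ x y hx hy).1 hR) hne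
    · intro b n
      by_cases hf : D.R b (D.δ, n) (D.δ, n)
      · obtain ⟨k, hk⟩ := hpr _ _ hf
        exact ⟨B₂ k + 1, B₂ k, by linarith, fun z hz hR => htop _ _ _ hk z hz hR⟩
      · exact ⟨0, hfree b n h' D.δ 0 hf⟩
    · intro π hπ b fi
      obtain ⟨N, hN⟩ := hcof _ (D.lvC π)
      obtain ⟨t, ht, htf, hl'⟩ := h6 π (fun z hz => by
        rw [← hl z (lt_of_lt_of_le hz (hN.trans (hZS N)))]
        exact hπ z hz) b fi
      refine ⟨t, ht, htf, fun l => ?_⟩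
      obtain ⟨n, v', hv'⟩ := hl' l
      exact hSat n _ hv'
    · intro z hz
      rw [hl z (lt_of_lt_of_le hz (hZS 0)), h2 z hz]
    · intro e he
      obtain ⟨v', hv'⟩ := h5 e he
      exact hSat 0 _ hv'
    · intro hmax b n w hw
      by_cases hf : D.R b (D.δ, n) (D.δ, n)
      · obtain ⟨k, hk⟩ := hpr _ _ hf
        have hn : D.R b₀ (Z, k) (Z, k) := (hbr _ _ _ hk (Z, k) le_rfl).1 hk
        obtain ⟨v', hv', H⟩ := hw
        refine ⟨B₂ k, ?_, fun z hz hR => htop _ _ _ hk z hz hR⟩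
        have := hB3 k hn v' (fun z hz hR => by
          have hz0 : z.1 < al 0 := by
            obtain ⟨j, hj⟩ := hZmin z.1 hz
            exact hj.trans_le (hmax _ (hal j))
          rw [h2 z hz0]
          exact H z hz0 ((hbr _ _ _ hk z hz.le).2 hR))
        linarith
      · exact hfree _ _ _ _ _ hf

end

theorem job_tc : St_tc := by
  classical
  intro Bt D hne α hα h₀ hT K hK
  obtain ⟨b₀⟩ := hne
  obtain ⟨h, h1, h2, h3, _⟩ := main D b₀ hα h₀ hT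
    (K.filter (fun e => decide (D.R e.1 (D.δ, e.2.1) (D.δ, e.2.1)))) (by
      intro e he
      rw [List.mem_filter, decide_eq_true_iff] at he
      exact ⟨he.2, hK e he.1⟩) 1 one_pos
  refine ⟨h, h1, h2, fun e he => ?_⟩
  by_cases hf : D.R e.1 (D.δ, e.2.1) (D.δ, e.2.1)
  · exact h3 e (by
      rw [List.mem_filter, decide_eq_true_iff]
      exact ⟨he, hf⟩)
  · exact ⟨e.2.2 - 1, by linarith, fun x _ hR => absurd ((D.tree _).refl _ _ le_rfl hR).2 hf⟩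

theorem job_tcx : St_tcx := by
  intro Bt D hne α hα hmax h₀ hT e he
  obtain ⟨b₀⟩ := hne
  obtain ⟨h, h1, h2, _, h4⟩ := main D b₀ hα h₀ hT [] (by simp) e he
  exact ⟨h, h1, h2, h4 hmax⟩

theorem job_tc0 : St_tc0 := by
  intro Bt D _ hC
  obtain ⟨φ, hφ1, hφ2⟩ := exists_phi D.δ D.lt
  refine ⟨fun z => φ z.1, ⟨?_, ?_, ?_, ?_⟩⟩
  · intro α hα
    rw [hC] at hα
    exact absurd hα (Set.notMem_empty _)
  · intro b x y _ hy hR hne
    obtain ⟨h1, h2⟩ := (D.tree b).lvl x y hy.le hR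
    exact hφ2 _ _ (lt_of_le_of_ne h1 (fun e => hne (h2 e))) hy
  · intro b n
    exact ⟨2, 1, by norm_num, fun x hx _ => (hφ1 x.1 hx).2.le⟩
  · intro π
    have := D.lvC π
    rw [hC] at this
    exact absurd this (Set.notMem_empty _)

end Pool.Agent.Helper919.SD.Ttc
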