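import Pool.Agent.Helper919_SDT.Stmts

set_option autoImplicit false

namespace Pool.Agent.Helper919.SD.Ttop

open Ordinal Cardinal Set

variable {o : Ord → Opt} {Prot : Set Ord}

theorem dec_le {y : Ord} {p : ℕ → Cond} (hp : ∀ n, p n ∈ A o y) (hd : ∀ n, CLe o (p (n + 1)) (p n)) {m n : ℕ}
    (hmn : m ≤ n) : CLe o (p n) (p m) := by
  induction n, hmn using Nat.le_induction with
  | base => exact CLe.refl _
  | succ n hmn ih => exact (hd n).trans (A.nrm (hp m)) ih

section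

variable {y : Ord} {p : ℕ → Cond} (hp : ∀ n, p n ∈ A o y) (hd : ∀ n, CLe o (p (n + 1)) (p n)) (hy : y ∈ (p 0).J)

include hp hd hy

theorem memJ (n : ℕ) : y ∈ (p n).J := (dec_le hp hd (Nat.zero_le n)).J hy

theorem u_eq {n : ℕ} {α : Ord} (hα : α ∈ (p n).C y) : ⋃ m, (p m).u y α = (p n).u y α := by
  apply Subset.antisymm
  · refine iUnion_subset fun m => ?_
    rcases le_total n m with h | h
    · rw [(dec_le hp hd h).u y (memJ hp hd hy n) α hα]
    · by_cases hm : α ∈ (p m).C y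
      · rw [(dec_le hp hd h).u y (memJ hp hd hy m) α hm]
      · rw [(A.nrm (hp m)).u y α hm]; exact empty_subset _
  · exact subset_iUnion (fun m => (p m).u y α) n

theorem T_eq {n : ℕ} {α : Ord} (hα : α ∈ (p n).C y) : ⋃ m, (p m).T y α = (p n).T y α := by
  apply Subset.antisymm
  · refine iUnion_subset fun m => ?_
    rcases le_total n m with h | h
    · rw [(dec_le hp hd h).T y (memJ hp hd hy n) α hα]
    · by_cases hm : α ∈ (p m).C y
      · rw [(dec_le hp hd h).T y (memJ hp hd hy m) α hm]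
      · rw [(A.nrm (hp m)).T y α hm]; exact empty_subset _
  · exact subset_iUnion (fun m => (p m).T y α) n

/-- Two levels of the union belong to one of the conditions. -/
theorem two {α β : Ord} (hα : α ∈ ⋃ n, (p n).C y) (hβ : β ∈ ⋃ n, (p n).C y) :
    ∃ n, α ∈ (p n).C y ∧ β ∈ (p n).C y := by
  rw [mem_iUnion] at hα hβ
  obtain ⟨m, hm⟩ := hα
  obtain ⟨n, hn⟩ := hβ
  refine ⟨max m n, ?_, ?_⟩
  · exact (dec_le hp hd (le_max_left m n)).C y (memJ hp hd hy m) hm
  · exact (dec_le hp hd (le_max_right m n)).C y (memJ hp hd hy n) hn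

end

section mk

variable (q : Cond) (y : Ord) (p : ℕ → Cond) (δ : Ord) (W : Set Ord) (Θ : Set Thr)

theorem mk_C : (mkTop q y p δ W Θ).C y = insert δ (⋃ n, (p n).C y) := by simp [mkTop]
theorem mk_uδ : (mkTop q y p δ W Θ).u y δ = W := by simp [mkTop]
theorem mk_Tδ : (mkTop q y p δ W Θ).T y δ = Θ := by simp [mkTop]
theorem mk_u {α : Ord} (h : α ≠ δ) : (mkTop q y p δ W Θ).u y α = ⋃ n, (p n).u y α := by simp [mkTop, h]
theorem mk_T {α : Ord} (h : α ≠ δ) : (mkTop q y p δ W Θ).T y α = ⋃ n, (p n).T y α := by simp [mkTop, h]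
theorem mk_F : (mkTop q y p δ W Θ).F y = ⋃ n, (p n).F y := by simp [mkTop]
theorem mk_Pr : (mkTop q y p δ W Θ).Pr y = ⋃ n, (p n).Pr y := by simp [mkTop]
theorem mk_C' {j : Ord} (h : j ≠ y) : (mkTop q y p δ W Θ).C j = q.C j := by simp [mkTop, h]
theorem mk_u' {j : Ord} (h : j ≠ y) : (mkTop q y p δ W Θ).u j = q.u j := by funext α; simp [mkTop, h]
theorem mk_T' {j : Ord} (h : j ≠ y) : (mkTop q y p δ W Θ).T j = q.T j := by funext α; simp [mkTop, h]
theorem mk_F' {j : Ord} (h : j ≠ y) : (mkTop q y p δ W Θ).F j = q.F j := by simp [mkTop, h]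
theorem mk_Pr' {j : Ord} (h : j ≠ y) : (mkTop q y p δ W Θ).Pr j = q.Pr j := by simp [mkTop, h]

end mk

section main

variable {y : Ord} {p : ℕ → Cond} {q : Cond} {δ : Ord} {W : Set Ord} {Θ : Set Thr}
  (hp : ∀ n, p n ∈ A o y) (hd : ∀ n, CLe o (p (n + 1)) (p n)) (hy : y ∈ (p 0).J)
  (hqy : ∀ j ∈ q.J, j < y) (hqp : ∀ n, ∀ x < y, CLe o q ((p n).res x))
  (hT : TopC q y p δ W Θ)

include hp hd hy hT

theorem mk_ul {n : ℕ} {α : Ord} (hα : α ∈ (p n).C y) : (mkTop q y p δ W Θ).u y α = (p n).u y α := by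
  rw [mk_u _ _ _ _ _ _ (hT.ab n α hα).ne, u_eq hp hd hy hα]

theorem mk_Tl {n : ℕ} {α : Ord} (hα : α ∈ (p n).C y) : (mkTop q y p δ W Θ).T y α = (p n).T y α := by
  rw [mk_T _ _ _ _ _ _ (hT.ab n α hα).ne, T_eq hp hd hy hα]

theorem mk_co {n : ℕ} {α : Ord} (hα : α ∈ (p n).C y) : co (mkTop q y p δ W Θ) y α = co (p n) y α := by
  unfold co; rw [mk_ul hp hd hy hT hα]

omit hp hd hy hT in
theorem mk_coδ : co (mkTop q y p δ W Θ) y δ = {i | i < y ∧ (i + 1 ∈ W ∨ i + 1 = y)} := by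
  unfold co; rw [mk_uδ]

include hqp

theorem core : LegCore (mkTop q y p δ W Θ) y := by
  have hcore : ∀ n, LegCore (p n) y := fun n => A.core (hp n) (memJ hp hd hy n)
  -- transfer of the lower levels to `q`
  have htr : ∀ n, ∀ α ∈ (p n).C y, ∀ z ∈ (p n).u y α, z ∈ q.J ∧ α ∈ q.C z ∧ q.u z α = (p n).u z α ∧
      q.T z α = (p n).T z α := by
    intro n α hα z hz
    have hzy := (hcore n).ult α hα z hz
    obtain ⟨h1, h2⟩ := (hcore n).L1J α hα z hz
    have hle := hqp n z hzy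
    have h1' : z ∈ ((p n).res z).J := ⟨h1, le_rfl⟩
    have h2' : α ∈ ((p n).res z).C z := by rw [res_C _ _ le_rfl]; exact h2
    refine ⟨hle.J h1', hle.C z h1' h2', ?_, ?_⟩
    · rw [hle.u z h1' α h2', res_u _ _ le_rfl]
    · rw [hle.T z h1' α h2', res_T _ _ le_rfl]
  have hsplit : ∀ α ∈ (mkTop q y p δ W Θ).C y, α = δ ∨ ∃ n, α ∈ (p n).C y := by
    intro α hα
    rw [mk_C] at hα
    rcases hα with h | h
    · exact Or.inl h
    · exact Or.inr (mem_iUnion.1 h)
  constructor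
  · -- Cc
    rw [mk_C]
    exact (countable_iUnion fun n => (hcore n).Cc).insert _
  · intro α hα
    rcases hsplit α hα with rfl | ⟨n, hn⟩
    · exact hT.lim
    · exact (hcore n).Clim α hn
  · intro α hα
    rcases hsplit α hα with rfl | ⟨n, hn⟩
    · exact hT.lt
    · exact (hcore n).Clt α hn
  · intro α hα
    rcases hsplit α hα with rfl | ⟨n, hn⟩
    · rw [mk_uδ]; exact hT.Wc
    · rw [mk_ul hp hd hy hT hn]; exact (hcore n).uc α hn
  · intro α hα
    rcases hsplit α hα with rfl | ⟨n, hn⟩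
    · rw [mk_uδ]; exact hT.Wlt
    · rw [mk_ul hp hd hy hT hn]; exact (hcore n).ult α hn
  · intro α hα
    rcases hsplit α hα with rfl | ⟨n, hn⟩
    · rw [mk_uδ]; exact hT.Wcl
    · rw [mk_ul hp hd hy hT hn]; exact (hcore n).ucl α hn
  · intro α hα
    rcases hsplit α hα with rfl | ⟨n, hn⟩
    · rw [mk_uδ]; exact hT.W0
    · rw [mk_ul hp hd hy hT hn]; exact (hcore n).u0 α hn
  · intro α hα
    rcases hsplit α hα with rfl | ⟨n, hn⟩
    · rw [mk_uδ]; exact hT.Ws
    · rw [mk_ul hp hd hy hT hn]; exact (hcore n).us α hn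
  · intro α hα
    rcases hsplit α hα with rfl | ⟨n, hn⟩
    · rw [mk_Tδ]; exact hT.Θc
    · rw [mk_Tl hp hd hy hT hn]; exact (hcore n).Tc α hn
  · intro α hα
    rcases hsplit α hα with rfl | ⟨n, hn⟩
    · rw [mk_Tδ]; exact hT.Θn
    · rw [mk_Tl hp hd hy hT hn]; exact (hcore n).Tn α hn
  · intro α hα
    rcases hsplit α hα with rfl | ⟨n, hn⟩
    · rw [mk_Tδ, mk_coδ]; exact hT.Θs
    · rw [mk_Tl hp hd hy hT hn, mk_co hp hd hy hT hn]; exact (hcore n).Ts α hn
  · -- L1J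
    intro α hα z hz
    rcases hsplit α hα with rfl | ⟨n, hn⟩
    · rw [mk_uδ] at hz
      rw [mk_C' _ _ _ _ _ _ (hT.Wlt z hz).ne]
      exact ⟨mem_insert_of_mem _ (hT.L1J z hz).1, (hT.L1J z hz).2⟩
    · rw [mk_ul hp hd hy hT hn] at hz
      rw [mk_C' _ _ _ _ _ _ ((hcore n).ult α hn z hz).ne]
      exact ⟨mem_insert_of_mem _ (htr n α hn z hz).1, (htr n α hn z hz).2.1⟩
  · -- L1u
    intro α hα z hz
    rcases hsplit α hα with rfl | ⟨n, hn⟩
    · rw [mk_uδ] at hz ⊢
      rw [mk_u' _ _ _ _ _ _ (hT.Wlt z hz).ne]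
      exact hT.L1u z hz
    · rw [mk_ul hp hd hy hT hn] at hz ⊢
      rw [mk_u' _ _ _ _ _ _ ((hcore n).ult α hn z hz).ne, (htr n α hn z hz).2.2.1]
      exact (hcore n).L1u α hn z hz
  · -- L1T
    intro α hα z hz
    rcases hsplit α hα with rfl | ⟨n, hn⟩
    · rw [mk_uδ] at hz
      rw [mk_T' _ _ _ _ _ _ (hT.Wlt z hz).ne, mk_Tδ]
      exact hT.L1T z hz
    · rw [mk_ul hp hd hy hT hn] at hz
      rw [mk_T' _ _ _ _ _ _ ((hcore n).ult α hn z hz).ne, mk_Tl hp hd hy hT hn, (htr n α hn z hz).2.2.2]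
      exact (hcore n).L1T α hn z hz
  · -- L2u
    intro α hα β hβ hab
    rcases hsplit α hα with rfl | ⟨n, hn⟩
    · rcases hsplit β hβ with rfl | ⟨m, hm⟩
      · exact absurd hab (lt_irrefl _)
      · exact absurd (hT.ab m β hm) (not_lt.2 hab.le)
    · rcases hsplit β hβ with rfl | ⟨m, hm⟩
      · rw [mk_ul hp hd hy hT hn, mk_uδ]; exact hT.L2u n α hn
      · obtain ⟨l, hl1, hl2⟩ := two hp hd hy (mem_iUnion.2 ⟨n, hn⟩) (mem_iUnion.2 ⟨m, hm⟩)
        rw [mk_ul hp hd hy hT hl1, mk_ul hp hd hy hT hl2]; exact (hcore l).L2u α hl1 β hl2 hab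
  · -- L2
    intro α hα β hβ hab
    rcases hsplit α hα with rfl | ⟨n, hn⟩
    · rcases hsplit β hβ with rfl | ⟨m, hm⟩
      · exact absurd hab (lt_irrefl _)
      · exact absurd (hT.ab m β hm) (not_lt.2 hab.le)
    · rcases hsplit β hβ with rfl | ⟨m, hm⟩
      · rw [mk_co hp hd hy hT hn, mk_Tl hp hd hy hT hn, mk_Tδ]; exact hT.L2 n α hn
      · obtain ⟨l, hl1, hl2⟩ := two hp hd hy (mem_iUnion.2 ⟨n, hn⟩) (mem_iUnion.2 ⟨m, hm⟩)
        rw [mk_co hp hd hy hT hl1, mk_Tl hp hd hy hT hl1, mk_Tl hp hd hy hT hl2]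
        exact (hcore l).L2 α hl1 β hl2 hab
  · -- L3
    intro α hα β hβ hab
    rcases hsplit α hα with rfl | ⟨n, hn⟩
    · rcases hsplit β hβ with rfl | ⟨m, hm⟩
      · exact absurd hab (lt_irrefl _)
      · exact absurd (hT.ab m β hm) (not_lt.2 hab.le)
    · rcases hsplit β hβ with rfl | ⟨m, hm⟩
      · rw [mk_co hp hd hy hT hn, mk_Tl hp hd hy hT hn, mk_Tδ]; exact hT.L3 n α hn
      · obtain ⟨l, hl1, hl2⟩ := two hp hd hy (mem_iUnion.2 ⟨n, hn⟩) (mem_iUnion.2 ⟨m, hm⟩)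
        rw [mk_co hp hd hy hT hl1, mk_Tl hp hd hy hT hl1, mk_Tl hp hd hy hT hl2]
        exact (hcore l).L3 α hl1 β hl2 hab
  · rw [mk_F]; exact countable_iUnion fun n => (hcore n).Fc
  · rw [mk_F]
    intro ξ hξ
    obtain ⟨n, hn⟩ := mem_iUnion.1 hξ
    exact (hcore n).Flt ξ hn
  · rw [mk_Pr]; exact countable_iUnion fun n => (hcore n).Prc

end main

/-- New top levels. -/
theorem job_top : St_top := by
  intro o Prot hl y p q δ W Θ hp hd hy hq hqy hqp hT
  have hcore := core hp hd hy hqp hT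
  refine ⟨hcore, fun hopt => ?_⟩
  have hqn := A.nrm hq
  have hyq : y ∉ q.J := fun h => absurd (hqy y h) (lt_irrefl _)
  have hne : ∀ j ∈ q.J, j ≠ y := fun j hj => (hqy j hj).ne
  have hjp : ∀ n, ∀ j ∈ (p n).J, j = y ∨ j < y := fun n j hj => (A.le (hp n) hj).eq_or_lt
  have hmA : mkTop q y p δ W Θ ∈ A o y := by
    refine ⟨?_, ?_⟩
    · constructor
      · exact hqn.J.insert _
      · intro j hj
        have hjy : j ≠ y := fun h => hj (h ▸ mem_insert y q.J)
        rw [mk_C' _ _ _ _ _ _ hjy]; exact hqn.C j fun h => hj (mem_insert_of_mem _ h)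
      · intro j hj
        have hjy : j ≠ y := fun h => hj (h ▸ mem_insert y q.J)
        rw [mk_F' _ _ _ _ _ _ hjy]; exact hqn.F j fun h => hj (mem_insert_of_mem _ h)
      · intro j hj
        have hjy : j ≠ y := fun h => hj (h ▸ mem_insert y q.J)
        rw [mk_Pr' _ _ _ _ _ _ hjy]; exact hqn.Pr j fun h => hj (mem_insert_of_mem _ h)
      · intro j α hα
        by_cases hjy : j = y
        · subst hjy
          rw [mk_C] at hα
          have h1 : α ≠ δ := fun h => hα (h ▸ mem_insert _ _)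
          rw [mk_u _ _ _ _ _ _ h1, iUnion_eq_empty]
          intro n
          exact (A.nrm (hp n)).u j α fun h => hα (mem_insert_of_mem _ (mem_iUnion.2 ⟨n, h⟩))
        · rw [mk_C' _ _ _ _ _ _ hjy] at hα
          rw [mk_u' _ _ _ _ _ _ hjy]; exact hqn.u j α hα
      · intro j α hα
        by_cases hjy : j = y
        · subst hjy
          rw [mk_C] at hα
          have h1 : α ≠ δ := fun h => hα (h ▸ mem_insert _ _)
          rw [mk_T _ _ _ _ _ _ h1, iUnion_eq_empty]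
          intro n
          exact (A.nrm (hp n)).T j α fun h => hα (mem_insert_of_mem _ (mem_iUnion.2 ⟨n, h⟩))
        · rw [mk_C' _ _ _ _ _ _ hjy] at hα
          rw [mk_T' _ _ _ _ _ _ hjy]; exact hqn.T j α hα
    · intro z hz
      rcases hz with rfl | hz
      · refine ⟨le_rfl, ?_⟩
        rw [Leg_iff]
        refine ⟨hcore, fun hnz => ?_, hopt⟩
        rw [mk_F, mk_Pr, iUnion_eq_empty, iUnion_eq_empty]
        have h1 : ∀ n, (p n).F z = ∅ ∧ (p n).Pr z = ∅ := fun n =>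
          ((Leg_iff o z (p n)).1 (A.leg (hp n) (memJ hp hd hy n))).2.1 hnz
        exact ⟨fun n => (h1 n).1, fun n => (h1 n).2⟩
      · have hzy := hqy z hz
        refine ⟨hzy.le, ?_⟩
        refine Leg.congr hl (A.leg hq hz) ?_ ?_ ?_ ?_ ?_ ?_
        · intro w hw
          constructor
          · rintro (h | h)
            · exact absurd h (hw.trans_lt hzy).ne
            · exact h
          · exact fun h => mem_insert_of_mem _ h
        · intro w hw; exact mk_C' _ _ _ _ _ _ (hw.trans_lt hzy).ne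
        · intro w hw; exact mk_u' _ _ _ _ _ _ (hw.trans_lt hzy).ne
        · intro w hw; exact mk_T' _ _ _ _ _ _ (hw.trans_lt hzy).ne
        · intro w hw; exact mk_F' _ _ _ _ _ _ (hw.trans_lt hzy).ne
        · intro w hw; exact mk_Pr' _ _ _ _ _ _ (hw.trans_lt hzy).ne
  refine ⟨hmA, ?_, mk_C _ _ _ _ _ _, ?_, ?_⟩
  · constructor
    · exact fun j hj => mem_insert_of_mem _ hj
    · intro j hj; rw [mk_C' _ _ _ _ _ _ (hne j hj)]
    · intro j hj α h1 h2
      rw [mk_C' _ _ _ _ _ _ (hne j hj)] at h1; exact absurd h1 h2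
    · intro j hj α _; rw [mk_u' _ _ _ _ _ _ (hne j hj)]
    · intro j hj α _; rw [mk_T' _ _ _ _ _ _ (hne j hj)]
    · intro j hj; rw [mk_F' _ _ _ _ _ _ (hne j hj)]
    · intro j hj; rw [mk_Pr' _ _ _ _ _ _ (hne j hj)]
    · intro i γ hi _ α h1 h2
      rw [mk_C' _ _ _ _ _ _ (hne _ hi)] at h1; exact absurd h1 h2
  · intro x hx
    ext1
    · ext j
      constructor
      · rintro ⟨h1 | h1, h2⟩
        · exact absurd (h1 ▸ h2) (not_le.2 hx)
        · exact ⟨h1, h2⟩
      · rintro ⟨h1, h2⟩; exact ⟨mem_insert_of_mem _ h1, h2⟩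
    · funext j
      by_cases hj : j ≤ x
      · rw [res_C _ _ hj, res_C _ _ hj, mk_C' _ _ _ _ _ _ (hj.trans_lt hx).ne]
      · rw [res_C' _ _ hj, res_C' _ _ hj]
    · funext j
      by_cases hj : j ≤ x
      · rw [res_u _ _ hj, res_u _ _ hj, mk_u' _ _ _ _ _ _ (hj.trans_lt hx).ne]
      · funext α; rw [res_u' _ _ hj, res_u' _ _ hj]
    · funext j
      by_cases hj : j ≤ x
      · rw [res_T _ _ hj, res_T _ _ hj, mk_T' _ _ _ _ _ _ (hj.trans_lt hx).ne]
      · funext α; rw [res_T' _ _ hj, res_T' _ _ hj]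
    · funext j
      by_cases hj : j ≤ x
      · rw [res_F _ _ hj, res_F _ _ hj, mk_F' _ _ _ _ _ _ (hj.trans_lt hx).ne]
      · rw [res_F' _ _ hj, res_F' _ _ hj]
    · funext j
      by_cases hj : j ≤ x
      · rw [res_Pr _ _ hj, res_Pr _ _ hj, mk_Pr' _ _ _ _ _ _ (hj.trans_lt hx).ne]
      · rw [res_Pr' _ _ hj, res_Pr' _ _ hj]
  · intro hkill n
    have hmn : ∀ m, ∀ α ∈ (p m).C y, α ∉ (p n).C y → n ≤ m := by
      intro m α h1 h2
      by_contra hcon
      exact h2 ((dec_le hp hd (not_le.1 hcon).le).C y (memJ hp hd hy m) h1)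
    constructor
    · intro j hj
      rcases hjp n j hj with rfl | hjy
      · exact mem_insert _ _
      · exact mem_insert_of_mem _ ((hqp n j hjy).J ⟨hj, le_rfl⟩)
    · intro j hj
      rcases hjp n j hj with rfl | hjy
      · rw [mk_C]
        exact (subset_iUnion (fun m => (p m).C j) n).trans (subset_insert _ _)
      · rw [mk_C' _ _ _ _ _ _ hjy.ne]
        have := (hqp n j hjy).C j ⟨hj, le_rfl⟩
        rwa [res_C _ _ le_rfl] at this
    · intro j hj
      rcases hjp n j hj with rfl | hjy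
      · rw [mk_C]
        intro α h1 h2 β hβ
        rcases h1 with rfl | h1
        · exact hT.ab n β hβ
        · obtain ⟨m, hm⟩ := mem_iUnion.1 h1
          exact (dec_le hp hd (hmn m α hm h2)).ee j hj α hm h2 β hβ
      · rw [mk_C' _ _ _ _ _ _ hjy.ne]
        have := (hqp n j hjy).ee j ⟨hj, le_rfl⟩
        rwa [res_C _ _ le_rfl] at this
    · intro j hj α hα
      rcases hjp n j hj with rfl | hjy
      · rw [mk_ul hp hd hy hT hα]
      · rw [mk_u' _ _ _ _ _ _ hjy.ne]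
        have := (hqp n j hjy).u j ⟨hj, le_rfl⟩ α (by rw [res_C _ _ le_rfl]; exact hα)
        rwa [res_u _ _ le_rfl] at this
    · intro j hj α hα
      rcases hjp n j hj with rfl | hjy
      · rw [mk_Tl hp hd hy hT hα]
      · rw [mk_T' _ _ _ _ _ _ hjy.ne]
        have := (hqp n j hjy).T j ⟨hj, le_rfl⟩ α (by rw [res_C _ _ le_rfl]; exact hα)
        rwa [res_T _ _ le_rfl] at this
    · intro j hj
      rcases hjp n j hj with rfl | hjy
      · rw [mk_F]; exact subset_iUnion (fun m => (p m).F j) n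
      · rw [mk_F' _ _ _ _ _ _ hjy.ne]
        have := (hqp n j hjy).F j ⟨hj, le_rfl⟩
        rwa [res_F _ _ le_rfl] at this
    · intro j hj
      rcases hjp n j hj with rfl | hjy
      · rw [mk_Pr]; exact subset_iUnion (fun m => (p m).Pr j) n
      · rw [mk_Pr' _ _ _ _ _ _ hjy.ne]
        have := (hqp n j hjy).Pr j ⟨hj, le_rfl⟩
        rwa [res_Pr _ _ le_rfl] at this
    · intro i γ hi ho α h1 h2 β hβ t ht ξ hξ h0
      rcases hjp n (i + 1) hi with hiy | hiy
      · rw [hiy, mk_C] at h1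
        rw [hiy] at h2
        rcases h1 with rfl | h1
        · exact hξ.trans_lt (hkill i γ hiy ho n β hβ)
        · obtain ⟨m, hm⟩ := mem_iUnion.1 h1
          exact (dec_le hp hd (hmn m α hm h2)).kl i γ hi ho α (by rw [hiy]; exact hm) (by rw [hiy]; exact h2)
            β hβ t ht ξ hξ h0
      · rw [mk_C' _ _ _ _ _ _ hiy.ne] at h1
        have hγi : γ + 1 ≤ i + 1 := by gcongr; exact (hl.kill ho).1.le
        refine (hqp n (i + 1) hiy).kl i γ ⟨hi, le_rfl⟩ ho α h1 ?_ β ?_ t ?_ ξ hξ h0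
        · rw [res_C _ _ le_rfl]; exact h2
        · rw [res_C _ _ hγi]; exact hβ
        · rw [res_T _ _ hγi]; exact ht

end Pool.Agent.Helper919.SD.Ttop
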