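import Pool.Agent.Helper919_SDT.Stmts

set_option autoImplicit false

namespace Pool.Agent.Helper919.SD.TtopL

open Ordinal Cardinal Set

/-- The situation of the limit step. -/
structure Ctx (o : Ord → Opt) (Prot : Set Ord) (y : Ord) (N : Set U) (δ : Ord) (gs : Option Ord) (ys : ℕ → Ord)
    (qs p : ℕ → Cond) : Prop where
  hl : Legit o Prot
  ylim : Order.IsSuccLimit y
  hN : Basic o N δ
  yN : U.ord y ∈ N
  mono : StrictMono ys
  ysN : ∀ k, U.ord (ys k) ∈ N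
  ysy : ∀ k, ys k < y
  cof : ∀ z < y, U.ord z ∈ N → ∃ k, z ≤ ys k
  good : ∀ k, GoodQ o N δ gs (ys k) (qs k)
  qdec : ∀ k, CLe o (qs (k + 1)) (qs k)
  sq : Sq o N y p
  yJ : y ∈ (p 0).J
  ev : ∀ n, ∃ k₀, ∀ k ≥ k₀, CLe o (qs k) ((p n).res (ys k))

section lems

variable {o : Ord → Opt} {Prot : Set Ord} {y : Ord} {N : Set U} {δ : Ord} {gs : Option Ord} {ys : ℕ → Ord}
  {qs p : ℕ → Cond}

theorem Ctx.y0 (c : Ctx o Prot y N δ gs ys qs p) : 0 < y := lt_of_le_of_lt zero_le (c.ysy 0)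

theorem Ctx.ple (c : Ctx o Prot y N δ gs ys qs p) {n n' : ℕ} (h : n ≤ n') : CLe o (p n') (p n) := by
  induction h with
  | refl => exact CLe.refl _
  | step _ ih => exact (c.sq.dec _).trans (c.sq.A n).1 ih

theorem Ctx.qle (c : Ctx o Prot y N δ gs ys qs p) {k k' : ℕ} (h : k ≤ k') : CLe o (qs k') (qs k) := by
  induction h with
  | refl => exact CLe.refl _
  | step _ ih => exact (c.qdec _).trans (c.good k).A.1 ih

theorem Ctx.ymem (c : Ctx o Prot y N δ gs ys qs p) (n : ℕ) : y ∈ (p n).J := (c.ple (Nat.zero_le n)).J c.yJ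

theorem Ctx.pcore (c : Ctx o Prot y N δ gs ys qs p) (n : ℕ) : LegCore (p n) y := A.core (c.sq.A n) (c.ymem n)

theorem Ctx.qcore (c : Ctx o Prot y N δ gs ys qs p) (k : ℕ) : LegCore (qs k) (ys k) := A.core (c.good k).A (c.good k).J

theorem Ctx.alt (c : Ctx o Prot y N δ gs ys qs p) {n : ℕ} {α : Ord} (h : α ∈ (p n).C y) : α < δ :=
  (c.hN.ord α ((c.pcore n).Clt α h)).1 (c.hN.C (p n) y (c.sq.mem n) (c.sq.A n) y (c.ymem n) α h)

theorem Ctx.uN (c : Ctx o Prot y N δ gs ys qs p) {n : ℕ} {α z : Ord} (h : α ∈ (p n).C y) (hz : z ∈ (p n).u y α) :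
    U.ord z ∈ N := c.hN.u (p n) y (c.sq.mem n) (c.sq.A n) y (c.ymem n) α h z hz

theorem Ctx.C_mono (c : Ctx o Prot y N δ gs ys qs p) {n n' : ℕ} (h : n ≤ n') : (p n).C y ⊆ (p n').C y :=
  (c.ple h).C y (c.ymem n)

theorem Ctx.T_eq (c : Ctx o Prot y N δ gs ys qs p) {n n' : ℕ} {α : Ord} (h : α ∈ (p n).C y) (h' : α ∈ (p n').C y) :
    (p n).T y α = (p n').T y α := by
  rcases le_total n n' with hn | hn
  · exact ((c.ple hn).T y (c.ymem _) α h).symm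
  · exact (c.ple hn).T y (c.ymem _) α h'

theorem Ctx.u_eq (c : Ctx o Prot y N δ gs ys qs p) {n n' : ℕ} {α : Ord} (h : α ∈ (p n).C y) (h' : α ∈ (p n').C y) :
    (p n).u y α = (p n').u y α := by
  rcases le_total n n' with hn | hn
  · exact ((c.ple hn).u y (c.ymem _) α h).symm
  · exact (c.ple hn).u y (c.ymem _) α h'

theorem Ctx.co_eq (c : Ctx o Prot y N δ gs ys qs p) {n n' : ℕ} {α : Ord} (h : α ∈ (p n).C y) (h' : α ∈ (p n').C y) :
    co (p n) y α = co (p n') y α := by unfold co; rw [c.u_eq h h']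

theorem Ctx.co_mono (c : Ctx o Prot y N δ gs ys qs p) {n n' : ℕ} {α β : Ord} (h : α ∈ (p n).C y)
    (h' : β ∈ (p n').C y) (hab : α ≤ β) : co (p n) y α ⊆ co (p n') y β := by
  have h1 := c.C_mono (le_max_left n n') h
  have h2 := c.C_mono (le_max_right n n') h'
  rw [c.co_eq h h1, c.co_eq h' h2]
  exact (c.pcore _).co_mono h1 h2 hab

/-- The coordinates of the limit index are below successor elements of `u`. -/
theorem Ctx.co_succ (c : Ctx o Prot y N δ gs ys qs p) {n : ℕ} {α i : Ord} (h : i ∈ co (p n) y α) :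
    i + 1 ∈ (p n).u y α := by
  rcases h.2 with h2 | h2
  · exact h2
  · exfalso
    have h3 := c.ylim.succ_lt h.1
    rw [Order.succ_eq_add_one, h2] at h3
    exact lt_irrefl _ h3

theorem Ctx.co_lt_ys (c : Ctx o Prot y N δ gs ys qs p) {n : ℕ} {α i : Ord} (hα : α ∈ (p n).C y)
    (h : i ∈ co (p n) y α) : ∃ k, i < ys k := by
  have h1 := c.co_succ h
  obtain ⟨k, hk⟩ := c.cof (i + 1) ((c.pcore n).ult α hα _ h1) (c.uN hα h1)
  exact ⟨k, lt_of_lt_of_le (lt_add_one i) hk⟩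

/-- The maximum of the recognised indices which are `≤ ys k`. -/
theorem Ctx.maxu (c : Ctx o Prot y N δ gs ys qs p) {n : ℕ} {α : Ord} (h : α ∈ (p n).C y) (k : ℕ) :
    ∃ s ∈ (p n).u y α, s ≤ ys k ∧ ∀ z ∈ (p n).u y α, z ≤ ys k → z ≤ s := by
  set S : Set Ord := {z | z ∈ (p n).u y α ∧ z ≤ ys k} with hS
  have hS0 : (0 : Ord) ∈ S := ⟨(c.pcore n).u0 α h c.y0, zero_le⟩
  have hb : BddAbove S := ⟨ys k, fun z hz => hz.2⟩
  by_cases hs : sSup S ∈ S
  · exact ⟨sSup S, hs.1, hs.2, fun z hz hz' => le_csSup hb ⟨hz, hz'⟩⟩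
  · exfalso
    apply hs
    have hle : sSup S ≤ ys k := csSup_le ⟨0, hS0⟩ fun z hz => hz.2
    have h0 : 0 < sSup S := by
      rcases eq_or_lt_of_le (zero_le : 0 ≤ sSup S) with h1 | h1
      · exact absurd (h1 ▸ hS0) hs
      · exact h1
    refine ⟨(c.pcore n).ucl α h _ (hle.trans_lt (c.ysy k)) h0 ?_, hle⟩
    intro w hw
    obtain ⟨v, hv, hwv⟩ := exists_lt_of_lt_csSup ⟨0, hS0⟩ hw
    refine ⟨v, hv.1, hwv, lt_of_le_of_ne (le_csSup hb hv) ?_⟩
    rintro rfl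
    exact hs hv

theorem Ctx.co_cut (c : Ctx o Prot y N δ gs ys qs p) {n : ℕ} {α : Ord} (_ : α ∈ (p n).C y) {k : ℕ} {s : Ord}
    (hs : s ≤ ys k) (hm : ∀ z ∈ (p n).u y α, z ≤ ys k → z ≤ s) {i : Ord} (hi : i ∈ co (p n) y α) :
    i < ys k ↔ i < s := by
  constructor
  · intro h
    exact lt_of_lt_of_le (lt_add_one i) (hm _ (c.co_succ hi) (Order.add_one_le_of_lt h))
  · intro h; exact h.trans_le hs

/-- The set of the threads of the level `δ` of the index `ys k`. -/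
theorem Ctx.uq (c : Ctx o Prot y N δ gs ys qs p) {k : ℕ} {z : Ord} (hz : z < ys k) (hz' : Cl N z) :
    z ∈ (qs k).u (ys k) δ := by rw [(c.good k).u]; exact ⟨hz, hz'⟩

theorem Ctx.Tq (c : Ctx o Prot y N δ gs ys qs p) {k k' : ℕ} (h : k ≤ k') : (qs k').T (ys k) δ = (qs k).T (ys k) δ :=
  (c.qle h).T _ (c.good k).J _ (c.good k).C

theorem Ctx.proj (c : Ctx o Prot y N δ gs ys qs p) {k k' : ℕ} (h : k ≤ k') :
    (qs k).T (ys k) δ = below (ys k) '' (qs k').T (ys k') δ := by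
  rcases eq_or_lt_of_le h with rfl | h
  · have : ∀ t ∈ (qs k).T (ys k) δ, below (ys k) t = t := by
      intro t ht
      funext i ξ n
      by_cases hi : i < ys k
      · rw [below_of_lt hi]
      · rw [below_of_le (not_lt.1 hi)]
        exact (eq_zero_of_cut ((c.qcore k).Ts _ (c.good k).C _ ht) fun h' => hi (co_lt h'.1)).symm
    ext t
    constructor
    · intro ht; exact ⟨t, ht, this t ht⟩
    · rintro ⟨t', ht', rfl⟩; rw [this t' ht']; exact ht'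
  · rw [← c.Tq h.le]
    exact (c.qcore k').L1T _ (c.good k').C _ (c.uq (c.mono h) (Or.inl (c.ysN k)))

theorem Ctx.bel (c : Ctx o Prot y N δ gs ys qs p) {k : ℕ} {t : Thr} (ht : t ∈ (qs k).T (ys k) δ) :
    below (ys k) t = t := by
  funext i ξ n
  by_cases hi : i < ys k
  · rw [below_of_lt hi]
  · rw [below_of_le (not_lt.1 hi)]
    exact (eq_zero_of_cut ((c.qcore k).Ts _ (c.good k).C _ ht) fun h' => hi (co_lt h'.1)).symm

/-- Indices of the model which are `≤ ys k`. -/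
theorem Ctx.lev (c : Ctx o Prot y N δ gs ys qs p) {k : ℕ} {s : Ord} (hs : s ≤ ys k) (hsN : Cl N s) :
    s ∈ (qs k).J ∧ δ ∈ (qs k).C s ∧ (qs k).T s δ = below s '' (qs k).T (ys k) δ := by
  rcases eq_or_lt_of_le hs with rfl | h
  · exact ⟨(c.good k).J, (c.good k).C, c.proj le_rfl⟩
  · have h1 := c.uq h hsN
    have h2 := (c.qcore k).L1J _ (c.good k).C _ h1
    exact ⟨h2.1, h2.2, (c.qcore k).L1T _ (c.good k).C _ h1⟩

/-- Comparison of the data of `p n` and `qs k` at a recognised index. -/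
theorem Ctx.cmp (c : Ctx o Prot y N δ gs ys qs p) {n k : ℕ} {α s : Ord} (hα : α ∈ (p n).C y)
    (hs : s ∈ (p n).u y α) (hsk : s ≤ ys k) (hle : CLe o (qs k) ((p n).res (ys k))) :
    s ∈ (qs k).J ∧ α ∈ (qs k).C s ∧ (qs k).T s α = below s '' (p n).T y α ∧
      co (qs k) s α = {i | i ∈ co (p n) y α ∧ i < s} := by
  have h1 := (c.pcore n).L1J α hα s hs
  have h2 : s ∈ ((p n).res (ys k)).J := ⟨h1.1, hsk⟩
  have h3 : α ∈ ((p n).res (ys k)).C s := by rw [res_C _ _ hsk]; exact h1.2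
  refine ⟨hle.J h2, hle.C s h2 h3, ?_, ?_⟩
  · rw [hle.T s h2 α h3, res_T _ _ hsk]; exact (c.pcore n).L1T α hα s hs
  · rw [hle.co_eq h2 h3, res_co _ _ hsk]; exact (c.pcore n).co_eq hα hs

/-- Restriction of a thread of the level `δ` to a thread of a level of `p n`. -/
theorem Ctx.restr (c : Ctx o Prot y N δ gs ys qs p) {n k : ℕ} {α : Ord} (hα : α ∈ (p n).C y)
    (hle : CLe o (qs k) ((p n).res (ys k))) {a : Thr} (ha : a ∈ (qs k).T (ys k) δ) :
    ∃ t ∈ (p n).T y α, Agr {i | i ∈ co (p n) y α ∧ i < ys k} α a t := by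
  obtain ⟨s, hs, hsk, hm⟩ := c.maxu hα k
  obtain ⟨h1, h2, h3, h4⟩ := c.cmp hα hs hsk hle
  obtain ⟨-, h5, h6⟩ := c.lev hsk (Or.inl (c.uN hα hs))
  have hcore : LegCore (qs k) s := A.core (c.good k).A h1
  have h7 : below s a ∈ (qs k).T s δ := by rw [h6]; exact mem_image_of_mem _ ha
  have h8 := hcore.L2 α h2 δ h5 (c.alt hα) _ h7
  rw [h3] at h8
  obtain ⟨t, ht, hts⟩ := h8
  refine ⟨t, ht, ?_⟩
  rintro i ⟨hi, hik⟩ ξ hξ m
  have his : i < s := (c.co_cut hα hsk hm hi).1 hik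
  have h9 : below s t i ξ m = below s a i ξ m := by
    rw [hts]
    exact agr_cut (co (qs k) s α) α (below s a) i (by rw [h4]; exact ⟨hi, his⟩) ξ hξ m
  rw [below_of_lt his, below_of_lt his] at h9
  exact h9.symm

/-- STEP. -/
theorem Ctx.step (c : Ctx o Prot y N δ gs ys qs p) {n k k' : ℕ} {α : Ord} (hα : α ∈ (p n).C y) {t a : Thr}
    (ht : t ∈ (p n).T y α) (ha : a ∈ (qs k).T (ys k) δ) (hat : Agr {i | i ∈ co (p n) y α ∧ i < ys k} α a t)
    (hkk : k ≤ k') : ∃ a' ∈ (qs k').T (ys k') δ, below (ys k) a' = a ∧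
      Agr {i | i ∈ co (p n) y α ∧ i < ys k'} α a' t := by
  -- it suffices to treat large `k'`
  suffices H : ∀ k', k ≤ k' → CLe o (qs k') ((p n).res (ys k')) → ∃ a' ∈ (qs k').T (ys k') δ, below (ys k) a' = a ∧
      Agr {i | i ∈ co (p n) y α ∧ i < ys k'} α a' t by
    obtain ⟨k₀, hk₀⟩ := c.ev n
    obtain ⟨a', h1, h2, h3⟩ := H (max k' k₀) (hkk.trans (le_max_left _ _)) (hk₀ _ (le_max_right _ _))
    have hm : ys k' ≤ ys (max k' k₀) := c.mono.monotone (le_max_left _ _)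
    refine ⟨below (ys k') a', ?_, ?_, ?_⟩
    · rw [c.proj (le_max_left k' k₀)]; exact mem_image_of_mem _ h1
    · rw [below_below (c.mono.monotone hkk), h2]
    · intro i hi ξ hξ m
      rw [below_of_lt hi.2]
      exact h3 i ⟨hi.1, hi.2.trans_le hm⟩ ξ hξ m
  clear hkk k'
  intro k' hkk hle
  obtain ⟨s, hs, hsk, hm⟩ := c.maxu hα k'
  obtain ⟨h1, h2, h3, h4⟩ := c.cmp hα hs hsk hle
  obtain ⟨-, h5, h6⟩ := c.lev hsk (Or.inl (c.uN hα hs))
  have hcore : LegCore (qs k') s := A.core (c.good k').A h1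
  rcases le_or_gt s (ys k) with hsy | hsy
  · -- any extension works
    have ha' := ha
    rw [c.proj hkk] at ha'
    obtain ⟨a', ha1, ha2⟩ := ha'
    refine ⟨a', ha1, ha2, ?_⟩
    rintro i ⟨hi, hik⟩ ξ hξ m
    have his : i < s := (c.co_cut hα hsk hm hi).1 hik
    have hik2 : i < ys k := his.trans_le hsy
    rw [← hat i ⟨hi, hik2⟩ ξ hξ m, ← ha2, below_of_lt hik2]
  · -- use (L3) at `s`
    have hyk : ys k ∈ (qs k').u s δ ∧ ys k ≤ s := by
      refine ⟨?_, hsy.le⟩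
      rcases eq_or_lt_of_le hsk with h7 | h7
      · rw [h7]; exact c.uq (h7 ▸ hsy) (Or.inl (c.ysN k))
      · have h8 := c.uq h7 (Or.inl (c.uN hα hs))
        rw [(c.qcore k').L1u _ (c.good k').C _ h8]
        exact ⟨c.uq (hsy.trans h7) (Or.inl (c.ysN k)), hsy⟩
    have h7 : (qs k').T (ys k) δ = below (ys k) '' (qs k').T s δ := hcore.L1T δ h5 _ hyk.1
    rw [c.Tq hkk] at h7
    have ha' := ha
    rw [h7] at ha'
    obtain ⟨b, hb, hba⟩ := ha'
    have ht' : below s t ∈ (qs k').T s α := by rw [h3]; exact mem_image_of_mem _ ht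
    obtain ⟨b', hb', hb1, hb2⟩ := hcore.L3 α h2 δ h5 (c.alt hα) (ys k) hyk.2 _ ht' b hb (by
      rintro i ⟨hi, hik⟩ ξ hξ m
      rw [h4] at hi
      have h8 := hat i ⟨hi.1, hik⟩ ξ hξ m
      rw [← hba, below_of_lt hik] at h8
      rw [below_of_lt hi.2, h8])
    rw [h6] at hb'
    obtain ⟨a', ha1, ha2⟩ := hb'
    refine ⟨a', ha1, ?_, ?_⟩
    · rw [← hba, ← hb2, ← ha2, below_below hyk.2]
    · rintro i ⟨hi, hik⟩ ξ hξ m
      have his : i < s := (c.co_cut hα hsk hm hi).1 hik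
      have h8 := hb1 i (by rw [h4]; exact ⟨hi, his⟩) ξ hξ m
      rw [← ha2, below_of_lt his, below_of_lt his] at h8
      exact h8

/-- Moving up to the level `α₂`. -/
theorem Ctx.up (c : Ctx o Prot y N δ gs ys qs p) {n k n₂ : ℕ} {α α₂ : Ord} (hα : α ∈ (p n).C y) {t a : Thr}
    (ht : t ∈ (p n).T y α) (ha : a ∈ (qs k).T (ys k) δ) (hat : Agr {i | i ∈ co (p n) y α ∧ i < ys k} α a t)
    (hα₂ : α₂ ∈ (p n₂).C y) (hle : α ≤ α₂) (K : ℕ) :
    ∃ k' ≥ k, K ≤ k' ∧ ∃ a' ∈ (qs k').T (ys k') δ, below (ys k) a' = a ∧ ∃ n', α₂ ∈ (p n').C y ∧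
      ∃ t' ∈ (p n').T y α₂, Agr (co (p n) y α) α t' t ∧ Agr {i | i ∈ co (p n') y α₂ ∧ i < ys k'} α₂ a' t' := by
  obtain ⟨k₀, hk₀⟩ := c.ev (max n n₂)
  set k' := max (max k K) k₀ with hk'
  set n' := max n n₂ with hn'
  have hkk : k ≤ k' := (le_max_left _ _).trans (le_max_left _ _)
  have hKk : K ≤ k' := (le_max_right _ _).trans (le_max_left _ _)
  have hqp := hk₀ k' (le_max_right _ _)
  have h1 : α ∈ (p n').C y := c.C_mono (le_max_left _ _) hα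
  have h2 : α₂ ∈ (p n').C y := c.C_mono (le_max_right _ _) hα₂
  obtain ⟨a', ha', hb, hagr⟩ := c.step hα ht ha hat hkk
  refine ⟨k', hkk, hKk, a', ha', hb, n', h2, ?_⟩
  rw [c.co_eq hα h1] at hagr ⊢
  rw [c.T_eq hα h1] at ht
  rcases eq_or_lt_of_le hle with rfl | hlt
  · exact ⟨t, ht, Agr.refl _ _ _, hagr⟩
  · obtain ⟨t₁, ht₁, hagr₁⟩ := c.restr h2 hqp ha'
    have hco := c.co_mono h1 h2 hle
    obtain ⟨t', ht', h3, h4⟩ := (c.pcore n').L3 α h1 α₂ h2 hlt (ys k') (c.ysy k').le t ht t₁ ht₁ (by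
      rintro i ⟨hi, hik⟩ ξ hξ m
      rw [← hagr₁ i ⟨hco hi, hik⟩ ξ (hξ.trans hle) m]
      exact hagr i ⟨hi, hik⟩ ξ hξ m)
    refine ⟨t', ht', h3, ?_⟩
    rintro i ⟨hi, hik⟩ ξ hξ m
    rw [hagr₁ i ⟨hi, hik⟩ ξ hξ m]
    have h5 : below (ys k') t' i ξ m = below (ys k') t₁ i ξ m := by rw [h4]
    rw [below_of_lt hik, below_of_lt hik] at h5
    exact h5.symm

/-- The limit of a coherent sequence of threads. -/
theorem Ctx.limThr (c : Ctx o Prot y N δ gs ys qs p) (b : ℕ → Thr) (κ : ℕ → ℕ) (hκ : ∀ m, m ≤ κ m)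
    (hκm : ∀ m, κ m ≤ κ (m + 1)) (hb : ∀ m, b m ∈ (qs (κ m)).T (ys (κ m)) δ)
    (hbb : ∀ m, below (ys (κ m)) (b (m + 1)) = b m) :
    ∃ z : Thr, (∀ m, below (ys (κ m)) z = b m) ∧ (∀ i, (∀ k, ys k ≤ i) → ∀ ξ l, z i ξ l = 0) ∧
      ∀ k, below (ys k) z ∈ (qs k).T (ys k) δ := by
  classical
  have hmono : Monotone κ := monotone_nat_of_le_succ hκm
  have hcoh : ∀ m m', m ≤ m' → below (ys (κ m)) (b m') = b m := by
    intro m m' h
    induction h with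
    | refl => exact c.bel (hb m)
    | step h ih =>
      rename_i m'
      rw [← ih, ← hbb m', below_below (c.mono.monotone (hmono h))]
  set z : Thr := fun i ξ l => if h : ∃ m, i < ys (κ m) then b (Nat.find h) i ξ l else 0 with hz
  have hz1 : ∀ m i, i < ys (κ m) → z i = b m i := by
    intro m i hi
    have hex : ∃ m, i < ys (κ m) := ⟨m, hi⟩
    have hf := Nat.find_spec hex
    have hfm : Nat.find hex ≤ m := Nat.find_min' hex hi
    have h1 := hcoh _ _ hfm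
    funext ξ l
    simp only [hz, dif_pos hex]
    rw [← h1, below_of_lt hf]
  have hz2 : ∀ m, below (ys (κ m)) z = b m := by
    intro m
    funext i ξ l
    by_cases hi : i < ys (κ m)
    · rw [below_of_lt hi, hz1 m i hi]
    · rw [← c.bel (hb m), below_of_le (not_lt.1 hi), below_of_le (not_lt.1 hi)]
  refine ⟨z, hz2, ?_, ?_⟩
  · intro i hi ξ l
    have : ¬ ∃ m, i < ys (κ m) := by
      rintro ⟨m, hm⟩
      exact absurd (hi (κ m)) (not_le_of_gt hm)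
    simp only [hz, dif_neg this]
  · intro k
    have h1 : below (ys k) z = below (ys k) (b k) := by
      rw [← hz2 k, below_below (c.mono.monotone (hκ k))]
    rw [h1, c.proj (hκ k)]
    exact mem_image_of_mem _ (hb k)

/-- The eligibility hypothesis. -/
def ElH (y : Ord) (δ : Ord) (ys : ℕ → Ord) (qs p : ℕ → Cond) (El : Set (Ord × Thr)) : Prop :=
  ∀ k n, ∀ α ∈ (p n).C y, ∀ t ∈ (p n).T y α, ∀ a ∈ (qs k).T (ys k) δ,
    Agr {i | i ∈ co (p n) y α ∧ i < ys k} α a t →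
    ∃ k' ≥ k, ∃ n', ∃ α' ∈ (p n').C y, α ≤ α' ∧ ∃ t' ∈ (p n').T y α', (α', t') ∈ El ∧
      Agr (co (p n) y α) α t' t ∧ ∃ a' ∈ (qs k').T (ys k') δ, below (ys k) a' = a ∧
        Agr {i | i ∈ co (p n') y α' ∧ i < ys k'} α' a' t'

/-- The properties of the threads of the new level. -/
structure ZZ (y : Ord) (δ : Ord) (ys : ℕ → Ord) (qs p : ℕ → Cond) (El : Set (Ord × Thr)) (z : Thr) : Prop where
  pr : ∀ k, below (ys k) z ∈ (qs k).T (ys k) δ
  sup : ∀ i, (∀ k, ys k ≤ i) → ∀ ξ l, z i ξ l = 0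
  cut : ∀ n, ∀ α ∈ (p n).C y, cut (co (p n) y α) α z ∈ (p n).T y α
  el : (∃ n, ((p n).C y).Nonempty) → ∃ n, ∃ α' ∈ (p n).C y, ∃ t' ∈ (p n).T y α', (α', t') ∈ El ∧
    Agr (co (p n) y α') α' z t'

/-- A state of the construction of a thread of the new level. -/
structure St where
  n : ℕ
  α : Ord
  t : Thr
  k : ℕ
  a : Thr

structure St.Ok (σ : St) (y : Ord) (δ : Ord) (ys : ℕ → Ord) (qs p : ℕ → Cond) : Prop where
  α : σ.α ∈ (p σ.n).C y
  t : σ.t ∈ (p σ.n).T y σ.α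
  a : σ.a ∈ (qs σ.k).T (ys σ.k) δ
  agr : Agr {i | i ∈ co (p σ.n) y σ.α ∧ i < ys σ.k} σ.α σ.a σ.t

structure St.Ge (σ' σ : St) (y : Ord) (ys : ℕ → Ord) (p : ℕ → Cond) : Prop where
  α : σ.α ≤ σ'.α
  k : σ.k ≤ σ'.k
  t : Agr (co (p σ.n) y σ.α) σ.α σ'.t σ.t
  a : below (ys σ.k) σ'.a = σ.a

theorem Ctx.geRefl (c : Ctx o Prot y N δ gs ys qs p) {σ : St} (h : σ.Ok y δ ys qs p) : σ.Ge σ y ys p :=
  ⟨le_rfl, le_rfl, Agr.refl _ _ _, c.bel h.a⟩

theorem Ctx.geTrans (c : Ctx o Prot y N δ gs ys qs p) {σ σ' σ'' : St} (h : σ.Ok y δ ys qs p)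
    (h' : σ'.Ok y δ ys qs p) (h1 : σ'.Ge σ y ys p) (h2 : σ''.Ge σ' y ys p) : σ''.Ge σ y ys p :=
  ⟨h1.α.trans h2.α, h1.k.trans h2.k, (h2.t.mono (c.co_mono h.α h'.α h1.α) h1.α).trans h1.t, by
    rw [← h1.a, ← h2.a, below_below (c.mono.monotone h1.k)]⟩

/-- Moving up in terms of states. -/
theorem Ctx.upSt (c : Ctx o Prot y N δ gs ys qs p) {σ : St} (h : σ.Ok y δ ys qs p) {n₂ : ℕ} {α₂ : Ord}
    (hα₂ : α₂ ∈ (p n₂).C y) (K : ℕ) : ∃ σ' : St, σ'.Ok y δ ys qs p ∧ σ'.Ge σ y ys p ∧ α₂ ≤ σ'.α ∧ K ≤ σ'.k := by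
  rcases le_total σ.α α₂ with hle | hle
  · obtain ⟨k', h1, h2, a', h3, h4, n', h5, t', h6, h7, h8⟩ := c.up h.α h.t h.a h.agr hα₂ hle K
    exact ⟨⟨n', α₂, t', k', a'⟩, ⟨h5, h6, h3, h8⟩, ⟨hle, h1, h7, h4⟩, le_rfl, h2⟩
  · obtain ⟨k', h1, h2, a', h3, h4, n', h5, t', h6, h7, h8⟩ := c.up h.α h.t h.a h.agr h.α le_rfl K
    exact ⟨⟨n', σ.α, t', k', a'⟩, ⟨h5, h6, h3, h8⟩, ⟨le_rfl, h1, h7, h4⟩, hle, h2⟩

/-- LEMMA Z. -/
theorem Ctx.lemZ (c : Ctx o Prot y N δ gs ys qs p) {El : Set (Ord × Thr)} (hEl : ElH y δ ys qs p El) {σ : St}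
    (h : σ.Ok y δ ys qs p) : ∃ z, ZZ y δ ys qs p El z ∧ Agr (co (p σ.n) y σ.α) σ.α z σ.t ∧
      below (ys σ.k) z = σ.a := by
  classical
  -- an eligible state above `σ`
  obtain ⟨σ₀, h0, hge0, hel0⟩ : ∃ σ₀ : St, σ₀.Ok y δ ys qs p ∧ σ₀.Ge σ y ys p ∧ (σ₀.α, σ₀.t) ∈ El := by
    obtain ⟨k', h1, n', α', h2, h3, t', h4, h5, h6, a', h7, h8, h9⟩ := hEl σ.k σ.n σ.α h.α σ.t h.t σ.a h.a h.agr
    exact ⟨⟨n', α', t', k', a'⟩, ⟨h2, h4, h7, h9⟩, ⟨h3, h1, h6, h8⟩, h5⟩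
  -- an enumeration of the levels
  have hCC : (⋃ n, (p n).C y).Countable := countable_iUnion fun n => (c.pcore n).Cc
  obtain ⟨e, he⟩ := hCC.exists_eq_range ⟨σ.α, mem_iUnion.2 ⟨σ.n, h.α⟩⟩
  have hem : ∀ m, ∃ n, e m ∈ (p n).C y := fun m => by
    have : e m ∈ ⋃ n, (p n).C y := by rw [he]; exact mem_range_self m
    exact mem_iUnion.1 this
  -- the sequence of states
  have hstep : ∀ (m : ℕ) (τ : {τ : St // τ.Ok y δ ys qs p}), ∃ τ' : {τ : St // τ.Ok y δ ys qs p},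
      τ'.1.Ge τ.1 y ys p ∧ e m ≤ τ'.1.α ∧ m + 1 ≤ τ'.1.k := by
    rintro m ⟨τ, hτ⟩
    obtain ⟨n₂, hn₂⟩ := hem m
    obtain ⟨σ', h1, h2, h3, h4⟩ := c.upSt hτ hn₂ (m + 1)
    exact ⟨⟨σ', h1⟩, h2, h3, h4⟩
  choose f hf1 hf2 hf3 using hstep
  let τ : ℕ → {τ : St // τ.Ok y δ ys qs p} := fun m => Nat.rec ⟨σ₀, h0⟩ (fun m τ => f m τ) m
  have hτ0 : τ 0 = ⟨σ₀, h0⟩ := rfl
  have hτs : ∀ m, τ (m + 1) = f m (τ m) := fun m => rfl
  have hge : ∀ m m', m ≤ m' → (τ m').1.Ge (τ m).1 y ys p := by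
    intro m m' hmm
    induction hmm with
    | refl => exact c.geRefl (τ m).2
    | step _ ih =>
      rename_i m' _
      refine c.geTrans (τ m).2 (τ m').2 ih ?_
      have h1 := hf1 m' (τ m')
      rw [← hτs] at h1
      exact h1
  have hkm : ∀ m, m ≤ (τ m).1.k := by
    intro m
    cases m with
    | zero => exact Nat.zero_le _
    | succ m => have h1 := hf3 m (τ m); rw [← hτs] at h1; exact h1
  obtain ⟨z, hz1, hz2, hz3⟩ := c.limThr (fun m => (τ m).1.a) (fun m => (τ m).1.k) hkm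
    (fun m => (hge m (m + 1) (Nat.le_succ m)).k) (fun m => (τ m).2.a) (fun m => (hge m (m + 1) (Nat.le_succ m)).a)
  -- `z` is above all threads of the sequence
  have hza : ∀ m, Agr (co (p (τ m).1.n) y (τ m).1.α) (τ m).1.α z (τ m).1.t := by
    intro m i hi ξ hξ l
    obtain ⟨k, hk⟩ := c.co_lt_ys (τ m).2.α hi
    have hmm : m ≤ max m k := le_max_left _ _
    have hG := hge m _ hmm
    have hik : i < ys ((τ (max m k)).1.k) :=
      hk.trans_le (c.mono.monotone ((le_max_right m k).trans (hkm _)))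
    have h1 : z i ξ l = (τ (max m k)).1.a i ξ l := by
      rw [← hz1 (max m k), below_of_lt hik]
    rw [h1, (τ (max m k)).2.agr i ⟨c.co_mono (τ m).2.α (τ (max m k)).2.α hG.α hi, hik⟩ ξ (hξ.trans hG.α) l]
    exact hG.t i hi ξ hξ l
  refine ⟨z, ⟨hz3, hz2, ?_, ?_⟩, ?_, ?_⟩
  · -- restrictions
    intro n α hα
    have hαe : α ∈ range e := by rw [← he]; exact mem_iUnion.2 ⟨n, hα⟩
    obtain ⟨m, rfl⟩ := hαe
    have hle : e m ≤ (τ (m + 1)).1.α := by rw [hτs]; exact hf2 m (τ m)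
    have hσ := (τ (m + 1)).2
    have h1 : SD.cut (co (p n) y (e m)) (e m) z = SD.cut (co (p n) y (e m)) (e m) (τ (m + 1)).1.t :=
      cut_of_agr ((hza (m + 1)).mono (c.co_mono hα hσ.α hle) hle)
    rw [h1]
    set n' := max n (τ (m + 1)).1.n with hn'
    have h2 : e m ∈ (p n').C y := c.C_mono (le_max_left _ _) hα
    have h3 : (τ (m + 1)).1.α ∈ (p n').C y := c.C_mono (le_max_right _ _) hσ.α
    have h4 : (τ (m + 1)).1.t ∈ (p n').T y (τ (m + 1)).1.α := by rw [← c.T_eq hσ.α h3]; exact hσ.t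
    rw [c.T_eq hα h2, c.co_eq hα h2]
    rcases eq_or_lt_of_le hle with h5 | h5
    · rw [← h5] at h4
      rw [(c.pcore n').Ts _ h2 _ h4]; exact h4
    · exact (c.pcore n').L2 _ h2 _ h3 h5 _ h4
  · -- eligibility
    intro _
    refine ⟨σ₀.n, σ₀.α, h0.α, σ₀.t, h0.t, hel0, ?_⟩
    have h1 := hza 0
    rw [hτ0] at h1
    exact h1
  · have h1 := hza 0
    rw [hτ0] at h1
    exact (h1.mono (c.co_mono h.α h0.α hge0.α) hge0.α).trans hge0.t
  · have h1 := hz1 0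
    rw [hτ0] at h1
    rw [← hge0.a, ← h1, below_below (c.mono.monotone hge0.k)]

/-- LEMMA Z without levels. -/
theorem Ctx.lemZ0 (c : Ctx o Prot y N δ gs ys qs p) {El : Set (Ord × Thr)} (hC : ∀ n, (p n).C y = ∅) {k : ℕ} {a : Thr}
    (ha : a ∈ (qs k).T (ys k) δ) : ∃ z, ZZ y δ ys qs p El z ∧ below (ys k) z = a := by
  classical
  have hstep : ∀ (m : ℕ) (b : {b : Thr // b ∈ (qs (k + m)).T (ys (k + m)) δ}),
      ∃ b' : {b : Thr // b ∈ (qs (k + (m + 1))).T (ys (k + (m + 1))) δ}, below (ys (k + m)) b'.1 = b.1 := by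
    rintro m ⟨b, hb⟩
    have hb' := hb
    rw [c.proj (show k + m ≤ k + (m + 1) by omega)] at hb'
    obtain ⟨b', h1, h2⟩ := hb'
    exact ⟨⟨b', h1⟩, h2⟩
  choose f hf using hstep
  let τ : (m : ℕ) → {b : Thr // b ∈ (qs (k + m)).T (ys (k + m)) δ} := fun m => Nat.rec ⟨a, ha⟩ (fun m b => f m b) m
  have hτs : ∀ m, below (ys (k + m)) (τ (m + 1)).1 = (τ m).1 := fun m => hf m (τ m)
  obtain ⟨z, hz1, hz2, hz3⟩ := c.limThr (fun m => (τ m).1) (fun m => k + m) (fun m => by omega) (fun m => by omega)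
    (fun m => (τ m).2) hτs
  refine ⟨z, ⟨hz3, hz2, ?_, ?_⟩, hz1 0⟩
  · intro n α hα; rw [hC n] at hα; exact absurd hα (notMem_empty _)
  · rintro ⟨n, α, hα⟩; rw [hC n] at hα; exact absurd hα (notMem_empty _)

/-- The set of the threads of the new level. -/
structure Th (y : Ord) (δ : Ord) (ys : ℕ → Ord) (qs p : ℕ → Cond) (El : Set (Ord × Thr)) (Θ : Set Thr) : Prop where
  c : Θ.Countable
  z : ∀ z ∈ Θ, ZZ y δ ys qs p El z
  ex : ∀ σ : St, σ.Ok y δ ys qs p → ∃ z ∈ Θ, Agr (co (p σ.n) y σ.α) σ.α z σ.t ∧ below (ys σ.k) z = σ.a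
  sj : ∀ k, ∀ a ∈ (qs k).T (ys k) δ, ∃ z ∈ Θ, below (ys k) z = a

theorem Ctx.exTh (c : Ctx o Prot y N δ gs ys qs p) {El : Set (Ord × Thr)} (hEl : ElH y δ ys qs p El) :
    ∃ Θ, Th y δ ys qs p El Θ := by
  classical
  have hTc : ∀ k, ((qs k).T (ys k) δ).Countable := fun k => (c.qcore k).Tc _ (c.good k).C
  by_cases hC : ∀ n, (p n).C y = ∅
  · have h := fun (k : ℕ) (a : Thr) (ha : a ∈ (qs k).T (ys k) δ) => c.lemZ0 (El := El) hC ha
    choose g hg1 hg2 using h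
    refine ⟨⋃ k, ⋃ a, ⋃ ha : a ∈ (qs k).T (ys k) δ, {g k a ha}, ?_, ?_, ?_, ?_⟩
    · exact countable_iUnion fun k => (hTc k).biUnion fun a _ => countable_singleton _
    · intro z hz
      simp only [mem_iUnion, mem_singleton_iff] at hz
      obtain ⟨k, a, ha, rfl⟩ := hz
      exact hg1 k a ha
    · intro σ hσ
      have h1 := hσ.α
      rw [hC] at h1
      exact absurd h1 (notMem_empty _)
    · intro k a ha
      exact ⟨g k a ha, mem_iUnion.2 ⟨k, mem_iUnion.2 ⟨a, mem_iUnion.2 ⟨ha, rfl⟩⟩⟩, hg2 k a ha⟩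
  · push Not at hC
    obtain ⟨n₁, α₁, hα₁⟩ := hC
    have h := fun (σ : St) (hσ : σ.Ok y δ ys qs p) => c.lemZ hEl hσ
    choose g hg1 hg2 hg3 using h
    have hcnt : {σ : St | σ.Ok y δ ys qs p}.Countable := by
      have h1 : (⋃ n, ⋃ k, ⋃ α ∈ (p n).C y, ⋃ t ∈ (p n).T y α, ⋃ a ∈ (qs k).T (ys k) δ,
          ({⟨n, α, t, k, a⟩} : Set St)).Countable :=
        countable_iUnion fun n => countable_iUnion fun k => ((c.pcore n).Cc).biUnion fun α hα =>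
          ((c.pcore n).Tc α hα).biUnion fun t _ => (hTc k).biUnion fun a _ => countable_singleton _
      refine h1.mono ?_
      rintro ⟨n, α, t, k, a⟩ hσ
      exact mem_iUnion.2 ⟨n, mem_iUnion.2 ⟨k, mem_iUnion₂.2 ⟨α, hσ.α, mem_iUnion₂.2 ⟨t, hσ.t,
        mem_iUnion₂.2 ⟨a, hσ.a, rfl⟩⟩⟩⟩⟩
    have hex : ∀ σ : St, σ.Ok y δ ys qs p → ∃ z ∈ (⋃ σ, ⋃ hσ : σ.Ok y δ ys qs p, {g σ hσ} : Set Thr),
        Agr (co (p σ.n) y σ.α) σ.α z σ.t ∧ below (ys σ.k) z = σ.a := fun σ hσ =>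
      ⟨g σ hσ, mem_iUnion.2 ⟨σ, mem_iUnion.2 ⟨hσ, rfl⟩⟩, hg2 σ hσ, hg3 σ hσ⟩
    refine ⟨⋃ σ, ⋃ hσ : σ.Ok y δ ys qs p, {g σ hσ}, ?_, ?_, hex, ?_⟩
    · exact hcnt.biUnion fun σ _ => countable_singleton _
    · intro z hz
      simp only [mem_iUnion, mem_singleton_iff] at hz
      obtain ⟨σ, hσ, rfl⟩ := hz
      exact hg1 σ hσ
    · intro k a ha
      obtain ⟨k₀, hk₀⟩ := c.ev n₁
      have hkk : k ≤ max k k₀ := le_max_left _ _
      have ha' := ha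
      rw [c.proj hkk] at ha'
      obtain ⟨a', ha1, ha2⟩ := ha'
      obtain ⟨t, ht, hat⟩ := c.restr hα₁ (hk₀ _ (le_max_right k k₀)) ha1
      obtain ⟨z, hz, -, hz2⟩ := hex ⟨n₁, α₁, t, max k k₀, a'⟩ ⟨hα₁, ht, ha1, hat⟩
      refine ⟨z, hz, ?_⟩
      change below (ys (max k k₀)) z = a' at hz2
      rw [← ha2, ← hz2, below_below (c.mono.monotone hkk)]

theorem Th.ne (c : Ctx o Prot y N δ gs ys qs p) {El : Set (Ord × Thr)} {Θ : Set Thr} (h : Th y δ ys qs p El Θ) :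
    Θ.Nonempty := by
  obtain ⟨a, ha⟩ := (c.qcore 0).Tn _ (c.good 0).C
  obtain ⟨z, hz, -⟩ := h.sj 0 a ha
  exact ⟨z, hz⟩

theorem Th.im (_c : Ctx o Prot y N δ gs ys qs p) {El : Set (Ord × Thr)} {Θ : Set Thr} (h : Th y δ ys qs p El Θ)
    (k : ℕ) : (qs k).T (ys k) δ = below (ys k) '' Θ := by
  ext a
  constructor
  · intro ha
    obtain ⟨z, hz, h2⟩ := h.sj k a ha
    exact ⟨z, hz, h2⟩
  · rintro ⟨z, hz, rfl⟩
    exact (h.z z hz).pr k

/-- (L3) for the new level. -/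
theorem Th.L3 (c : Ctx o Prot y N δ gs ys qs p) {El : Set (Ord × Thr)} {Θ : Set Thr} (h : Th y δ ys qs p El Θ)
    {n : ℕ} {α : Ord} (hα : α ∈ (p n).C y) {x : Ord} {t z : Thr} (ht : t ∈ (p n).T y α) (hz : z ∈ Θ)
    (hagr : Agr {i | i ∈ co (p n) y α ∧ i < x} α z t) :
    ∃ z' ∈ Θ, Agr (co (p n) y α) α z' t ∧ below x z' = below x z := by
  by_cases hx : ∀ k, ys k < x
  · refine ⟨z, hz, ?_, rfl⟩
    intro i hi ξ hξ m
    obtain ⟨k, hk⟩ := c.co_lt_ys hα hi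
    exact hagr i ⟨hi, hk.trans (hx k)⟩ ξ hξ m
  · push Not at hx
    obtain ⟨k, hk⟩ := hx
    obtain ⟨k₀, hk₀⟩ := c.ev n
    set K := max k k₀ with hK
    have hxK : x ≤ ys K := hk.trans (c.mono.monotone (le_max_left _ _))
    have hqp := hk₀ K (le_max_right _ _)
    have ha0 := (h.z z hz).pr K
    suffices H : ∃ a' ∈ (qs K).T (ys K) δ, Agr {i | i ∈ co (p n) y α ∧ i < ys K} α a' t ∧
        below x a' = below x z by
      obtain ⟨a', h1, h2, h3⟩ := H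
      obtain ⟨z', h4, h5, h6⟩ := h.ex ⟨n, α, t, K, a'⟩ ⟨hα, ht, h1, h2⟩
      refine ⟨z', h4, h5, ?_⟩
      rw [← h3]
      change below (ys K) z' = a' at h6
      rw [← h6, below_below hxK]
    obtain ⟨s, hs, hsk, hm⟩ := c.maxu hα K
    obtain ⟨h1, h2, h3, h4⟩ := c.cmp hα hs hsk hqp
    obtain ⟨-, h5, h6⟩ := c.lev hsk (Or.inl (c.uN hα hs))
    have hcore : LegCore (qs K) s := A.core (c.good K).A h1
    rcases le_or_gt x s with hxs | hxs
    · have ht' : below s t ∈ (qs K).T s α := by rw [h3]; exact mem_image_of_mem _ ht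
      have hb : below s (below (ys K) z) ∈ (qs K).T s δ := by rw [h6]; exact mem_image_of_mem _ ha0
      obtain ⟨b', hb', hb1, hb2⟩ := hcore.L3 α h2 δ h5 (c.alt hα) x hxs _ ht' _ hb (by
        rintro i ⟨hi, hik⟩ ξ hξ m
        rw [h4] at hi
        rw [below_of_lt hi.2, below_of_lt hi.2, below_of_lt (hik.trans_le hxK)]
        exact hagr i ⟨hi.1, hik⟩ ξ hξ m)
      rw [h6] at hb'
      obtain ⟨a', ha1, ha2⟩ := hb'
      refine ⟨a', ha1, ?_, ?_⟩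
      · rintro i ⟨hi, hik⟩ ξ hξ m
        have his : i < s := (c.co_cut hα hsk hm hi).1 hik
        have h8 := hb1 i (by rw [h4]; exact ⟨hi, his⟩) ξ hξ m
        rw [← ha2, below_of_lt his, below_of_lt his] at h8
        exact h8
      · rw [← below_below hxs a', ha2, hb2, below_below hxs, below_below hxK]
    · refine ⟨below (ys K) z, ha0, ?_, below_below hxK z⟩
      rintro i ⟨hi, hik⟩ ξ hξ m
      have his : i < s := (c.co_cut hα hsk hm hi).1 hik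
      rw [below_of_lt hik]
      exact hagr i ⟨hi, his.trans hxs⟩ ξ hξ m

/-! ### The set of the recognised indices -/

/-- The recognised indices of the new level of the index `x`. -/
def WW (N : Set U) (x : Ord) : Set Ord := {z | z < x ∧ Cl N z}

theorem Ctx.wcases (c : Ctx o Prot y N δ gs ys qs p) {z : Ord} (hz : z ∈ WW N y) :
    (∃ k, z < ys k) ∨ ((∀ k, ys k < z) ∧ ∀ w < z, ∃ k, w < ys k) := by
  by_cases h : ∃ k, z < ys k
  · exact Or.inl h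
  · right
    push Not at h
    have h1 : ∀ k, ys k < z := fun k => (c.mono (Nat.lt_succ_self k)).trans_le (h (k + 1))
    refine ⟨h1, ?_⟩
    intro w hw
    rcases hz.2 with h2 | ⟨_, h2⟩
    · obtain ⟨k, hk⟩ := c.cof z hz.1 h2
      exact absurd (h1 k) (not_lt_of_ge hk)
    · obtain ⟨v, hv, hwv, hvz⟩ := h2 w hw
      obtain ⟨k, hk⟩ := c.cof v (hvz.trans hz.1) hv
      exact ⟨k, hwv.trans_le hk⟩

theorem Ctx.wcount (c : Ctx o Prot y N δ gs ys qs p) : (WW N y).Countable := by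
  have h1 : WW N y ⊆ (⋃ k, (qs k).u (ys k) δ) ∪ {z | z ∈ WW N y ∧ ¬ ∃ k, z < ys k} := by
    intro z hz
    by_cases h : ∃ k, z < ys k
    · obtain ⟨k, hk⟩ := h
      exact Or.inl (mem_iUnion.2 ⟨k, c.uq hk hz.2⟩)
    · exact Or.inr ⟨hz, h⟩
  refine (Set.Countable.union (countable_iUnion fun k => (c.qcore k).uc _ (c.good k).C) ?_).mono h1
  apply Set.Subsingleton.countable
  rintro a ⟨ha, ha'⟩ b ⟨hb, hb'⟩
  have ha2 := (c.wcases ha).resolve_left ha'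
  have hb2 := (c.wcases hb).resolve_left hb'
  rcases lt_trichotomy a b with h | h | h
  · exact absurd (hb2.2 a h) ha'
  · exact h
  · exact absurd (ha2.2 b h) hb'

theorem clN0 (hN : Basic o N δ) : U.ord 0 ∈ N :=
  (hN.ord 0 (lt_of_le_of_lt zero_le hN.lt)).2 (lt_of_le_of_ne zero_le (by
    intro h
    exact hN.lim.ne_bot (by rw [← h]; rfl)))

/-- The requirements on the new level at `x`, in the case that `x` is above all `ys k`. -/
theorem Ctx.topC (c : Ctx o Prot y N δ gs ys qs p) {El : Set (Ord × Thr)} {Θ : Set Thr} (h : Th y δ ys qs p El Θ)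
    (x : Ord) (hxy : x ≤ y) (hx : ∀ k, ys k < x) (hxs : ∀ i, i + 1 ≠ x) (pp : ℕ → Cond) (q : Cond)
    (hW : ∀ z ∈ WW N x, z ∈ q.J ∧ δ ∈ q.C z ∧ q.u z δ = {w | w ∈ WW N x ∧ w < z} ∧ q.T z δ = below z '' Θ)
    (hab : ∀ n, ∀ α ∈ (pp n).C x, α < δ) (hL2u : ∀ n, ∀ α ∈ (pp n).C x, (pp n).u x α ⊆ WW N x)
    (hL2 : ∀ n, ∀ α ∈ (pp n).C x, ∀ t ∈ Θ, cut (co (pp n) x α) α t ∈ (pp n).T x α)
    (hL3 : ∀ n, ∀ α ∈ (pp n).C x, ∀ x' ≤ x, ∀ t ∈ (pp n).T x α, ∀ z ∈ Θ,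
      Agr {i | i ∈ co (pp n) x α ∧ i < x'} α z t →
        ∃ z' ∈ Θ, Agr (co (pp n) x α) α z' t ∧ below x' z' = below x' z) :
    TopC q x pp δ (WW N x) Θ where
  lim := c.hN.lim
  lt := c.hN.lt
  ab := hab
  Wc := by
    have h1 : WW N x ⊆ WW N y := fun z hz => ⟨hz.1.trans_le hxy, hz.2⟩
    exact c.wcount.mono h1
  Wlt z hz := hz.1
  Wcl z hz h0 hl := by
    refine ⟨hz, Or.inr ⟨h0, ?_⟩⟩
    intro w hw
    obtain ⟨v, hv, hwv, hvz⟩ := hl w hw
    rcases hv.2 with h1 | ⟨_, h1⟩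
    · exact ⟨v, h1, hwv, hvz⟩
    · obtain ⟨v', h2, h3, h4⟩ := h1 w hwv
      exact ⟨v', h2, h3, h4.trans hvz⟩
  W0 h0 := ⟨h0, Or.inl (clN0 c.hN)⟩
  Ws i hi := by
    rcases hi with hi | hi
    · refine ⟨(lt_add_one i).trans hi.1, ?_⟩
      rcases hi.2 with h1 | ⟨_, h1⟩
      · exact Or.inl ((c.hN.succ i).2 h1)
      · obtain ⟨v, -, h2, h3⟩ := h1 i (lt_add_one i)
        exact absurd (Order.add_one_le_of_lt h2) (not_le_of_gt h3)
    · exact absurd hi (hxs i)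
  Θc := h.c
  Θn := Th.ne c h
  Θs t ht := by
    have hz := h.z t ht
    funext i ξ m
    unfold SD.cut
    split_ifs with h1
    · rfl
    · symm
      by_cases hk : ∃ k, i < ys k
      · obtain ⟨k, hk⟩ := hk
        have h2 := eq_zero_of_cut ((c.qcore k).Ts _ (c.good k).C _ (hz.pr k)) (i := i) (ξ := ξ) (n := m) (by
          rintro ⟨h3, h4⟩
          apply h1
          refine ⟨⟨hk.trans (hx k), Or.inl ?_⟩, h4⟩
          rcases h3.2 with h5 | h5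
          · rw [(c.good k).u] at h5
            exact ⟨h5.1.trans (hx k), h5.2⟩
          · rw [h5]; exact ⟨hx k, Or.inl (c.ysN k)⟩)
        rw [below_of_lt hk] at h2
        exact h2
      · push Not at hk
        exact hz.sup i hk ξ m
  L1J z hz := ⟨(hW z hz).1, (hW z hz).2.1⟩
  L1u z hz := (hW z hz).2.2.1
  L1T z hz := (hW z hz).2.2.2
  L2u := hL2u
  L2 := hL2
  L3 := hL3

/-- The data at the indices of the model below some `ys k`. -/
theorem Ctx.low (c : Ctx o Prot y N δ gs ys qs p) {El : Set (Ord × Thr)} {Θ : Set Thr} (h : Th y δ ys qs p El Θ)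
    {q : Cond} (hq : ∀ k, CLe o q (qs k)) {z : Ord} {k : ℕ} (hz : z < ys k) (hzN : Cl N z) :
    z ∈ q.J ∧ δ ∈ q.C z ∧ q.u z δ = {w | Cl N w ∧ w < z} ∧ q.T z δ = below z '' Θ := by
  obtain ⟨h1, h2, h3⟩ := c.lev hz.le hzN
  refine ⟨(hq k).J h1, (hq k).C z h1 h2, ?_, ?_⟩
  · rw [(hq k).u z h1 δ h2, (c.qcore k).L1u _ (c.good k).C _ (c.uq hz hzN), (c.good k).u]
    ext w
    exact ⟨fun hw => ⟨hw.1.2, hw.2⟩, fun hw => ⟨⟨hw.2.trans hz, hw.1⟩, hw.2⟩⟩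
  · rw [(hq k).T z h1 δ h2, h3, Th.im c h k]
    ext t
    constructor
    · rintro ⟨t', ⟨t'', h4, rfl⟩, rfl⟩
      exact ⟨t'', h4, (below_below hz.le _).symm⟩
    · rintro ⟨t'', h4, rfl⟩
      exact ⟨below (ys k) t'', ⟨t'', h4, rfl⟩, below_below hz.le _⟩

theorem cle_empty {q r : Cond} (h : r.J = ∅) : CLe o q r where
  J := by rw [h]; exact empty_subset _
  C j hj := by rw [h] at hj; exact absurd hj (notMem_empty _)
  ee j hj := by rw [h] at hj; exact absurd hj (notMem_empty _)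
  u j hj := by rw [h] at hj; exact absurd hj (notMem_empty _)
  T j hj := by rw [h] at hj; exact absurd hj (notMem_empty _)
  F j hj := by rw [h] at hj; exact absurd hj (notMem_empty _)
  Pr j hj := by rw [h] at hj; exact absurd hj (notMem_empty _)
  kl i γ hi := by rw [h] at hi; exact absurd hi (notMem_empty _)

/-- The empty condition. -/
def emptyC : Cond where
  J := ∅
  C _ := ∅
  u _ _ := ∅
  T _ _ := ∅
  F _ := ∅
  Pr _ := ∅

theorem emptyC_mem (x : Ord) : emptyC ∈ A o x :=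
  ⟨⟨countable_empty, fun _ _ => rfl, fun _ _ => rfl, fun _ _ => rfl, fun _ _ _ => rfl, fun _ _ _ => rfl⟩,
    fun _ hz => absurd hz (notMem_empty _)⟩

/-- `p n` restricted to indices `≤ x`, `x < y`, from the restrictions to the indices `≤ ys k`. -/
theorem Ctx.cle_res (c : Ctx o Prot y N δ gs ys qs p) {q : Cond} (hq : ∀ k, CLe o q (qs k)) (n : ℕ) {x : Ord}
    (hx : x < y) : CLe o q ((p n).res x) := by
  have hk : ∀ j ∈ ((p n).res x).J, ∃ k₀, ∀ k ≥ k₀, j ≤ ys k ∧ CLe o q ((p n).res (ys k)) := by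
    rintro j ⟨hj, hjx⟩
    have hjN : U.ord j ∈ N := c.hN.J (p n) y (c.sq.mem n) (c.sq.A n) j hj
    obtain ⟨k₁, hk₁⟩ := c.cof j (hjx.trans_lt hx) hjN
    obtain ⟨k₀, hk₀⟩ := c.ev n
    refine ⟨max k₁ k₀, fun k hk => ⟨hk₁.trans (c.mono.monotone ((le_max_left _ _).trans hk)), ?_⟩⟩
    have h1 := hk₀ k ((le_max_right _ _).trans hk)
    exact (hq k).trans (nrm_res (c.sq.A n).1 _) h1
  constructor
  · intro j hj
    obtain ⟨k, hk⟩ := hk j hj
    obtain ⟨h1, h2⟩ := hk k le_rfl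
    exact h2.J ⟨hj.1, h1⟩
  · intro j hj
    obtain ⟨k, hk⟩ := hk j hj
    obtain ⟨h1, h2⟩ := hk k le_rfl
    have h3 := h2.C j ⟨hj.1, h1⟩
    rw [res_C _ _ h1] at h3
    rw [res_C _ _ hj.2]; exact h3
  · intro j hj
    obtain ⟨k, hk⟩ := hk j hj
    obtain ⟨h1, h2⟩ := hk k le_rfl
    have h3 := h2.ee j ⟨hj.1, h1⟩
    rw [res_C _ _ h1] at h3
    rw [res_C _ _ hj.2]; exact h3
  · intro j hj
    obtain ⟨k, hk⟩ := hk j hj
    obtain ⟨h1, h2⟩ := hk k le_rfl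
    have h3 := h2.u j ⟨hj.1, h1⟩
    rw [res_C _ _ h1, res_u _ _ h1] at h3
    rw [res_C _ _ hj.2, res_u _ _ hj.2]; exact h3
  · intro j hj
    obtain ⟨k, hk⟩ := hk j hj
    obtain ⟨h1, h2⟩ := hk k le_rfl
    have h3 := h2.T j ⟨hj.1, h1⟩
    rw [res_C _ _ h1, res_T _ _ h1] at h3
    rw [res_C _ _ hj.2, res_T _ _ hj.2]; exact h3
  · intro j hj
    obtain ⟨k, hk⟩ := hk j hj
    obtain ⟨h1, h2⟩ := hk k le_rfl
    have h3 := h2.F j ⟨hj.1, h1⟩
    rw [res_F _ _ h1] at h3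
    rw [res_F _ _ hj.2]; exact h3
  · intro j hj
    obtain ⟨k, hk⟩ := hk j hj
    obtain ⟨h1, h2⟩ := hk k le_rfl
    have h3 := h2.Pr j ⟨hj.1, h1⟩
    rw [res_Pr _ _ h1] at h3
    rw [res_Pr _ _ hj.2]; exact h3
  · intro i γ hi ho α h1 h2 β hβ t ht ξ hξ h0
    have hγ : γ + 1 ∈ ((p n).res x).J := (nrm_res (c.sq.A n).1 x).mem_J hβ
    obtain ⟨k₁, hk₁⟩ := hk _ hi
    obtain ⟨k₂, hk₂⟩ := hk _ hγ
    have h3 := hk₁ (max k₁ k₂) (le_max_left _ _)
    have h4 := hk₂ (max k₁ k₂) (le_max_right _ _)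
    rw [res_C _ _ hi.2] at h2
    rw [res_C _ _ hγ.2] at hβ
    rw [res_T _ _ hγ.2] at ht
    refine h3.2.kl i γ ⟨hi.1, h3.1⟩ ho α h1 ?_ β ?_ t ?_ ξ hξ h0
    · rw [res_C _ _ h3.1]; exact h2
    · rw [res_C _ _ h4.1]; exact hβ
    · rw [res_T _ _ h4.1]; exact ht

/-- The condition below the limit index. -/
theorem Ctx.exq (c : Ctx o Prot y N δ gs ys qs p) (htop : St_top) (hsig : St_sig) (hbirth : St_birth)
    {El : Set (Ord × Thr)} {Θ : Set Thr} (h : Th y δ ys qs p El Θ) :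
    ∃ q ∈ A o y, (∀ j ∈ q.J, j < y) ∧ (∀ k, CLe o q (qs k)) ∧
      ∀ z ∈ WW N y, z ∈ q.J ∧ δ ∈ q.C z ∧ q.u z δ = {w | w ∈ WW N y ∧ w < z} ∧ q.T z δ = below z '' Θ := by
  obtain ⟨q₀, hq₀, hq₁, hq₂, -, -⟩ := hsig o Prot c.hl y qs (fun k => A.mono (c.ysy k).le (c.good k).A) c.qdec
  have hJ : ∀ j ∈ q₀.J, ∃ k, j ≤ ys k := by
    intro j hj
    rw [hq₂] at hj
    obtain ⟨k, hk⟩ := mem_iUnion.1 hj
    exact ⟨k, A.le (c.good k).A hk⟩
  have hlow : ∀ q : Cond, (∀ k, CLe o q (qs k)) → ∀ x, x ≤ y → ∀ z ∈ WW N x, (∃ k, z < ys k) →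
      z ∈ q.J ∧ δ ∈ q.C z ∧ q.u z δ = {w | w ∈ WW N x ∧ w < z} ∧ q.T z δ = below z '' Θ := by
    rintro q hq x hx z hz ⟨k, hk⟩
    obtain ⟨h1, h2, h3, h4⟩ := c.low h hq hk hz.2
    refine ⟨h1, h2, ?_, h4⟩
    rw [h3]
    ext w
    exact ⟨fun hw => ⟨⟨hw.2.trans hz.1, hw.1⟩, hw.2⟩, fun hw => ⟨hw.1.2, hw.2⟩⟩
  by_cases hs : ∃ s ∈ WW N y, ¬ ∃ k, s < ys k
  · obtain ⟨s, hsW, hs⟩ := hs
    obtain ⟨hs1, hs2⟩ := (c.wcases hsW).resolve_left hs
    have hsucc : ∀ i, i + 1 ≠ s := by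
      rintro i rfl
      obtain ⟨k, hk⟩ := hs2 i (lt_add_one i)
      exact absurd (Order.add_one_le_of_lt hk) (not_le_of_gt (hs1 k))
    have hJs : ∀ j ∈ q₀.J, j < s := fun j hj => by
      obtain ⟨k, hk⟩ := hJ j hj
      exact hk.trans_lt (hs1 k)
    have hq₀s : q₀ ∈ A o s := ⟨hq₀.1, fun z hz => ⟨(hJs z hz).le, (hq₀.2 z hz).2⟩⟩
    obtain ⟨e, he, -, heJ, heC, heu, heT, heF, hePr⟩ := hbirth o Prot c.hl s emptyC (emptyC_mem s) s le_rfl
      (notMem_empty _)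
    have hes : s ∈ e.J := by rw [heJ]; exact mem_insert _ _
    have heC0 : ∀ n : ℕ, ∀ α ∈ ((fun _ : ℕ => e) n).C s, False := by
      intro n α hα
      change α ∈ e.C s at hα
      rw [heC] at hα; exact hα
    have hWs : ∀ z ∈ WW N s, z ∈ q₀.J ∧ δ ∈ q₀.C z ∧ q₀.u z δ = {w | w ∈ WW N s ∧ w < z} ∧
        q₀.T z δ = below z '' Θ := fun z hz => hlow q₀ hq₁ s hsW.1.le z hz (hs2 z hz.1)
    have hT := c.topC h s hsW.1.le hs1 hsucc (fun _ => e) q₀ hWs (fun n α hα => (heC0 n α hα).elim)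
      (fun n α hα => (heC0 n α hα).elim) (fun n α hα => (heC0 n α hα).elim) (fun n α hα => (heC0 n α hα).elim)
    have hres : ∀ (n : ℕ), ∀ x < s, CLe o q₀ (((fun _ : ℕ => e) n).res x) := by
      intro n x hx
      apply cle_empty
      ext j
      constructor
      · rintro ⟨h1, h2⟩
        change j ∈ e.J at h1
        rw [heJ] at h1
        rcases h1 with rfl | h1
        · exact absurd hx (not_lt_of_ge h2)
        · exact h1
      · intro h1; exact absurd h1 (notMem_empty _)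
    obtain ⟨-, htp⟩ := htop o Prot c.hl s (fun _ => e) q₀ δ (WW N s) Θ (fun _ => he) (fun _ => CLe.refl _) hes hq₀s hJs
      hres hT
    obtain ⟨h1, h2, h3, h4, -⟩ := htp fun i hi => absurd hi (hsucc i)
    set q := mkTop q₀ s (fun _ => e) δ (WW N s) Θ with hq
    have hqq : ∀ k, CLe o q (qs k) := fun k => h2.trans (c.good k).A.1 (hq₁ k)
    refine ⟨q, A.mono hsW.1.le h1, ?_, hqq, ?_⟩
    · intro j hj
      rcases hj with rfl | hj
      · exact hsW.1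
      · exact (hJs j hj).trans hsW.1
    · intro z hz
      rcases c.wcases hz with h5 | ⟨h5, h6⟩
      · exact hlow q hqq y le_rfl z hz h5
      · have hzs : z = s := by
          rcases lt_trichotomy z s with h | h | h
          · obtain ⟨k, hk⟩ := hs2 z h
            exact absurd hk (not_lt_of_gt (h5 k))
          · exact h
          · obtain ⟨k, hk⟩ := h6 s h
            exact absurd hk (not_lt_of_gt (hs1 k))
        subst hzs
        refine ⟨mem_insert _ _, ?_, ?_, ?_⟩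
        · rw [h3]; exact mem_insert _ _
        · have : q.u z δ = WW N z := by simp [hq, mkTop]
          rw [this]
          ext w
          exact ⟨fun hw => ⟨⟨hw.1.trans hz.1, hw.2⟩, hw.1⟩, fun hw => ⟨hw.2, hw.1.2⟩⟩
        · have : q.T z δ = Θ := by simp [hq, mkTop]
          rw [this]
          have hbel : ∀ t ∈ Θ, below z t = t := by
            intro t ht
            funext i ξ m
            by_cases hi : i < z
            · rw [below_of_lt hi]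
            · rw [below_of_le (not_lt.1 hi)]
              exact ((h.z t ht).sup i (fun k => (hs1 k).le.trans (not_lt.1 hi)) ξ m).symm
          ext t
          constructor
          · intro ht; exact ⟨t, ht, hbel t ht⟩
          · rintro ⟨t', ht', rfl⟩; rw [hbel t' ht']; exact ht'
  · push Not at hs
    refine ⟨q₀, hq₀, ?_, hq₁, fun z hz => hlow q₀ hq₁ y le_rfl z hz (hs z hz)⟩
    intro j hj
    obtain ⟨k, hk⟩ := hJ j hj
    exact hk.trans_lt (c.ysy k)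

end lems

/-- The new top level at a limit index. -/
theorem job_topL (htop : St_top) (hsig : St_sig) (hbirth : St_birth) : St_topL := by
  intro o Prot hl y hy N δ gs hN hgs hyN ys hmono hys hcof qs hgood hqdec p hsq hyJ hev El hEl
  have c : Ctx o Prot y N δ gs ys qs p :=
    ⟨hl, hy, hN, hyN, hmono, fun k => (hys k).1, fun k => (hys k).2, hcof, hgood, hqdec, hsq, hyJ, hev⟩
  obtain ⟨Θ, hΘ⟩ := c.exTh hEl
  obtain ⟨q₀, h1, h2, h3, h4⟩ := c.exq htop hsig hbirth hΘ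
  have hsucc : ∀ i, i + 1 ≠ y := by
    rintro i rfl
    exact absurd hy (by
      rw [← Order.succ_eq_add_one]
      exact Order.not_isSuccLimit_succ i)
  have hT := c.topC hΘ y le_rfl c.ysy hsucc p q₀ h4 (fun n α hα => c.alt hα)
    (fun n α hα z hz => ⟨(c.pcore n).ult α hα z hz, Or.inl (c.uN hα hz)⟩)
    (fun n α hα t ht => (hΘ.z t ht).cut n α hα)
    (fun n α hα x _ t ht z hz hagr => Th.L3 c hΘ hα ht hz hagr)
  obtain ⟨-, htp⟩ := htop o Prot hl y p q₀ δ (WW N y) Θ hsq.A hsq.dec hyJ h1 h2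
    (fun n x hx => c.cle_res h3 n hx) hT
  obtain ⟨h5, h6, h7, h8, h9⟩ := htp fun i hi => absurd hi (hsucc i)
  have h10 := h9 fun i γ hi => absurd hi (hsucc i)
  set q := mkTop q₀ y p δ (WW N y) Θ with hq
  have hqT : q.T y δ = Θ := by simp [hq, mkTop]
  refine ⟨q, ⟨h5, mem_insert _ _, ?_, ?_, ?_⟩, h10, ?_, ?_, ?_⟩
  · rw [h7]; exact mem_insert _ _
  · simp [hq, mkTop, WW]
  · intro t ht γ hγ hγN hcoh
    rw [hqT] at ht
    obtain ⟨k, hk⟩ := c.cof γ hγ hγN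
    have hk1 : γ < ys (k + 1) := hk.trans_lt (c.mono (Nat.lt_succ_self k))
    have h11 := (c.good (k + 1)).mks _ ((hΘ.z t ht).pr (k + 1)) γ hk1 hγN hcoh
    rw [below_of_lt hk1] at h11
    exact h11
  · intro k
    rw [h8 _ (c.ysy k)]
    have h11 := (h3 k).res (ys k)
    rw [res_self (c.good k).A.1 fun j hj => A.le (c.good k).A hj] at h11
    exact h11
  · intro α hα
    rw [h7] at hα
    rcases hα with rfl | hα
    · exact le_rfl
    · obtain ⟨n, hn⟩ := mem_iUnion.1 hα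
      exact (c.alt hn).le
  · intro hne z hz
    rw [hqT] at hz
    exact (hΘ.z z hz).el hne

end Pool.Agent.Helper919.SD.TtopL
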