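import Pool.Agent.Helper919_SDT.Stmts

set_option autoImplicit false

/-!
# New top levels at Cohen and kill coordinates
-/

namespace Pool.Agent.Helper919.SD.TtopN

open Ordinal Cardinal Set

variable {o : Ord → Opt} {Prot : Set Ord}

theorem dec_le {p : ℕ → Cond} {y : Ord} (hA : ∀ n, p n ∈ A o y) (h : ∀ n, CLe o (p (n + 1)) (p n)) {n m : ℕ}
    (hnm : n ≤ m) : CLe o (p m) (p n) := by
  induction m, hnm using Nat.le_induction with
  | base => exact CLe.refl _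
  | succ m hm ih => exact CLe.trans (hA n).1 (h m) ih

/-- The hypotheses of `TopN`. -/
structure Ctx (o : Ord → Opt) (Prot : Set Ord) (i : Ord) (N : Set U) (δ : Ord) (gs : Option Ord) (p : ℕ → Cond)
    (qi : Cond) : Prop where
  hl : Legit o Prot
  hs : ∀ r B g, o i ≠ Opt.spec r B g
  hB : Basic o N δ
  hgs : ∀ γ, gs = some γ → γ ∈ Prot
  hi : U.ord i ∈ N
  hp : Sq o N (i + 1) p
  hJ : i + 1 ∈ (p 0).J
  hgen : ∀ z ≤ i, U.ord z ∈ N → Gen o N p z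
  hq : GoodQ o N δ gs i qi
  hle : ∀ n, CLe o qi ((p n).res i)
  hNX : ∀ z ≤ i, NX o z

section

variable {i : Ord} {N : Set U} {δ : Ord} {gs : Option Ord} {p : ℕ → Cond} {qi : Cond}

theorem lt_succ' (i : Ord) : i < i + 1 := lt_add_one i

theorem Ctx.dec (h : Ctx o Prot i N δ gs p qi) {n m : ℕ} (hnm : n ≤ m) : CLe o (p m) (p n) :=
  dec_le h.hp.A h.hp.dec hnm

theorem Ctx.J (h : Ctx o Prot i N δ gs p qi) (n : ℕ) : i + 1 ∈ (p n).J := (h.dec (Nat.zero_le n)).J h.hJ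

theorem Ctx.core (h : Ctx o Prot i N δ gs p qi) (n : ℕ) : LegCore (p n) (i + 1) := A.core (h.hp.A n) (h.J n)

theorem Ctx.coreq (h : Ctx o Prot i N δ gs p qi) : LegCore qi i := A.core h.hq.A h.hq.J

theorem Ctx.lt (h : Ctx o Prot i N δ gs p qi) {n : ℕ} {α : Ord} (hα : α ∈ (p n).C (i + 1)) : α < δ :=
  (h.hB.ord α ((h.core n).Clt α hα)).1 (h.hB.C (p n) (i + 1) (h.hp.mem n) (h.hp.A n) _ (h.J n) α hα)

theorem Ctx.iu (h : Ctx o Prot i N δ gs p qi) {n : ℕ} {α : Ord} (hα : α ∈ (p n).C (i + 1)) : i ∈ (p n).u (i + 1) α :=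
  (h.core n).us α hα i (Or.inr rfl)

theorem Ctx.ico (_ : Ctx o Prot i N δ gs p qi) (n : ℕ) (α : Ord) : i ∈ co (p n) (i + 1) α :=
  ⟨lt_succ' i, Or.inr rfl⟩

theorem Ctx.coi (h : Ctx o Prot i N δ gs p qi) {n : ℕ} {α : Ord} (hα : α ∈ (p n).C (i + 1)) :
    co (p n) i α = {j | j ∈ co (p n) (i + 1) α ∧ j < i} := (h.core n).co_eq hα (h.iu hα)

theorem Ctx.Ji (h : Ctx o Prot i N δ gs p qi) {n : ℕ} {α : Ord} (hα : α ∈ (p n).C (i + 1)) : i ∈ (p n).J :=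
  ((h.core n).L1J α hα i (h.iu hα)).1

theorem Ctx.Ci (h : Ctx o Prot i N δ gs p qi) {n : ℕ} {α : Ord} (hα : α ∈ (p n).C (i + 1)) : α ∈ (p n).C i :=
  ((h.core n).L1J α hα i (h.iu hα)).2

theorem Ctx.qC (h : Ctx o Prot i N δ gs p qi) {n : ℕ} {α : Ord} (hα : α ∈ (p n).C (i + 1)) : α ∈ qi.C i :=
  (h.hle n).C i ⟨h.Ji hα, le_rfl⟩ (by rw [res_C _ _ le_rfl]; exact h.Ci hα)

theorem Ctx.qT (h : Ctx o Prot i N δ gs p qi) {n : ℕ} {α : Ord} (hα : α ∈ (p n).C (i + 1)) :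
    qi.T i α = (p n).T i α := by
  rw [(h.hle n).T i ⟨h.Ji hα, le_rfl⟩ α (by rw [res_C _ _ le_rfl]; exact h.Ci hα), res_T _ _ le_rfl]

theorem Ctx.qco (h : Ctx o Prot i N δ gs p qi) {n : ℕ} {α : Ord} (hα : α ∈ (p n).C (i + 1)) :
    co qi i α = co (p n) i α := by
  rw [(h.hle n).co_eq ⟨h.Ji hα, le_rfl⟩ (by rw [res_C _ _ le_rfl]; exact h.Ci hα), res_co _ _ le_rfl]

theorem Ctx.Ti (h : Ctx o Prot i N δ gs p qi) {n : ℕ} {α : Ord} (hα : α ∈ (p n).C (i + 1)) :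
    (p n).T i α = below i '' (p n).T (i + 1) α := (h.core n).L1T α hα i (h.iu hα)

theorem Ctx.cut_mem (h : Ctx o Prot i N δ gs p qi) {n : ℕ} {α : Ord} (hα : α ∈ (p n).C (i + 1)) {a : Thr}
    (ha : a ∈ qi.T i δ) : cut (co (p n) i α) α a ∈ (p n).T i α := by
  rw [← h.qT hα, ← h.qco hα]
  exact h.coreq.L2 α (h.qC hα) δ h.hq.C (h.lt hα) a ha

/-- Each thread of the level `δ` of the index `i` is over a thread of each level of the index `i + 1`. -/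
theorem Ctx.over (h : Ctx o Prot i N δ gs p qi) {n : ℕ} {α : Ord} (hα : α ∈ (p n).C (i + 1)) {a : Thr}
    (ha : a ∈ qi.T i δ) : ∃ t ∈ (p n).T (i + 1) α, Agr (co (p n) i α) α a t := by
  have h1 := h.cut_mem hα ha
  rw [h.Ti hα] at h1
  obtain ⟨t, ht, h2⟩ := h1
  refine ⟨t, ht, ?_⟩
  have h3 : Agr (co (p n) i α) α (cut (co (p n) i α) α a) a := agr_cut _ _ _
  rw [← h2] at h3
  exact h3.symm.trans (agr_below (fun j hj => co_lt hj) α t)

/-- Extension of a thread to a higher level. -/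
theorem Ctx.step (h : Ctx o Prot i N δ gs p qi) {n : ℕ} {α β : Ord} (hα : α ∈ (p n).C (i + 1))
    (hβ : β ∈ (p n).C (i + 1)) (hab : α < β) {a t : Thr} (ha : a ∈ qi.T i δ) (ht : t ∈ (p n).T (i + 1) α)
    (hat : Agr (co (p n) i α) α a t) :
    ∃ z ∈ (p n).T (i + 1) β, Agr (co (p n) (i + 1) α) α z t ∧ Agr (co (p n) i β) β a z := by
  obtain ⟨t', ht', h1⟩ := h.over hβ ha
  have hsub : co (p n) i α ⊆ co (p n) i β :=
    (A.core (h.hp.A n) (h.Ji hα)).co_mono (h.Ci hα) (h.Ci hβ) hab.le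
  have h2 : Agr {j | j ∈ co (p n) (i + 1) α ∧ j < i} α t' t := by
    rw [← h.coi hα]
    exact ((h1.mono hsub hab.le).symm).trans hat
  obtain ⟨z, hz, h3, h4⟩ := (h.core n).L3 α hα β hβ hab i (lt_succ' i).le t ht t' ht' h2
  refine ⟨z, hz, h3, ?_⟩
  rw [below_eq_iff] at h4
  intro j hj ξ hξ k
  rw [h1 j hj ξ hξ k, h4 j (co_lt hj)]

/-- The union of the levels. -/
def CC (p : ℕ → Cond) (i : Ord) : Set Ord := ⋃ n, (p n).C (i + 1)

theorem mem_CC {α : Ord} : α ∈ CC p i ↔ ∃ n, α ∈ (p n).C (i + 1) := mem_iUnion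

theorem Ctx.up (h : Ctx o Prot i N δ gs p qi) {n m : ℕ} (hnm : n ≤ m) {α : Ord} (hα : α ∈ (p n).C (i + 1)) :
    α ∈ (p m).C (i + 1) := (h.dec hnm).C _ (h.J n) hα

theorem Ctx.Teq (h : Ctx o Prot i N δ gs p qi) {n m : ℕ} {α : Ord} (hα : α ∈ (p n).C (i + 1))
    (hα' : α ∈ (p m).C (i + 1)) : (p n).T (i + 1) α = (p m).T (i + 1) α := by
  rcases le_total n m with h' | h'
  · exact ((h.dec h').T _ (h.J n) α hα).symm
  · exact (h.dec h').T _ (h.J m) α hα'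

theorem Ctx.coeq (h : Ctx o Prot i N δ gs p qi) {n m : ℕ} {α : Ord} (hα : α ∈ (p n).C (i + 1))
    (hα' : α ∈ (p m).C (i + 1)) : co (p n) (i + 1) α = co (p m) (i + 1) α := by
  rcases le_total n m with h' | h'
  · exact ((h.dec h').co_eq (h.J n) hα).symm
  · exact (h.dec h').co_eq (h.J m) hα'

theorem Ctx.coieq (h : Ctx o Prot i N δ gs p qi) {n m : ℕ} {α : Ord} (hα : α ∈ (p n).C (i + 1))
    (hα' : α ∈ (p m).C (i + 1)) : co (p n) i α = co (p m) i α := by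
  rw [h.coi hα, h.coi hα', h.coeq hα hα']

theorem Ctx.CC_countable (h : Ctx o Prot i N δ gs p qi) : (CC p i).Countable :=
  countable_iUnion fun n => (h.core n).Cc

/-- A node of the chain: a thread of a level of the index `i + 1` over `a`. -/
def Nd (p : ℕ → Cond) (i : Ord) (a : Thr) (x : Ord × Thr) : Prop :=
  ∃ n, x.1 ∈ (p n).C (i + 1) ∧ x.2 ∈ (p n).T (i + 1) x.1 ∧ Agr (co (p n) i x.1) x.1 a x.2

theorem Ctx.next (h : Ctx o Prot i N δ gs p qi) {a : Thr} (ha : a ∈ qi.T i δ) {x : Ord × Thr} (hx : Nd p i a x)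
    {β : Ord} (hβ : β ∈ CC p i) : ∃ x', Nd p i a x' ∧ x.1 ≤ x'.1 ∧ β ≤ x'.1 ∧
      ∀ n, x.1 ∈ (p n).C (i + 1) → Agr (co (p n) (i + 1) x.1) x.1 x'.2 x.2 := by
  obtain ⟨n, h1, h2, h3⟩ := hx
  rcases le_or_gt β x.1 with hb | hb
  · exact ⟨x, ⟨n, h1, h2, h3⟩, le_rfl, hb, fun m _ => Agr.refl _ _ _⟩
  · obtain ⟨m, hm⟩ := mem_CC.1 hβ
    have k1 := h.up (le_max_left n m) h1
    have k2 := h.up (le_max_right n m) hm
    have h2' : x.2 ∈ (p (max n m)).T (i + 1) x.1 := by rw [← h.Teq h1 k1]; exact h2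
    have h3' : Agr (co (p (max n m)) i x.1) x.1 a x.2 := by rw [← h.coieq h1 k1]; exact h3
    obtain ⟨z, hz, h4, h5⟩ := h.step k1 k2 hb ha h2' h3'
    refine ⟨⟨β, z⟩, ⟨max n m, k2, hz, h5⟩, hb.le, le_rfl, ?_⟩
    intro l hl
    rw [h.coeq hl k1]; exact h4

/-- The chain. -/
theorem Ctx.chain (h : Ctx o Prot i N δ gs p qi) {a : Thr} (ha : a ∈ qi.T i δ) {x : Ord × Thr} (hx : Nd p i a x) :
    ∃ f : Ord → ℕ → ℚ, (∀ ξ ≤ x.1, ∀ k, f ξ k = x.2 i ξ k) ∧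
      ∀ n, ∀ α ∈ (p n).C (i + 1), ∃ t ∈ (p n).T (i + 1) α, Agr (co (p n) i α) α a t ∧
        ∀ ξ ≤ α, ∀ k, f ξ k = t i ξ k := by
  classical
  have hne : (CC p i).Nonempty := ⟨x.1, mem_CC.2 ⟨hx.choose, hx.choose_spec.1⟩⟩
  obtain ⟨e, he⟩ := h.CC_countable.exists_eq_range hne
  have hstep : ∀ (m : ℕ) (x : {x : Ord × Thr // Nd p i a x}), ∃ x' : {x : Ord × Thr // Nd p i a x},
      x.1.1 ≤ x'.1.1 ∧ e m ≤ x'.1.1 ∧
      ∀ n, x.1.1 ∈ (p n).C (i + 1) → Agr (co (p n) (i + 1) x.1.1) x.1.1 x'.1.2 x.1.2 := by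
    intro m x
    obtain ⟨x', h1, h2, h3, h4⟩ := h.next ha x.2 (β := e m) (he ▸ mem_range_self m)
    exact ⟨⟨x', h1⟩, h2, h3, h4⟩
  choose g hg1 hg2 hg3 using hstep
  let X : ℕ → {x : Ord × Thr // Nd p i a x} := fun m => Nat.rec ⟨x, hx⟩ (fun m y => g m y) m
  have hX0 : X 0 = ⟨x, hx⟩ := rfl
  have hXs : ∀ m, X (m + 1) = g m (X m) := fun m => rfl
  have hmono : ∀ m m', m ≤ m' → (X m).1.1 ≤ (X m').1.1 ∧
      ∀ n, (X m).1.1 ∈ (p n).C (i + 1) → Agr (co (p n) (i + 1) (X m).1.1) (X m).1.1 (X m').1.2 (X m).1.2 := by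
    intro m m' hm
    induction m', hm using Nat.le_induction with
    | base => exact ⟨le_rfl, fun n _ => Agr.refl _ _ _⟩
    | succ m' hm ih =>
      refine ⟨ih.1.trans (by rw [hXs]; exact hg1 m' _), ?_⟩
      intro n hn
      obtain ⟨n', hn', -, -⟩ := (X m').2
      have k1 := h.up (le_max_left n n') hn
      have k2 := h.up (le_max_right n n') hn'
      have h5 := hg3 m' (X m') (max n n') k2
      rw [← hXs] at h5
      have h6 := h5.mono ((h.core (max n n')).co_mono k1 k2 ih.1) ih.1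
      rw [← h.coeq hn k1] at h6
      exact h6.trans (ih.2 n hn)
  let f : Ord → ℕ → ℚ := fun ξ k => if hξ : ∃ m, ξ ≤ (X m).1.1 then (X (Nat.find hξ)).1.2 i ξ k else 0
  have hf : ∀ m ξ k, ξ ≤ (X m).1.1 → f ξ k = (X m).1.2 i ξ k := by
    intro m ξ k hξ
    have hex : ∃ m, ξ ≤ (X m).1.1 := ⟨m, hξ⟩
    have h1 : f ξ k = (X (Nat.find hex)).1.2 i ξ k := by simp only [f]; rw [dif_pos hex]
    have h2 := Nat.find_spec hex
    have h3 : Nat.find hex ≤ m := Nat.find_min' hex hξ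
    obtain ⟨n', hn', -, -⟩ := (X (Nat.find hex)).2
    rw [h1]
    exact ((hmono _ _ h3).2 n' hn' i (h.ico _ _) ξ h2 k).symm
  refine ⟨f, ?_, ?_⟩
  · intro ξ hξ k
    exact hf 0 ξ k hξ
  · intro n α hα
    obtain ⟨m, hm⟩ : ∃ m, e m = α := by
      have : α ∈ CC p i := mem_CC.2 ⟨n, hα⟩
      rw [he] at this; exact this
    have hle : α ≤ (X (m + 1)).1.1 := by rw [hXs, ← hm]; exact hg2 m _
    obtain ⟨n', h1, h2, h3⟩ := (X (m + 1)).2
    have k1 := h.up (le_max_left n n') hα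
    have k2 := h.up (le_max_right n n') h1
    rw [h.Teq h1 k2] at h2
    rw [h.coieq h1 k2] at h3
    rw [h.Teq hα k1, h.coieq hα k1]
    refine ⟨cut (co (p (max n n')) (i + 1) α) α (X (m + 1)).1.2, ?_, ?_, ?_⟩
    · rcases eq_or_lt_of_le hle with h4 | h4
      · rw [← h4] at h2
        rw [(h.core _).Ts α k1 _ h2]; exact h2
      · exact (h.core _).L2 α k1 _ k2 h4 _ h2
    · have h5 : co (p (max n n')) i α ⊆ co (p (max n n')) i (X (m + 1)).1.1 :=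
        (A.core (h.hp.A _) (h.Ji k1)).co_mono (h.Ci k1) (h.Ci k2) hle
      have h6 : co (p (max n n')) i α ⊆ co (p (max n n')) (i + 1) α := (h.core _).co_sub k1 (h.iu k1)
      exact (h3.mono h5 hle).trans ((agr_cut _ α _).mono h6 le_rfl).symm
    · intro ξ hξ k
      rw [hf (m + 1) ξ k (hξ.trans hle)]
      exact (agr_cut _ α _ i (h.ico _ _) ξ hξ k).symm

/-- At a kill coordinate the supremum of the old levels is a marked position of the killed coordinate. -/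
theorem Ctx.mark (h : Ctx o Prot i N δ gs p qi) {γ : Ord} (ho : o i = Opt.kill γ) {ζ : Ord}
    (hζ : SupNA (CC p i) ζ) (hζδ : ζ < δ) {a : Thr} (ha : a ∈ qi.T i δ) : a γ ζ 0 = 1 := by
  obtain ⟨hγi, hoγ, hγP⟩ := h.hl.kill ho
  have hNγ : U.ord γ ∈ N := h.hB.kill i γ h.hi ho
  have hNγ1 : U.ord (γ + 1) ∈ N := (h.hB.succ γ).1 hNγ
  have hγ1i : γ + 1 ≤ i := Order.add_one_le_of_lt hγi
  have hζω : ζ < ω_ 1 := hζδ.trans h.hB.lt
  have hNζ : U.ord ζ ∈ N := (h.hB.ord ζ hζω).2 hζδ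
  have hD : DO o (PP o (γ + 1)) {c | c ∈ PP o (γ + 1) ∧ ζ < c.α ∧ γ ∈ c.p.u (γ + 1) c.α} := by
    refine ⟨fun c hc => hc.1, ?_, ?_⟩
    · rintro c ⟨h1, h2, h3⟩ c' h1' hle
      refine ⟨h1', h2.trans_le hle.α, ?_⟩
      have hc' := PP.core h1'
      have hcj : c.j = γ + 1 := h1.1
      have hcj' : c'.j = γ + 1 := h1'.1
      have h4 : Rec c γ := Or.inr (by rw [hcj]; exact h3)
      have h5 := KLe.rec_mono h1' h1 hle h4 h.hl
      rcases h5 with h5 | h5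
      · exact absurd (h5.trans hcj') (lt_succ' γ).ne
      · rw [hcj'] at h5; exact h5
    · intro c hc
      obtain ⟨c', h1, h2, h3, h4⟩ := (h.hNX (γ + 1) hγ1i).2.2 c hc ζ hζω γ (lt_succ' γ)
      exact ⟨c', ⟨h1, h3, h4⟩, h2⟩
  obtain ⟨n, β, hβ, hgen⟩ := h.hgen (γ + 1) hγ1i hNγ1 _ (h.hB.lev (γ + 1) γ ζ hNγ1 hNγ hNζ (lt_succ' γ)) hD
  have hJγ : γ + 1 ∈ (p n).J := (h.hp.A n).1.mem_J hβ
  have hcγ : LegCore (p n) (γ + 1) := A.core (h.hp.A n) hJγ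
  obtain ⟨t₀, ht₀⟩ := hcγ.Tn β hβ
  have hζβ : ζ < β := (hgen t₀ ht₀).2.1
  have hβδ : β < δ := (h.hB.ord β (hcγ.Clt β hβ)).1 (h.hB.C (p n) (i + 1) (h.hp.mem n) (h.hp.A n) _ hJγ β hβ)
  -- the thread of the level `β`
  have hqJ : γ + 1 ∈ qi.J := (h.hle n).J ⟨hJγ, hγ1i⟩
  have hqC : β ∈ qi.C (γ + 1) := (h.hle n).C _ ⟨hJγ, hγ1i⟩ (by rw [res_C _ _ hγ1i]; exact hβ)
  have hqT : qi.T (γ + 1) β = (p n).T (γ + 1) β := by
    rw [(h.hle n).T _ ⟨hJγ, hγ1i⟩ β (by rw [res_C _ _ hγ1i]; exact hβ), res_T _ _ hγ1i]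
  have hcq : LegCore qi (γ + 1) := A.core h.hq.A hqJ
  have hδC : δ ∈ qi.C (γ + 1) ∧ below (γ + 1) a ∈ qi.T (γ + 1) δ := by
    rcases eq_or_lt_of_le hγ1i with h1 | h1
    · rw [h1]
      refine ⟨h.hq.C, ?_⟩
      have h2 : below i a = a := by
        funext j ξ k
        by_cases hj : j < i
        · rw [below_of_lt hj]
        · rw [below_of_le (not_lt.1 hj)]
          exact (eq_zero_of_cut (h.coreq.Ts δ h.hq.C a ha) fun h' => hj (co_lt h'.1)).symm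
      rw [h2]; exact ha
    · have h2 : γ + 1 ∈ qi.u i δ := by rw [h.hq.u]; exact ⟨h1, Or.inl hNγ1⟩
      refine ⟨(h.coreq.L1J δ h.hq.C _ h2).2, ?_⟩
      rw [h.coreq.L1T δ h.hq.C _ h2]; exact mem_image_of_mem _ ha
  have ht : cut (co qi (γ + 1) β) β (below (γ + 1) a) ∈ qi.T (γ + 1) β :=
    hcq.L2 β hqC δ hδC.1 hβδ _ hδC.2
  set t := cut (co qi (γ + 1) β) β (below (γ + 1) a) with htdef
  have hγco : γ ∈ co qi (γ + 1) β := ⟨lt_succ' γ, Or.inr rfl⟩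
  have hta : ∀ ξ ≤ β, ∀ k, t γ ξ k = a γ ξ k := by
    intro ξ hξ k
    rw [htdef, agr_cut _ _ _ γ hγco ξ hξ k, below_of_lt (lt_succ' γ)]
  rw [← hta ζ hζβ.le 0]
  rw [hqT] at ht
  have hoptγ := A.opt (h.hp.A n) hJγ
  have hopti := A.opt (h.hp.A n) (h.J n)
  unfold LegOpt at hoptγ hopti
  simp only [hoγ] at hoptγ
  simp only [ho] at hopti
  rcases hoptγ.v01 β hβ t ht ζ 0 with h0 | h1
  · exfalso
    by_cases hc : CC p i ⊆ (p n).C (i + 1)
    · have hsup : SupNA ((p n).C (i + 1)) ζ := by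
        have : (p n).C (i + 1) = CC p i := Subset.antisymm (fun α hα => mem_CC.2 ⟨n, hα⟩) hc
        rw [this]; exact hζ
      have h2 := hoptγ.F1 β hβ t ht ζ (hopti.K ζ hsup) hζβ.le
      rw [h0] at h2; exact zero_ne_one h2
    · obtain ⟨α, hα, hαn⟩ := Set.not_subset.1 hc
      have hαζ := hζ.1 α hα
      obtain ⟨m, hm⟩ := mem_CC.1 hα
      have hnm : n ≤ m := by
        by_contra hnm
        exact hαn (h.up (not_le.1 hnm).le hm)
      exact absurd ((h.dec hnm).kl i γ (h.J n) ho α hm hαn β hβ t ht ζ hζβ.le h0) (not_lt_of_gt hαζ)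
  · exact h1

/-- The indices recognised at the new level. -/
def WW' (N : Set U) (i : Ord) : Set Ord := {z | z < i + 1 ∧ Cl N z}

/-- The coordinates of the new level. -/
def cW (N : Set U) (i : Ord) : Set Ord := {j | j < i + 1 ∧ (j + 1 ∈ WW' N i ∨ j + 1 = i + 1)}

/-- The requirements on a thread of the new level. -/
structure Val (o : Ord → Opt) (N : Set U) (δ : Ord) (gs : Option Ord) (i : Ord) (p : ℕ → Cond) (qi : Cond)
    (z : Thr) : Prop where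
  sup : cut (cW N i) δ z = z
  low : below i z ∈ qi.T i δ
  L2 : ∀ n, ∀ α ∈ (p n).C (i + 1), cut (co (p n) (i + 1) α) α z ∈ (p n).T (i + 1) α
  coh : o i = Opt.coh → (∀ ξ n, z i ξ n = 0 ∨ z i ξ n = 1) ∧ (∀ n, ∀ ξ ∈ (p n).F (i + 1), z i ξ 0 = 1) ∧
    z i δ 0 = if gs = some i then 0 else 1
  kill : ∀ γ, o i = Opt.kill γ → (∀ ξ n, (z i ξ n = 0 ∨ z i ξ n = 1) ∧ (n ≠ 0 → z i ξ n = 0)) ∧ z i δ 0 = 1 ∧
    (∀ ξ ≤ δ, 0 < ξ → (∀ η < ξ, ∃ ζ, η < ζ ∧ ζ < ξ ∧ z i ζ 0 = 1) → z i ξ 0 = 1) ∧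
    ∀ ξ ≤ δ, z i ξ 0 = 1 → z γ ξ 0 = 1

open Classical in
/-- The thread with the given parts. -/
noncomputable def comb (i δ : Ord) (a : Thr) (f : Ord → ℕ → ℚ) : Thr :=
  fun j ξ n => if j < i then a j ξ n else if j = i ∧ ξ ≤ δ then f ξ n else 0

theorem comb_lt {a : Thr} {f : Ord → ℕ → ℚ} {j : Ord} (hj : j < i) : comb i δ a f j = a j := by
  funext ξ n; simp [comb, hj]

theorem comb_i {a : Thr} {f : Ord → ℕ → ℚ} {ξ : Ord} (hξ : ξ ≤ δ) (n : ℕ) : comb i δ a f i ξ n = f ξ n := by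
  simp [comb, hξ]

theorem comb_i' {a : Thr} {f : Ord → ℕ → ℚ} {ξ : Ord} (hξ : ¬ ξ ≤ δ) (n : ℕ) : comb i δ a f i ξ n = 0 := by
  simp [comb, hξ]

theorem comb_gt {a : Thr} {f : Ord → ℕ → ℚ} {j : Ord} (hj : i < j) (ξ : Ord) (n : ℕ) : comb i δ a f j ξ n = 0 := by
  simp [comb, hj.ne', not_lt_of_gt hj]

theorem Ctx.below_self (h : Ctx o Prot i N δ gs p qi) {a : Thr} (ha : a ∈ qi.T i δ) : below i a = a := by
  funext j ξ k
  by_cases hj : j < i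
  · rw [below_of_lt hj]
  · rw [below_of_le (not_lt.1 hj)]
    exact (eq_zero_of_cut (h.coreq.Ts δ h.hq.C a ha) fun h' => hj (co_lt h'.1)).symm

theorem Ctx.below_comb (h : Ctx o Prot i N δ gs p qi) {a : Thr} (ha : a ∈ qi.T i δ) (f : Ord → ℕ → ℚ) :
    below i (comb i δ a f) = a := by
  rw [← h.below_self ha]
  rw [below_eq_iff]
  intro j hj
  rw [comb_lt hj, h.below_self ha]

open Classical in
/-- The values at the coordinate `i`: given ones at the positions of `I`, the standard ones elsewhere. -/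
noncomputable def fill (o : Ord → Opt) (i δ : Ord) (gs : Option Ord) (p : ℕ → Cond) (I : Set Ord)
    (f : Ord → ℕ → ℚ) : Ord → ℕ → ℚ :=
  fun ξ n => if ξ ∈ I then f ξ n else if n = 0 then
    (if o i = Opt.coh then (if ξ = δ ∧ gs = some i then 0 else 1) else (if ξ = δ ∨ SupNA (CC p i) ξ then 1 else 0))
    else 0

theorem fill_mem {I : Set Ord} {f : Ord → ℕ → ℚ} {ξ : Ord} (hξ : ξ ∈ I) (n : ℕ) : fill o i δ gs p I f ξ n = f ξ n := by
  simp [fill, hξ]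

theorem fill_pos {I : Set Ord} {f : Ord → ℕ → ℚ} {ξ : Ord} (hξ : ξ ∉ I) {n : ℕ} (hn : n ≠ 0) :
    fill o i δ gs p I f ξ n = 0 := by
  simp [fill, hξ, hn]

/-- The main construction of threads of the new level. -/
theorem Ctx.val (h : Ctx o Prot i N δ gs p qi) {a : Thr} (ha : a ∈ qi.T i δ) (I : Set Ord) (f : Ord → ℕ → ℚ)
    (hIδ : ∀ ξ ∈ I, ξ < δ) (hId : ∀ ξ ∈ I, ∀ η ≤ ξ, η ∈ I)
    (hc : ∀ n, ∀ α ∈ (p n).C (i + 1), α ∈ I ∧ ∃ t ∈ (p n).T (i + 1) α, Agr (co (p n) i α) α a t ∧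
        ∀ ξ ≤ α, ∀ k, f ξ k = t i ξ k)
    (h01 : ∀ ξ ∈ I, ∀ n, f ξ n = 0 ∨ f ξ n = 1)
    (hcoh : o i = Opt.coh → ∀ n, ∀ ξ ∈ (p n).F (i + 1), ξ ∈ I → f ξ 0 = 1)
    (hkill : ∀ γ, o i = Opt.kill γ → (∀ ξ ∈ I, ∀ n, n ≠ 0 → f ξ n = 0) ∧ (∀ ξ ∈ I, f ξ 0 = 1 → a γ ξ 0 = 1) ∧
      (∀ ξ ∈ I, 0 < ξ → (∀ η < ξ, ∃ ζ, η < ζ ∧ ζ < ξ ∧ f ζ 0 = 1) → f ξ 0 = 1))
    (hgap : ∀ ξ < δ, ξ ∉ I → 0 < ξ → (∀ η < ξ, ∃ ζ ∈ I, η < ζ) → SupNA (CC p i) ξ) :
    Val o N δ gs i p qi (comb i δ a (fill o i δ gs p I f)) := by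
  classical
  have hδI : δ ∉ I := fun h' => lt_irrefl _ (hIδ δ h')
  refine ⟨?_, ?_, ?_, ?_, ?_⟩
  · funext j ξ n
    unfold cut
    split_ifs with hj
    · rfl
    · symm
      rcases lt_trichotomy j i with hji | hji | hji
      · rw [comb_lt hji]
        refine eq_zero_of_cut (h.coreq.Ts δ h.hq.C a ha) fun h' => hj ⟨⟨hji.trans (lt_succ' i), ?_⟩, h'.2⟩
        left
        rcases h'.1.2 with h1 | h1
        · rw [h.hq.u] at h1
          exact ⟨h1.1.trans (lt_succ' i), h1.2⟩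
        · rw [h1]; exact ⟨lt_succ' i, Or.inl h.hi⟩
      · subst hji
        by_cases hξ : ξ ≤ δ
        · exact absurd ⟨⟨lt_succ' j, Or.inr rfl⟩, hξ⟩ hj
        · exact comb_i' hξ n
      · exact comb_gt hji ξ n
  · rw [h.below_comb ha]; exact ha
  · intro n α hα
    obtain ⟨hαI, t, ht, h1, h2⟩ := hc n α hα
    have h3 : cut (co (p n) (i + 1) α) α (comb i δ a (fill o i δ gs p I f)) = t := by
      rw [← (h.core n).Ts α hα t ht]
      apply cut_of_agr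
      intro j hj ξ hξ k
      have hji : j ≤ i := Order.lt_add_one_iff.1 hj.1
      rcases eq_or_lt_of_le hji with rfl | hji
      · rw [comb_i (hξ.trans (h.lt hα).le), fill_mem (hId α hαI ξ hξ), h2 ξ hξ k]
      · rw [comb_lt hji]
        exact h1 j (by rw [h.coi hα]; exact ⟨hj, hji⟩) ξ hξ k
    rw [h3]; exact ht
  · intro ho
    refine ⟨?_, ?_, ?_⟩
    · intro ξ n
      by_cases hξ : ξ ≤ δ
      · rw [comb_i hξ]
        by_cases hξI : ξ ∈ I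
        · rw [fill_mem hξI]; exact h01 ξ hξI n
        · by_cases hn : n = 0
          · simp only [fill, hξI, hn, ho, if_true, if_false]
            by_cases h1 : ξ = δ ∧ gs = some i
            · simp [h1]
            · simp [h1]
          · rw [fill_pos hξI hn]; exact Or.inl rfl
      · rw [comb_i' hξ]; exact Or.inl rfl
    · intro n ξ hξ
      have hξω : ξ < ω_ 1 := (h.core n).Flt ξ hξ
      have hξδ : ξ < δ := (h.hB.ord ξ hξω).1 (h.hB.F (p n) (i + 1) (h.hp.mem n) (h.hp.A n) _ (h.J n) ξ hξ)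
      rw [comb_i hξδ.le]
      by_cases hξI : ξ ∈ I
      · rw [fill_mem hξI]; exact hcoh ho n ξ hξ hξI
      · simp [fill, hξI, ho, hξδ.ne]
    · rw [comb_i le_rfl]
      simp [fill, hδI, ho]
  · intro γ ho
    have hnc : o i ≠ Opt.coh := by rw [ho]; exact fun h' => by cases h'
    obtain ⟨k1, k2, k3⟩ := hkill γ ho
    obtain ⟨hγi, hoγ, hγP⟩ := h.hl.kill ho
    have hgap0 : ∀ ξ, ξ ∉ I → fill o i δ gs p I f ξ 0 = if ξ = δ ∨ SupNA (CC p i) ξ then 1 else 0 := by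
      intro ξ hξI
      simp only [fill, hξI, if_false, if_true, if_neg hnc]
    refine ⟨?_, ?_, ?_, ?_⟩
    · intro ξ n
      by_cases hξ : ξ ≤ δ
      · rw [comb_i hξ]
        by_cases hξI : ξ ∈ I
        · rw [fill_mem hξI]; exact ⟨h01 ξ hξI n, k1 ξ hξI n⟩
        · by_cases hn : n = 0
          · subst hn
            rw [hgap0 ξ hξI]
            refine ⟨?_, fun h' => absurd rfl h'⟩
            split_ifs
            · exact Or.inr rfl
            · exact Or.inl rfl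
          · rw [fill_pos hξI hn]; exact ⟨Or.inl rfl, fun _ => rfl⟩
      · rw [comb_i' hξ]; exact ⟨Or.inl rfl, fun _ => rfl⟩
    · rw [comb_i le_rfl, hgap0 δ hδI, if_pos (Or.inl rfl)]
    · intro ξ hξ hξ0 hlim
      have hlim' : ∀ η < ξ, ∃ ζ, η < ζ ∧ ζ < ξ ∧ fill o i δ gs p I f ζ 0 = 1 := by
        intro η hη
        obtain ⟨ζ, h1, h2, h3⟩ := hlim η hη
        rw [comb_i (h2.le.trans hξ)] at h3
        exact ⟨ζ, h1, h2, h3⟩
      rw [comb_i hξ]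
      by_cases hξI : ξ ∈ I
      · rw [fill_mem hξI]
        refine k3 ξ hξI hξ0 fun η hη => ?_
        obtain ⟨ζ, h1, h2, h3⟩ := hlim' η hη
        rw [fill_mem (hId ξ hξI ζ h2.le)] at h3
        exact ⟨ζ, h1, h2, h3⟩
      · rw [hgap0 ξ hξI]
        rcases eq_or_lt_of_le hξ with hξδ | hξδ
        · rw [if_pos (Or.inl hξδ)]
        · refine if_pos (Or.inr ?_)
          refine hgap ξ hξδ hξI hξ0 fun η hη => ?_
          by_contra hno
          push Not at hno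
          obtain ⟨ζ, h1, h2, h3⟩ := hlim' η hη
          have h4 : ζ ∉ I := fun h' => absurd h1 (not_lt_of_ge (hno ζ h'))
          obtain ⟨ζ', h5, h6, h7⟩ := hlim' ζ h2
          have h8 : ζ' ∉ I := fun h' => h4 (hId ζ' h' ζ h5.le)
          rw [hgap0 ζ h4] at h3
          rw [hgap0 ζ' h8] at h7
          have h9 : SupNA (CC p i) ζ := by
            by_contra h10
            rw [if_neg (by rintro (h11 | h11); exacts [(h2.trans hξδ).ne h11, h10 h11])] at h3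
            exact zero_ne_one h3
          have h9' : SupNA (CC p i) ζ' := by
            by_contra h10
            rw [if_neg (by rintro (h11 | h11); exacts [(h6.trans hξδ).ne h11, h10 h11])] at h7
            exact zero_ne_one h7
          obtain ⟨α, hα, h12⟩ := h9'.2.1 ζ h5
          exact lt_asymm h12 (h9.1 α hα)
    · intro ξ hξ h1
      rw [comb_i hξ] at h1
      rw [comb_lt hγi]
      by_cases hξI : ξ ∈ I
      · rw [fill_mem hξI] at h1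
        exact k2 ξ hξI h1
      · rw [hgap0 ξ hξI] at h1
        rcases eq_or_lt_of_le hξ with hξδ | hξδ
        · rw [hξδ]
          have h2 := h.hq.mks a ha γ hγi (h.hB.kill i γ h.hi ho) hoγ
          rw [if_neg fun h' => hγP (h.hgs γ h')] at h2
          exact h2
        · have h3 : SupNA (CC p i) ξ := by
            by_contra h10
            rw [if_neg (by rintro (h11 | h11); exacts [hξδ.ne h11, h10 h11])] at h1
            exact zero_ne_one h1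
          exact h.mark ho h3 hξδ ha

theorem pick {X : Type*} (V : Set X) (R : Set (Set X)) (hR : R.Countable) (hV : ∀ r ∈ R, ∃ x ∈ V, x ∈ r) :
    ∃ Θ : Set X, Θ.Countable ∧ Θ ⊆ V ∧ ∀ r ∈ R, ∃ x ∈ Θ, x ∈ r := by
  choose g hg1 hg2 using hV
  have := hR.to_subtype
  refine ⟨Set.range fun r : R => g r r.2, countable_range _, ?_, ?_⟩
  · rintro _ ⟨r, rfl⟩; exact hg1 _ _
  · intro r hr; exact ⟨_, ⟨⟨r, hr⟩, rfl⟩, hg2 r hr⟩

/-- The requirement on the set `El`. -/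
def ElP (i : Ord) (p : ℕ → Cond) (El : Set (Ord × Thr)) (z : Thr) : Prop :=
  (∃ n, ((p n).C (i + 1)).Nonempty) → ∃ n, ∃ α' ∈ (p n).C (i + 1),
        ∃ s' ∈ (p n).T (i + 1) α', (α', s') ∈ El ∧ Agr (co (p n) (i + 1) α') α' z s'

theorem Ctx.agr_comb (h : Ctx o Prot i N δ gs p qi) {n : ℕ} {α : Ord} (hα : α ∈ (p n).C (i + 1)) {a s : Thr}
    {f : Ord → ℕ → ℚ} (h1 : Agr (co (p n) i α) α a s) (h2 : ∀ ξ ≤ α, ∀ k, f ξ k = s i ξ k) (I : Set Ord)
    (hI : ∀ ξ ≤ α, ξ ∈ I) : Agr (co (p n) (i + 1) α) α (comb i δ a (fill o i δ gs p I f)) s := by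
  intro j hj ξ hξ k
  have hji : j ≤ i := Order.lt_add_one_iff.1 hj.1
  rcases eq_or_lt_of_le hji with rfl | hji
  · rw [comb_i (hξ.trans (h.lt hα).le), fill_mem (hI ξ hξ), h2 ξ hξ k]
  · rw [comb_lt hji]
    exact h1 j (by rw [h.coi hα]; exact ⟨hj, hji⟩) ξ hξ k

/-- Threads over `a` and above a given thread of a lower level. -/
theorem Ctx.req1 (h : Ctx o Prot i N δ gs p qi) {El : Set (Ord × Thr)}
    (hEl : ∀ n, ∀ α ∈ (p n).C (i + 1), ∀ s ∈ (p n).T (i + 1) α, ∀ a ∈ qi.T i δ, Agr (co (p n) i α) α a s →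
      ∃ n', ∃ α' ∈ (p n').C (i + 1), α ≤ α' ∧ ∃ s' ∈ (p n').T (i + 1) α',
        Agr (co (p n) (i + 1) α) α s' s ∧ Agr (co (p n') i α') α' a s' ∧ (α', s') ∈ El)
    {n : ℕ} {α : Ord} (hα : α ∈ (p n).C (i + 1)) {s : Thr} (hs : s ∈ (p n).T (i + 1) α) {a : Thr}
    (ha : a ∈ qi.T i δ) (has : Agr (co (p n) i α) α a s) :
    ∃ z, (Val o N δ gs i p qi z ∧ ElP i p El z) ∧ below i z = a ∧ Agr (co (p n) (i + 1) α) α z s := by
  obtain ⟨n', α', hα', hαα', s', hs', h1, h2, h3⟩ := hEl n α hα s hs a ha has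
  obtain ⟨f, hf1, hf2⟩ := h.chain ha (x := (α', s')) ⟨n', hα', hs', h2⟩
  set I : Set Ord := {ξ | ∃ α ∈ CC p i, ξ ≤ α} with hI
  have hz : Agr (co (p n') (i + 1) α') α' (comb i δ a (fill o i δ gs p I f)) s' :=
    h.agr_comb hα' h2 hf1 I fun ξ hξ => ⟨α', mem_CC.2 ⟨n', hα'⟩, hξ⟩
  refine ⟨comb i δ a (fill o i δ gs p I f), ⟨?_, ?_⟩, h.below_comb ha _, ?_⟩
  · refine h.val ha I f ?_ ?_ ?_ ?_ ?_ ?_ ?_
    · rintro ξ ⟨β, hβ, hξ⟩
      obtain ⟨m, hm⟩ := mem_CC.1 hβ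
      exact hξ.trans_lt (h.lt hm)
    · rintro ξ ⟨β, hβ, hξ⟩ η hη
      exact ⟨β, hβ, hη.trans hξ⟩
    · intro m β hβ
      exact ⟨⟨β, mem_CC.2 ⟨m, hβ⟩, le_rfl⟩, hf2 m β hβ⟩
    · rintro ξ ⟨β, hβ, hξ⟩ k
      obtain ⟨m, hm⟩ := mem_CC.1 hβ
      obtain ⟨t, ht, h4, h5⟩ := hf2 m β hm
      rw [h5 ξ hξ k]
      have hopt := A.opt (h.hp.A m) (h.J m)
      unfold LegOpt at hopt
      cases ho : o i with
      | coh => simp only [ho] at hopt; exact hopt.v01 β hm t ht ξ k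
      | kill γ => simp only [ho] at hopt; exact (hopt.v01 β hm t ht ξ k).1
      | spec r B g => exact absurd ho (h.hs r B g)
    · rintro ho m ξ hξF ⟨β, hβ, hξ⟩
      obtain ⟨l, hl⟩ := mem_CC.1 hβ
      have hl' := h.up (le_max_right m l) hl
      obtain ⟨t, ht, h4, h5⟩ := hf2 _ β hl'
      rw [h5 ξ hξ 0]
      have hopt := A.opt (h.hp.A (max m l)) (h.J _)
      unfold LegOpt at hopt
      simp only [ho] at hopt
      exact hopt.F1 β hl' t ht ξ ((h.dec (le_max_left m l)).F _ (h.J m) hξF) hξ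
    · intro γ ho
      refine ⟨?_, ?_, ?_⟩
      · rintro ξ ⟨β, hβ, hξ⟩ k hk
        obtain ⟨m, hm⟩ := mem_CC.1 hβ
        obtain ⟨t, ht, h4, h5⟩ := hf2 m β hm
        rw [h5 ξ hξ k]
        have hopt := A.opt (h.hp.A m) (h.J m)
        unfold LegOpt at hopt
        simp only [ho] at hopt
        exact (hopt.v01 β hm t ht ξ k).2 hk
      · rintro ξ ⟨β, hβ, hξ⟩ h6
        obtain ⟨m, hm⟩ := mem_CC.1 hβ
        obtain ⟨t, ht, h4, h5⟩ := hf2 m β hm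
        rw [h5 ξ hξ 0] at h6
        have hopt := A.opt (h.hp.A m) (h.J m)
        unfold LegOpt at hopt
        simp only [ho] at hopt
        rw [h4 γ ?_ ξ hξ 0]
        · exact hopt.sub β hm t ht ξ hξ h6
        · have hγi := (h.hl.kill ho).1
          rw [h.coi hm]
          exact ⟨⟨hγi.trans (lt_succ' i), Or.inl (hopt.rg β hm)⟩, hγi⟩
      · rintro ξ ⟨β, hβ, hξ⟩ hξ0 h6
        obtain ⟨m, hm⟩ := mem_CC.1 hβ
        obtain ⟨t, ht, h4, h5⟩ := hf2 m β hm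
        rw [h5 ξ hξ 0]
        have hopt := A.opt (h.hp.A m) (h.J m)
        unfold LegOpt at hopt
        simp only [ho] at hopt
        refine hopt.cl β hm t ht ξ hξ hξ0 fun η hη => ?_
        obtain ⟨ζ, h7, h8, h9⟩ := h6 η hη
        rw [h5 ζ (h8.le.trans hξ) 0] at h9
        exact ⟨ζ, h7, h8, h9⟩
    · intro ξ _ hξI hξ0 h4
      refine ⟨?_, ?_, ?_⟩
      · intro β hβ
        by_contra hlt
        exact hξI ⟨β, hβ, not_lt.1 hlt⟩
      · intro η hη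
        obtain ⟨ζ, ⟨β, hβ, h5⟩, h6⟩ := h4 η hη
        exact ⟨β, hβ, h6.trans_le h5⟩
      · obtain ⟨ζ, ⟨β, hβ, h5⟩, h6⟩ := h4 0 hξ0
        exact ⟨β, hβ⟩
  · intro _
    exact ⟨n', α', hα', s', hs', h3, hz⟩
  · have k1 := h.up (le_max_left n n') hα
    have k2 := h.up (le_max_right n n') hα'
    have h4 : co (p n) (i + 1) α ⊆ co (p n') (i + 1) α' := by
      rw [h.coeq hα k1, h.coeq hα' k2]
      exact (h.core _).co_mono k1 k2 hαα'
    exact (hz.mono h4 hαα').trans h1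

/-- Threads over `a`. -/
theorem Ctx.req2 (h : Ctx o Prot i N δ gs p qi) {El : Set (Ord × Thr)}
    (hEl : ∀ n, ∀ α ∈ (p n).C (i + 1), ∀ s ∈ (p n).T (i + 1) α, ∀ a ∈ qi.T i δ, Agr (co (p n) i α) α a s →
      ∃ n', ∃ α' ∈ (p n').C (i + 1), α ≤ α' ∧ ∃ s' ∈ (p n').T (i + 1) α',
        Agr (co (p n) (i + 1) α) α s' s ∧ Agr (co (p n') i α') α' a s' ∧ (α', s') ∈ El)
    {a : Thr} (ha : a ∈ qi.T i δ) : ∃ z, (Val o N δ gs i p qi z ∧ ElP i p El z) ∧ below i z = a := by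
  by_cases hne : ∃ n, ((p n).C (i + 1)).Nonempty
  · obtain ⟨n, α, hα⟩ := hne
    obtain ⟨s, hs, has⟩ := h.over hα ha
    obtain ⟨z, h1, h2, -⟩ := h.req1 hEl hα hs ha has
    exact ⟨z, h1, h2⟩
  · have hem : ∀ n, ∀ α, α ∉ (p n).C (i + 1) := fun n α hα => hne ⟨n, α, hα⟩
    refine ⟨comb i δ a (fill o i δ gs p ∅ fun _ _ => 0), ⟨?_, fun h' => absurd h' hne⟩, h.below_comb ha _⟩
    refine h.val ha ∅ _ ?_ ?_ ?_ ?_ ?_ ?_ ?_
    · intro ξ hξ; exact absurd hξ (notMem_empty ξ)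
    · intro ξ hξ; exact absurd hξ (notMem_empty ξ)
    · intro n α hα; exact absurd hα (hem n α)
    · intro ξ hξ; exact absurd hξ (notMem_empty ξ)
    · intro _ _ ξ _ hξ; exact absurd hξ (notMem_empty ξ)
    · intro γ _
      exact ⟨fun ξ hξ => absurd hξ (notMem_empty ξ), fun ξ hξ => absurd hξ (notMem_empty ξ),
        fun ξ hξ => absurd hξ (notMem_empty ξ)⟩
    · intro ξ _ _ hξ0 h4
      obtain ⟨ζ, h5, _⟩ := h4 0 hξ0
      exact absurd h5 (notMem_empty ζ)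

/-- The hypotheses in `EXs`. -/
def HX (o : Ord → Opt) (i : Ord) (p : ℕ → Cond) (a : Thr) (θ : Ord) (s : Ord → ℕ → ℚ) : Prop :=
    (∀ ξ n, s ξ n = 0 ∨ s ξ n = 1) ∧
    (o i = Opt.coh → ∀ n, ∀ ξ ∈ (p n).F (i + 1), s ξ 0 = 1) ∧
    (∀ γ, o i = Opt.kill γ → (∀ ξ n, n ≠ 0 → s ξ n = 0) ∧ (∀ ξ ≤ θ, s ξ 0 = 1 → a γ ξ 0 = 1) ∧
      ∀ ξ ≤ θ, 0 < ξ → (∀ η < ξ, ∃ ζ, η < ζ ∧ ζ < ξ ∧ s ζ 0 = 1) → s ξ 0 = 1) ∧
    ((∀ n, (p n).C (i + 1) = ∅) ∨ ∃ am ∈ (p 0).C (i + 1), (∀ α ∈ (p 0).C (i + 1), α ≤ am) ∧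
      (∀ n, (p n).C (i + 1) = (p 0).C (i + 1)) ∧ am ≤ θ ∧ ∃ z₀ ∈ (p 0).T (i + 1) am,
        Agr (co (p 0) i am) am a z₀ ∧ ∀ ξ ≤ am, ∀ n, s ξ n = z₀ i ξ n)

/-- Threads with a prescribed initial segment. -/
theorem Ctx.req3 (h : Ctx o Prot i N δ gs p qi) {a : Thr} (ha : a ∈ qi.T i δ) {θ : Ord} (hθ : θ < δ)
    {s : Ord → ℕ → ℚ} (hH : HX o i p a θ s) :
    ∃ z, (Val o N δ gs i p qi z ∧ ElP i p Set.univ z) ∧ below i z = a ∧ ∀ ξ ≤ θ, ∀ n, z i ξ n = s ξ n := by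
  obtain ⟨h1, h2, h3, h4⟩ := hH
  refine ⟨comb i δ a (fill o i δ gs p {ξ | ξ ≤ θ} s), ⟨?_, ?_⟩, h.below_comb ha _, ?_⟩
  · refine h.val ha {ξ | ξ ≤ θ} s ?_ ?_ ?_ ?_ ?_ ?_ ?_
    · intro ξ hξ; exact lt_of_le_of_lt hξ hθ
    · intro ξ hξ η hη; exact le_trans hη hξ
    · intro n α hα
      rcases h4 with h4 | ⟨am, h5, h6, h7, h8, z₀, h9, h10, h11⟩
      · rw [h4 n] at hα; exact absurd hα (notMem_empty α)
      · have hα0 : α ∈ (p 0).C (i + 1) := by rw [← h7 n]; exact hα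
        have hle := h6 α hα0
        refine ⟨hle.trans h8, cut (co (p n) (i + 1) α) α z₀, ?_, ?_, ?_⟩
        · rw [h.Teq hα hα0, h.coeq hα hα0]
          rcases eq_or_lt_of_le hle with h12 | h12
          · rw [← h12] at h9
            rw [(h.core 0).Ts α hα0 z₀ h9]; exact h9
          · exact (h.core 0).L2 α hα0 am h5 h12 z₀ h9
        · rw [h.coieq hα hα0]
          have h13 : co (p 0) i α ⊆ co (p 0) i am :=
            (A.core (h.hp.A 0) (h.Ji hα0)).co_mono (h.Ci hα0) (h.Ci h5) hle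
          have h14 : co (p 0) i α ⊆ co (p n) (i + 1) α := by
            rw [h.coi hα0, h.coeq hα hα0]; exact fun j hj => hj.1
          exact (h10.mono h13 hle).trans ((agr_cut _ α _).mono h14 le_rfl).symm
        · intro ξ hξ k
          rw [h11 ξ (hξ.trans hle) k]
          exact (agr_cut _ α _ i (h.ico _ _) ξ hξ k).symm
    · intro ξ _ n; exact h1 ξ n
    · intro ho n ξ hξ _; exact h2 ho n ξ hξ
    · intro γ ho
      obtain ⟨k1, k2, k3⟩ := h3 γ ho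
      exact ⟨fun ξ _ n => k1 ξ n, k2, k3⟩
    · intro ξ _ hξI _ h5
      obtain ⟨ζ, h6, h7⟩ := h5 θ (not_le.1 hξI)
      exact absurd h7 (not_lt_of_ge h6)
  · rintro ⟨n, α, hα⟩
    rcases h4 with h4 | ⟨am, h5, h6, h7, h8, z₀, h9, h10, h11⟩
    · rw [h4 n] at hα; exact absurd hα (notMem_empty α)
    · exact ⟨0, am, h5, z₀, h9, mem_univ _, h.agr_comb h5 h10 h11 _ fun ξ hξ => le_trans hξ h8⟩
  · intro ξ hξ n
    rw [comb_i (hξ.trans hθ.le), fill_mem (by exact hξ)]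

/-- The threads of the new level. -/
theorem Ctx.exists_level (h : Ctx o Prot i N δ gs p qi) {El : Set (Ord × Thr)}
    (hEl : ∀ n, ∀ α ∈ (p n).C (i + 1), ∀ s ∈ (p n).T (i + 1) α, ∀ a ∈ qi.T i δ, Agr (co (p n) i α) α a s →
      ∃ n', ∃ α' ∈ (p n').C (i + 1), α ≤ α' ∧ ∃ s' ∈ (p n').T (i + 1) α',
        Agr (co (p n) (i + 1) α) α s' s ∧ Agr (co (p n') i α') α' a s' ∧ (α', s') ∈ El) :
    ∃ Θ : Set Thr, Θ.Countable ∧ (∀ z ∈ Θ, Val o N δ gs i p qi z ∧ ElP i p El z) ∧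
      (∀ n, ∀ α ∈ (p n).C (i + 1), ∀ s ∈ (p n).T (i + 1) α, ∀ a ∈ qi.T i δ, Agr (co (p n) i α) α a s →
        ∃ z ∈ Θ, below i z = a ∧ Agr (co (p n) (i + 1) α) α z s) ∧
      (∀ a ∈ qi.T i δ, ∃ z ∈ Θ, below i z = a) ∧
      (El = Set.univ → ∀ a ∈ qi.T i δ, ∀ θ < δ, ∀ s : Ord → ℕ → ℚ, U.fn s ∈ N → HX o i p a θ s →
        ∃ z ∈ Θ, below i z = a ∧ ∀ ξ ≤ θ, ∀ n, z i ξ n = s ξ n) := by
  classical
  have hTc : (qi.T i δ).Countable := h.coreq.Tc δ h.hq.C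
  let R1 : Set (Set Thr) := ⋃ n : ℕ, ⋃ α ∈ (p n).C (i + 1), ⋃ s ∈ (p n).T (i + 1) α,
    (fun a => {z | below i z = a ∧ Agr (co (p n) (i + 1) α) α z s}) '' {a | a ∈ qi.T i δ ∧ Agr (co (p n) i α) α a s}
  let R2 : Set (Set Thr) := (fun a => {z | below i z = a}) '' qi.T i δ
  let R3 : Set (Set Thr) := ⋃ a ∈ qi.T i δ, ⋃ s ∈ {s | U.fn s ∈ N},
    (fun θ => {z | below i z = a ∧ ∀ ξ ≤ θ, ∀ n, z i ξ n = s ξ n}) '' {θ | θ < δ ∧ HX o i p a θ s ∧ El = Set.univ}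
  have hR1 : R1.Countable := by
    refine countable_iUnion fun n => ((h.core n).Cc).biUnion fun α hα => ((h.core n).Tc α hα).biUnion fun s hs => ?_
    exact (hTc.mono fun a ha => ha.1).image _
  have hR2 : R2.Countable := hTc.image _
  have hR3 : R3.Countable := by
    refine hTc.biUnion fun a ha => Set.Countable.biUnion ?_ fun s hs => Set.Countable.image ?_ _
    · exact h.hB.cnt.preimage_of_injOn (f := U.fn) (fun x _ y _ hxy => U.fn.inj hxy)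
    · refine (h.hB.cnt.preimage_of_injOn (f := U.ord) (fun x _ y _ hxy => U.ord.inj hxy)).mono ?_
      rintro θ ⟨h1, -⟩
      exact (h.hB.ord θ (h1.trans h.hB.lt)).2 h1
  obtain ⟨Θ, hΘ1, hΘ2, hΘ3⟩ := pick {z | Val o N δ gs i p qi z ∧ ElP i p El z} (R1 ∪ R2 ∪ R3)
    ((hR1.union hR2).union hR3) (by
      rintro X ((hX | hX) | hX)
      · simp only [R1, mem_iUnion] at hX
        obtain ⟨n, α, hα, s, hs, a, ⟨ha, has⟩, rfl⟩ := hX
        obtain ⟨z, h1, h2, h3⟩ := h.req1 hEl hα hs ha has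
        exact ⟨z, h1, h2, h3⟩
      · obtain ⟨a, ha, rfl⟩ := hX
        obtain ⟨z, h1, h2⟩ := h.req2 hEl ha
        exact ⟨z, h1, h2⟩
      · simp only [R3, mem_iUnion] at hX
        obtain ⟨a, ha, s, hs, θ, ⟨hθ, hH, hU⟩, rfl⟩ := hX
        subst hU
        obtain ⟨z, h1, h2, h3⟩ := h.req3 ha hθ hH
        exact ⟨z, h1, h2, h3⟩)
  refine ⟨Θ, hΘ1, fun z hz => hΘ2 hz, ?_, ?_, ?_⟩
  · intro n α hα s hs a ha has
    obtain ⟨z, h1, h2⟩ := hΘ3 {z | below i z = a ∧ Agr (co (p n) (i + 1) α) α z s} (Or.inl (Or.inl (by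
      simp only [R1, mem_iUnion]
      exact ⟨n, α, hα, s, hs, a, ⟨ha, has⟩, rfl⟩)))
    exact ⟨z, h1, h2⟩
  · intro a ha
    obtain ⟨z, h1, h2⟩ := hΘ3 {z | below i z = a} (Or.inl (Or.inr ⟨a, ha, rfl⟩))
    exact ⟨z, h1, h2⟩
  · intro hU a ha θ hθ s hs hH
    obtain ⟨z, h1, h2⟩ := hΘ3 {z | below i z = a ∧ ∀ ξ ≤ θ, ∀ n, z i ξ n = s ξ n} (Or.inr (by
      simp only [R3, mem_iUnion]
      exact ⟨a, ha, s, hs, θ, ⟨hθ, hH, hU⟩, rfl⟩))
    exact ⟨z, h1, h2⟩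

theorem Ctx.topC (h : Ctx o Prot i N δ gs p qi) {Θ : Set Thr} (hΘc : Θ.Countable)
    (hΘ : ∀ z ∈ Θ, Val o N δ gs i p qi z)
    (h1 : ∀ n, ∀ α ∈ (p n).C (i + 1), ∀ s ∈ (p n).T (i + 1) α, ∀ a ∈ qi.T i δ, Agr (co (p n) i α) α a s →
        ∃ z ∈ Θ, below i z = a ∧ Agr (co (p n) (i + 1) α) α z s)
    (h2 : ∀ a ∈ qi.T i δ, ∃ z ∈ Θ, below i z = a) : TopC qi (i + 1) p δ (WW' N i) Θ where
  lim := h.hB.lim
  lt := h.hB.lt
  ab n α hα := h.lt hα
  Wc := by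
    refine ((h.coreq.uc δ h.hq.C).insert i).mono ?_
    rintro z ⟨hz, hz'⟩
    rcases eq_or_lt_of_le (Order.lt_add_one_iff.1 hz) with h3 | h3
    · exact Or.inl h3
    · right; rw [h.hq.u]; exact ⟨h3, hz'⟩
  Wlt z hz := hz.1
  Wcl z hz h0 hlim := by
    refine ⟨hz, Or.inr ⟨h0, fun w hw => ?_⟩⟩
    obtain ⟨v, ⟨_, hv⟩, h3, h4⟩ := hlim w hw
    rcases hv with hv | ⟨_, hv⟩
    · exact ⟨v, hv, h3, h4⟩
    · obtain ⟨v', h5, h6, h7⟩ := hv w h3
      exact ⟨v', h5, h6, h7.trans h4⟩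
  W0 h0 := ⟨h0, Or.inl ((h.hB.ord 0 ((zero_le (a := δ)).trans_lt h.hB.lt)).2
    (lt_of_le_of_ne zero_le fun h' => by
      have := h.hB.lim.1
      rw [← h'] at this
      exact this fun x _ => zero_le))⟩
  Ws j hj := by
    rcases hj with ⟨hj, hj'⟩ | hj
    · refine ⟨(lt_succ' j).trans hj, ?_⟩
      rcases hj' with h3 | ⟨_, h3⟩
      · exact Or.inl ((h.hB.succ j).2 h3)
      · obtain ⟨v, _, h4, h5⟩ := h3 j (lt_succ' j)
        exact absurd (Order.lt_add_one_iff.1 h5) (not_le_of_gt h4)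
    · have h3 : j = i := by
        have := Order.add_one_inj.1 hj
        exact this
      subst h3
      exact ⟨lt_succ' j, Or.inl h.hi⟩
  Θc := hΘc
  Θn := by
    obtain ⟨a, ha⟩ := h.coreq.Tn δ h.hq.C
    obtain ⟨z, hz, _⟩ := h2 a ha
    exact ⟨z, hz⟩
  Θs t ht := (hΘ t ht).sup
  L1J z hz := by
    rcases eq_or_lt_of_le (Order.lt_add_one_iff.1 hz.1) with h3 | h3
    · subst h3; exact ⟨h.hq.J, h.hq.C⟩
    · exact h.coreq.L1J δ h.hq.C z (by rw [h.hq.u]; exact ⟨h3, hz.2⟩)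
  L1u z hz := by
    rcases eq_or_lt_of_le (Order.lt_add_one_iff.1 hz.1) with h3 | h3
    · subst h3
      rw [h.hq.u]
      ext w
      exact ⟨fun hw => ⟨⟨hw.1.trans (lt_succ' _), hw.2⟩, hw.1⟩, fun hw => ⟨hw.2, hw.1.2⟩⟩
    · rw [h.coreq.L1u δ h.hq.C z (by rw [h.hq.u]; exact ⟨h3, hz.2⟩), h.hq.u]
      ext w
      exact ⟨fun hw => ⟨⟨hw.1.1.trans (lt_succ' _), hw.1.2⟩, hw.2⟩, fun hw => ⟨⟨hw.2.trans h3, hw.1.2⟩, hw.2⟩⟩
  L1T z hz := by
    rcases eq_or_lt_of_le (Order.lt_add_one_iff.1 hz.1) with h3 | h3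
    · subst h3
      ext a
      constructor
      · intro ha
        obtain ⟨t, ht, h4⟩ := h2 a ha
        exact ⟨t, ht, h4⟩
      · rintro ⟨t, ht, rfl⟩
        exact (hΘ t ht).low
    · rw [h.coreq.L1T δ h.hq.C z (by rw [h.hq.u]; exact ⟨h3, hz.2⟩)]
      ext a
      constructor
      · rintro ⟨b, hb, rfl⟩
        obtain ⟨t, ht, rfl⟩ := h2 b hb
        exact ⟨t, ht, (below_below h3.le t).symm⟩
      · rintro ⟨t, ht, rfl⟩
        exact ⟨below i t, (hΘ t ht).low, below_below h3.le t⟩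
  L2u n α hα z hz :=
    ⟨(h.core n).ult α hα z hz, Or.inl (h.hB.u (p n) (i + 1) (h.hp.mem n) (h.hp.A n) _ (h.J n) α hα z hz)⟩
  L2 n α hα t ht := (hΘ t ht).L2 n α hα
  L3 n α hα x hx t ht z hz hag := by
    rcases eq_or_lt_of_le hx with h3 | h3
    · refine ⟨z, hz, ?_, rfl⟩
      intro j hj ξ hξ k
      exact hag j ⟨hj, h3 ▸ co_lt hj⟩ ξ hξ k
    · have hxi : x ≤ i := Order.lt_add_one_iff.1 h3
      have hlow := (hΘ z hz).low
      have h4 : below i t ∈ qi.T i α := by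
        rw [h.qT hα, h.Ti hα]; exact mem_image_of_mem _ ht
      have h5 : Agr {j | j ∈ co qi i α ∧ j < x} α (below i z) (below i t) := by
        rw [h.qco hα, h.coi hα]
        intro j hj ξ hξ k
        rw [below_of_lt hj.1.2, below_of_lt hj.1.2]
        exact hag j ⟨hj.1.1, hj.2⟩ ξ hξ k
      obtain ⟨b, hb, h6, h7⟩ := h.coreq.L3 α (h.qC hα) δ h.hq.C (h.lt hα) x hxi _ h4 _ hlow h5
      have h8 : Agr (co (p n) i α) α b t := by
        rw [h.qco hα] at h6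
        intro j hj ξ hξ k
        rw [h6 j hj ξ hξ k, below_of_lt (co_lt hj)]
      obtain ⟨z', hz', h9, h10⟩ := h1 n α hα t ht b hb h8
      refine ⟨z', hz', h10, ?_⟩
      rw [← below_below hxi z', h9, h7, below_below hxi z]

theorem mkTop_C {y : Ord} {W : Set Ord} {Θ : Set Thr} {q : Cond} :
    (mkTop q y p δ W Θ).C y = insert δ (⋃ n, (p n).C y) := by simp [mkTop]

theorem mkTop_Tδ {y : Ord} {W : Set Ord} {Θ : Set Thr} {q : Cond} : (mkTop q y p δ W Θ).T y δ = Θ := by simp [mkTop]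

theorem mkTop_uδ {y : Ord} {W : Set Ord} {Θ : Set Thr} {q : Cond} : (mkTop q y p δ W Θ).u y δ = W := by simp [mkTop]

theorem mkTop_T {y α : Ord} {W : Set Ord} {Θ : Set Thr} {q : Cond} (hα : α ≠ δ) :
    (mkTop q y p δ W Θ).T y α = ⋃ n, (p n).T y α := by simp [mkTop, hα]

theorem mkTop_u {y α : Ord} {W : Set Ord} {Θ : Set Thr} {q : Cond} (hα : α ≠ δ) :
    (mkTop q y p δ W Θ).u y α = ⋃ n, (p n).u y α := by simp [mkTop, hα]

theorem mkTop_F {y : Ord} {W : Set Ord} {Θ : Set Thr} {q : Cond} : (mkTop q y p δ W Θ).F y = ⋃ n, (p n).F y := by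
  simp [mkTop]

theorem mkTop_Pr {y : Ord} {W : Set Ord} {Θ : Set Thr} {q : Cond} :
    (mkTop q y p δ W Θ).Pr y = ⋃ n, (p n).Pr y := by simp [mkTop]

theorem Ctx.mem_T (h : Ctx o Prot i N δ gs p qi) {α : Ord} {t : Thr} (ht : t ∈ ⋃ n, (p n).T (i + 1) α) :
    ∃ n, α ∈ (p n).C (i + 1) ∧ t ∈ (p n).T (i + 1) α := by
  obtain ⟨n, hn⟩ := mem_iUnion.1 ht
  refine ⟨n, ?_, hn⟩
  by_contra hα
  rw [(h.hp.A n).1.T _ _ hα] at hn
  exact hn

theorem Ctx.legOpt (h : Ctx o Prot i N δ gs p qi) {Θ : Set Thr} (hΘ : ∀ z ∈ Θ, Val o N δ gs i p qi z) :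
    LegOpt o (PP o i) (mkTop qi (i + 1) p δ (WW' N i) Θ) i := by
  have hopt : ∀ n, LegOpt o (PP o i) (p n) i := fun n => A.opt (h.hp.A n) (h.J n)
  unfold LegOpt at hopt ⊢
  cases ho : o i with
  | spec r B g => exact absurd ho (h.hs r B g)
  | coh =>
    simp only [ho] at hopt ⊢
    refine ⟨?_, ?_, ?_⟩
    · intro α hα t ht ξ n
      by_cases hαδ : α = δ
      · subst hαδ
        rw [mkTop_Tδ] at ht
        exact ((hΘ t ht).coh ho).1 ξ n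
      · rw [mkTop_T hαδ] at ht
        obtain ⟨m, hm, ht⟩ := h.mem_T ht
        exact (hopt m).v01 α hm t ht ξ n
    · intro α hα t ht ξ hξ hξα
      rw [mkTop_F] at hξ
      obtain ⟨l, hl⟩ := mem_iUnion.1 hξ
      by_cases hαδ : α = δ
      · subst hαδ
        rw [mkTop_Tδ] at ht
        exact ((hΘ t ht).coh ho).2.1 l ξ hl
      · rw [mkTop_T hαδ] at ht
        obtain ⟨m, hm, ht⟩ := h.mem_T ht
        have k1 := h.up (le_max_right l m) hm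
        rw [h.Teq hm k1] at ht
        exact (hopt _).F1 α k1 t ht ξ ((h.dec (le_max_left l m)).F _ (h.J l) hl) hξα
    · rw [mkTop_Pr]
      exact iUnion_eq_empty.2 fun n => (hopt n).Pr0
  | kill γ =>
    simp only [ho] at hopt ⊢
    obtain ⟨hγi, hoγ, hγP⟩ := h.hl.kill ho
    refine ⟨?_, ?_, ?_, ?_, ?_, ?_, ?_, ?_⟩
    · intro α hα
      by_cases hαδ : α = δ
      · subst hαδ
        rw [mkTop_uδ]
        exact ⟨(Order.add_one_le_of_lt hγi).trans_lt (lt_succ' i),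
          Or.inl ((h.hB.succ γ).1 (h.hB.kill i γ h.hi ho))⟩
      · rw [mkTop_C] at hα
        rw [mkTop_u hαδ]
        rcases hα with hα | hα
        · exact absurd hα hαδ
        · obtain ⟨n, hn⟩ := mem_iUnion.1 hα
          exact mem_iUnion.2 ⟨n, (hopt n).rg α hn⟩
    · intro α hα t ht ξ n
      by_cases hαδ : α = δ
      · subst hαδ
        rw [mkTop_Tδ] at ht
        exact ((hΘ t ht).kill γ ho).1 ξ n
      · rw [mkTop_T hαδ] at ht
        obtain ⟨m, hm, ht⟩ := h.mem_T ht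
        exact (hopt m).v01 α hm t ht ξ n
    · intro α hα t ht
      by_cases hαδ : α = δ
      · subst hαδ
        rw [mkTop_Tδ] at ht
        exact ((hΘ t ht).kill γ ho).2.1
      · rw [mkTop_T hαδ] at ht
        obtain ⟨m, hm, ht⟩ := h.mem_T ht
        exact (hopt m).top α hm t ht
    · intro α hα t ht ξ hξ hξ0 hlim
      by_cases hαδ : α = δ
      · subst hαδ
        rw [mkTop_Tδ] at ht
        exact ((hΘ t ht).kill γ ho).2.2.1 ξ hξ hξ0 hlim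
      · rw [mkTop_T hαδ] at ht
        obtain ⟨m, hm, ht⟩ := h.mem_T ht
        exact (hopt m).cl α hm t ht ξ hξ hξ0 hlim
    · intro α hα t ht ξ hξ h1
      by_cases hαδ : α = δ
      · subst hαδ
        rw [mkTop_Tδ] at ht
        exact ((hΘ t ht).kill γ ho).2.2.2 ξ hξ h1
      · rw [mkTop_T hαδ] at ht
        obtain ⟨m, hm, ht⟩ := h.mem_T ht
        exact (hopt m).sub α hm t ht ξ hξ h1
    · intro ζ hζ
      exfalso
      rw [mkTop_C] at hζ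
      have h1 := hζ.1 δ (mem_insert _ _)
      obtain ⟨α, hα, h2⟩ := hζ.2.1 δ h1
      rcases hα with hα | hα
      · exact h2.ne hα.symm
      · obtain ⟨n, hn⟩ := mem_iUnion.1 hα
        exact lt_asymm h2 (h.lt hn)
    · rw [mkTop_F]
      exact iUnion_eq_empty.2 fun n => (hopt n).F0
    · rw [mkTop_Pr]
      exact iUnion_eq_empty.2 fun n => (hopt n).Pr0

end

/-- New top levels at Cohen and kill coordinates. -/
theorem job_topN (htop : St_top) : St_topN := by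
  intro o Prot hl i hNX hs N δ gs hB hgs hi p hp hJ hgen qi hq hle El hEl
  have h : Ctx o Prot i N δ gs p qi := ⟨hl, hs, hB, hgs, hi, hp, hJ, hgen, hq, hle, hNX⟩
  obtain ⟨Θ, hΘc, hΘ, h1, h2, h3⟩ := h.exists_level hEl
  have hTC := h.topC hΘc (fun z hz => (hΘ z hz).1) h1 h2
  have hLO := h.legOpt fun z hz => (hΘ z hz).1
  have hqlt : ∀ j ∈ qi.J, j < i + 1 := fun j hj => Order.lt_add_one_iff.2 (A.le hq.A hj)
  obtain ⟨_, hmain⟩ := htop o Prot hl (i + 1) p qi δ (WW' N i) Θ hp.A hp.dec hJ (A.mono (lt_succ' i).le hq.A)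
    hqlt (fun n x hx => by
      have hxi : x ≤ i := Order.lt_add_one_iff.1 hx
      have h4 : CLe o ((p n).res i) ((p n).res x) := by
        rw [← res_res (p n) hxi]; exact CLe.self_res _ _
      exact CLe.trans (nrm_res (hp.A n).1 x) (hle n) h4) hTC
  obtain ⟨hA, hq', hC, hres, hpn⟩ := hmain (fun j hj => by
    have h3 : j = i := Order.add_one_inj.1 hj
    rw [h3]; exact hLO)
  set q := mkTop qi (i + 1) p δ (WW' N i) Θ with hqdef
  have hresi : q.res i = qi := by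
    rw [hres i (lt_succ' i)]
    exact res_self hq.A.1 fun j hj => A.le hq.A hj
  have hTi : q.T i δ = qi.T i δ := by
    rw [← hresi, res_T _ _ le_rfl]
  refine ⟨q, ⟨hA, ?_, ?_, ?_, ?_⟩, ?_, hresi, ?_, ?_, ?_⟩
  · exact mem_insert _ _
  · rw [hC]; exact mem_insert _ _
  · rw [hqdef, mkTop_uδ]; rfl
  · intro t ht γ hγ hγN hoγ
    rw [hqdef, mkTop_Tδ] at ht
    rcases eq_or_lt_of_le (Order.lt_add_one_iff.1 hγ) with h4 | h4
    · subst h4
      exact (((hΘ t ht).1).coh hoγ).2.2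
    · have h5 := hq.mks _ ((hΘ t ht).1.low) γ h4 hγN hoγ
      rw [below_of_lt h4] at h5
      exact h5
  · refine hpn ?_
    intro j γ _ hoγ n β hβ
    have hJγ : γ + 1 ∈ (p n).J := (hp.A n).1.mem_J hβ
    exact (hB.ord β ((A.core (hp.A n) hJγ).Clt β hβ)).1
      (hB.C (p n) (i + 1) (hp.mem n) (hp.A n) _ hJγ β hβ)
  · intro α hα
    rw [hC] at hα
    rcases hα with hα | hα
    · exact hα.le
    · obtain ⟨n, hn⟩ := mem_iUnion.1 hα
      exact (h.lt hn).le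
  · intro hU _ a ha θ hθ s hsN k1 k2 k3 k4
    rw [hTi] at ha
    obtain ⟨z, hz, h4, h5⟩ := h3 hU a ha θ hθ s hsN ⟨k1, k2, k3, k4⟩
    refine ⟨z, ?_, h4, h5⟩
    rw [hqdef, mkTop_Tδ]; exact hz
  · intro hne z hz
    rw [hqdef, mkTop_Tδ] at hz
    exact (hΘ z hz).2 hne

end Pool.Agent.Helper919.SD.TtopN
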