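import Pool.Agent.Helper919_SDT.Stmts

set_option autoImplicit false

/-!
# The new top level at a specialising coordinate
-/

namespace Pool.Agent.Helper919.SD.TtopP

open Ordinal Cardinal Set

/-- The standing hypotheses. -/
structure H (o : Ord → Opt) (Prot : Set Ord) (i : Ord) (r : Node → Node → Set Cnd) (B : Ord) (g : Ord → PName)
    (N : Set U) (δ : Ord) (gs : Option Ord) (p : ℕ → Cond) (qi : Cond) (β : Ord) : Prop where
  hl : Legit o Prot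
  ho : o i = Opt.spec r B g
  hN : Basic o N δ
  hi : U.ord i ∈ N
  hp : Sq o N (i + 1) p
  hJ : i + 1 ∈ (p 0).J
  hG : ∀ z ≤ i, U.ord z ∈ N → Gen o N p z
  hq : GoodQ o N δ gs i qi
  hle : ∀ n, CLe o qi ((p n).res i)
  hβ : β ∈ qi.C i
  hδβ : δ < β
  hdec : ∀ b ∈ qi.T i β, (∃ R, Dec o (PP o i) r ⟨qi, i, β, b⟩ δ R) ∧
      ∀ κ < B, U.ord κ ∈ N → ∃ Y, DecG o (PP o i) (g κ) ⟨qi, i, β, b⟩ δ Y

section

variable {o : Ord → Opt} {Prot : Set Ord} {i : Ord} {r : Node → Node → Set Cnd} {B : Ord} {g : Ord → PName}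
    {N : Set U} {δ : Ord} {gs : Option Ord} {p : ℕ → Cond} {qi : Cond} {β : Ord}

theorem Sq.le {y : Ord} (hp : Sq o N y p) {n m : ℕ} (h : n ≤ m) : CLe o (p m) (p n) := by
  induction h with
  | refl => exact CLe.refl _
  | step h ih => exact CLe.trans (hp.A n).1 (hp.dec _) ih

theorem lt_i (i : Ord) : i < i + 1 := lt_add_one i

section HH

variable (h : H o Prot i r B g N δ gs p qi β)

include h

theorem H.Jn (n : ℕ) : i + 1 ∈ (p n).J := (Sq.le h.hp (Nat.zero_le n)).J h.hJ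

theorem H.core1 (n : ℕ) : LegCore (p n) (i + 1) := A.core (h.hp.A n) (h.Jn n)

theorem H.spec (n : ℕ) : LegSpec o (PP o i) (p n) i r B g := by
  have h1 := A.opt (h.hp.A n) (h.Jn n)
  unfold LegOpt at h1
  simpa only [h.ho] using h1

theorem H.iu {n : ℕ} {α : Ord} (hα : α ∈ (p n).C (i + 1)) : i ∈ (p n).u (i + 1) α :=
  (h.core1 n).us α hα i (Or.inr rfl)

theorem H.iJ {n : ℕ} {α : Ord} (hα : α ∈ (p n).C (i + 1)) : i ∈ (p n).J ∧ α ∈ (p n).C i :=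
  (h.core1 n).L1J α hα i (h.iu hα)

theorem H.ordC {n : ℕ} {j α : Ord} (hα : α ∈ (p n).C j) : U.ord α ∈ N :=
  h.hN.C (p n) (i + 1) (h.hp.mem n) (h.hp.A n) j ((h.hp.A n).1.mem_J hα) α hα

theorem H.ltδ {n : ℕ} {j α : Ord} (hα : α ∈ (p n).C j) : α < δ := by
  have h1 := h.ordC hα
  have h2 := (A.core' (h.hp.A n) hα).Clt α hα
  exact (h.hN.ord α h2).1 h1

theorem H.qcore : LegCore qi i := A.core h.hq.A h.hq.J

theorem H.qC {n : ℕ} {α : Ord} (hα : α ∈ (p n).C i) : α ∈ qi.C i := by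
  have hj : i ∈ ((p n).res i).J := ⟨(h.hp.A n).1.mem_J hα, le_rfl⟩
  exact (h.hle n).C i hj (by rw [res_C _ _ le_rfl]; exact hα)

theorem H.qu {n : ℕ} {α : Ord} (hα : α ∈ (p n).C i) : qi.u i α = (p n).u i α := by
  have hj : i ∈ ((p n).res i).J := ⟨(h.hp.A n).1.mem_J hα, le_rfl⟩
  rw [(h.hle n).u i hj α (by rw [res_C _ _ le_rfl]; exact hα), res_u _ _ le_rfl]

theorem H.qT {n : ℕ} {α : Ord} (hα : α ∈ (p n).C i) : qi.T i α = (p n).T i α := by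
  have hj : i ∈ ((p n).res i).J := ⟨(h.hp.A n).1.mem_J hα, le_rfl⟩
  rw [(h.hle n).T i hj α (by rw [res_C _ _ le_rfl]; exact hα), res_T _ _ le_rfl]

theorem H.qco {n : ℕ} {α : Ord} (hα : α ∈ (p n).C i) : co qi i α = co (p n) i α := by
  unfold co; rw [h.qu hα]

theorem H.coδ {n : ℕ} {α : Ord} (hα : α ∈ (p n).C i) : co (p n) i α ⊆ co qi i δ := by
  rw [← h.qco hα]
  exact h.qcore.co_mono (h.qC hα) h.hq.C (h.ltδ hα).le

theorem H.cutA {n : ℕ} {α : Ord} (hα : α ∈ (p n).C i) {a : Thr} (ha : a ∈ qi.T i δ) :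
    cut (co (p n) i α) α a ∈ (p n).T i α := by
  rw [← h.qco hα, ← h.qT hα]
  exact h.qcore.L2 α (h.qC hα) δ h.hq.C (h.ltδ hα) a ha

/-- The coordinates at `i + 1`. -/
theorem H.co1 {n : ℕ} {α : Ord} (hα : α ∈ (p n).C (i + 1)) {k : Ord} :
    k ∈ co (p n) (i + 1) α ↔ k ∈ co (p n) i α ∨ k = i := by
  rw [(h.core1 n).co_eq hα (h.iu hα)]
  constructor
  · intro hk
    rcases eq_or_lt_of_le (Order.lt_add_one_iff.1 hk.1) with h1 | h1
    · exact Or.inr h1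
    · exact Or.inl ⟨hk, h1⟩
  · rintro (hk | rfl)
    · exact hk.1
    · exact ⟨lt_i _, Or.inr rfl⟩

theorem H.iP {b : Thr} (hb : b ∈ qi.T i β) : (⟨qi, i, β, b⟩ : Cnd) ∈ PP o i := ⟨rfl, h.hq.A, h.hq.J, h.hβ, hb⟩

theorem H.aP {a : Thr} (ha : a ∈ qi.T i δ) : (⟨qi, i, δ, a⟩ : Cnd) ∈ PP o i := ⟨rfl, h.hq.A, h.hq.J, h.hq.C, ha⟩

theorem H.sP {n : ℕ} {α : Ord} (hα : α ∈ (p n).C i) {s : Thr} (hs : s ∈ (p n).T i α) :
    (⟨(p n).res i, i, α, s⟩ : Cnd) ∈ PP o i := by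
  refine ⟨rfl, A.res h.hl (h.hp.A n) i, ⟨(h.hp.A n).1.mem_J hα, le_rfl⟩, ?_, ?_⟩
  · change α ∈ ((p n).res i).C i; rw [res_C _ _ le_rfl]; exact hα
  · change s ∈ ((p n).res i).T i α; rw [res_T _ _ le_rfl]; exact hs

theorem H.bsP {n : ℕ} {α : Ord} (hα : α ∈ (p n).C (i + 1)) {s : Thr} (hs : s ∈ (p n).T (i + 1) α) :
    (⟨(p n).res i, i, α, below i s⟩ : Cnd) ∈ PP o i := by
  refine h.sP (h.iJ hα).2 ?_
  rw [(h.core1 n).L1T α hα i (h.iu hα)]; exact mem_image_of_mem _ hs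

theorem H.leba {a b : Thr} (hb : Agr (co qi i δ) δ b a) : KLe o ⟨qi, i, β, b⟩ ⟨qi, i, δ, a⟩ :=
  ⟨CLe.refl _, h.hδβ.le, Or.inl rfl, hb⟩

theorem H.leas {n : ℕ} {α : Ord} (hα : α ∈ (p n).C i) {a s : Thr} (hs : Agr (co (p n) i α) α a s) :
    KLe o ⟨qi, i, δ, a⟩ ⟨(p n).res i, i, α, s⟩ := by
  refine ⟨h.hle n, (h.ltδ hα).le, Or.inl rfl, ?_⟩
  change Agr (co ((p n).res i) i α) α a s
  rw [res_co _ _ le_rfl]; exact hs

omit h in
theorem agr_below' {n : ℕ} {α : Ord} {a s : Thr} (hs : Agr (co (p n) i α) α a s) :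
    Agr (co (p n) i α) α a (below i s) :=
  hs.trans (SD.agr_below (fun _ hk => co_lt hk) _ _).symm

theorem H.lebs {n : ℕ} {α : Ord} (hα : α ∈ (p n).C (i + 1)) {a b s : Thr} (ha : a ∈ qi.T i δ) (hbT : b ∈ qi.T i β)
    (hb : Agr (co qi i δ) δ b a)
    (hsT : s ∈ (p n).T (i + 1) α) (hs : Agr (co (p n) i α) α a s) :
    KLe o ⟨qi, i, β, b⟩ ⟨(p n).res i, i, α, below i s⟩ :=
  KLe.trans (h.iP hbT) (h.aP ha) (h.bsP hα hsT) (h.leba hb) (h.leas (h.iJ hα).2 (agr_below' hs))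

theorem H.δ1 : δ < ω_ 1 := h.hN.lt

/-- Nodes above a node of the level `δ`. -/
theorem H.exb {a : Thr} (ha : a ∈ qi.T i δ) : ∃ b ∈ qi.T i β, Agr (co qi i δ) δ b a := by
  obtain ⟨z, hz⟩ := h.qcore.Tn β h.hβ
  obtain ⟨z', h1, h2, _⟩ := h.qcore.L3 δ h.hq.C β h.hβ h.hδβ 0 zero_le a ha z hz
    (fun j hj => absurd hj.2 (not_lt_of_ge zero_le))
  exact ⟨z', h1, h2⟩

theorem H.compat {a : Thr} (ha : a ∈ qi.T i δ) {c : Cnd} (hc : c ∈ PP o i) (hle : KLe o c ⟨qi, i, δ, a⟩) :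
    ∃ b ∈ qi.T i β, Agr (co qi i δ) δ b a ∧ ∃ c' ∈ PP o i, KLe o c' c ∧ KLe o c' ⟨qi, i, β, b⟩ := by
  have hcc := PP.core hc
  obtain ⟨c, j, α, t⟩ := c
  obtain ⟨h1, h2, h3, h4, h5⟩ := hc
  simp only at h1 h2 h3 h4 h5 hcc
  subst h1
  have hle1 : CLe o c qi := hle.p
  have hle2 : δ ≤ α := hle.α
  have hle3 : Agr (co qi j δ) δ t a := hle.t
  have hβc : β ∈ c.C j := hle1.C j h.hq.J h.hβ
  have hδc : δ ∈ c.C j := hle1.C j h.hq.J h.hq.C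
  have hcoδ : co c j δ = co qi j δ := hle1.co_eq h.hq.J h.hq.C
  have hcoβ : co c j β = co qi j β := hle1.co_eq h.hq.J h.hβ
  have hTβ : c.T j β = qi.T j β := hle1.T j h.hq.J β h.hβ
  by_cases hαβ : β ≤ α
  · rcases eq_or_lt_of_le hαβ with rfl | hαβ'
    · refine ⟨t, hTβ ▸ h5, hle3, ⟨c, j, β, t⟩, ⟨rfl, h2, h3, h4, h5⟩, KLe.refl _, hle1, le_rfl, Or.inl rfl, ?_⟩
      exact Agr.refl _ _ _
    · have h6 := hcc.L2 β hβc α h4 hαβ' t h5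
      refine ⟨cut (co c j β) β t, hTβ ▸ h6, ?_, ⟨c, j, α, t⟩, ⟨rfl, h2, h3, h4, h5⟩, KLe.refl _, hle1, hαβ, Or.inl rfl, ?_⟩
      · refine Agr.trans ?_ hle3
        refine (agr_cut _ _ t).mono ?_ h.hδβ.le
        rw [← hcoδ]; exact hcc.co_mono hδc hβc h.hδβ.le
      · change Agr (co qi j β) β t _
        rw [← hcoβ]; exact (agr_cut _ _ t).symm
  · push Not at hαβ
    obtain ⟨z, hz⟩ := hcc.Tn β hβc
    obtain ⟨z', h6, h7, _⟩ := hcc.L3 α h4 β hβc hαβ 0 zero_le t h5 z hz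
      (fun j hj => absurd hj.2 (not_lt_of_ge zero_le))
    refine ⟨z', hTβ ▸ h6, ?_, ⟨c, j, β, z'⟩, ⟨rfl, h2, h3, hβc, h6⟩, ?_, ?_⟩
    · refine Agr.trans (h7.mono ?_ hle2) hle3
      rw [← hcoδ]; exact hcc.co_mono hδc h4 hle2
    · exact ⟨CLe.refl _, hαβ.le, Or.inl rfl, h7⟩
    · exact ⟨hle1, le_rfl, Or.inl rfl, Agr.refl _ _ _⟩

/-! ### Deciding the tree -/

/-- The relation decided by a node of the level `β`. -/
def RR (o : Ord → Opt) (i : Ord) (r : Node → Node → Set Cnd) (qi : Cond) (β : Ord) (b : Thr) (x y : Node) : Prop :=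
  mt o (PP o i) (r x y) ⟨qi, i, β, b⟩

omit h in
theorem dec_iff {P : Set Cnd} {c : Cnd} (hc : c ∈ P) {α : Ord} {R : Node → Node → Prop} (hR : Dec o P r c α R)
    {x y : Node} (hx : x.1 ≤ α) (hy : y.1 ≤ α) : R x y ↔ mt o P (r x y) c := by
  constructor
  · exact (hR x y hx hy).1
  · intro h1
    by_contra h2
    exact not_mt_nmt hc h1 ((hR x y hx hy).2 h2)

theorem H.decR {b : Thr} (hb : b ∈ qi.T i β) : Dec o (PP o i) r ⟨qi, i, β, b⟩ δ (RR o i r qi β b) := by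
  obtain ⟨R, hR⟩ := (h.hdec b hb).1
  intro x y hx hy
  refine ⟨id, fun h1 => (hR x y hx hy).2 fun h2 => h1 ?_⟩
  exact (dec_iff (h.iP hb) hR hx hy).1 h2

theorem H.good : Good o (PP o i) r := (h.hl.spec h.ho).1

theorem H.tree {b : Thr} (hb : b ∈ qi.T i β) : TreeR (RR o i r qi β b) δ where
  lvl x y _ hR := h.good.lvl _ (h.iP hb) x y hR
  refl x y _ hR := h.good.refl _ (h.iP hb) x y hR
  trans x y z _ h1 h2 := h.good.trans _ (h.iP hb) x y z h1 h2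
  ex y hy hR ξ hξ := by
    obtain ⟨c', h1, h2, n, h3⟩ := h.good.ex _ (h.iP hb) y hR ξ hξ
    refine ⟨n, ?_⟩
    by_contra h4
    have h5 := (h.decR hb (ξ, n) y (hξ.trans hy) hy).2 h4
    exact h5 c' h1 h2 h3
  uniq x x' y _ h1 h2 h3 := h.good.uniq _ (h.iP hb) x x' y h1 h2 h3

/-- A node of the level `δ` decides the tree below `δ`. -/
theorem H.decA {a : Thr} (ha : a ∈ qi.T i δ) {x y : Node} (hx : x.1 < δ) (hy : y.1 < δ) :
    mt o (PP o i) (r x y) ⟨qi, i, δ, a⟩ ∨ nmt o (PP o i) (r x y) ⟨qi, i, δ, a⟩ := by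
  have hxN : U.ord x.1 ∈ N := (h.hN.ord _ (hx.trans h.δ1)).2 hx
  have hyN : U.ord y.1 ∈ N := (h.hN.ord _ (hy.trans h.δ1)).2 hy
  obtain ⟨n, α, hα, hD⟩ := h.hG i le_rfl h.hi _ (h.hN.dec i r B g h.hi h.ho x y hxN hyN) (by
    refine ⟨fun c hc => hc.1, ?_, ?_⟩
    · rintro c ⟨hc, h1⟩ c' hc' hle
      refine ⟨hc', ?_⟩
      rcases h1 with h1 | h1
      · exact Or.inl (h1.mono Subset.rfl hc hc' hle)
      · exact Or.inr (h1.mono Subset.rfl hc hc' hle)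
    · intro c hc
      obtain ⟨c', h1, h2, h3⟩ := exists_mt_or (o := o) (N := r x y) hc
      exact ⟨c', ⟨h1, h3⟩, h2⟩)
  have h1 := h.cutA hα ha
  obtain ⟨h2, h3⟩ := hD _ h1
  have hle : KLe o ⟨qi, i, δ, a⟩ ⟨(p n).res i, i, α, cut (co (p n) i α) α a⟩ := h.leas hα (agr_cut _ _ _).symm
  rcases h3 with h3 | h3
  · exact Or.inl (h3.mono Subset.rfl h2 (h.aP ha) hle)
  · exact Or.inr (h3.mono Subset.rfl h2 (h.aP ha) hle)

theorem H.agree {a b b' : Thr} (ha : a ∈ qi.T i δ) (hb : b ∈ qi.T i β) (hb' : b' ∈ qi.T i β)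
    (hab : Agr (co qi i δ) δ b a) (hab' : Agr (co qi i δ) δ b' a) {x y : Node} (hx : x.1 < δ) (hy : y.1 < δ) :
    RR o i r qi β b x y ↔ RR o i r qi β b' x y := by
  rcases h.decA ha hx hy with h1 | h1
  · exact ⟨fun _ => h1.mono Subset.rfl (h.aP ha) (h.iP hb') (h.leba hab'),
      fun _ => h1.mono Subset.rfl (h.aP ha) (h.iP hb) (h.leba hab)⟩
  · constructor
    · intro h2
      exact absurd (h1.mono Subset.rfl (h.aP ha) (h.iP hb) (h.leba hab)) (fun h3 => not_mt_nmt (h.iP hb) h2 h3)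
    · intro h2
      exact absurd (h1.mono Subset.rfl (h.aP ha) (h.iP hb') (h.leba hab')) (fun h3 => not_mt_nmt (h.iP hb') h2 h3)

/-- Every condition below the node `a` which decides the level `δ` decides it as some `RR b`. -/
theorem H.decc {a : Thr} (ha : a ∈ qi.T i δ) {c : Cnd} (hc : c ∈ PP o i) (hle : KLe o c ⟨qi, i, δ, a⟩)
    {R : Node → Node → Prop} (hR : Dec o (PP o i) r c δ R) :
    ∃ b ∈ qi.T i β, Agr (co qi i δ) δ b a ∧ (∀ x y : Node, x.1 ≤ δ → y.1 ≤ δ → (R x y ↔ RR o i r qi β b x y)) ∧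
      ∃ c' ∈ PP o i, KLe o c' c ∧ KLe o c' ⟨qi, i, β, b⟩ := by
  obtain ⟨b, hb, hab, c', hc', h1, h2⟩ := h.compat ha hc hle
  refine ⟨b, hb, hab, fun x y hx hy => ?_, c', hc', h1, h2⟩
  exact Dec.agree hc' (hR.mono Subset.rfl hc hc' h1) ((h.decR hb).mono Subset.rfl (h.iP hb) hc' h2) hx hy

/-! ### Threads from functions -/

omit h in
open Classical in
/-- The thread with the part `a` below `i` and the values of `f` at the coordinate `i`. -/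
noncomputable def thr (i δ : Ord) (a : Thr) (f : Node → ℚ) : Thr := fun j ξ n =>
  if j < i then a j ξ n else if hx : j = i ∧ (∃ η, ξ = η + 1) ∧ ξ ≤ δ then f (hx.2.1.choose, n) else 0

omit h in
theorem thr_lt {a : Thr} {f : Node → ℚ} {j : Ord} (hj : j < i) : thr i δ a f j = a j := by
  funext ξ n; simp only [thr, hj, if_true]

omit h in
theorem thr_succ {a : Thr} {f : Node → ℚ} {η : Ord} (hη : η + 1 ≤ δ) (n : ℕ) : thr i δ a f i (η + 1) n = f (η, n) := by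
  have hx : i = i ∧ (∃ η', η + 1 = η' + 1) ∧ η + 1 ≤ δ := ⟨rfl, ⟨η, rfl⟩, hη⟩
  have : hx.2.1.choose = η := by
    have h1 := hx.2.1.choose_spec
    exact (Order.add_one_inj.1 h1).symm
  simp only [thr, lt_irrefl, if_false]
  rw [dif_pos hx, this]

omit h in
theorem thr_ns {a : Thr} {f : Node → ℚ} {ξ : Ord} (hξ : ¬ ∃ η, ξ = η + 1) (n : ℕ) : thr i δ a f i ξ n = 0 := by
  simp only [thr, lt_irrefl, if_false]
  rw [dif_neg]; exact fun hx => hξ hx.2.1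

omit h in
theorem thr_big {a : Thr} {f : Node → ℚ} {ξ : Ord} (hξ : ¬ ξ ≤ δ) (n : ℕ) : thr i δ a f i ξ n = 0 := by
  simp only [thr, lt_irrefl, if_false]
  rw [dif_neg]; exact fun hx => hξ hx.2.2

omit h in
theorem thr_gt {a : Thr} {f : Node → ℚ} {j : Ord} (hj : i < j) (ξ : Ord) (n : ℕ) : thr i δ a f j ξ n = 0 := by
  simp only [thr, not_lt_of_gt hj, if_false]
  rw [dif_neg]; exact fun hx => hj.ne' hx.1

omit h in
theorem hv_thr {a : Thr} {f : Node → ℚ} {x : Node} (hx : x.1 < δ) :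
    hv i (thr i δ a f) x = f x := by
  have h1 : x.1 + 1 ≤ δ := Order.add_one_le_of_lt hx
  change thr i δ a f i (x.1 + 1) x.2 = f x
  rw [thr_succ h1]

omit h in
theorem below_thr (a : Thr) (f : Node → ℚ) : below i (thr i δ a f) = below i a :=
  below_eq_iff.2 fun j hj => thr_lt hj

theorem H.below_a {a : Thr} (ha : a ∈ qi.T i δ) : below i a = a := by
  funext j ξ n
  by_cases hj : j < i
  · rw [below_of_lt hj]
  · rw [below_of_le (not_lt.1 hj)]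
    exact (eq_zero_of_cut (h.qcore.Ts δ h.hq.C a ha) fun hk => hj (co_lt hk.1)).symm

theorem H.below_thr {a : Thr} (ha : a ∈ qi.T i δ) (f : Node → ℚ) : below i (thr i δ a f) = a := by
  rw [TtopP.below_thr, h.below_a ha]

theorem H.thr_ts {a : Thr} (ha : a ∈ qi.T i δ) (f : Node → ℚ) {W : Set Ord} (hW : ∀ z, z ∈ W ↔ z < i + 1 ∧ Cl N z) :
    cut {k | k < i + 1 ∧ (k + 1 ∈ W ∨ k + 1 = i + 1)} δ (thr i δ a f) = thr i δ a f := by
  funext j ξ n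
  by_cases hj : j ∈ {k | k < i + 1 ∧ (k + 1 ∈ W ∨ k + 1 = i + 1)} ∧ ξ ≤ δ
  · simp only [cut, hj, and_self, if_true]
  · rw [show cut {k | k < i + 1 ∧ (k + 1 ∈ W ∨ k + 1 = i + 1)} δ (thr i δ a f) j ξ n = 0 by
      simp only [cut, hj, if_false]]
    rcases lt_trichotomy j i with h1 | h1 | h1
    · rw [thr_lt h1]
      refine (eq_zero_of_cut (h.qcore.Ts δ h.hq.C a ha) fun hk => hj ⟨⟨h1.trans (lt_i i), Or.inl ?_⟩, hk.2⟩).symm
      have h2 := hk.1.2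
      rw [h.hq.u] at h2
      rw [hW]
      rcases h2 with h2 | h2
      · exact ⟨h2.1.trans (lt_i i), h2.2⟩
      · rw [h2]; exact ⟨lt_i i, Or.inl h.hi⟩
    · subst h1
      by_cases hξ : ξ ≤ δ
      · exact absurd ⟨⟨lt_i _, Or.inr rfl⟩, hξ⟩ hj
      · rw [thr_big hξ]
    · rw [thr_gt h1]

/-! ### Monotonicity of the sequence -/

theorem H.mC {n m : ℕ} (hnm : n ≤ m) {j α : Ord} (hα : α ∈ (p n).C j) : α ∈ (p m).C j :=
  (Sq.le h.hp hnm).C j ((h.hp.A n).1.mem_J hα) hα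

theorem H.mu {n m : ℕ} (hnm : n ≤ m) {j α : Ord} (hα : α ∈ (p n).C j) : (p m).u j α = (p n).u j α :=
  (Sq.le h.hp hnm).u j ((h.hp.A n).1.mem_J hα) α hα

theorem H.mT {n m : ℕ} (hnm : n ≤ m) {j α : Ord} (hα : α ∈ (p n).C j) : (p m).T j α = (p n).T j α :=
  (Sq.le h.hp hnm).T j ((h.hp.A n).1.mem_J hα) α hα

theorem H.mco {n m : ℕ} (hnm : n ≤ m) {j α : Ord} (hα : α ∈ (p n).C j) : co (p m) j α = co (p n) j α :=
  (Sq.le h.hp hnm).co_eq ((h.hp.A n).1.mem_J hα) hα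

theorem H.mu' {n m : ℕ} {j α : Ord} (hα : α ∈ (p n).C j) (hα' : α ∈ (p m).C j) : (p m).u j α = (p n).u j α := by
  rcases le_total n m with h1 | h1
  · exact h.mu h1 hα
  · exact (h.mu h1 hα').symm

theorem H.mT' {n m : ℕ} {j α : Ord} (hα : α ∈ (p n).C j) (hα' : α ∈ (p m).C j) : (p m).T j α = (p n).T j α := by
  rcases le_total n m with h1 | h1
  · exact h.mT h1 hα
  · exact (h.mT h1 hα').symm

theorem H.mco' {n m : ℕ} {j α : Ord} (hα : α ∈ (p n).C j) (hα' : α ∈ (p m).C j) : co (p m) j α = co (p n) j α := by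
  rcases le_total n m with h1 | h1
  · exact h.mco h1 hα
  · exact (h.mco h1 hα').symm

theorem H.mPr {n m : ℕ} (hnm : n ≤ m) {e : Ord × Thr × Ord} (he : e ∈ (p n).Pr (i + 1)) : e ∈ (p m).Pr (i + 1) :=
  (Sq.le h.hp hnm).Pr _ (h.Jn n) he

/-! ### The fusion data -/

omit h in
theorem Sat.congr {R R' : Node → Node → Prop} {f f' : Node → ℚ} {α : Ord} {y : Node} {v : ℚ}
    (hR : ∀ x : Node, x.1 < α → (R' x y → R x y)) (hf : ∀ x : Node, x.1 < α → f x = f' x) (hs : Sat R f α y v) :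
    Sat R' f' α y v := by
  obtain ⟨v', h1, h2⟩ := hs
  exact ⟨v', h1, fun x hx hxy => by rw [← hf x hx]; exact h2 x hx (hR x hx hxy)⟩

omit h in
/-- The levels of the sequence at `i + 1`. -/
def CC (p : ℕ → Cond) (i : Ord) : Set Ord := {α | ∃ n, α ∈ (p n).C (i + 1)}

omit h in
/-- The functions given by the threads of the level `α` above `a`. -/
def TT (p : ℕ → Cond) (i : Ord) (a : Thr) (α : Ord) (f : Node → ℚ) : Prop :=
  ∃ n, α ∈ (p n).C (i + 1) ∧ ∃ s ∈ (p n).T (i + 1) α, Agr (co (p n) i α) α a s ∧ ∀ x : Node, x.1 < α → hv i s x = f x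

omit h in
/-- The promises compatible with `a`. -/
def QQ (p : ℕ → Cond) (i : Ord) (a : Thr) : Type 1 :=
  {e : Ord × Thr × Ord // ∃ n, e ∈ (p n).Pr (i + 1) ∧ Agr (co (p n) i e.1) e.1 a e.2.1}

omit h in
abbrev BB (qi : Cond) (i δ β : Ord) (a : Thr) : Type 1 := {b : Thr // b ∈ qi.T i β ∧ Agr (co qi i δ) δ b a}

theorem H.Ccount : (CC p i).Countable := by
  have : CC p i = ⋃ n, (p n).C (i + 1) := by ext α; simp [CC]
  rw [this]
  exact countable_iUnion fun n => (h.core1 n).Cc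

theorem H.Qcount (a : Thr) : Countable (QQ p i a) := by
  have h1 : (⋃ n, (p n).Pr (i + 1)).Countable := countable_iUnion fun n => (h.core1 n).Prc
  refine Set.Countable.to_subtype (s := {e : Ord × Thr × Ord | ∃ n, e ∈ (p n).Pr (i + 1) ∧
    Agr (co (p n) i e.1) e.1 a e.2.1}) (h1.mono ?_)
  rintro e ⟨n, hn, _⟩
  exact mem_iUnion.2 ⟨n, hn⟩

theorem H.Bcount (a : Thr) : Countable (BB qi i δ β a) :=
  Set.Countable.to_subtype (s := {b : Thr | b ∈ qi.T i β ∧ Agr (co qi i δ) δ b a})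
    ((h.qcore.Tc β h.hβ).mono fun _ hb => hb.1)

theorem H.prL {n : ℕ} {e : Ord × Thr × Ord} (he : e ∈ (p n).Pr (i + 1)) : U.ord e.2.2 ∈ N ∧ e.2.2 < B :=
  ⟨h.hN.Pr (p n) (i + 1) (h.hp.mem n) (h.hp.A n) _ (h.Jn n) e he, ((h.spec n).Pr e he).2.2⟩

theorem H.okp {κ : Ord} (hκ : κ < B) : OKP o (PP o i) r (g κ) := (h.hl.spec h.ho).2.1 κ hκ

/-- The tuples of the level `δ` decided by `b`. -/
def YY (o : Ord → Opt) (i : Ord) (G : PName) (qi : Cond) (β δ : Ord) (b : Thr) : Set (Fin G.k → ℕ) :=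
  {n | mt o (PP o i) (G.G δ n) ⟨qi, i, β, b⟩}

theorem H.decG {κ : Ord} (hκ : κ < B) (hκN : U.ord κ ∈ N) {b : Thr} (hb : b ∈ qi.T i β) :
    DecG o (PP o i) (g κ) ⟨qi, i, β, b⟩ δ (YY o i (g κ) qi β δ b) := by
  obtain ⟨Y, hY⟩ := (h.hdec b hb).2 κ hκ hκN
  intro n
  refine ⟨id, fun h1 => (hY n).2 fun h2 => h1 ((hY n).1 h2)⟩

/-- The tuples of the level `α < δ` decided by `b`. -/
theorem H.decG' {κ : Ord} (hκ : κ < B) (hκN : U.ord κ ∈ N) {b : Thr} (hb : b ∈ qi.T i β) {α : Ord} (hα : α < δ) :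
    DecG o (PP o i) (g κ) ⟨qi, i, β, b⟩ α {m | ∃ n ∈ YY o i (g κ) qi β δ b, ∀ l, RR o i r qi β b (α, m l) (δ, n l)} := by
  intro m
  constructor
  · rintro ⟨n, h1, h2⟩
    exact (h.okp hκ).pp1 _ (h.iP hb) δ α n m h1 hα.le h2
  · intro h1 c' hc' hle h2
    obtain ⟨c₂, h3, h4, n, h5, h6⟩ := (h.okp hκ).pp2 c' hc' δ α m h2 hα h.δ1
    have h7 : KLe o c₂ ⟨qi, i, β, b⟩ := KLe.trans h3 hc' (h.iP hb) h4 hle
    refine h1 ⟨n, ?_, fun l => ?_⟩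
    · by_contra h8
      exact (((h.decG hκ hκN hb) n).2 h8) c₂ h3 h7 h5
    · by_contra h8
      exact ((h.decR hb) (α, m l) (δ, n l) hα.le le_rfl).2 h8 c₂ h3 h7 (h6 l)

/-- The fusion data for the node `a`. -/
noncomputable def H.fd {a : Thr} (ha : a ∈ qi.T i δ) : FD (BB qi i δ β a) where
  δ := δ
  R b := RR o i r qi β b.1
  C := CC p i
  T := TT p i a
  Q := QQ p i a
  lv π := π.1.1
  st π := hv i π.1.2.1
  k π := (g π.1.2.2).k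
  v π := (g π.1.2.2).v
  Y π b := YY o i (g π.1.2.2) qi β δ b.1
  lim := h.hN.lim
  lt := h.δ1
  ctB := h.Bcount a
  ctQ := h.Qcount a
  tree b := h.tree b.2.1
  agree b b' x y hx hy := h.agree ha b.2.1 b'.2.1 b.2.2 b'.2.2 hx hy
  Clt := by rintro α ⟨n, hn⟩; exact h.ltδ hn
  Clim := by rintro α ⟨n, hn⟩; exact (h.core1 n).Clim α hn
  ext := by
    rintro α f f' hf ⟨n, hn, s, hs, h1, h2⟩
    exact ⟨n, hn, s, hs, h1, fun x hx => (h2 x hx).trans (hf x hx)⟩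
  down := by
    rintro α₀ ⟨m, hm⟩ α - hlt f ⟨n, hn, s, hs, h1, h2⟩
    have hm' := h.mC (le_max_left m n) hm
    have hn' := h.mC (le_max_right m n) hn
    have hs' : s ∈ (p (max m n)).T (i + 1) α := by rw [h.mT (le_max_right m n) hn]; exact hs
    refine ⟨max m n, hm', cut (co (p (max m n)) (i + 1) α₀) α₀ s,
      (h.core1 _).L2 α₀ hm' α hn' hlt s hs', ?_, ?_⟩
    · have h3 : Agr (co (p (max m n)) i α) α a s := by rw [h.mco' (h.iJ hn).2 (h.iJ hn').2]; exact h1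
      refine Agr.trans (h3.mono ?_ hlt.le) ?_
      · exact (A.core' (h.hp.A _) (h.iJ hn').2).co_mono (h.iJ hm').2 (h.iJ hn').2 hlt.le
      · refine (agr_cut _ _ s).symm.mono ?_ le_rfl
        intro k hk
        exact (h.co1 hm').2 (Or.inl hk)
    · intro x hx
      rw [← h2 x (hx.trans hlt)]
      have h4 : x.1 + 1 ≤ α₀ := Order.add_one_le_of_lt hx
      exact agr_cut _ _ s i ((h.co1 hm').2 (Or.inr rfl)) _ h4 _
  inc := by
    rintro α - f ⟨n, hn, s, hs, h1, h2⟩ b x y hx hy hR hxy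
    rw [← h2 x hx, ← h2 y hy]
    exact (h.spec n).inc α hn s hs _ (h.iP b.2.1) (h.lebs hn ha b.2.1 b.2.2 hs h1) _
      ((h.decR b.2.1).le (h.ltδ hn).le) x y hx hy hR hxy
  bd := by
    rintro α - f ⟨n, hn, s, hs, h1, h2⟩ b k
    obtain ⟨v, hv⟩ := (h.spec n).bd α hn s hs _ (h.iP b.2.1) (h.lebs hn ha b.2.1 b.2.2 hs h1) _
      ((h.decR b.2.1).le (h.ltδ hn).le) k
    exact ⟨v, Sat.congr (fun _ _ => id) h2 hv⟩
  sep := by
    rintro α₀ ⟨m, hm⟩ α ⟨m', hm'⟩ hlt f ⟨n, hn, s, hs, h1, h2⟩ b k w v hw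
    obtain ⟨M, hM1, hM2⟩ : ∃ M, n ≤ M ∧ m' ≤ M := ⟨max n m', le_max_left _ _, le_max_right _ _⟩
    have hα₀ := h.mC hM1 hn
    have hα := h.mC hM2 hm'
    have hs' : s ∈ (p M).T (i + 1) α₀ := by rw [h.mT hM1 hn]; exact hs
    have hcut := h.cutA (h.iJ hα).2 ha
    have hcom := (A.core' (h.hp.A M) (h.iJ hα).2).co_mono (h.iJ hα₀).2 (h.iJ hα).2 hlt.le
    obtain ⟨z, hz, hz1, hz2, hz3⟩ := (h.spec M).sep α₀ hα₀ α hα hlt s hs' _ hcut (by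
      refine Agr.trans ((agr_cut _ _ a).mono hcom hlt.le) ?_
      rw [h.mco' (h.iJ hn).2 (h.iJ hα₀).2]; exact h1) _ (h.iP b.2.1)
      (KLe.trans (h.iP b.2.1) (h.aP ha) (h.sP (h.iJ hα).2 hcut) (h.leba b.2.2)
        (h.leas (h.iJ hα).2 (agr_cut _ _ _).symm)) _ ((h.decR b.2.1).le (h.ltδ hα).le) k w v
      (fun l => Sat.congr (fun _ _ => id) (fun x hx => (h2 x hx).symm) (hw l))
    refine ⟨hv i z, ⟨M, hα, z, hz, ?_, fun _ _ => rfl⟩, ?_, hz3⟩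
    · refine Agr.trans (agr_cut _ _ a).symm ?_
      rw [← hz1]
      exact SD.agr_below (fun _ hk => co_lt hk) _ _
    · intro x hx
      rw [← h2 x hx]
      exact hz2 i ((h.co1 hα₀).2 (Or.inr rfl)) _ (Order.add_one_le_of_lt hx) _
  lvC := by
    rintro ⟨e, n, he, _⟩
    exact ⟨n, ((h.spec n).Pr e he).1⟩
  fld := by
    rintro ⟨e, n, he, h1⟩ b k hk l
    exact (h.okp (h.prL he).2).fld _ (h.iP b.2.1) δ k hk l
  prom := by
    rintro ⟨e, m, he, h0⟩ α ⟨m', hm'⟩ hlv f ⟨n, hn, s, hs, h1, h2⟩ h3 b fi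
    simp only at hlv h3
    obtain ⟨M, hM1, hM2⟩ : ∃ M, n ≤ M ∧ m ≤ M := ⟨max n m, le_max_left _ _, le_max_right _ _⟩
    have hα := h.mC hM1 hn
    have hs' : s ∈ (p M).T (i + 1) α := by rw [h.mT hM1 hn]; exact hs
    have h1' : Agr (co (p M) i α) α a s := by rw [h.mco' (h.iJ hn).2 (h.iJ hα).2]; exact h1
    have he' := h.mPr hM2 he
    have hPr := (h.spec M).Pr e he'
    have hκ := h.prL he'
    have hcom := (A.core' (h.hp.A M) (h.iJ hα).2).co_mono (h.iJ hPr.1).2 (h.iJ hα).2 hlv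
    have h0' : Agr (co (p M) i e.1) e.1 a e.2.1 := by
      rw [h.mco' (h.iJ ((h.spec m).Pr e he).1).2 (h.iJ hPr.1).2]; exact h0
    have hag : Agr (co (p M) (i + 1) e.1) e.1 s e.2.1 := by
      intro k hk ξ hξ l
      rcases (h.co1 hPr.1).1 hk with hk | rfl
      · rw [← h0' k hk ξ hξ l]; exact (h1' k (hcom hk) ξ (hξ.trans hlv) l).symm
      · by_cases hx : ∃ η, ξ = η + 1
        · obtain ⟨η, rfl⟩ := hx
          have hη : η < e.1 := lt_of_lt_of_le (lt_add_one η) hξ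
          have h5 := h3 (η, l) hη
          rw [← h2 (η, l) (hη.trans_le hlv)] at h5
          exact h5
        · rw [(h.spec M).z0 α hα s hs' ξ l hx, (h.spec M).z0 _ hPr.1 _ hPr.2.1 ξ l hx]
    obtain ⟨y, hy, hy1, hy2⟩ := (h.spec M).prom e he' α hα hlv s hs' hag _ (h.iP b.2.1)
      (h.lebs hα ha b.2.1 b.2.2 hs' h1') _ ((h.decR b.2.1).le (h.ltδ hα).le) _
      (h.decG' hκ.2 hκ.1 b.2.1 (h.ltδ hα)) fi
    obtain ⟨y', hy3, hy4⟩ := hy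
    exact ⟨y', hy3, y, hy4, hy1, fun l => Sat.congr (fun _ _ => id) h2 (hy2 l)⟩

/-! ### The threads of the new level -/

theorem H.agr_thr {n : ℕ} {α : Ord} (hα : α ∈ (p n).C (i + 1)) {s : Thr} (hsT : s ∈ (p n).T (i + 1) α) {a : Thr}
    (hs : Agr (co (p n) i α) α a s) {f : Node → ℚ} (hf : ∀ x : Node, x.1 < α → f x = hv i s x) :
    Agr (co (p n) (i + 1) α) α (thr i δ a f) s := by
  intro k hk ξ hξ l
  rcases (h.co1 hα).1 hk with hk | rfl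
  · rw [thr_lt (co_lt hk)]; exact hs k hk ξ hξ l
  · by_cases hx : ∃ η, ξ = η + 1
    · obtain ⟨η, rfl⟩ := hx
      have hη : η < α := lt_of_lt_of_le (lt_add_one η) hξ
      rw [thr_succ (hξ.trans (h.ltδ hα).le)]
      exact hf (η, l) hη
    · rw [thr_ns hx, (h.spec n).z0 α hα s hsT ξ l hx]

/-- The requirements on the set of the threads of the new level. -/
structure H.TH (El : Set (Ord × Thr)) (Θ : Set Thr) : Prop where
  cnt : Θ.Countable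
  vld : ∀ z ∈ Θ, ∃ a, ∃ ha : a ∈ qi.T i δ, ∃ f, (h.fd ha).Out f ∧ z = thr i δ a f
  el : (∃ n, ((p n).C (i + 1)).Nonempty) → ∀ z ∈ Θ, ∃ n, ∃ α' ∈ (p n).C (i + 1),
    ∃ s' ∈ (p n).T (i + 1) α', (α', s') ∈ El ∧ Agr (co (p n) (i + 1) α') α' z s'
  e1 : ∀ n, ∀ α ∈ (p n).C (i + 1), ∀ s ∈ (p n).T (i + 1) α, ∀ a ∈ qi.T i δ, Agr (co (p n) i α) α a s →
    ∀ K : List (Thr × ℕ × ℚ), (∀ e ∈ K, (e.1 ∈ qi.T i β ∧ Agr (co qi i δ) δ e.1 a) ∧
      Sat (RR o i r qi β e.1) (hv i s) α (δ, e.2.1) e.2.2) →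
    ∃ z ∈ Θ, below i z = a ∧ Agr (co (p n) (i + 1) α) α z s ∧
      ∀ e ∈ K, Sat (RR o i r qi β e.1) (hv i z) δ (δ, e.2.1) e.2.2
  e2 : ∀ a ∈ qi.T i δ, ∃ z ∈ Θ, below i z = a
  e3 : El = Set.univ → ∀ n, ∀ am ∈ (p n).C (i + 1), (∀ α ∈ CC p i, α ≤ am) → ∀ z₁ ∈ (p n).T (i + 1) am, ∀ a ∈ qi.T i δ,
    Agr (co (p n) i am) am a z₁ → ∀ e : ℚ, 0 < e → ∃ z ∈ Θ, below i z = a ∧ Agr (co (p n) (i + 1) am) am z z₁ ∧
      ∀ b ∈ qi.T i β, Agr (co qi i δ) δ b a → ∀ (k : ℕ) (w : ℚ), Sat (RR o i r qi β b) (hv i z₁) am (δ, k) w →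
        Sat (RR o i r qi β b) (hv i z) δ (δ, k) (w + e)

omit h in
theorem exists_cnt {ι : Type 1} [Countable ι] (V : Thr → Prop) (Cd : ι → Prop) (P : ι → Thr → Prop)
    (hh : ∀ j, Cd j → ∃ z, V z ∧ P j z) : ∃ Θ : Set Thr, Θ.Countable ∧ (∀ z ∈ Θ, V z) ∧ ∀ j, Cd j → ∃ z ∈ Θ, P j z := by
  choose! f hf using hh
  refine ⟨f '' {j | Cd j}, (Set.to_countable _).image _, ?_, ?_⟩
  · rintro _ ⟨j, hj, rfl⟩; exact (hf j hj).1
  · intro j hj; exact ⟨f j, ⟨j, hj, rfl⟩, (hf j hj).2⟩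

omit h in
/-- The threads of the level `α`. -/
def TU (p : ℕ → Cond) (i α : Ord) : Set Thr := {s | ∃ n, α ∈ (p n).C (i + 1) ∧ s ∈ (p n).T (i + 1) α}

theorem H.TUcount (α : Ord) : (TU p i α).Countable := by
  have h1 : TU p i α ⊆ ⋃ n, {s | α ∈ (p n).C (i + 1) ∧ s ∈ (p n).T (i + 1) α} := by
    rintro s ⟨n, hn⟩; exact mem_iUnion.2 ⟨n, hn⟩
  refine (countable_iUnion fun n => ?_).mono h1
  by_cases hα : α ∈ (p n).C (i + 1)
  · exact ((h.core1 n).Tc α hα).mono fun s hs => hs.2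
  · have : {s | α ∈ (p n).C (i + 1) ∧ s ∈ (p n).T (i + 1) α} = (∅ : Set Thr) := by
      ext s; simp [hα]
    rw [this]; exact countable_empty

/-- The condition on the node. -/
def Vd (h : H o Prot i r B g N δ gs p qi β) (El : Set (Ord × Thr)) (z : Thr) : Prop :=
  (∃ a, ∃ ha : a ∈ qi.T i δ, ∃ f, (h.fd ha).Out f ∧ z = thr i δ a f) ∧
  ((∃ n, ((p n).C (i + 1)).Nonempty) → ∃ n, ∃ α' ∈ (p n).C (i + 1),
    ∃ s' ∈ (p n).T (i + 1) α', (α', s') ∈ El ∧ Agr (co (p n) (i + 1) α') α' z s')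

omit h in
theorem hv_sat {a : Thr} {f : Node → ℚ} {R : Node → Node → Prop} {y : Node} {v : ℚ} :
    Sat R (hv i (thr i δ a f)) δ y v ↔ Sat R f δ y v :=
  ⟨Sat.congr (fun _ _ => id) fun _ hx => hv_thr hx, Sat.congr (fun _ _ => id) fun _ hx => (hv_thr hx).symm⟩

theorem H.Bne {a : Thr} (ha : a ∈ qi.T i δ) : Nonempty (BB qi i δ β a) := by
  obtain ⟨b, h1, h2⟩ := h.exb ha
  exact ⟨⟨b, h1, h2⟩⟩

theorem H.req1 (htc : St_tc) {El : Set (Ord × Thr)}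
    (hEl : ∀ n, ∀ α ∈ (p n).C (i + 1), ∀ s ∈ (p n).T (i + 1) α, ∀ a ∈ qi.T i δ, Agr (co (p n) i α) α a s →
      ∀ K : List (Thr × ℕ × ℚ), (∀ e ∈ K, e.1 ∈ qi.T i β ∧ Agr (co qi i δ) δ e.1 a ∧
        ∀ R, Dec o (PP o i) r ⟨qi, i, β, e.1⟩ δ R → Sat R (hv i s) α (δ, e.2.1) e.2.2) →
      ∃ n', ∃ α' ∈ (p n').C (i + 1), α ≤ α' ∧ ∃ s' ∈ (p n').T (i + 1) α',
        Agr (co (p n) (i + 1) α) α s' s ∧ Agr (co (p n') i α') α' a s' ∧ (α', s') ∈ El ∧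
        ∀ e ∈ K, ∀ R, Dec o (PP o i) r ⟨qi, i, β, e.1⟩ δ R → Sat R (hv i s') α' (δ, e.2.1) e.2.2)
    {n : ℕ} {α : Ord} (hα : α ∈ (p n).C (i + 1)) {s : Thr} (hs : s ∈ (p n).T (i + 1) α) {a : Thr}
    (ha : a ∈ qi.T i δ) (hag : Agr (co (p n) i α) α a s) (K : List (BB qi i δ β a × ℕ × ℚ))
    (hK : ∀ e ∈ K, Sat (RR o i r qi β e.1.1) (hv i s) α (δ, e.2.1) e.2.2) :
    ∃ z, Vd h El z ∧ below i z = a ∧ Agr (co (p n) (i + 1) α) α z s ∧
      ∀ e ∈ K, Sat (RR o i r qi β e.1.1) (hv i z) δ (δ, e.2.1) e.2.2 := by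
  obtain ⟨n', α', hα', hαα', s', hs', h1, h2, h3, h4⟩ := hEl n α hα s hs a ha hag
    (K.map fun e => (e.1.1, e.2)) (by
      intro e he
      obtain ⟨e', he', rfl⟩ := List.mem_map.1 he
      refine ⟨e'.1.2.1, e'.1.2.2, fun R hR => ?_⟩
      refine Sat.congr (fun x hx hxy => ?_) (fun _ _ => rfl) (hK e' he')
      exact (dec_iff (h.iP e'.1.2.1) hR (hx.trans (h.ltδ hα)).le le_rfl).1 hxy)
  have h5 : TT p i a α' (hv i s') := ⟨n', hα', s', hs', h2, fun _ _ => rfl⟩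
  obtain ⟨f, hf, h6, h7⟩ := htc (BB qi i δ β a) (h.fd ha) (h.Bne ha) α' ⟨n', hα'⟩ (hv i s') h5 K (by
    intro e he
    have h8 := h4 (e.1.1, e.2) (List.mem_map.2 ⟨e, he, rfl⟩) (RR o i r qi β e.1.1) (h.decR e.1.2.1)
    exact h8)
  have h8 := h.agr_thr hα' hs' h2 h6
  refine ⟨thr i δ a f, ⟨⟨a, ha, f, hf, rfl⟩, fun _ => ⟨n', α', hα', s', hs', h3, h8⟩⟩, h.below_thr ha f, ?_, ?_⟩
  · refine Agr.trans (h8.mono ?_ hαα') h1
    obtain ⟨M, hM1, hM2⟩ : ∃ M, n ≤ M ∧ n' ≤ M := ⟨max n n', le_max_left _ _, le_max_right _ _⟩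
    rw [← h.mco hM1 hα, ← h.mco hM2 hα']
    exact (h.core1 M).co_mono (h.mC hM1 hα) (h.mC hM2 hα') hαα'
  · intro e he
    exact hv_sat.2 (h7 e he)

theorem H.exΘ (htc : St_tc) (htcx : St_tcx) (htc0 : St_tc0) {El : Set (Ord × Thr)}
    (hEl : ∀ n, ∀ α ∈ (p n).C (i + 1), ∀ s ∈ (p n).T (i + 1) α, ∀ a ∈ qi.T i δ, Agr (co (p n) i α) α a s →
      ∀ K : List (Thr × ℕ × ℚ), (∀ e ∈ K, e.1 ∈ qi.T i β ∧ Agr (co qi i δ) δ e.1 a ∧
        ∀ R, Dec o (PP o i) r ⟨qi, i, β, e.1⟩ δ R → Sat R (hv i s) α (δ, e.2.1) e.2.2) →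
      ∃ n', ∃ α' ∈ (p n').C (i + 1), α ≤ α' ∧ ∃ s' ∈ (p n').T (i + 1) α',
        Agr (co (p n) (i + 1) α) α s' s ∧ Agr (co (p n') i α') α' a s' ∧ (α', s') ∈ El ∧
        ∀ e ∈ K, ∀ R, Dec o (PP o i) r ⟨qi, i, β, e.1⟩ δ R → Sat R (hv i s') α' (δ, e.2.1) e.2.2) :
    ∃ Θ : Set Thr, h.TH El Θ := by
  have cA : Countable (qi.T i δ) := (h.qcore.Tc δ h.hq.C).to_subtype
  have cC : Countable (CC p i) := h.Ccount.to_subtype
  have cT : ∀ α, Countable (TU p i α) := fun α => (h.TUcount α).to_subtype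
  have cB : ∀ a, Countable (BB qi i δ β a) := fun a => h.Bcount a
  -- the first kind
  obtain ⟨Θ₁, c1, v1, r1⟩ := exists_cnt (ι := (a : qi.T i δ) × (α : CC p i) × (TU p i α.1) × List (BB qi i δ β a.1 × ℕ × ℚ))
    (Vd h El) (fun d => ∃ n, d.2.1.1 ∈ (p n).C (i + 1) ∧ d.2.2.1.1 ∈ (p n).T (i + 1) d.2.1.1 ∧
      Agr (co (p n) i d.2.1.1) d.2.1.1 d.1.1 d.2.2.1.1 ∧
      ∀ e ∈ d.2.2.2, Sat (RR o i r qi β e.1.1) (hv i d.2.2.1.1) d.2.1.1 (δ, e.2.1) e.2.2)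
    (fun d z => ∀ n, d.2.1.1 ∈ (p n).C (i + 1) → d.2.2.1.1 ∈ (p n).T (i + 1) d.2.1.1 →
      below i z = d.1.1 ∧ Agr (co (p n) (i + 1) d.2.1.1) d.2.1.1 z d.2.2.1.1 ∧
      ∀ e ∈ d.2.2.2, Sat (RR o i r qi β e.1.1) (hv i z) δ (δ, e.2.1) e.2.2) (by
      rintro ⟨⟨a, ha⟩, ⟨α, hα⟩, ⟨s, hs⟩, K⟩ ⟨n, h1, h2, h3, h4⟩
      obtain ⟨z, h5, h6, h7, h8⟩ := h.req1 htc hEl h1 h2 ha h3 K h4
      refine ⟨z, h5, fun m hm _ => ⟨h6, ?_, h8⟩⟩
      simp only at h1 hm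
      simp only
      rw [h.mco' h1 hm]; exact h7)
  -- the second kind
  obtain ⟨Θ₂, c2, v2, r2⟩ := exists_cnt (ι := qi.T i δ) (Vd h El) (fun _ => CC p i = ∅)
    (fun a z => below i z = a.1) (by
      rintro ⟨a, ha⟩ hC
      obtain ⟨f, hf⟩ := htc0 (BB qi i δ β a) (h.fd ha) (h.Bne ha) hC
      refine ⟨thr i δ a f, ⟨⟨a, ha, f, hf, rfl⟩, ?_⟩, h.below_thr ha f⟩
      rintro ⟨n, α, hα⟩
      have : α ∈ CC p i := ⟨n, hα⟩
      rw [hC] at this; exact absurd this (notMem_empty α))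
  -- the third kind
  obtain ⟨Θ₃, c3, v3, r3⟩ := exists_cnt (ι := (a : qi.T i δ) × (α : CC p i) × (TU p i α.1) × ULift.{1} ℚ)
    (Vd h El) (fun d => El = Set.univ ∧ (∀ α ∈ CC p i, α ≤ d.2.1.1) ∧ 0 < d.2.2.2.down ∧ ∃ n, d.2.1.1 ∈ (p n).C (i + 1) ∧
      d.2.2.1.1 ∈ (p n).T (i + 1) d.2.1.1 ∧ Agr (co (p n) i d.2.1.1) d.2.1.1 d.1.1 d.2.2.1.1)
    (fun d z => ∀ n, d.2.1.1 ∈ (p n).C (i + 1) → d.2.2.1.1 ∈ (p n).T (i + 1) d.2.1.1 →
      below i z = d.1.1 ∧ Agr (co (p n) (i + 1) d.2.1.1) d.2.1.1 z d.2.2.1.1 ∧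
      ∀ b ∈ qi.T i β, Agr (co qi i δ) δ b d.1.1 → ∀ (k : ℕ) (w : ℚ),
        Sat (RR o i r qi β b) (hv i d.2.2.1.1) d.2.1.1 (δ, k) w →
        Sat (RR o i r qi β b) (hv i z) δ (δ, k) (w + d.2.2.2.down)) (by
      rintro ⟨⟨a, ha⟩, ⟨α, hα⟩, ⟨s, hs⟩, ⟨e⟩⟩ ⟨h1, h2, h3, n, h4, h5, h6⟩
      simp only at h2 h3 h4 h5 h6
      have h7 : TT p i a α (hv i s) := ⟨n, h4, s, h5, h6, fun _ _ => rfl⟩
      obtain ⟨f, hf, h8, h9⟩ := htcx (BB qi i δ β a) (h.fd ha) (h.Bne ha) α hα h2 (hv i s) h7 e h3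
      have h10 := h.agr_thr h4 h5 h6 h8
      refine ⟨thr i δ a f, ⟨⟨a, ha, f, hf, rfl⟩, fun _ => ⟨n, α, h4, s, h5, by rw [h1]; exact mem_univ _, h10⟩⟩,
        fun m hm _ => ⟨h.below_thr ha f, ?_, ?_⟩⟩
      · simp only at hm
        simp only
        rw [h.mco' h4 hm]; exact h10
      · intro b hb hab k w hw
        exact hv_sat.2 (h9 ⟨b, hb, hab⟩ k w hw))
  have e1 : ∀ n, ∀ α ∈ (p n).C (i + 1), ∀ s ∈ (p n).T (i + 1) α, ∀ a ∈ qi.T i δ, Agr (co (p n) i α) α a s →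
    ∀ K : List (Thr × ℕ × ℚ), (∀ e ∈ K, (e.1 ∈ qi.T i β ∧ Agr (co qi i δ) δ e.1 a) ∧
      Sat (RR o i r qi β e.1) (hv i s) α (δ, e.2.1) e.2.2) →
    ∃ z ∈ Θ₁, below i z = a ∧ Agr (co (p n) (i + 1) α) α z s ∧
      ∀ e ∈ K, Sat (RR o i r qi β e.1) (hv i z) δ (δ, e.2.1) e.2.2 := by
    intro n α hα s hs a ha hag K hK
    obtain ⟨K', hK1, hK2⟩ : ∃ K' : List (BB qi i δ β a × ℕ × ℚ), (∀ e ∈ K', ((e.1.1, e.2) : Thr × ℕ × ℚ) ∈ K) ∧
        ∀ e ∈ K, ∃ e' ∈ K', e'.1.1 = e.1 ∧ e'.2 = e.2 := by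
      refine ⟨K.pmap (P := fun e : Thr × ℕ × ℚ => e.1 ∈ qi.T i β ∧ Agr (co qi i δ) δ e.1 a)
        (fun e he => ((⟨e.1, he⟩ : BB qi i δ β a), e.2)) (fun e he => (hK e he).1), ?_, ?_⟩
      · intro e he
        obtain ⟨e', he', rfl⟩ := List.mem_pmap.1 he
        exact he'
      · intro e he
        exact ⟨_, List.mem_pmap.2 ⟨e, he, rfl⟩, rfl, rfl⟩
    obtain ⟨z, hz, h1⟩ := r1 ⟨⟨a, ha⟩, ⟨α, n, hα⟩, ⟨s, n, hα, hs⟩, K'⟩
      ⟨n, hα, hs, hag, fun e he => (hK _ (hK1 e he)).2⟩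
    obtain ⟨h2, h3, h4⟩ := h1 n hα hs
    refine ⟨z, hz, h2, h3, fun e he => ?_⟩
    obtain ⟨e', he', h5, h6⟩ := hK2 e he
    have h7 := h4 e' he'
    rw [h5, h6] at h7; exact h7
  refine ⟨Θ₁ ∪ Θ₂ ∪ Θ₃, (c1.union c2).union c3, ?_, ?_, ?_, ?_, ?_⟩
  · rintro z ((hz | hz) | hz)
    · exact (v1 z hz).1
    · exact (v2 z hz).1
    · exact (v3 z hz).1
  · rintro hne z ((hz | hz) | hz)
    · exact (v1 z hz).2 hne
    · exact (v2 z hz).2 hne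
    · exact (v3 z hz).2 hne
  · intro n α hα s hs a ha hag K hK
    obtain ⟨z, hz, h1⟩ := e1 n α hα s hs a ha hag K hK
    exact ⟨z, Or.inl (Or.inl hz), h1⟩
  · intro a ha
    by_cases hC : CC p i = ∅
    · obtain ⟨z, hz, h1⟩ := r2 ⟨a, ha⟩ hC
      exact ⟨z, Or.inl (Or.inr hz), h1⟩
    · obtain ⟨α, n, hα⟩ := nonempty_iff_ne_empty.2 hC
      have h1 := h.cutA (h.iJ hα).2 ha
      rw [(h.core1 n).L1T α hα i (h.iu hα)] at h1
      obtain ⟨s, hs, h2⟩ := h1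
      obtain ⟨z, hz, h3, _⟩ := e1 n α hα s hs a ha (by
        refine Agr.trans (agr_cut _ _ a).symm ?_
        rw [← h2]
        exact SD.agr_below (fun _ hk => co_lt hk) _ _) [] (by simp)
      exact ⟨z, Or.inl (Or.inl hz), h3⟩
  · intro hu n am ham hmax z₁ hz₁ a ha hag e he
    obtain ⟨z, hz, h1⟩ := r3 ⟨⟨a, ha⟩, ⟨am, n, ham⟩, ⟨z₁, n, ham, hz₁⟩, ⟨e⟩⟩ ⟨hu, hmax, he, n, ham, hz₁, hag⟩
    exact ⟨z, Or.inr hz, h1 n ham hz₁⟩

/-! ### The new level -/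

omit h in
/-- The indices of the new level. -/
def WW' (N : Set U) (i : Ord) : Set Ord := {z | z < i + 1 ∧ Cl N z}

theorem H.memW {z : Ord} : z ∈ WW' N i ↔ z = i ∨ z ∈ qi.u i δ := by
  rw [h.hq.u]
  constructor
  · rintro ⟨h1, h2⟩
    rcases eq_or_lt_of_le (Order.lt_add_one_iff.1 h1) with h3 | h3
    · exact Or.inl h3
    · exact Or.inr ⟨h3, h2⟩
  · rintro (rfl | ⟨h1, h2⟩)
    · exact ⟨lt_i _, Or.inl h.hi⟩
    · exact ⟨h1.trans (lt_i _), h2⟩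

theorem H.thr_L2 {El : Set (Ord × Thr)} {Θ : Set Thr} (hΘ : h.TH El Θ) {n : ℕ} {α : Ord} (hα : α ∈ (p n).C (i + 1))
    {t : Thr} (ht : t ∈ Θ) : cut (co (p n) (i + 1) α) α t ∈ (p n).T (i + 1) α := by
  obtain ⟨a, ha, f, hf, rfl⟩ := hΘ.vld t ht
  obtain ⟨m, hm, s, hs, h1, h2⟩ := hf.T α ⟨n, hα⟩
  have h3 : s ∈ (p n).T (i + 1) α := by rw [h.mT' hm hα]; exact hs
  have h4 : Agr (co (p n) i α) α a s := by rw [h.mco' (h.iJ hm).2 (h.iJ hα).2]; exact h1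
  have h5 := h.agr_thr hα h3 h4 (fun x hx => (h2 x hx).symm)
  rw [cut_of_agr h5, (h.core1 n).Ts α hα s h3]
  exact h3

theorem H.topC {El : Set (Ord × Thr)} {Θ : Set Thr} (hΘ : h.TH El Θ) : TopC qi (i + 1) p δ (WW' N i) Θ where
  lim := h.hN.lim
  lt := h.δ1
  ab n α hα := h.ltδ hα
  Wc := by
    refine ((h.qcore.uc δ h.hq.C).insert i).mono ?_
    intro z hz
    exact h.memW.1 hz
  Wlt z hz := hz.1
  Wcl z hz h0 hw := by
    refine ⟨hz, Or.inr ⟨h0, fun w hwz => ?_⟩⟩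
    obtain ⟨v, hv, h1, h2⟩ := hw w hwz
    rcases hv.2 with h3 | ⟨_, h3⟩
    · exact ⟨v, h3, h1, h2⟩
    · obtain ⟨v', h4, h5, h6⟩ := h3 w h1
      exact ⟨v', h4, h5, h6.trans h2⟩
  W0 h0 := by
    refine ⟨h0, Or.inl ((h.hN.ord 0 ?_).2 ?_)⟩
    · exact lt_of_le_of_lt zero_le h.δ1
    · exact h.hN.lim.bot_lt
  Ws k hk := by
    rcases hk with hk | hk
    · refine ⟨(lt_i k).trans hk.1, ?_⟩
      rcases hk.2 with h1 | ⟨_, h1⟩
      · exact Or.inl ((h.hN.succ k).2 h1)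
      · obtain ⟨v, _, h3, h4⟩ := h1 k (lt_i k)
        exact absurd (Order.lt_add_one_iff.1 h4) (not_le_of_gt h3)
    · have : k = i := Order.add_one_inj.1 hk
      rw [this]; exact ⟨lt_i i, Or.inl h.hi⟩
  Θc := hΘ.cnt
  Θn := by
    obtain ⟨a, ha⟩ := h.qcore.Tn δ h.hq.C
    obtain ⟨z, hz, _⟩ := hΘ.e2 a ha
    exact ⟨z, hz⟩
  Θs t ht := by
    obtain ⟨a, ha, f, hf, rfl⟩ := hΘ.vld t ht
    exact h.thr_ts ha f (fun z => Iff.rfl)
  L1J z hz := by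
    rcases h.memW.1 hz with rfl | h1
    · exact ⟨h.hq.J, h.hq.C⟩
    · exact h.qcore.L1J δ h.hq.C z h1
  L1u z hz := by
    rcases h.memW.1 hz with rfl | h1
    · ext w
      rw [h.hq.u]
      constructor
      · rintro ⟨h1, h2⟩; exact ⟨⟨h1.trans (lt_i _), h2⟩, h1⟩
      · rintro ⟨⟨_, h2⟩, h3⟩; exact ⟨h3, h2⟩
    · rw [h.qcore.L1u δ h.hq.C z h1]
      have hzi := h.qcore.ult δ h.hq.C z h1
      ext w
      constructor
      · rintro ⟨h2, h3⟩; exact ⟨h.memW.2 (Or.inr h2), h3⟩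
      · rintro ⟨h2, h3⟩
        rcases h.memW.1 h2 with rfl | h4
        · exact absurd h3 (not_lt_of_gt hzi)
        · exact ⟨h4, h3⟩
  L1T z hz := by
    have key : qi.T i δ = below i '' Θ := by
      ext a
      constructor
      · intro ha
        obtain ⟨z, hz, h1⟩ := hΘ.e2 a ha
        exact ⟨z, hz, h1⟩
      · rintro ⟨z, hz, rfl⟩
        obtain ⟨a, ha, f, hf, rfl⟩ := hΘ.vld z hz
        rw [h.below_thr ha]; exact ha
    rcases h.memW.1 hz with rfl | h1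
    · exact key
    · rw [h.qcore.L1T δ h.hq.C z h1, key, image_image]
      have hzi := h.qcore.ult δ h.hq.C z h1
      refine image_congr fun t _ => below_below hzi.le t
  L2u n α hα z hz := by
    refine ⟨(h.core1 n).ult α hα z hz, Or.inl ?_⟩
    exact h.hN.u (p n) (i + 1) (h.hp.mem n) (h.hp.A n) _ (h.Jn n) α hα z hz
  L2 n α hα t ht := h.thr_L2 hΘ hα ht
  L3 n α hα x hx t ht z hz hag := by
    rcases eq_or_lt_of_le hx with rfl | hx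
    · refine ⟨z, hz, ?_, rfl⟩
      exact hag.mono (fun k hk => ⟨hk, co_lt hk⟩) le_rfl
    · have hx' : x ≤ i := Order.lt_add_one_iff.1 hx
      obtain ⟨a, ha, f, hf, rfl⟩ := hΘ.vld z hz
      have h1 : below i t ∈ qi.T i α := by
        rw [h.qT (h.iJ hα).2, (h.core1 n).L1T α hα i (h.iu hα)]; exact mem_image_of_mem _ ht
      obtain ⟨a', ha', h2, h3⟩ := h.qcore.L3 α (h.qC (h.iJ hα).2) δ h.hq.C (h.ltδ hα) x hx' _ h1 a ha (by
        rintro k ⟨hk, hkx⟩ ξ hξ l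
        rw [h.qco (h.iJ hα).2] at hk
        have h4 := hag k ⟨(h.co1 hα).2 (Or.inl hk), hkx⟩ ξ hξ l
        rw [thr_lt (co_lt hk)] at h4
        rw [below_of_lt (co_lt hk)]; exact h4)
      have h4 : Agr (co (p n) i α) α a' t := by
        rw [h.qco (h.iJ hα).2] at h2
        exact h2.trans (SD.agr_below (fun _ hk => co_lt hk) _ _)
      obtain ⟨z', hz', h5, h6, _⟩ := hΘ.e1 n α hα t ht a' ha' h4 [] (by simp)
      refine ⟨z', hz', h6, ?_⟩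
      rw [← below_below hx' z', h5, h3, ← below_below hx' (thr i δ a f), h.below_thr ha]

/-- The new condition. -/
noncomputable def MM (N : Set U) (i : Ord) (p : ℕ → Cond) (qi : Cond) (δ : Ord) (Θ : Set Thr) : Cond :=
  mkTop qi (i + 1) p δ (WW' N i) Θ

omit h in
theorem MM_C1 {Θ : Set Thr} : (MM N i p qi δ Θ).C (i + 1) = insert δ (⋃ n, (p n).C (i + 1)) := by
  simp [MM, mkTop]

omit h in
theorem MM_T1δ {Θ : Set Thr} : (MM N i p qi δ Θ).T (i + 1) δ = Θ := by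
  simp [MM, mkTop]

omit h in
theorem MM_u1δ {Θ : Set Thr} : (MM N i p qi δ Θ).u (i + 1) δ = WW' N i := by
  simp [MM, mkTop]

omit h in
theorem MM_Pr1 {Θ : Set Thr} : (MM N i p qi δ Θ).Pr (i + 1) = ⋃ n, (p n).Pr (i + 1) := by
  simp [MM, mkTop]

omit h in
theorem MM_F1 {Θ : Set Thr} : (MM N i p qi δ Θ).F (i + 1) = ⋃ n, (p n).F (i + 1) := by
  simp [MM, mkTop]

theorem H.MM_T1 {Θ : Set Thr} {n : ℕ} {α : Ord} (hα : α ∈ (p n).C (i + 1)) :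
    (MM N i p qi δ Θ).T (i + 1) α = (p n).T (i + 1) α := by
  have h1 : (MM N i p qi δ Θ).T (i + 1) α = ⋃ n, (p n).T (i + 1) α := by
    simp [MM, mkTop, (h.ltδ hα).ne]
  rw [h1]
  ext t
  constructor
  · intro ht
    obtain ⟨m, hm⟩ := mem_iUnion.1 ht
    by_cases h2 : α ∈ (p m).C (i + 1)
    · rw [h.mT' h2 hα]; exact hm
    · rw [(h.hp.A m).1.T _ _ h2] at hm; exact absurd hm (notMem_empty t)
  · intro ht; exact mem_iUnion.2 ⟨n, ht⟩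

theorem H.MM_u1 {Θ : Set Thr} {n : ℕ} {α : Ord} (hα : α ∈ (p n).C (i + 1)) :
    (MM N i p qi δ Θ).u (i + 1) α = (p n).u (i + 1) α := by
  have h1 : (MM N i p qi δ Θ).u (i + 1) α = ⋃ n, (p n).u (i + 1) α := by
    simp [MM, mkTop, (h.ltδ hα).ne]
  rw [h1]
  ext t
  constructor
  · intro ht
    obtain ⟨m, hm⟩ := mem_iUnion.1 ht
    by_cases h2 : α ∈ (p m).C (i + 1)
    · rw [h.mu' h2 hα]; exact hm
    · rw [(h.hp.A m).1.u _ _ h2] at hm; exact absurd hm (notMem_empty t)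
  · intro ht; exact mem_iUnion.2 ⟨n, ht⟩

theorem H.MM_co1 {Θ : Set Thr} {n : ℕ} {α : Ord} (hα : α ∈ (p n).C (i + 1)) :
    co (MM N i p qi δ Θ) (i + 1) α = co (p n) (i + 1) α := by
  unfold co; rw [h.MM_u1 hα]

omit h in
theorem MM_Ti {Θ : Set Thr} {α : Ord} : (MM N i p qi δ Θ).T i α = qi.T i α := by
  simp [MM, mkTop, (lt_i i).ne]

omit h in
theorem MM_coi {Θ : Set Thr} {α : Ord} : co (MM N i p qi δ Θ) i α = co qi i α := by
  unfold co; simp [MM, mkTop, (lt_i i).ne]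

theorem H.MM_res {Θ : Set Thr} : (MM N i p qi δ Θ).res i = qi := by
  have h0 : qi.res i = qi := res_self h.hq.A.1 (fun j hj => A.le h.hq.A hj)
  have hne : ∀ {j : Ord}, j ≤ i → j ≠ i + 1 := fun {j} hj => (lt_of_le_of_lt hj (lt_i i)).ne
  rw [← h0]
  ext1
  · ext j
    constructor
    · rintro ⟨h1, h2⟩
      rcases h1 with h1 | h1
      · exact absurd h1 (hne h2)
      · exact ⟨h0 ▸ h1, h2⟩
    · rintro ⟨h1, h2⟩
      exact ⟨Or.inr (h0.symm ▸ h1), h2⟩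
  · funext j
    by_cases hj : j ≤ i
    · rw [res_C _ _ hj, res_C _ _ hj]; simp [MM, mkTop, hne hj, h0]
    · rw [res_C' _ _ hj, res_C' _ _ hj]
  · funext j
    by_cases hj : j ≤ i
    · rw [res_u _ _ hj, res_u _ _ hj]; funext α; simp [MM, mkTop, hne hj, h0]
    · funext α; rw [res_u' _ _ hj, res_u' _ _ hj]
  · funext j
    by_cases hj : j ≤ i
    · rw [res_T _ _ hj, res_T _ _ hj]; funext α; simp [MM, mkTop, hne hj, h0]
    · funext α; rw [res_T' _ _ hj, res_T' _ _ hj]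
  · funext j
    by_cases hj : j ≤ i
    · rw [res_F _ _ hj, res_F _ _ hj]; simp [MM, mkTop, hne hj, h0]
    · rw [res_F' _ _ hj, res_F' _ _ hj]
  · funext j
    by_cases hj : j ≤ i
    · rw [res_Pr _ _ hj, res_Pr _ _ hj]; simp [MM, mkTop, hne hj, h0]
    · rw [res_Pr' _ _ hj, res_Pr' _ _ hj]

theorem H.memC1 {Θ : Set Thr} {α : Ord} (hα : α ∈ (MM N i p qi δ Θ).C (i + 1)) :
    α = δ ∨ ∃ n, α ∈ (p n).C (i + 1) := by
  rw [MM_C1] at hα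
  rcases hα with h1 | h1
  · exact Or.inl h1
  · exact Or.inr (mem_iUnion.1 h1)

/-- Conditions below a node of a level of the sequence, over `qi`. -/
theorem H.lowle {n : ℕ} {α : Ord} (hα : α ∈ (p n).C i) {s : Thr} (hs : s ∈ (p n).T i α) {c : Cnd} (hc : c ∈ PP o i)
    (hle : KLe o c ⟨qi, i, α, s⟩) : KLe o c ⟨(p n).res i, i, α, s⟩ := by
  have h1 : (⟨qi, i, α, s⟩ : Cnd) ∈ PP o i := ⟨rfl, h.hq.A, h.hq.J, h.qC hα, by rw [h.qT hα]; exact hs⟩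
  refine KLe.trans hc h1 (h.sP hα hs) hle ⟨h.hle n, le_rfl, Or.inl rfl, Agr.refl _ _ _⟩

theorem H.belowT {n : ℕ} {α : Ord} (hα : α ∈ (p n).C (i + 1)) {s : Thr} (hs : s ∈ (p n).T (i + 1) α) :
    below i s ∈ (p n).T i α := by
  rw [(h.core1 n).L1T α hα i (h.iu hα)]; exact mem_image_of_mem _ hs

theorem H.legspec {El : Set (Ord × Thr)} {Θ : Set Thr} (hΘ : h.TH El Θ) :
    LegSpec o (PP o i) (MM N i p qi δ Θ) i r B g where
  z0 := by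
    intro α hα t ht ξ l hξ
    rcases h.memC1 hα with rfl | ⟨n, hn⟩
    · rw [MM_T1δ] at ht
      obtain ⟨a, ha, f, hf, rfl⟩ := hΘ.vld t ht
      exact thr_ns hξ l
    · rw [h.MM_T1 hn] at ht
      exact (h.spec n).z0 α hn t ht ξ l hξ
  inc := by
    intro α hα t ht c hc hle R hR x y hx hy hxy hne
    rw [h.MM_res] at hle
    rcases h.memC1 hα with rfl | ⟨n, hn⟩
    · rw [MM_T1δ] at ht
      obtain ⟨a, ha, f, hf, rfl⟩ := hΘ.vld t ht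
      rw [h.below_thr ha] at hle
      obtain ⟨b, hb, hab, hRR, _⟩ := h.decc ha hc hle hR
      rw [hv_thr hx, hv_thr hy]
      exact hf.inc ⟨b, hb, hab⟩ x y hx hy ((hRR x y hx.le hy.le).1 hxy) hne
    · rw [h.MM_T1 hn] at ht
      exact (h.spec n).inc α hn t ht c hc (h.lowle (h.iJ hn).2 (h.belowT hn ht) hc hle) R hR x y hx hy hxy hne
  bd := by
    intro α hα t ht c hc hle R hR k
    rw [h.MM_res] at hle
    rcases h.memC1 hα with rfl | ⟨n, hn⟩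
    · rw [MM_T1δ] at ht
      obtain ⟨a, ha, f, hf, rfl⟩ := hΘ.vld t ht
      rw [h.below_thr ha] at hle
      obtain ⟨b, hb, hab, hRR, _⟩ := h.decc ha hc hle hR
      obtain ⟨v, hv⟩ := hf.bd ⟨b, hb, hab⟩ k
      refine ⟨v, hv_sat.2 (Sat.congr (fun x hx hxy => ?_) (fun _ _ => rfl) hv)⟩
      exact (hRR x _ (le_of_lt hx) le_rfl).1 hxy
    · rw [h.MM_T1 hn] at ht
      exact (h.spec n).bd α hn t ht c hc (h.lowle (h.iJ hn).2 (h.belowT hn ht) hc hle) R hR k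
  sep := by
    intro α₀ hα₀ α hα hlt z₀ hz₀ a ha hag c hc hle R hR k y v hv
    rw [h.MM_res] at hle
    rw [MM_Ti] at ha
    rw [MM_coi] at hag
    rcases h.memC1 hα₀ with rfl | ⟨n, hn⟩
    · rcases h.memC1 hα with rfl | ⟨m, hm⟩
      · exact absurd hlt (lt_irrefl _)
      · exact absurd (h.ltδ hm) (not_lt_of_gt hlt)
    rw [h.MM_co1 hn]
    rw [h.MM_T1 hn] at hz₀
    rw [h.qco (h.iJ hn).2] at hag
    rcases h.memC1 hα with rfl | ⟨m, hm⟩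
    · obtain ⟨b, hb, hab, hRR, _⟩ := h.decc ha hc hle hR
      obtain ⟨z, hz, h1, h2, h3⟩ := hΘ.e1 n α₀ hn z₀ hz₀ a ha hag (List.ofFn fun l => (b, y l, v l)) (by
        intro e he
        obtain ⟨l, rfl⟩ := (List.mem_ofFn' _ _).1 he
        refine ⟨⟨hb, hab⟩, Sat.congr (fun x hx hxy => ?_) (fun _ _ => rfl) (hv l)⟩
        exact (hRR x _ (hx.trans hlt).le le_rfl).2 hxy)
      rw [MM_T1δ]
      refine ⟨z, hz, h1, h2, fun l => ?_⟩
      have h4 := h3 (b, y l, v l) ((List.mem_ofFn' _ _).2 ⟨l, rfl⟩)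
      refine Sat.congr (fun x hx hxy => ?_) (fun _ _ => rfl) h4
      exact (hRR x _ (le_of_lt hx) le_rfl).1 hxy
    · obtain ⟨M, hM1, hM2⟩ : ∃ M, n ≤ M ∧ m ≤ M := ⟨max n m, le_max_left _ _, le_max_right _ _⟩
      have h1 := h.mC hM1 hn
      have h2 := h.mC hM2 hm
      rw [h.MM_T1 h2]
      have h3 : a ∈ (p M).T i α := by rw [← h.qT (h.iJ h2).2]; exact ha
      have h4 := (h.spec M).sep α₀ h1 α h2 hlt z₀ (by rw [h.mT hM1 hn]; exact hz₀) a h3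
        (by rw [h.mco' (h.iJ hn).2 (h.iJ h1).2]; exact hag) c hc (h.lowle (h.iJ h2).2 h3 hc hle) R hR k y v hv
      rw [h.mco hM1 hn] at h4
      exact h4
  Pr := by
    intro e he
    rw [MM_Pr1] at he
    obtain ⟨n, hn⟩ := mem_iUnion.1 he
    have h1 := (h.spec n).Pr e hn
    refine ⟨?_, ?_, h1.2.2⟩
    · rw [MM_C1]; exact Or.inr (mem_iUnion.2 ⟨n, h1.1⟩)
    · rw [h.MM_T1 h1.1]; exact h1.2.1
  prom := by
    intro e he α hα hlv z hz hag c hc hle R hR Y hY fi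
    rw [MM_Pr1] at he
    obtain ⟨n, hn⟩ := mem_iUnion.1 he
    have hPr := (h.spec n).Pr e hn
    rw [h.MM_res] at hle
    rw [h.MM_co1 hPr.1] at hag
    rcases h.memC1 hα with rfl | ⟨m, hm⟩
    · rw [MM_T1δ] at hz
      obtain ⟨a, ha, f, hf, rfl⟩ := hΘ.vld z hz
      rw [h.below_thr ha] at hle
      obtain ⟨b, hb, hab, hRR, c', hc', h1, h2⟩ := h.decc ha hc hle hR
      have hκ := h.prL hn
      have hπ : Agr (co (p n) i e.1) e.1 a e.2.1 := by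
        intro k hk ξ hξ l
        have h3 := hag k ((h.co1 hPr.1).2 (Or.inl hk)) ξ hξ l
        rw [thr_lt (co_lt hk)] at h3; exact h3
      obtain ⟨y, hy, hy1, hy2⟩ := hf.prom ⟨e, n, hn, hπ⟩ (by
        intro x hx
        have h3 := hag i ((h.co1 hPr.1).2 (Or.inr rfl)) (x.1 + 1) (Order.add_one_le_of_lt hx) x.2
        rw [thr_succ (Order.add_one_le_of_lt (lt_of_lt_of_le hx hlv))] at h3
        exact h3) ⟨b, hb, hab⟩ fi
      have hYY : Y = YY o i (g e.2.2) qi β α b := DecG.agree hc' (hY.mono Subset.rfl hc hc' h1)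
        ((h.decG hκ.2 hκ.1 hb).mono Subset.rfl (h.iP hb) hc' h2)
      refine ⟨y, by rw [hYY]; exact hy, hy1, fun l => hv_sat.2 ?_⟩
      refine Sat.congr (fun x hx hxy => ?_) (fun _ _ => rfl) (hy2 l)
      exact (hRR x _ (le_of_lt hx) le_rfl).1 hxy
    · obtain ⟨M, hM1, hM2⟩ : ∃ M, n ≤ M ∧ m ≤ M := ⟨max n m, le_max_left _ _, le_max_right _ _⟩
      have h2 := h.mC hM2 hm
      rw [h.MM_T1 h2] at hz
      refine (h.spec M).prom e (h.mPr hM1 hn) α h2 hlv z hz ?_ c hc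
        (h.lowle (h.iJ h2).2 (h.belowT h2 hz) hc hle) R hR Y hY fi
      rw [h.mco hM1 hPr.1]; exact hag
  F0 := by
    rw [MM_F1]
    simp only [iUnion_eq_empty]
    intro n; exact (h.spec n).F0

theorem H.main (htop : St_top) (htc : St_tc) (htcx : St_tcx) (htc0 : St_tc0) {El : Set (Ord × Thr)}
    (hEl : ∀ n, ∀ α ∈ (p n).C (i + 1), ∀ s ∈ (p n).T (i + 1) α, ∀ a ∈ qi.T i δ, Agr (co (p n) i α) α a s →
      ∀ K : List (Thr × ℕ × ℚ), (∀ e ∈ K, e.1 ∈ qi.T i β ∧ Agr (co qi i δ) δ e.1 a ∧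
        ∀ R, Dec o (PP o i) r ⟨qi, i, β, e.1⟩ δ R → Sat R (hv i s) α (δ, e.2.1) e.2.2) →
      ∃ n', ∃ α' ∈ (p n').C (i + 1), α ≤ α' ∧ ∃ s' ∈ (p n').T (i + 1) α',
        Agr (co (p n) (i + 1) α) α s' s ∧ Agr (co (p n') i α') α' a s' ∧ (α', s') ∈ El ∧
        ∀ e ∈ K, ∀ R, Dec o (PP o i) r ⟨qi, i, β, e.1⟩ δ R → Sat R (hv i s') α' (δ, e.2.1) e.2.2) :
    ∃ q, GoodQ o N δ gs (i + 1) q ∧ (∀ n, CLe o q (p n)) ∧ q.res i = qi ∧ (∀ α ∈ q.C (i + 1), α ≤ δ) ∧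
      (El = Set.univ → XS o δ p q i) ∧
      ((∃ n, ((p n).C (i + 1)).Nonempty) → ∀ z ∈ q.T (i + 1) δ, ∃ n, ∃ α' ∈ (p n).C (i + 1),
        ∃ s' ∈ (p n).T (i + 1) α', (α', s') ∈ El ∧ Agr (co (p n) (i + 1) α') α' z s') := by
  obtain ⟨Θ, hΘ⟩ := h.exΘ htc htcx htc0 hEl
  obtain ⟨_, h2⟩ := htop o Prot h.hl (i + 1) p qi δ (WW' N i) Θ h.hp.A h.hp.dec h.hJ
    (A.mono (lt_i i).le h.hq.A) (fun j hj => lt_of_le_of_lt (A.le h.hq.A hj) (lt_i i))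
    (fun n x hx => by
      have hx' : x ≤ i := Order.lt_add_one_iff.1 hx
      have h3 := CLe.self_res (o := o) ((p n).res i) x
      rw [res_res _ hx'] at h3
      exact CLe.trans (nrm_res (h.hp.A n).1 x) (h.hle n) h3) (h.topC hΘ)
  obtain ⟨hA, _, hC, hres, hCLe⟩ := h2 (by
    intro k hk
    have hki : k = i := Order.add_one_inj.1 hk
    subst hki
    unfold LegOpt
    simp only [h.ho]
    exact h.legspec hΘ)
  have hMi : (MM N i p qi δ Θ).res i = qi := h.MM_res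
  refine ⟨MM N i p qi δ Θ, ⟨hA, ?_, ?_, ?_, ?_⟩, ?_, hMi, ?_, ?_, ?_⟩
  · exact Or.inl rfl
  · rw [MM_C1]; exact Or.inl rfl
  · rw [MM_u1δ]; rfl
  · intro t ht γ hγ hγN hγo
    rw [MM_T1δ] at ht
    obtain ⟨a, ha, f, hf, rfl⟩ := hΘ.vld t ht
    rcases eq_or_lt_of_le (Order.lt_add_one_iff.1 hγ) with h3 | h3
    · rw [h3, h.ho] at hγo; exact absurd hγo (by simp)
    · rw [thr_lt h3]; exact h.hq.mks a ha γ h3 hγN hγo
  · refine hCLe ?_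
    intro k γ hk hko
    have hki : k = i := Order.add_one_inj.1 hk
    rw [hki, h.ho] at hko; exact absurd hko (by simp)
  · intro α hα
    rcases h.memC1 hα with h3 | ⟨n, hn⟩
    · exact h3.le
    · exact (h.ltδ hn).le
  · intro hu am ham hmax hconst r' B' g' ho' z₁ hz₁ a ha hag e he
    rw [h.ho] at ho'
    obtain ⟨rfl, rfl, rfl⟩ := Opt.spec.inj ho'
    rw [MM_Ti] at ha
    obtain ⟨z, hz, h3, h4, h5⟩ := hΘ.e3 hu 0 am ham (by
      rintro α ⟨n, hn⟩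
      rw [hconst n] at hn; exact hmax α hn) z₁ hz₁ a ha hag e he
    rw [MM_T1δ, hMi]
    refine ⟨z, hz, h3, h4, fun c hc hle R hR k v hv => ?_⟩
    obtain ⟨b, hb, hab, hRR, _⟩ := h.decc ha hc hle hR
    have hamδ := h.ltδ ham
    have h6 := h5 b hb hab k v (Sat.congr (fun x hx hxy => (hRR x _ (hx.trans hamδ).le le_rfl).2 hxy)
      (fun _ _ => rfl) hv)
    exact Sat.congr (fun x hx hxy => (hRR x _ (le_of_lt hx) le_rfl).1 hxy) (fun _ _ => rfl) h6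
  · rw [MM_T1δ]
    exact hΘ.el

end HH

end

/-- TopP. -/
theorem job_topP (h1 : St_top) (h2 : St_tc) (h3 : St_tcx) (h4 : St_tc0) (_h5 : St_uni) : St_topP := by
  intro o Prot hl i _ r B g ho N δ gs hN _ hi p hp hJ hG qi hq hle β hβ hδβ hdec El hEl
  have h : H o Prot i r B g N δ gs p qi β := ⟨hl, ho, hN, hi, hp, hJ, hG, hq, hle, hβ, hδβ, hdec⟩
  exact h.main h1 h2 h3 h4 hEl

end Pool.Agent.Helper919.SD.TtopP
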