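import Pool.Agent.Helper919_SDT.Stmts

set_option autoImplicit false

/-!
# Unions and births
-/

namespace Pool.Agent.Helper919.SD.Tuni

open Ordinal Cardinal Set
open Pool.Agent.Helper919.SD

variable {o : Ord → Opt} {Prot : Set Ord}

/-- Replacing the condition of the lower element of the order by a weaker one. -/
theorem KLe_down {p q : Cond} {i α : Ord} {s : Thr} {c : Cnd} (hp : Nrm p) (hi : i ∈ p.J) (hα : α ∈ p.C i)
    (hq : CLe o q p) (h : KLe o c ⟨q, i, α, s⟩) : KLe o c ⟨p, i, α, s⟩ := by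
  refine ⟨h.p.trans hp hq, h.α, h.j, ?_⟩
  have h1 := h.t
  have h2 : co q i α = co p i α := hq.co_eq hi hα
  change Agr (co q i α) α c.t s at h1
  change Agr (co p i α) α c.t s
  rw [h2] at h1
  exact h1

theorem LegCore.up {p q : Cond} {j : Ord} (h : LegCore p j) (hq : CLe o q p)
    (hC : q.C j = p.C j) (hu : q.u j = p.u j) (hT : q.T j = p.T j) (hF : q.F j = p.F j)
    (hPr : q.Pr j = p.Pr j) : LegCore q j := by
  have hco : co q j = co p j := by funext α; simp [co, hu]
  constructor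
  · rw [hC]; exact h.Cc
  · rw [hC]; exact h.Clim
  · rw [hC]; exact h.Clt
  · rw [hC, hu]; exact h.uc
  · rw [hC, hu]; exact h.ult
  · rw [hC, hu]; exact h.ucl
  · rw [hC, hu]; exact h.u0
  · rw [hC, hu]; exact h.us
  · rw [hC, hT]; exact h.Tc
  · rw [hC, hT]; exact h.Tn
  · rw [hC, hT, hco]; exact h.Ts
  · rw [hC, hu]
    intro α hα z hz
    obtain ⟨h1, h2⟩ := h.L1J α hα z hz
    exact ⟨hq.J h1, hq.C z h1 h2⟩
  · rw [hC, hu]
    intro α hα z hz
    obtain ⟨h1, h2⟩ := h.L1J α hα z hz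
    rw [hq.u z h1 α h2]; exact h.L1u α hα z hz
  · rw [hC, hu, hT]
    intro α hα z hz
    obtain ⟨h1, h2⟩ := h.L1J α hα z hz
    rw [hq.T z h1 α h2]; exact h.L1T α hα z hz
  · rw [hC, hu]; exact h.L2u
  · rw [hC, hT, hco]; exact h.L2
  · rw [hC, hT, hco]; exact h.L3
  · rw [hF]; exact h.Fc
  · rw [hF]; exact h.Flt
  · rw [hPr]; exact h.Prc

theorem LegOpt.up {P : Set Cnd} {p q : Cond} {i : Ord} (hp : Nrm p) (hcore : LegCore p (i + 1))
    (h : LegOpt o P p i) (hq : CLe o q p)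
    (hC : q.C (i + 1) = p.C (i + 1)) (hu : q.u (i + 1) = p.u (i + 1)) (hT : q.T (i + 1) = p.T (i + 1))
    (hF : q.F (i + 1) = p.F (i + 1)) (hPr : q.Pr (i + 1) = p.Pr (i + 1)) : LegOpt o P q i := by
  have hrec : ∀ α ∈ p.C (i + 1), i ∈ p.J ∧ α ∈ p.C i := fun α hα =>
    hcore.L1J α hα i (hcore.us α hα i (Or.inr rfl))
  have hco1 : co q (i + 1) = co p (i + 1) := by funext α; simp [co, hu]
  have hdown : ∀ α ∈ p.C (i + 1), ∀ (s : Thr) (c : Cnd), KLe o c ⟨q.res i, i, α, s⟩ →
      KLe o c ⟨p.res i, i, α, s⟩ := by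
    intro α hα s c hc
    obtain ⟨h1, h2⟩ := hrec α hα
    refine KLe_down (nrm_res hp i) ⟨h1, le_rfl⟩ ?_ (hq.res i) hc
    rw [res_C _ _ le_rfl]; exact h2
  unfold LegOpt at h ⊢
  cases ho : o i with
  | coh =>
    simp only [ho] at h ⊢
    exact ⟨by rw [hC, hT]; exact h.v01, by rw [hC, hT, hF]; exact h.F1, by rw [hPr]; exact h.Pr0⟩
  | kill γ =>
    simp only [ho] at h ⊢
    refine ⟨by rw [hC, hu]; exact h.rg, by rw [hC, hT]; exact h.v01, by rw [hC, hT]; exact h.top,
      by rw [hC, hT]; exact h.cl, by rw [hC, hT]; exact h.sub, ?_,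
      by rw [hF]; exact h.F0, by rw [hPr]; exact h.Pr0⟩
    rw [hC]
    intro ζ hζ
    have h1 := h.K ζ hζ
    have h2 : γ + 1 ∈ p.J := by
      by_contra hcon
      rw [hp.F _ hcon] at h1
      exact h1
    exact hq.F _ h2 h1
  | spec r B g =>
    simp only [ho] at h ⊢
    refine ⟨by rw [hC, hT]; exact h.z0, ?_, ?_, ?_, by rw [hPr, hC, hT]; exact h.Pr, ?_,
      by rw [hF]; exact h.F0⟩
    · rw [hC, hT]
      intro α hα t ht c hc hle
      exact h.inc α hα t ht c hc (hdown α hα _ c hle)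
    · rw [hC, hT]
      intro α hα t ht c hc hle
      exact h.bd α hα t ht c hc (hdown α hα _ c hle)
    · rw [hC, hT, hco1]
      intro α₀ hα₀ α hα hlt z₀ hz₀ a ha hag c hc hle
      obtain ⟨h1, h2⟩ := hrec α hα
      obtain ⟨_, h3⟩ := hrec α₀ hα₀
      rw [hq.T i h1 α h2] at ha
      rw [hq.co_eq h1 h3] at hag
      exact h.sep α₀ hα₀ α hα hlt z₀ hz₀ a ha hag c hc (hdown α hα _ c hle)
    · rw [hPr, hC, hT, hco1]
      intro e he α hα hle' z hz hag c hc hle
      exact h.prom e he α hα hle' z hz hag c hc (hdown α hα _ c hle)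

/-- Legality at an index passes to stronger conditions with the same data at this index. -/
theorem Leg.up {p q : Cond} {j : Ord} (hp : Nrm p) (h : Leg o j p) (hq : CLe o q p)
    (hC : q.C j = p.C j) (hu : q.u j = p.u j) (hT : q.T j = p.T j) (hF : q.F j = p.F j)
    (hPr : q.Pr j = p.Pr j) : Leg o j q := by
  rw [Leg_iff] at h ⊢
  refine ⟨LegCore.up h.1 hq hC hu hT hF hPr, ?_, ?_⟩
  · intro hj; rw [hF, hPr]; exact h.2.1 hj
  · rintro i rfl
    exact LegOpt.up hp h.1 (h.2.2 i rfl) hq hC hu hT hF hPr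

section

variable {x y : Ord} {p r : Cond}

theorem uni_J {j : Ord} : j ∈ (r.uni p).J ↔ j ∈ r.J ∨ j ∈ p.J := Iff.rfl
theorem uni_C {j : Ord} (h : j ∈ r.J) : (r.uni p).C j = r.C j := by simp [Cond.uni, h]
theorem uni_u {j : Ord} (h : j ∈ r.J) : (r.uni p).u j = r.u j := by funext α; simp [Cond.uni, h]
theorem uni_T {j : Ord} (h : j ∈ r.J) : (r.uni p).T j = r.T j := by funext α; simp [Cond.uni, h]
theorem uni_F {j : Ord} (h : j ∈ r.J) : (r.uni p).F j = r.F j := by simp [Cond.uni, h]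
theorem uni_Pr {j : Ord} (h : j ∈ r.J) : (r.uni p).Pr j = r.Pr j := by simp [Cond.uni, h]
theorem uni_C' {j : Ord} (h : j ∉ r.J) : (r.uni p).C j = p.C j := by simp [Cond.uni, h]
theorem uni_u' {j : Ord} (h : j ∉ r.J) : (r.uni p).u j = p.u j := by funext α; simp [Cond.uni, h]
theorem uni_T' {j : Ord} (h : j ∉ r.J) : (r.uni p).T j = p.T j := by funext α; simp [Cond.uni, h]
theorem uni_F' {j : Ord} (h : j ∉ r.J) : (r.uni p).F j = p.F j := by simp [Cond.uni, h]
theorem uni_Pr' {j : Ord} (h : j ∉ r.J) : (r.uni p).Pr j = p.Pr j := by simp [Cond.uni, h]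

/-- The data of the union at the indices `≤ x`. -/
theorem uni_low (hp : Nrm p) (hr : Nrm r) (hle : CLe o r (p.res x)) {j : Ord} (hj : j ≤ x) :
    (j ∈ (r.uni p).J ↔ j ∈ r.J) ∧ (r.uni p).C j = r.C j ∧ (r.uni p).u j = r.u j ∧
    (r.uni p).T j = r.T j ∧ (r.uni p).F j = r.F j ∧ (r.uni p).Pr j = r.Pr j := by
  by_cases h : j ∈ r.J
  · exact ⟨⟨fun _ => h, fun _ => Or.inl h⟩, uni_C h, uni_u h, uni_T h, uni_F h, uni_Pr h⟩
  · have hp' : j ∉ p.J := fun h' => h (hle.J ⟨h', hj⟩)
    have h1 : p.C j = ∅ := hp.C j hp'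
    have h2 : r.C j = ∅ := hr.C j h
    refine ⟨⟨fun h' => ?_, fun h' => absurd h' h⟩, ?_, ?_, ?_, ?_, ?_⟩
    · rcases h' with h' | h'
      · exact h'
      · exact absurd h' hp'
    · rw [uni_C' h, h1, h2]
    · rw [uni_u' h]
      funext α
      rw [hp.u j α (by rw [h1]; exact notMem_empty α), hr.u j α (by rw [h2]; exact notMem_empty α)]
    · rw [uni_T' h]
      funext α
      rw [hp.T j α (by rw [h1]; exact notMem_empty α), hr.T j α (by rw [h2]; exact notMem_empty α)]
    · rw [uni_F' h, hp.F j hp', hr.F j h]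
    · rw [uni_Pr' h, hp.Pr j hp', hr.Pr j h]

theorem uni_le (hl : Legit o Prot) (hr : ∀ j ∈ r.J, j ≤ x) (hle : CLe o r (p.res x)) :
    CLe o (r.uni p) p where
  J j hj := Or.inr hj
  C j hj := by
    by_cases h : j ∈ r.J
    · have h1 := hle.C j ⟨hj, hr j h⟩
      rw [res_C _ _ (hr j h)] at h1
      rw [uni_C h]; exact h1
    · rw [uni_C' h]
  ee j hj α h1 h2 := by
    by_cases h : j ∈ r.J
    · have h3 := hle.ee j ⟨hj, hr j h⟩
      rw [res_C _ _ (hr j h)] at h3
      rw [uni_C h] at h1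
      exact h3 α h1 h2
    · rw [uni_C' h] at h1
      exact absurd h1 h2
  u j hj α hα := by
    by_cases h : j ∈ r.J
    · have h3 := hle.u j ⟨hj, hr j h⟩ α
      rw [res_C _ _ (hr j h), res_u _ _ (hr j h)] at h3
      rw [uni_u h]; exact h3 hα
    · rw [uni_u' h]
  T j hj α hα := by
    by_cases h : j ∈ r.J
    · have h3 := hle.T j ⟨hj, hr j h⟩ α
      rw [res_C _ _ (hr j h), res_T _ _ (hr j h)] at h3
      rw [uni_T h]; exact h3 hα
    · rw [uni_T' h]
  F j hj := by
    by_cases h : j ∈ r.J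
    · have h1 := hle.F j ⟨hj, hr j h⟩
      rw [res_F _ _ (hr j h)] at h1
      rw [uni_F h]; exact h1
    · rw [uni_F' h]
  Pr j hj := by
    by_cases h : j ∈ r.J
    · have h1 := hle.Pr j ⟨hj, hr j h⟩
      rw [res_Pr _ _ (hr j h)] at h1
      rw [uni_Pr h]; exact h1
    · rw [uni_Pr' h]
  kl i γ hi ho α h1 h2 β hβ t ht ξ hξ h0 := by
    by_cases h : i + 1 ∈ r.J
    · have hix := hr _ h
      have hγ : γ + 1 ≤ x := by
        have h3 : γ < i := (hl.kill ho).1
        have h4 : γ + 1 ≤ i := Order.add_one_le_of_lt h3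
        exact h4.trans ((le_of_lt (lt_add_one i)).trans hix)
      rw [uni_C h] at h1
      refine hle.kl i γ ⟨hi, hix⟩ ho α h1 ?_ β ?_ t ?_ ξ hξ h0
      · rw [res_C _ _ hix]; exact h2
      · rw [res_C _ _ hγ]; exact hβ
      · rw [res_T _ _ hγ]; exact ht
    · rw [uni_C' h] at h1
      exact absurd h1 h2

theorem uni_le' : CLe o (r.uni p) r where
  J j hj := Or.inl hj
  C j hj := by rw [uni_C hj]
  ee j hj α h1 h2 := by rw [uni_C hj] at h1; exact absurd h1 h2
  u j hj α hα := by rw [uni_u hj]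
  T j hj α hα := by rw [uni_T hj]
  F j hj := by rw [uni_F hj]
  Pr j hj := by rw [uni_Pr hj]
  kl i γ hi ho α h1 h2 := by rw [uni_C hi] at h1; exact absurd h1 h2

theorem uni_nrm (hp : Nrm p) (hr : Nrm r) : Nrm (r.uni p) where
  J := hr.J.union hp.J
  C j hj := by
    have h : j ∉ r.J := fun h => hj (Or.inl h)
    rw [uni_C' h]; exact hp.C j fun h => hj (Or.inr h)
  F j hj := by
    have h : j ∉ r.J := fun h => hj (Or.inl h)
    rw [uni_F' h]; exact hp.F j fun h => hj (Or.inr h)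
  Pr j hj := by
    have h : j ∉ r.J := fun h => hj (Or.inl h)
    rw [uni_Pr' h]; exact hp.Pr j fun h => hj (Or.inr h)
  u j α hα := by
    by_cases h : j ∈ r.J
    · rw [uni_C h] at hα; rw [uni_u h]; exact hr.u j α hα
    · rw [uni_C' h] at hα; rw [uni_u' h]; exact hp.u j α hα
  T j α hα := by
    by_cases h : j ∈ r.J
    · rw [uni_C h] at hα; rw [uni_T h]; exact hr.T j α hα
    · rw [uni_C' h] at hα; rw [uni_T' h]; exact hp.T j α hα

end

theorem job_uni : St_uni := by
  intro o Prot hl x y hxy p hp r hr hle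
  have hrx : ∀ j ∈ r.J, j ≤ x := fun j hj => A.le hr hj
  have hlow := fun (j : Ord) (hj : j ≤ x) => uni_low (o := o) (A.nrm hp) (A.nrm hr) hle hj
  have hup := uni_le hl hrx hle
  refine ⟨⟨uni_nrm (A.nrm hp) (A.nrm hr), fun z hz => ?_⟩, hup, uni_le', ?_⟩
  · by_cases hzr : z ∈ r.J
    · have hzx := hrx z hzr
      refine ⟨hzx.trans hxy, ?_⟩
      refine Leg.congr hl (A.leg hr hzr) ?_ ?_ ?_ ?_ ?_ ?_
      · exact fun w hw => (hlow w (hw.trans hzx)).1
      · exact fun w hw => (hlow w (hw.trans hzx)).2.1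
      · exact fun w hw => (hlow w (hw.trans hzx)).2.2.1
      · exact fun w hw => (hlow w (hw.trans hzx)).2.2.2.1
      · exact fun w hw => (hlow w (hw.trans hzx)).2.2.2.2.1
      · exact fun w hw => (hlow w (hw.trans hzx)).2.2.2.2.2
    · have hzp : z ∈ p.J := by
        rcases hz with h | h
        · exact absurd h hzr
        · exact h
      exact ⟨A.le hp hzp, Leg.up (A.nrm hp) (A.leg hp hzp) hup (uni_C' hzr) (uni_u' hzr) (uni_T' hzr)
        (uni_F' hzr) (uni_Pr' hzr)⟩
  · have hr' := A.nrm hr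
    ext1
    · ext j
      rw [res_J]
      constructor
      · rintro ⟨h1, h2⟩; exact ((hlow j h2).1).1 h1
      · intro h; exact ⟨Or.inl h, hrx j h⟩
    · funext j
      by_cases hj : j ≤ x
      · rw [res_C _ _ hj]; exact (hlow j hj).2.1
      · rw [res_C' _ _ hj, hr'.C j fun h => hj (hrx j h)]
    · funext j
      by_cases hj : j ≤ x
      · rw [res_u _ _ hj]; exact (hlow j hj).2.2.1
      · funext α
        rw [res_u' _ _ hj, hr'.u j α]
        rw [hr'.C j fun h => hj (hrx j h)]; exact notMem_empty α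
    · funext j
      by_cases hj : j ≤ x
      · rw [res_T _ _ hj]; exact (hlow j hj).2.2.2.1
      · funext α
        rw [res_T' _ _ hj, hr'.T j α]
        rw [hr'.C j fun h => hj (hrx j h)]; exact notMem_empty α
    · funext j
      by_cases hj : j ≤ x
      · rw [res_F _ _ hj]; exact (hlow j hj).2.2.2.2.1
      · rw [res_F' _ _ hj, hr'.F j fun h => hj (hrx j h)]
    · funext j
      by_cases hj : j ≤ x
      · rw [res_Pr _ _ hj]; exact (hlow j hj).2.2.2.2.2
      · rw [res_Pr' _ _ hj, hr'.Pr j fun h => hj (hrx j h)]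

/-- Legality at a new index without levels. -/
theorem leg_empty {p : Cond} {j : Ord} (hC : p.C j = ∅) (hF : p.F j = ∅) (hPr : p.Pr j = ∅) : Leg o j p := by
  rw [Leg_iff]
  refine ⟨?_, fun _ => ⟨hF, hPr⟩, ?_⟩
  · constructor
    all_goals first
      | (rw [hC]; exact countable_empty)
      | (rw [hF]; exact countable_empty)
      | (rw [hPr]; exact countable_empty)
      | (rw [hF]; exact fun ξ hξ => absurd hξ (notMem_empty ξ))
      | (rw [hC]; exact fun ξ hξ => absurd hξ (notMem_empty ξ))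
  · rintro i rfl
    unfold LegOpt
    cases ho : o i with
    | coh =>
      simp only
      exact ⟨by rw [hC]; exact fun ξ hξ => absurd hξ (notMem_empty ξ),
        by rw [hC]; exact fun ξ hξ => absurd hξ (notMem_empty ξ), hPr⟩
    | kill γ =>
      simp only
      refine ⟨by rw [hC]; exact fun ξ hξ => absurd hξ (notMem_empty ξ),
        by rw [hC]; exact fun ξ hξ => absurd hξ (notMem_empty ξ),
        by rw [hC]; exact fun ξ hξ => absurd hξ (notMem_empty ξ),
        by rw [hC]; exact fun ξ hξ => absurd hξ (notMem_empty ξ),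
        by rw [hC]; exact fun ξ hξ => absurd hξ (notMem_empty ξ), ?_, hF, hPr⟩
      rw [hC]
      rintro ζ ⟨_, _, h⟩
      exact absurd h not_nonempty_empty
    | spec r B g =>
      simp only
      exact ⟨by rw [hC]; exact fun ξ hξ => absurd hξ (notMem_empty ξ),
        by rw [hC]; exact fun ξ hξ => absurd hξ (notMem_empty ξ),
        by rw [hC]; exact fun ξ hξ => absurd hξ (notMem_empty ξ),
        by rw [hC]; exact fun ξ hξ => absurd hξ (notMem_empty ξ),
        by rw [hPr]; exact fun ξ hξ => absurd hξ (notMem_empty ξ),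
        by rw [hPr]; exact fun ξ hξ => absurd hξ (notMem_empty ξ), hF⟩

theorem job_birth : St_birth := by
  intro o Prot hl y p hp j hjy hj
  have hn := A.nrm hp
  let p' : Cond := ⟨insert j p.J, p.C, p.u, p.T, p.F, p.Pr⟩
  have hle : CLe o p' p :=
    { J := Set.subset_insert _ _
      C := fun _ _ => Subset.rfl
      ee := fun _ _ _ h1 h2 => absurd h1 h2
      u := fun _ _ _ _ => rfl
      T := fun _ _ _ _ => rfl
      F := fun _ _ => Subset.rfl
      Pr := fun _ _ => Subset.rfl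
      kl := fun _ _ _ _ _ h1 h2 => absurd h1 h2 }
  refine ⟨p', ⟨⟨hn.J.insert j, ?_, ?_, ?_, hn.u, hn.T⟩, fun z hz => ?_⟩, hle, rfl, rfl, rfl, rfl, rfl, rfl⟩
  · exact fun k hk => hn.C k fun h => hk (Or.inr h)
  · exact fun k hk => hn.F k fun h => hk (Or.inr h)
  · exact fun k hk => hn.Pr k fun h => hk (Or.inr h)
  · by_cases hzp : z ∈ p.J
    · exact ⟨A.le hp hzp, Leg.up hn (A.leg hp hzp) hle rfl rfl rfl rfl rfl⟩
    · have hzj : z = j := by
        rcases hz with h | h
        · exact h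
        · exact absurd h hzp
      subst hzj
      exact ⟨hjy, leg_empty (hn.C z hj) (hn.F z hj) (hn.Pr z hj)⟩

end Pool.Agent.Helper919.SD.Tuni
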