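import Pool.Agent.Helper919_SDT.Assemble1
import Pool.Agent.Helper919_SDT.Defs3
import Pool.Agent.Helper919_SDT.TtopL
import Pool.Agent.Helper919_SDT.TtopP
import Pool.Agent.Helper919_SDT.TtopN
import Pool.Agent.Helper919_SDT.Ttc
import Pool.Agent.Helper919_SDT.TssP
import Pool.Agent.Helper919_SDT.TssL
import Pool.Agent.Helper919_SDT.TssN
import Pool.Agent.Helper919_SDT.Tpl0
import Pool.Agent.Helper919_SDT.Tpl
import Pool.Agent.Helper919_SDT.Tmdl
import Pool.Agent.Helper919_SDT.Ttop
import Pool.Agent.Helper919_SDT.Tsig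
import Pool.Agent.Helper919_SDT.Tuni
import Pool.Agent.Helper919_SDT.Tgs
import Pool.Agent.Helper919_SDT.Tnx
import Pool.Agent.Helper919_SDT.Tbd
import Pool.Agent.Helper919_SDT.Tdisp
import Pool.Agent.Helper919_SDT.Tgood0
import Pool.Agent.Helper919_SDT.Tso
import Pool.Agent.Helper919_SDT.TllS
import Pool.Agent.Helper919_SDT.TllL

set_option autoImplicit false

namespace Pool.Agent.Helper919.SD

theorem p_uni : St_uni := Tuni.job_uni
theorem p_birth : St_birth := Tuni.job_birth
theorem p_sig : St_sig := Tsig.job_sig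
theorem p_top : St_top := Ttop.job_top
theorem p_tc : St_tc := Ttc.job_tc
theorem p_tcx : St_tcx := Ttc.job_tcx
theorem p_tc0 : St_tc0 := Ttc.job_tc0
theorem p_mdl : St_mdl := Tmdl.job_mdl
theorem p_mdlP : St_mdlP := Tmdl.job_mdlP
theorem p_gs : St_gs := job_gs p_uni
theorem p_gs' : St_gs' := job_gs' p_uni
theorem p_go : St_go := job_go p_uni
theorem p_good0 : St_good0 := Tgood0.job_good0 p_top p_birth
theorem p_ss0 : St_ss0 := Tgood0.job_ss0 p_top p_birth p_mdl
theorem p_nx : St_nx := Tnx.job_nx p_mdl p_gs p_good0 p_uni p_birth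
theorem p_am : St_am := Tnx.job_am p_mdl p_gs p_good0 p_uni p_birth
theorem p_so : St_so := job_so p_sig
theorem p_nn : St_nn := job_nn
theorem p_topN : St_topN := TtopN.job_topN p_top
theorem p_topP : St_topP := TtopP.job_topP p_top p_tc p_tcx p_tc0 p_uni
theorem p_topL : St_topL := TtopL.job_topL p_top p_sig p_birth
theorem p_llS : St_llS := TllS.job_llS
theorem p_llL : St_llL := TllL.job_llL
theorem p_disp : St_disp := Tdisp.job_disp
theorem p_bd : St_bd := Tbd.job_bd
theorem p_pl0 : St_pl0 := Tpl0.job_pl0 p_mdl p_gs p_good0 p_nx p_so p_nn p_uni p_disp p_bd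
theorem p_pl : St_pl := Tpl.job_pl p_pl0
theorem p_ssN : St_ssN := TssN.job_ssN p_mdl p_gs' p_good0 p_nx p_am p_uni
theorem p_ssL : St_ssL := TssL.job_ssL p_mdl p_gs' p_go p_good0 p_nx p_am
theorem p_ssP : St_ssP := job_ssP p_mdlP p_gs' p_good0 p_uni p_nx p_so p_pl

/-- The main theorem of part 1. -/
theorem nice_of_legit (o : Ord → Opt) (Prot : Set Ord) (hl : Legit o Prot) : Nice o Prot := by
  have h := induction_main p_nx p_so p_topN p_topP p_llS p_topL p_llL p_ss0 p_ssN p_ssP p_ssL o Prot hl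
  have hN : ∀ y, NX o y := fun y => p_nx o Prot hl y (fun z _ => (h z).2) (h y).1
  have hS : ∀ y, SO o y := fun y => p_so o Prot hl y (h y).2 (hN y)
  exact ⟨hl, fun y => (h y).1, fun y => (h y).2, hN, fun y => p_am o Prot hl y (fun z _ => (h z).2) (h y).1, hS,
    fun y => p_nn o Prot hl y (hS y)⟩

end Pool.Agent.Helper919.SD
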