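import Pool.Agent.Helper919_SDT.Stmts2

set_option autoImplicit false

namespace Pool.Agent.Helper919.SD.TzK8

open Ordinal Cardinal Set
open Pool.Agent.Helper919.SD

variable {o : Ord → Opt} {Prot : Set Ord}

/-- The legality at a kill coordinate of the condition of a pair. -/
theorem kill_of {β γ : Ord} (ho : o β = Opt.kill γ) {p : Cond} (hp : p ∈ A o (β + 1)) (hJ : β + 1 ∈ p.J) :
    LegKill p β γ := by
  have := A.opt hp hJ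
  simpa only [LegOpt, ho] using this

/-- First part. -/
theorem mkz (hl : Legit o Prot) {β γ : Ord} (ho : o β = Opt.kill γ) {c : Cnd} (hc : c ∈ PP o (β + 1)) :
    ∃ z : TEb o γ β, z.1.1 = c.pr β ∧ z.1.2.1 = Dc β c := by
  have hγ := (hl.kill ho).1
  have hcore := PP.core hc
  have hcc := hc
  obtain ⟨h1, h2, h3, h4, h5⟩ := hcc
  have hk := kill_of ho h2 h3
  have hcore' : LegCore c.p (β + 1) := A.core h2 h3
  have hβ : β ∈ c.p.u (β + 1) c.α := hcore'.us _ h4 β (Or.inr rfl)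
  have hrec : Rec c β := Or.inr (by rw [h1]; exact hβ)
  have hd : (∃ η < ω_ 1, ∀ ξ ∈ Dc β c, ξ ≤ η) ∧
      ∀ ξ, 0 < ξ → (∀ η < ξ, ∃ ζ ∈ Dc β c, η < ζ ∧ ζ < ξ) → ξ ∈ Dc β c := by
    refine ⟨⟨c.α, hcore'.Clt _ h4, fun ξ hξ => hξ.1⟩, fun ξ hξ h => ?_⟩
    have hle : ξ ≤ c.α := by
      by_contra hlt
      obtain ⟨ζ, hζ, h6, -⟩ := h c.α (not_le.1 hlt)
      exact absurd hζ.1 (not_le_of_gt h6)
    refine ⟨hle, hk.cl _ h4 _ h5 ξ hle hξ fun η hη => ?_⟩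
    obtain ⟨ζ, hζ, h6, h7⟩ := h η hη
    exact ⟨ζ, h6, h7, hζ.2⟩
  refine ⟨⟨(c.pr β, ⟨Dc β c, hd⟩), PP.pr hl hc hrec, ?_, ?_⟩, rfl, rfl⟩
  · have hrg := hk.rg _ h4
    rcases eq_or_lt_of_le (Order.add_one_le_of_lt hγ) with h6 | h6
    · exact Or.inl h6
    · right
      change γ + 1 ∈ (c.p.res β).u β c.α
      rw [res_u _ _ le_rfl, hcore'.L1u _ h4 _ hβ]
      exact ⟨hrg, h6⟩
  · intro ξ hξ
    refine ⟨hξ.1, ?_⟩
    change below β c.t γ ξ 0 = 1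
    rw [below_of_lt hγ]
    exact hk.sub _ h4 _ h5 ξ hξ.1 hξ.2

/-- The marks prescribed by a closed bounded set. -/
noncomputable def mk (d : Set Ord) : Ord → ℕ → ℚ := by
  classical
  exact fun ξ n => if n = 0 ∧ ξ ∈ d then 1 else 0

theorem mk_one {d : Set Ord} {ξ : Ord} (h : ξ ∈ d) : mk d ξ 0 = 1 := by simp [mk, h]
theorem mk_zero {d : Set Ord} {ξ : Ord} (h : ξ ∉ d) : mk d ξ 0 = 0 := by simp [mk, h]
theorem mk_ne {d : Set Ord} {ξ : Ord} {n : ℕ} (h : n ≠ 0) : mk d ξ n = 0 := by simp [mk, h]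
theorem mem_of_mk {d : Set Ord} {ξ : Ord} (h : mk d ξ 0 = 1) : ξ ∈ d := by
  by_contra h'; rw [mk_zero h'] at h; exact zero_ne_one h
theorem mk_01 {d : Set Ord} {ξ : Ord} {n : ℕ} : mk d ξ n = 0 ∨ mk d ξ n = 1 := by
  by_cases h : n = 0
  · subst h
    by_cases h' : ξ ∈ d
    · exact Or.inr (mk_one h')
    · exact Or.inl (mk_zero h')
  · exact Or.inl (mk_ne h)

/-- The main construction. -/
theorem core (hmdl : St_mdl) (hgs : St_gs) (h0 : St_good0) (hN : Nice o Prot) {β γ : Ord} (ho : o β = Opt.kill γ)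
    {e : Cnd} (he : e ∈ PP o β) (d : CB) (hed : InE γ e d) {p₂ : Cond} (hp : p₂ ∈ A o (β + 1))
    (hJ : β + 1 ∈ p₂.J) (hle : CLe o p₂ e.p)
    (hst : p₂.C (β + 1) = ∅ ∨ ∃ am ∈ p₂.C (β + 1), (∀ α ∈ p₂.C (β + 1), α ≤ am) ∧ am ≤ e.α ∧
      ∃ z₀ ∈ p₂.T (β + 1) am, Agr (co p₂ β am) am e.t z₀ ∧ ∀ ξ ≤ am, ∀ n, mk d.1 ξ n = z₀ β ξ n) :
    ∃ q ∈ A o (β + 1), CLe o q p₂ ∧ ∃ δ ∈ q.C (β + 1), e.α < δ ∧ ∃ z ∈ q.T (β + 1) δ,
      Agr (co e.p β e.α) e.α z e.t ∧ ∀ ξ ≤ e.α, ∀ n, z β ξ n = mk d.1 ξ n := by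
  have hl := hN.legit
  have hγ := (hl.kill ho).1
  obtain ⟨N, δ, hS, hM, -⟩ := hmdl o Prot hl (fun _ _ => U.ord 0)
    {U.cond p₂, U.cnd e, U.ord β, U.fn (mk d.1)} (by
      refine (Set.countable_singleton _).insert _ |>.insert _ |>.insert _)
  have m1 : U.cond p₂ ∈ N := hS (by simp)
  have m2 : U.cnd e ∈ N := hS (by simp)
  have m3 : U.ord β ∈ N := hS (by simp)
  have m4 : U.fn (mk d.1) ∈ N := hS (by simp)
  have hb := hM.basic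
  have m5 : U.ord (β + 1) ∈ N := (hb.succ β).1 m3
  obtain ⟨ej, eA, eJ, eC, eT⟩ := he
  have hcoree : LegCore e.p β := A.core eA eJ
  have eα : e.α < δ := (hb.ord _ (hcoree.Clt _ eC)).1 (hb.cp _ m2).2.2
  obtain ⟨ps, hsq, hps0, hgen, hcst⟩ := hgs o Prot hl (β + 1) (fun z _ => hN.ss z) N δ hM m5 p₂ m1 hp
  obtain ⟨q, hG, hqle, -, hex⟩ := exists_good h0 hl (hN.ll (β + 1)) (gs := none) hb (by simp) m5 hsq
    (by rw [hps0]; exact hJ) hgen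
  have hex1 := (hex β rfl).1
  have hqp : CLe o q p₂ := by rw [← hps0]; exact hqle 0
  have hqe : CLe o q e.p := CLe.trans eA.1 hqp hle
  have hcq1 : LegCore q (β + 1) := A.core hG.A hG.J
  have hβu : β ∈ q.u (β + 1) δ := hcq1.us _ hG.C β (Or.inr rfl)
  obtain ⟨hβJ, hβC⟩ := hcq1.L1J _ hG.C _ hβu
  have hcq : LegCore q β := A.core hG.A hβJ
  have eCq : e.α ∈ q.C β := hqe.C _ eJ eC
  have eTq : e.t ∈ q.T β e.α := by rw [hqe.T _ eJ _ eC]; exact eT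
  have hcoe : co q β e.α = co e.p β e.α := hqe.co_eq eJ eC
  obtain ⟨a, ha, hag⟩ := hcq.lift eCq hβC eα.le eTq
  rw [hcoe] at hag
  have hγco : γ ∈ co e.p β e.α := by
    refine ⟨hγ, ?_⟩
    rcases hed.1 with h | h
    · right; rw [h, ej]
    · left; rw [ej] at h; exact h
  obtain ⟨z, hz, hz1, hz2⟩ := hex1 (fun r B g => by rw [ho]; simp) a ha e.α eα (mk d.1) m4
    (fun ξ n => mk_01) (fun h => by rw [ho] at h; exact absurd h (by simp))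
    (fun γ' hγ' => by
      have : γ' = γ := by
        rw [ho] at hγ'
        exact (Opt.kill.inj hγ').symm
      subst this
      refine ⟨fun ξ n hn => mk_ne hn, fun ξ hξ h => ?_, fun ξ _ hξ0 h => ?_⟩
      · rw [hag _ hγco ξ hξ 0]
        exact (hed.2 ξ (mem_of_mk h)).2
      · refine mk_one (d.2.2 ξ hξ0 fun η hη => ?_)
        obtain ⟨ζ, h1, h2, h3⟩ := h η hη
        exact ⟨ζ, mem_of_mk h3, h1, h2⟩)
    (by
      rcases hst with h | ⟨am, ham, hmax, hle', z₀, hz₀, h1, h2⟩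
      · left
        intro n
        rw [(hcst n).1]; exact h
      · right
        refine ⟨am, by rw [hps0]; exact ham, by rw [hps0]; exact hmax, fun n => ?_, hle', z₀, ?_, ?_, h2⟩
        · rw [(hcst n).1, hps0]
        · rw [hps0]; exact hz₀
        · rw [hps0]
          have hcp : LegCore p₂ (β + 1) := A.core hp hJ
          have hβp : β ∈ p₂.u (β + 1) am := hcp.us _ ham β (Or.inr rfl)
          obtain ⟨h3, h4⟩ := hcp.L1J _ ham _ hβp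
          have h5 : co p₂ β am ⊆ co e.p β e.α := by
            rw [← hqp.co_eq h3 h4, ← hcoe]
            exact hcq.co_mono (hqp.C _ h3 h4) eCq hle'
          exact (hag.mono h5 hle').trans h1)
  refine ⟨q, hG.A, hqp, δ, hG.C, eα, z, hz, ?_, hz2⟩
  intro i hi ξ hξ n
  rw [← hag i hi ξ hξ n, ← hz1, below_of_lt hi.1]

/-- The pair of the result of the main construction is stronger than the given pair. -/
theorem below_of (hN : Nice o Prot) {β γ : Ord} (ho : o β = Opt.kill γ) (w : TEb o γ β) {q : Cond} {δ : Ord} {z : Thr}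
    (hq : q ∈ A o (β + 1)) (hqe : CLe o q w.1.1.p) (hδ : δ ∈ q.C (β + 1)) (hlt : w.1.1.α < δ) (hz : z ∈ q.T (β + 1) δ)
    (hag : Agr (co w.1.1.p β w.1.1.α) w.1.1.α z w.1.1.t) (hm : ∀ ξ ≤ w.1.1.α, ∀ n, z β ξ n = mk w.1.2.1 ξ n) :
    ∃ w' ≤ w, w'.1.1 = Cnd.pr ⟨q, β + 1, δ, z⟩ β ∧ w'.1.2.1 = Dc β ⟨q, β + 1, δ, z⟩ := by
  have hl := hN.legit
  have hc : (⟨q, β + 1, δ, z⟩ : Cnd) ∈ PP o (β + 1) := A.pair' hq hδ hz
  obtain ⟨w', h1, h2⟩ := mkz hl ho hc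
  obtain ⟨ej, eA, eJ, eC, eT⟩ := w.2.1
  refine ⟨w', ⟨?_, ?_, ?_⟩, h1, h2⟩
  · rw [h1]
    refine ⟨?_, hlt.le, Or.inl ej, ?_⟩
    · have := hqe.res β
      rw [A.res_self eA] at this
      exact this
    · change Agr (co w.1.1.p w.1.1.j w.1.1.α) w.1.1.α (below β z) w.1.1.t
      rw [ej]
      exact (agr_below (fun i hi => hi.1) _ _).trans hag
  · intro ξ hξ
    rw [h2]
    have h3 := w.2.2.2 ξ hξ
    refine ⟨h3.1.trans hlt.le, ?_⟩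
    change z β ξ 0 = 1
    rw [hm ξ h3.1 0]; exact mk_one hξ
  · intro ξ hξ η hη hle
    rw [h2] at hξ
    have h3 := w.2.2.2 η hη
    have h4 : z β ξ 0 = 1 := hξ.2
    rw [hm ξ (hle.trans h3.1) 0] at h4
    exact mem_of_mk h4

/-- Extensions with a last level. -/
theorem last (hmdl : St_mdl) (hgs : St_gs) (h0 : St_good0) (hN : Nice o Prot) {y : Ord} {c : Cnd} (hc : c ∈ PP o y) :
    ∃ c' ∈ PP o y, KLe o c' c ∧ ∀ α ∈ c'.p.C y, α ≤ c'.α := by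
  have hl := hN.legit
  obtain ⟨N, δ, hS, hM, -⟩ := hmdl o Prot hl (fun _ _ => U.ord 0) {U.cnd c} (Set.countable_singleton _)
  have m2 : U.cnd c ∈ N := hS rfl
  have hb := hM.basic
  have hcc := hc
  obtain ⟨cj, cA, cJ, cC, cT⟩ := hcc
  have m1 : U.cond c.p ∈ N := (hb.cp _ m2).1
  have m3 : U.ord y ∈ N := by rw [← cj]; exact (hb.cp _ m2).2.1
  have hα : c.α < δ := (hb.ord _ ((A.core cA cJ).Clt _ cC)).1 (hb.cp _ m2).2.2
  obtain ⟨ps, hsq, hps0, hgen, -⟩ := hgs o Prot hl y (fun z _ => hN.ss z) N δ hM m3 c.p m1 cA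
  obtain ⟨q, hG, hqle, hqmax, -⟩ := exists_good h0 hl (hN.ll y) (gs := none) hb (by simp) m3 hsq
    (by rw [hps0]; exact cJ) hgen
  have hqp : CLe o q c.p := by rw [← hps0]; exact hqle 0
  obtain ⟨z, -, h1, h2⟩ := PP.up hc hG.A hqp hG.C hα.le
  exact ⟨_, h1, h2, hqmax⟩

/-- Second part. -/
theorem part2 (hmdl : St_mdl) (hgs : St_gs) (h0 : St_good0) (hu : St_uni) (hN : Nice o Prot) {β γ : Ord}
    (ho : o β = Opt.kill γ) {c : Cnd} (hc : c ∈ PP o (β + 1)) (O : Set (TEb o γ β)) (hO : ∀ z ∈ O, ∀ z' ≤ z, z' ∈ O)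
    (hO' : ∀ z, ∃ z' ∈ O, z' ≤ z) :
    ∃ c' ∈ PP o (β + 1), KLe o c' c ∧ ∃ z ∈ O, z.1.1 = c'.pr β ∧ z.1.2.1 = Dc β c' := by
  have hl := hN.legit
  have hγ := (hl.kill ho).1
  obtain ⟨c₁, hc₁, hle₁, hmax⟩ := last hmdl hgs h0 hN hc
  obtain ⟨z₁, hz₁, hd₁⟩ := mkz hl ho hc₁
  obtain ⟨w, hw, hwz⟩ := hO' z₁
  obtain ⟨j₁, A₁, J₁, C₁, T₁⟩ := hc₁
  have hc₁' : c₁ ∈ PP o (β + 1) := ⟨j₁, A₁, J₁, C₁, T₁⟩
  obtain ⟨hwz1, hwz2⟩ := hwz
  rw [hz₁] at hwz1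
  have hw1 := w.2.1
  obtain ⟨ej, eA, eJ, eC, eT⟩ := hw1
  have hcore₁ : LegCore c₁.p (β + 1) := A.core A₁ J₁
  have hk := kill_of ho A₁ J₁
  have hβ : β ∈ c₁.p.u (β + 1) c₁.α := hcore₁.us _ C₁ β (Or.inr rfl)
  obtain ⟨hβJ, hβC⟩ := hcore₁.L1J _ C₁ _ hβ
  obtain ⟨hpA, hp1, hp2, hp3⟩ := hu o Prot hl β (β + 1) (le_of_lt (lt_add_one β)) c₁.p A₁ w.1.1.p eA hwz1.p
  set p₂ := w.1.1.p.uni c₁.p with hp₂
  have hnJ : β + 1 ∉ w.1.1.p.J := fun h => absurd (A.le eA h) (not_le_of_gt (lt_add_one β))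
  have hC₂ : p₂.C (β + 1) = c₁.p.C (β + 1) := by rw [hp₂]; simp [Cond.uni, hnJ]
  have hT₂ : p₂.T (β + 1) c₁.α = c₁.p.T (β + 1) c₁.α := hp1.T _ J₁ _ C₁
  have hag1 : Agr (co c₁.p β c₁.α) c₁.α w.1.1.t c₁.t := by
    have h := hwz1.t
    change Agr (co (c₁.p.res β) β c₁.α) c₁.α w.1.1.t (below β c₁.t) at h
    rw [res_co _ _ le_rfl] at h
    exact h.trans (agr_below (fun i hi => hi.1) _ _)
  have hmarks : ∀ ξ ≤ c₁.α, ∀ n, mk w.1.2.1 ξ n = c₁.t β ξ n := by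
    intro ξ hξ n
    have hv := hk.v01 _ C₁ _ T₁ ξ n
    by_cases hn : n = 0
    · subst hn
      by_cases h : ξ ∈ w.1.2.1
      · rw [mk_one h]
        have h1 : c₁.α ∈ z₁.1.2.1 := by rw [hd₁]; exact ⟨le_rfl, hk.top _ C₁ _ T₁⟩
        have h2 := hwz2.2 ξ h c₁.α h1 hξ
        rw [hd₁] at h2
        exact h2.2.symm
      · rw [mk_zero h]
        rcases hv.1 with h1 | h1
        · exact h1.symm
        · exact absurd (hwz2.1 (by rw [hd₁]; exact ⟨hξ, h1⟩)) h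
    · rw [mk_ne hn, hv.2 hn]
  have hwα : c₁.α ≤ w.1.1.α := hwz1.α
  obtain ⟨q, hqA, hqp, δ, hδ, hlt, z, hz, hag, hm⟩ := core hmdl hgs h0 hN ho w.2.1 w.1.2 w.2.2 hpA
    (hp1.J J₁) hp2 (Or.inr ⟨c₁.α, by rw [hC₂]; exact C₁, by rw [hC₂]; exact hmax, hwα, c₁.t, by rw [hT₂]; exact T₁, by
      rw [hp1.co_eq hβJ hβC]; exact hag1, hmarks⟩)
  have hqe : CLe o q w.1.1.p := CLe.trans eA.1 hqp hp2
  obtain ⟨w', hw', h1, h2⟩ := below_of hN ho w hqA hqe hδ hlt hz hag hm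
  have hc' : (⟨q, β + 1, δ, z⟩ : Cnd) ∈ PP o (β + 1) := A.pair' hqA hδ hz
  refine ⟨⟨q, β + 1, δ, z⟩, hc', ?_, w', hO w hw w' hw', h1, h2⟩
  refine KLe.trans hc' hc₁' hc ?_ hle₁
  refine ⟨CLe.trans A₁.1 hqp hp1, hwα.trans hlt.le, Or.inl j₁, ?_⟩
  change Agr (co c₁.p c₁.j c₁.α) c₁.α z c₁.t
  rw [j₁]
  intro i hi ξ hξ n
  rcases lt_or_eq_of_le (Order.lt_add_one_iff.1 hi.1) with h3 | h3
  · have h4 : i ∈ co c₁.p β c₁.α := by
      rw [hcore₁.co_eq C₁ hβ]; exact ⟨hi, h3⟩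
    have h5 : i ∈ co w.1.1.p β w.1.1.α := by
      have := KLe.co w.2.1 (PP.pr hl hc₁' (z := β) (Or.inr (by rw [j₁]; exact hβ))) hwz1
      rw [ej] at this
      apply this
      change i ∈ co (c₁.p.res β) β c₁.α
      rw [res_co _ _ le_rfl]; exact h4
    rw [hag i h5 ξ (hξ.trans hwα) n, hag1 i h4 ξ hξ n]
  · subst h3
    rw [hm ξ (hξ.trans hwα) n, hmarks ξ hξ n]

/-- Third part. -/
theorem part3 (hmdl : St_mdl) (hgs : St_gs) (h0 : St_good0) (hb : St_birth) (hN : Nice o Prot) {β γ : Ord}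
    (ho : o β = Opt.kill γ) (w : TEb o γ β) :
    ∃ c ∈ PP o (β + 1), ∃ w' ≤ w, w'.1.1 = c.pr β ∧ w'.1.2.1 = Dc β c := by
  have hl := hN.legit
  obtain ⟨ej, eA, eJ, eC, eT⟩ := w.2.1
  have hnJ : β + 1 ∉ w.1.1.p.J := fun h => absurd (A.le eA h) (not_le_of_gt (lt_add_one β))
  obtain ⟨p', hA', hle', hJ', hC', -⟩ := hb o Prot hl (β + 1) w.1.1.p (A.mono (le_of_lt (lt_add_one β)) eA) (β + 1)
    le_rfl hnJ
  obtain ⟨q, hqA, hqp, δ, hδ, hlt, z, hz, hag, hm⟩ := core hmdl hgs h0 hN ho w.2.1 w.1.2 w.2.2 hA'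
    (by rw [hJ']; exact mem_insert _ _) hle' (Or.inl (by rw [hC']; exact eA.1.C _ hnJ))
  have hqe : CLe o q w.1.1.p := CLe.trans eA.1 hqp hle'
  obtain ⟨w', hw', h1, h2⟩ := below_of hN ho w hqA hqe hδ hlt hz hag hm
  exact ⟨⟨q, β + 1, δ, z⟩, A.pair' hqA hδ hz, w', hw', h1, h2⟩

end Pool.Agent.Helper919.SD.TzK8

namespace Pool.Agent.Helper919.SD

/-- The generic club of a kill coordinate. -/
theorem job_zK8 (hmdl : St_mdl) (hgs : St_gs) (h0 : St_good0) (hu : St_uni) (hb : St_birth) : Sz_K8 := by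
  intro o Prot hN β γ ho
  exact ⟨fun c hc => TzK8.mkz hN.legit ho hc, fun c hc O hO hO' => TzK8.part2 hmdl hgs h0 hu hN ho hc O hO hO',
    fun z => TzK8.part3 hmdl hgs h0 hb hN ho z⟩

end Pool.Agent.Helper919.SD
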