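import Pool.Agent.Helper919_SDT.LangBasic

set_option autoImplicit false

namespace Pool.Agent.Helper919.SD

open Ordinal Cardinal Set

theorem job_zabs (hamF : Sz_amF) : Sz_abs := by
  intro o Prot hn
  have hl := hn.legit
  refine ⟨fun x y hxy N hN c hc => ⟨fun h => ?_, fun h => ?_⟩, fun x N hN c hc hx => ⟨fun h => ?_, fun h => ?_⟩⟩
  · intro c' hc' hle
    have hc'j := Full.mem hc'
    have hr : Rec c' y := KLe.rc hc'j hc hle
    obtain ⟨e, he, he1, d, hd, hed⟩ := h (c'.pr y) (PP.pr hl hc'j hr) (KLe.pr_of_le hl hc'j hc hle hr le_rfl)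
    obtain ⟨c'', h1, -, h2, -, -, h3⟩ := hamF o Prot hn c' hc' y hr e he he1
    exact ⟨c'', h1, h2, d, hd, KLe.trans (Full.mem h1) he (hN hd) h3 hed⟩
  · intro c' hc' hle
    obtain ⟨c'', h1, h2, d, hd, h3⟩ := h c' (Full.mk hc') hle
    have h1j := Full.mem h1
    have hr : Rec c'' y := KLe.rc h1j hc' h2
    exact ⟨c''.pr y, PP.pr hl h1j hr, KLe.pr_of_le hl h1j hc' h2 hr le_rfl, d, hd,
      KLe.pr_of_le hl h1j (hN hd) h3 hr hxy⟩
  · intro e' he' hle
    obtain ⟨c', h1, -, h2, h3, h4, h5⟩ := hamF o Prot hn c hc x hx e' he' hle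
    obtain ⟨c'', h6, h7, d, hd, h8⟩ := h c' h1 h2
    have h6j := Full.mem h6
    have h9 : KLe o c'' e' := KLe.trans h6j (Full.mem h1) he' h7 h5
    have hr : Rec c'' x := KLe.rc h6j he' h9
    exact ⟨c''.pr x, PP.pr hl h6j hr, KLe.pr_of_le hl h6j he' h9 hr le_rfl, d, hd,
      KLe.pr_of_le hl h6j (hN hd) h8 hr le_rfl⟩
  · intro c' hc' hle
    have hcj := Full.mem hc
    have hc'j := Full.mem hc'
    have hr : Rec c' x := KLe.rec_mono hc'j hcj hle hx hl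
    obtain ⟨e, he, he1, d, hd, hed⟩ := h (c'.pr x) (PP.pr hl hc'j hr) (KLe.pr hl hc'j hcj hle hx)
    obtain ⟨c'', h1, -, h2, -, -, h3⟩ := hamF o Prot hn c' hc' x hr e he he1
    exact ⟨c'', h1, h2, d, hd, KLe.trans (Full.mem h1) he (hN hd) h3 hed⟩

end Pool.Agent.Helper919.SD
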