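import Pool.Agent.Helper919_SDT.Stmts2

set_option autoImplicit false

/-!
# The bookkeeping (8.9)
-/

namespace Pool.Agent.Helper919.SD.Tzbook

open Ordinal Cardinal Set Pool.Agent.Helper919.SD
open Pool.Agent.Helper292.SP (fnot fand fall for' fimp fiff fex fground meets IsFun)

/-! ### States -/

/-- A state: a sequence of options below `l`, with protected coordinates. -/
structure Stt where
  l : Ord
  o : Ord → Opt
  Pt : Set Ord

/-- Admissible states. -/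
def okS (s : Stt) : Prop := LegitTo s.o s.Pt s.l ∧ s.o 0 = Opt.coh ∧ 0 < s.l

/-- Extension of states. -/
def leS (s s' : Stt) : Prop := s.l ≤ s'.l ∧ (∀ i < s.l, s.o i = s'.o i) ∧ ∀ i < s.l, i ∈ s.Pt ↔ i ∈ s'.Pt

/-- Tasks. -/
abbrev Tsk : Type 1 := (Ord × (Node → Node → Set Cnd)) ⊕ (Ord × Cnd × (W → W → Set Cnd))

/-- The tasks of a state. -/
def tkS (s : Stt) : Set Tsk := {t | match t with
  | Sum.inl e => e.1 ≤ s.l ∧ (∀ a b, e.2 a b ⊆ PP s.o e.1) ∧ ∀ a b : Node, (e.2 a b).Nonempty → a.1 < ω_ 1 ∧ b.1 < ω_ 1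
  | Sum.inr e => e.1 ≤ s.l ∧ e.2.1 ∈ PP s.o e.1 ∧ ∀ a b, e.2.2 a b ⊆ PP s.o e.1}

/-- The conclusion of the second kind of tasks for the index `β`. -/
def Hit (o : Ord → Opt) (γ β : Ord) (c₀ : Cnd) (T : W → W → Set Cnd) : Prop :=
  ∃ z : TEb o γ β, KLe o z.1.1 c₀ ∧ Chn (fun a b => LfB o γ β (T a b)) z

/-- The task has been handled. -/
def hdS (s : Stt) (t : Tsk) : Prop := match t with
  | Sum.inl e => ∃ i ≥ e.1, i < s.l ∧ ((∃ B g, s.o i = Opt.spec (upN s.o i e.2) B g) ∨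
      ¬ Good s.o (PP s.o i) (upN s.o i e.2))
  | Sum.inr e => ∃ γ ≥ e.1, γ < s.l ∧ s.o γ = Opt.coh ∧
      ((∃ β > γ, β < s.l ∧ s.o β = Opt.kill γ ∧ Hit s.o γ β e.2.1 e.2.2) ∨
      (γ ∈ s.Pt ∧ ∀ s' : Stt, okS s' → leS ⟨γ + 1, s.o, s.Pt⟩ s' → ¬ Hit s'.o γ s'.l e.2.1 e.2.2))

/-! ### Locality -/

theorem mt_loc (hloc : Sz_loc) {o o' : Ord → Opt} {y : Ord} (h : ∀ i < y, o i = o' i) (N : Set Cnd) {c : Cnd} :
    mt o (PP o y) N c ↔ mt o' (PP o' y) N c := by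
  obtain ⟨h1, h2, h3, h4, h5⟩ := hloc o o' y h
  unfold mt
  rw [← h2]
  constructor
  · intro H c' hc' hle
    obtain ⟨c'', h6, h7, d, hd, h8⟩ := H c' hc' ((h3 c' hc' c).2 hle)
    exact ⟨c'', h6, (h3 c'' h6 c').1 h7, d, hd, (h3 c'' h6 d).1 h8⟩
  · intro H c' hc' hle
    obtain ⟨c'', h6, h7, d, hd, h8⟩ := H c' hc' ((h3 c' hc' c).1 hle)
    exact ⟨c'', h6, (h3 c'' h6 c').2 h7, d, hd, (h3 c'' h6 d).2 h8⟩

theorem upN_loc (hloc : Sz_loc) {o o' : Ord → Opt} {y : Ord} (h : ∀ i < y, o i = o' i) (r : Node → Node → Set Cnd) :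
    upN o y r = upN o' y r := by
  obtain ⟨h1, h2, h3, h4, h5⟩ := hloc o o' y h
  funext a b
  ext c
  unfold upN
  simp only [Set.mem_ofPred_eq]
  rw [mt_loc hloc h, h2]

theorem legitAt_loc (hloc : Sz_loc) {o o' : Ord → Opt} {Pt Pt' : Set Ord} {i : Ord} (h : ∀ j ≤ i, o j = o' j)
    (hP : ∀ j < i, j ∈ Pt' → j ∈ Pt) (hL : LegitAt o Pt i) : LegitAt o' Pt' i := by
  obtain ⟨h1, h2, h3, h4, h5⟩ := hloc o o' i fun j hj => h j hj.le
  unfold LegitAt at hL ⊢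
  rw [← h i le_rfl]
  cases ho : o i with
  | coh => trivial
  | kill γ =>
    simp only [ho] at hL ⊢
    exact ⟨hL.1, by rw [← h γ hL.1.le]; exact hL.2.1, fun hn => hL.2.2 (hP γ hL.1 hn)⟩
  | spec r B g =>
    simp only [ho] at hL ⊢
    exact ⟨(h4 r).1 hL.1, fun κ hκ => (h5 r _).1 (hL.2.1 κ hκ), fun G hG => hL.2.2 G ((h5 r G).2 hG)⟩

theorem okS_len {s : Stt} (h : okS s) : 0 < s.l := h.2.2

theorem leS_refl (s : Stt) : leS s s := ⟨le_rfl, fun _ _ => rfl, fun _ _ => Iff.rfl⟩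

theorem leS_trans {s s' s'' : Stt} (h : leS s s') (h' : leS s' s'') : leS s s'' :=
  ⟨h.1.trans h'.1, fun i hi => (h.2.1 i hi).trans (h'.2.1 i (hi.trans_le h.1)),
    fun i hi => (h.2.2 i hi).trans (h'.2.2 i (hi.trans_le h.1))⟩

theorem hit_loc (hlocT : Sz_locT) {o o' : Ord → Opt} {γ y : Ord} (h : ∀ i < y, o i = o' i) {c₀ : Cnd}
    {T : W → W → Set Cnd} (hH : Hit o γ y c₀ T) : Hit o' γ y c₀ T := hlocT o o' γ y h T c₀ hH

theorem hdS_mono (hloc : Sz_loc) (hlocT : Sz_locT) {s s' : Stt} {t : Tsk} (h : leS s s') (hh : hdS s t) :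
    hdS s' t := by
  rcases t with ⟨x, r⟩ | ⟨x, c₀, T⟩
  · obtain ⟨i, h1, h2, h3⟩ := hh
    have hag : ∀ j < i, s.o j = s'.o j := fun j hj => h.2.1 j (hj.trans h2)
    refine ⟨i, h1, h2.trans_le h.1, ?_⟩
    rcases h3 with ⟨B, g, h3⟩ | h3
    · left
      refine ⟨B, g, ?_⟩
      rw [← h.2.1 i h2, ← upN_loc hloc hag]; exact h3
    · right
      rw [← upN_loc hloc hag]
      exact fun hG => h3 (((hloc s.o s'.o i hag).2.2.2.1 _).2 hG)
  · obtain ⟨γ, h1, h2, h3, h4⟩ := hh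
    refine ⟨γ, h1, h2.trans_le h.1, by rw [← h.2.1 γ h2]; exact h3, ?_⟩
    rcases h4 with ⟨β, h5, h6, h7, h8⟩ | ⟨h5, h6⟩
    · left
      exact ⟨β, h5, h6.trans_le h.1, by rw [← h.2.1 β h6]; exact h7,
        hit_loc hlocT (fun i hi => h.2.1 i (hi.trans h6)) h8⟩
    · right
      refine ⟨(h.2.2 γ h2).1 h5, fun s₂ hs₂ hle => h6 s₂ hs₂ (leS_trans ?_ hle)⟩
      refine ⟨le_rfl, fun i hi => h.2.1 i ?_, fun i hi => h.2.2 i ?_⟩
      · exact (show i < γ + 1 from hi).trans_le (Order.add_one_le_of_lt h2)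
      · exact (show i < γ + 1 from hi).trans_le (Order.add_one_le_of_lt h2)

theorem tkS_mono (hloc : Sz_loc) {s s' : Stt} {t : Tsk} (h : leS s s') (hh : t ∈ tkS s) : t ∈ tkS s' := by
  rcases t with ⟨x, r⟩ | ⟨x, c₀, T⟩
  · obtain ⟨h1, h2, h3⟩ := hh
    have hP : PP s.o x = PP s'.o x := (hloc s.o s'.o x fun i hi => h.2.1 i (lt_of_lt_of_le hi h1)).2.1
    refine ⟨h1.trans h.1, fun a b => ?_, h3⟩
    rw [← hP]; exact h2 a b
  · obtain ⟨h1, h2, h3⟩ := hh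
    have hP : PP s.o x = PP s'.o x := (hloc s.o s'.o x fun i hi => h.2.1 i (lt_of_lt_of_le hi h1)).2.1
    refine ⟨h1.trans h.1, ?_, fun a b => ?_⟩
    · change c₀ ∈ PP s'.o x
      rw [← hP]; exact h2
    · change T a b ⊆ PP s'.o x
      rw [← hP]; exact h3 a b

theorem tkS_small (hsm : Sz_small) (hR : Sz_smallR) (hT : Sz_smallT) (s : Stt) : Small.{0} (tkS s) := by
  have h1 := hR s.o
  have h2 := hT s.o
  have h3 := hsm s.o
  let A1 : Set Tsk := ⋃ x : Set.Iic s.l, Set.range fun r : {r : Node → Node → Set Cnd //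
    (∀ a b, r a b ⊆ PP s.o x) ∧ ∀ a b : Node, (r a b).Nonempty → a.1 < ω_ 1 ∧ b.1 < ω_ 1} =>
      (Sum.inl ((x : Ord), r.1) : Tsk)
  let A2 : Set Tsk := ⋃ x : Set.Iic s.l, Set.range fun r : PP s.o x × {T : W → W → Set Cnd // ∀ a b, T a b ⊆ PP s.o x} =>
      (Sum.inr ((x : Ord), (r.1 : Cnd), r.2.1) : Tsk)
  have hA1 : Small.{0} A1 := by
    have : ∀ x : Set.Iic s.l, Small.{0} (Set.range fun r : {r : Node → Node → Set Cnd //
      (∀ a b, r a b ⊆ PP s.o x) ∧ ∀ a b : Node, (r a b).Nonempty → a.1 < ω_ 1 ∧ b.1 < ω_ 1} =>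
      (Sum.inl ((x : Ord), r.1) : Tsk)) := fun x => by
      have := h1 x
      exact small_range _
    exact small_iUnion _
  have hA2 : Small.{0} A2 := by
    have : ∀ x : Set.Iic s.l, Small.{0} (Set.range fun r : PP s.o x ×
      {T : W → W → Set Cnd // ∀ a b, T a b ⊆ PP s.o x} => (Sum.inr ((x : Ord), (r.1 : Cnd), r.2.1) : Tsk)) := fun x => by
      have := h2 x
      have := h3 x
      exact small_range _
    exact small_iUnion _
  have : Small.{0} (A1 ∪ A2 : Set Tsk) := small_union A1 A2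
  refine small_subset (s := A1 ∪ A2) ?_
  rintro (⟨x, r⟩ | ⟨x, c₀, T⟩) ht
  · left
    exact Set.mem_iUnion.2 ⟨⟨x, ht.1⟩, ⟨r, ht.2⟩, rfl⟩
  · right
    exact Set.mem_iUnion.2 ⟨⟨x, ht.1⟩, (⟨c₀, ht.2.1⟩, ⟨T, ht.2.2⟩), rfl⟩

/-! ### Steps -/

open Classical in
/-- Changing one option. -/
noncomputable def upd (o : Ord → Opt) (l : Ord) (a : Opt) : Ord → Opt := fun i => if i = l then a else o i

theorem upd_self (o : Ord → Opt) (l : Ord) (a : Opt) : upd o l a l = a := by simp [upd]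
theorem upd_ne {o : Ord → Opt} {l i : Ord} {a : Opt} (h : i ≠ l) : upd o l a i = o i := by simp [upd, h]

/-- Adding an option at the end. -/
theorem ok_upd (hloc : Sz_loc) {s : Stt} (h : okS s) (a : Opt) (Pt' : Set Ord) (hP : ∀ j < s.l, j ∈ Pt' → j ∈ s.Pt)
    (ha : LegitAt (upd s.o s.l a) Pt' s.l) : okS ⟨s.l + 1, upd s.o s.l a, Pt'⟩ := by
  refine ⟨fun i hi => ?_, ?_, ?_⟩
  · rcases (show i ≤ s.l from Order.le_of_lt_succ (by rw [Order.succ_eq_add_one]; exact hi)).lt_or_eq with h1 | h1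
    · exact legitAt_loc hloc (fun j hj => (upd_ne (hj.trans_lt h1).ne).symm) (fun j hj => hP j (hj.trans h1))
        (h.1 i h1)
    · change LegitAt (upd s.o s.l a) Pt' i
      rw [h1]; exact ha
  · change upd s.o s.l a 0 = Opt.coh
    rw [upd_ne h.2.2.ne]; exact h.2.1
  · exact h.2.2.trans (lt_add_one s.l)

theorem le_upd (s : Stt) (a : Opt) (Pt' : Set Ord) (hP : ∀ j < s.l, j ∈ s.Pt ↔ j ∈ Pt') :
    leS s ⟨s.l + 1, upd s.o s.l a, Pt'⟩ :=
  ⟨(lt_add_one s.l).le, fun _ hi => (upd_ne hi.ne).symm, hP⟩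

theorem legitAt_coh {o : Ord → Opt} {Pt : Set Ord} {i : Ord} (h : o i = Opt.coh) : LegitAt o Pt i := by
  unfold LegitAt; rw [h]; trivial

theorem enum_small {Y : Type 1} {Z : Type 1} [Small.{0} Y] (z₀ : Z) (f : Y → Z) :
    ∃ (B : Ord) (g : Ord → Z), (∀ κ < B, ∃ y, g κ = f y) ∧ ∀ y, ∃ κ < B, g κ = f y := by
  classical
  let r : Shrink.{0} Y → Shrink.{0} Y → Prop := WellOrderingRel
  refine ⟨Ordinal.type r, fun κ => if h : κ < Ordinal.type r then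
      f ((equivShrink Y).symm (Ordinal.enum r ⟨κ, Set.mem_Iio.2 h⟩)) else z₀,
    fun κ hκ => ⟨_, dif_pos hκ⟩, fun y => ⟨Ordinal.typein r (equivShrink Y y), Ordinal.typein_lt_type r _, ?_⟩⟩
  have h1 : (fun κ => if h : κ < Ordinal.type r then
      f ((equivShrink Y).symm (Ordinal.enum r ⟨κ, Set.mem_Iio.2 h⟩)) else z₀) (Ordinal.typein r (equivShrink Y y)) =
      f ((equivShrink Y).symm (Ordinal.enum r ⟨Ordinal.typein r (equivShrink Y y), Ordinal.typein_lt_type r _⟩)) :=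
    dif_pos (Ordinal.typein_lt_type r _)
  rw [h1, Ordinal.enum_typein, Equiv.symm_apply_apply]

theorem step (hloc : Sz_loc) (hlocT : Sz_locT) (hG : Sz_smallG) {s : Stt} {t : Tsk} (h : okS s) (ht : t ∈ tkS s) :
    ∃ s', okS s' ∧ leS s s' ∧ hdS s' t := by
  rcases t with ⟨x, r⟩ | ⟨x, c₀, T⟩
  · obtain ⟨h1, h2, h3⟩ := ht
    by_cases hg : Good s.o (PP s.o s.l) (upN s.o s.l r)
    · have := hG s.o s.l (upN s.o s.l r)
      obtain ⟨B, g, hg1, hg2⟩ := enum_small (Y := {G : PName // OKP s.o (PP s.o s.l) (upN s.o s.l r) G})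
        (Z := PName) ⟨0, fun _ => 0, fun _ _ => ∅⟩ (fun G => G.1)
      have hag : ∀ j < s.l, s.o j = upd s.o s.l (Opt.spec (upN s.o s.l r) B g) j := fun j hj => (upd_ne hj.ne).symm
      obtain ⟨-, -, -, l4, l5⟩ := hloc _ _ _ hag
      refine ⟨⟨s.l + 1, upd s.o s.l (Opt.spec (upN s.o s.l r) B g), s.Pt⟩, ok_upd hloc h _ _ (fun _ _ => id) ?_,
        le_upd s _ _ fun _ _ => Iff.rfl, s.l, h1, lt_add_one s.l, Or.inl ⟨B, g, ?_⟩⟩
      · unfold LegitAt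
        rw [upd_self]
        refine ⟨(l4 _).1 hg, fun κ hκ => ?_, fun G hG' => ?_⟩
        · obtain ⟨y, hy⟩ := hg1 κ hκ
          exact (l5 _ _).1 (hy ▸ y.2)
        · exact hg2 ⟨G, (l5 _ _).2 hG'⟩
      · change upd s.o s.l (Opt.spec (upN s.o s.l r) B g) s.l = _
        rw [upd_self]
        change _ = Opt.spec (upN (upd s.o s.l (Opt.spec (upN s.o s.l r) B g)) s.l r) B g
        rw [← upN_loc hloc hag]
    · have hag : ∀ j < s.l, s.o j = upd s.o s.l Opt.coh j := fun j hj => (upd_ne hj.ne).symm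
      obtain ⟨-, -, -, l4, l5⟩ := hloc _ _ _ hag
      refine ⟨⟨s.l + 1, upd s.o s.l Opt.coh, s.Pt⟩, ok_upd hloc h _ _ (fun _ _ => id) (legitAt_coh (upd_self _ _ _)),
        le_upd s _ _ fun _ _ => Iff.rfl, s.l, h1, lt_add_one s.l, Or.inr ?_⟩
      change ¬ Good (upd s.o s.l Opt.coh) (PP (upd s.o s.l Opt.coh) s.l) (upN (upd s.o s.l Opt.coh) s.l r)
      rw [← upN_loc hloc hag]
      exact fun hn => hg ((l4 _).2 hn)
  · obtain ⟨h1, h2, h3⟩ := ht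
    set s₁ : Stt := ⟨s.l + 1, upd s.o s.l Opt.coh, insert s.l s.Pt⟩ with hs₁
    have hok₁ : okS s₁ := ok_upd hloc h _ _ (fun j hj hj' => by
      rcases hj' with rfl | hj'
      · exact absurd hj (lt_irrefl _)
      · exact hj') (legitAt_coh (upd_self _ _ _))
    have hle₁ : leS s s₁ := le_upd s _ _ fun j hj =>
      ⟨fun hj' => Or.inr hj', fun hj' => by
        rcases hj' with rfl | hj'
        · exact absurd hj (lt_irrefl _)
        · exact hj'⟩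
    by_cases hex : ∃ s' : Stt, okS s' ∧ leS s₁ s' ∧ Hit s'.o s.l s'.l c₀ T
    · obtain ⟨s', hok', hle', hhit⟩ := hex
      have hlt : s.l < s'.l := (lt_add_one s.l).trans_le hle'.1
      have hγ : s'.o s.l = Opt.coh := by
        rw [← hle'.2.1 s.l (lt_add_one s.l)]; exact upd_self _ _ _
      have hag : ∀ j < s'.l, s'.o j = upd s'.o s'.l (Opt.kill s.l) j := fun j hj => (upd_ne hj.ne).symm
      refine ⟨⟨s'.l + 1, upd s'.o s'.l (Opt.kill s.l), s'.Pt \ {s.l}⟩,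
        ok_upd hloc hok' _ _ (fun j _ hj => hj.1) ?_, ?_, s.l, h1, hlt.trans (lt_add_one s'.l), ?_,
        Or.inl ⟨s'.l, hlt, lt_add_one s'.l, upd_self _ _ _, hit_loc hlocT hag hhit⟩⟩
      · unfold LegitAt
        rw [upd_self]
        exact ⟨hlt, by rw [upd_ne hlt.ne]; exact hγ, fun hn => hn.2 rfl⟩
      · refine ⟨hlt.le.trans (lt_add_one s'.l).le, fun i hi => ?_, fun i hi => ?_⟩
        · change s.o i = upd s'.o s'.l (Opt.kill s.l) i
          rw [upd_ne (hi.trans hlt).ne, hle₁.2.1 i hi]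
          exact hle'.2.1 i (hi.trans (lt_add_one s.l))
        · change i ∈ s.Pt ↔ i ∈ s'.Pt \ {s.l}
          rw [hle₁.2.2 i hi, hle'.2.2 i (hi.trans (lt_add_one s.l))]
          exact ⟨fun h' => ⟨h', fun h'' => absurd hi (by rw [show i = s.l from h'']; exact lt_irrefl _)⟩,
            fun h' => h'.1⟩
      · change upd s'.o s'.l (Opt.kill s.l) s.l = Opt.coh
        rw [upd_ne hlt.ne]; exact hγ
    · push Not at hex
      exact ⟨s₁, hok₁, hle₁, s.l, h1, lt_add_one s.l, upd_self _ _ _, Or.inr ⟨Or.inl rfl, hex⟩⟩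

/-! ### Limits -/

open Classical in
/-- The union of states. -/
noncomputable def uS (ν : Ord) (f : Ord → Stt) : Stt where
  l := ⨆ μ : Set.Iio ν, (f μ).l
  o i := if h : ∃ μ < ν, i < (f μ).l then (f h.choose).o i else Opt.coh
  Pt := {i | ∃ h : ∃ μ < ν, i < (f μ).l, i ∈ (f h.choose).Pt}

theorem uS_le {ν : Ord} {f : Ord → Stt} (hle : ∀ μ μ', μ ≤ μ' → μ' < ν → leS (f μ) (f μ')) {μ : Ord} (hμ : μ < ν) :
    leS (f μ) (uS ν f) := by
  classical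
  have hcomp : ∀ μ₁ < ν, ∀ μ₂ < ν, ∀ i, i < (f μ₁).l → i < (f μ₂).l → (f μ₁).o i = (f μ₂).o i ∧
      (i ∈ (f μ₁).Pt ↔ i ∈ (f μ₂).Pt) := by
    intro μ₁ h1 μ₂ h2 i hi1 hi2
    rcases le_total μ₁ μ₂ with h | h
    · exact ⟨(hle _ _ h h2).2.1 i hi1, (hle _ _ h h2).2.2 i hi1⟩
    · exact ⟨((hle _ _ h h1).2.1 i hi2).symm, ((hle _ _ h h1).2.2 i hi2).symm⟩
  refine ⟨Ordinal.le_iSup (fun μ : Set.Iio ν => (f μ).l) ⟨μ, hμ⟩, fun i hi => ?_, fun i hi => ?_⟩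
  · have hex : ∃ μ < ν, i < (f μ).l := ⟨μ, hμ, hi⟩
    change _ = (if h : ∃ μ < ν, i < (f μ).l then (f h.choose).o i else Opt.coh)
    rw [dif_pos hex]
    exact (hcomp μ hμ _ hex.choose_spec.1 i hi hex.choose_spec.2).1
  · have hex : ∃ μ < ν, i < (f μ).l := ⟨μ, hμ, hi⟩
    rw [(hcomp μ hμ _ hex.choose_spec.1 i hi hex.choose_spec.2).2]
    exact ⟨fun h => ⟨hex, h⟩, fun h => h.2⟩

theorem uS_ok (hloc : Sz_loc) {ν : Ord} {f : Ord → Stt} (hok : ∀ μ < ν, okS (f μ))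
    (hle : ∀ μ μ', μ ≤ μ' → μ' < ν → leS (f μ) (f μ')) (hν : 0 < ν) : okS (uS ν f) := by
  have h0 := uS_le hle hν
  refine ⟨fun i hi => ?_, ?_, (hok 0 hν).2.2.trans_le h0.1⟩
  · obtain ⟨⟨μ, hμ⟩, hi'⟩ := Ordinal.lt_iSup_iff.1 (show i < ⨆ μ : Set.Iio ν, (f μ).l from hi)
    have h1 := uS_le hle hμ
    exact legitAt_loc hloc (fun j hj => h1.2.1 j (hj.trans_lt hi')) (fun j hj => (h1.2.2 j (hj.trans hi')).2)
      ((hok μ hμ).1 i hi')
  · rw [← h0.2.1 0 (hok 0 hν).2.2]; exact (hok 0 hν).2.1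

theorem job_zbook (hfair : Sz_fair) (hloc : Sz_loc) (hlocT : Sz_locT) (hR : Sz_smallR) (hG : Sz_smallG)
    (hT : Sz_smallT) (hsm : Sz_small) : Sz_book := by
  have hs₀ : okS ⟨1, fun _ => Opt.coh, ∅⟩ := ⟨fun i _ => legitAt_coh rfl, rfl, one_pos⟩
  obtain ⟨f, hf0, hfok, hfle, hflen, hfhd⟩ := hfair Stt Tsk okS leS Stt.l tkS hdS (fun s _ => leS_refl s)
    (fun s s' s'' _ _ _ h h' => leS_trans h h') (fun s s' _ _ h => h.1) (fun s _ => tkS_small hsm hR hT s)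
    (fun s s' t _ _ h hh => hdS_mono hloc hlocT h hh)
    (fun s hs => ⟨⟨s.l + 1, upd s.o s.l Opt.coh, s.Pt⟩, ok_upd hloc hs _ _ (fun _ _ => id)
      (legitAt_coh (upd_self _ _ _)), le_upd s _ _ fun _ _ => Iff.rfl, lt_add_one s.l⟩)
    (fun s t hs ht => step hloc hlocT hG hs ht) (fun s s' t _ _ h hh => tkS_mono hloc h hh)
    (fun ν g h1 h2 h3 => ⟨uS ν g, uS_ok hloc h1 h2 h3, fun μ hμ => uS_le h2 hμ⟩) _ hs₀
  set o : Ord → Opt := fun i => (f (i + 1)).o i with ho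
  set Pt : Set Ord := {i | i ∈ (f (i + 1)).Pt} with hPt
  have hag : ∀ μ i, i < (f μ).l → (f μ).o i = o i ∧ (i ∈ (f μ).Pt ↔ i ∈ Pt) := by
    intro μ i hi
    have hi' : i < (f (i + 1)).l := (lt_add_one i).trans_le (hflen (i + 1))
    rcases le_total μ (i + 1) with h | h
    · exact ⟨(hfle _ _ h).2.1 i hi, (hfle _ _ h).2.2 i hi⟩
    · exact ⟨((hfle _ _ h).2.1 i hi').symm, ((hfle _ _ h).2.2 i hi').symm⟩
  have hlegit : Legit o Pt := by
    intro i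
    have hi' : i < (f (i + 1)).l := (lt_add_one i).trans_le (hflen (i + 1))
    exact legitAt_loc hloc (fun j hj => (hag _ j (hj.trans_lt hi')).1) (fun j hj => (hag _ j (hj.trans hi')).2.2)
      ((hfok (i + 1)).1 i hi')
  refine ⟨o, Pt, hlegit, (hfok _).2.1, ?_, ?_⟩
  · intro x r h1 h2
    have hP : PP (f x).o x = PP o x := (hloc _ _ x fun i hi => (hag x i (hi.trans_le (hflen x))).1).2.1
    have ht : (Sum.inl (x, r) : Tsk) ∈ tkS (f x) :=
      ⟨hflen x, fun a b => by rw [hP]; exact h1 a b, h2⟩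
    obtain ⟨μ, i, h3, h4, h5⟩ := hfhd x _ ht
    have hagi : ∀ j < i, (f μ).o j = o j := fun j hj => (hag μ j (hj.trans h4)).1
    refine ⟨i, h3, ?_⟩
    rcases h5 with ⟨B, g, h5⟩ | h5
    · left
      refine ⟨B, g, ?_⟩
      rw [← upN_loc hloc hagi, ← (hag μ i h4).1]; exact h5
    · right
      rw [← upN_loc hloc hagi]
      exact fun hn => h5 (((hloc _ _ i hagi).2.2.2.1 _).2 hn)
  · intro x c₀ hc₀ T h1
    have hP : PP (f x).o x = PP o x := (hloc _ _ x fun i hi => (hag x i (hi.trans_le (hflen x))).1).2.1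
    have ht : (Sum.inr (x, c₀, T) : Tsk) ∈ tkS (f x) := by
      refine ⟨hflen x, ?_, fun a b => ?_⟩
      · change c₀ ∈ PP (f x).o x
        rw [hP]; exact hc₀
      · change T a b ⊆ PP (f x).o x
        rw [hP]; exact h1 a b
    obtain ⟨μ, γ, h3, h4, h5, h6⟩ := hfhd x _ ht
    refine ⟨γ, h3, by rw [← (hag μ γ h4).1]; exact h5, ?_⟩
    rcases h6 with ⟨β, h7, h8, h9, h10⟩ | ⟨h7, h8⟩
    · left
      exact ⟨β, h7, by rw [← (hag μ β h8).1]; exact h9, hit_loc hlocT (fun i hi => (hag μ i (hi.trans h8)).1) h10⟩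
    · right
      refine ⟨(hag μ γ h4).2.1 h7, fun β hβ z hz1 hz2 => ?_⟩
      refine h8 ⟨β, o, Pt⟩ ⟨fun i _ => hlegit i, (hfok _).2.1, lt_of_le_of_lt bot_le hβ⟩ ?_ ⟨z, hz1, hz2⟩
      refine ⟨Order.add_one_le_of_lt hβ, fun i hi => (hag μ i ?_).1, fun i hi => (hag μ i ?_).2⟩
      · exact (show i < γ + 1 from hi).trans_le (Order.add_one_le_of_lt h4)
      · exact (show i < γ + 1 from hi).trans_le (Order.add_one_le_of_lt h4)

end Pool.Agent.Helper919.SD.Tzbook
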