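import Pool.Agent.Helper919_SDT.LangBasic

set_option autoImplicit false

/-!
# The continuum hypothesis, no new sequences
-/

namespace Pool.Agent.Helper919.SD.Tzch

open Ordinal Cardinal Set
open Pool.Agent.Helper292.SP (fnot fand fall for' fimp fiff fex fground meets IsFun)

variable {o : Ord → Opt} {Prot : Set Ord}

/-- Countable families of dense open subsets of `Frc o`. -/
theorem nnFrc (h : NN o (Full o)) (D : ℕ → Set (Frc o)) (hop : ∀ m, ∀ c ∈ D m, ∀ c' ≤ c, c' ∈ D m)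
    (hdn : ∀ m c, ∃ c' ≤ c, c' ∈ D m) (c : Frc o) : ∃ c' ≤ c, ∀ m, c' ∈ D m := by
  have hD : ∀ m, DO o (Full o) {c | ∃ hc : c ∈ Full o, (⟨c, hc⟩ : Frc o) ∈ D m} := by
    intro m
    refine ⟨?_, ?_, ?_⟩
    · rintro c ⟨hc, _⟩; exact hc
    · rintro c ⟨hc, hc1⟩ c' hc' hle
      exact ⟨hc', hop m _ hc1 ⟨c', hc'⟩ hle⟩
    · intro c hc
      obtain ⟨c', h1, h2⟩ := hdn m ⟨c, hc⟩
      exact ⟨c'.1, ⟨c'.2, h2⟩, h1⟩
  obtain ⟨c', h1, h2, h3⟩ := h _ hD c.1 c.2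
  refine ⟨⟨c', h1⟩, h2, fun m => ?_⟩
  obtain ⟨_, h4⟩ := h3 m
  exact h4

theorem job_zseq (hnn : Sz_nnF) : Sz_seq := by
  intro o Prot hN X F p hp
  rw [mem_fex]
  intro q hq
  obtain ⟨r, hr, h⟩ := nnFrc (hnn o Prot hN)
    (fun m => {c : Frc o | (∃ x, c ∈ meets (F m x)) ∨ ¬ ∃ r, r ≤ c ∧ r ≤ p})
    (by
      rintro m c (⟨x, hx⟩ | hx) c' hc'
      · exact Or.inl ⟨x, meets_mono hx hc'⟩
      · exact Or.inr fun ⟨r, h1, h2⟩ => hx ⟨r, h1.trans hc', h2⟩)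
    (by
      intro m c
      by_cases hc : ∃ r, r ≤ c ∧ r ≤ p
      · obtain ⟨r, h1, h2⟩ := hc
        obtain ⟨r', h3, x, h4⟩ := mem_fex.1 (hp.1 m) r h2
        exact ⟨r', h3.trans h1, Or.inl ⟨x, h4⟩⟩
      · exact ⟨c, le_rfl, Or.inr hc⟩) q
  have h1 : ∀ m, ∃ x, r ∈ meets (F m x) := by
    intro m
    rcases h m with h2 | h2
    · exact h2
    · exact absurd ⟨r, le_rfl, hr.trans hq⟩ h2
  choose f hf using h1
  exact ⟨r, hr, f, fun n => hf n⟩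

/-- The name of the enumeration of the reals. -/
def En (o : Ord → Opt) (a : W) (n : ℕ) : Set (Frc o) :=
  {c | Rec c.1 1 ∧ wo a ≤ c.1.α ∧ c.1.t 0 (wo a) (n + 1) = 1}

theorem mem_co1 {c : Cnd} (h : Rec c 1) (h0 : (0 : Ord) < c.j) : (0 : Ord) ∈ co c.p c.j c.α := by
  refine ⟨h0, ?_⟩
  rcases h with h | h
  · right; rw [← h]; exact zero_add 1
  · left; rw [zero_add]; exact h

theorem rec1_pos {c : Cnd} (hc : c ∈ Full o) (h : Rec c 1) : (0 : Ord) < c.j :=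
  lt_of_lt_of_le zero_lt_one (Rec.le (Full.mem hc) h)

/-- Extension of a condition of the index `1` which has a last level. -/
theorem exists_last (hmdl : St_mdl) (hgs : St_gs) (hg0 : St_good0) (hN : Nice o Prot) {c : Cnd} (hc : c ∈ PP o 1) :
    ∃ c' ∈ PP o 1, KLe o c' c ∧ ∀ α ∈ c'.p.C 1, α ≤ c'.α := by
  obtain ⟨N, δ, hS, hM, -⟩ := hmdl o Prot hN.legit (fun _ _ => U.ord 0) {U.ord 1, U.cond c.p}
    ((Set.countable_singleton _).insert _)
  have h1N : U.ord 1 ∈ N := hS (mem_insert _ _)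
  have hpN : U.cond c.p ∈ N := hS (mem_insert_of_mem _ rfl)
  have hpA := hc.2.1
  obtain ⟨ps, hsq, hps0, hgen, hconst⟩ := hgs o Prot hN.legit 1 (fun z _ => hN.ss z) N δ hM h1N c.p hpN hpA
  have hJ : (1 : Ord) ∈ (ps 0).J := by rw [hps0]; exact hc.2.2.1
  obtain ⟨q, hq, hle, hmax, -⟩ := exists_good hg0 hN.legit (hN.ll 1) hM.basic (gs := none)
    (fun γ h => by cases h) h1N hsq hJ hgen
  have hqc : CLe o q c.p := by rw [← hps0]; exact hle 0
  have hα : c.α ≤ δ := (hM.basic.C_lt hpN hpA hc.2.2.2.1).le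
  obtain ⟨z, hz, h3, h4⟩ := PP.up hc hq.A hqc hq.C hα
  exact ⟨_, h3, h4, hmax⟩

/-- Coding of a real. -/
theorem exists_code (hmdl : St_mdl) (hgs : St_gs) (hg0 : St_good0) (hN : Nice o Prot) (ho : o 0 = Opt.coh) {c : Cnd}
    (hc : c ∈ PP o 1) (s : ℕ → ℚ) (hs : ∀ n, s n = 0 ∨ s n = 1) :
    ∃ d ∈ PP o 1, KLe o d c ∧ ∃ ξ ≤ d.α, ∀ n, d.t 0 ξ (n + 1) = s n := by
  classical
  obtain ⟨c', hc', hle', hmax⟩ := exists_last hmdl hgs hg0 hN hc
  -- the prescribed thread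
  set f : Ord → ℕ → ℚ := fun η n => if η ≤ c'.α then c'.t 0 η n else if n = 0 then 1 else s (n - 1) with hf
  obtain ⟨N, δ, hS, hM, -⟩ := hmdl o Prot hN.legit (fun _ _ => U.ord 0) {U.ord 1, U.cond c'.p, U.fn f}
    (((Set.countable_singleton _).insert _).insert _)
  have h1N : U.ord 1 ∈ N := hS (by simp)
  have hpN : U.cond c'.p ∈ N := hS (by simp)
  have hfN : U.fn f ∈ N := hS (by simp)
  have hpA := hc'.2.1
  have hC1 : c'.α ∈ c'.p.C 1 := hc'.2.2.2.1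
  have hT1 : c'.t ∈ c'.p.T 1 c'.α := hc'.2.2.2.2
  obtain ⟨ps, hsq, hps0, hgen, hconst⟩ := hgs o Prot hN.legit 1 (fun z _ => hN.ss z) N δ hM h1N c'.p hpN hpA
  have hJ : (1 : Ord) ∈ (ps 0).J := by rw [hps0]; exact hc'.2.2.1
  obtain ⟨q, hq, hle, hmaxq, hex⟩ := exists_good hg0 hN.legit (hN.ll 1) hM.basic (gs := none)
    (fun γ h => by cases h) h1N hsq hJ hgen
  have hqc : CLe o q c'.p := by rw [← hps0]; exact hle 0
  have hαδ : c'.α < δ := hM.basic.C_lt hpN hpA hC1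
  have h01 : (0 : Ord) + 1 = 1 := zero_add 1
  -- a thread of the index `0`
  have hcore1 : LegCore q 1 := A.core' hq.A hq.C
  have h0u : (0 : Ord) ∈ q.u 1 δ := hcore1.u0 δ hq.C zero_lt_one
  obtain ⟨h0J, h0C⟩ := hcore1.L1J δ hq.C 0 h0u
  obtain ⟨a, ha⟩ := (A.core' hq.A h0C).Tn δ h0C
  have hLeg : LegCoh c'.p 0 := by
    have h2 := A.opt (o := o) hpA (i := 0) (by rw [h01]; exact hc'.2.2.1)
    unfold LegOpt at h2
    simpa only [ho] using h2
  have hv := hLeg.v01 c'.α (by rw [h01]; exact hC1) c'.t (by rw [h01]; exact hT1)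
  have hf01 : ∀ ξ n, f ξ n = 0 ∨ f ξ n = 1 := by
    intro ξ n
    simp only [hf]
    split_ifs
    · exact hv ξ n
    · exact Or.inr rfl
    · exact hs _
  have hδ : c'.α + 1 < δ := by
    rw [← Order.succ_eq_add_one]; exact hM.basic.lim.succ_lt hαδ
  obtain ⟨z, hz, hza, hzs⟩ := (hex 0 h01).1 (fun r B g h => by rw [ho] at h; cases h) a ha (c'.α + 1) hδ f hfN hf01
    (fun _ n ξ hξ => by
      rw [h01, (hconst n).2.2.2.1] at hξ
      simp only [hf]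
      split_ifs with h3
      · exact hLeg.F1 c'.α (by rw [h01]; exact hC1) c'.t (by rw [h01]; exact hT1) ξ (by rw [h01]; exact hξ) h3
      · rfl)
    (fun γ h => by rw [ho] at h; cases h)
    (Or.inr ⟨c'.α, by rw [h01, hps0]; exact hC1, by rw [h01, hps0]; exact hmax, fun n => by
        rw [h01, (hconst n).1, (hconst 0).1], le_of_lt (lt_add_one _), c'.t, by rw [h01, hps0]; exact hT1,
        fun i hi => absurd hi.1 (not_lt.2 zero_le), fun ξ hξ n => by simp only [hf, if_pos hξ]⟩)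
  rw [h01] at hz
  have hd : (⟨q, 1, δ, z⟩ : Cnd) ∈ PP o 1 := A.pair' hq.A hq.C hz
  have hj : c'.j = 1 := hc'.1
  have hdc' : KLe o ⟨q, 1, δ, z⟩ c' := by
    refine ⟨hqc, hαδ.le, Or.inl hj, ?_⟩
    intro i hi ξ hξ n
    have hi0 : i = 0 := by
      have h4 := hi.1
      rw [hj] at h4
      exact Order.lt_one_iff.1 h4
    subst hi0
    change z 0 ξ n = c'.t 0 ξ n
    rw [hzs ξ (hξ.trans (le_of_lt (lt_add_one _))) n]
    simp only [hf, if_pos hξ]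
  refine ⟨_, hd, KLe.trans hd hc' hc hdc' hle', c'.α + 1, hδ.le, fun n => ?_⟩
  change z 0 (c'.α + 1) (n + 1) = s n
  rw [hzs _ le_rfl]
  have h5 : ¬ c'.α + 1 ≤ c'.α := not_le.2 (lt_add_one _)
  simp only [hf, if_neg h5]
  simp

theorem job_zch (hmdl : St_mdl) (hgs : St_gs) (hg0 : St_good0) (hnn : Sz_nnF) (hrec : Sz_rec) (ham : Sz_amF) :
    Sz_ch := by
  classical
  intro o Prot hN ho c
  unfold CH
  rw [mem_fex]
  intro q _
  refine ⟨q, le_rfl, En o, ?_⟩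
  intro x
  rw [mem_fex]
  intro q hq
  -- decide the real
  obtain ⟨q₁, hq₁, hdec⟩ := nnFrc (hnn o Prot hN)
    (fun m => {c : Frc o | c ∈ meets (x m) ∨ c ∈ fnot (meets (x m))}) (fun m c hc c' hc' => by
      rcases hc with hc | hc
      · exact Or.inl (meets_mono hc hc')
      · exact Or.inr fun r hr => hc r (hr.trans hc'))
    (fun m c => by
      by_cases h : c ∈ fnot (meets (x m))
      · exact ⟨c, le_rfl, Or.inr h⟩
      · rw [mem_fnot] at h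
        push Not at h
        obtain ⟨r, hr, h1⟩ := h
        exact ⟨r, hr, Or.inl h1⟩) q
  obtain ⟨c₂, hc₂, hle₂, hrec₂, -⟩ := hrec o Prot hN q₁.1 q₁.2 1 0 (omega_pos 1)
  have hpr : c₂.pr 1 ∈ PP o 1 := PP.pr hN.legit (Full.mem hc₂) hrec₂
  obtain ⟨d, hd, hdle, ξ, hξ, hcode⟩ := exists_code hmdl hgs hg0 hN ho hpr
    (fun n => if q₁ ∈ meets (x n) then 1 else 0) (fun n => by
      by_cases h : q₁ ∈ meets (x n)
      · rw [if_pos h]; exact Or.inr rfl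
      · rw [if_neg h]; exact Or.inl rfl)
  obtain ⟨c₃, hc₃, -, hle₃, hrec₃, -, hle₃d⟩ := ham o Prot hN c₂ hc₂ 1 hrec₂ d hd hdle
  have hdf : d ∈ Full o := Full.mk hd
  have hdj : d.j = 1 := hd.1
  have hdlt : d.α < ω_ 1 := (PP.core hd).Clt d.α (by rw [hdj]; exact hd.2.2.2.1)
  obtain ⟨a, ha⟩ := wo_surj (hξ.trans_lt hdlt)
  have hrecd : Rec d 1 := Or.inl hdj.symm
  -- values of the coordinate `0` below `d`
  have hval : ∀ r : Cnd, KLe o r d → ∀ n, r.t 0 ξ (n + 1) = if q₁ ∈ meets (x n) then 1 else 0 := by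
    intro r hr n
    rw [hr.t 0 (mem_co1 hrecd (rec1_pos hdf hrecd)) ξ hξ (n + 1)]
    exact hcode n
  obtain ⟨e₃, he₃⟩ : ∃ e₃ : Frc o, e₃.1 = c₃ := ⟨⟨c₃, hc₃⟩, rfl⟩
  subst he₃
  have hle31 : e₃ ≤ q₁ := KLe.trans (Full.mem hc₃) (Full.mem hc₂) (Full.mem q₁.2) hle₃ hle₂
  refine ⟨e₃, hle31.trans hq₁, a, ?_⟩
  intro n
  by_cases h : q₁ ∈ meets (x n)
  · -- in the real
    have hE : e₃ ∈ meets (En o a n) := by
      intro r hr
      refine ⟨r, le_rfl, e₃, ⟨hrec₃, ?_, ?_⟩, hr⟩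
      · rw [ha]; exact hξ.trans hle₃d.α
      · rw [ha]
        rw [hval e₃.1 hle₃d n, if_pos h]
    refine ⟨mem_fimp.2 fun r hr _ => ⟨r, le_rfl, meets_mono hE hr⟩, mem_fimp.2 fun r hr _ => ⟨r, le_rfl, ?_⟩⟩
    exact meets_mono h (hr.trans hle31)
  · have hn : q₁ ∈ fnot (meets (x n)) := (hdec n).resolve_left h
    have hE : ∀ r ≤ e₃, r ∉ meets (En o a n) := by
      intro r hr hr'
      obtain ⟨r', h1, e, ⟨he1, he2, he3⟩, h2⟩ := hr' r le_rfl
      have h3 : r'.1.t 0 (wo a) (n + 1) = e.1.t 0 (wo a) (n + 1) :=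
        h2.t 0 (mem_co1 he1 (rec1_pos e.2 he1)) (wo a) he2 (n + 1)
      have h4 : KLe o r'.1 d := KLe.trans (Full.mem r'.2) (Full.mem hc₃) (Full.mem hdf) (Frc.le_def.1 (h1.trans hr)) hle₃d
      have h5 := hval r'.1 h4 n
      rw [← ha, h3, he3, if_neg h] at h5
      exact one_ne_zero h5
    refine ⟨mem_fimp.2 fun r hr h' => ?_, mem_fimp.2 fun r hr h' => absurd h' (hE r hr)⟩
    exact absurd h' (hn r (hr.trans hle31))

end Pool.Agent.Helper919.SD.Tzch
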