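import Pool.Agent.Helper919_SDT.Stmts2

set_option autoImplicit false

namespace Pool.Agent.Helper919.SD.Tzclo

open Ordinal Cardinal Set

variable {o : Ord → Opt} {Prot : Set Ord}

/-! ### The full forcing notion -/

theorem transF {a b c : Cnd} (ha : a ∈ Full o) (hb : b ∈ Full o) (hc : c ∈ Full o) (h : KLe o a b)
    (h' : KLe o b c) : KLe o a c := KLe.trans (Full.mem ha) (Full.mem hb) (Full.mem hc) h h'

theorem mtF_mono {N : Set Cnd} {c c' : Cnd} (hc : c ∈ Full o) (hc' : c' ∈ Full o) (h : mt o (Full o) N c)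
    (hle : KLe o c' c) : mt o (Full o) N c' := fun e he hle' => h e he (transF he hc' hc hle' hle)

theorem nmtF_mono {N : Set Cnd} {c c' : Cnd} (hc : c ∈ Full o) (hc' : c' ∈ Full o) (h : nmt o (Full o) N c)
    (hle : KLe o c' c) : nmt o (Full o) N c' := fun e he hle' => h e he (transF he hc' hc hle' hle)

theorem mtF_of_dense {N : Set Cnd} {c : Cnd}
    (h : ∀ c' ∈ Full o, KLe o c' c → ∃ c'' ∈ Full o, KLe o c'' c' ∧ mt o (Full o) N c'') : mt o (Full o) N c := by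
  intro c' hc' hle
  obtain ⟨c₂, h2, h3, h4⟩ := h c' hc' hle
  obtain ⟨c₃, h5, h6, d, hd, h7⟩ := h4 c₂ h2 (KLe.refl _)
  exact ⟨c₃, h5, transF h5 h2 hc' h6 h3, d, hd, h7⟩

theorem dec_do (N : Set Cnd) :
    DO o (Full o) {c | c ∈ Full o ∧ (mt o (Full o) N c ∨ nmt o (Full o) N c)} where
  sub _ h := h.1
  op := by
    rintro c ⟨hc, h⟩ c' hc' hle
    refine ⟨hc', ?_⟩
    rcases h with h | h
    · exact Or.inl (mtF_mono hc hc' h hle)
    · exact Or.inr (nmtF_mono hc hc' h hle)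
  dn := by
    intro c hc
    obtain ⟨c', h1, h2, h3⟩ := exists_mt_or (o := o) (N := N) hc
    exact ⟨c', ⟨h1, h3⟩, h2⟩

/-! ### Closure points -/

/-- Closure of ordinals under a function, with countable cofinality excluded. -/
theorem exists_closure (F : Ord → Ord) (hF : ∀ s, s < F s) (y₀ : Ord) :
    ∃ y > y₀, (∀ S : Set Ord, S.Countable → (∀ z ∈ S, z < y) → ∃ w < y, ∀ z ∈ S, z < w) ∧
      ∀ z < y, ∃ s, z < s ∧ F s ≤ y := by
  let G : Ord → Ord := WellFounded.fix (r := (· < · : Ord → Ord → Prop)) (C := fun _ => Ord) wellFounded_lt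
    fun ξ ih => max (y₀ + 1) (⨆ η : Iio ξ, F (ih η.1 η.2))
  have hG : ∀ ξ, G ξ = max (y₀ + 1) (⨆ η : Iio ξ, F (G η.1)) := fun ξ => by
    change WellFounded.fix _ _ ξ = _
    rw [WellFounded.fix_eq]
  have hFG : ∀ η ξ, η < ξ → F (G η) ≤ G ξ := by
    intro η ξ h
    rw [hG ξ]
    exact (Ordinal.le_iSup (fun η : Iio ξ => F (G η.1)) ⟨η, h⟩).trans (le_max_right _ _)
  have hGm : ∀ η ξ, η < ξ → G η < G ξ := fun η ξ h => (hF _).trans_le (hFG η ξ h)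
  have hGm' : ∀ η ξ, η ≤ ξ → G η ≤ G ξ := fun η ξ h => by
    rcases h.lt_or_eq with h | rfl
    · exact (hGm _ _ h).le
    · exact le_rfl
  have hy₀ : ∀ ξ, y₀ < G ξ := fun ξ => by
    rw [hG ξ]; exact (lt_add_one _).trans_le (le_max_left _ _)
  have hlim : Order.IsSuccLimit (ω_ 1) := by
    rw [← ord_aleph]; exact isSuccLimit_ord (aleph0_le_aleph 1)
  have hsplit : ∀ z < G (ω_ 1), ∃ η < ω_ 1, z < G η := by
    intro z hz
    rw [hG (ω_ 1), lt_max_iff] at hz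
    rcases hz with hz | hz
    · exact ⟨0, Ordinal.omega_pos 1, (Order.le_of_lt_succ hz).trans_lt (hy₀ 0)⟩
    · obtain ⟨η, hη⟩ := (Ordinal.lt_iSup_iff (f := fun η : Iio (ω_ 1) => F (G η.1))).1 hz
      exact ⟨η.1 + 1, hlim.succ_lt η.2, hη.trans_le (hFG _ _ (lt_add_one _))⟩
  refine ⟨G (ω_ 1), hy₀ _, ?_, ?_⟩
  · intro S hS hSy
    have h : ∀ z : S, ∃ η < ω_ 1, z.1 < G η := fun z => hsplit z.1 (hSy z.1 z.2)
    choose e he1 he2 using h
    have := hS.to_subtype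
    refine ⟨G (⨆ z : S, e z), hGm _ _ (Ordinal.iSup_lt_omega_one he1), fun z hz => ?_⟩
    refine (he2 ⟨z, hz⟩).trans_le (hGm' _ _ ?_)
    have : Small.{0} S := Countable.toSmall S
    exact Ordinal.le_iSup e ⟨z, hz⟩
  · intro z hz
    obtain ⟨η, h1, h2⟩ := hsplit z hz
    exact ⟨G η, h2, hFG η _ h1⟩

theorem res_eq {p : Cond} (h : Nrm p) {s z : Ord} (hsz : s ≤ z) (hJ : ∀ j ∈ p.J, j ≤ z → j ≤ s) :
    p.res z = p.res s := by
  rw [← res_self (nrm_res h z) (fun j hj => hJ j hj.1 hj.2), res_res _ hsz]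

theorem job_clo (hsm : Sz_small) : Sz_clo := by
  intro o Prot hn X D hD y₀
  have hl := hn.legit
  -- the bounding function
  have hB : ∀ s₀ : Ord, ∃ b > s₀, ∀ s ≤ s₀, ∀ c ∈ PP o s, ∀ x : X, ∃ c' ∈ D x, KLe o c' c ∧ c'.j < b := by
    intro s₀
    have h1 : ∀ (s : Ord) (c : PP o s) (x : X), ∃ c' ∈ D x, KLe o c' c.1 := fun s c x =>
      (hD x).dn c.1 (Full.mk c.2)
    choose g hg1 hg2 using h1
    have : ∀ s : Iic s₀, Small.{0} (PP o s.1) := fun s => hsm o s.1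
    let ι := Σ s : Iic s₀, (PP o s.1) × X
    let f : ι → Ord := fun a => (g a.1.1 a.2.1 a.2.2).j + 1
    have : Small.{0} ι := small_sigma _
    refine ⟨max (s₀ + 1) (⨆ a, f a), (lt_add_one s₀).trans_le (le_max_left _ _), fun s hs c hc x => ?_⟩
    refine ⟨g s ⟨c, hc⟩ x, hg1 _ _ _, hg2 s ⟨c, hc⟩ x, ?_⟩
    have h2 : f ⟨⟨s, hs⟩, ⟨c, hc⟩, x⟩ ≤ ⨆ a, f a := Ordinal.le_iSup f _
    exact lt_of_lt_of_le (lt_add_one _) (h2.trans (le_max_right _ _))
  choose F hF1 hF2 using hB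
  obtain ⟨y, hy, hcof, hcl⟩ := exists_closure F hF1 y₀
  refine ⟨y, hy, hcof, fun x => ⟨fun c hc => hc.2, ?_, ?_⟩⟩
  · rintro c ⟨h1, h2⟩ c' hc' hle
    exact ⟨(hD x).op c h1 c' (Full.mk hc') hle, hc'⟩
  · intro c hc
    have hy0 : ∀ i, i < y → i + 1 < y := by
      intro i hi
      obtain ⟨w, hw, h⟩ := hcof {i} (countable_singleton i) (by rintro z rfl; exact hi)
      exact (Order.add_one_le_of_lt (h i rfl)).trans_lt hw
    obtain ⟨hcj, hcA, hcJ, hcC, hcT⟩ := hc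
    have hc : c ∈ PP o y := ⟨hcj, hcA, hcJ, hcC, hcT⟩
    obtain ⟨s', hs'y, hs'⟩ := hcof {j | j ∈ c.p.J ∧ j < y} ((A.nrm hcA).J.mono fun j hj => hj.1) fun z hz => hz.2
    obtain ⟨c', hc', hle, -, hrec⟩ := (hn.nx y).2.2 c hc 0 (Ordinal.omega_pos 1) s' hs'y
    have hc'j : c'.j = y := hc'.1
    have hRec : Rec c' s' := Or.inr (by rw [hc'j]; exact hrec)
    have he0 : c'.pr s' ∈ PP o s' := PP.pr hl hc' hRec
    obtain ⟨s, hs1, hs2⟩ := hcl s' hs'y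
    obtain ⟨d, hd, hde, hdj⟩ := hF2 s s' hs1.le _ he0 x
    have hdy : d.j < y := hdj.trans_le hs2
    have hdF : d ∈ PP o d.j := Full.mem ((hD x).sub hd)
    have hs'd : s' ≤ d.j := (KLe.rc hdF he0 hde).le hdF
    have hExt : Ext o d c d.j := by
      have hcoe : co (c'.pr s').p s' c'.α = {i | i ∈ co c'.p c'.j c'.α ∧ i < s'} := PP.co_pr hc' hRec
      have hco1 : co c.p c.j c.α ⊆ co c'.p c'.j c'.α := hle.co hc' hc
      have hco2 : co (c'.pr s').p s' c'.α ⊆ co d.p d.j d.α := hde.co hdF he0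
      have hlt : ∀ i ∈ co c.p c.j c.α, i < d.j → i < s' := by
        rintro i ⟨hi1, hi2⟩ -
        rw [hcj] at hi1 hi2
        rcases hi2 with hi2 | hi2
        · have h3 := (A.core hcA hcJ).L1J _ hcC _ hi2
          exact (lt_add_one i).trans (hs' (i + 1) ⟨h3.1, hy0 i hi1⟩)
        · exact absurd hi2 (hy0 i hi1).ne
      refine ⟨?_, ?_, ?_, ?_⟩
      · have h1 : c.p.res d.j = c.p.res s' := res_eq (A.nrm hcA) hs'd fun j hj hjd =>
          (hs' j ⟨hj, hjd.trans_lt hdy⟩).le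
        rw [h1]
        exact CLe.trans (nrm_res (A.nrm hcA) _) hde.p (hle.p.res s')
      · exact hle.α.trans hde.α
      · rintro i ⟨hi1, hi2⟩
        refine hco2 ?_
        rw [hcoe]
        exact ⟨hco1 hi1, hlt i hi1 hi2⟩
      · rintro i ⟨hi1, hi2⟩ ξ hξ n
        have his := hlt i hi1 hi2
        have h1 : d.t i ξ n = below s' c'.t i ξ n :=
          hde.t i (by
            change i ∈ co (c'.pr s').p s' c'.α
            rw [hcoe]; exact ⟨hco1 hi1, his⟩) ξ (hξ.trans hle.α) n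
        rw [h1, below_of_lt his]
        exact hle.t i hi1 ξ hξ n
    obtain ⟨c'', h1, h2, h3, h4⟩ := hn.am y c hc d.j hdy d hdF hExt
    have h5 : KLe o c'' d := KLe.trans h1 (PP.pr hl h1 h3) hdF (PP.le_pr h1 h3) h4
    exact ⟨c'', ⟨(hD x).op d hd c'' (Full.mk h1) h5, h1⟩, h2⟩

theorem job_nnF (hclo : Sz_clo) (hlf : Sz_lf) : Sz_nnF := by
  intro o Prot hn D hD c hc
  obtain ⟨y, hy, -, hDy⟩ := hclo o Prot hn ℕ D hD c.j
  obtain ⟨c₁, h1, h2⟩ := hlf o Prot hn c.j y hy.le c (Full.mem hc)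
  obtain ⟨c', h3, h4, h5⟩ := hn.nn y _ hDy c₁ h1
  exact ⟨c', Full.mk h3, KLe.trans h3 h1 (Full.mem hc) h4 h2, fun m => (h5 m).1⟩

theorem job_red (hclo : Sz_clo) (hrec : Sz_rec) (ham : Sz_amF) : Sz_red := by
  intro o Prot hn X N y₀
  obtain ⟨y, hy, -, hDy⟩ := hclo o Prot hn X _ (fun x => dec_do (N x)) y₀
  refine ⟨y, hy, fun x c hc => ⟨fun h => ?_, fun h => ?_⟩⟩
  · intro c' hc' hle
    obtain ⟨c₁, h1, h2, h3, -⟩ := hrec o Prot hn c' hc' y 0 (Ordinal.omega_pos 1)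
    have h4 := PP.pr hn.legit (Full.mem h1) h3
    obtain ⟨e, ⟨he1, he2⟩, he3⟩ := (hDy x).dn _ h4
    obtain ⟨c'', h5, -, h6, -, -, h7⟩ := ham o Prot hn c₁ h1 y h3 e he2 he3
    have h8 : KLe o c'' c' := transF h5 h1 hc' h6 h2
    refine ⟨c'', h5, h8, e, ⟨he2, ?_⟩, h7⟩
    rcases he1.2 with h9 | h9
    · exact h9
    · exact absurd (mtF_mono hc h5 h (transF h5 hc' hc h8 hle)) (nmtF_mono he1.1 h5 h9 h7 c'' h5 (KLe.refl _))
  · refine mtF_of_dense fun c' hc' hle => ?_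
    obtain ⟨c'', h1, h2, d, ⟨hd1, hd2⟩, h3⟩ := h c' hc' hle
    exact ⟨c'', h1, h2, mtF_mono (Full.mk hd1) h1 hd2 h3⟩

theorem job_zclo (hsm : Sz_small) (hlf : Sz_lf) (hrec : Sz_rec) (ham : Sz_amF) : Sz_clo ∧ Sz_nnF ∧ Sz_red :=
  ⟨job_clo hsm, job_nnF (job_clo hsm) hlf, job_red (job_clo hsm) hrec ham⟩

end Pool.Agent.Helper919.SD.Tzclo
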