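import Pool.Agent.Helper919_SDT.Stmts2

set_option autoImplicit false

namespace Pool.Agent.Helper919.SD.Tzfair

open Ordinal Cardinal Set

/-- A transfinite recursion with bounds at all stages. -/
theorem recur {S : Type 1} (ok : S → Prop) (le : S → S → Prop) (hrefl : ∀ s, ok s → le s s)
    (htrans : ∀ s s' s'', ok s → ok s' → ok s'' → le s s' → le s' s'' → le s s'')
    (hlim : ∀ (ν : Ord) (f : Ord → S), (∀ μ < ν, ok (f μ)) → (∀ μ μ', μ ≤ μ' → μ' < ν → le (f μ) (f μ')) → 0 < ν →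
      ∃ s, ok s ∧ ∀ μ < ν, le (f μ) s)
    (G : Ord → S → S) (hG : ∀ μ s, ok s → ok (G μ s) ∧ le s (G μ s)) (s₀ : S) (h₀ : ok s₀) :
    ∃ f : Ord → S, f 0 = G 0 s₀ ∧ (∀ μ, ok (f μ)) ∧ (∀ μ, le s₀ (f μ)) ∧ (∀ μ μ', μ ≤ μ' → le (f μ) (f μ')) ∧
      ∀ μ, 0 < μ → ∃ s, ok s ∧ (∀ μ' < μ, le (f μ') s) ∧ f μ = G μ s := by
  classical
  let ub : Ord → (Ord → S) → S := fun μ g =>
    if h : ∃ s, ok s ∧ ∀ μ' < μ, le (g μ') s then h.choose else s₀
  have hub : ∀ μ g, (∃ s, ok s ∧ ∀ μ' < μ, le (g μ') s) → ok (ub μ g) ∧ ∀ μ' < μ, le (g μ') (ub μ g) := by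
    intro μ g h
    have : ub μ g = h.choose := dif_pos h
    rw [this]; exact h.choose_spec
  let f : Ord → S := WellFounded.fix (r := (· < · : Ord → Ord → Prop)) (C := fun _ => S) wellFounded_lt
    fun μ ih => if μ = 0 then G 0 s₀ else G μ (ub μ (fun μ' => if h : μ' < μ then ih μ' h else s₀))
  have hf : ∀ μ, f μ = if μ = 0 then G 0 s₀ else G μ (ub μ (fun μ' => if μ' < μ then f μ' else s₀)) := by
    intro μ
    change WellFounded.fix _ _ μ = _
    rw [WellFounded.fix_eq]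
    rfl
  have hf0 : f 0 = G 0 s₀ := by rw [hf 0, if_pos rfl]
  have hf1 : ∀ μ, 0 < μ → f μ = G μ (ub μ (fun μ' => if μ' < μ then f μ' else s₀)) := fun μ hμ => by
    rw [hf μ, if_neg hμ.ne']
  have main : ∀ μ, ok (f μ) ∧ (∀ μ' ≤ μ, le (f μ') (f μ)) ∧
      (0 < μ → ok (ub μ (fun μ' => if μ' < μ then f μ' else s₀)) ∧
        ∀ μ' < μ, le (f μ') (ub μ (fun μ' => if μ' < μ then f μ' else s₀))) := by
    intro μ
    induction μ using WellFoundedLT.induction with
    | ind μ ih =>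
      rcases (zero_le : (0 : Ord) ≤ μ).eq_or_lt with h | h
      · subst h
        have h1 : ok (f 0) := by rw [hf0]; exact (hG 0 s₀ h₀).1
        refine ⟨h1, fun μ' hμ' => ?_, fun h => absurd h (lt_irrefl _)⟩
        have : μ' = 0 := le_antisymm hμ' zero_le
        subst this
        exact hrefl _ h1
      · set g : Ord → S := fun μ' => if μ' < μ then f μ' else s₀ with hg
        have hgf : ∀ μ' < μ, g μ' = f μ' := fun μ' h => if_pos h
        have h2 := hub μ g (hlim μ g (fun μ' h' => by rw [hgf μ' h']; exact (ih μ' h').1)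
          (fun μ₁ μ₂ h12 h2 => by
            rw [hgf μ₁ (h12.trans_lt h2), hgf μ₂ h2]; exact (ih μ₂ h2).2.1 μ₁ h12) h)
        have h2' : ∀ μ' < μ, le (f μ') (ub μ g) := fun μ' h' => by rw [← hgf μ' h']; exact h2.2 μ' h'
        have h3 := hG μ _ h2.1
        rw [← hf1 μ h] at h3
        refine ⟨h3.1, fun μ' hμ' => ?_, fun _ => ⟨h2.1, h2'⟩⟩
        rcases hμ'.eq_or_lt with rfl | hμ'
        · exact hrefl _ h3.1
        · exact htrans _ _ _ (ih μ' hμ').1 h2.1 h3.1 (h2' μ' hμ') h3.2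
  have hf00 : le s₀ (f 0) := by rw [hf0]; exact (hG 0 s₀ h₀).2
  exact ⟨f, hf0, fun μ => (main μ).1, fun μ => htrans _ _ _ h₀ (main 0).1 (main μ).1 hf00 ((main μ).2.1 0 zero_le),
    fun μ μ' h => (main μ').2.1 μ h, fun μ h => ⟨_, ((main μ).2.2 h).1, ((main μ).2.2 h).2, hf1 μ h⟩⟩

/-- Enumeration of a small set by an initial segment of the ordinals. -/
theorem enum_small {τ : Type 1} (X : Set τ) (hX : Small.{0} X) :
    ∃ (ν : Ord) (e : Ord → Option τ), ∀ t ∈ X, ∃ μ < ν, e μ = some t := by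
  classical
  let Y : Type := Shrink.{0} X
  let r : Y → Y → Prop := WellOrderingRel
  let c : Ord → Option τ := fun μ => if h : ∃ a : Y, typein r a = μ then some (((equivShrink X).symm h.choose).1) else none
  refine ⟨type r, c, fun t ht => ?_⟩
  let a : Y := equivShrink X ⟨t, ht⟩
  refine ⟨typein r a, typein_lt_type r a, ?_⟩
  have h : ∃ a' : Y, typein r a' = typein r a := ⟨a, rfl⟩
  have h1 : c (typein r a) = some (((equivShrink X).symm h.choose).1) := dif_pos h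
  have h2 : h.choose = a := typein_injective r h.choose_spec
  rw [h1, h2]
  simp [a]

theorem job_zfair : Sz_fair := by
  classical
  intro S τ ok le len tk hd hrefl htrans hlen hsmall hdm hext hhd htk hlim s₀ h₀
  -- all tasks at once
  have step : ∀ s, ok s → ∃ s', ok s' ∧ le s s' ∧ len s < len s' ∧ ∀ t ∈ tk s, hd s' t := by
    intro s hs
    obtain ⟨ν, e, he⟩ := enum_small (tk s) (hsmall s hs)
    let G : Ord → S → S := fun μ s' =>
      if h : ∃ t, e μ = some t ∧ ∃ s'', ok s'' ∧ le s' s'' ∧ hd s'' t then h.choose_spec.2.choose else s'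
    have hG : ∀ μ s', ok s' → ok (G μ s') ∧ le s' (G μ s') := by
      intro μ s' hs'
      by_cases h : ∃ t, e μ = some t ∧ ∃ s'', ok s'' ∧ le s' s'' ∧ hd s'' t
      · have h1 : G μ s' = h.choose_spec.2.choose := dif_pos h
        rw [h1]
        exact ⟨h.choose_spec.2.choose_spec.1, h.choose_spec.2.choose_spec.2.1⟩
      · have h1 : G μ s' = s' := dif_neg h
        rw [h1]; exact ⟨hs', hrefl s' hs'⟩
    have hG2 : ∀ μ s' t, ok s' → e μ = some t → t ∈ tk s' → hd (G μ s') t := by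
      intro μ s' t hs' ht htk'
      have h : ∃ t, e μ = some t ∧ ∃ s'', ok s'' ∧ le s' s'' ∧ hd s'' t := ⟨t, ht, hhd s' t hs' htk'⟩
      have h1 : G μ s' = h.choose_spec.2.choose := dif_pos h
      have h2 : h.choose = t := Option.some.inj (h.choose_spec.1.symm.trans ht)
      have h3 := h.choose_spec.2.choose_spec.2.2
      rw [h1]
      exact (congrArg (fun t' => hd h.choose_spec.2.choose t') h2).mp h3
    obtain ⟨f, hf0, hf1, hf2, hf3, hf4⟩ := recur ok le hrefl htrans hlim G hG s hs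
    obtain ⟨s₁, h1, h2, h3⟩ := hext (f ν) (hf1 ν)
    have hss : le s s₁ := htrans _ _ _ hs (hf1 ν) h1 (hf2 ν) h2
    refine ⟨s₁, h1, hss, (hlen _ _ hs (hf1 ν) (hf2 ν)).trans_lt h3, fun t ht => ?_⟩
    obtain ⟨μ, hμ, heμ⟩ := he t ht
    have h4 : hd (f μ) t := by
      rcases (zero_le : (0 : Ord) ≤ μ).eq_or_lt with h | h
      · subst h
        rw [hf0]; exact hG2 0 s t hs heμ ht
      · obtain ⟨s', h5, h6, h7⟩ := hf4 μ h
        rw [h7]
        refine hG2 μ s' t h5 heμ (htk s s' t hs h5 ?_ ht)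
        exact htrans _ _ _ hs (hf1 0) h5 (hf2 0) (h6 0 h)
    exact hdm _ _ t (hf1 μ) h1 (htrans _ _ _ (hf1 μ) (hf1 ν) h1 (hf3 μ ν hμ.le) h2) h4
  let G : Ord → S → S := fun μ s => if h : 0 < μ ∧ ok s then (step s h.2).choose else s
  have hGp : ∀ μ s (h : 0 < μ ∧ ok s), G μ s = (step s h.2).choose := fun μ s h => dif_pos h
  have hG0 : ∀ s, G 0 s = s := fun s => dif_neg fun h => absurd h.1 (lt_irrefl _)
  have hG : ∀ μ s, ok s → ok (G μ s) ∧ le s (G μ s) := by
    intro μ s hs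
    rcases (zero_le : (0 : Ord) ≤ μ).eq_or_lt with h | h
    · subst h
      rw [hG0]; exact ⟨hs, hrefl s hs⟩
    · rw [hGp μ s ⟨h, hs⟩]
      exact ⟨(step s hs).choose_spec.1, (step s hs).choose_spec.2.1⟩
  obtain ⟨f, hf0, hf1, hf2, hf3, hf4⟩ := recur ok le hrefl htrans hlim G hG s₀ h₀
  refine ⟨f, by rw [hf0, hG0], hf1, hf3, fun μ => ?_, fun μ t ht => ⟨μ + 1, ?_⟩⟩
  · induction μ using WellFoundedLT.induction with
    | ind μ ih =>
      refine le_of_forall_lt fun μ' hμ' => ?_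
      have hμ0 : 0 < μ := lt_of_le_of_lt zero_le hμ'
      obtain ⟨s, h1, h2, h3⟩ := hf4 μ hμ0
      have h4 : len s < len (f μ) := by
        rw [h3, hGp μ s ⟨hμ0, h1⟩]; exact (step s h1).choose_spec.2.2.1
      exact ((ih μ' hμ').trans (hlen _ _ (hf1 μ') h1 (h2 μ' hμ'))).trans_lt h4
  · have hμ0 : 0 < μ + 1 := lt_of_le_of_lt zero_le (lt_add_one μ)
    obtain ⟨s, h1, h2, h3⟩ := hf4 (μ + 1) hμ0
    rw [h3, hGp _ s ⟨hμ0, h1⟩]
    exact (step s h1).choose_spec.2.2.2 t (htk _ s t (hf1 μ) h1 (h2 μ (lt_add_one μ)) ht)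

end Pool.Agent.Helper919.SD.Tzfair
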