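import Pool.Agent.Helper919_SDT.Stmts2

set_option autoImplicit false

/-!
# Reduction of good names
-/

namespace Pool.Agent.Helper919.SD.Tzgoodred

open Ordinal Cardinal Set
open Pool.Agent.Helper292.SP (fnot fand fall for' fimp fiff fex fground meets IsFun)

variable {o : Ord → Opt} {Prot : Set Ord}

theorem fm {c : Cnd} (h : c ∈ Full o) : c ∈ PP o c.j := Full.mem h

theorem ktrans {a b c : Cnd} (ha : a ∈ Full o) (hb : b ∈ Full o) (hc : c ∈ Full o) (h : KLe o a b) (h' : KLe o b c) :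
    KLe o a c := KLe.trans (fm ha) (fm hb) (fm hc) h h'

theorem mtF_mono {N : Set Cnd} {c c' : Cnd} (hc : c ∈ Full o) (hc' : c' ∈ Full o) (h : mt o (Full o) N c)
    (hle : KLe o c' c) : mt o (Full o) N c' := fun e he hle' => h e he (ktrans he hc' hc hle' hle)

theorem mtF_dense {N : Set Cnd} {c : Cnd}
    (h : ∀ c' ∈ Full o, KLe o c' c → ∃ c'' ∈ Full o, KLe o c'' c' ∧ mt o (Full o) N c'') : mt o (Full o) N c := by
  intro c' hc' hle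
  obtain ⟨c₂, h2, h3, h4⟩ := h c' hc' hle
  obtain ⟨c₃, h5, h6, d, hd, h7⟩ := h4 c₂ h2 (KLe.refl _)
  exact ⟨c₃, h5, ktrans h5 h2 hc' h6 h3, d, hd, h7⟩

theorem job_zgoodred (hred : Sz_red) (habs : Sz_abs) (ham : Sz_amF) (hrec : Sz_rec) : Sz_goodred := by
  intro o Prot hn r hr y₀
  have hl := hn.legit
  obtain ⟨habs1, -⟩ := habs o Prot hn
  obtain ⟨y, hy, hred'⟩ := hred o Prot hn ((W × ℕ) × (W × ℕ)) (fun x => r (wo x.1.1, x.1.2) (wo x.2.1, x.2.2)) y₀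
  have hne : ∀ a b : Node, ∀ c ∈ Full o, mt o (Full o) (r a b) c → a.1 < ω_ 1 ∧ b.1 < ω_ 1 := by
    intro a b c hc h
    obtain ⟨_, _, _, d, hd, -⟩ := h c hc (KLe.refl _)
    exact hr.lt a b ⟨d, hd⟩
  let r' : Node → Node → Set Cnd := fun a b => {c | c ∈ PP o y ∧ mt o (Full o) (r a b) c}
  have hsub : ∀ a b, r' a b ⊆ PP o y := fun a b c hc => hc.1
  have hne' : ∀ a b : Node, (r' a b).Nonempty → a.1 < ω_ 1 ∧ b.1 < ω_ 1 := by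
    rintro a b ⟨c, hc⟩
    exact hne a b c ⟨_, hc.1⟩ hc.2
  -- `r` and `r'`
  have h1 : ∀ a b, ∀ c ∈ Full o, mt o (Full o) (r a b) c ↔ mt o (Full o) (r' a b) c := by
    intro a b c hc
    by_cases hab : a.1 < ω_ 1 ∧ b.1 < ω_ 1
    · obtain ⟨wa, hwa⟩ := wo_surj hab.1
      obtain ⟨wb, hwb⟩ := wo_surj hab.2
      have := hred' ((wa, a.2), (wb, b.2)) c hc
      simp only [hwa, hwb] at this
      exact this
    · constructor
      · intro h; exact absurd (hne a b c hc h) hab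
      · intro h
        obtain ⟨_, _, _, d, hd, -⟩ := h c hc (KLe.refl _)
        exact absurd (hne' a b ⟨d, hd⟩) hab
  -- the values of `upN`
  have h2 : ∀ z ≥ y, ∀ a b, ∀ c, c ∈ upN o z r' a b ↔ c ∈ PP o z ∧ mt o (Full o) (r a b) c := by
    intro z hz a b c
    refine and_congr_right fun hc => ?_
    rw [h1 a b c ⟨_, hc⟩]
    exact habs1 y z hz (r' a b) (hsub a b) c hc
  have h4 : ∀ z ≥ y, ∀ a b, ∀ c ∈ Full o, mt o (Full o) (r a b) c ↔ mt o (Full o) (upN o z r' a b) c := by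
    intro z hz a b c hc
    constructor
    · intro h c' hc' hle
      obtain ⟨c₂, hc₂, h3, d, hd, h4⟩ := (h1 a b c hc).1 h c' hc' hle
      obtain ⟨c₃, hc₃, h5, h6, -⟩ := hrec o Prot hn c₂ hc₂ z 0 (Ordinal.omega_pos 1)
      have hdF : d ∈ Full o := ⟨_, hd.1⟩
      have h7 : KLe o c₃ d := ktrans hc₃ hc₂ hdF h5 h4
      have h8 : KLe o (c₃.pr z) d := KLe.pr_of_le hl (fm hc₃) hd.1 h7 h6 hz
      have h9 : c₃.pr z ∈ PP o z := PP.pr hl (fm hc₃) h6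
      refine ⟨c₃, hc₃, ktrans hc₃ hc₂ hc' h5 h3, c₃.pr z, (h2 z hz a b _).2 ⟨h9, ?_⟩, PP.le_pr (fm hc₃) h6⟩
      exact mtF_mono hdF ⟨_, h9⟩ hd.2 h8
    · intro h
      refine mtF_dense fun c' hc' hle => ?_
      obtain ⟨c₂, hc₂, h3, d, hd, h4⟩ := h c' hc' hle
      have hd' := (h2 z hz a b d).1 hd
      exact ⟨c₂, hc₂, h3, mtF_mono ⟨_, hd'.1⟩ hc₂ hd'.2 h4⟩
  refine ⟨y, hy.le, r', hsub, hne', ?_, h4⟩
  intro z hz
  have hsub' : ∀ a b, upN o z r' a b ⊆ PP o z := fun a b c hc => hc.1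
  have K : ∀ a b, ∀ c ∈ PP o z, mt o (PP o z) (upN o z r' a b) c ↔ mt o (Full o) (r a b) c := by
    intro a b c hc
    rw [habs1 z z le_rfl _ (hsub' a b) c hc, h4 z hz a b c ⟨_, hc⟩]
  refine ⟨hsub', ?_, ?_, ?_, ?_, ?_, ?_, ?_⟩
  · rintro a b ⟨c, hc⟩
    exact hne a b c ⟨_, hc.1⟩ ((h2 z hz a b c).1 hc).2
  · intro c hc a b h
    exact hr.lvl c ⟨_, hc⟩ a b ((K a b c hc).1 h)
  · intro c hc a b h
    have := hr.refl c ⟨_, hc⟩ a b ((K a b c hc).1 h)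
    exact ⟨(K _ _ c hc).2 this.1, (K _ _ c hc).2 this.2⟩
  · intro c hc a b d h h'
    exact (K _ _ c hc).2 (hr.trans c ⟨_, hc⟩ a b d ((K _ _ c hc).1 h) ((K _ _ c hc).1 h'))
  · intro c hc b hb ξ hξ
    obtain ⟨c', hc', hle, n, hn'⟩ := hr.ex c ⟨_, hc⟩ b ((K _ _ c hc).1 hb) ξ hξ
    obtain ⟨c₂, hc₂, h5, d, hd, h6⟩ := (h4 z hz (ξ, n) b c' hc').1 hn' c' hc' (KLe.refl _)
    have hd' := (h2 z hz (ξ, n) b d).1 hd
    have hrz : Rec c₂ z := KLe.rc (fm hc₂) hd'.1 h6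
    have h7 : c₂.pr z ∈ PP o z := PP.pr hl (fm hc₂) hrz
    refine ⟨c₂.pr z, h7, KLe.pr_of_le hl (fm hc₂) hc (ktrans hc₂ hc' ⟨_, hc⟩ h5 hle) hrz le_rfl, n, ?_⟩
    exact (K _ _ _ h7).2 (mtF_mono ⟨_, hd'.1⟩ ⟨_, h7⟩ hd'.2 (KLe.pr_of_le hl (fm hc₂) hd'.1 h6 hrz le_rfl))
  · intro c hc a a' b h h' h''
    exact hr.uniq c ⟨_, hc⟩ a a' b ((K _ _ c hc).1 h) ((K _ _ c hc).1 h') h''
  · intro c hc b hb1 hb2
    refine hr.nobr c ⟨_, hc⟩ (fun x => {e | e ∈ PP o z ∧ mt o (PP o z) (b x) e}) ?_ ?_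
    · intro c' hc' hle x x' hx hx'
      obtain ⟨c₁, hc₁, h5, d, hd, h6⟩ := hx c' hc' (KLe.refl _)
      obtain ⟨c₂, hc₂, h7, d', hd', h8⟩ := hx' c₁ hc₁ h5
      have h9 : KLe o c₂ d := ktrans hc₂ hc₁ ⟨_, hd.1⟩ h7 h6
      have hrz : Rec c₂ z := KLe.rc (fm hc₂) hd.1 h9
      have h10 : c₂.pr z ∈ PP o z := PP.pr hl (fm hc₂) hrz
      have h11 : KLe o (c₂.pr z) d := KLe.pr_of_le hl (fm hc₂) hd.1 h9 hrz le_rfl
      have h12 : KLe o (c₂.pr z) d' := KLe.pr_of_le hl (fm hc₂) hd'.1 h8 hrz le_rfl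
      have h13 : KLe o c₂ c' := ktrans hc₂ hc₁ hc' h7 h5
      have h14 : KLe o (c₂.pr z) c := KLe.pr_of_le hl (fm hc₂) hc (ktrans hc₂ hc' ⟨_, hc⟩ h13 hle) hrz le_rfl
      obtain ⟨e, he, he1, he2⟩ := hb1 _ h10 h14 x x' (hd.2.mono Subset.rfl hd.1 h10 h11)
        (hd'.2.mono Subset.rfl hd'.1 h10 h12)
      obtain ⟨c₃, hc₃, -, h15, -, -, h16⟩ := ham o Prot hn c₂ hc₂ z hrz e he he1
      refine ⟨c₃, hc₃, ktrans hc₃ hc₂ hc' h15 h13, ?_⟩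
      rcases he2 with he2 | he2
      · exact Or.inl (mtF_mono ⟨_, he⟩ hc₃ ((K _ _ _ he).1 he2) h16)
      · exact Or.inr (mtF_mono ⟨_, he⟩ hc₃ ((K _ _ _ he).1 he2) h16)
    · intro c' hc' hle ξ hξ
      have hrz : Rec c' z := KLe.rc (fm hc') hc hle
      have h10 : c'.pr z ∈ PP o z := PP.pr hl (fm hc') hrz
      obtain ⟨e, he, he1, x, hx, he2⟩ := hb2 _ h10 (KLe.pr_of_le hl (fm hc') hc hle hrz le_rfl) ξ hξ
      obtain ⟨c₃, hc₃, -, h15, -, -, h16⟩ := ham o Prot hn c' hc' z hrz e he he1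
      exact ⟨c₃, hc₃, h15, x, hx, fun c₄ hc₄ h17 => ⟨c₄, hc₄, KLe.refl _, e, ⟨he, he2⟩,
        ktrans hc₄ hc₃ ⟨_, he⟩ h17 h16⟩⟩

end Pool.Agent.Helper919.SD.Tzgoodred
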