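import Pool.Agent.Helper919_SDT.LangBasic

set_option autoImplicit false

namespace Pool.Agent.Helper919.SD

open Ordinal Cardinal Set
open Pool.Agent.Helper292.SP (fnot fand fall for' fimp fiff fex fground meets IsFun)

theorem InE.mono {o : Ord → Opt} {Prot : Set Ord} (hl : Legit o Prot) {i j γ : Ord} {c c' : Cnd} {d : CB}
    (hc' : c' ∈ PP o j) (hc : c ∈ PP o i) (h : InE γ c d) (hle : KLe o c' c) : InE γ c' d := by
  refine ⟨KLe.rec_mono hc' hc hle h.1 hl, fun ξ hξ => ?_⟩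
  obtain ⟨h1, h2⟩ := h.2 ξ hξ
  refine ⟨h1.trans hle.α, ?_⟩
  rw [hle.t γ ?_ ξ h1 0]
  · exact h2
  · rcases h.1 with h3 | h3
    · exact ⟨by rw [← h3]; exact lt_add_one γ, Or.inr h3⟩
    · have h4 := (PP.core hc).ult c.α (by obtain ⟨rfl, -, -, h, -⟩ := hc; exact h) _ h3
      exact ⟨(lt_add_one γ).trans h4, Or.inl h3⟩

theorem TEb.ext {o : Ord → Opt} {γ β : Ord} {z z' : TEb o γ β} (h1 : z.1.1 = z'.1.1) (h2 : z.1.2.1 = z'.1.2.1) :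
    z = z' := Subtype.ext (Prod.ext h1 (Subtype.ext h2))

theorem TEb.le_def {o : Ord → Opt} {γ β : Ord} {z z' : TEb o γ β} :
    z' ≤ z ↔ KLe o z'.1.1 z.1.1 ∧ EndX z'.1.2 z.1.2 := Iff.rfl

theorem meets_of_le {P : Type 1} [Preorder P] {N : Set P} {p s : P} (hs : s ∈ N) (h : p ≤ s) : p ∈ meets N :=
  fun q hq => ⟨q, le_rfl, s, hs, hq.trans h⟩

theorem Dc_end {o : Ord → Opt} {β : Ord} {c c' : Cnd} (hc : c ∈ PP o (β + 1)) (hle : KLe o c' c)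
    {d d' : CB} (hd : d.1 = Dc β c) (hd' : d'.1 = Dc β c') : EndX d' d := by
  have key : ∀ ξ ≤ c.α, c'.t β ξ 0 = c.t β ξ 0 := by
    intro ξ hξ
    obtain ⟨h1, -⟩ := hc
    exact hle.t β ⟨by rw [h1]; exact lt_add_one β, Or.inr h1.symm⟩ ξ hξ 0
  unfold EndX
  rw [hd, hd']
  refine ⟨fun ξ hξ => ⟨hξ.1.trans hle.α, ?_⟩, fun ξ hξ η hη hle' => ⟨hle'.trans hη.1, ?_⟩⟩
  · rw [key ξ hξ.1]; exact hξ.2
  · rw [← key ξ (hle'.trans hη.1)]; exact hξ.2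

/-- `meets` of a lifted name over `TEb`. -/
theorem mt_of_meets_LfB {o : Ord → Opt} {Prot : Set Ord} (hl : Legit o Prot) {γ β x : Ord} {N : Set Cnd}
    (hN : N ⊆ PP o x) {w : TEb o γ β} (h : w ∈ meets (LfB o γ β N)) : mt o (PP o β) N w.1.1 := by
  intro e' he' hle
  let w' : TEb o γ β := ⟨(e', w.1.2), he', w.2.2.mono hl he' w.2.1 hle⟩
  obtain ⟨w₃, h3, s, ⟨n, hn, hsn⟩, hs⟩ := h w' ⟨hle, EndX.refl _⟩
  exact ⟨w₃.1.1, w₃.2.1, h3.1, n, hn, KLe.trans w₃.2.1 s.2.1 (hN hn) hs.1 hsn⟩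

theorem job_zkill (hK8 : Sz_K8) (habs : Sz_abs) (hamF : Sz_amF) : Sz_kill := by
  intro o Prot hn x β γ hxβ hoβ T hT z hch
  have hl := hn.legit
  obtain ⟨k1, k2, k3⟩ := hK8 o Prot hn β γ hoβ
  have : Nonempty (TEb o γ β) := ⟨z⟩
  choose! π hπ1 hπ2 using k1
  obtain ⟨c₀, hc₀, z', hz', hz1, hz2⟩ := k3 z
  have hπeq : ∀ c ∈ PP o (β + 1), ∀ w : TEb o γ β, w.1.1 = c.pr β → w.1.2.1 = Dc β c → w = π c := fun c hc w h1 h2 =>
    TEb.ext (by rw [h1, hπ1 c hc]) (by rw [h2, hπ2 c hc])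
  have hz'eq := hπeq c₀ hc₀ z' hz1 hz2
  have hrβ : ∀ c ∈ PP o (β + 1), Rec c β := fun c hc => by
    right
    have h1 := (PP.core hc)
    obtain ⟨h2, -, -, h4, -⟩ := hc
    rw [h2] at h1 ⊢
    exact h1.us _ h4 β (Or.inr rfl)
  have hπmono : ∀ c ∈ PP o (β + 1), ∀ c' ∈ PP o (β + 1), KLe o c' c → π c' ≤ π c := by
    intro c hc c' hc' hle
    refine ⟨?_, Dc_end hc hle (hπ2 c hc) (hπ2 c' hc')⟩
    rw [hπ1 c hc, hπ1 c' hc']
    exact KLe.pr hl hc' hc hle (hrβ c hc)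
  obtain ⟨b, hb1, hb2⟩ := hch
  let b' : W → Set (Frc o) := fun a => {c | c.1 ∈ PP o (β + 1) ∧ ∃ s ∈ b a, π c.1 ≤ s}
  let C₀ : Frc o := ⟨c₀, Full.mk hc₀⟩
  have hC₀z : KLe o c₀ z.1.1 := by
    have h1 := PP.le_pr hc₀ (hrβ c₀ hc₀)
    rw [← hz1] at h1
    exact KLe.trans hc₀ z'.2.1 z.2.1 h1 hz'.1
  have hTF : ∀ a b, T a b ⊆ Full o := fun a b d hd => ⟨x, hT a b hd⟩
  -- transfer of the names of the tree
  have htr : ∀ a b (c' : Cnd) (q : Frc o), c' ∈ PP o (β + 1) → π c' ∈ meets (LfB o γ β (T a b)) → KLe o q.1 c' →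
      q ∈ meets (LfP o (T a b)) := by
    intro a b c' q hc' hm hq
    rw [meets_LfP (hTF a b)]
    have h1 := mt_of_meets_LfB hl (hT a b) hm
    rw [hπ1 c' hc'] at h1
    have hp := PP.pr hl hc' (hrβ c' hc')
    have h2 := ((habs o Prot hn).1 x β hxβ (T a b) (hT a b) _ hp).1 h1
    intro e he hle
    exact h2 e he (KLe.trans (Full.mem he) hc' hp (KLe.trans (Full.mem he) (Full.mem q.2) hc' hle hq)
      (PP.le_pr hc' (hrβ c' hc')))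
  refine ⟨C₀, hC₀z, b', ?_, ?_⟩
  · intro q hq a a' ha ha'
    obtain ⟨q₁, hq₁, s₁, hs₁, hqs₁⟩ := ha q le_rfl
    obtain ⟨q₂, hq₂, s₂, hs₂, hqs₂⟩ := ha' q₁ hq₁
    have hq2 := Full.mem q₂.2
    have hq21 : KLe o q₂.1 s₁.1 := hq₂.trans hqs₁
    have hq2c : KLe o q₂.1 c₀ := (hq₂.trans hq₁).trans hq
    have hr : Rec q₂.1 (β + 1) := KLe.rc hq2 hs₂.1 hqs₂
    have hc := PP.pr hl hq2 hr
    have hc1 := KLe.pr_of_le hl hq2 hs₁.1 hq21 hr le_rfl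
    have hc2 := KLe.pr_of_le hl hq2 hs₂.1 hqs₂ hr le_rfl
    have hc0 := KLe.pr_of_le hl hq2 hc₀ hq2c hr le_rfl
    obtain ⟨t₁, ht₁, hst₁⟩ := hs₁.2
    obtain ⟨t₂, ht₂, hst₂⟩ := hs₂.2
    have hm1 : π (q₂.1.pr (β + 1)) ≤ t₁ := (hπmono _ hs₁.1 _ hc hc1).trans hst₁
    have hm2 : π (q₂.1.pr (β + 1)) ≤ t₂ := (hπmono _ hs₂.1 _ hc hc2).trans hst₂
    have hm0 : π (q₂.1.pr (β + 1)) ≤ z := (hπmono _ hc₀ _ hc hc0).trans (by rw [← hz'eq]; exact hz')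
    let Ψ : TEb o γ β → Prop := fun w => a = a' ∨ w ∈ meets (LfB o γ β (T a a')) ∨ w ∈ meets (LfB o γ β (T a' a))
    have hΨ : ∀ w, Ψ w → ∀ w' ≤ w, Ψ w' := by
      rintro w (h | h | h) w' hw'
      · exact Or.inl h
      · exact Or.inr (Or.inl (meets_mono h hw'))
      · exact Or.inr (Or.inr (meets_mono h hw'))
    obtain ⟨c', hc', hc'c, w, hwO, hw1, hw2⟩ := k2 _ hc {w | Ψ w ∨ ∀ w' ≤ w, ¬ Ψ w'} (by
      rintro w (h | h) w' hw'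
      · exact Or.inl (hΨ w h w' hw')
      · exact Or.inr fun w'' hw'' => h w'' (hw''.trans hw')) (by
      intro w
      by_cases h : ∃ w' ≤ w, Ψ w'
      · obtain ⟨w', h1, h2⟩ := h
        exact ⟨w', Or.inl h2, h1⟩
      · push Not at h
        exact ⟨w, Or.inr h, le_rfl⟩)
    rw [hπeq c' hc' w hw1 hw2] at hwO
    have hwc : π c' ≤ π (q₂.1.pr (β + 1)) := hπmono _ hc _ hc' hc'c
    have hΨc : Ψ (π c') := by
      rcases hwO with h | h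
      · exact h
      · exfalso
        obtain ⟨w', hw', h'⟩ := hb1 (π c') (hwc.trans hm0) a a' (meets_of_le ht₁ (hwc.trans hm1))
          (meets_of_le ht₂ (hwc.trans hm2))
        exact h w' hw' h'
    obtain ⟨q₃, hq₃, -, hq3, -, -, hq3c⟩ := hamF o Prot hn q₂.1 q₂.2 (β + 1) hr c' hc' hc'c
    refine ⟨⟨q₃, hq₃⟩, ?_, ?_⟩
    · exact KLe.trans (Full.mem hq₃) hq2 (Full.mem q.2) hq3 (hq₂.trans hq₁)
    · rcases hΨc with h | h | h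
      · exact Or.inl h
      · exact Or.inr (Or.inl (htr a a' c' ⟨q₃, hq₃⟩ hc' h hq3c))
      · exact Or.inr (Or.inr (htr a' a c' ⟨q₃, hq₃⟩ hc' h hq3c))
  · intro q hq a
    have hqj := Full.mem q.2
    have hr : Rec q.1 (β + 1) := KLe.rc hqj hc₀ hq
    have hc := PP.pr hl hqj hr
    have hc0 := KLe.pr_of_le hl hqj hc₀ hq hr le_rfl
    have hm0 : π (q.1.pr (β + 1)) ≤ z := (hπmono _ hc₀ _ hc hc0).trans (by rw [← hz'eq]; exact hz')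
    obtain ⟨c', hc', hc'c, w, hwO, hw1, hw2⟩ := k2 _ hc {w | (∃ y, a < y ∧ ∃ s ∈ b y, w ≤ s) ∨ ∀ w' ≤ w, ¬ w' ≤ z} (by
      rintro w (⟨y, hy, s, hs, h⟩ | h) w' hw'
      · exact Or.inl ⟨y, hy, s, hs, hw'.trans h⟩
      · exact Or.inr fun w'' hw'' => h w'' (hw''.trans hw')) (by
      intro w
      by_cases h : ∃ w' ≤ w, w' ≤ z
      · obtain ⟨w', h1, h2⟩ := h
        obtain ⟨w'', h3, y, hy, h4⟩ := hb2 w' h2 a
        obtain ⟨w₃, h5, s, hs, h6⟩ := h4 w'' le_rfl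
        exact ⟨w₃, Or.inl ⟨y, hy, s, hs, h6⟩, h5.trans (h3.trans h1)⟩
      · push Not at h
        exact ⟨w, Or.inr h, le_rfl⟩)
    rw [hπeq c' hc' w hw1 hw2] at hwO
    have hwc : π c' ≤ π (q.1.pr (β + 1)) := hπmono _ hc _ hc' hc'c
    rcases hwO with ⟨y, hy, s, hs, h⟩ | h
    · obtain ⟨q₃, hq₃, -, hq3, -, -, hq3c⟩ := hamF o Prot hn q.1 q.2 (β + 1) hr c' hc' hc'c
      refine ⟨⟨q₃, hq₃⟩, hq3, y, hy, ?_⟩
      exact meets_of_le (s := (⟨c', Full.mk hc'⟩ : Frc o)) ⟨hc', s, hs, h⟩ hq3c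
    · exact absurd (hwc.trans hm0) (h _ le_rfl)

end Pool.Agent.Helper919.SD
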