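import Pool.Agent.Helper919_SDT.Tnx
import Pool.Agent.Helper919_SDT.Stmts2

set_option autoImplicit false

namespace Pool.Agent.Helper919.SD

open Ordinal Cardinal Set

theorem job_zlf (hmdl : St_mdl) (hgs : St_gs) (hg0 : St_good0) (hbirth : St_birth) : Sz_lf := by
  intro o Prot hn x y hxy c hc
  rcases eq_or_lt_of_le hxy with rfl | hxy
  · exact ⟨c, hc, KLe.refl _⟩
  have hl := hn.legit
  obtain ⟨p, j, α, t⟩ := c
  obtain ⟨h1, h2, h3, h4, h5⟩ := hc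
  simp only at h1 h2 h3 h4 h5
  subst h1
  obtain ⟨p', b1, b2, b3, -⟩ := hbirth o Prot hl y p (A.mono hxy.le h2) y le_rfl
    (fun h => absurd (A.le h2 h) (not_le.2 hxy))
  obtain ⟨N, δ, hSN, hN, hyN, hpN, q, hq, hle⟩ := Tnx.exGood hmdl hgs hg0 hl (fun z _ => hn.ss z) (hn.ll y) b1
    (by rw [b3]; exact Or.inl rfl) {U.ord j} (countable_singleton _)
  have hqp : CLe o q p := CLe.trans h2.1 hle b2
  have hαp' : α ∈ p'.C j := b2.C j h3 h4
  have hαδ : α < δ := hN.basic.C_lt hpN b1 hαp'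
  have hx : j ∈ q.u y δ := by rw [hq.u]; exact ⟨hxy, Or.inl (hSN rfl)⟩
  have hcq := A.core hq.A hq.J
  have hxδ := hcq.L1J δ hq.C j hx
  have hαq : α ∈ q.C j := hqp.C j h3 h4
  obtain ⟨s, hs1, hs2⟩ := Tnx.exThr hq.A hαq hxδ.2 hαδ (t := t) (by rw [hqp.T j h3 α h4]; exact h5)
  rw [hcq.L1T δ hq.C j hx] at hs1
  obtain ⟨z, hz, rfl⟩ := hs1
  refine ⟨⟨q, y, δ, z⟩, A.pair' hq.A hq.C hz, hqp, hαδ.le, Or.inr hx, ?_⟩
  rw [hqp.co_eq h3 h4] at hs2
  intro i hi ξ hξ n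
  change z i ξ n = t i ξ n
  rw [← hs2 i hi ξ hξ n, below_of_lt (co_lt hi)]

theorem job_zrec (hlf : Sz_lf) : Sz_rec := by
  intro o Prot hn c hc x ξ hξ
  have hcj := Full.mem hc
  rcases lt_trichotomy x c.j with h | h | h
  · obtain ⟨c', h1, h2, h3, h4⟩ := (hn.nx c.j).2.2 c hcj ξ hξ x h
    refine ⟨c', Full.mk h1, h2, Or.inr ?_, h3⟩
    rw [h1.1]; exact h4
  · obtain ⟨c', h1, h2, h3⟩ := (hn.nx c.j).2.1 c hcj ξ hξ
    exact ⟨c', Full.mk h1, h2, Or.inl (h.trans h1.1.symm), h3⟩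
  · obtain ⟨c₁, h1, h2⟩ := hlf o Prot hn c.j x h.le c hcj
    obtain ⟨c', h3, h4, h5⟩ := (hn.nx x).2.1 c₁ h1 ξ hξ
    exact ⟨c', Full.mk h3, KLe.trans h3 h1 hcj h4 h2, Or.inl h3.1.symm, h5⟩

theorem job_zamF : Sz_amF := by
  intro o Prot hn c hc x hx d hd hle
  have hcj := Full.mem hc
  have hl := hn.legit
  rcases (hx.le hcj).lt_or_eq with h | h
  · have hext : Ext o d c x := by
      refine ⟨hle.p, hle.α, ?_, ?_⟩
      · have h1 := KLe.co hd (PP.pr hl hcj hx) hle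
        rw [show co (c.pr x).p (c.pr x).j (c.pr x).α = co (c.pr x).p x c.α from rfl, PP.co_pr hcj hx, hd.1] at h1
        exact h1
      · have h1 := hle.t
        rw [show co (c.pr x).p (c.pr x).j (c.pr x).α = co (c.pr x).p x c.α from rfl, PP.co_pr hcj hx] at h1
        intro i hi ξ hξ n
        rw [h1 i hi ξ hξ n]
        change below x c.t i ξ n = c.t i ξ n
        rw [below_of_lt hi.2]
    obtain ⟨c', h1, h2, h3, h4⟩ := hn.am c.j c hcj x h d hd hext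
    exact ⟨c', Full.mk h1, h1.1, h2, h3, h4, KLe.trans h1 (PP.pr hl h1 h3) hd (PP.le_pr h1 h3) h4⟩
  · subst h
    rw [PP.pr_self hcj] at hle
    exact ⟨d, Full.mk hd, hd.1, hle, Or.inl hd.1.symm, by rw [PP.pr_self hd]; exact KLe.refl _, KLe.refl _⟩

end Pool.Agent.Helper919.SD
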