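import Pool.Agent.Helper919_SDT.Stmts2

set_option autoImplicit false

/-!
# Locality
-/

namespace Pool.Agent.Helper919.SD.Tzloc

open Ordinal Cardinal Set
open Pool.Agent.Helper292.SP (fnot fand fall for' fimp fiff fex fground meets IsFun)

variable {o o' : Ord → Opt}

theorem cle_loc {y : Ord} (h : ∀ i < y, o i = o' i) {q p : Cond} (hq : ∀ j ∈ q.J, j ≤ y) (hle : CLe o q p) :
    CLe o' q p :=
  ⟨hle.J, hle.C, hle.ee, hle.u, hle.T, hle.F, hle.Pr, fun i γ hi ho => hle.kl i γ hi (by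
    rw [h i (lt_of_lt_of_le (lt_add_one i) (hq _ (hle.J hi)))]; exact ho)⟩

theorem kle_loc {y : Ord} (h : ∀ i < y, o i = o' i) {c d : Cnd} (hq : ∀ j ∈ c.p.J, j ≤ y) :
    KLe o c d ↔ KLe o' c d :=
  ⟨fun hle => ⟨cle_loc h hq hle.p, hle.α, hle.j, hle.t⟩,
    fun hle => ⟨cle_loc (fun i hi => (h i hi).symm) hq hle.p, hle.α, hle.j, hle.t⟩⟩

/-- The orders agree on `P`. -/
def Same (o o' : Ord → Opt) (P : Set Cnd) : Prop := ∀ c ∈ P, ∀ d, KLe o c d ↔ KLe o' c d

theorem Same.symm {P : Set Cnd} (h : Same o o' P) : Same o' o P := fun c hc d => (h c hc d).symm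

theorem mt_eq {P : Set Cnd} (h : Same o o' P) : mt o P = mt o' P := by
  funext N c
  refine propext ⟨fun hm c' hc' hle => ?_, fun hm c' hc' hle => ?_⟩
  · obtain ⟨c₂, h1, h2, d, h3, h4⟩ := hm c' hc' ((h c' hc' c).2 hle)
    exact ⟨c₂, h1, (h c₂ h1 c').1 h2, d, h3, (h c₂ h1 d).1 h4⟩
  · obtain ⟨c₂, h1, h2, d, h3, h4⟩ := hm c' hc' ((h c' hc' c).1 hle)
    exact ⟨c₂, h1, (h c₂ h1 c').2 h2, d, h3, (h c₂ h1 d).2 h4⟩

theorem nmt_eq {P : Set Cnd} (h : Same o o' P) : nmt o P = nmt o' P := by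
  funext N c
  unfold nmt
  rw [mt_eq h]
  exact propext ⟨fun hm c' hc' hle => hm c' hc' ((h c' hc' c).2 hle), fun hm c' hc' hle => hm c' hc' ((h c' hc' c).1 hle)⟩

theorem dec_eq {P : Set Cnd} (h : Same o o' P) : Dec o P = Dec o' P := by
  funext r c α R
  unfold Dec
  rw [mt_eq h, nmt_eq h]

theorem decG_eq {P : Set Cnd} (h : Same o o' P) : DecG o P = DecG o' P := by
  funext G c α Y
  unfold DecG
  rw [mt_eq h, nmt_eq h]

theorem spec_loc {P : Set Cnd} (h : Same o o' P) {p : Cond} {i : Ord} {r : Node → Node → Set Cnd} {B : Ord}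
    {g : Ord → PName} (hs : LegSpec o P p i r B g) : LegSpec o' P p i r B g where
  z0 := hs.z0
  inc := by
    rw [← dec_eq h]
    intro α hα t ht c hc hle; exact hs.inc α hα t ht c hc ((h c hc _).2 hle)
  bd := by
    rw [← dec_eq h]
    intro α hα t ht c hc hle; exact hs.bd α hα t ht c hc ((h c hc _).2 hle)
  sep := by
    rw [← dec_eq h]
    intro α₀ hα₀ α hα hlt z₀ hz₀ a ha hag c hc hle
    exact hs.sep α₀ hα₀ α hα hlt z₀ hz₀ a ha hag c hc ((h c hc _).2 hle)
  Pr := hs.Pr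
  prom := by
    rw [← dec_eq h, ← decG_eq h]
    intro e he α hα hle' z hz hag c hc hle
    exact hs.prom e he α hα hle' z hz hag c hc ((h c hc _).2 hle)
  F0 := hs.F0

theorem opt_loc {P : Set Cnd} (h : Same o o' P) {p : Cond} {i : Ord} (hi : o i = o' i) (hs : LegOpt o P p i) :
    LegOpt o' P p i := by
  unfold LegOpt at hs ⊢
  rw [← hi]
  cases ho : o i with
  | coh => simp only [ho] at hs ⊢; exact hs
  | kill γ => simp only [ho] at hs ⊢; exact hs
  | spec r B g => simp only [ho] at hs ⊢; exact spec_loc h hs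

theorem good_loc {P : Set Cnd} (h : Same o o' P) {r : Node → Node → Set Cnd} (hs : Good o P r) : Good o' P r where
  sub := hs.sub
  lt := hs.lt
  lvl := by rw [← mt_eq h]; exact hs.lvl
  refl := by rw [← mt_eq h]; exact hs.refl
  trans := by rw [← mt_eq h]; exact hs.trans
  ex := by
    rw [← mt_eq h]
    intro c hc y hy ξ hξ
    obtain ⟨c', h1, h2, h3⟩ := hs.ex c hc y hy ξ hξ
    exact ⟨c', h1, (h c' h1 c).1 h2, h3⟩
  uniq := by rw [← mt_eq h]; exact hs.uniq
  nobr := by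
    rw [← mt_eq h]
    intro c hc b h1 h2
    refine hs.nobr c hc b ?_ ?_
    · intro c' hc' hle x y hx hy
      obtain ⟨c'', h3, h4, h5⟩ := h1 c' hc' ((h c' hc' c).1 hle) x y hx hy
      exact ⟨c'', h3, (h c'' h3 c').2 h4, h5⟩
    · intro c' hc' hle ξ hξ
      obtain ⟨c'', h3, h4, h5⟩ := h2 c' hc' ((h c' hc' c).1 hle) ξ hξ
      exact ⟨c'', h3, (h c'' h3 c').2 h4, h5⟩

theorem okp_loc {P : Set Cnd} (h : Same o o' P) {r : Node → Node → Set Cnd} {G : PName} (hs : OKP o P r G) :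
    OKP o' P r G where
  sub := hs.sub
  lt := hs.lt
  fld := by rw [← mt_eq h]; exact hs.fld
  pp1 := by rw [← mt_eq h]; exact hs.pp1
  pp2 := by
    rw [← mt_eq h]
    intro c hc η η' m h1 h2 h3
    obtain ⟨c', h4, h5, h6⟩ := hs.pp2 c hc η η' m h1 h2 h3
    exact ⟨c', h4, (h c' h4 c).1 h5, h6⟩

theorem leg_loc {y : Ord} (h : ∀ i < y, o i = o' i) (j : Ord) : j ≤ y → ∀ p, Leg o j p ↔ Leg o' j p := by
  induction j using WellFoundedLT.induction with
  | ind j ih =>
    intro hj p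
    rw [Leg_iff, Leg_iff]
    refine and_congr Iff.rfl (and_congr Iff.rfl (forall_congr' fun i => forall_congr' fun hi => ?_))
    have hij : i < j := by rw [← hi]; exact lt_add_one i
    have hA : A o i = A o' i := by
      ext p'
      refine and_congr Iff.rfl (forall_congr' fun z => forall_congr' fun _ => ?_)
      constructor
      · rintro ⟨h1, h2⟩; exact ⟨h1, (ih z (h1.trans_lt hij) ((h1.trans_lt hij).le.trans hj) p').1 h2⟩
      · rintro ⟨h1, h2⟩; exact ⟨h1, (ih z (h1.trans_lt hij) ((h1.trans_lt hij).le.trans hj) p').2 h2⟩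
    have hP : PP o i = PP o' i := by unfold PP; rw [hA]
    have hS : Same o o' (PP o i) := fun c hc d => kle_loc (y := i)
      (fun k hk => h k ((hk.trans hij).trans_le hj)) (fun k hk => A.le hc.2.1 hk)
    have hoi : o i = o' i := h i (hij.trans_le hj)
    constructor
    · intro h1; rw [← hP]; exact opt_loc hS hoi h1
    · intro h1; rw [← hP] at h1; exact opt_loc hS.symm hoi.symm h1

theorem a_loc {y : Ord} (h : ∀ i < y, o i = o' i) : A o y = A o' y := by
  ext p
  refine and_congr Iff.rfl (forall_congr' fun z => forall_congr' fun _ => ?_)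
  constructor
  · rintro ⟨h1, h2⟩; exact ⟨h1, (leg_loc h z h1 p).1 h2⟩
  · rintro ⟨h1, h2⟩; exact ⟨h1, (leg_loc h z h1 p).2 h2⟩

theorem pp_loc {y : Ord} (h : ∀ i < y, o i = o' i) : PP o y = PP o' y := by unfold PP; rw [a_loc h]

theorem same_loc {y : Ord} (h : ∀ i < y, o i = o' i) : Same o o' (PP o y) :=
  fun _ hc _ => kle_loc h fun _ hk => A.le hc.2.1 hk

theorem job_zloc : Sz_loc := by
  intro o o' y h
  have hP := pp_loc h
  have hS := same_loc h
  refine ⟨a_loc h, hP, hS, fun r => ?_, fun r G => ?_⟩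
  · rw [← hP]; exact ⟨good_loc hS, good_loc hS.symm⟩
  · rw [← hP]; exact ⟨okp_loc hS, okp_loc hS.symm⟩

/-! ### The two-step iteration -/

theorem meets_iso {P Q : Type 1} [Preorder P] [Preorder Q] (e : P ≃o Q) (N : Set P) (p : P) :
    e p ∈ meets (e.symm ⁻¹' N) ↔ p ∈ meets N := by
  constructor
  · intro h q hq
    obtain ⟨r, hr, s, hs, hrs⟩ := h (e q) (e.le_iff_le.2 hq)
    exact ⟨e.symm r, by rw [← e.le_iff_le, e.apply_symm_apply]; exact hr, e.symm s, hs, e.symm.le_iff_le.2 hrs⟩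
  · intro h q hq
    obtain ⟨r, hr, s, hs, hrs⟩ := h (e.symm q) (by rw [← e.le_iff_le, e.apply_symm_apply]; exact hq)
    refine ⟨e r, ?_, e s, ?_, e.le_iff_le.2 hrs⟩
    · rw [← e.symm.le_iff_le, e.symm_apply_apply]; exact hr
    · change e.symm (e s) ∈ N; rw [e.symm_apply_apply]; exact hs

theorem chn_iso {P Q : Type 1} [Preorder P] [Preorder Q] (e : P ≃o Q) (T : W → W → Set P) (p : P) (h : Chn T p) :
    Chn (fun a b => e.symm ⁻¹' T a b) (e p) := by
  obtain ⟨b, h1, h2⟩ := h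
  have hm : ∀ (N : Set P) (q : Q), q ∈ meets (e.symm ⁻¹' N) ↔ e.symm q ∈ meets N := by
    intro N q
    have := meets_iso e N (e.symm q)
    rwa [e.apply_symm_apply] at this
  refine ⟨fun x => e.symm ⁻¹' b x, ?_, ?_⟩
  · intro q hq x y hx hy
    obtain ⟨q', hq', h3⟩ := h1 (e.symm q) (by rw [← e.le_iff_le, e.apply_symm_apply]; exact hq) x y
      ((hm _ _).1 hx) ((hm _ _).1 hy)
    refine ⟨e q', by rw [← e.symm.le_iff_le, e.symm_apply_apply]; exact hq', ?_⟩
    rcases h3 with h3 | h3 | h3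
    · exact Or.inl h3
    · exact Or.inr (Or.inl ((meets_iso e _ _).2 h3))
    · exact Or.inr (Or.inr ((meets_iso e _ _).2 h3))
  · intro q hq x
    obtain ⟨q', hq', y, hxy, h3⟩ := h2 (e.symm q) (by rw [← e.le_iff_le, e.apply_symm_apply]; exact hq) x
    exact ⟨e q', by rw [← e.symm.le_iff_le, e.symm_apply_apply]; exact hq', y, hxy, (meets_iso e _ _).2 h3⟩

/-- The forcing notions `TEb` for two sequences of options which agree below `y`. -/
def iso {y : Ord} (γ : Ord) (h : ∀ i < y, o i = o' i) : TEb o γ y ≃o TEb o' γ y where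
  toFun z := ⟨z.1, by rw [← pp_loc h]; exact z.2⟩
  invFun z := ⟨z.1, by rw [pp_loc h]; exact z.2⟩
  left_inv z := rfl
  right_inv z := rfl
  map_rel_iff' {a b} := by
    change KLe o' a.1.1 b.1.1 ∧ EndX a.1.2 b.1.2 ↔ KLe o a.1.1 b.1.1 ∧ EndX a.1.2 b.1.2
    rw [same_loc h _ a.2.1 b.1.1]

theorem job_zlocT : Sz_locT := by
  intro o o' γ y h T c₀ ⟨z, hz, hC⟩
  refine ⟨iso γ h z, ?_, ?_⟩
  · exact (same_loc h _ z.2.1 _).1 hz
  · have := chn_iso (iso γ h) _ z hC
    have he : (fun a b => (iso γ h).symm ⁻¹' LfB o γ y (T a b)) = fun a b => LfB o' γ y (T a b) := by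
      funext a b
      ext w
      change (∃ n ∈ T a b, KLe o w.1.1 n) ↔ ∃ n ∈ T a b, KLe o' w.1.1 n
      have hw : w.1.1 ∈ PP o y := by rw [pp_loc h]; exact w.2.1
      exact exists_congr fun n => and_congr Iff.rfl (same_loc h _ hw n)
    rw [he] at this
    exact this

end Pool.Agent.Helper919.SD.Tzloc
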