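import Pool.Agent.Helper919_SDT.Stmts2

set_option autoImplicit false

/-!
# Branches in the extension by the two-step iteration appear at some stage (8.10)
-/

namespace Pool.Agent.Helper919.SD.Tzno

open Ordinal Cardinal Set Pool.Agent.Helper919.SD
open Pool.Agent.Helper292.SP (fnot fand fall for' fimp fiff fex fground meets IsFun)

variable {o : Ord → Opt} {Prot : Set Ord}

theorem small_CB : Small.{0} CB := by
  refine small_of_injective (β := Set W) (f := fun d : CB => {x : W | wo x ∈ d.1}) ?_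
  have key : ∀ d d' : CB, {x : W | wo x ∈ d.1} = {x : W | wo x ∈ d'.1} → d.1 ⊆ d'.1 := by
    intro d d' h ξ hξ
    obtain ⟨⟨η, hη, hb⟩, -⟩ := d.2
    obtain ⟨x, rfl⟩ := wo_surj ((hb ξ hξ).trans_lt hη)
    have : x ∈ {x : W | wo x ∈ d.1} := hξ
    rw [h] at this; exact this
  intro d d' h
  exact Subtype.ext (Set.Subset.antisymm (key d d' h) (key d' d h.symm))

theorem InE.mono (hl : Legit o Prot) {γ : Ord} {c c' : Cnd} {d : CB} (h : InE γ c d) (hc' : c' ∈ Full o)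
    (hc : c ∈ Full o) (hle : KLe o c' c) : InE γ c' d := by
  have hcP := Full.mem hc
  refine ⟨KLe.rec_mono (Full.mem hc') hcP hle h.1 hl, fun ξ hξ => ⟨(h.2 ξ hξ).1.trans hle.α, ?_⟩⟩
  rw [← (h.2 ξ hξ).2]
  refine hle.t γ ?_ ξ (h.2 ξ hξ).1 0
  have h1 : γ + 1 ≤ c.j := Rec.le hcP h.1
  refine ⟨(lt_add_one γ).trans_le h1, ?_⟩
  rcases h.1 with h2 | h2
  · exact Or.inr h2
  · exact Or.inl h2

/-- The element of the two-step iteration. -/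
def mkTS {γ : Ord} {c : Cnd} (hc : c ∈ Full o) {d : CB} (h : InE γ c d) : TS (TEn o γ) :=
  ⟨((⟨c, hc⟩ : Frc o), d), fun q hq => ⟨q, le_rfl, ⟨c, hc⟩, h, hq⟩⟩

theorem mkTS_le {γ : Ord} {c c' : Cnd} {hc : c ∈ Full o} {hc' : c' ∈ Full o} {d d' : CB} {h : InE γ c d}
    {h' : InE γ c' d'} (hle : KLe o c' c) (hd : EndX d' d) : mkTS hc' h' ≤ mkTS hc h :=
  ⟨hle, fun q _ => ⟨q, le_rfl, q, hd, le_rfl⟩⟩

theorem endX_of_le {γ : Ord} {z' z : TS (TEn o γ)} (h : z' ≤ z) : EndX z'.1.2 z.1.2 := by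
  obtain ⟨_, _, _, h1, _⟩ := h.2 z'.1.1 le_rfl
  exact h1

/-- Every element of the two-step iteration has an extension with the same second part which determines that this part is
an element. -/
theorem exists_mk (hl : Legit o Prot) {γ : Ord} (z : TS (TEn o γ)) :
    ∃ (c : Cnd) (hc : c ∈ Full o) (h : InE γ c z.1.2), KLe o c z.1.1.1 ∧ mkTS hc h ≤ z := by
  obtain ⟨r, hr, s, hs, hrs⟩ := z.2 z.1.1 le_rfl
  have h : InE γ r.1 z.1.2 := InE.mono hl hs r.2 s.2 hrs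
  exact ⟨r.1, r.2, h, hr, hr, fun q _ => ⟨q, le_rfl, q, EndX.refl _, le_rfl⟩⟩

/-- The dense set of the conditions which decide whether `y` is in `b` for some end-extension of `d`. -/
def Dst {γ : Ord} (b : W → Set (TS (TEn o γ))) (y : W) (d : CB) : Set Cnd :=
  {c | ∃ hc : c ∈ Full o, (∀ c' ∈ Full o, KLe o c' c → ¬ InE γ c' d) ∨ ∃ h : InE γ c d,
    (∃ (d'' : CB) (h'' : InE γ c d''), EndX d'' d ∧ mkTS hc h'' ∈ meets (b y)) ∨ mkTS hc h ∈ fnot (meets (b y))}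

theorem Dst_do (hl : Legit o Prot) {γ : Ord} (b : W → Set (TS (TEn o γ))) (y : W) (d : CB) :
    DO o (Full o) (Dst b y d) where
  sub := fun c hc => hc.1
  op := by
    rintro c ⟨hc, h⟩ c' hc' hle
    refine ⟨hc', ?_⟩
    rcases h with h | ⟨h, h1⟩
    · left
      intro c'' hc'' hle'
      exact h c'' hc'' (KLe.trans (Full.mem hc'') (Full.mem hc') (Full.mem hc) hle' hle)
    · right
      refine ⟨InE.mono hl h hc' hc hle, ?_⟩
      rcases h1 with ⟨d'', h'', h2, h3⟩ | h1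
      · left
        exact ⟨d'', InE.mono hl h'' hc' hc hle, h2, meets_mono h3 (mkTS_le hle (EndX.refl _))⟩
      · right
        exact fun q hq => h1 q (hq.trans (mkTS_le hle (EndX.refl _)))
  dn := by
    intro c hc
    by_cases h : ∃ c' ∈ Full o, KLe o c' c ∧ InE γ c' d
    · obtain ⟨c₁, h1, h2, h3⟩ := h
      by_cases h4 : mkTS h1 h3 ∈ fnot (meets (b y))
      · exact ⟨c₁, ⟨h1, Or.inr ⟨h3, Or.inr h4⟩⟩, h2⟩
      · have h4' : ¬ ∀ q ≤ mkTS h1 h3, q ∉ meets (b y) := h4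
        push Not at h4'
        obtain ⟨q, h5, h6⟩ := h4'
        obtain ⟨c₃, h7, h8, h9, h10⟩ := exists_mk hl q
        have h11 : KLe o c₃ c₁ := KLe.trans (Full.mem h7) (Full.mem q.1.1.2) (Full.mem h1) h9 h5.1
        exact ⟨c₃, ⟨h7, Or.inr ⟨InE.mono hl h3 h7 h1 h11, Or.inl ⟨_, h8, endX_of_le h5, meets_mono h6 h10⟩⟩⟩,
          KLe.trans (Full.mem h7) (Full.mem h1) (Full.mem hc) h11 h2⟩
    · push Not at h
      exact ⟨c, ⟨hc, Or.inl h⟩, KLe.refl _⟩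

theorem mem_meets_self {P : Type 1} [Preorder P] {N : Set P} {p : P} (h : p ∈ N) : p ∈ meets N :=
  fun q hq => ⟨q, le_rfl, p, h, hq⟩

theorem job_zno (hclo : Sz_clo) (hlf : Sz_lf) (ham : Sz_amF) : Sz_no := by
  intro o Prot hn x γ hxγ hγ T hT c₀ hc₀ z hz hch
  have hl := hn.legit
  obtain ⟨b, hb1, hb2⟩ := hch
  obtain ⟨e₁, he₁, hE₁, hle₁, hmk₁⟩ := exists_mk hl z
  -- the closure point
  have := small_CB
  obtain ⟨β, hβ, -, hD⟩ := hclo o Prot hn (W × Shrink.{0} CB) (fun e => Dst b e.1 ((equivShrink CB).symm e.2))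
    (fun e => Dst_do hl b _ _) (max γ e₁.j)
  have hγβ : γ < β := (le_max_left _ _).trans_lt hβ
  have hjβ : e₁.j ≤ β := ((le_max_right _ _).trans_lt hβ).le
  have hD' : ∀ (y : W) (d : CB), DO o (PP o β) (Dst b y d ∩ PP o β) := by
    intro y d
    have h := hD (y, equivShrink CB d)
    simp only [Equiv.symm_apply_apply] at h
    exact h
  obtain ⟨e₂, he₂, hle₂⟩ := hlf o Prot hn _ β hjβ e₁ (Full.mem he₁)
  have hE₂ : InE γ e₂ z.1.2 := InE.mono hl hE₁ (Full.mk he₂) he₁ hle₂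
  have hle₃ : KLe o e₂ c₀ := KLe.trans he₂ (Full.mem z.1.1.2) hc₀
    (KLe.trans he₂ (Full.mem he₁) (Full.mem z.1.1.2) hle₂ hle₁) hz
  let toTS : TEb o γ β → TS (TEn o γ) := fun w => mkTS (Full.mk w.2.1) w.2.2
  have hmono : ∀ w' w : TEb o γ β, w' ≤ w → toTS w' ≤ toTS w := fun w' w h => mkTS_le h.1 h.2
  let z' : TEb o γ β := ⟨(e₂, z.1.2), he₂, hE₂⟩
  have hz' : toTS z' ≤ z := le_trans (mkTS_le hle₂ (EndX.refl _)) hmk₁
  refine ⟨β, hγβ, z', hle₃, fun y => {w | toTS w ∈ meets (b y)}, ?_, ?_⟩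
  · -- comparability
    intro q hq x' y' hx' hy'
    obtain ⟨r, hr, s, hs, hrs⟩ := hx' q le_rfl
    obtain ⟨r', hr', s', hs', hrs'⟩ := hy' r hr
    have h1 : toTS r' ∈ meets (b x') := meets_mono hs (hmono _ _ (le_trans hr' hrs))
    have h2 : toTS r' ∈ meets (b y') := meets_mono hs' (hmono _ _ hrs')
    have h3 : toTS r' ≤ z := le_trans (hmono _ _ (le_trans hr' (le_trans hr hq))) hz'
    have hr'q : r' ≤ q := le_trans hr' hr
    obtain ⟨q', hq', h4⟩ := hb1 _ h3 x' y' h1 h2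
    have key : ∀ a c, q' ∈ meets (lft (TEn o γ) (LfP o (T a c))) → ∃ q₂ ≤ q, q₂ ∈ meets (LfB o γ β (T a c)) := by
      intro a c h5
      obtain ⟨r₃, hr₃, n, ⟨m, ⟨t, ht, hmt⟩, hnm⟩, hrn⟩ := h5 q' le_rfl
      have hT' : KLe o r₃.1.1.1 t := KLe.trans (Full.mem r₃.1.1.2) (Full.mem m.2) (hT a c ht)
        (KLe.trans (Full.mem r₃.1.1.2) (Full.mem n.1.1.2) (Full.mem m.2) hrn.1 hnm) hmt
      have hle : KLe o r₃.1.1.1 r'.1.1 := KLe.trans (Full.mem r₃.1.1.2) (Full.mem q'.1.1.2) r'.2.1 hr₃.1 hq'.1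
      have hrec : Rec r₃.1.1.1 β := KLe.rc (Full.mem r₃.1.1.2) r'.2.1 hle
      have h6 : r₃.1.1.1.pr β ∈ PP o β := PP.pr hl (Full.mem r₃.1.1.2) hrec
      have h7 : KLe o (r₃.1.1.1.pr β) r'.1.1 := KLe.pr_of_le hl (Full.mem r₃.1.1.2) r'.2.1 hle hrec le_rfl
      have h8 : KLe o (r₃.1.1.1.pr β) t := KLe.pr_of_le hl (Full.mem r₃.1.1.2) (hT a c ht) hT' hrec
        (hxγ.trans hγβ.le)
      have h9 : InE γ (r₃.1.1.1.pr β) r'.1.2 := InE.mono hl r'.2.2 (Full.mk h6) (Full.mk r'.2.1) h7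
      let q₂ : TEb o γ β := ⟨(r₃.1.1.1.pr β, r'.1.2), h6, h9⟩
      have hq₂ : q₂ ≤ r' := ⟨h7, EndX.refl _⟩
      exact ⟨q₂, le_trans hq₂ hr'q, mem_meets_self ⟨t, ht, h8⟩⟩
    rcases h4 with h4 | h4 | h4
    · exact ⟨q, le_rfl, Or.inl h4⟩
    · obtain ⟨q₂, h5, h6⟩ := key _ _ h4
      exact ⟨q₂, h5, Or.inr (Or.inl h6)⟩
    · obtain ⟨q₂, h5, h6⟩ := key _ _ h4
      exact ⟨q₂, h5, Or.inr (Or.inr h6)⟩
  · -- unboundedness
    intro q hq x'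
    obtain ⟨q₁, hq₁, y', hxy, hy'⟩ := hb2 (toTS q) (le_trans (hmono _ _ hq) hz') x'
    obtain ⟨c₁, hc₁, hE, hle, hmk⟩ := exists_mk hl q₁
    have h1 : KLe o c₁ q.1.1 := KLe.trans (Full.mem hc₁) (Full.mem q₁.1.1.2) q.2.1 hle hq₁.1
    have hrec : Rec c₁ β := KLe.rc (Full.mem hc₁) q.2.1 h1
    have hM₁ : mkTS hc₁ hE ∈ meets (b y') := meets_mono hy' hmk
    have hd₁ : EndX q₁.1.2 q.1.2 := endX_of_le hq₁
    have h2 : c₁.pr β ∈ PP o β := PP.pr hl (Full.mem hc₁) hrec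
    have h3 : KLe o (c₁.pr β) q.1.1 := KLe.pr_of_le hl (Full.mem hc₁) q.2.1 h1 hrec le_rfl
    obtain ⟨c₂, ⟨⟨hc₂F, hc₂D⟩, hc₂⟩, hle₂⟩ := (hD' y' q.1.2).dn _ h2
    have h4 : KLe o c₂ q.1.1 := KLe.trans hc₂ h2 q.2.1 hle₂ h3
    have hE₂ : InE γ c₂ q.1.2 := InE.mono hl q.2.2 hc₂F (Full.mk q.2.1) h4
    rcases hc₂D with h5 | ⟨h5, ⟨d'', h6, h7, h8⟩ | h6⟩
    · exact absurd hE₂ (h5 c₂ hc₂F (KLe.refl _))
    · let q' : TEb o γ β := ⟨(c₂, d''), hc₂, h6⟩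
      have hq' : q' ≤ q := ⟨h4, h7⟩
      exact ⟨q', hq', y', hxy, mem_meets_self h8⟩
    · exfalso
      obtain ⟨c₃, hc₃, -, h7, -, -, h8⟩ := ham o Prot hn c₁ hc₁ β hrec c₂ hc₂ hle₂
      have hE₃ : InE γ c₃ q₁.1.2 := InE.mono hl hE hc₃ hc₁ h7
      exact h6 (mkTS hc₃ hE₃) (mkTS_le h8 hd₁) (meets_mono hM₁ (mkTS_le h7 (EndX.refl _)))

end Pool.Agent.Helper919.SD.Tzno
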