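import Pool.Agent.Helper919_SDT.Stmts2

set_option autoImplicit false

/-!
# Aronszajn trees on `ω₁` as good names of relations on the nodes
-/

namespace Pool.Agent.Helper919.SD.Tznode

open Ordinal Cardinal Set Pool.Agent.Helper919.SD
open Pool.Agent.Helper292.SP (fnot fand fall for' fimp fiff fex fground meets IsFun)

/-! ### The forcing language -/

section lang

variable {P : Type 1} [Preorder P]

theorem mem_fimp {φ ψ : Set P} {p : P} : p ∈ fimp φ ψ ↔ ∀ q ≤ p, q ∈ φ → ∃ r ≤ q, r ∈ ψ := by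
  constructor
  · intro h q hq hφ
    by_contra hcon
    push Not at hcon
    exact h q hq ⟨hφ, hcon⟩
  · rintro h q hq ⟨h1, h2⟩
    obtain ⟨r, hr, h3⟩ := h q hq h1
    exact h2 r hr h3

theorem mem_for {φ ψ : Set P} {p : P} : p ∈ for' φ ψ ↔ ∀ q ≤ p, ∃ r ≤ q, r ∈ φ ∨ r ∈ ψ := by
  constructor
  · intro h q hq
    by_contra hcon
    push Not at hcon
    exact h q hq ⟨fun r hr => (hcon r hr).1, fun r hr => (hcon r hr).2⟩
  · rintro h q hq ⟨h1, h2⟩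
    obtain ⟨r, hr, h3 | h3⟩ := h q hq
    · exact h1 r hr h3
    · exact h2 r hr h3

theorem mem_fex {ι : Type 1} {φ : ι → Set P} {p : P} : p ∈ fex φ ↔ ∀ q ≤ p, ∃ r ≤ q, ∃ i, r ∈ φ i := by
  constructor
  · intro h q hq
    by_contra hcon
    push Not at hcon
    exact h q hq fun i r hr => hcon r hr i
  · intro h q hq h1
    obtain ⟨r, hr, i, h2⟩ := h q hq
    exact h1 i r hr h2

theorem mem_fex0 {ι : Type} {φ : ι → Set P} {p : P} : p ∈ fex φ ↔ ∀ q ≤ p, ∃ r ≤ q, ∃ i, r ∈ φ i := by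
  constructor
  · intro h q hq
    by_contra hcon
    push Not at hcon
    exact h q hq fun i r hr => hcon r hr i
  · intro h q hq h1
    obtain ⟨r, hr, i, h2⟩ := h q hq
    exact h1 i r hr h2

theorem meets_dense {N : Set P} {p : P} (h : ∀ q ≤ p, ∃ r ≤ q, r ∈ meets N) : p ∈ meets N := by
  intro q hq
  obtain ⟨r, hr, h1⟩ := h q hq
  obtain ⟨r', hr', s, hs, h2⟩ := h1 r le_rfl
  exact ⟨r', le_trans hr' hr, s, hs, h2⟩

theorem mem_meets_self {N : Set P} {p : P} (h : p ∈ N) : p ∈ meets N := fun q hq => ⟨q, le_rfl, p, h, hq⟩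

/-- The consequence of a forced implication between names. -/
theorem imp_meets {φ : Set P} {N : Set P} {p : P} (hφ : ∀ q ∈ φ, ∀ r ≤ q, r ∈ φ) (h : p ∈ fimp φ (meets N)) (hp : p ∈ φ) :
    p ∈ meets N := meets_dense fun q hq => mem_fimp.1 h q hq (hφ p hp q hq)

end lang

/-! ### Countable ordinals -/

theorem Iio_countable {ξ : Ord} (h : ξ < ω_ 1) : (Set.Iio ξ).Countable := by
  rw [← Cardinal.le_aleph0_iff_set_countable, Cardinal.mk_Iio_ordinal, Cardinal.lift_le_aleph0]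
  rw [← Cardinal.ord_aleph, Cardinal.lt_ord, ← Cardinal.succ_aleph0, Order.lt_succ_iff] at h
  exact h

theorem Iic_countable (z : W) : (Set.Iic z).Countable := by
  have h1 : (Set.Iio (wo z)).Countable := Iio_countable (wo_lt z)
  have h2 : (wo ⁻¹' Set.Iio (wo z)).Countable := h1.preimage fun a b h => wo_inj h
  refine (h2.insert z).mono fun x hx => ?_
  rcases (show x ≤ z from hx).eq_or_lt with h | h
  · exact Or.inl h
  · exact Or.inr (wo_lt_wo.2 h)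

section main

variable {o : Ord → Opt}

theorem mt_iff {N : Set Cnd} (hN : N ⊆ Full o) (c : Frc o) :
    mt o (Full o) N c.1 ↔ ∀ q ≤ c, ∃ r ≤ q, ∃ s : Frc o, s.1 ∈ N ∧ r ≤ s := by
  constructor
  · intro h q hq
    obtain ⟨c'', h1, h2, d, hd, h3⟩ := h q.1 q.2 hq
    exact ⟨⟨c'', h1⟩, h2, ⟨d, hN hd⟩, hd, h3⟩
  · intro h c' hc' hle
    obtain ⟨r, hr, s, hs, h1⟩ := h ⟨c', hc'⟩ hle
    exact ⟨r.1, r.2, hr, s.1, hs, h1⟩

/-- The element of the forcing notion. -/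
def mk (c : Cnd) (hc : c ∈ Full o) : Frc o := ⟨c, hc⟩

/-- The relation on the nodes, as sets of conditions. -/
def RR (c₀ : Frc o) (T h : W → W → Set (Frc o)) (e : W → ℕ → Set (Frc o)) (x y : Node) : Set (Frc o) :=
  {c' | c' ≤ c₀ ∧ ∃ s t a b : W, wo a = x.1 ∧ wo b = y.1 ∧ c' ∈ meets (h s a) ∧ c' ∈ meets (h t b) ∧
    c' ∈ meets (e s x.2) ∧ c' ∈ meets (e t y.2) ∧ (s = t ∨ c' ∈ meets (T s t))}

variable {c₀ : Frc o} {T h : W → W → Set (Frc o)} {e : W → ℕ → Set (Frc o)}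

theorem RR_mono {x y : Node} {c c' : Frc o} (hc : c ∈ RR c₀ T h e x y) (hle : c' ≤ c) : c' ∈ RR c₀ T h e x y := by
  obtain ⟨h1, s, t, a, b, h2, h3, h4, h5, h6, h7, h8⟩ := hc
  exact ⟨hle.trans h1, s, t, a, b, h2, h3, meets_mono h4 hle, meets_mono h5 hle, meets_mono h6 hle, meets_mono h7 hle,
    h8.imp id fun h => meets_mono h hle⟩

theorem nodeName_sub (x y : Node) : nodeName o c₀ T h e x y ⊆ Full o := by
  rintro c ⟨c', rfl, -⟩; exact c'.2

theorem mt_node {x y : Node} {c : Frc o} :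
    mt o (Full o) (nodeName o c₀ T h e x y) c.1 ↔ ∀ q ≤ c, ∃ r ≤ q, r ∈ RR c₀ T h e x y := by
  rw [mt_iff (nodeName_sub x y)]
  constructor
  · intro H q hq
    obtain ⟨r, hr, s, ⟨c', hc', hR⟩, hrs⟩ := H q hq
    have : c' = s := Subtype.ext hc'
    subst this
    exact ⟨r, hr, RR_mono hR hrs⟩
  · intro H q hq
    obtain ⟨r, hr, hR⟩ := H q hq
    exact ⟨r, hr, r, ⟨r, rfl, hR⟩, le_rfl⟩

theorem nd {x y : Node} {c : Cnd} (hc : c ∈ Full o) (hm : mt o (Full o) (nodeName o c₀ T h e x y) c) :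
    ∀ q ≤ mk c hc, ∃ r ≤ q, r ∈ RR c₀ T h e x y := (mt_node (c := mk c hc)).1 hm

theorem ndr {x y : Node} {c : Cnd} (hc : c ∈ Full o) (hm : ∀ q ≤ mk c hc, ∃ r ≤ q, r ∈ RR c₀ T h e x y) :
    mt o (Full o) (nodeName o c₀ T h e x y) c := (mt_node (c := mk c hc)).2 hm

theorem mt_of_RR {x y : Node} {c : Frc o} (hc : c ∈ RR c₀ T h e x y) :
    mt o (Full o) (nodeName o c₀ T h e x y) c.1 := mt_node.2 fun q hq => ⟨q, le_rfl, RR_mono hc hq⟩

end main

theorem job_znode : Sz_node := by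
  intro o Prot hn hNN c₀ T h e hT hU hH he hinj
  obtain ⟨ht1, ht2, ht3, -⟩ := hT
  obtain ⟨⟨hh1, hh2⟩, hh3, hh4, -⟩ := hH
  obtain ⟨he1, he2⟩ := he
  have fmono : ∀ {N M : Set (Frc o)}, ∀ q ∈ fand (meets N) (meets M), ∀ r ≤ q, r ∈ fand (meets N) (meets M) :=
    fun q hq r hr => ⟨meets_mono hq.1 hr, meets_mono hq.2 hr⟩
  -- the facts below `c₀`
  have T2 : ∀ q ≤ c₀, ∀ x y z, q ∈ meets (T x y) → q ∈ meets (T y z) → q ∈ meets (T x z) := by
    intro q hq x y z h1 h2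
    refine meets_dense fun r hr => ?_
    obtain ⟨r', hr', h3⟩ := mem_fimp.1 (ht2 x y z) r (hr.trans hq) ⟨meets_mono h1 hr, meets_mono h2 hr⟩
    exact ⟨r', hr', h3⟩
  have T3 : ∀ q ≤ c₀, ∀ x y z, q ∈ meets (T x z) → q ∈ meets (T y z) →
      ∃ r ≤ q, x = y ∨ r ∈ meets (T x y) ∨ r ∈ meets (T y x) := by
    intro q hq x y z h1 h2
    obtain ⟨r, hr, h3⟩ := mem_fimp.1 (ht3 x y z) q hq ⟨h1, h2⟩
    obtain ⟨r', hr', h4 | h4⟩ := mem_for.1 h3 r le_rfl
    · exact ⟨r', hr'.trans hr, Or.inl h4⟩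
    · obtain ⟨r'', hr'', h5⟩ := mem_for.1 h4 r' le_rfl
      exact ⟨r'', hr''.trans (hr'.trans hr), Or.inr h5⟩
  have H1 : ∀ q ≤ c₀, ∀ x, ∃ r ≤ q, ∃ a, r ∈ meets (h x a) := fun q hq x => mem_fex0.1 (hh1 x) q hq
  have H2 : ∀ q ≤ c₀, ∀ x a a', q ∈ meets (h x a) → q ∈ meets (h x a') → a = a' := by
    intro q hq x a a' h1 h2
    obtain ⟨r, -, h3⟩ := mem_fimp.1 (hh2 x a a') q hq ⟨h1, h2⟩
    exact h3
  have H3 : ∀ q ≤ c₀, ∀ x y a b, q ∈ meets (T x y) → q ∈ meets (h x a) → q ∈ meets (h y b) → a < b := by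
    intro q hq x y a b h1 h2 h3
    obtain ⟨r, -, h4⟩ := mem_fimp.1 (hh3 x y a b) q hq ⟨h1, h2, h3⟩
    exact h4
  have H4 : ∀ q ≤ c₀, ∀ y b a, q ∈ meets (h y b) → a < b → ∃ r ≤ q, ∃ x, r ∈ meets (T x y) ∧ r ∈ meets (h x a) := by
    intro q hq y b a h1 h2
    obtain ⟨r, hr, h3⟩ := mem_fimp.1 (hh4 y b a) q hq ⟨h1, h2⟩
    obtain ⟨r', hr', x, h4⟩ := mem_fex0.1 h3 r le_rfl
    exact ⟨r', hr'.trans hr, x, h4⟩
  have E1 : ∀ q ≤ c₀, ∀ x, ∃ r ≤ q, ∃ n, r ∈ meets (e x n) := fun q hq x => mem_fex0.1 (he1 x) q hq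
  have E2 : ∀ q ≤ c₀, ∀ x n n', q ∈ meets (e x n) → q ∈ meets (e x n') → n = n' := by
    intro q hq x a a' h1 h2
    obtain ⟨r, -, h3⟩ := mem_fimp.1 (he2 x a a') q hq ⟨h1, h2⟩
    exact h3
  have I : ∀ q ≤ c₀, ∀ x y a n, q ∈ meets (h x a) → q ∈ meets (h y a) → q ∈ meets (e x n) → q ∈ meets (e y n) →
      x = y := by
    intro q hq x y a n h1 h2 h3 h4
    obtain ⟨r, -, h5⟩ := mem_fimp.1 (hinj x y a n) q hq ⟨⟨h1, h2⟩, h3, h4⟩
    exact h5
  constructor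
  case sub => exact nodeName_sub
  case lt =>
    rintro x y ⟨c, c', rfl, -, s, t, a, b, h1, h2, -⟩
    exact ⟨h1 ▸ wo_lt a, h2 ▸ wo_lt b⟩
  case lvl =>
    intro c hc x y hm
    obtain ⟨q, -, h0, s, t, a, b, h1, h2, h3, h4, h5, h6, h7⟩ := nd hc hm _ le_rfl
    rcases h7 with rfl | h7
    · have hab : a = b := H2 q h0 _ _ _ h3 h4
      have hnm : x.2 = y.2 := E2 q h0 _ _ _ h5 h6
      have hxy : x.1 = y.1 := by rw [← h1, ← h2, hab]
      exact ⟨hxy.le, fun _ => Prod.ext hxy hnm⟩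
    · have hab : wo a < wo b := wo_lt_wo.2 (H3 q h0 _ _ _ _ h7 h3 h4)
      rw [h1, h2] at hab
      exact ⟨hab.le, fun h => absurd h hab.ne⟩
  case refl =>
    intro c hc x y hm
    have hm' := nd hc hm
    refine ⟨ndr hc fun q hq => ?_, ndr hc fun q hq => ?_⟩
    · obtain ⟨r, hr, h0, s, t, a, b, h1, h2, h3, h4, h5, h6, h7⟩ := hm' q hq
      exact ⟨r, hr, h0, s, s, a, a, h1, h1, h3, h3, h5, h5, Or.inl rfl⟩
    · obtain ⟨r, hr, h0, s, t, a, b, h1, h2, h3, h4, h5, h6, h7⟩ := hm' q hq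
      exact ⟨r, hr, h0, t, t, b, b, h2, h2, h4, h4, h6, h6, Or.inl rfl⟩
  case trans =>
    intro c hc x y z hm1 hm2
    refine ndr hc fun q hq => ?_
    obtain ⟨r, hr, hR⟩ := nd hc hm1 q hq
    obtain ⟨r', hr', hR'⟩ := nd hc hm2 r (hr.trans hq)
    obtain ⟨h0, s, t, a, b, h1, h2, h3, h4, h5, h6, h7⟩ := RR_mono hR hr'
    obtain ⟨h0', s', t', a', b', h1', h2', h3', h4', h5', h6', h7'⟩ := hR'
    have hb : b = a' := wo_inj (h2.trans h1'.symm)
    subst hb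
    have ht : t = s' := I r' h0 _ _ _ _ h4 h3' h6 h5'
    subst ht
    refine ⟨r', hr'.trans hr, h0, s, t', a, b', h1, h2', h3, h4', h5, h6', ?_⟩
    rcases h7 with rfl | h7
    · exact h7'
    · rcases h7' with rfl | h7'
      · exact Or.inr h7
      · exact Or.inr (T2 r' h0 _ _ _ h7 h7')
  case ex =>
    intro c hc y hm ξ hξ
    obtain ⟨q, hq, hR⟩ := nd hc hm _ le_rfl
    rcases hξ.eq_or_lt with rfl | hlt
    · exact ⟨q.1, q.2, hq, y.2, mt_of_RR hR⟩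
    · obtain ⟨h0, s, t, a, b, h1, h2, h3, h4, h5, h6, h7⟩ := hR
      obtain ⟨a', ha'⟩ := wo_surj (hlt.trans (h2 ▸ wo_lt b))
      have hab : a' < b := wo_lt_wo.1 (by rw [ha', h2]; exact hlt)
      obtain ⟨r, hr, s', h8, h9⟩ := H4 q h0 t b a' h4 hab
      obtain ⟨r', hr', n, h10⟩ := E1 r (hr.trans h0) s'
      have hrq := hr'.trans hr
      refine ⟨r'.1, r'.2, le_trans hrq hq, n, mt_of_RR ⟨hrq.trans h0, s', t, a', b, ha', h2, meets_mono h9 hr',
        meets_mono h4 hrq, h10, meets_mono h6 hrq, Or.inr (meets_mono h8 hr')⟩⟩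
  case uniq =>
    intro c hc x x' y hm1 hm2 hx
    obtain ⟨r, hr, hR⟩ := nd hc hm1 _ le_rfl
    obtain ⟨r', hr', hR'⟩ := nd hc hm2 r hr
    obtain ⟨h0, s, t, a, b, h1, h2, h3, h4, h5, h6, h7⟩ := RR_mono hR hr'
    obtain ⟨h0', s', t', a', b', h1', h2', h3', h4', h5', h6', h7'⟩ := hR'
    have hb : b = b' := wo_inj (h2.trans h2'.symm)
    subst hb
    have ha : a = a' := wo_inj (h1.trans (hx.trans h1'.symm))
    subst ha
    have ht : t = t' := I r' h0 _ _ _ _ h4 h4' h6 h6'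
    subst ht
    have hs : s = s' := by
      rcases h7 with rfl | h7
      · rcases h7' with rfl | h7'
        · rfl
        · have hab := H2 r' h0 _ _ _ h3 h4
          exact absurd (H3 r' h0 _ _ _ _ h7' h3' h4') (by rw [hab]; exact lt_irrefl _)
      · rcases h7' with rfl | h7'
        · have hab := H2 r' h0 _ _ _ h3' h4'
          exact absurd (H3 r' h0 _ _ _ _ h7 h3 h4) (by rw [hab]; exact lt_irrefl _)
        · obtain ⟨r₂, hr₂, h8 | h8 | h8⟩ := T3 r' h0 _ _ _ h7 h7'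
          · exact h8
          · exact absurd (H3 r₂ (hr₂.trans h0) _ _ _ _ h8 (meets_mono h3 hr₂) (meets_mono h3' hr₂)) (lt_irrefl _)
          · exact absurd (H3 r₂ (hr₂.trans h0) _ _ _ _ h8 (meets_mono h3' hr₂) (meets_mono h3 hr₂)) (lt_irrefl _)
    subst hs
    exact Prod.ext hx (E2 r' h0 _ _ _ h5 h5')
  case nobr =>
    intro c hc b hcomp hunb
    -- nodes of the branch are nodes of the tree
    have key : ∀ q : Frc o, q ≤ mk c hc → ∀ x, mt o (Full o) (b x) q.1 → ∃ r ≤ q, r ∈ RR c₀ T h e x x := by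
      intro q hq x hx
      obtain ⟨c'', h1, h2, h3 | h3⟩ := hcomp q.1 q.2 hq x x hx hx
      · obtain ⟨r, hr, hR⟩ := nd h1 h3 _ le_rfl
        exact ⟨r, hr.trans h2, hR⟩
      · obtain ⟨r, hr, hR⟩ := nd h1 h3 _ le_rfl
        exact ⟨r, hr.trans h2, hR⟩
    have mtm : ∀ (N : Set Cnd) (q r : Frc o), r ≤ q → mt o (Full o) N q.1 → mt o (Full o) N r.1 := by
      intro N q r hr hm c' hc' hle
      exact hm c' hc' (le_trans (α := Frc o) (a := ⟨c', hc'⟩) hle hr)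
    obtain ⟨c₁, h1, h2, x₁, -, h3⟩ := hunb c hc (KLe.refl _) 0 (Ordinal.omega_pos 1)
    obtain ⟨q₀, hq₀, hR₀⟩ := key (mk c₁ h1) h2 x₁ h3
    have hq₀c : q₀ ≤ mk c hc := le_trans hq₀ h2
    let b' : W → Set (Frc o) := fun s => {q | q ≤ c₀ ∧ q ≤ mk c hc ∧ ∃ (x : Node) (a : W), wo a = x.1 ∧
      mt o (Full o) (b x) q.1 ∧ q ∈ meets (h s a) ∧ q ∈ meets (e s x.2)}
    have hb' : ∀ s, ∀ q ∈ b' s, ∀ r ≤ q, r ∈ b' s := by
      rintro s q ⟨h1, h2, x, a, h3, h4, h5, h6⟩ r hr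
      exact ⟨hr.trans h1, hr.trans h2, x, a, h3, mtm _ _ _ hr h4, meets_mono h5 hr, meets_mono h6 hr⟩
    refine hU q₀ hR₀.1 (mem_fex.2 fun q hq => ⟨q, le_rfl, b', ?_, ?_⟩)
    · intro s s'
      refine mem_fimp.2 fun q' hq' hmm => ?_
      obtain ⟨r, hr, u, hu, hru⟩ := hmm.1 q' le_rfl
      obtain ⟨r', hr', u', hu', hru'⟩ := hmm.2 r hr
      obtain ⟨h0, hc', x, a, h1, h2, h3, h4⟩ := hb' s u hu r' (hr'.trans hru)
      obtain ⟨h0', hc'', x', a', h1', h2', h3', h4'⟩ := hb' s' u' hu' r' hru'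
      have fin : ∃ r₃ ≤ r', s = s' ∨ r₃ ∈ meets (T s s') ∨ r₃ ∈ meets (T s' s) := by
        obtain ⟨c'', h5, h6, h7 | h7⟩ := hcomp r'.1 r'.2 hc' x x' h2 h2'
        · obtain ⟨r₃, hr₃, g0, s₁, t₁, a₁, b₁, g1, g2, g3, g4, g5, g6, g7⟩ := nd h5 h7 _ le_rfl
          have hr₃' : r₃ ≤ r' := le_trans hr₃ h6
          have e1 : a₁ = a := wo_inj (g1.trans h1.symm)
          have e2 : b₁ = a' := wo_inj (g2.trans h1'.symm)
          subst e1; subst e2
          have e3 : s₁ = s := I r₃ g0 _ _ _ _ g3 (meets_mono h3 hr₃') g5 (meets_mono h4 hr₃')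
          have e4 : t₁ = s' := I r₃ g0 _ _ _ _ g4 (meets_mono h3' hr₃') g6 (meets_mono h4' hr₃')
          subst e3; subst e4
          exact ⟨r₃, hr₃', g7.imp id Or.inl⟩
        · obtain ⟨r₃, hr₃, g0, s₁, t₁, a₁, b₁, g1, g2, g3, g4, g5, g6, g7⟩ := nd h5 h7 _ le_rfl
          have hr₃' : r₃ ≤ r' := le_trans hr₃ h6
          have e1 : a₁ = a' := wo_inj (g1.trans h1'.symm)
          have e2 : b₁ = a := wo_inj (g2.trans h1.symm)
          subst e1; subst e2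
          have e3 : s₁ = s' := I r₃ g0 _ _ _ _ g3 (meets_mono h3' hr₃') g5 (meets_mono h4' hr₃')
          have e4 : t₁ = s := I r₃ g0 _ _ _ _ g4 (meets_mono h3 hr₃') g6 (meets_mono h4 hr₃')
          subst e3; subst e4
          exact ⟨r₃, hr₃', g7.imp Eq.symm Or.inr⟩
      obtain ⟨r₃, hr₃, hfin⟩ := fin
      refine ⟨r₃, hr₃.trans (hr'.trans hr), ?_⟩
      rcases hfin with hfin | hfin | hfin
      · exact mem_for.2 fun u _ => ⟨u, le_rfl, Or.inl hfin⟩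
      · exact mem_for.2 fun u hu => ⟨u, le_rfl, Or.inr (mem_for.2 fun w hw =>
          ⟨w, le_rfl, Or.inl (meets_mono hfin (hw.trans hu))⟩)⟩
      · exact mem_for.2 fun u hu => ⟨u, le_rfl, Or.inr (mem_for.2 fun w hw =>
          ⟨w, le_rfl, Or.inr (meets_mono hfin (hw.trans hu))⟩)⟩
    · intro z
      refine mem_fex0.2 fun q' hq' => ?_
      have hq'c : q' ≤ mk c hc := hq'.trans (hq.trans hq₀c)
      have hq'0 : q' ≤ c₀ := hq'.trans (hq.trans hR₀.1)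
      obtain ⟨f, hf⟩ := (Iic_countable z).exists_eq_range ⟨z, Set.mem_Iic.2 le_rfl⟩
      let D : ℕ → Set Cnd := fun n => {d | ∃ hd : d ∈ Full o, (∀ d' : Frc o, d' ≤ mk d hd → ¬ d' ≤ c₀) ∨
        ∃ a, mk d hd ∈ meets (h (f n) a)}
      have hD : ∀ n, DO o (Full o) (D n) := by
        intro n
        refine ⟨fun d hd => hd.1, ?_, ?_⟩
        · rintro d ⟨hd, h1⟩ d' hd' hle
          refine ⟨hd', ?_⟩
          rcases h1 with h1 | ⟨a, h1⟩
          · exact Or.inl fun d'' hd'' => h1 d'' (le_trans hd'' hle)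
          · exact Or.inr ⟨a, meets_mono (p := mk d hd) h1 hle⟩
        · intro d hd
          by_cases hex : ∃ d' : Frc o, d' ≤ mk d hd ∧ d' ≤ c₀
          · obtain ⟨d', h1, h2⟩ := hex
            obtain ⟨r, hr, a, h3⟩ := H1 d' h2 (f n)
            exact ⟨r.1, ⟨r.2, Or.inr ⟨a, h3⟩⟩, le_trans hr h1⟩
          · push Not at hex
            exact ⟨d, ⟨hd, Or.inl hex⟩, KLe.refl _⟩
      obtain ⟨d, hd, hdq, hdD⟩ := hNN D hD q'.1 q'.2
      have hd0 : mk d hd ≤ c₀ := le_trans hdq hq'0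
      have hval : ∀ n, ∃ a, mk d hd ∈ meets (h (f n) a) := by
        intro n
        obtain ⟨_, h5⟩ := hdD n
        rcases h5 with h5 | h5
        · exact absurd hd0 (h5 _ le_rfl)
        · exact h5
      choose av hav using hval
      have hsup : (⨆ n, Order.succ (wo (av n))) < ω_ 1 :=
        Ordinal.iSup_lt_omega_one fun n => (Cardinal.isSuccLimit_omega 1).succ_lt (wo_lt _)
      obtain ⟨c'', h1, h2, x, h3, h4⟩ := hunb d hd (le_trans (α := Frc o) (a := ⟨d, hd⟩) hdq hq'c) _ hsup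
      have h2' : mk c'' h1 ≤ ⟨d, hd⟩ := h2
      obtain ⟨r, hr, hR⟩ := key (mk c'' h1) (h2'.trans (le_trans hdq hq'c)) x h4
      obtain ⟨g0, s, t, a, b₁, g1, g2, g3, g4, g5, g6, g7⟩ := hR
      have hrd : r ≤ mk d hd := hr.trans h2'
      refine ⟨r, hrd.trans hdq, s, ?_, mem_meets_self ⟨g0, hrd.trans (le_trans hdq hq'c), x, a, g1,
        mtm _ (mk c'' h1) _ hr h4, g3, g5⟩⟩
      change z < s
      by_contra hzs
      have hs : s ∈ Set.Iic z := not_lt.1 hzs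
      rw [hf] at hs
      obtain ⟨n, rfl⟩ := hs
      have e1 : av n = a := H2 r g0 _ _ _ (meets_mono (hav n) hrd) g3
      have e2 : wo a < x.1 := by
        rw [← e1]
        exact (Order.lt_succ _).trans_le ((Ordinal.le_iSup (fun n => Order.succ (wo (av n))) n).trans h3)
      rw [g1] at e2
      exact absurd e2 (lt_irrefl _)

end Pool.Agent.Helper919.SD.Tznode
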