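import Pool.Agent.Helper919_SDT.LangBasic

set_option autoImplicit false

namespace Pool.Agent.Helper919.SD

open Ordinal Cardinal Set
open Pool.Agent.Helper292.SP (fnot fand fall for' fimp fiff fex fground meets IsFun)

theorem job_znosd (hred : Sz_red) (hstat : Sz_stat) (hteR : Sz_teR) (hteS : Sz_teS) (hkill : Sz_kill) (hno : Sz_no)
    (hrec : Sz_rec) (hlf : Sz_lf) : Sz_nosd := by
  intro o Prot hn hB2 c T c' hc' hSD
  obtain ⟨-, hnb, hall⟩ := hSD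
  -- reduction of the name of the tree
  obtain ⟨y, hy, hred'⟩ := hred o Prot hn (W × W) (fun ab => Subtype.val '' (T ab.1 ab.2)) c'.1.j
  set TT : W → W → Set Cnd := fun a b => {d | d ∈ PP o y ∧ mt o (Full o) (Subtype.val '' (T a b)) d} with hTT
  have hTTsub : ∀ a b, TT a b ⊆ PP o y := fun a b d hd => hd.1
  have hTTF : ∀ a b, TT a b ⊆ Full o := fun a b d hd => ⟨y, hd.1⟩
  have hmeets : ∀ a b (p : Frc o), p ∈ meets (T a b) ↔ p ∈ meets (LfP o (TT a b)) := by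
    intro a b p
    rw [meets_iff_mt, meets_LfP (hTTF a b)]
    exact hred' (a, b) p.1 p.2
  obtain ⟨c₀, hc₀, hc₀c⟩ := hlf o Prot hn c'.1.j y hy.le c'.1 (Full.mem c'.2)
  obtain ⟨γ, hγ, hoγ, hcase⟩ := hB2 y c₀ hc₀ TT hTTsub
  rcases hcase with ⟨β, hβ, hoβ, z, hz, hchn⟩ | ⟨hP, hN⟩
  · obtain ⟨c₂, hc₂, hch⟩ := hkill o Prot hn y β γ (hγ.le.trans hβ.le) hoβ TT hTTsub z hchn
    have hle : c₂ ≤ c' := KLe.trans (Full.mem c₂.2) hc₀ (Full.mem c'.2)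
      (KLe.trans (Full.mem c₂.2) z.2.1 hc₀ hc₂ hz) hc₀c
    refine hnb c₂ hle (mem_UBranch.2 fun q hq => ⟨q, le_rfl, ?_⟩)
    exact (hch.mono hq).congr fun a b p hp => (hmeets a b p).2 hp
  · have himp := hall (Sn o γ) (TEn o γ)
    obtain ⟨c₃, hc₃, hfa⟩ := mem_fimp.1 himp ⟨c₀, ⟨y, hc₀⟩⟩ hc₀c
      ⟨hstat o Prot hn γ hP hoγ _, hteR o Prot hn γ hoγ _, fun z _ => hteS o Prot hn γ hoγ z⟩
    obtain ⟨c₄, hc₄, hle₄, hr₄, -⟩ := hrec o Prot hn c₃.1 c₃.2 (γ + 1) 0 (Ordinal.omega_pos 1)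
    let e : CB := ⟨∅, ⟨0, Ordinal.omega_pos 1, fun ξ h => absurd h (notMem_empty ξ)⟩, fun ξ h0 h => by
      obtain ⟨ζ, hζ, -⟩ := h 0 h0; exact absurd hζ (notMem_empty ζ)⟩
    have hIn : InE γ c₄ e := ⟨hr₄, fun ξ h => absurd h (notMem_empty ξ)⟩
    let c₄' : Frc o := ⟨c₄, hc₄⟩
    have hdom : c₄' ∈ meets ((TEn o γ).dom e) := fun q hq => ⟨q, le_rfl, c₄', hIn, hq⟩
    let z : TS (TEn o γ) := ⟨(c₄', e), hdom⟩
    obtain ⟨z', hz', hch⟩ := mem_UBranch.1 (hfa z hle₄) z le_rfl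
    have hch' : Chn (fun a b => lft (TEn o γ) (LfP o (TT a b))) z' := by
      refine hch.congr fun a b p hp => ?_
      rw [mem_meets_lft] at hp ⊢
      exact (hmeets a b _).1 hp
    have hle : KLe o z'.1.1.1 c₀ := KLe.trans (Full.mem z'.1.1.2) (Full.mem c₃.2) hc₀
      (KLe.trans (Full.mem z'.1.1.2) (Full.mem hc₄) (Full.mem c₃.2) hz'.1 hle₄) hc₃
    obtain ⟨β, hβ, z'', hz'', hch''⟩ := hno o Prot hn y γ hγ hoγ TT hTTsub c₀ hc₀ z' hle hch'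
    exact hN β hβ z'' hz'' hch''

end Pool.Agent.Helper919.SD
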