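import Pool.Agent.Helper919_SDT.Stmts2

set_option autoImplicit false

namespace Pool.Agent.Helper919.SD.Tzsath

open Ordinal Cardinal Set
open Pool.Agent.Helper292.SP (fnot fand fall for' fimp fiff fex fground meets IsFun)

variable {o : Ord → Opt} {Prot : Set Ord}

/-! ### The forcing language -/

section lang

universe v w

variable {P : Type 1} [Preorder P]

theorem meets_of_mem {N : Set P} {p : P} (h : p ∈ N) : p ∈ meets N := fun q hq => ⟨q, le_rfl, p, h, hq⟩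

theorem fex_of {ι : Sort v} {φ : ι → Set P} {p : P} (i : ι) (h : ∀ q ≤ p, q ∈ φ i) : p ∈ fex φ :=
  fun q hq hcon => hcon i q le_rfl (h q hq)

theorem fex_elim {ι : Sort v} {φ : ι → Set P} {p : P} (h : p ∈ fex φ) : ∃ i, ∃ q ≤ p, q ∈ φ i := by
  have h1 := h p le_rfl
  change ¬ ∀ i, ∀ q ≤ p, q ∉ φ i at h1
  push Not at h1
  exact h1

theorem fnot_mono {φ : Set P} {p q : P} (h : p ∈ fnot φ) (hq : q ≤ p) : q ∈ fnot φ := fun r hr => h r (hr.trans hq)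

theorem fimp_elim {φ : Set P} {h0 : Prop} {p q : P} (h : p ∈ fimp φ (fground h0)) (hq : q ≤ p) (hφ : q ∈ φ) : h0 := by
  by_contra hcon
  exact h q hq ⟨hφ, fun r _ hr => hcon hr⟩

theorem fimp_ground {φ : Set P} {h0 : Prop} {p : P} (h : ∀ q ≤ p, q ∈ φ → h0) : p ∈ fimp φ (fground h0) :=
  fun q hq hcon => hcon.2 q le_rfl (h q hq hcon.1)

theorem TreeOrd_mono {T : W → W → Set P} {p q : P} (h : p ∈ TreeOrd T) (hq : q ≤ p) : q ∈ TreeOrd T :=
  ⟨fun x => fnot_mono (h.1 x) hq, fun x y z => fnot_mono (h.2.1 x y z) hq,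
    fun x y z => fnot_mono (h.2.2.1 x y z) hq, fnot_mono h.2.2.2 hq⟩

end lang

theorem mt_of_self {N : Set Cnd} {c : Cnd} (hc : c ∈ N) : mt o (Full o) N c :=
  fun c' hc' hle => ⟨c', hc', KLe.refl _, c, hc, hle⟩

theorem mtF_mono {N : Set Cnd} {c c' : Frc o} (h : mt o (Full o) N c.1) (hle : c' ≤ c) : mt o (Full o) N c'.1 :=
  fun e he hle' => h e he (KLe.trans (Full.mem he) (Full.mem c'.2) (Full.mem c.2) hle' hle)

/-- The name of the specialising function. -/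
def fN (o : Ord → Opt) (i : Ord) (h : W → W → Set (Frc o)) (e : W → ℕ → Set (Frc o)) (s : W) (m : ℕ) : Set (Frc o) :=
  {c | ∃ (a : W) (n : ℕ) (v : ℚ), c ∈ meets (h s a) ∧ c ∈ meets (e s n) ∧ mt o (Full o) (Val o i (wo a, n) v) c.1 ∧
    Encodable.encode v = m}

theorem job_zsath (hnn : Sz_nnF) (hgr : Sz_goodred) (hval : Sz_val) (hnode : Sz_node) : Sz_sath := by
  intro o Prot hn hB1 c T q hqc
  rintro ⟨⟨hq1, hq2, hq3⟩, hcon⟩
  obtain ⟨h, q₁, hq₁, hq3⟩ := fex_elim hq3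
  obtain ⟨e, c₀, hc₀, hH, hE, hI⟩ := fex_elim hq3
  have hc₀q : c₀ ≤ q := hc₀.trans hq₁
  have hgood := hnode o Prot hn (hnn o Prot hn) c₀ T h e (TreeOrd_mono hq1 hc₀q) (fnot_mono hq2 hc₀q) hH hE hI
  obtain ⟨y, -, r', hr1, hr2, hr3, hr4⟩ := hgr o Prot hn _ hgood 0
  obtain ⟨i, hiy, hi⟩ := hB1 y r' hr1 hr2
  have hi' : ∃ B g, o i = Opt.spec (upN o i r') B g := by
    rcases hi with hi | hi
    · exact hi
    · exact absurd (hr3 i hiy) hi
  obtain ⟨B, g, hoi⟩ := hi'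
  obtain ⟨hv1, hv2, hv3⟩ := hval o Prot hn i _ B g hoi
  -- values below a condition
  have hun : ∀ s m, ∀ p ≤ c₀, p ∈ meets (fN o i h e s m) → ∃ p' ≤ p, p' ∈ fN o i h e s m := by
    intro s m p hp hm
    obtain ⟨p', hp', d, ⟨a, n, v, h1, h2, h3, h4⟩, hd⟩ := hm p le_rfl
    exact ⟨p', hp', a, n, v, meets_mono h1 hd, meets_mono h2 hd, mtF_mono h3 hd, h4⟩
  have hmono : ∀ s m, ∀ p p' : Frc o, p' ≤ p → p ∈ fN o i h e s m → p' ∈ fN o i h e s m := by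
    rintro s m p p' hp ⟨a, n, v, h1, h2, h3, h4⟩
    exact ⟨a, n, v, meets_mono h1 hp, meets_mono h2 hp, mtF_mono h3 hp, h4⟩
  have hhu : ∀ s a a', ∀ p ≤ c₀, p ∈ meets (h s a) → p ∈ meets (h s a') → a = a' :=
    fun s a a' p hp h1 h2 => fimp_elim (hH.1.2 s a a') hp ⟨h1, h2⟩
  have heu : ∀ s n n', ∀ p ≤ c₀, p ∈ meets (e s n) → p ∈ meets (e s n') → n = n' :=
    fun s a a' p hp h1 h2 => fimp_elim (hE.2 s a a') hp ⟨h1, h2⟩
  have hmain : ∀ p ≤ c₀, p ∈ fand (IsFun (fN o i h e)) (fall fun x : W => fall fun y : W => fall fun n : ℕ =>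
      fnot (fand (meets (T x y)) (fand (meets (fN o i h e x n)) (meets (fN o i h e y n))))) := by
    intro p hp
    refine ⟨⟨fun s => ?_, fun s m m' => ?_⟩, fun x y m => ?_⟩
    · -- total
      intro p₁ hp₁ hall
      obtain ⟨a, p₂, hp₂, h2⟩ := fex_elim (φ := fun a => meets (h s a)) (p := p₁)
        (fnot_mono (hH.1.1 s) (hp₁.trans hp))
      obtain ⟨n, p₃, hp₃, h3⟩ := fex_elim (φ := fun n => meets (e s n)) (p := p₂)
        (fnot_mono (hE.1 s) (hp₂.trans (hp₁.trans hp)))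
      obtain ⟨c', hc', hle, v, hv⟩ := hv1 p₃.1 p₃.2 (wo a, n) (wo_lt a)
      let p₄ : Frc o := ⟨c', hc'⟩
      have hp₄ : p₄ ≤ p₃ := hle
      refine hall (Encodable.encode v) p₄ (hp₄.trans (hp₃.trans hp₂)) (meets_of_mem ?_)
      exact ⟨a, n, v, meets_mono h2 (hp₄.trans hp₃), meets_mono h3 hp₄, hv, rfl⟩
    · -- unique
      refine fimp_ground fun p₁ hp₁ hm => ?_
      obtain ⟨p₂, hp₂, h2⟩ := hun s m p₁ (hp₁.trans hp) hm.1
      obtain ⟨p₃, hp₃, a', n', v', h3, h4, h5, h6⟩ := hun s m' p₂ (hp₂.trans (hp₁.trans hp)) (meets_mono hm.2 hp₂)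
      obtain ⟨a, n, v, h7, h8, h9, h10⟩ := hmono s m p₂ p₃ hp₃ h2
      have hp3 : p₃ ≤ c₀ := hp₃.trans (hp₂.trans (hp₁.trans hp))
      have e1 := hhu s a a' p₃ hp3 h7 h3
      have e2 := heu s n n' p₃ hp3 h8 h4
      subst e1; subst e2
      have e3 := hv2 p₃.1 p₃.2 _ v v' h9 h5
      rw [← h10, ← h6, e3]
    · rintro p₁ hp₁ ⟨hT, hm1, hm2⟩
      obtain ⟨p₂, hp₂, h2⟩ := hun x m p₁ (hp₁.trans hp) hm1
      obtain ⟨p₃, hp₃, b, n', v', h3, h4, h5, h6⟩ := hun y m p₂ (hp₂.trans (hp₁.trans hp)) (meets_mono hm2 hp₂)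
      obtain ⟨a, n, v, h7, h8, h9, h10⟩ := hmono x m p₂ p₃ hp₃ h2
      have hp3 : p₃ ≤ c₀ := hp₃.trans (hp₂.trans (hp₁.trans hp))
      have hT3 : p₃ ∈ meets (T x y) := meets_mono hT (hp₃.trans hp₂)
      have hab : a < b := fimp_elim (hH.2.1 x y a b) hp3 ⟨hT3, h7, h3⟩
      have hne : ((wo a, n) : Node) ≠ (wo b, n') := by
        intro heq
        exact absurd (wo_lt_wo.2 hab) (by rw [(Prod.mk.inj heq).1]; exact lt_irrefl _)
      have hmem : p₃.1 ∈ nodeName o c₀ T h e (wo a, n) (wo b, n') :=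
        ⟨p₃, rfl, hp3, x, y, a, b, rfl, rfl, h7, h3, h8, h4, Or.inr hT3⟩
      have hmt := (hr4 i hiy (wo a, n) (wo b, n') p₃.1 p₃.2).1 (mt_of_self hmem)
      have hlt := hv3 p₃.1 p₃.2 _ _ v v' hmt hne h9 h5
      have : v = v' := Encodable.encode_injective (h10.trans h6.symm)
      exact absurd hlt (by rw [this]; exact lt_irrefl _)
  exact hcon c₀ hc₀q (fex_of (fN o i h e) hmain)

end Pool.Agent.Helper919.SD.Tzsath
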