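import Pool.Agent.Helper919_SDT.Stmts2

set_option autoImplicit false

namespace Pool.Agent.Helper919.SD.Tzsmall

open Ordinal Cardinal Set

universe u v

/-! ### Small sets -/

/-- Functions with values in a small set which are constant outside a small set. -/
def Fn {α : Type u} {β : Type v} (S : Set α) (z : β) (R : Set β) : Set (α → β) :=
  {f | (∀ a, a ∉ S → f a = z) ∧ ∀ a ∈ S, f a ∈ R}

theorem small_Fn {α : Type u} {β : Type v} {S : Set α} {z : β} {R : Set β} (hS : Small.{0} S) (hR : Small.{0} R) :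
    Small.{0} (Fn S z R) := by
  let φ : Fn S z R → (S → R) := fun f a => ⟨f.1 a.1, f.2.2 a.1 a.2⟩
  refine small_of_injective (f := φ) ?_
  rintro ⟨f, hf⟩ ⟨g, hg⟩ h
  apply Subtype.ext
  funext a
  change f a = g a
  by_cases ha : a ∈ S
  · have h1 := congrFun h ⟨a, ha⟩
    exact congrArg Subtype.val h1
  · rw [hf.1 a ha, hg.1 a ha]

theorem small_pow {β : Type u} {R : Set β} (hR : Small.{0} R) : Small.{0} (𝒫 R) := by
  let φ : (𝒫 R : Set (Set β)) → Set R := fun s => Subtype.val ⁻¹' s.1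
  refine small_of_injective (f := φ) ?_
  rintro ⟨s, hs⟩ ⟨t, ht⟩ h
  apply Subtype.ext
  change s = t
  ext x
  constructor
  · intro hx
    have : (⟨x, hs hx⟩ : R) ∈ φ ⟨s, hs⟩ := hx
    rw [h] at this; exact this
  · intro hx
    have : (⟨x, ht hx⟩ : R) ∈ φ ⟨t, ht⟩ := hx
    rw [← h] at this; exact this

theorem small_pr {α : Type u} {β : Type v} {S : Set α} {R : Set β} (hS : Small.{0} S) (hR : Small.{0} R) :
    Small.{0} (S ×ˢ R : Set (α × β)) := by
  let φ : (S ×ˢ R : Set (α × β)) → S × R := fun x => (⟨x.1.1, x.2.1⟩, ⟨x.1.2, x.2.2⟩)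
  refine small_of_injective (f := φ) ?_
  rintro ⟨⟨a, b⟩, h1⟩ ⟨⟨a', b'⟩, h1'⟩ h
  apply Subtype.ext
  have h2 := congrArg (fun x => x.1.1) h
  have h3 := congrArg (fun x => x.2.1) h
  exact Prod.ext h2 h3

theorem small_univ0 (α : Type) : Small.{0} (Set.univ : Set α) := inferInstance

/-! ### The sets of the components of conditions -/

def Th1 : Set (Ord → ℕ → ℚ) := Fn (Iio (ω_ 1)) 0 Set.univ

def Th (y : Ord) : Set Thr := Fn (Iio y) 0 Th1

theorem small_Th (y : Ord) : Small.{0} (Th y) :=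
  small_Fn inferInstance (small_Fn inferInstance (small_univ0 _))

def CC (y : Ord) : Set (Ord → Set Ord) := Fn (Iic y) ∅ (𝒫 (Iio (ω_ 1)))

theorem small_CC (y : Ord) : Small.{0} (CC y) := small_Fn inferInstance (small_pow inferInstance)

def UU (y : Ord) : Set (Ord → Ord → Set Ord) := Fn (Iic y) (fun _ => ∅) (Fn (Iio (ω_ 1)) ∅ (𝒫 (Iio y)))

theorem small_UU (y : Ord) : Small.{0} (UU y) :=
  small_Fn inferInstance (small_Fn inferInstance (small_pow inferInstance))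

def TT (y : Ord) : Set (Ord → Ord → Set Thr) := Fn (Iic y) (fun _ => ∅) (Fn (Iio (ω_ 1)) ∅ (𝒫 (Th y)))

theorem small_TT (y : Ord) : Small.{0} (TT y) :=
  small_Fn inferInstance (small_Fn inferInstance (small_pow (small_Th y)))

def QQ (y B : Ord) : Set (Ord → Set (Ord × Thr × Ord)) := Fn (Iic y) ∅ (𝒫 (Iio (ω_ 1) ×ˢ (Th y ×ˢ Iio B)))

theorem small_QQ (y B : Ord) : Small.{0} (QQ y B) :=
  small_Fn inferInstance (small_pow (small_pr inferInstance (small_pr (small_Th y) inferInstance)))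

def bf : Opt → Ord
  | Opt.spec _ B _ => B
  | _ => 0

/-- The set of the conditions with data in small sets. -/
def Box (y B : Ord) : Set Cond :=
  {p | p.J ∈ 𝒫 (Iic y) ∧ p.C ∈ CC y ∧ p.u ∈ UU y ∧ p.T ∈ TT y ∧ p.F ∈ CC y ∧ p.Pr ∈ QQ y B}

theorem small_Box (y B : Ord) : Small.{0} (Box y B) := by
  have h1 : Small.{0} (𝒫 (Iic y) : Set (Set Ord)) := small_pow inferInstance
  have h2 := small_CC y
  have h3 := small_UU y
  have h4 := small_TT y
  have h5 := small_QQ y B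
  let φ : Box y B → (𝒫 (Iic y) : Set (Set Ord)) × (CC y) × (UU y) × (TT y) × (CC y) × (QQ y B) := fun p =>
    (⟨p.1.J, p.2.1⟩, ⟨p.1.C, p.2.2.1⟩, ⟨p.1.u, p.2.2.2.1⟩, ⟨p.1.T, p.2.2.2.2.1⟩, ⟨p.1.F, p.2.2.2.2.2.1⟩,
      ⟨p.1.Pr, p.2.2.2.2.2.2⟩)
  refine small_of_injective (f := φ) ?_
  rintro ⟨p, hp⟩ ⟨q, hq⟩ h
  apply Subtype.ext
  change p = q
  have e1 : p.J = q.J := congrArg (fun x => x.1.1) h
  have e2 : p.C = q.C := congrArg (fun x => x.2.1.1) h
  have e3 : p.u = q.u := congrArg (fun x => x.2.2.1.1) h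
  have e4 : p.T = q.T := congrArg (fun x => x.2.2.2.1.1) h
  have e5 : p.F = q.F := congrArg (fun x => x.2.2.2.2.1.1) h
  have e6 : p.Pr = q.Pr := congrArg (fun x => x.2.2.2.2.2.1) h
  exact Cond.ext e1 e2 e3 e4 e5 e6

section

variable {o : Ord → Opt}

theorem mem_Th {y : Ord} {p : Cond} (hp : p ∈ A o y) {j α : Ord} {t : Thr} (ht : t ∈ p.T j α) : t ∈ Th y := by
  have hα : α ∈ p.C j := by
    by_contra h
    rw [(A.nrm hp).T j α h] at ht; exact ht
  have hJ := (A.nrm hp).mem_J hα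
  have hc := A.core hp hJ
  have hs := hc.Ts α hα t ht
  have hj := A.le hp hJ
  refine ⟨fun i hi => ?_, fun i _ => ⟨fun ξ hξ => ?_, fun _ _ => trivial⟩⟩
  · funext ξ n
    exact eq_zero_of_cut hs fun h => hi ((co_lt h.1).trans_le hj)
  · funext n
    exact eq_zero_of_cut hs fun h => hξ (h.2.trans_lt (hc.Clt α hα))

theorem A_sub_Box (o : Ord → Opt) (y : Ord) : ∃ B, A o y ⊆ Box y B := by
  refine ⟨⨆ i : Iio y, bf (o i.1), fun p hp => ?_⟩
  have hn := A.nrm hp
  have hCe : ∀ j, j ∉ Iic y → p.C j = ∅ := fun j hj => hn.C j fun h => hj (A.le hp h)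
  have hClt : ∀ j α, α ∈ p.C j → α < ω_ 1 := fun j α h => (A.core' hp h).Clt α h
  refine ⟨fun j hj => A.le hp hj, ⟨hCe, fun j _ α hα => hClt j α hα⟩, ⟨fun j hj => ?_, fun j hj => ⟨?_, ?_⟩⟩,
    ⟨fun j hj => ?_, fun j hj => ⟨?_, ?_⟩⟩, ⟨?_, ?_⟩, ⟨?_, ?_⟩⟩
  · funext α
    exact hn.u j α (by rw [hCe j hj]; exact notMem_empty α)
  · intro α hα
    exact hn.u j α fun h => hα (hClt j α h)
  · intro α _ z hz
    have hα : α ∈ p.C j := by
      by_contra h
      rw [hn.u j α h] at hz; exact hz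
    exact ((A.core' hp hα).ult α hα z hz).trans_le hj
  · funext α
    exact hn.T j α (by rw [hCe j hj]; exact notMem_empty α)
  · intro α hα
    exact hn.T j α fun h => hα (hClt j α h)
  · intro α _ t ht
    exact mem_Th hp ht
  · intro j hj; exact hn.F j fun h => hj (A.le hp h)
  · intro j _ ξ hξ
    have hJ : j ∈ p.J := by
      by_contra h
      rw [hn.F j h] at hξ; exact hξ
    exact (A.core hp hJ).Flt ξ hξ
  · intro j hj; exact hn.Pr j fun h => hj (A.le hp h)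
  · intro j _ e he
    have hJ : j ∈ p.J := by
      by_contra h
      rw [hn.Pr j h] at he; exact he
    have hleg := (Leg_iff o j p).1 (A.leg hp hJ)
    by_cases hs : ∃ i, i + 1 = j
    · obtain ⟨i, rfl⟩ := hs
      have hopt := hleg.2.2 i rfl
      unfold LegOpt at hopt
      cases ho : o i with
      | coh =>
        simp only [ho] at hopt
        rw [hopt.Pr0] at he; exact absurd he (notMem_empty e)
      | kill γ =>
        simp only [ho] at hopt
        rw [hopt.Pr0] at he; exact absurd he (notMem_empty e)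
      | spec r B g =>
        simp only [ho] at hopt
        obtain ⟨h1, h2, h3⟩ := hopt.Pr e he
        refine ⟨hClt _ _ h1, mem_Th hp h2, h3.trans_le ?_⟩
        have hiy : i < y := (lt_add_one i).trans_le (A.le hp hJ)
        have h4 : bf (o i) ≤ ⨆ i : Iio y, bf (o i.1) := Ordinal.le_iSup (fun i : Iio y => bf (o i.1)) ⟨i, hiy⟩
        rw [ho] at h4; exact h4
    · rw [(hleg.2.1 hs).2] at he; exact absurd he (notMem_empty e)

theorem job_small : Sz_small := by
  intro o y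
  obtain ⟨B, hB⟩ := A_sub_Box o y
  have h1 := small_Box y B
  have h2 := small_Th y
  let φ : PP o y → (Box y B) × (Iio (ω_ 1) : Set Ord) × (Th y) := fun c =>
    (⟨c.1.p, hB c.2.2.1⟩, ⟨c.1.α, (A.core' c.2.2.1 c.2.2.2.2.1).Clt _ c.2.2.2.2.1⟩,
      ⟨c.1.t, mem_Th c.2.2.1 c.2.2.2.2.2⟩)
  refine small_of_injective (f := φ) ?_
  rintro ⟨c, hc⟩ ⟨d, hd⟩ h
  apply Subtype.ext
  change c = d
  have e1 : c.p = d.p := congrArg (fun x => x.1.1) h
  have e2 : c.α = d.α := congrArg (fun x => x.2.1.1) h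
  have e3 : c.t = d.t := congrArg (fun x => x.2.2.1) h
  exact Cnd.ext e1 (hc.1.trans hd.1.symm) e2 e3

theorem job_smallR : Sz_smallR := by
  intro o y
  have h1 := job_small o y
  have hN : Small.{0} (Iio (ω_ 1) ×ˢ (Set.univ : Set ℕ) : Set Node) := small_pr inferInstance (small_univ0 _)
  have h2 : Small.{0} (Fn (Iio (ω_ 1) ×ˢ (Set.univ : Set ℕ) : Set Node) (fun _ : Node => (∅ : Set Cnd))
      (Fn (Iio (ω_ 1) ×ˢ (Set.univ : Set ℕ) : Set Node) (∅ : Set Cnd) (𝒫 (PP o y)))) :=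
    small_Fn hN (small_Fn hN (small_pow h1))
  refine @small_subset _ _ _ ?_ h2
  rintro r ⟨hr1, hr2⟩
  refine ⟨fun a ha => ?_, fun a _ => ⟨fun b hb => ?_, fun b _ => hr1 a b⟩⟩
  · funext b
    by_contra h
    exact ha ⟨(hr2 a b (nonempty_iff_ne_empty.2 h)).1, trivial⟩
  · by_contra h
    exact hb ⟨(hr2 a b (nonempty_iff_ne_empty.2 h)).2, trivial⟩

theorem job_smallG : Sz_smallG := by
  intro o y r
  have h1 := job_small o y
  have h2 : ∀ k : ℕ, Small.{0} (Fn (Iio (ω_ 1)) (fun _ : Fin k → ℕ => (∅ : Set Cnd))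
      (Fn (Set.univ : Set (Fin k → ℕ)) (∅ : Set Cnd) (𝒫 (PP o y)))) := fun k =>
    small_Fn inferInstance (small_Fn (small_univ0 _) (small_pow h1))
  let φ : {G : PName // OKP o (PP o y) r G} → Σ k : ℕ, (Fin k → ℚ) ×
      (Fn (Iio (ω_ 1)) (fun _ : Fin k → ℕ => (∅ : Set Cnd))
      (Fn (Set.univ : Set (Fin k → ℕ)) (∅ : Set Cnd) (𝒫 (PP o y)))) := fun G =>
    ⟨G.1.k, G.1.v, ⟨G.1.G, by
      refine ⟨fun η hη => ?_, fun η _ => ⟨fun n hn => absurd trivial hn, fun n _ => G.2.sub η n⟩⟩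
      funext n
      by_contra h
      exact hη (G.2.lt η n (nonempty_iff_ne_empty.2 h))⟩⟩
  refine small_of_injective (f := φ) ?_
  rintro ⟨⟨k, v, G⟩, hG⟩ ⟨⟨k', v', G'⟩, hG'⟩ h
  apply Subtype.ext
  have hk : k = k' := congrArg Sigma.fst h
  subst hk
  have h3 := eq_of_heq (Sigma.mk.inj h).2
  have e1 : v = v' := congrArg Prod.fst h3
  have e2 : G = G' := congrArg (fun x => x.2.1) h3
  subst e1; subst e2; rfl

theorem job_smallT : Sz_smallT := by
  intro o y
  have h1 := job_small o y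
  have h2 : Small.{0} (𝒫 (PP o y) : Set (Set Cnd)) := small_pow h1
  let φ : {T : W → W → Set Cnd // ∀ a b, T a b ⊆ PP o y} → (W → W → (𝒫 (PP o y) : Set (Set Cnd))) := fun T a b =>
    ⟨T.1 a b, T.2 a b⟩
  refine small_of_injective (f := φ) ?_
  rintro ⟨T, hT⟩ ⟨T', hT'⟩ h
  apply Subtype.ext
  funext a b
  exact congrArg Subtype.val (congrFun (congrFun h a) b)

theorem job_zsmall : Sz_small ∧ Sz_smallR ∧ Sz_smallG ∧ Sz_smallT := ⟨job_small, job_smallR, job_smallG, job_smallT⟩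

end

end Pool.Agent.Helper919.SD.Tzsmall
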