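import Pool.Agent.Helper919_SDT.Stmts2

set_option autoImplicit false

namespace Pool.Agent.Helper919.SD.Tzstat

open Ordinal Cardinal Set
open Pool.Agent.Helper292.SP (fnot fand fall for' fimp fiff fex fground meets IsFun)

variable {o : Ord → Opt} {Prot : Set Ord}

/-! ### The forcing language -/

section lang

variable {P : Type 1} [Preorder P]

theorem meets_of_dense {N : Set P} {p : P} (h : ∀ q ≤ p, ∃ r ≤ q, r ∈ meets N) : p ∈ meets N := by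
  intro q hq
  obtain ⟨r, hr, hm⟩ := h q hq
  obtain ⟨s, hs, n, hn, hsn⟩ := hm r le_rfl
  exact ⟨s, hs.trans hr, n, hn, hsn⟩

theorem meets_of_mem {N : Set P} {p : P} (h : p ∈ N) : p ∈ meets N := fun q hq => ⟨q, le_rfl, p, h, hq⟩

theorem fex_of {ι : Type} {φ : ι → Set P} {p : P} (i : ι) (h : ∀ q ≤ p, q ∈ φ i) : p ∈ fex φ :=
  fun q hq hcon => hcon i q le_rfl (h q hq)

theorem fex_elim {ι : Type} {φ : ι → Set P} {p : P} (h : p ∈ fex φ) : ∃ i, ∃ q ≤ p, q ∈ φ i := by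
  have h1 := h p le_rfl
  change ¬ ∀ i, ∀ q ≤ p, q ∉ φ i at h1
  push Not at h1
  exact h1

end lang

/-- The element of the forcing notion given by a condition. -/
def mkF (o : Ord → Opt) (c : Cnd) (h : c ∈ Full o) : Frc o := ⟨c, h⟩

/-- The conditions deciding an element of the club above `ξ`. -/
def DD (o : Ord → Opt) (q : Frc o) (K : W → Set (Frc o)) (ξ : Ord) : Set Cnd :=
  {c | ∃ h : c ∈ Full o, (∀ r : Frc o, r ≤ mkF o c h → ¬ r ≤ q) ∨ ∃ η : W, ξ < wo η ∧ mkF o c h ∈ meets (K η)}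

theorem DD_do (q : Frc o) (K : W → Set (Frc o)) (hq : q ∈ Club K) (x : W) : DO o (Full o) (DD o q K (wo x)) where
  sub := fun c ⟨h, _⟩ => h
  op := by
    rintro c ⟨h, hc⟩ c' hc' hle
    refine ⟨hc', ?_⟩
    have hle' : mkF o c' hc' ≤ ⟨c, h⟩ := hle
    rcases hc with hc | ⟨η, h1, h2⟩
    · exact Or.inl fun r hr => hc r (hr.trans hle')
    · exact Or.inr ⟨η, h1, meets_mono h2 hle'⟩
  dn := by
    intro c hc
    by_cases h : ∃ r : Frc o, r ≤ mkF o c hc ∧ r ≤ q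
    · obtain ⟨r, hr1, hr2⟩ := h
      have h1 := hq.1 x
      have h2 := h1 r hr2
      change ¬ ∀ y : W, ∀ s ≤ r, s ∉ fand (fground (x < y)) (meets (K y)) at h2
      push Not at h2
      obtain ⟨y, s, hs, h3, h4⟩ := h2
      have h5 : s ≤ mkF o c hc := hs.trans hr1
      exact ⟨s.1, ⟨s.2, Or.inr ⟨y, wo_lt_wo.2 h3, h4⟩⟩, h5⟩
    · push Not at h
      exact ⟨c, ⟨hc, Or.inl h⟩, KLe.refl _⟩

open Classical in
/-- The operations under which the model is closed. -/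
noncomputable def Fs (o : Ord → Opt) (q : Frc o) (K : W → Set (Frc o)) (y : Ord) : ℕ → List U → U
  | _, [U.ord ξ] => U.st (DD o q K ξ ∩ PP o y)
  | _, [U.cnd c, U.ord ξ] =>
      U.ord (if h : ∃ η : W, ξ < wo η ∧ ∃ h : c ∈ Full o, mkF o c h ∈ meets (K η) then wo h.choose else 0)
  | _, _ => U.ord 0

theorem job_zstat (hmdl : St_mdl) (hgs : St_gs') (hg0 : St_good0) (hclo : Sz_clo) (hlf : Sz_lf) : Sz_stat := by
  intro o Prot hn γ hγ hoγ c K q hqc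
  rintro ⟨hqK, hcon⟩
  -- it suffices to find a condition and a point
  suffices h : ∃ r ≤ q, ∃ x : W, r ∈ meets (K x) ∧ r ∈ meets (Sn o γ x) by
    obtain ⟨r, hr, x, h1, h2⟩ := h
    exact hcon r hr (fex_of x fun s hs => ⟨meets_mono h1 hs, meets_mono h2 hs⟩)
  have hl := hn.legit
  obtain ⟨y, hy, -, hDy⟩ := hclo o Prot hn W (fun x => DD o q K (wo x)) (fun x => DD_do q K hqK x)
    (max q.1.j (γ + 1))
  have hqy : q.1.j < y := (le_max_left _ _).trans_lt hy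
  have hγy : γ + 1 < y := (le_max_right _ _).trans_lt hy
  obtain ⟨q₁, hq₁, hq₁q⟩ := hlf o Prot hn q.1.j y hqy.le q.1 (Full.mem q.2)
  obtain ⟨N, δ, hSN, hM, hFs⟩ := hmdl o Prot hl (Fs o q K y) {U.ord y, U.ord γ, U.cond q₁.p}
    ((Set.countable_singleton _).insert _ |>.insert _)
  have hN := hM.basic
  have hyN : U.ord y ∈ N := hSN (by simp)
  have hγN : U.ord γ ∈ N := hSN (by simp)
  have hpN : U.cond q₁.p ∈ N := hSN (by simp)
  have hst : ∀ ξ, U.ord ξ ∈ N → U.st (DD o q K ξ ∩ PP o y) ∈ N := fun ξ hξ =>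
    hFs 0 [U.ord ξ] (by simpa using hξ)
  have hor : ∀ c ξ, U.cnd c ∈ N → U.ord ξ ∈ N →
      (∃ η : W, ξ < wo η ∧ ∃ h : c ∈ Full o, mkF o c h ∈ meets (K η)) →
      ∃ η : W, ξ < wo η ∧ (∃ h : c ∈ Full o, mkF o c h ∈ meets (K η)) ∧ U.ord (wo η) ∈ N := by
    intro c ξ hc hξ h
    have h1 := hFs 0 [U.cnd c, U.ord ξ] (by
      intro a ha
      simp only [List.mem_cons, List.not_mem_nil, or_false] at ha
      rcases ha with rfl | rfl
      · exact hc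
      · exact hξ)
    have h2 : Fs o q K y 0 [U.cnd c, U.ord ξ] = U.ord (wo h.choose) := by
      unfold Fs; simp only [dif_pos h]
    rw [h2] at h1
    exact ⟨h.choose, h.choose_spec.1, h.choose_spec.2, h1⟩
  obtain ⟨hq₁j, hq₁A, hq₁J, hq₁C, hq₁T⟩ := hq₁
  have hq₁ : q₁ ∈ PP o y := ⟨hq₁j, hq₁A, hq₁J, hq₁C, hq₁T⟩
  obtain ⟨p, hp, hp0, hpG⟩ := hgs o Prot hl y (fun z _ => hn.ss z) N δ hM hyN q₁.p hpN hq₁A
  obtain ⟨qs, hqs, hqsp, -, -⟩ := exists_good (gs := some γ) hg0 hl (hn.ll y) hN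
    (fun γ' h => by rw [← Option.some.inj h]; exact hγ) hyN hp
    (by rw [hp0]; exact hq₁J) (fun z hz => hpG z hz.le)
  have hle0 : CLe o qs q₁.p := by rw [← hp0]; exact hqsp 0
  have hαδ : q₁.α < δ := hN.C_lt hpN hq₁A hq₁C
  obtain ⟨z, hz, hrP, hrq⟩ := PP.up hq₁ hqs.A hle0 hqs.C hαδ.le
  set rc : Cnd := ⟨qs, y, δ, z⟩ with hrc
  have hrF : rc ∈ Full o := Full.mk hrP
  let r : Frc o := ⟨rc, hrF⟩
  have hrq' : r ≤ q := by
    change KLe o rc q.1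
    exact KLe.trans hrP hq₁ (Full.mem q.2) hrq hq₁q
  obtain ⟨d, hd⟩ := wo_surj hN.lt
  have key : ∀ x : W, x < d → ∃ η : W, x < η ∧ η < d ∧ r ∈ meets (K η) := by
    intro x hx
    have hxδ : wo x < δ := by rw [← hd]; exact wo_lt_wo.2 hx
    have hxN : U.ord (wo x) ∈ N := (hN.ord _ (wo_lt x)).2 hxδ
    obtain ⟨n, -, β, hβ, s, hs, hD, hcN, hle, -⟩ := hqs.gen hl hN hp (hpG y le_rfl hyN)
      (fun n => by rw [A.res_self (hp.A n)]; exact hqsp n) (hst _ hxN) (hDy x) hz 0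
    set e : Cnd := ⟨(p n).res y, y, β, s⟩ with he
    obtain ⟨⟨heF, hor1⟩, heP⟩ := hD
    have hre : r ≤ mkF o e heF := hle
    rcases hor1 with h1 | ⟨η, h1, h2⟩
    · exact absurd hrq' (h1 r hre)
    · obtain ⟨η', h3, ⟨h4, h5⟩, h6⟩ := hor e (wo x) hcN hxN ⟨η, h1, heF, h2⟩
      refine ⟨η', wo_lt_wo.1 h3, ?_, meets_mono h5 hre⟩
      rw [← wo_lt_wo, hd]
      exact (hN.ord _ (wo_lt η')).1 h6
  refine ⟨r, hrq', d, ?_, ?_⟩
  · refine meets_of_dense fun r' hr' => ?_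
    have h1 := hqK.2 d r' (hr'.trans hrq')
    by_contra hcon'
    refine h1 ⟨⟨?_, fun x => ?_⟩, fun s hs hs' => hcon' ⟨s, hs, hs'⟩⟩
    · have h0 : (0 : Ord) < ω_ 1 := Ordinal.omega_pos 1
      obtain ⟨x0, hx0⟩ := wo_surj h0
      refine ⟨x0, wo_lt_wo.1 ?_⟩
      rw [hx0, hd]; exact hN.lim.bot_lt
    · rintro s hs ⟨hxd, hfn⟩
      obtain ⟨η, h2, h3, h4⟩ := key x hxd
      exact hfn s le_rfl (fex_of η fun t ht => ⟨⟨h2, h3⟩, meets_mono h4 (ht.trans (hs.trans hr'))⟩)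
  · refine meets_of_mem ⟨?_, ?_, ?_⟩
    · right
      change γ + 1 ∈ qs.u y δ
      rw [hqs.u]
      exact ⟨hγy, Or.inl ((hN.succ γ).1 hγN)⟩
    · change wo d ≤ δ
      rw [hd]
    · change z γ (wo d) 0 = 0
      rw [hd]
      have h1 := hqs.mks z hz γ ((lt_add_one γ).trans hγy) hγN hoγ
      rw [if_pos rfl] at h1
      exact h1

end Pool.Agent.Helper919.SD.Tzstat
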