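import Pool.Agent.Helper919_SDT.Stmts2

set_option autoImplicit false

/-!
# Countable families of dense open subsets of the two-step iteration (8.7)
-/

namespace Pool.Agent.Helper919.SD.TzteN

open Ordinal Cardinal Set
open Pool.Agent.Helper292.SP (fnot fand fall for' fimp fiff fex fground meets IsFun)

variable {o : Ord → Opt} {Prot : Set Ord} {γ : Ord}

/-! ### Monotonicity, marks -/

theorem fm {c : Cnd} (h : c ∈ Full o) : c ∈ PP o c.j := Full.mem h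

theorem mem_co {i : Ord} {c : Cnd} (hc : c ∈ PP o i) (h : Rec c (γ + 1)) : γ ∈ co c.p c.j c.α := by
  have h1 := h.le hc
  rw [← hc.1] at h1
  refine ⟨lt_of_lt_of_le (lt_add_one γ) h1, ?_⟩
  rcases h with h | h
  · exact Or.inr h
  · exact Or.inl h

theorem InE.mono (hl : Legit o Prot) {c c' : Cnd} (hc : c ∈ Full o) (hc' : c' ∈ Full o) (hle : KLe o c' c) {d : CB}
    (h : InE γ c d) : InE γ c' d := by
  refine ⟨KLe.rec_mono (fm hc') (fm hc) hle h.1 hl, fun ξ hξ => ⟨(h.2 ξ hξ).1.trans hle.α, ?_⟩⟩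
  rw [hle.t γ (mem_co (fm hc) h.1) ξ (h.2 ξ hξ).1 0]
  exact (h.2 ξ hξ).2

/-- A marked position above a given ordinal. -/
theorem mark (hmdl : St_mdl) (hgs : St_gs') (hg0 : St_good0) (hn : Nice o Prot) (hγ : o γ = Opt.coh) {c : Cnd}
    (hc : c ∈ Full o) (hr : Rec c (γ + 1)) {η : Ord} (hη : η < ω_ 1) :
    ∃ c' ∈ Full o, KLe o c' c ∧ ∃ ξ, η < ξ ∧ c.α < ξ ∧ ξ ≤ c'.α ∧ c'.t γ ξ 0 = 1 := by
  have hcP := fm hc
  obtain ⟨N, δ, hS, hN, -⟩ := hmdl o Prot hn.legit (fun _ _ => U.ord 0) {U.cnd c, U.ord (γ + 1), U.ord η} (by simp)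
  have hcN : U.cnd c ∈ N := hS (by simp)
  have hγN : U.ord (γ + 1) ∈ N := hS (by simp)
  have hηN : U.ord η ∈ N := hS (by simp)
  obtain ⟨hpN, hjN, hαN⟩ := hN.basic.cp c hcN
  obtain ⟨ps, hsq, hp0, hgen⟩ := hgs o Prot hn.legit c.j (fun z _ => hn.ss z) N δ hN hjN c.p hpN hcP.2.1
  obtain ⟨q, hq, hle, -, -⟩ := exists_good (gs := none) hg0 hn.legit (hn.ll c.j) hN.basic (by simp) hjN hsq
    (hp0 ▸ hcP.2.2.1) (fun z hz hzN => hgen z hz.le hzN)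
  have hqc : CLe o q c.p := hp0 ▸ hle 0
  have hαδ : c.α < δ := hN.basic.C_lt hpN hcP.2.1 hcP.2.2.2.1
  obtain ⟨a, ha, he, hec⟩ := PP.up hcP hq.A hqc hq.C hαδ.le
  have hγj : γ < c.j := lt_of_lt_of_le (lt_add_one γ) (hr.le hcP)
  refine ⟨_, ⟨_, he⟩, hec, δ, (hN.basic.ord η hη).1 hηN, hαδ, le_rfl, ?_⟩
  have := hq.mks a ha γ hγj ((hN.basic.succ γ).2 hγN) hγ
  simpa using this

/-! ### The two-step iteration -/

/-- Elements of the two-step iteration. -/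
def mkZ (c : Cnd) (hc : c ∈ Full o) (d : CB) (h : InE γ c d) : TS (TEn o γ) :=
  ⟨(⟨c, hc⟩, d), fun q hq => ⟨q, le_rfl, ⟨c, hc⟩, h, hq⟩⟩

theorem endX_of_le {z' z : TS (TEn o γ)} (h : z' ≤ z) : EndX z'.1.2 z.1.2 := by
  obtain ⟨_, _, _, h1, _⟩ := h.2 _ le_rfl
  exact h1

theorem le_of_endX {z' z : TS (TEn o γ)} (h : KLe o z'.1.1.1 z.1.1.1) (h' : EndX z'.1.2 z.1.2) : z' ≤ z :=
  ⟨h, fun q _ => ⟨q, le_rfl, q, h', le_rfl⟩⟩

theorem exists_inE (hl : Legit o Prot) (z : TS (TEn o γ)) :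
    ∃ c ∈ Full o, KLe o c z.1.1.1 ∧ InE γ c z.1.2 := by
  obtain ⟨r, hr, s, hs, hrs⟩ := z.2 _ le_rfl
  exact ⟨r.1, r.2, hr, InE.mono hl s.2 r.2 hrs hs⟩

/-- The dense open sets, with those for unboundedness. -/
def DD (D : ℕ → Set (TS (TEn o γ))) : ℕ → Ord → Set (TS (TEn o γ))
  | 0, η => {z | ∃ ξ ∈ z.1.2.1, η < ξ}
  | n + 1, _ => D n

theorem DD_open {D : ℕ → Set (TS (TEn o γ))} (hD : ∀ n, ∀ z ∈ D n, ∀ z' ≤ z, z' ∈ D n) (n : ℕ) (η : Ord) :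
    ∀ z ∈ DD D n η, ∀ z' ≤ z, z' ∈ DD D n η := by
  cases n with
  | zero =>
    rintro z ⟨ξ, hξ, h⟩ z' hle
    exact ⟨ξ, (endX_of_le hle).1 hξ, h⟩
  | succ n => exact hD n

/-- Adding a point on top. -/
def addPt (d : CB) (ξ : Ord) (hξ : ξ < ω_ 1) (h : ∀ η ∈ d.1, η < ξ) : CB :=
  ⟨insert ξ d.1, ⟨ξ, hξ, by
    rintro η (rfl | hη)
    · exact le_rfl
    · exact (h η hη).le⟩, by
    intro x hx hlim
    by_cases hxξ : x = ξ
    · exact Or.inl hxξ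
    · refine Or.inr (d.2.2 x hx fun η hη => ?_)
      have hlt : ∀ ζ, (ζ ∈ insert ξ d.1) → ζ ≤ ξ := by
        rintro ζ (rfl | hζ)
        · exact le_rfl
        · exact (h ζ hζ).le
      have hxle : x < ξ := by
        by_contra hcon
        have hxgt : ξ < x := lt_of_le_of_ne (not_lt.1 hcon) (Ne.symm hxξ)
        obtain ⟨ζ, hζ, h1, h2⟩ := hlim ξ hxgt
        exact absurd (hlt ζ hζ) (not_le.2 h1)
      obtain ⟨ζ, hζ, h1, h2⟩ := hlim η hη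
      rcases hζ with rfl | hζ
      · exact absurd h2 (not_lt.2 hxle.le)
      · exact ⟨ζ, hζ, h1, h2⟩⟩

theorem DD_dense (hmdl : St_mdl) (hgs : St_gs') (hg0 : St_good0) (hn : Nice o Prot) (hγ : o γ = Opt.coh)
    {D : ℕ → Set (TS (TEn o γ))} (hD : ∀ n z, ∃ z' ∈ D n, z' ≤ z) (n : ℕ) {η : Ord} (hη : η < ω_ 1) :
    ∀ z, ∃ z' ∈ DD D n η, z' ≤ z := by
  cases n with
  | succ n => exact hD n
  | zero =>
    intro z
    obtain ⟨r, hr, hrz, hin⟩ := exists_inE hn.legit z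
    obtain ⟨c', hc', hle, ξ, h1, h2, h3, h4⟩ := mark hmdl hgs hg0 hn hγ hr hin.1 hη
    have hξ : ξ < ω_ 1 := lt_of_le_of_lt h3 ((PP.core (fm hc')).Clt _ (fm hc').2.2.2.1)
    have hd : ∀ η ∈ z.1.2.1, η < ξ := fun η hη => lt_of_le_of_lt (hin.2 η hη).1 h2
    have hin' := InE.mono hn.legit hr hc' hle hin
    refine ⟨mkZ c' hc' (addPt z.1.2 ξ hξ hd) ⟨hin'.1, ?_⟩, ⟨ξ, Or.inl rfl, h1⟩, ?_⟩
    · rintro x (rfl | hx)
      · exact ⟨h3, h4⟩
      · exact hin'.2 x hx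
    · refine le_of_endX (KLe.trans (fm hc') (fm hr) (fm z.1.1.2) hle hrz) ⟨fun x hx => Or.inr hx, ?_⟩
      rintro x (rfl | hx) y hy hxy
      · exact absurd hxy (not_le.2 (hd y hy))
      · exact hx

/-- The sets of conditions which decide the extension. -/
def EE (D : ℕ → Set (TS (TEn o γ))) (n : ℕ) (η : Ord) (d : CB) : Set Cnd :=
  {c | c ∈ Full o ∧ ((∀ c' ∈ Full o, KLe o c' c → ¬ InE γ c' d) ∨
    ∃ d' : CB, EndX d' d ∧ InE γ c d' ∧ ∃ z ∈ DD D n η, z.1.1.1 = c ∧ z.1.2 = d')}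

theorem EE_do (hmdl : St_mdl) (hgs : St_gs') (hg0 : St_good0) (hn : Nice o Prot) (hγ : o γ = Opt.coh)
    {D : ℕ → Set (TS (TEn o γ))} (hD : ∀ n, ∀ z ∈ D n, ∀ z' ≤ z, z' ∈ D n) (hD' : ∀ n z, ∃ z' ∈ D n, z' ≤ z)
    (n : ℕ) {η : Ord} (hη : η < ω_ 1) (d : CB) : DO o (Full o) (EE D n η d) := by
  refine ⟨fun c hc => hc.1, ?_, ?_⟩
  · rintro c ⟨hc, h⟩ c' hc' hle
    refine ⟨hc', ?_⟩
    rcases h with h | ⟨d', h1, h2, z, h3, h4, h5⟩
    · exact Or.inl fun c'' hc'' hle' => h c'' hc'' (KLe.trans (fm hc'') (fm hc') (fm hc) hle' hle)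
    · have h6 := InE.mono hn.legit hc hc' hle h2
      refine Or.inr ⟨d', h1, h6, mkZ c' hc' d' h6, DD_open hD n η z h3 _ (le_of_endX ?_ ?_), rfl, rfl⟩
      · rw [h4]; exact hle
      · rw [h5]; exact EndX.refl _
  · intro c hc
    by_cases h : ∀ c' ∈ Full o, KLe o c' c → ¬ InE γ c' d
    · exact ⟨c, ⟨hc, Or.inl h⟩, KLe.refl _⟩
    · push Not at h
      obtain ⟨c', hc', hle, hin⟩ := h
      obtain ⟨z', hz', hle'⟩ := DD_dense hmdl hgs hg0 hn hγ hD' n hη (mkZ c' hc' d hin)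
      obtain ⟨r, hr, hrz, hin'⟩ := exists_inE hn.legit z'
      have h1 : KLe o r c' := KLe.trans (fm hr) (fm z'.1.1.2) (fm hc') hrz hle'.1
      refine ⟨r, ⟨hr, Or.inr ⟨z'.1.2, endX_of_le hle', hin', mkZ r hr _ hin',
        DD_open hD n η z' hz' _ (le_of_endX hrz (EndX.refl _)), rfl, rfl⟩⟩, KLe.trans (fm hr) (fm hc') (fm hc) h1 hle⟩

/-! ### Codes -/

open Classical in
/-- Code of a set of ordinals. -/
noncomputable def code (d : Set Ord) : Ord → ℕ → ℚ := fun ξ _ => if ξ ∈ d then 1 else 0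

/-- Decoding. -/
def deco (s : Ord → ℕ → ℚ) : Set Ord := {ξ | s ξ 0 = 1}

theorem deco_code (d : Set Ord) : deco (code d) = d := by
  ext ξ
  by_cases h : ξ ∈ d <;> simp [deco, code, h]

/-- Closed bounded sets. -/
def IsCB (d : Set Ord) : Prop := (∃ η < ω_ 1, ∀ ξ ∈ d, ξ ≤ η) ∧
  ∀ ξ, 0 < ξ → (∀ η < ξ, ∃ ζ ∈ d, η < ζ ∧ ζ < ξ) → ξ ∈ d

/-- A closed bounded set. -/
def mkCB (d : Set Ord) (h : IsCB d) : CB := ⟨d, h⟩

theorem isCB_empty : IsCB ∅ := ⟨⟨0, Ordinal.omega_pos 1, by simp⟩, fun ξ hξ h => by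
    obtain ⟨ζ, hζ, -⟩ := h 0 hξ; exact absurd hζ (notMem_empty _)⟩

open Classical in
/-- The closed bounded set with a given code. -/
noncomputable def cbOf (s : Ord → ℕ → ℚ) : CB :=
  if h : IsCB (deco s) then mkCB (deco s) h else mkCB ∅ isCB_empty

theorem cbOf_code (d : CB) : cbOf (code d.1) = d := by
  have h : IsCB (deco (code d.1)) := by rw [deco_code]; exact d.2
  rw [cbOf, dif_pos h]
  exact Subtype.ext (deco_code _)

open Classical in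
/-- Choice of an extension. -/
noncomputable def chooseExt (D : ℕ → Set (TS (TEn o γ))) (n : ℕ) (η : Ord) (s : Ord → ℕ → ℚ) (c : Cnd) : CB :=
  if h : ∃ d' : CB, EndX d' (cbOf s) ∧ InE γ c d' ∧ ∃ z ∈ DD D n η, z.1.1.1 = c ∧ z.1.2 = d' then
    Classical.choose h else cbOf s

/-- The functions of the model. -/
noncomputable def Fs (D : ℕ → Set (TS (TEn o γ))) (y : Ord) (n : ℕ) : List U → U
  | [U.fn s, U.ord η] => U.st (EE D n η (cbOf s) ∩ PP o y)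
  | [U.fn s, U.ord η, U.cnd c] => U.fn (code (chooseExt D n η s c).1)
  | _ => U.ord 0

theorem countable_lt (δ : Ord) (h : δ < ω_ 1) : {ξ | ξ < δ}.Countable := by
  have h2 : δ.card ≤ ℵ₀ := by
    rw [← Cardinal.ord_aleph, Cardinal.lt_ord, ← Cardinal.succ_aleph0] at h
    exact Order.lt_succ_iff.1 h
  have h3 : (Set.Iio δ).Countable := by
    rw [← Cardinal.le_aleph0_iff_set_countable, Cardinal.mk_Iio_ordinal, ← Cardinal.lift_aleph0.{1,0},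
      Cardinal.lift_le]
    exact h2
  exact h3

/-- The union of an increasing sequence of closed bounded sets with its supremum. -/
theorem limCB {δ : Ord} (hδ : δ < ω_ 1) (d : ℕ → CB) (h : ∀ k, EndX (d (k + 1)) (d k))
    (hlt : ∀ k, ∀ ξ ∈ (d k).1, ξ < δ) (hcof : ∀ η < δ, ∃ k, ∃ ξ ∈ (d k).1, η < ξ) :
    ∃ D : CB, D.1 = insert δ (⋃ k, (d k).1) ∧ ∀ k, EndX D (d k) := by
  have hmono : ∀ k m, k ≤ m → EndX (d m) (d k) := by
    intro k m hkm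
    induction m, hkm using Nat.le_induction with
    | base => exact EndX.refl _
    | succ m _ ih => exact (h m).trans ih
  have hle : ∀ ξ ∈ insert δ (⋃ k, (d k).1), ξ ≤ δ := by
    rintro ξ (rfl | hξ)
    · exact le_rfl
    · obtain ⟨k, hk⟩ := Set.mem_iUnion.1 hξ
      exact (hlt k ξ hk).le
  refine ⟨⟨insert δ (⋃ k, (d k).1), ⟨δ, hδ, hle⟩, ?_⟩, rfl, ?_⟩
  · intro ξ hξ hlim
    rcases lt_trichotomy ξ δ with h1 | h1 | h1
    · right
      obtain ⟨k, ζ, hζ, hξζ⟩ := hcof ξ h1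
      refine Set.mem_iUnion.2 ⟨k, (d k).2.2 ξ hξ fun η hη => ?_⟩
      obtain ⟨x, hx, h2, h3⟩ := hlim η hη
      refine ⟨x, ?_, h2, h3⟩
      rcases hx with rfl | hx
      · exact absurd h3 (not_lt.2 h1.le)
      · obtain ⟨m, hm⟩ := Set.mem_iUnion.1 hx
        have h4 := hmono k (max k m) (le_max_left _ _)
        exact h4.2 x ((hmono m (max k m) (le_max_right _ _)).1 hm) ζ hζ (h3.trans hξζ).le
    · exact Or.inl h1
    · obtain ⟨x, hx, h2, h3⟩ := hlim δ h1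
      exact absurd h2 (not_lt.2 (hle x hx))
  · intro k
    refine ⟨fun x hx => Or.inr (Set.mem_iUnion.2 ⟨k, hx⟩), ?_⟩
    rintro x (rfl | hx) ζ hζ hxζ
    · exact absurd hxζ (not_le.2 (hlt k ζ hζ))
    · obtain ⟨m, hm⟩ := Set.mem_iUnion.1 hx
      exact (hmono k (max k m) (le_max_left _ _)).2 x ((hmono m (max k m) (le_max_right _ _)).1 hm) ζ hζ hxζ

theorem job_zteN (hmdl : St_mdl) (hgs : St_gs') (hg0 : St_good0) (hclo : Sz_clo) (hlf : Sz_lf) : Sz_teN := by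
  classical
  intro o Prot hn γ hγ D hD hD' z₀
  have hl := hn.legit
  obtain ⟨r₀, hr₀, hr₀z, hin₀⟩ := exists_inE hl z₀
  -- the closure point
  obtain ⟨y, hy, -, hcl⟩ := hclo o Prot hn (ℕ × W × Set W) (fun x => if h : IsCB (wo '' x.2.2) then
      EE D x.1 (wo x.2.1) (mkCB _ h) else Full o) (by
    intro x
    by_cases h : IsCB (wo '' x.2.2)
    · simp only [dif_pos h]
      exact EE_do hmdl hgs hg0 hn hγ hD hD' _ (wo_lt _) _
    · simp only [dif_neg h]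
      exact ⟨Subset.rfl, fun c _ c' hc' _ => hc', fun c hc => ⟨c, hc, KLe.refl _⟩⟩) (max (γ + 1) r₀.j)
  have hEy : ∀ n η, η < ω_ 1 → ∀ d : CB, DO o (PP o y) (EE D n η d ∩ PP o y) := by
    intro n η hη d
    obtain ⟨x, hx⟩ := wo_surj hη
    have hS : wo '' (wo ⁻¹' d.1) = d.1 := by
      apply Set.image_preimage_eq_of_subset
      intro ξ hξ
      obtain ⟨η', h1, h2⟩ := d.2.1
      obtain ⟨w, hw⟩ := wo_surj (lt_of_le_of_lt (h2 ξ hξ) h1)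
      exact ⟨w, hw⟩
    have hcb : IsCB (wo '' (wo ⁻¹' d.1)) := by rw [hS]; exact d.2
    have := hcl (n, x, wo ⁻¹' d.1)
    simp only [dif_pos hcb, hx] at this
    have he : mkCB _ hcb = d := Subtype.ext hS
    rw [he] at this
    exact this
  -- extension to the index `y`
  obtain ⟨c₁, hc₁, hc₁r⟩ := hlf o Prot hn r₀.j y ((le_max_right _ _).trans hy.le) r₀ (fm hr₀)
  have hin₁ : InE γ c₁ z₀.1.2 := InE.mono hl hr₀ ⟨_, hc₁⟩ hc₁r hin₀
  have hγy : γ + 1 < y := lt_of_le_of_lt (le_max_left _ _) hy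
  -- the model
  obtain ⟨N, δ, hS, hN, hF⟩ := hmdl o Prot hl (Fs D y) {U.cnd c₁, U.ord y, U.ord (γ + 1), U.fn (code z₀.1.2.1)}
    (by simp)
  have hcN : U.cnd c₁ ∈ N := hS (by simp)
  have hyN : U.ord y ∈ N := hS (by simp)
  have hγN : U.ord (γ + 1) ∈ N := hS (by simp)
  have hdN : U.fn (code z₀.1.2.1) ∈ N := hS (by simp)
  obtain ⟨hpN, hjN, hαN⟩ := hN.basic.cp c₁ hcN
  have hc₁' := hc₁
  obtain ⟨h1j, h1A, h1J, h1C, h1T⟩ := hc₁'
  obtain ⟨ps, hsq, hp0, hgen⟩ := hgs o Prot hl y (fun z _ => hn.ss z) N δ hN hyN c₁.p hpN h1A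
  obtain ⟨q, hq, hle, -, -⟩ := exists_good (gs := none) hg0 hl (hn.ll y) hN.basic (by simp) hyN hsq
    (hp0 ▸ h1J) (fun z hz hzN => hgen z hz.le hzN)
  have hqc : CLe o q c₁.p := hp0 ▸ hle 0
  have hαδ : c₁.α < δ := hN.basic.C_lt hpN h1A h1C
  obtain ⟨a, ha, he, hec⟩ := PP.up hc₁ hq.A hqc hq.C hαδ.le
  have heF : (⟨q, y, δ, a⟩ : Cnd) ∈ Full o := ⟨_, he⟩
  have hmk : a γ δ 0 = 1 := by
    have := hq.mks a ha γ ((lt_add_one γ).trans hγy) ((hN.basic.succ γ).2 hγN) hγ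
    simpa using this
  -- the step
  have step : ∀ (n : ℕ) (η : Ord), η < δ → ∀ d : CB, U.fn (code d.1) ∈ N → InE γ ⟨q, y, δ, a⟩ d →
      ∃ d' : CB, (U.fn (code d'.1) ∈ N ∧ InE γ ⟨q, y, δ, a⟩ d' ∧ (∀ ξ ∈ d'.1, ξ < δ)) ∧ EndX d' d ∧
        ∃ z ∈ DD D n η, KLe o ⟨q, y, δ, a⟩ z.1.1.1 ∧ z.1.2 = d' := by
    intro n η hη d hd hin
    have hηN : U.ord η ∈ N := (hN.basic.ord η (hη.trans hN.basic.lt)).2 hη
    have hDN : U.st (EE D n η d ∩ PP o y) ∈ N := by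
      have := hF n [U.fn (code d.1), U.ord η] (by
        intro x hx
        simp only [List.mem_cons, List.not_mem_nil, or_false] at hx
        rcases hx with rfl | rfl
        · exact hd
        · exact hηN)
      simpa only [Fs, cbOf_code] using this
    obtain ⟨m, -, β, hβ, s, hs, hsD, hsN, hsle, -⟩ := GoodQ.gen hl hN.basic hq hsq (hgen y le_rfl hyN)
      (fun n => by rw [A.res_self (hsq.A n)]; exact hle n) hDN (hEy n η (hη.trans hN.basic.lt) d) ha 0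
    obtain ⟨⟨hcF, hcc⟩, hcP⟩ := hsD
    rcases hcc with hcc | hcc
    · exact absurd hin (hcc _ heF hsle)
    · have hcN' : U.fn (code (chooseExt D n η (code d.1) ⟨(ps m).res y, y, β, s⟩).1) ∈ N := by
        refine hF n [U.fn (code d.1), U.ord η, U.cnd ⟨(ps m).res y, y, β, s⟩] ?_
        intro x hx
        simp only [List.mem_cons, List.not_mem_nil, or_false] at hx
        rcases hx with rfl | rfl | rfl
        · exact hd
        · exact hηN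
        · exact hsN
      have hex : ∃ d' : CB, EndX d' (cbOf (code d.1)) ∧ InE γ ⟨(ps m).res y, y, β, s⟩ d' ∧
          ∃ z ∈ DD D n η, z.1.1.1 = ⟨(ps m).res y, y, β, s⟩ ∧ z.1.2 = d' := by rw [cbOf_code]; exact hcc
      have hsp : EndX (chooseExt D n η (code d.1) ⟨(ps m).res y, y, β, s⟩) (cbOf (code d.1)) ∧
          InE γ ⟨(ps m).res y, y, β, s⟩ (chooseExt D n η (code d.1) ⟨(ps m).res y, y, β, s⟩) ∧
          ∃ z ∈ DD D n η, z.1.1.1 = ⟨(ps m).res y, y, β, s⟩ ∧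
            z.1.2 = (chooseExt D n η (code d.1) ⟨(ps m).res y, y, β, s⟩) := by
        have hce : chooseExt D n η (code d.1) ⟨(ps m).res y, y, β, s⟩ = Classical.choose hex := by
          unfold chooseExt; rw [dif_pos hex]
        rw [hce]; exact Classical.choose_spec hex
      obtain ⟨h1, h2, z, h3, h4, h5⟩ := hsp
      rw [cbOf_code] at h1
      refine ⟨_, ⟨hcN', InE.mono hl hcF heF hsle h2, fun ξ hξ => ?_⟩, h1, z, h3, ?_, h5⟩
      · exact lt_of_le_of_lt (h2.2 ξ hξ).1 (hN.basic.C_lt (hsq.mem m) (hsq.A m) hβ)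
      · rw [h4]; exact hsle
  -- the recursion
  have hδ0 : (0 : Ord) < δ := hN.basic.lim.bot_lt
  have hcnt : Countable {ξ : Ord | ξ < δ} := (countable_lt δ hN.basic.lt).to_subtype
  have hne : Nonempty (ℕ × {ξ : Ord | ξ < δ}) := ⟨(0, ⟨0, hδ0⟩)⟩
  obtain ⟨f, hf⟩ := exists_surjective_nat (ℕ × {ξ : Ord | ξ < δ})
  let Good := {d : CB // U.fn (code d.1) ∈ N ∧ InE γ ⟨q, y, δ, a⟩ d ∧ ∀ ξ ∈ d.1, ξ < δ}
  have stepG : ∀ (k : ℕ) (d : Good), ∃ d' : Good, EndX d'.1 d.1 ∧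
      ∃ z ∈ DD D (f k).1 (f k).2.1, KLe o ⟨q, y, δ, a⟩ z.1.1.1 ∧ z.1.2 = d'.1 := by
    intro k d
    obtain ⟨d', h1, h2, h3⟩ := step (f k).1 (f k).2.1 (f k).2.2 d.1 d.2.1 d.2.2.1
    exact ⟨⟨d', h1⟩, h2, h3⟩
  choose nxt hnx1 hnx2 using stepG
  have hin₂ : InE γ ⟨q, y, δ, a⟩ z₀.1.2 := InE.mono hl ⟨_, hc₁⟩ heF hec hin₁
  let d₀ : Good := ⟨z₀.1.2, hdN, hin₂, fun ξ hξ => lt_of_le_of_lt (hin₁.2 ξ hξ).1 hαδ⟩
  let dd : ℕ → Good := fun k => Nat.rec d₀ (fun k d => nxt k d) k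
  have hdd : ∀ k, dd (k + 1) = nxt k (dd k) := fun k => rfl
  obtain ⟨Dω, hDω, hDe⟩ := limCB hN.basic.lt (fun k => (dd k).1) (fun k => by
      rw [hdd]; exact hnx1 k (dd k)) (fun k => (dd k).2.2.2) (by
    intro η hη
    obtain ⟨k, hk⟩ := hf (0, ⟨η, hη⟩)
    obtain ⟨z, hz, -, hz2⟩ := hnx2 k (dd k)
    rw [hk] at hz
    obtain ⟨ξ, hξ, hξ'⟩ := hz
    rw [hz2] at hξ
    exact ⟨k + 1, ξ, by rw [hdd]; exact hξ, hξ'⟩)
  have hinω : InE γ ⟨q, y, δ, a⟩ Dω := by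
    refine ⟨hin₂.1, ?_⟩
    rw [hDω]
    rintro ξ (rfl | hξ)
    · exact ⟨le_rfl, hmk⟩
    · obtain ⟨k, hk⟩ := Set.mem_iUnion.1 hξ
      exact (dd k).2.2.1.2 ξ hk
  refine ⟨mkZ _ heF Dω hinω, le_of_endX ?_ (hDe 0), fun n => ?_⟩
  · exact KLe.trans he (fm hr₀) (fm z₀.1.1.2) (KLe.trans he hc₁ (fm hr₀) hec hc₁r) hr₀z
  · obtain ⟨k, hk⟩ := hf (n + 1, ⟨0, hδ0⟩)
    obtain ⟨z, hz, hz1, hz2⟩ := hnx2 k (dd k)
    rw [hk] at hz
    refine hD n z hz _ (le_of_endX hz1 ?_)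
    rw [hz2, ← hdd]
    exact hDe (k + 1)

end Pool.Agent.Helper919.SD.TzteN
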