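import Pool.Agent.Helper919_SDT.LangBasic
import Pool.Agent.Helper919_SDT.TzteN

set_option autoImplicit false

namespace Pool.Agent.Helper919.SD

open Ordinal Cardinal Set
open Pool.Agent.Helper292.SP (fnot fand fall for' fimp fiff fex fground meets IsFun)

open Classical in
theorem job_zteR (hteN : Sz_teN) : Sz_teR := by
  intro o Prot hn γ hγ c z hz x
  refine mem_fex.2 fun q hq => ?_
  obtain ⟨r, hr, hD⟩ := hteN o Prot hn γ hγ (fun n => {z | z ∈ meets (x n) ∨ z ∈ fnot (meets (x n))})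
    (by
      rintro n w (h | h) w' hw'
      · exact Or.inl (meets_mono h hw')
      · exact Or.inr fun v hv => h v (hv.trans hw'))
    (by
      intro n w
      by_cases h : w ∈ fnot (meets (x n))
      · exact ⟨w, Or.inr h, le_rfl⟩
      · have h' : ∃ w' ≤ w, w' ∈ meets (x n) := by
          by_contra hc
          push Not at hc
          exact h hc
        obtain ⟨w', h1, h2⟩ := h'
        exact ⟨w', Or.inl h2, h1⟩) q
  refine ⟨r, hr, fun n => if r ∈ meets (x n) then Set.univ else ∅, fun n => ?_⟩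
  by_cases h : r ∈ meets (x n)
  · simp only [h, if_true]
    refine ⟨mem_fimp.2 fun w hw _ => ⟨w, le_rfl, fun v hv => ⟨v, le_rfl, v, ⟨v.1.1, mem_univ _, le_rfl⟩, le_rfl⟩⟩,
      mem_fimp.2 fun w hw _ => ⟨w, le_rfl, meets_mono h hw⟩⟩
  · simp only [h, if_false]
    have h' : r ∈ fnot (meets (x n)) := (hD n).resolve_left h
    refine ⟨mem_fimp.2 fun w hw hw' => absurd hw' (h' w hw), mem_fimp.2 fun w hw hw' => ?_⟩
    obtain ⟨_, _, s, ⟨m, hm, _⟩, _⟩ := hw' w le_rfl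
    exact absurd hm (notMem_empty m)

theorem job_zteS (hmdl : St_mdl) (hgs : St_gs') (hg0 : St_good0) : Sz_teS := by
  intro o Prot hn γ hγ z₀ z hz hst
  let K : W → Set (TS (TEn o γ)) := fun a => {w | wo a ∈ w.1.2.1}
  have hlt : ∀ (d : CB), ∀ ξ ∈ d.1, ξ < ω_ 1 := by
    intro d ξ hξ
    obtain ⟨η, hη, h⟩ := d.2.1
    exact (h ξ hξ).trans_lt hη
  have hunb : ∀ (q : TS (TEn o γ)) (x : W), ∃ r ≤ q, ∃ ξ ∈ r.1.2.1, wo x < ξ := by
    intro q x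
    obtain ⟨r, ⟨ξ, h1, h2⟩, h3⟩ := TzteN.DD_dense hmdl hgs hg0 hn hγ (D := fun _ => Set.univ)
      (fun n z => ⟨z, mem_univ _, le_rfl⟩) 0 (wo_lt x) q
    exact ⟨r, h3, ξ, h1, h2⟩
  have hclub : z ∈ Club K := by
    refine ⟨fun x => mem_fex.2 fun q hq => ?_, fun x => mem_fimp.2 fun q hq hqx => ?_⟩
    · obtain ⟨r, hr, ξ, h1, h2⟩ := hunb q x
      obtain ⟨y, rfl⟩ := wo_surj (hlt _ _ h1)
      exact ⟨r, hr, y, wo_lt_wo.1 h2, fun w hw => ⟨w, le_rfl, r, h1, hw⟩⟩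
    · obtain ⟨r, hr, ξ, h1, h2⟩ := hunb q x
      have hin : wo x ∈ r.1.2.1 := by
        refine r.1.2.2.2 (wo x) ?_ ?_
        · obtain ⟨y, hy⟩ : ∃ y, y < x := hqx.1
          exact lt_of_le_of_lt zero_le (wo_lt_wo.2 hy)
        · intro η hη
          obtain ⟨y, rfl⟩ := wo_surj (hη.trans (wo_lt x))
          obtain ⟨s, hs, h3⟩ := mem_fimp.1 (hqx.2 y) r hr (wo_lt_wo.1 hη)
          obtain ⟨s', hs', t, ⟨ht1, ht2⟩, h4⟩ := mem_fex.1 h3 s le_rfl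
          obtain ⟨s'', hs'', w, hw, h5⟩ := h4 s' le_rfl
          have h6 : wo t ∈ s''.1.2.1 := (TzteN.endX_of_le h5).1 hw
          have h7 := TzteN.endX_of_le (hs''.trans (hs'.trans hs))
          exact ⟨wo t, h7.2 _ h6 ξ h1 ((wo_lt_wo.2 ht2).trans h2).le, wo_lt_wo.2 ht1, wo_lt_wo.2 ht2⟩
      exact ⟨r, hr, fun w hw => ⟨w, le_rfl, r, hin, hw⟩⟩
  obtain ⟨r, hr, h1⟩ := mem_fimp.1 (hst K) z le_rfl hclub
  obtain ⟨s, hs, x, h2, h3⟩ := mem_fex.1 h1 r le_rfl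
  obtain ⟨s₁, hs₁, w, hw, h4⟩ := h2 s le_rfl
  obtain ⟨s₂, hs₂, w', ⟨n, ⟨hn1, hn2, hn3⟩, hn4⟩, h5⟩ := h3 s₁ hs₁
  have h6 : wo x ∈ s₂.1.2.1 := (TzteN.endX_of_le (hs₂.trans h4)).1 hw
  obtain ⟨c, hc, hc1, hc2⟩ := TzteN.exists_inE hn.legit s₂
  have h7 := (hc2.2 _ h6).2
  have h8 : KLe o c n.1 := KLe.trans (Full.mem hc) (Full.mem s₂.1.1.2) (Full.mem n.2) hc1
    (KLe.trans (Full.mem s₂.1.1.2) (Full.mem w'.1.1.2) (Full.mem n.2) h5.1 hn4)
  rw [h8.t γ (TzteN.mem_co (Full.mem n.2) hn1) (wo x) hn2 0, hn3] at h7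
  exact zero_ne_one h7

end Pool.Agent.Helper919.SD
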