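import Pool.Agent.Helper919_SDT.Tpl0
import Pool.Agent.Helper919_SDT.LangBasic

set_option autoImplicit false

namespace Pool.Agent.Helper919.SD

open Ordinal Cardinal Set


theorem job_zval (habs : Sz_abs) (hrec : Sz_rec) : Sz_val := by
  intro o Prot hn i r B g hoi
  have hl := hn.legit
  -- values of extensions
  have key : ∀ c ∈ Full o, ∀ d ∈ PP o (i + 1), KLe o c d → ∀ x : Node, x.1 < d.α → hv i c.t x = hv i d.t x := by
    intro c hc d hd hle x hx
    obtain ⟨hd1, -⟩ := hd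
    refine hle.t i ⟨?_, Or.inr hd1.symm⟩ (x.1 + 1) (Order.add_one_le_of_lt hx) x.2
    rw [hd1]; exact lt_add_one i
  refine ⟨?_, ?_, ?_⟩
  · intro c hc x hx
    obtain ⟨c', h1, h2, h3, h4⟩ := hrec o Prot hn c hc (i + 1) x.1 hx
    have h5 : c'.pr (i + 1) ∈ PP o (i + 1) := PP.pr hl (Full.mem h1) h3
    refine ⟨c', h1, h2, hv i c'.t x, fun c'' hc'' hle => ⟨c'', hc'', KLe.refl _, c'.pr (i + 1), ⟨h5, h4, ?_⟩,
      KLe.trans (Full.mem hc'') (Full.mem h1) h5 hle (PP.le_pr (Full.mem h1) h3)⟩⟩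
    change below (i + 1) c'.t i (x.1 + 1) x.2 = c'.t i (x.1 + 1) x.2
    rw [below_of_lt (lt_add_one i)]
  · intro c hc x q q' h1 h2
    obtain ⟨c₁, a1, a2, d, hd, a3⟩ := h1 c hc (KLe.refl _)
    obtain ⟨c₂, b1, b2, d', hd', b3⟩ := h2 c₁ a1 a2
    have e1 := key c₂ b1 d' hd'.1 b3 x hd'.2.1
    have e2 := key c₂ b1 d hd.1 (KLe.trans (Full.mem b1) (Full.mem a1) hd.1 b2 a3) x hd.2.1
    rw [hd'.2.2] at e1
    rw [hd.2.2] at e2
    rw [← e2, e1]
  · intro c hc x y q q' h0 hxy h1 h2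
    obtain ⟨c₁, a1, a2, d, hd, a3⟩ := h1 c hc (KLe.refl _)
    obtain ⟨c₂, b1, b2, d', hd', b3⟩ := h2 c₁ a1 a2
    have hc2 := Full.mem b1
    have hle2 : KLe o c₂ d := KLe.trans hc2 (Full.mem a1) hd.1 b2 a3
    have e1 := key c₂ b1 d' hd'.1 b3 y hd'.2.1
    have e2 := key c₂ b1 d hd.1 hle2 x hd.2.1
    rw [hd'.2.2] at e1
    rw [hd.2.2] at e2
    rw [← e1, ← e2]
    have hr1 : Rec c₂ (i + 1) := KLe.rc hc2 hd.1 hle2
    have he := PP.pr hl hc2 hr1
    have hre : Rec (c₂.pr (i + 1)) i := by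
      right
      have := (PP.core he).us _ he.2.2.2.1 i (Or.inr rfl)
      exact this
    have hr : Rec c₂ i := by
      have h5 := PP.le_pr he hre
      have h6 : KLe o c₂ ((c₂.pr (i + 1)).pr i) := KLe.trans hc2 he (PP.pr hl he hre) (PP.le_pr hc2 hr1) h5
      exact KLe.rc hc2 (PP.pr hl he hre) h6
    have hpi := PP.pr hl hc2 hr
    have hm : mt o (PP o i) (r x y) (c₂.pr i) := by
      refine ((habs o Prot hn).2 i (r x y) ((hl.spec hoi).1.sub x y) c₂ b1 hr).1 ?_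
      intro c' hc' hle
      exact h0 c' hc' (KLe.trans (Full.mem hc') (Full.mem a1) (Full.mem hc)
        (KLe.trans (Full.mem hc') hc2 (Full.mem a1) hle b2) a2)
    have hα : c₂.α < ω_ 1 := (PP.core hc2).Clt _ (by rw [hc2.1]; exact hc2.2.2.2.1)
    obtain ⟨f, hf, hfle, R, hR⟩ := Tpl0.exists_dec (hn.nn i) r hα hpi
    have hleg : LegSpec o (PP o i) (c₂.pr (i + 1)).p i r B g := by
      have := A.opt he.2.1 he.2.2.1
      unfold LegOpt at this
      simpa only [hoi] using this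
    have hx2 : x.1 < c₂.α := lt_of_lt_of_le hd.2.1 hle2.α
    have hy2 : y.1 < c₂.α := lt_of_lt_of_le hd'.2.1 b3.α
    have hRxy : R x y := by
      by_contra hc'
      exact not_mt_nmt hf (mt.mono Subset.rfl hpi hf hm hfle) ((hR x y hx2.le hy2.le).2 hc')
    have hfin := hleg.inc c₂.α he.2.2.2.1 (below (i + 1) c₂.t) he.2.2.2.2 f hf
      (by have h7 := pr_pr (lt_add_one i).le c₂
          change KLe o f ((c₂.pr (i + 1)).pr i)
          rw [h7]; exact hfle) R hR x y hx2 hy2 hRxy hxy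
    have e3 : ∀ z : Node, hv i (below (i + 1) c₂.t) z = hv i c₂.t z := by
      intro z
      change below (i + 1) c₂.t i (z.1 + 1) z.2 = c₂.t i (z.1 + 1) z.2
      rw [below_of_lt (lt_add_one i)]
    rw [e3, e3] at hfin
    exact hfin

end Pool.Agent.Helper919.SD
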