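import Pool.Agent.Helper919_SDT.Final
import Pool.Agent.Helper919_SDT.Tzabs
import Pool.Agent.Helper919_SDT.Tzbook
import Pool.Agent.Helper919_SDT.Tzclo
import Pool.Agent.Helper919_SDT.Tzkill
import Pool.Agent.Helper919_SDT.Tzlf
import Pool.Agent.Helper919_SDT.Tzloc
import Pool.Agent.Helper919_SDT.Tzno
import Pool.Agent.Helper919_SDT.Tznosd
import Pool.Agent.Helper919_SDT.Tzsath
import Pool.Agent.Helper919_SDT.Tzsmall
import Pool.Agent.Helper919_SDT.Tzstat
import Pool.Agent.Helper919_SDT.TzteN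
import Pool.Agent.Helper919_SDT.TzteS
import Pool.Agent.Helper919_SDT.Tzval
import Pool.Agent.Helper919_SDT.Tzfair
import Pool.Agent.Helper919_SDT.Tznode
import Pool.Agent.Helper919_SDT.TzK8
import Pool.Agent.Helper919_SDT.Tzch
import Pool.Agent.Helper919_SDT.Tzgoodred

set_option autoImplicit false

namespace Pool.Agent.Helper919.SD

theorem q_small : Sz_small := Tzsmall.job_small
theorem q_smallR : Sz_smallR := Tzsmall.job_smallR
theorem q_smallG : Sz_smallG := Tzsmall.job_smallG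
theorem q_smallT : Sz_smallT := Tzsmall.job_smallT
theorem q_loc : Sz_loc := Tzloc.job_zloc
theorem q_locT : Sz_locT := Tzloc.job_zlocT
theorem q_lf : Sz_lf := job_zlf p_mdl p_gs p_good0 p_birth
theorem q_rec : Sz_rec := job_zrec q_lf
theorem q_amF : Sz_amF := job_zamF
theorem q_abs : Sz_abs := job_zabs q_amF
theorem q_clo : Sz_clo := Tzclo.job_clo q_small
theorem q_nnF : Sz_nnF := Tzclo.job_nnF q_clo q_lf
theorem q_red : Sz_red := Tzclo.job_red q_clo q_rec q_amF
theorem q_val : Sz_val := job_zval q_abs q_rec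
theorem q_stat : Sz_stat := Tzstat.job_zstat p_mdl p_gs' p_good0 q_clo q_lf
theorem q_teN : Sz_teN := TzteN.job_zteN p_mdl p_gs' p_good0 q_clo q_lf
theorem q_teR : Sz_teR := job_zteR q_teN
theorem q_teS : Sz_teS := job_zteS p_mdl p_gs' p_good0
theorem q_no : Sz_no := Tzno.job_zno q_clo q_lf q_amF

theorem q_K8 : Sz_K8 := job_zK8 p_mdl p_gs p_good0 p_uni p_birth
theorem q_node : Sz_node := Tznode.job_znode
theorem q_fair : Sz_fair := Tzfair.job_zfair
theorem q_kill : Sz_kill := job_zkill q_K8 q_abs q_amF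
theorem q_book : Sz_book := Tzbook.job_zbook q_fair q_loc q_locT q_smallR q_smallG q_smallT q_small
theorem q_nosd : Sz_nosd := job_znosd q_red q_stat q_teR q_teS q_kill q_no q_rec q_lf

theorem q_goodred : Sz_goodred := Tzgoodred.job_zgoodred q_red q_abs q_amF q_rec
theorem q_sath : Sz_sath := Tzsath.job_zsath q_nnF q_goodred q_val q_node
theorem q_seq : Sz_seq := Tzch.job_zseq q_nnF
theorem q_ch : Sz_ch := Tzch.job_zch p_mdl p_gs p_good0 q_nnF q_rec q_amF

/-- The main theorem. -/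
theorem main : ∃ (P : Type 1) (_ : Preorder P), Nonempty P ∧ NoNewSeq P ∧
    ∀ p : P, p ∈ CH ∧ p ∈ SATH ∧ p ∈ NoSDTree :=
  final_of q_book q_ch q_seq q_sath q_nosd

end Pool.Agent.Helper919.SD
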