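import Pool.Agent.Helper919_SDT.Basic2

set_option autoImplicit false

/-!
# Statements of the first half (construction of the iteration)
-/

namespace Pool.Agent.Helper919.SD

open Ordinal Cardinal Set

/-! ### Unions, lower bounds, births -/

/-- UNION (2.2). -/
def St_uni : Prop := ∀ (o : Ord → Opt) (Prot : Set Ord), Legit o Prot → ∀ x y, x ≤ y → ∀ p ∈ A o y, ∀ r ∈ A o x,
  CLe o r (p.res x) → r.uni p ∈ A o y ∧ CLe o (r.uni p) p ∧ CLe o (r.uni p) r ∧ (r.uni p).res x = r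

/-- SIGMA (2.3). -/
def St_sig : Prop := ∀ (o : Ord → Opt) (Prot : Set Ord), Legit o Prot → ∀ y (q : ℕ → Cond), (∀ n, q n ∈ A o y) →
  (∀ n, CLe o (q (n + 1)) (q n)) → ∃ q' ∈ A o y, (∀ n, CLe o q' (q n)) ∧ (q'.J = ⋃ n, (q n).J) ∧
    (∀ j, q'.C j = ⋃ n, (q n).C j) ∧ (∀ j, q'.Pr j = ⋃ n, (q n).Pr j)

/-- BIRTH (2.4). -/
def St_birth : Prop := ∀ (o : Ord → Opt) (Prot : Set Ord), Legit o Prot → ∀ y, ∀ p ∈ A o y, ∀ j ≤ y, j ∉ p.J →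
  ∃ p' ∈ A o y, CLe o p' p ∧ p'.J = insert j p.J ∧ p'.C = p.C ∧ p'.u = p.u ∧ p'.T = p.T ∧ p'.F = p.F ∧ p'.Pr = p.Pr

/-! ### New top levels -/

open Classical in
/-- The condition `q` together with the data of the `p n` at the index `y` and a new level `δ` of the index `y`. -/
noncomputable def mkTop (q : Cond) (y : Ord) (p : ℕ → Cond) (δ : Ord) (W : Set Ord) (Θ : Set Thr) : Cond where
  J := insert y q.J
  C j := if j = y then insert δ (⋃ n, (p n).C y) else q.C j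
  u j α := if j = y then (if α = δ then W else ⋃ n, (p n).u y α) else q.u j α
  T j α := if j = y then (if α = δ then Θ else ⋃ n, (p n).T y α) else q.T j α
  F j := if j = y then ⋃ n, (p n).F y else q.F j
  Pr j := if j = y then ⋃ n, (p n).Pr y else q.Pr j

/-- The requirements on the new level. -/
structure TopC (q : Cond) (y : Ord) (p : ℕ → Cond) (δ : Ord) (W : Set Ord) (Θ : Set Thr) : Prop where
  lim : Order.IsSuccLimit δ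
  lt : δ < ω_ 1
  ab : ∀ n, ∀ α ∈ (p n).C y, α < δ
  Wc : W.Countable
  Wlt : ∀ z ∈ W, z < y
  Wcl : ∀ z < y, 0 < z → (∀ w < z, ∃ v ∈ W, w < v ∧ v < z) → z ∈ W
  W0 : 0 < y → (0 : Ord) ∈ W
  Ws : ∀ i, i + 1 ∈ W ∨ i + 1 = y → i ∈ W
  Θc : Θ.Countable
  Θn : Θ.Nonempty
  Θs : ∀ t ∈ Θ, cut {i | i < y ∧ (i + 1 ∈ W ∨ i + 1 = y)} δ t = t
  L1J : ∀ z ∈ W, z ∈ q.J ∧ δ ∈ q.C z
  L1u : ∀ z ∈ W, q.u z δ = {w | w ∈ W ∧ w < z}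
  L1T : ∀ z ∈ W, q.T z δ = below z '' Θ
  L2u : ∀ n, ∀ α ∈ (p n).C y, (p n).u y α ⊆ W
  L2 : ∀ n, ∀ α ∈ (p n).C y, ∀ t ∈ Θ, cut (co (p n) y α) α t ∈ (p n).T y α
  L3 : ∀ n, ∀ α ∈ (p n).C y, ∀ x ≤ y, ∀ t ∈ (p n).T y α, ∀ z ∈ Θ,
    Agr {i | i ∈ co (p n) y α ∧ i < x} α z t → ∃ z' ∈ Θ, Agr (co (p n) y α) α z' t ∧ below x z' = below x z

/-- New top levels. The indices of `q` are below `y`; `q` extends the parts of the `p n` below `y`. -/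
def St_top : Prop := ∀ (o : Ord → Opt) (Prot : Set Ord), Legit o Prot → ∀ (y : Ord) (p : ℕ → Cond) (q : Cond)
  (δ : Ord) (W : Set Ord) (Θ : Set Thr), (∀ n, p n ∈ A o y) → (∀ n, CLe o (p (n + 1)) (p n)) → y ∈ (p 0).J →
  q ∈ A o y → (∀ j ∈ q.J, j < y) → (∀ n, ∀ x < y, CLe o q ((p n).res x)) →
  TopC q y p δ W Θ →
  LegCore (mkTop q y p δ W Θ) y ∧
  ((∀ i, i + 1 = y → LegOpt o (PP o i) (mkTop q y p δ W Θ) i) →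
    mkTop q y p δ W Θ ∈ A o y ∧ CLe o (mkTop q y p δ W Θ) q ∧ (mkTop q y p δ W Θ).C y = insert δ (⋃ n, (p n).C y) ∧
    (∀ x < y, (mkTop q y p δ W Θ).res x = q.res x) ∧
    ((∀ i γ, i + 1 = y → o i = Opt.kill γ → ∀ n, ∀ β ∈ (p n).C (γ + 1), β < δ) →
      ∀ n, CLe o (mkTop q y p δ W Θ) (p n)))

/-! ### The fusion lemma for specialising coordinates (pure combinatorics) -/

/-- A tree order on the nodes of the levels `≤ δ`, reflexive on its field. -/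
structure TreeR (R : Node → Node → Prop) (δ : Ord) : Prop where
  lvl : ∀ x y : Node, y.1 ≤ δ → R x y → x.1 ≤ y.1 ∧ (x.1 = y.1 → x = y)
  refl : ∀ x y : Node, y.1 ≤ δ → R x y → R x x ∧ R y y
  trans : ∀ x y z : Node, z.1 ≤ δ → R x y → R y z → R x z
  ex : ∀ y : Node, y.1 ≤ δ → R y y → ∀ ξ ≤ y.1, ∃ n, R (ξ, n) y
  uniq : ∀ x x' y : Node, y.1 ≤ δ → R x y → R x' y → x.1 = x'.1 → x = x'

/-- The data of the fusion lemma. `T α h` depends on the values of `h` at the levels `< α` only. -/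
structure FD (Bt : Type 1) where
  δ : Ord
  R : Bt → Node → Node → Prop
  C : Set Ord
  T : Ord → (Node → ℚ) → Prop
  Q : Type 1
  lv : Q → Ord
  st : Q → Node → ℚ
  k : Q → ℕ
  v : (π : Q) → Fin (k π) → ℚ
  Y : (π : Q) → Bt → Set (Fin (k π) → ℕ)
  lim : Order.IsSuccLimit δ
  lt : δ < ω_ 1
  ctB : Countable Bt
  ctQ : Countable Q
  tree : ∀ b, TreeR (R b) δ
  agree : ∀ b b' x y, x.1 < δ → y.1 < δ → (R b x y ↔ R b' x y)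
  Clt : ∀ α ∈ C, α < δ
  Clim : ∀ α ∈ C, Order.IsSuccLimit α
  ext : ∀ α h h', (∀ x : Node, x.1 < α → h x = h' x) → T α h → T α h'
  down : ∀ α₀ ∈ C, ∀ α ∈ C, α₀ < α → ∀ h, T α h → T α₀ h
  inc : ∀ α ∈ C, ∀ h, T α h → ∀ b x y, x.1 < α → y.1 < α → R b x y → x ≠ y → h x < h y
  bd : ∀ α ∈ C, ∀ h, T α h → ∀ b n, ∃ w, Sat (R b) h α (α, n) w
  sep : ∀ α₀ ∈ C, ∀ α ∈ C, α₀ < α → ∀ h₀, T α₀ h₀ → ∀ b (k : ℕ) (n : Fin k → ℕ) (w : Fin k → ℚ),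
    (∀ l, Sat (R b) h₀ α₀ (α, n l) (w l)) →
    ∃ h, T α h ∧ (∀ x : Node, x.1 < α₀ → h x = h₀ x) ∧ ∀ l, Sat (R b) h α (α, n l) (w l)
  lvC : ∀ π, lv π ∈ C
  fld : ∀ π b, ∀ n ∈ Y π b, ∀ l, R b (δ, n l) (δ, n l)
  prom : ∀ π, ∀ α ∈ C, lv π ≤ α → ∀ h, T α h → (∀ x : Node, x.1 < lv π → h x = st π x) → ∀ b (fi : Finset ℕ),
    ∃ n ∈ Y π b, ∃ m : Fin (k π) → ℕ, (∀ l, R b (α, m l) (δ, n l)) ∧ (∀ l, m l ∉ fi) ∧
      ∀ l, Sat (R b) h α (α, m l) (v π l)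

/-- What the fusion produces at the level `δ`. -/
structure FD.Out {Bt : Type 1} (D : FD Bt) (h : Node → ℚ) : Prop where
  T : ∀ α ∈ D.C, D.T α h
  inc : ∀ b x y, x.1 < D.δ → y.1 < D.δ → D.R b x y → x ≠ y → h x < h y
  bd : ∀ b n, ∃ w, Sat (D.R b) h D.δ (D.δ, n) w
  prom : ∀ π, (∀ x : Node, x.1 < D.lv π → h x = D.st π x) → ∀ b (fi : Finset ℕ),
    ∃ n ∈ D.Y π b, (∀ l, n l ∉ fi) ∧ ∀ l, Sat (D.R b) h D.δ (D.δ, n l) (D.v π l)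

/-- TC, main form. -/
def St_tc : Prop := ∀ (Bt : Type 1) (D : FD Bt), Nonempty Bt → ∀ α ∈ D.C, ∀ h₀, D.T α h₀ →
  ∀ K : List (Bt × ℕ × ℚ), (∀ e ∈ K, Sat (D.R e.1) h₀ α (D.δ, e.2.1) e.2.2) →
  ∃ h, D.Out h ∧ (∀ x : Node, x.1 < α → h x = h₀ x) ∧ ∀ e ∈ K, Sat (D.R e.1) h D.δ (D.δ, e.2.1) e.2.2

/-- TC, with small growth above the last level. -/
def St_tcx : Prop := ∀ (Bt : Type 1) (D : FD Bt), Nonempty Bt → ∀ α ∈ D.C, (∀ β ∈ D.C, β ≤ α) → ∀ h₀, D.T α h₀ →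
  ∀ e : ℚ, 0 < e → ∃ h, D.Out h ∧ (∀ x : Node, x.1 < α → h x = h₀ x) ∧
    ∀ b n w, Sat (D.R b) h₀ α (D.δ, n) w → Sat (D.R b) h D.δ (D.δ, n) (w + e)

/-- TC, without levels. -/
def St_tc0 : Prop := ∀ (Bt : Type 1) (D : FD Bt), Nonempty Bt → D.C = ∅ → ∃ h, D.Out h

/-! ### Models and generic sequences -/

/-- The thread of the node `c'` of the index `x` extends the restriction of `c₀` to the indices `< x`. -/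
structure Ext (o : Ord → Opt) (c' c₀ : Cnd) (x : Ord) : Prop where
  p : CLe o c'.p (c₀.p.res x)
  α : c₀.α ≤ c'.α
  co : {i | i ∈ co c₀.p c₀.j c₀.α ∧ i < x} ⊆ co c'.p x c'.α
  t : Agr {i | i ∈ SD.co c₀.p c₀.j c₀.α ∧ i < x} c₀.α c'.t c₀.t

/-- The task set. -/
def TaskSet (o : Ord → Opt) (x : Ord) (c₀ : Cnd) (D : Set Cnd) : Set Cnd :=
  {c | c ∈ PP o x ∧ ((∃ c' ∈ D, KLe o c' c₀ ∧ Rec c' x ∧ KLe o c (c'.pr x)) ∨ ¬ ∃ c'' ∈ PP o x, KLe o c'' c ∧ Ext o c'' c₀ x)}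

/-- The set used for generic sequences over a given generic sequence. -/
def OverSet (o : Ord → Opt) (x y z : Ord) (p : Cond) (D : Set Cnd) : Set Cnd :=
  {c | c ∈ PP o x ∧ ((¬ ∃ r ∈ A o x, CLe o r c.p ∧ CLe o r (p.res x)) ∨
    ∃ q ∈ A o y, CLe o q p ∧ CLe o c.p (q.res x) ∧ ∃ β ∈ q.C z, ∀ t ∈ q.T z β, (⟨q.res z, z, β, t⟩ : Cnd) ∈ D)}

/-- Models with witnesses. -/
structure Mdl (o : Ord → Opt) (N : Set U) (δ : Ord) : Prop where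
  basic : Basic o N δ
  wS : ∀ z p D, U.ord z ∈ N → U.cond p ∈ N → U.st D ∈ N →
    (∃ q ∈ A o z, CLe o q p ∧ ∃ β ∈ q.C z, ∀ t ∈ q.T z β, (⟨q, z, β, t⟩ : Cnd) ∈ D) →
    ∃ q ∈ A o z, U.cond q ∈ N ∧ CLe o q p ∧ ∃ β ∈ q.C z, ∀ t ∈ q.T z β, (⟨q, z, β, t⟩ : Cnd) ∈ D
  task : ∀ x c₀ D, U.ord x ∈ N → U.cnd c₀ ∈ N → U.st D ∈ N → U.st (TaskSet o x c₀ D) ∈ N
  wT : ∀ x c₀ D c, U.ord x ∈ N → U.cnd c₀ ∈ N → U.st D ∈ N → U.cnd c ∈ N →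
    (∃ c' ∈ D, KLe o c' c₀ ∧ Rec c' x ∧ KLe o c (c'.pr x)) →
    ∃ c' ∈ D, U.cnd c' ∈ N ∧ KLe o c' c₀ ∧ Rec c' x ∧ KLe o c (c'.pr x)
  ovr : ∀ x y z p D, U.ord x ∈ N → U.ord y ∈ N → U.ord z ∈ N → U.cond p ∈ N → U.st D ∈ N →
    U.st (OverSet o x y z p D) ∈ N
  wO : ∀ x y z p D r, U.ord x ∈ N → U.ord y ∈ N → U.ord z ∈ N → U.cond p ∈ N → U.st D ∈ N → U.cond r ∈ N →
    (∃ q ∈ A o y, CLe o q p ∧ CLe o r (q.res x) ∧ ∃ β ∈ q.C z, ∀ t ∈ q.T z β, (⟨q.res z, z, β, t⟩ : Cnd) ∈ D) →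
    ∃ q ∈ A o y, U.cond q ∈ N ∧ CLe o q p ∧ CLe o r (q.res x) ∧ ∃ β ∈ q.C z, ∀ t ∈ q.T z β,
      (⟨q.res z, z, β, t⟩ : Cnd) ∈ D

/-- Existence of models. -/
def St_mdl : Prop := ∀ (o : Ord → Opt) (Prot : Set Ord), Legit o Prot → ∀ (Fs : ℕ → List U → U) (S : Set U),
  S.Countable → ∃ (N : Set U) (δ : Ord), S ⊆ N ∧ Mdl o N δ ∧ ∀ n l, (∀ a ∈ l, a ∈ N) → Fs n l ∈ N

/-- Generic sequences below `y` with constant data at `y`. -/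
def St_gs : Prop := ∀ (o : Ord → Opt) (Prot : Set Ord), Legit o Prot → ∀ y, (∀ z < y, SS o z) → ∀ N δ, Mdl o N δ →
  U.ord y ∈ N → ∀ p, U.cond p ∈ N → p ∈ A o y → ∃ ps : ℕ → Cond, Sq o N y ps ∧ ps 0 = p ∧
    (∀ z < y, U.ord z ∈ N → Gen o N ps z) ∧
    ∀ n, (ps n).C y = p.C y ∧ (ps n).u y = p.u y ∧ (ps n).T y = p.T y ∧ (ps n).F y = p.F y ∧ (ps n).Pr y = p.Pr y

/-- Generic sequences. -/
def St_gs' : Prop := ∀ (o : Ord → Opt) (Prot : Set Ord), Legit o Prot → ∀ y, (∀ z ≤ y, SS o z) → ∀ N δ, Mdl o N δ →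
  U.ord y ∈ N → ∀ p, U.cond p ∈ N → p ∈ A o y → ∃ ps : ℕ → Cond, Sq o N y ps ∧ ps 0 = p ∧
    ∀ z ≤ y, U.ord z ∈ N → Gen o N ps z

/-- Generic sequences over a given generic sequence (GENOVER). -/
def St_go : Prop := ∀ (o : Ord → Opt) (Prot : Set Ord), Legit o Prot → ∀ x y, x < y → (∀ z ≤ y, SS o z) → ∀ N δ,
  Mdl o N δ → U.ord x ∈ N → U.ord y ∈ N → ∀ g, Sq o N x g → (∀ z ≤ x, U.ord z ∈ N → Gen o N g z) →
  ∀ p, U.cond p ∈ N → p ∈ A o y → (∃ m, CLe o (g m) (p.res x)) → ∃ ps : ℕ → Cond, Sq o N y ps ∧ ps 0 = p ∧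
    (∀ z ≤ y, U.ord z ∈ N → Gen o N ps z) ∧ ∀ n, ∃ m, CLe o (g m) ((ps n).res x)

/-- Good conditions at the index `0`. -/
def St_good0 : Prop := ∀ (o : Ord → Opt) (Prot : Set Ord), Legit o Prot → ∀ N δ gs, Basic o N δ → ∀ y p, Sq o N y p →
  ∃ q, GoodQ o N δ gs 0 q ∧ (∀ n, CLe o q ((p n).res 0)) ∧ ∀ α ∈ q.C 0, α ≤ δ

/-- `SS` at the index `0`. -/
def St_ss0 : Prop := ∀ (o : Ord → Opt) (Prot : Set Ord), Legit o Prot → SS o 0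

/-! ### Consequences of `LL` -/

/-- `LL` at the positive indices. -/
def LLp (o : Ord → Opt) (Prot : Set Ord) (y : Ord) : Prop := 0 < y → LL o Prot y

/-- Higher levels. -/
def NX (o : Ord → Opt) (y : Ord) : Prop :=
  (∀ p ∈ A o y, ∃ q ∈ A o y, CLe o q p ∧ y ∈ q.J ∧ (q.C y).Nonempty) ∧
  (∀ c ∈ PP o y, ∀ ξ < ω_ 1, ∃ c' ∈ PP o y, KLe o c' c ∧ ξ < c'.α) ∧
  (∀ c ∈ PP o y, ∀ ξ < ω_ 1, ∀ s < y, ∃ c' ∈ PP o y, KLe o c' c ∧ ξ < c'.α ∧ s ∈ c'.p.u y c'.α)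

def St_nx : Prop := ∀ (o : Ord → Opt) (Prot : Set Ord), Legit o Prot → ∀ y, (∀ z < y, SS o z) → LLp o Prot y → NX o y

/-- AM' (3.2). -/
def AM (o : Ord → Opt) (y : Ord) : Prop := ∀ c ∈ PP o y, ∀ x < y, ∀ d ∈ PP o x, Ext o d c x →
  ∃ c' ∈ PP o y, KLe o c' c ∧ Rec c' x ∧ KLe o (c'.pr x) d

def St_am : Prop := ∀ (o : Ord → Opt) (Prot : Set Ord), Legit o Prot → ∀ y, (∀ z < y, SS o z) → LLp o Prot y → AM o y

/-- S_omega (3.3). -/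
def SO (o : Ord → Opt) (y : Ord) : Prop := ∀ p ∈ A o y, ∀ D : ℕ → Set Cnd, (∀ m, DO o (PP o y) (D m)) → ∀ ξ < ω_ 1,
  ∃ q ∈ A o y, CLe o q p ∧ ∃ β ∈ q.C y, ξ < β ∧ ∀ t ∈ q.T y β, ∀ m, (⟨q, y, β, t⟩ : Cnd) ∈ D m

def St_so : Prop := ∀ (o : Ord → Opt) (Prot : Set Ord), Legit o Prot → ∀ y, SS o y → NX o y → SO o y

/-! ### The successor step -/

/-- The new top level at a Cohen or kill coordinate. -/
def TopN (o : Ord → Opt) (Prot : Set Ord) (i : Ord) : Prop :=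
  (∀ r B g, o i ≠ Opt.spec r B g) → ∀ (N : Set U) (δ : Ord) (gs : Option Ord), Basic o N δ →
    (∀ γ, gs = some γ → γ ∈ Prot) → U.ord i ∈ N → ∀ p : ℕ → Cond, Sq o N (i + 1) p → i + 1 ∈ (p 0).J →
    (∀ z ≤ i, U.ord z ∈ N → Gen o N p z) → ∀ qi, GoodQ o N δ gs i qi → (∀ n, CLe o qi ((p n).res i)) →
    ∀ El : Set (Ord × Thr),
    (∀ n, ∀ α ∈ (p n).C (i + 1), ∀ s ∈ (p n).T (i + 1) α, ∀ a ∈ qi.T i δ, Agr (co (p n) i α) α a s →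
      ∃ n', ∃ α' ∈ (p n').C (i + 1), α ≤ α' ∧ ∃ s' ∈ (p n').T (i + 1) α',
        Agr (co (p n) (i + 1) α) α s' s ∧ Agr (co (p n') i α') α' a s' ∧ (α', s') ∈ El) →
    ∃ q, GoodQ o N δ gs (i + 1) q ∧ (∀ n, CLe o q (p n)) ∧ q.res i = qi ∧ (∀ α ∈ q.C (i + 1), α ≤ δ) ∧
      (El = Set.univ → EXs o N δ p q i) ∧
      ((∃ n, ((p n).C (i + 1)).Nonempty) → ∀ z ∈ q.T (i + 1) δ, ∃ n, ∃ α' ∈ (p n).C (i + 1),
        ∃ s' ∈ (p n).T (i + 1) α', (α', s') ∈ El ∧ Agr (co (p n) (i + 1) α') α' z s')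

def St_topN : Prop := ∀ (o : Ord → Opt) (Prot : Set Ord), Legit o Prot → ∀ i, (∀ z ≤ i, NX o z) → TopN o Prot i

/-- The new top level at a specialising coordinate; the nodes of the level `β` decide the level `δ` of the tree. -/
def TopP (o : Ord → Opt) (Prot : Set Ord) (i : Ord) : Prop :=
  ∀ r B g, o i = Opt.spec r B g → ∀ (N : Set U) (δ : Ord) (gs : Option Ord), Basic o N δ →
    (∀ γ, gs = some γ → γ ∈ Prot) → U.ord i ∈ N → ∀ p : ℕ → Cond, Sq o N (i + 1) p → i + 1 ∈ (p 0).J →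
    (∀ z ≤ i, U.ord z ∈ N → Gen o N p z) → ∀ qi, GoodQ o N δ gs i qi → (∀ n, CLe o qi ((p n).res i)) →
    ∀ β ∈ qi.C i, δ < β → (∀ b ∈ qi.T i β, (∃ R, Dec o (PP o i) r ⟨qi, i, β, b⟩ δ R) ∧
      ∀ κ < B, U.ord κ ∈ N → ∃ Y, DecG o (PP o i) (g κ) ⟨qi, i, β, b⟩ δ Y) →
    ∀ El : Set (Ord × Thr),
    (∀ n, ∀ α ∈ (p n).C (i + 1), ∀ s ∈ (p n).T (i + 1) α, ∀ a ∈ qi.T i δ, Agr (co (p n) i α) α a s →
      ∀ K : List (Thr × ℕ × ℚ), (∀ e ∈ K, e.1 ∈ qi.T i β ∧ Agr (co qi i δ) δ e.1 a ∧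
        ∀ R, Dec o (PP o i) r ⟨qi, i, β, e.1⟩ δ R → Sat R (hv i s) α (δ, e.2.1) e.2.2) →
      ∃ n', ∃ α' ∈ (p n').C (i + 1), α ≤ α' ∧ ∃ s' ∈ (p n').T (i + 1) α',
        Agr (co (p n) (i + 1) α) α s' s ∧ Agr (co (p n') i α') α' a s' ∧ (α', s') ∈ El ∧
        ∀ e ∈ K, ∀ R, Dec o (PP o i) r ⟨qi, i, β, e.1⟩ δ R → Sat R (hv i s') α' (δ, e.2.1) e.2.2) →
    ∃ q, GoodQ o N δ gs (i + 1) q ∧ (∀ n, CLe o q (p n)) ∧ q.res i = qi ∧ (∀ α ∈ q.C (i + 1), α ≤ δ) ∧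
      (El = Set.univ → XS o δ p q i) ∧
      ((∃ n, ((p n).C (i + 1)).Nonempty) → ∀ z ∈ q.T (i + 1) δ, ∃ n, ∃ α' ∈ (p n).C (i + 1),
        ∃ s' ∈ (p n).T (i + 1) α', (α', s') ∈ El ∧ Agr (co (p n) (i + 1) α') α' z s')

def St_topP : Prop := ∀ (o : Ord → Opt) (Prot : Set Ord), Legit o Prot → ∀ i, (∀ z ≤ i, NX o z) → TopP o Prot i

/-- `LL` at successors. -/
def St_llS : Prop := ∀ (o : Ord → Opt) (Prot : Set Ord), Legit o Prot → ∀ i, LLp o Prot i → SO o i →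
  TopN o Prot i → TopP o Prot i → LL o Prot (i + 1)

/-! ### The limit step -/

/-- The new top level at a limit index. -/
def TopL (o : Ord → Opt) (Prot : Set Ord) (y : Ord) : Prop :=
  Order.IsSuccLimit y → ∀ (N : Set U) (δ : Ord) (gs : Option Ord), Basic o N δ →
    (∀ γ, gs = some γ → γ ∈ Prot) → U.ord y ∈ N → ∀ ys : ℕ → Ord, StrictMono ys → (∀ k, U.ord (ys k) ∈ N ∧ ys k < y) →
    (∀ z < y, U.ord z ∈ N → ∃ k, z ≤ ys k) → ∀ qs : ℕ → Cond, (∀ k, GoodQ o N δ gs (ys k) (qs k)) →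
    (∀ k, CLe o (qs (k + 1)) (qs k)) → ∀ p : ℕ → Cond, Sq o N y p → y ∈ (p 0).J →
    (∀ n, ∃ k₀, ∀ k ≥ k₀, CLe o (qs k) ((p n).res (ys k))) → ∀ El : Set (Ord × Thr),
    (∀ k n, ∀ α ∈ (p n).C y, ∀ t ∈ (p n).T y α, ∀ a ∈ (qs k).T (ys k) δ,
      Agr {i | i ∈ co (p n) y α ∧ i < ys k} α a t →
      ∃ k' ≥ k, ∃ n', ∃ α' ∈ (p n').C y, α ≤ α' ∧ ∃ t' ∈ (p n').T y α', (α', t') ∈ El ∧
        Agr (co (p n) y α) α t' t ∧ ∃ a' ∈ (qs k').T (ys k') δ, below (ys k) a' = a ∧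
          Agr {i | i ∈ co (p n') y α' ∧ i < ys k'} α' a' t') →
    ∃ q, GoodQ o N δ gs y q ∧ (∀ n, CLe o q (p n)) ∧ (∀ k, CLe o (q.res (ys k)) (qs k)) ∧ (∀ α ∈ q.C y, α ≤ δ) ∧
      ((∃ n, ((p n).C y).Nonempty) → ∀ z ∈ q.T y δ, ∃ n, ∃ α' ∈ (p n).C y,
        ∃ t' ∈ (p n).T y α', (α', t') ∈ El ∧ Agr (co (p n) y α') α' z t')

def St_topL : Prop := ∀ (o : Ord → Opt) (Prot : Set Ord), Legit o Prot → ∀ y, TopL o Prot y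

/-- `LL` at limits. -/
def St_llL : Prop := ∀ (o : Ord → Opt) (Prot : Set Ord), Legit o Prot → ∀ y, Order.IsSuccLimit y →
  (∀ z < y, LLp o Prot z) → TopL o Prot y → LL o Prot y

/-! ### Dispersal, the promise lemma, `SS` -/

/-- Countable families of dense sets have dense intersections. -/
def NN (o : Ord → Opt) (P : Set Cnd) : Prop :=
  ∀ D : ℕ → Set Cnd, (∀ m, DO o P (D m)) → ∀ c ∈ P, ∃ c' ∈ P, KLe o c' c ∧ ∀ m, c' ∈ D m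

def St_nn : Prop := ∀ (o : Ord → Opt) (Prot : Set Ord), Legit o Prot → ∀ y, SO o y → NN o (PP o y)

/-- Dispersal (6). -/
def St_disp : Prop := ∀ (o : Ord → Opt) (i : Ord), NN o (PP o i) → ∀ r, Good o (PP o i) r → ∀ G, OKP o (PP o i) r G →
  ∀ c ∈ PP o i, ∀ (α : Ord) (m : Fin G.k → ℕ), α < ω_ 1 → mt o (PP o i) (G.G α m) c →
  ∃ c' ∈ PP o i, KLe o c' c ∧ ∃ β₁ < ω_ 1, ∀ β, β₁ ≤ β → β < ω_ 1 → ∀ fi : Finset ℕ, ∀ c'' ∈ PP o i, KLe o c'' c' →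
    ∃ c₃ ∈ PP o i, KLe o c₃ c'' ∧ ∃ n, mt o (PP o i) (G.G β n) c₃ ∧ (∀ l, n l ∉ fi) ∧
      ∀ l, mt o (PP o i) (r (α, m l) (β, n l)) c₃

/-- The conditions forcing that some extension in `D` of `c₀` satisfies the constraint. -/
def WW (o : Ord → Opt) (i : Ord) (r : Node → Node → Set Cnd) (D : Set Cnd) (c₀ : Cnd) (k : ℕ) (v : Fin k → ℚ)
    (η : Ord) (y : Fin k → ℕ) : Set Cnd :=
  {c | c ∈ PP o i ∧ ∃ c' ∈ D, KLe o c' c₀ ∧ c'.α ≤ η ∧ KLe o c (c'.pr i) ∧ ∃ R, Dec o (PP o i) r c η R ∧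
    ∀ l, Sat R (hv i c'.t) c'.α (η, y l) (v l)}

/-- The bad tuples. -/
def Bd (o : Ord → Opt) (i : Ord) (r : Node → Node → Set Cnd) (D : Set Cnd) (c₀ : Cnd) (k : ℕ) (v : Fin k → ℚ)
    (η : Ord) (y : Fin k → ℕ) : Set Cnd :=
  {c | c ∈ PP o i ∧ (∀ l, mt o (PP o i) (r (η, y l) (η, y l)) c) ∧
    ∀ c₁ ∈ PP o i, KLe o c₁ c → c₁ ∉ WW o i r D c₀ k v η y}

/-- The name of the promise of the bad tuples. -/
def bdName (o : Ord → Opt) (i : Ord) (r : Node → Node → Set Cnd) (D : Set Cnd) (c₀ : Cnd) (k : ℕ) (v : Fin k → ℚ) :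
    PName where
  k := k
  v := v
  G η y := {c | c ∈ PP o i ∧ η < ω_ 1 ∧ ∀ η', η ≤ η' → η' < ω_ 1 → ∀ c₁ ∈ PP o i, KLe o c₁ c → ∃ c₂ ∈ PP o i, KLe o c₂ c₁ ∧
    ∃ y', (∀ l, mt o (PP o i) (r (η, y l) (η', y' l)) c₂) ∧ c₂ ∈ Bd o i r D c₀ k v η' y'}

/-- The name of the bad tuples is a promise. -/
def St_bd : Prop := ∀ (o : Ord → Opt) (Prot : Set Ord), Legit o Prot → ∀ i, NN o (PP o i) → ∀ r, Good o (PP o i) r →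
  ∀ D, DO o (PP o (i + 1)) D → ∀ c₀ ∈ PP o (i + 1), ∀ k v, OKP o (PP o i) r (bdName o i r D c₀ k v)

/-- PL0. -/
def St_pl0 : Prop := ∀ (o : Ord → Opt) (Prot : Set Ord), Legit o Prot → ∀ i r B g, o i = Opt.spec r B g →
  (∀ z ≤ i, SS o z) → (∀ z ≤ i, LLp o Prot z) → LL o Prot (i + 1) → ∀ D, DO o (PP o (i + 1)) D →
  ∀ c₀ ∈ PP o (i + 1), ∀ k v, ∀ y₀ : Fin k → ℕ, ∀ c ∈ PP o i, KLe o c (c₀.pr i) → mt o (PP o i) ((bdName o i r D c₀ k v).G c₀.α y₀) c →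
  ∀ R, Dec o (PP o i) r c c₀.α R → ¬ ∀ l, Sat R (hv i c₀.t) c₀.α (c₀.α, y₀ l) (v l)

/-! #### The promise lemma -/

/-- First set: the tuple `y` of the level `η` is good, or bad, or not in the tree. -/
def Set1 (o : Ord → Opt) (i : Ord) (r : Node → Node → Set Cnd) (D : Set Cnd) (c₀ : Cnd) (k : ℕ) (v : Fin k → ℚ)
    (η : Ord) (y : Fin k → ℕ) : Set Cnd :=
  WW o i r D c₀ k v η y ∪ Bd o i r D c₀ k v η y ∪
    {c | c ∈ PP o i ∧ ∃ l, nmt o (PP o i) (r (η, y l) (η, y l)) c}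

/-- The level `η'` witnesses that `c` forces `y` not to be in the name of the bad tuples. -/
def Wit2 (o : Ord → Opt) (i : Ord) (r : Node → Node → Set Cnd) (D : Set Cnd) (c₀ : Cnd) (k : ℕ) (v : Fin k → ℚ)
    (y : Fin k → ℕ) (η' : Ord) (c : Cnd) : Prop :=
  c₀.α ≤ η' ∧ η' < ω_ 1 ∧ ∀ c₁ ∈ PP o i, KLe o c₁ c → ∀ y', (∀ l, mt o (PP o i) (r (c₀.α, y l) (η', y' l)) c₁) →
    c₁ ∉ Bd o i r D c₀ k v η' y'

/-- Second set: the tuple `y` of the level of `c₀` is in the name of the bad tuples or some level refutes this. -/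
def Set2 (o : Ord → Opt) (i : Ord) (r : Node → Node → Set Cnd) (D : Set Cnd) (c₀ : Cnd) (k : ℕ) (v : Fin k → ℚ)
    (y : Fin k → ℕ) : Set Cnd :=
  (bdName o i r D c₀ k v).G c₀.α y ∪ {c | c ∈ PP o i ∧ ∃ η', Wit2 o i r D c₀ k v y η' c}

/-- Models for the promise lemma. -/
structure MdlP (o : Ord → Opt) (i : Ord) (r : Node → Node → Set Cnd) (D : Set Cnd) (N : Set U) : Prop where
  s1 : ∀ c₀ k v η y, U.cnd c₀ ∈ N → U.ord η ∈ N → U.st (Set1 o i r D c₀ k v η y) ∈ N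
  s2 : ∀ c₀ k v y, U.cnd c₀ ∈ N → U.st (Set2 o i r D c₀ k v y) ∈ N
  w1 : ∀ c₀ k v η y c, U.cnd c₀ ∈ N → U.ord η ∈ N → U.cnd c ∈ N → c ∈ WW o i r D c₀ k v η y →
    ∃ c' ∈ D, U.cnd c' ∈ N ∧ KLe o c' c₀ ∧ c'.α ≤ η ∧ KLe o c (c'.pr i) ∧ ∃ R, Dec o (PP o i) r c η R ∧
      ∀ l, Sat R (hv i c'.t) c'.α (η, y l) (v l)
  w2 : ∀ c₀ k v y c, U.cnd c₀ ∈ N → U.cnd c ∈ N → (∃ η', Wit2 o i r D c₀ k v y η' c) →
    ∃ η', U.ord η' ∈ N ∧ Wit2 o i r D c₀ k v y η' c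

def St_mdlP : Prop := ∀ (o : Ord → Opt) (Prot : Set Ord), Legit o Prot → ∀ i r D, ∀ S : Set U,
  S.Countable → ∃ (N : Set U) (δ : Ord), S ⊆ N ∧ Mdl o N δ ∧ MdlP o i r D N

/-- The promise lemma. -/
def St_pl : Prop := ∀ (o : Ord → Opt) (Prot : Set Ord), Legit o Prot → ∀ i r B g, o i = Opt.spec r B g →
  (∀ z ≤ i, SS o z) → (∀ z ≤ i, LLp o Prot z) → LL o Prot (i + 1) → ∀ D, DO o (PP o (i + 1)) D → ∀ N δ, Mdl o N δ →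
  MdlP o i r D N → U.ord i ∈ N → ∀ gg : ℕ → Cond, Sq o N i gg → Gen o N gg i → ∀ gs qi, GoodQ o N δ gs i qi →
  (∀ n, CLe o qi (gg n)) → ∀ c₀ ∈ PP o (i + 1), U.cnd c₀ ∈ N → (∃ m, CLe o (gg m) (c₀.p.res i)) →
  ∀ a ∈ qi.T i δ, Agr (co c₀.p i c₀.α) c₀.α a c₀.t → ∀ R : Node → Node → Prop,
  (∀ x y : Node, x.1 < δ → y.1 < δ → (R x y → mt o (PP o i) (r x y) ⟨qi, i, δ, a⟩) ∧
    (¬ R x y → nmt o (PP o i) (r x y) ⟨qi, i, δ, a⟩)) →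
  ∀ (k : ℕ) (v : Fin k → ℚ) (X : Fin k → Ord → ℕ), (∀ l η η', η ≤ η' → η' < δ → R (η, X l η) (η', X l η')) →
  (∀ l, Sat R (hv i c₀.t) c₀.α (c₀.α, X l c₀.α) (v l)) →
  ∃ c' ∈ D, U.cnd c' ∈ N ∧ KLe o c' c₀ ∧ KLe o ⟨qi, i, δ, a⟩ (c'.pr i) ∧ (∃ m, CLe o (gg m) (c'.p.res i)) ∧
    ∀ l, Sat R (hv i c'.t) c'.α (c'.α, X l c'.α) (v l)

/-- `SS` at successors. -/
def St_ssN : Prop := ∀ (o : Ord → Opt) (Prot : Set Ord), Legit o Prot → ∀ i, (∀ r B g, o i ≠ Opt.spec r B g) →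
  (∀ z ≤ i, SS o z) → (∀ z ≤ i, LLp o Prot z) → LL o Prot (i + 1) → TopN o Prot i → SS o (i + 1)

def St_ssP : Prop := ∀ (o : Ord → Opt) (Prot : Set Ord), Legit o Prot → ∀ i, (∃ r B g, o i = Opt.spec r B g) →
  (∀ z ≤ i, SS o z) → (∀ z ≤ i, LLp o Prot z) → LL o Prot (i + 1) → TopP o Prot i → SS o (i + 1)

/-- `SS` at limits. -/
def St_ssL : Prop := ∀ (o : Ord → Opt) (Prot : Set Ord), Legit o Prot → ∀ y, Order.IsSuccLimit y →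
  (∀ z < y, SS o z) → (∀ z ≤ y, LLp o Prot z) → TopL o Prot y → SS o y

end Pool.Agent.Helper919.SD
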