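import Pool.Agent.Helper919_SDT.Stmts

set_option autoImplicit false

/-!
# Lower bounds of decreasing sequences
-/

namespace Pool.Agent.Helper919.SD.Tsig

open Ordinal Cardinal Set Pool.Agent.Helper919.SD

variable {o : Ord → Opt} {Prot : Set Ord}

theorem supNA_eq {C : Set Ord} {ζ : Ord} (h : SupNA C ζ) : sSup C = ζ := by
  obtain ⟨h1, h2, h3⟩ := h
  refine IsLUB.csSup_eq ⟨fun α hα => (h1 α hα).le, fun b hb => ?_⟩ h3
  by_contra hn
  obtain ⟨α, hα, h4⟩ := h2 b (not_le.1 hn)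
  exact absurd (hb hα) (not_le_of_gt h4)

theorem supNA_lt {C : Set Ord} {ζ : Ord} (h : SupNA C ζ) (hC : C.Countable) (hlt : ∀ α ∈ C, α < ω_ 1) : ζ < ω_ 1 := by
  have := hC.to_subtype
  have h1 : (⨆ α : C, (α : Ord)) < ω_ 1 := Ordinal.iSup_lt_omega_one fun α => hlt α α.2
  have h2 : sSup C = ⨆ α : C, (α : Ord) := sSup_eq_iSup' C
  rw [← supNA_eq h, h2]; exact h1

section seq

variable {y : Ord} {q : ℕ → Cond}

theorem seq_le (hq : ∀ n, q n ∈ A o y) (hdec : ∀ n, CLe o (q (n + 1)) (q n)) {n m : ℕ} (h : n ≤ m) :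
    CLe o (q m) (q n) := by
  induction m, h using Nat.le_induction with
  | base => exact CLe.refl _
  | succ m hm ih => exact CLe.trans (hq n).1 (hdec m) ih

variable (o q)

/-- The lower bound. -/
def lb : Cond where
  J := ⋃ n, (q n).J
  C j := ⋃ n, (q n).C j
  u j α := ⋃ n, (q n).u j α
  T j α := ⋃ n, (q n).T j α
  F j := {ξ | (∃ n, j ∈ (q n).J) ∧ ((∃ n, ξ ∈ (q n).F j) ∨
    ∃ i γ, (∃ n, i + 1 ∈ (q n).J) ∧ o i = Opt.kill γ ∧ j = γ + 1 ∧ SupNA (⋃ n, (q n).C (i + 1)) ξ)}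
  Pr j := ⋃ n, (q n).Pr j

variable {o q}

theorem C_up (hq : ∀ n, q n ∈ A o y) (hdec : ∀ n, CLe o (q (n + 1)) (q n)) {n m : ℕ} (h : n ≤ m) {j α : Ord}
    (hα : α ∈ (q n).C j) : α ∈ (q m).C j := (seq_le hq hdec h).C j ((hq n).1.mem_J hα) hα

theorem u_up (hq : ∀ n, q n ∈ A o y) (hdec : ∀ n, CLe o (q (n + 1)) (q n)) {n m : ℕ} (h : n ≤ m) {j α : Ord}
    (hα : α ∈ (q n).C j) : (q m).u j α = (q n).u j α := (seq_le hq hdec h).u j ((hq n).1.mem_J hα) α hα

theorem T_up (hq : ∀ n, q n ∈ A o y) (hdec : ∀ n, CLe o (q (n + 1)) (q n)) {n m : ℕ} (h : n ≤ m) {j α : Ord}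
    (hα : α ∈ (q n).C j) : (q m).T j α = (q n).T j α := (seq_le hq hdec h).T j ((hq n).1.mem_J hα) α hα

theorem lb_C {j α : Ord} : α ∈ (lb o q).C j ↔ ∃ n, α ∈ (q n).C j := Set.mem_iUnion

theorem lb_J {j : Ord} : j ∈ (lb o q).J ↔ ∃ n, j ∈ (q n).J := Set.mem_iUnion

theorem lb_u (hq : ∀ n, q n ∈ A o y) (hdec : ∀ n, CLe o (q (n + 1)) (q n)) {n : ℕ} {j α : Ord}
    (hα : α ∈ (q n).C j) : (lb o q).u j α = (q n).u j α := by
  refine Set.Subset.antisymm (Set.iUnion_subset fun m => ?_) (Set.subset_iUnion (fun m => (q m).u j α) n)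
  by_cases hm : α ∈ (q m).C j
  · rw [← u_up hq hdec (le_max_left n m) hα, ← u_up hq hdec (le_max_right n m) hm]
  · rw [(hq m).1.u j α hm]; exact Set.empty_subset _

theorem lb_T (hq : ∀ n, q n ∈ A o y) (hdec : ∀ n, CLe o (q (n + 1)) (q n)) {n : ℕ} {j α : Ord}
    (hα : α ∈ (q n).C j) : (lb o q).T j α = (q n).T j α := by
  refine Set.Subset.antisymm (Set.iUnion_subset fun m => ?_) (Set.subset_iUnion (fun m => (q m).T j α) n)
  by_cases hm : α ∈ (q m).C j
  · rw [← T_up hq hdec (le_max_left n m) hα, ← T_up hq hdec (le_max_right n m) hm]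
  · rw [(hq m).1.T j α hm]; exact Set.empty_subset _

theorem lb_co (hq : ∀ n, q n ∈ A o y) (hdec : ∀ n, CLe o (q (n + 1)) (q n)) {n : ℕ} {j α : Ord}
    (hα : α ∈ (q n).C j) : co (lb o q) j α = co (q n) j α := by
  unfold co; rw [lb_u hq hdec hα]

/-- Two levels are levels of a common member. -/
theorem two (hq : ∀ n, q n ∈ A o y) (hdec : ∀ n, CLe o (q (n + 1)) (q n)) {j α β : Ord}
    (hα : α ∈ (lb o q).C j) (hβ : β ∈ (lb o q).C j) : ∃ n, α ∈ (q n).C j ∧ β ∈ (q n).C j := by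
  obtain ⟨n, hn⟩ := lb_C.1 hα
  obtain ⟨m, hm⟩ := lb_C.1 hβ
  exact ⟨max n m, C_up hq hdec (le_max_left _ _) hn, C_up hq hdec (le_max_right _ _) hm⟩

theorem lb_F {j ξ : Ord} (h : ξ ∈ (lb o q).F j) : (∃ n, ξ ∈ (q n).F j) ∨
    ∃ i γ, (∃ n, i + 1 ∈ (q n).J) ∧ o i = Opt.kill γ ∧ j = γ + 1 ∧ SupNA (⋃ n, (q n).C (i + 1)) ξ := h.2

theorem mem_lb_F {j ξ : Ord} {n : ℕ} (hj : j ∈ (q n).J) (h : ξ ∈ (q n).F j) : ξ ∈ (lb o q).F j :=
  ⟨⟨n, hj⟩, Or.inl ⟨n, h⟩⟩

theorem lb_le (hq : ∀ n, q n ∈ A o y) (hdec : ∀ n, CLe o (q (n + 1)) (q n)) (n : ℕ) : CLe o (lb o q) (q n) where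
  J := Set.subset_iUnion (fun n => (q n).J) n
  C j _ := Set.subset_iUnion (fun n => (q n).C j) n
  ee j hj α h1 h2 := by
    obtain ⟨m, hm⟩ := lb_C.1 h1
    rcases le_total m n with h | h
    · exact absurd (C_up hq hdec h hm) h2
    · exact (seq_le hq hdec h).ee j hj α hm h2
  u j _ α hα := lb_u hq hdec hα
  T j _ α hα := lb_T hq hdec hα
  F j hj ξ hξ := mem_lb_F hj hξ
  Pr j _ := Set.subset_iUnion (fun n => (q n).Pr j) n
  kl i γ hi ho α h1 h2 := by
    obtain ⟨m, hm⟩ := lb_C.1 h1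
    rcases le_total m n with h | h
    · exact absurd (C_up hq hdec h hm) h2
    · exact (seq_le hq hdec h).kl i γ hi ho α hm h2

theorem lb_nrm (hq : ∀ n, q n ∈ A o y) : Nrm (lb o q) where
  J := Set.countable_iUnion fun n => (hq n).1.J
  C j hj := by
    refine Set.iUnion_eq_empty.2 fun n => (hq n).1.C j fun h => hj (lb_J.2 ⟨n, h⟩)
  F j hj := by
    ext ξ
    exact ⟨fun h => absurd (lb_J.2 h.1) hj, fun h => absurd h (Set.notMem_empty _)⟩
  Pr j hj := by
    refine Set.iUnion_eq_empty.2 fun n => (hq n).1.Pr j fun h => hj (lb_J.2 ⟨n, h⟩)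
  u j α hα := by
    refine Set.iUnion_eq_empty.2 fun n => (hq n).1.u j α fun h => hα (lb_C.2 ⟨n, h⟩)
  T j α hα := by
    refine Set.iUnion_eq_empty.2 fun n => (hq n).1.T j α fun h => hα (lb_C.2 ⟨n, h⟩)

theorem lb_core (hq : ∀ n, q n ∈ A o y) (hdec : ∀ n, CLe o (q (n + 1)) (q n)) (j : Ord) : LegCore (lb o q) j := by
  constructor
  case Cc =>
    refine Set.countable_iUnion fun n => ?_
    by_cases hj : j ∈ (q n).J
    · exact (A.core (hq n) hj).Cc
    · rw [(hq n).1.C j hj]; exact Set.countable_empty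
  case Clim =>
    intro α hα
    obtain ⟨n, hn⟩ := lb_C.1 hα
    exact (A.core' (hq n) hn).Clim α hn
  case Clt =>
    intro α hα
    obtain ⟨n, hn⟩ := lb_C.1 hα
    exact (A.core' (hq n) hn).Clt α hn
  case uc =>
    intro α hα
    obtain ⟨n, hn⟩ := lb_C.1 hα
    rw [lb_u hq hdec hn]
    exact (A.core' (hq n) hn).uc α hn
  case ult =>
    intro α hα
    obtain ⟨n, hn⟩ := lb_C.1 hα
    rw [lb_u hq hdec hn]
    exact (A.core' (hq n) hn).ult α hn
  case ucl =>
    intro α hα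
    obtain ⟨n, hn⟩ := lb_C.1 hα
    rw [lb_u hq hdec hn]
    exact (A.core' (hq n) hn).ucl α hn
  case u0 =>
    intro α hα
    obtain ⟨n, hn⟩ := lb_C.1 hα
    rw [lb_u hq hdec hn]
    exact (A.core' (hq n) hn).u0 α hn
  case us =>
    intro α hα
    obtain ⟨n, hn⟩ := lb_C.1 hα
    rw [lb_u hq hdec hn]
    exact (A.core' (hq n) hn).us α hn
  case Tc =>
    intro α hα
    obtain ⟨n, hn⟩ := lb_C.1 hα
    rw [lb_T hq hdec hn]
    exact (A.core' (hq n) hn).Tc α hn
  case Tn =>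
    intro α hα
    obtain ⟨n, hn⟩ := lb_C.1 hα
    rw [lb_T hq hdec hn]
    exact (A.core' (hq n) hn).Tn α hn
  case Ts =>
    intro α hα
    obtain ⟨n, hn⟩ := lb_C.1 hα
    rw [lb_T hq hdec hn, lb_co hq hdec hn]
    exact (A.core' (hq n) hn).Ts α hn
  case L1J =>
    intro α hα z hz
    obtain ⟨n, hn⟩ := lb_C.1 hα
    rw [lb_u hq hdec hn] at hz
    obtain ⟨h1, h2⟩ := (A.core' (hq n) hn).L1J α hn z hz
    exact ⟨lb_J.2 ⟨n, h1⟩, lb_C.2 ⟨n, h2⟩⟩
  case L1u =>
    intro α hα z hz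
    obtain ⟨n, hn⟩ := lb_C.1 hα
    rw [lb_u hq hdec hn] at hz ⊢
    have h2 := ((A.core' (hq n) hn).L1J α hn z hz).2
    rw [lb_u hq hdec h2]
    exact (A.core' (hq n) hn).L1u α hn z hz
  case L1T =>
    intro α hα z hz
    obtain ⟨n, hn⟩ := lb_C.1 hα
    rw [lb_u hq hdec hn] at hz
    have h2 := ((A.core' (hq n) hn).L1J α hn z hz).2
    rw [lb_T hq hdec h2, lb_T hq hdec hn]
    exact (A.core' (hq n) hn).L1T α hn z hz
  case L2u =>
    intro α hα β hβ hab
    obtain ⟨n, hn, hn'⟩ := two hq hdec hα hβ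
    rw [lb_u hq hdec hn, lb_u hq hdec hn']
    exact (A.core' (hq n) hn).L2u α hn β hn' hab
  case L2 =>
    intro α hα β hβ hab
    obtain ⟨n, hn, hn'⟩ := two hq hdec hα hβ
    rw [lb_T hq hdec hn, lb_T hq hdec hn', lb_co hq hdec hn]
    exact (A.core' (hq n) hn).L2 α hn β hn' hab
  case L3 =>
    intro α hα β hβ hab
    obtain ⟨n, hn, hn'⟩ := two hq hdec hα hβ
    rw [lb_T hq hdec hn, lb_T hq hdec hn', lb_co hq hdec hn]
    exact (A.core' (hq n) hn).L3 α hn β hn' hab
  case Fc =>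
    have h1 : ((⋃ n, (q n).F j) ∪ (fun z => sSup (⋃ n, (q n).C z)) '' (⋃ n, (q n).J)).Countable := by
      refine Set.Countable.union (Set.countable_iUnion fun n => ?_) ((Set.countable_iUnion fun n => (hq n).1.J).image _)
      by_cases hj : j ∈ (q n).J
      · exact (A.core (hq n) hj).Fc
      · rw [(hq n).1.F j hj]; exact Set.countable_empty
    refine h1.mono fun ξ hξ => ?_
    rcases lb_F hξ with h | ⟨i, γ, h2, h3, h4, h5⟩
    · exact Or.inl (Set.mem_iUnion.2 h)
    · exact Or.inr ⟨i + 1, Set.mem_iUnion.2 h2, supNA_eq h5⟩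
  case Flt =>
    intro ξ hξ
    rcases lb_F hξ with ⟨n, h⟩ | ⟨i, γ, h2, h3, h4, h5⟩
    · have hj : j ∈ (q n).J := by
        by_contra hj; rw [(hq n).1.F j hj] at h; exact h
      exact (A.core (hq n) hj).Flt ξ h
    · refine supNA_lt h5 (Set.countable_iUnion fun n => ?_) fun α hα => ?_
      · by_cases hj : i + 1 ∈ (q n).J
        · exact (A.core (hq n) hj).Cc
        · rw [(hq n).1.C _ hj]; exact Set.countable_empty
      · obtain ⟨n, hn⟩ := Set.mem_iUnion.1 hα
        exact (A.core' (hq n) hn).Clt α hn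
  case Prc =>
    refine Set.countable_iUnion fun n => ?_
    by_cases hj : j ∈ (q n).J
    · exact (A.core (hq n) hj).Prc
    · rw [(hq n).1.Pr j hj]; exact Set.countable_empty

/-- Extensions of nodes of the lower bound extend nodes of the members. -/
theorem kle_lb (hq : ∀ n, q n ∈ A o y) (hdec : ∀ n, CLe o (q (n + 1)) (q n)) {n : ℕ} {i α : Ord} {b : Thr} {c : Cnd}
    (hα : α ∈ (q n).C (i + 1)) (h : KLe o c ⟨(lb o q).res i, i, α, b⟩) : KLe o c ⟨(q n).res i, i, α, b⟩ := by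
  have hc := A.core' (hq n) hα
  have hαi : α ∈ (q n).C i := (hc.L1J α hα i (hc.us α hα i (Or.inr rfl))).2
  refine ⟨CLe.trans (nrm_res (hq n).1 i) h.p ((lb_le hq hdec n).res i), h.α, h.j, ?_⟩
  have h1 := h.t
  change Agr (co ((lb o q).res i) i α) α c.t b at h1
  change Agr (co ((q n).res i) i α) α c.t b
  rw [res_co _ _ le_rfl] at h1 ⊢
  rw [lb_co hq hdec hαi] at h1
  exact h1

end seq

theorem job_sig : St_sig := by
  intro o Prot hl y q hq hdec
  have hadd : ∀ {i j : Ord}, i + 1 = j + 1 → i = j := by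
    intro i j h
    rw [← Order.succ_eq_add_one, ← Order.succ_eq_add_one] at h
    exact Order.succ_injective h
  refine ⟨lb o q, ⟨lb_nrm hq, fun j hj => ?_⟩, lb_le hq hdec, rfl, fun _ => rfl, fun _ => rfl⟩
  obtain ⟨n₀, hn₀⟩ := lb_J.1 hj
  refine ⟨A.le (hq n₀) hn₀, (Leg_iff o j _).2 ⟨lb_core hq hdec j, ?_, ?_⟩⟩
  · intro hns
    constructor
    · ext ξ
      refine ⟨fun hξ => ?_, fun hξ => absurd hξ (Set.notMem_empty _)⟩
      rcases lb_F hξ with ⟨n, h⟩ | ⟨i, γ, h2, h3, h4, h5⟩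
      · by_cases hj' : j ∈ (q n).J
        · rw [(((Leg_iff o j _).1 (A.leg (hq n) hj')).2.1 hns).1] at h; exact h
        · rw [(hq n).1.F j hj'] at h; exact h
      · exact absurd ⟨γ, h4.symm⟩ hns
    · refine Set.iUnion_eq_empty.2 fun n => ?_
      by_cases hj' : j ∈ (q n).J
      · exact (((Leg_iff o j _).1 (A.leg (hq n) hj')).2.1 hns).2
      · exact (hq n).1.Pr j hj'
  · rintro i rfl
    have hopt : ∀ n, i + 1 ∈ (q n).J → LegOpt o (PP o i) (q n) i := fun n h => A.opt (hq n) h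
    unfold LegOpt
    cases ho : o i with
    | coh =>
      have hopt' : ∀ n, i + 1 ∈ (q n).J → LegCoh (q n) i := by
        intro n h; have := hopt n h; unfold LegOpt at this; simpa only [ho] using this
      refine ⟨?_, ?_, ?_⟩
      · intro α hα
        obtain ⟨n, hn⟩ := lb_C.1 hα
        rw [lb_T hq hdec hn]
        exact (hopt' n ((hq n).1.mem_J hn)).v01 α hn
      · intro α hα t ht ξ hξ hξα
        obtain ⟨n, hn⟩ := lb_C.1 hα
        have ht' := ht
        rw [lb_T hq hdec hn] at ht'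
        rcases lb_F hξ with ⟨m, h⟩ | ⟨i', γ, ⟨m, hm⟩, h3, h4, h5⟩
        · have hjm : i + 1 ∈ (q m).J := by
            by_contra hj'; rw [(hq m).1.F _ hj'] at h; exact h
          have hN := C_up hq hdec (le_max_left n m) hn
          rw [← T_up hq hdec (le_max_left n m) hn] at ht'
          exact (hopt' _ ((hq _).1.mem_J hN)).F1 α hN t ht' ξ
            ((seq_le hq hdec (le_max_right n m)).F _ hjm h) hξα
        · have hγ : γ = i := (hadd h4).symm
          subst hγ
          rcases (hopt' n ((hq n).1.mem_J hn)).v01 α hn t ht' ξ 0 with h0 | h0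
          swap
          · exact h0
          set M := max n m with hM
          have hN : α ∈ (q M).C (γ + 1) := C_up hq hdec (le_max_left n m) hn
          have hiM : i' + 1 ∈ (q M).J := (seq_le hq hdec (le_max_right n m)).J hm
          rw [← T_up hq hdec (le_max_left n m) hn] at ht'
          by_cases hne : ∃ α' ∈ ⋃ n, (q n).C (i' + 1), α' ∉ (q M).C (i' + 1)
          · exfalso
            obtain ⟨α', h6, h7⟩ := hne
            obtain ⟨k, hk⟩ := Set.mem_iUnion.1 h6
            have h8 : ξ < α' := by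
              rcases le_total k M with h | h
              · exact absurd (C_up hq hdec h hk) h7
              · exact (seq_le hq hdec h).kl i' γ hiM h3 α' hk h7 α hN t ht' ξ hξα h0
            exact absurd (h5.1 α' h6) (not_lt_of_gt h8)
          · push Not at hne
            have h6 : (⋃ n, (q n).C (i' + 1)) = (q M).C (i' + 1) :=
              Set.Subset.antisymm hne (Set.subset_iUnion (fun n => (q n).C (i' + 1)) M)
            rw [h6] at h5
            have h7 := A.opt (hq M) hiM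
            unfold LegOpt at h7
            simp only [h3] at h7
            exact (hopt' M ((hq M).1.mem_J hN)).F1 α hN t ht' ξ (h7.K ξ h5) hξα
      · refine Set.iUnion_eq_empty.2 fun n => ?_
        by_cases hj' : i + 1 ∈ (q n).J
        · exact (hopt' n hj').Pr0
        · exact (hq n).1.Pr _ hj'
    | kill γ =>
      have hopt' : ∀ n, i + 1 ∈ (q n).J → LegKill (q n) i γ := by
        intro n h; have := hopt n h; unfold LegOpt at this; simpa only [ho] using this
      refine ⟨?_, ?_, ?_, ?_, ?_, ?_, ?_, ?_⟩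
      · intro α hα
        obtain ⟨n, hn⟩ := lb_C.1 hα
        rw [lb_u hq hdec hn]
        exact (hopt' n ((hq n).1.mem_J hn)).rg α hn
      · intro α hα
        obtain ⟨n, hn⟩ := lb_C.1 hα
        rw [lb_T hq hdec hn]
        exact (hopt' n ((hq n).1.mem_J hn)).v01 α hn
      · intro α hα
        obtain ⟨n, hn⟩ := lb_C.1 hα
        rw [lb_T hq hdec hn]
        exact (hopt' n ((hq n).1.mem_J hn)).top α hn
      · intro α hα
        obtain ⟨n, hn⟩ := lb_C.1 hα
        rw [lb_T hq hdec hn]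
        exact (hopt' n ((hq n).1.mem_J hn)).cl α hn
      · intro α hα
        obtain ⟨n, hn⟩ := lb_C.1 hα
        rw [lb_T hq hdec hn]
        exact (hopt' n ((hq n).1.mem_J hn)).sub α hn
      · intro ζ hζ
        obtain ⟨α, hα⟩ := hζ.2.2
        obtain ⟨n, hn⟩ := lb_C.1 hα
        have h1 := (hopt' n ((hq n).1.mem_J hn)).rg α hn
        have h2 := ((A.core' (hq n) hn).L1J α hn _ h1).1
        exact ⟨⟨n, h2⟩, Or.inr ⟨i, γ, ⟨n, (hq n).1.mem_J hn⟩, ho, rfl, hζ⟩⟩
      · ext ξ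
        refine ⟨fun hξ => ?_, fun hξ => absurd hξ (Set.notMem_empty _)⟩
        rcases lb_F hξ with ⟨n, h⟩ | ⟨i', γ', h2, h3, h4, h5⟩
        · by_cases hj' : i + 1 ∈ (q n).J
          · rw [(hopt' n hj').F0] at h; exact h
          · rw [(hq n).1.F _ hj'] at h; exact h
        · have hγ : γ' = i := (hadd h4).symm
          have h6 := (hl.kill h3).2.1
          rw [hγ, ho] at h6
          exact absurd h6 (by simp)
      · refine Set.iUnion_eq_empty.2 fun n => ?_
        by_cases hj' : i + 1 ∈ (q n).J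
        · exact (hopt' n hj').Pr0
        · exact (hq n).1.Pr _ hj'
    | spec r B g =>
      have hopt' : ∀ n, i + 1 ∈ (q n).J → LegSpec o (PP o i) (q n) i r B g := by
        intro n h; have := hopt n h; unfold LegOpt at this; simpa only [ho] using this
      have hci : ∀ n, ∀ α ∈ (q n).C (i + 1), α ∈ (q n).C i := by
        intro n α hα
        have hc := A.core' (hq n) hα
        exact (hc.L1J α hα i (hc.us α hα i (Or.inr rfl))).2
      refine ⟨?_, ?_, ?_, ?_, ?_, ?_, ?_⟩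
      · intro α hα
        obtain ⟨n, hn⟩ := lb_C.1 hα
        rw [lb_T hq hdec hn]
        exact (hopt' n ((hq n).1.mem_J hn)).z0 α hn
      · intro α hα t ht c hc hle
        obtain ⟨n, hn⟩ := lb_C.1 hα
        rw [lb_T hq hdec hn] at ht
        exact (hopt' n ((hq n).1.mem_J hn)).inc α hn t ht c hc (kle_lb hq hdec hn hle)
      · intro α hα t ht c hc hle
        obtain ⟨n, hn⟩ := lb_C.1 hα
        rw [lb_T hq hdec hn] at ht
        exact (hopt' n ((hq n).1.mem_J hn)).bd α hn t ht c hc (kle_lb hq hdec hn hle)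
      · intro α₀ hα₀ α hα hlt z₀ hz₀ a ha hag c hc hle
        obtain ⟨n, hn₀, hn⟩ := two hq hdec hα₀ hα
        rw [lb_T hq hdec hn₀] at hz₀
        rw [lb_T hq hdec (hci n α hn)] at ha
        rw [lb_co hq hdec (hci n α₀ hn₀)] at hag
        rw [lb_T hq hdec hn, lb_co hq hdec hn₀]
        exact (hopt' n ((hq n).1.mem_J hn)).sep α₀ hn₀ α hn hlt z₀ hz₀ a ha hag c hc (kle_lb hq hdec hn hle)
      · intro e he
        obtain ⟨n, hn⟩ := Set.mem_iUnion.1 he
        have hj' : i + 1 ∈ (q n).J := by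
          by_contra hj'; rw [(hq n).1.Pr _ hj'] at hn; exact hn
        obtain ⟨h1, h2, h3⟩ := (hopt' n hj').Pr e hn
        refine ⟨lb_C.2 ⟨n, h1⟩, ?_, h3⟩
        rw [lb_T hq hdec h1]; exact h2
      · intro e he α hα hle z hz hag c hc hle'
        obtain ⟨m, hm⟩ := Set.mem_iUnion.1 he
        obtain ⟨n, hn⟩ := lb_C.1 hα
        have hjm : i + 1 ∈ (q m).J := by
          by_contra hj'; rw [(hq m).1.Pr _ hj'] at hm; exact hm
        have hN := C_up hq hdec (le_max_left n m) hn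
        have hjN := (hq _).1.mem_J hN
        have heN : e ∈ (q (max n m)).Pr (i + 1) := (seq_le hq hdec (le_max_right n m)).Pr _ hjm hm
        have he1 := ((hopt' _ hjN).Pr e heN).1
        rw [lb_T hq hdec hN] at hz
        rw [lb_co hq hdec he1] at hag
        exact (hopt' _ hjN).prom e heN α hN hle z hz hag c hc (kle_lb hq hdec hN hle')
      · ext ξ
        refine ⟨fun hξ => ?_, fun hξ => absurd hξ (Set.notMem_empty _)⟩
        rcases lb_F hξ with ⟨n, h⟩ | ⟨i', γ', h2, h3, h4, h5⟩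
        · by_cases hj' : i + 1 ∈ (q n).J
          · rw [(hopt' n hj').F0] at h; exact h
          · rw [(hq n).1.F _ hj'] at h; exact h
        · have hγ : γ' = i := (hadd h4).symm
          have h6 := (hl.kill h3).2.1
          rw [hγ, ho] at h6
          exact absurd h6 (by simp)

end Pool.Agent.Helper919.SD.Tsig
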